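import Mathlib
import Pool.Agent.Run7.h17.BDH2

/-! The theorem of Barban, Davenport and Halberstam for bounded functions with small sums over the classes of
the moduli up to `q₀`, with explicit dependence on all parameters. -/

set_option autoImplicit false

namespace Pool.Agent.Run7.h17.BDH

open Finset Pool.Agent.Helper112

lemma ls_le (f : ℕ → ℂ) (hf : ∀ n, ‖f n‖ ≤ 1) (x R : ℕ) :
    ∑ b ∈ Icc 1 R, ∑ a ∈ (range b).filter (fun a => a.Coprime b), ‖FF f x ((a : ℝ) / b)‖ ^ 2 ≤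
      6 * (x + (R : ℝ) ^ 2) * x := by
  have h11 := additive_large_sieve x R f
  have h12 : ∑ n ∈ Icc 1 x, ‖f n‖ ^ 2 ≤ x := by
    calc ∑ n ∈ Icc 1 x, ‖f n‖ ^ 2 ≤ ∑ n ∈ Icc 1 x, (1 : ℝ) :=
          sum_le_sum fun n _ => pow_le_one₀ (norm_nonneg _) (hf n)
      _ = x := by simp
  have h13 : ∀ b a : ℕ, FF f x ((a : ℝ) / b) = ∑ n ∈ Icc 1 x, f n * ee (n * a / b) := by
    intro b a
    unfold FF
    refine sum_congr rfl fun n _ => ?_
    rw [mul_div_assoc]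
  simp_rw [h13]
  exact h11.trans (mul_le_mul_of_nonneg_left h12 (by positivity))

/-- the second moments, dyadic version -/
lemma secondL (f : ℕ → ℂ) (hf : ∀ n, ‖f n‖ ≤ 1) (x q₀ Q J : ℕ) (κ : ℝ) (hκ : 0 ≤ κ) (hq₀ : 0 < q₀)
    (hJ : Q ≤ 2 ^ (J + 1) * q₀) (h : Eqd f x q₀ κ) :
    ∑ q ∈ Icc 1 Q, (q : ℝ) * ∑ c ∈ range q, ‖cs f q c x‖ ^ 2 ≤
      Q * x ^ 2 * (q₀ ^ 3 * κ ^ 2) + (12 * Q * x ^ 2 / q₀ + 12 * (J + 1) * Q ^ 2 * x) := by
  have h1 : ∑ q ∈ Icc 1 Q, (q : ℝ) * ∑ c ∈ range q, ‖cs f q c x‖ ^ 2 =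
      ∑ q ∈ Icc 1 Q, ∑ r ∈ range q, ‖FF f x ((r : ℝ) / q)‖ ^ 2 := by
    refine sum_congr rfl fun q hq => ?_
    rw [mem_Icc] at hq
    rw [parseval f x q (by omega)]
  rw [h1, regroup Q (fun θ => ‖FF f x θ‖ ^ 2)]
  have hq₀' : (0 : ℝ) < q₀ := by exact_mod_cast hq₀
  set s : ℕ → ℝ := fun b => ∑ a ∈ (range b).filter (fun a => a.Coprime b), ‖FF f x ((a : ℝ) / b)‖ ^ 2 with hs
  have hs0 : ∀ b, 0 ≤ s b := fun b => sum_nonneg fun _ _ => sq_nonneg _
  -- small denominators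
  have hsmall : ∀ b, 1 ≤ b → b ≤ q₀ → ∀ a : ℕ, ‖FF f x ((a : ℝ) / b)‖ ^ 2 ≤ (q₀ * κ * x) ^ 2 := by
    intro b hb1 hb a
    have h2 : ‖FF f x ((a : ℝ) / b)‖ ≤ q₀ * κ * x := by
      rw [FF_classes f x b a hb1]
      refine (norm_sum_le _ _).trans ?_
      calc ∑ c ∈ range b, ‖cs f b c x * ee ((c : ℝ) * ((a : ℝ) / b))‖
          ≤ ∑ c ∈ range b, κ * x := by
            refine sum_le_sum fun c _ => ?_
            rw [norm_mul, ls_norm_ee, mul_one]
            exact h b hb1 hb c x le_rfl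
        _ = b * (κ * x) := by rw [sum_const, card_range, nsmul_eq_mul]
        _ ≤ q₀ * (κ * x) := by
            apply mul_le_mul_of_nonneg_right _ (by positivity)
            exact_mod_cast hb
        _ = q₀ * κ * x := by ring
    exact pow_le_pow_left₀ (norm_nonneg _) h2 2
  have h3 : ∀ b ∈ Icc 1 Q, ∑ a ∈ (range b).filter (fun a => a.Coprime b),
      ((Q / b : ℕ) : ℝ) * ‖FF f x ((a : ℝ) / b)‖ ^ 2 ≤
      (if b ≤ q₀ then (Q : ℝ) * (q₀ * κ * x) ^ 2 else 0) +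
        ∑ j ∈ range (J + 1), if b ≤ 2 ^ (j + 1) * q₀ then (Q : ℝ) / (2 ^ j * q₀) * s b else 0 := by
    intro b hb
    rw [mem_Icc] at hb
    have hb0 : (0 : ℝ) < b := by exact_mod_cast hb.1
    have h4 : ((Q / b : ℕ) : ℝ) ≤ (Q : ℝ) / b := Nat.cast_div_le
    have hnn : ∀ j ∈ range (J + 1), 0 ≤ if b ≤ 2 ^ (j + 1) * q₀ then (Q : ℝ) / (2 ^ j * q₀) * s b else 0 := by
      intro j _
      have := hs0 b
      split_ifs <;> positivity
    split_ifs with hbq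
    · have h5 : ∑ a ∈ (range b).filter (fun a => a.Coprime b),
          ((Q / b : ℕ) : ℝ) * ‖FF f x ((a : ℝ) / b)‖ ^ 2 ≤
          ∑ a ∈ range b, (Q : ℝ) / b * (q₀ * κ * x) ^ 2 := by
        refine (sum_le_sum_of_subset_of_nonneg (filter_subset _ _) fun _ _ _ => by positivity).trans ?_
        refine sum_le_sum fun a _ => ?_
        exact mul_le_mul h4 (hsmall b hb.1 hbq a) (sq_nonneg _) (by positivity)
      rw [sum_const, card_range, nsmul_eq_mul] at h5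
      have h6 : (b : ℝ) * ((Q : ℝ) / b * (q₀ * κ * x) ^ 2) = (Q : ℝ) * (q₀ * κ * x) ^ 2 := by
        field_simp
      rw [h6] at h5
      have h7 := sum_nonneg hnn
      linarith
    · push Not at hbq
      rw [zero_add]
      -- the smallest j
      have hex : ∃ j, b ≤ 2 ^ (j + 1) * q₀ := ⟨J, hb.2.trans hJ⟩
      classical
      set j := Nat.find hex with hj
      have hj1 : b ≤ 2 ^ (j + 1) * q₀ := Nat.find_spec hex
      have hj2 : j ≤ J := Nat.find_min' hex (hb.2.trans hJ)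
      have hj3 : 2 ^ j * q₀ < b := by
        rcases Nat.eq_zero_or_pos j with h0 | h0
        · rw [h0, pow_zero, one_mul]
          exact hbq
        · have := Nat.find_min hex (m := j - 1) (by omega)
          rw [Nat.sub_add_cancel h0] at this
          omega
      have h5 : ∑ a ∈ (range b).filter (fun a => a.Coprime b), ((Q / b : ℕ) : ℝ) * ‖FF f x ((a : ℝ) / b)‖ ^ 2 ≤
          (Q : ℝ) / (2 ^ j * q₀) * s b := by
        rw [hs, mul_sum]
        refine sum_le_sum fun a _ => mul_le_mul_of_nonneg_right (h4.trans ?_) (sq_nonneg _)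
        apply div_le_div_of_nonneg_left (by positivity) (by positivity)
        exact_mod_cast hj3.le
      refine h5.trans ?_
      have h6 := single_le_sum hnn (mem_range.mpr (Nat.lt_succ_of_le hj2))
      rw [if_pos hj1] at h6
      exact h6
  refine (sum_le_sum h3).trans ?_
  rw [sum_add_distrib]
  have h8 : ∑ b ∈ Icc 1 Q, (if b ≤ q₀ then (Q : ℝ) * (q₀ * κ * x) ^ 2 else 0) ≤
      Q * x ^ 2 * (q₀ ^ 3 * κ ^ 2) := by
    rw [← sum_filter]
    have h9 : ((Icc 1 Q).filter (fun b => b ≤ q₀)).card ≤ q₀ := by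
      calc ((Icc 1 Q).filter (fun b => b ≤ q₀)).card ≤ (Icc 1 q₀).card := by
            apply card_le_card
            intro b hb
            rw [mem_filter, mem_Icc] at hb
            rw [mem_Icc]
            exact ⟨hb.1.1, hb.2⟩
        _ = q₀ := by rw [Nat.card_Icc, Nat.add_sub_cancel]
    rw [sum_const, nsmul_eq_mul]
    calc (((Icc 1 Q).filter (fun b => b ≤ q₀)).card : ℝ) * ((Q : ℝ) * (q₀ * κ * x) ^ 2) ≤
        q₀ * ((Q : ℝ) * (q₀ * κ * x) ^ 2) := by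
          apply mul_le_mul_of_nonneg_right _ (by positivity)
          exact_mod_cast h9
      _ = _ := by ring
  refine add_le_add h8 ?_
  rw [sum_comm]
  have h10 : ∀ j ∈ range (J + 1), ∑ b ∈ Icc 1 Q, (if b ≤ 2 ^ (j + 1) * q₀ then (Q : ℝ) / (2 ^ j * q₀) * s b else 0) ≤
      6 * Q * x ^ 2 / q₀ * (1 / 2) ^ j + 12 * Q ^ 2 * x := by
    intro j _
    set R : ℕ := min (2 ^ (j + 1) * q₀) Q with hR
    have e1 : ∑ b ∈ Icc 1 Q, (if b ≤ 2 ^ (j + 1) * q₀ then (Q : ℝ) / (2 ^ j * q₀) * s b else 0) =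
        (Q : ℝ) / (2 ^ j * q₀) * ∑ b ∈ Icc 1 R, s b := by
      rw [← sum_filter, mul_sum]
      refine sum_congr ?_ fun _ _ => rfl
      ext b
      rw [mem_filter, mem_Icc, mem_Icc, hR, le_min_iff]
      tauto
    have e2 := ls_le f hf x R
    have e3 : (R : ℝ) ^ 2 ≤ 2 ^ (j + 1) * q₀ * Q := by
      rw [sq]
      have a1 : (R : ℝ) ≤ 2 ^ (j + 1) * q₀ := by exact_mod_cast min_le_left _ _
      have a2 : (R : ℝ) ≤ Q := by exact_mod_cast min_le_right _ _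
      exact mul_le_mul a1 a2 (Nat.cast_nonneg _) (by positivity)
    rw [e1]
    calc (Q : ℝ) / (2 ^ j * q₀) * ∑ b ∈ Icc 1 R, s b
        ≤ (Q : ℝ) / (2 ^ j * q₀) * (6 * (x + 2 ^ (j + 1) * q₀ * Q) * x) := by
          apply mul_le_mul_of_nonneg_left _ (by positivity)
          refine e2.trans ?_
          apply mul_le_mul_of_nonneg_right _ (Nat.cast_nonneg _)
          linarith
      _ = 6 * Q * x ^ 2 / q₀ * (1 / 2) ^ j + 12 * Q ^ 2 * x := by
          rw [one_div, inv_pow, pow_succ]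
          field_simp
          ring
  refine (sum_le_sum h10).trans ?_
  rw [sum_add_distrib, sum_const, card_range, nsmul_eq_mul, ← mul_sum]
  have h11 : ∑ j ∈ range (J + 1), (1 / 2 : ℝ) ^ j ≤ 2 := by
    have := geom_sum_eq (by norm_num : (1 / 2 : ℝ) ≠ 1) (J + 1)
    rw [this]
    have e1 : (0 : ℝ) ≤ (1 / 2) ^ (J + 1) := by positivity
    have e2 : ((1 / 2 : ℝ) ^ (J + 1) - 1) / (1 / 2 - 1) = 2 * (1 - (1 / 2) ^ (J + 1)) := by ring
    rw [e2]
    linarith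
  have h12 : 6 * (Q : ℝ) * x ^ 2 / q₀ * ∑ j ∈ range (J + 1), (1 / 2 : ℝ) ^ j ≤ 6 * (Q : ℝ) * x ^ 2 / q₀ * 2 :=
    mul_le_mul_of_nonneg_left h11 (by positivity)
  push_cast
  calc _ ≤ 6 * (Q : ℝ) * x ^ 2 / q₀ * 2 + (J + 1) * (12 * Q ^ 2 * x) := by linarith
    _ = _ := by ring

/-- first moments, dyadic version -/
lemma firstL (f : ℕ → ℂ) (hf : ∀ n, ‖f n‖ ≤ 1) (x q₀ Q J : ℕ) (κ : ℝ) (hκ : 0 ≤ κ) (hq₀ : 0 < q₀)
    (hJ : Q ≤ 2 ^ (J + 1) * q₀) (h : Eqd f x q₀ κ) :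
    (∑ q ∈ Icc 1 Q, ∑ c ∈ range q, ‖cs f q c x‖) ^ 2 ≤
      Q * (Q * x ^ 2 * (q₀ ^ 3 * κ ^ 2) + (12 * Q * x ^ 2 / q₀ + 12 * (J + 1) * Q ^ 2 * x)) := by
  have h1 : ∀ q ∈ Icc 1 Q, (∑ c ∈ range q, ‖cs f q c x‖) ^ 2 ≤ q * ∑ c ∈ range q, ‖cs f q c x‖ ^ 2 := by
    intro q _
    have := sq_sum_le_card_mul_sum_sq (s := range q) (f := fun c => ‖cs f q c x‖)
    rwa [card_range] at this
  have h2 := sq_sum_le_card_mul_sum_sq (s := Icc 1 Q) (f := fun q => ∑ c ∈ range q, ‖cs f q c x‖)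
  rw [Nat.card_Icc, Nat.add_sub_cancel] at h2
  refine h2.trans (mul_le_mul_of_nonneg_left ?_ (Nat.cast_nonneg _))
  exact (sum_le_sum h1).trans (secondL f hf x q₀ Q J κ hκ hq₀ hJ h)

/-- with cut-offs, all parameters explicit -/
lemma bdhP (f : ℕ → ℂ) (hf : ∀ n, ‖f n‖ ≤ 1) (x q₀ Q J T : ℕ) (κ E : ℝ) (hκ : 0 ≤ κ) (hq₀ : 0 < q₀) (hT : 0 < T)
    (hJ : Q ≤ 2 ^ (J + 1) * q₀) (h : Eqd f x q₀ κ) (hE : 0 ≤ E) (hx : 0 < x)
    (hE1 : (q₀ : ℝ) ^ 3 * (2 * κ) ^ 2 + 12 / q₀ + 12 * (J + 1) * Q / x ≤ E ^ 2)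
    (Y : ℕ → ℕ → ℕ) (hY : ∀ q c, Y q c ≤ x) :
    ∑ q ∈ Icc 1 Q, ∑ c ∈ range q, ‖cs f q c (Y q c)‖ ≤
      T * (Q * x * E) + (Q * ((x : ℝ) / T + 1) + (Q : ℝ) ^ 2) := by
  refine maxed f hf x Q T hT _ (fun u v huv => ?_) Y hY
  have h1 := firstL (blk f u v) (blk_norm f hf u v) x q₀ Q J (2 * κ) (by positivity) hq₀ hJ (Eqd_blk h u v huv)
  have hx0 : (0 : ℝ) < x := by exact_mod_cast hx
  have hq0 : (0 : ℝ) < q₀ := by exact_mod_cast hq₀
  have h2 : (Q : ℝ) * (Q * x ^ 2 * (q₀ ^ 3 * (2 * κ) ^ 2) + (12 * Q * x ^ 2 / q₀ + 12 * (J + 1) * Q ^ 2 * x)) ≤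
      (Q * x * E) ^ 2 := by
    calc (Q : ℝ) * (Q * x ^ 2 * (q₀ ^ 3 * (2 * κ) ^ 2) + (12 * Q * x ^ 2 / q₀ + 12 * (J + 1) * Q ^ 2 * x))
        = (Q * x) ^ 2 * ((q₀ : ℝ) ^ 3 * (2 * κ) ^ 2 + 12 / q₀ + 12 * (J + 1) * Q / x) := by
          field_simp
          ring
      _ ≤ (Q * x) ^ 2 * E ^ 2 := mul_le_mul_of_nonneg_left hE1 (by positivity)
      _ = _ := by ring
  exact le_of_abs_le (abs_le_of_sq_le_sq (h1.trans h2) (by positivity))

/-- **Powers of logarithms.** -/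
theorem bdh_log (V : ℕ) : ∃ c : ℕ, ∃ N₀ : ℕ, ∀ N : ℕ, N₀ ≤ N → ∀ x : ℕ, N ≤ x → (x : ℝ) ≤ Real.log N * N →
    ∀ f : ℕ → ℂ, (∀ n, ‖f n‖ ≤ 1) →
    Eqd f x ⌈Real.log N ^ (4 * V + 12)⌉₊ (1 / Real.log N ^ (8 * V + 24)) →
    ∀ Q : ℕ, Q * Real.log N ^ c ≤ N → ∀ Y : ℕ → ℕ → ℕ, (∀ q c, Y q c ≤ x) →
      ∑ q ∈ Icc 1 Q, ∑ c ∈ range q, ‖cs f q c (Y q c)‖ ≤ Q * x / Real.log N ^ V := by
  obtain ⟨m₁, h1⟩ := Filter.eventually_atTop.mp
    ((Real.tendsto_log_atTop.comp (tendsto_natCast_atTop_atTop (R := ℝ))).eventually_ge_atTop 64)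
  refine ⟨4 * V + 14, m₁ + 3, fun N hN x hNx hxN f hf hE Q hQ Y hY => ?_⟩
  have hL64 : (64 : ℝ) ≤ Real.log N := h1 N (by omega)
  set L : ℝ := Real.log N with hL
  have hL0 : 0 < L := by linarith
  have hL1 : 1 ≤ L := by linarith
  have hN0 : (0 : ℝ) < N := by exact_mod_cast (by omega : 0 < N)
  have hx0n : 0 < x := by omega
  have hx0 : (0 : ℝ) < x := by exact_mod_cast hx0n
  have hNxr : (N : ℝ) ≤ x := by exact_mod_cast hNx
  set q₀ : ℕ := ⌈L ^ (4 * V + 12)⌉₊ with hq₀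
  have hq1 : L ^ (4 * V + 12) ≤ q₀ := Nat.le_ceil _
  have hLp : 1 ≤ L ^ (4 * V + 12) := one_le_pow₀ hL1
  have hq2 : (q₀ : ℝ) ≤ 2 * L ^ (4 * V + 12) := by
    have := (Nat.ceil_lt_add_one (by positivity : (0 : ℝ) ≤ L ^ (4 * V + 12))).le
    linarith
  have hq0r : (0 : ℝ) < q₀ := by linarith
  have hq0 : 0 < q₀ := by exact_mod_cast hq0r
  set T : ℕ := ⌈L ^ (V + 1)⌉₊ with hT
  have hT1 : L ^ (V + 1) ≤ T := Nat.le_ceil _
  have hLq : 1 ≤ L ^ (V + 1) := one_le_pow₀ hL1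
  have hT2 : (T : ℝ) ≤ 2 * L ^ (V + 1) := by
    have := (Nat.ceil_lt_add_one (by positivity : (0 : ℝ) ≤ L ^ (V + 1))).le
    linarith
  have hT0r : (0 : ℝ) < T := by linarith
  have hT0 : 0 < T := by exact_mod_cast hT0r
  rcases Nat.eq_zero_or_pos Q with hQ0 | hQ0
  · subst hQ0
    simp
  have hQ0r : (0 : ℝ) < Q := by exact_mod_cast hQ0
  set J : ℕ := Nat.log 2 Q with hJ
  have hJQ : Q ≤ 2 ^ (J + 1) * q₀ := by
    have := (Nat.lt_pow_succ_log_self (b := 2) (by norm_num) Q).le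
    exact this.trans (Nat.le_mul_of_pos_right _ hq0)
  have hQN : (Q : ℝ) ≤ N := by
    have : 1 ≤ L ^ (4 * V + 14) := one_le_pow₀ hL1
    nlinarith
  have hJL : (J : ℝ) + 1 ≤ 4 * L := by
    have e1 : (2 : ℝ) ^ J ≤ Q := by exact_mod_cast Nat.pow_log_le_self 2 hQ0.ne'
    have e2 : (J : ℝ) * Real.log 2 ≤ Real.log Q := by
      have := Real.log_le_log (by positivity) e1
      rwa [Real.log_pow] at this
    have e3 : Real.log Q ≤ L := Real.log_le_log hQ0r hQN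
    have e4 : (1 / 2 : ℝ) ≤ Real.log 2 := by
      have := Real.log_two_gt_d9
      linarith
    have e5 : (J : ℝ) * (1 / 2) ≤ J * Real.log 2 := mul_le_mul_of_nonneg_left e4 (Nat.cast_nonneg _)
    linarith
  set E : ℝ := 1 / L ^ (2 * V + 5) with hEd
  have hE0 : 0 ≤ E := by positivity
  -- the three terms
  have t1 : (q₀ : ℝ) ^ 3 * (2 * (1 / L ^ (8 * V + 24))) ^ 2 ≤ 32 / L ^ (4 * V + 12) := by
    calc (q₀ : ℝ) ^ 3 * (2 * (1 / L ^ (8 * V + 24))) ^ 2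
        ≤ (2 * L ^ (4 * V + 12)) ^ 3 * (2 * (1 / L ^ (8 * V + 24))) ^ 2 := by
          apply mul_le_mul_of_nonneg_right _ (sq_nonneg _)
          exact pow_le_pow_left₀ hq0r.le hq2 3
      _ = 32 * (L ^ (12 * V + 36) / L ^ (16 * V + 48)) := by
          rw [mul_pow, mul_pow, ← pow_mul, div_pow, ← pow_mul]
          ring
      _ = 32 / L ^ (4 * V + 12) := by
          have : L ^ (16 * V + 48) = L ^ (12 * V + 36) * L ^ (4 * V + 12) := by
            rw [← pow_add]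
            congr 1
            ring
          rw [this]
          field_simp
  have t2 : 12 / (q₀ : ℝ) ≤ 12 / L ^ (4 * V + 12) :=
    div_le_div_of_nonneg_left (by norm_num) (by positivity) hq1
  have t3 : 12 * ((J : ℝ) + 1) * Q / x ≤ 48 / L ^ (4 * V + 13) := by
    have e1 : (Q : ℝ) / x ≤ 1 / L ^ (4 * V + 14) := by
      rw [div_le_div_iff₀ hx0 (by positivity)]
      linarith
    calc 12 * ((J : ℝ) + 1) * Q / x = 12 * ((J : ℝ) + 1) * (Q / x) := by ring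
      _ ≤ 12 * (4 * L) * (1 / L ^ (4 * V + 14)) := by
          apply mul_le_mul _ e1 (by positivity) (by positivity)
          linarith
      _ = 48 / L ^ (4 * V + 13) := by
          rw [show 4 * V + 14 = (4 * V + 13) + 1 by ring, pow_succ]
          field_simp
          ring
  have hE1 : (q₀ : ℝ) ^ 3 * (2 * (1 / L ^ (8 * V + 24))) ^ 2 + 12 / q₀ + 12 * (J + 1) * Q / x ≤ E ^ 2 := by
    have e1 : 48 / L ^ (4 * V + 13) ≤ 1 / L ^ (4 * V + 12) := by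
      rw [div_le_div_iff₀ (by positivity) (by positivity), pow_succ L (4 * V + 12)]
      nlinarith
    have e2 : E ^ 2 = 1 / L ^ (4 * V + 10) := by
      rw [hEd, div_pow, one_pow, ← pow_mul]
      congr 2
      ring
    have e3 : 45 / L ^ (4 * V + 12) ≤ 1 / L ^ (4 * V + 10) := by
      rw [div_le_div_iff₀ (by positivity) (by positivity), show 4 * V + 12 = (4 * V + 10) + 2 by ring,
        pow_add L (4 * V + 10) 2]
      have a1 : (0 : ℝ) ≤ L ^ (4 * V + 10) := by positivity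
      have a2 : (45 : ℝ) ≤ L ^ 2 := by nlinarith
      have a3 := mul_le_mul_of_nonneg_left a2 a1
      linarith
    have e4 : 32 / L ^ (4 * V + 12) + 12 / L ^ (4 * V + 12) + 1 / L ^ (4 * V + 12) = 45 / L ^ (4 * V + 12) := by
      ring
    rw [e2]
    linarith
  have key := bdhP f hf x q₀ Q J T (1 / L ^ (8 * V + 24)) E (by positivity) hq0 hT0 hJQ hE hE0 hx0n hE1 Y hY
  refine key.trans ?_
  -- final arithmetic
  have f1 : (T : ℝ) * (Q * x * E) ≤ Q * x / L ^ V * (1 / 4) := by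
    calc (T : ℝ) * (Q * x * E) ≤ 2 * L ^ (V + 1) * (Q * x * E) :=
          mul_le_mul_of_nonneg_right hT2 (by positivity)
      _ = Q * x / L ^ V * (2 / L ^ 4) := by
          rw [hEd, show 2 * V + 5 = (V + 1) + (V + 4) by ring, pow_add L (V + 1), pow_add L V 4]
          field_simp
      _ ≤ Q * x / L ^ V * (1 / 4) := by
          apply mul_le_mul_of_nonneg_left _ (by positivity)
          rw [div_le_div_iff₀ (by positivity) (by norm_num)]
          have : (64 : ℝ) ≤ L ^ 4 := by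
            calc (64 : ℝ) ≤ L := hL64
              _ = L ^ 1 := (pow_one L).symm
              _ ≤ L ^ 4 := pow_le_pow_right₀ hL1 (by norm_num)
          linarith
  have f2 : (Q : ℝ) * ((x : ℝ) / T) ≤ Q * x / L ^ V * (1 / 4) := by
    calc (Q : ℝ) * ((x : ℝ) / T) ≤ Q * (x / L ^ (V + 1)) := by
          apply mul_le_mul_of_nonneg_left _ hQ0r.le
          exact div_le_div_of_nonneg_left hx0.le (by positivity) hT1
      _ = Q * x / L ^ V * (1 / L) := by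
          rw [pow_succ]
          field_simp
      _ ≤ Q * x / L ^ V * (1 / 4) := by
          apply mul_le_mul_of_nonneg_left _ (by positivity)
          exact div_le_div_of_nonneg_left (by norm_num) (by norm_num) (by linarith)
  have f3 : (Q : ℝ) + Q ^ 2 ≤ Q * x / L ^ V * (1 / 2) := by
    have e1 : (1 : ℝ) + Q ≤ 2 * Q := by
      have : (1 : ℝ) ≤ Q := by exact_mod_cast hQ0
      linarith
    have e2 : (Q : ℝ) * L ^ (4 * V + 14) ≤ x := hQ.trans hNxr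
    have e3 : (4 : ℝ) * Q ≤ x / L ^ V := by
      rw [le_div_iff₀ (by positivity)]
      refine le_trans ?_ e2
      have : 4 * L ^ V ≤ L ^ (4 * V + 14) := by
        calc 4 * L ^ V ≤ L * L ^ V := mul_le_mul_of_nonneg_right (by linarith) (by positivity)
          _ = L ^ (V + 1) := by ring
          _ ≤ _ := pow_le_pow_right₀ hL1 (by omega)
      calc 4 * (Q : ℝ) * L ^ V = Q * (4 * L ^ V) := by ring
        _ ≤ Q * L ^ (4 * V + 14) := mul_le_mul_of_nonneg_left this hQ0r.le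
    calc (Q : ℝ) + Q ^ 2 = Q * (1 + Q) := by ring
      _ ≤ Q * (2 * Q) := mul_le_mul_of_nonneg_left e1 hQ0r.le
      _ = Q * (4 * Q) * (1 / 2) := by ring
      _ ≤ Q * (x / L ^ V) * (1 / 2) := by
          apply mul_le_mul_of_nonneg_right _ (by norm_num)
          exact mul_le_mul_of_nonneg_left e3 hQ0r.le
      _ = _ := by ring
  have f4 : (T : ℝ) * (Q * x * E) + (Q * ((x : ℝ) / T + 1) + (Q : ℝ) ^ 2) =
      T * (Q * x * E) + Q * (x / T) + (Q + Q ^ 2) := by ring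
  rw [f4]
  linarith

end Pool.Agent.Run7.h17.BDH
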