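import Mathlib
import Pool.Agent.Run7.h17.BDHL
import Pool.Agent.Run7.h223.LE1

/-! Correlations with arbitrary weights along shifts from families of nearly minimal additive energy, in almost
all classes of almost all moduli, with logarithmic savings. -/

set_option autoImplicit false

namespace Pool.Agent.Run7.h17.JB

open Finset
open Pool.Agent.H373R2.T7 (energy exI SupSmall ev_L')
open Pool.Agent.Run7.h17.BDH (cs Eqd bdh_log)

lemma exI_norm (h : ℕ → ℂ) (hb : ∀ n, ‖h n‖ ≤ 1) (m : ℤ) : ‖exI h m‖ ≤ 1 := by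
  unfold exI
  split_ifs
  · exact hb _
  · simp

/-- the summand -/
noncomputable def fr {t : ℕ} (h θ : ℕ → ℂ) (α : Fin t → ℕ) (s : Fin t → ℤ) (I : Finset (Fin t)) (n : ℕ) : ℂ :=
  θ n * ∏ i ∈ I, exI h (((α i * n : ℕ) : ℤ) + s i)

/-- the normalised summand -/
noncomputable def gn {t : ℕ} (h θ : ℕ → ℂ) (α : Fin t → ℕ) (s : Fin t → ℤ) (I : Finset (Fin t)) (H : ℕ) (M : ℝ)
    (n : ℕ) : ℂ :=
  if 1 ≤ n ∧ ∀ i ∈ I, α i * n ≤ H then fr h θ α s I n / (M : ℂ) else 0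

lemma fr_norm {t : ℕ} (h θ : ℕ → ℂ) (hb : ∀ n, ‖h n‖ ≤ 1) (α : Fin t → ℕ) (s : Fin t → ℤ) (I : Finset (Fin t)) (n : ℕ) :
    ‖fr h θ α s I n‖ ≤ ‖θ n‖ := by
  unfold fr
  rw [norm_mul, norm_prod]
  exact mul_le_of_le_one_right (norm_nonneg _) (prod_le_one (fun _ _ => norm_nonneg _) fun _ _ => exI_norm h hb _)

lemma gn_norm {t : ℕ} (h θ : ℕ → ℂ) (hb : ∀ n, ‖h n‖ ≤ 1) (α : Fin t → ℕ) (hα : ∀ i, 1 ≤ α i) (s : Fin t → ℤ)
    (I : Finset (Fin t)) (hI : I.Nonempty) (H : ℕ) (M : ℝ) (hM : 0 < M) (hθ : ∀ n, 1 ≤ n → n ≤ H → ‖θ n‖ ≤ M) (n : ℕ) :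
    ‖gn h θ α s I H M n‖ ≤ 1 := by
  unfold gn
  split_ifs with h1
  · obtain ⟨i, hi⟩ := hI
    have h2 := h1.2 i hi
    have h3 : n ≤ α i * n := Nat.le_mul_of_pos_left _ (hα i)
    rw [norm_div, Complex.norm_real, Real.norm_eq_abs, abs_of_pos hM, div_le_one hM]
    exact (fr_norm h θ hb α s I n).trans (hθ n h1.1 (h3.trans h2))
  · simp

/-- the longest admissible sum -/
noncomputable def top {t : ℕ} (α : Fin t → ℕ) (I : Finset (Fin t)) (H : ℕ) : ℕ :=
  Nat.findGreatest (fun X => ∀ i ∈ I, α i * X ≤ H) H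

lemma top_spec {t : ℕ} (α : Fin t → ℕ) (I : Finset (Fin t)) (H : ℕ) : ∀ i ∈ I, α i * top α I H ≤ H := by
  have := Nat.findGreatest_spec (P := fun X => ∀ i ∈ I, α i * X ≤ H) (n := H) (Nat.zero_le H) (by simp)
  exact this

lemma le_top {t : ℕ} (α : Fin t → ℕ) (hα : ∀ i, 1 ≤ α i) (I : Finset (Fin t)) (hI : I.Nonempty) (H n : ℕ)
    (h : ∀ i ∈ I, α i * n ≤ H) : n ≤ top α I H := by
  obtain ⟨i, hi⟩ := hI
  refine Nat.le_findGreatest ((Nat.le_mul_of_pos_left _ (hα i)).trans (h i hi)) h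

lemma cond_iff {t : ℕ} (α : Fin t → ℕ) (hα : ∀ i, 1 ≤ α i) (I : Finset (Fin t)) (hI : I.Nonempty) (H n : ℕ) :
    (∀ i ∈ I, α i * n ≤ H) ↔ n ≤ top α I H :=
  ⟨le_top α hα I hI H n, fun h i hi => (Nat.mul_le_mul_left _ h).trans (top_spec α I H i hi)⟩

/-- sums over classes -/
lemma cs_gn {t : ℕ} (h θ : ℕ → ℂ) (α : Fin t → ℕ) (hα : ∀ i, 1 ≤ α i) (s : Fin t → ℤ)
    (I : Finset (Fin t)) (hI : I.Nonempty) (H : ℕ) (M : ℝ) (q c y : ℕ) :
    cs (gn h θ α s I H M) q c y =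
      (∑ n ∈ Icc 1 (min y (top α I H)), if n % q = c then fr h θ α s I n else 0) / (M : ℂ) := by
  unfold cs
  have e1 : Icc 1 (min y (top α I H)) = (Icc 1 y).filter (fun n => n ≤ top α I H) := by
    ext n
    rw [mem_filter, mem_Icc, mem_Icc, le_min_iff]
    tauto
  rw [e1, sum_filter, sum_div]
  refine sum_congr rfl fun n hn => ?_
  rw [mem_Icc] at hn
  unfold gn
  by_cases h1 : n % q = c
  · by_cases h2 : n ≤ top α I H
    · rw [if_pos h1, if_pos ⟨hn.1, (cond_iff α hα I hI H n).mpr h2⟩, if_pos h2, if_pos h1]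
    · rw [if_pos h1, if_neg (fun h3 => h2 ((cond_iff α hα I hI H n).mp h3.2)), if_neg h2, zero_div]
  · by_cases h2 : n ≤ top α I H
    · rw [if_neg h1, if_pos h2, if_neg h1, zero_div]
    · rw [if_neg h1, if_neg h2, zero_div]

open Classical in
/-- **Correlations with arbitrary weights in almost all classes of almost all moduli.** -/
theorem forms_bdh (h : ℕ → ℂ) (hb : ∀ n, ‖h n‖ ≤ 1) (hsup : SupSmall h) (p B C κ U : ℕ) :
    ∃ c N0 : ℕ, ∀ N : ℕ, N0 ≤ N → ∀ t : ℕ, (2 : ℝ) ^ t ≤ Real.log N ^ κ →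
    ∀ (y : Fin t → ℕ) (r : Fin t → ℕ → ℤ), (∀ i, ∀ m ∈ Icc 1 (y i), |r i m| ≤ B * N) →
    (∀ i, (energy p (y i) (r i) : ℝ) * N ≤ Real.log N ^ C * (y i : ℝ) ^ (2 * p)) →
    ∀ α : Fin t → ℕ, (∀ i, 1 ≤ α i) → ∀ L : ℕ, (L : ℝ) ≤ Real.log N ^ κ → ∀ θ : Fin L → ℕ → ℂ,
    (∀ l n, 1 ≤ n → n ≤ B * N → ‖θ l n‖ ≤ Real.log N ^ κ) →
    (((Fintype.piFinset (fun i => Icc 1 (y i))).filter (fun m : Fin t → ℕ => ¬ ∀ l, ∀ I : Finset (Fin t), I.Nonempty →
      ∀ Q : ℕ, Q * Real.log N ^ c ≤ N → ∀ Y : ℕ → ℕ → ℕ, (∀ q b, ∀ i ∈ I, α i * Y q b ≤ B * N) →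
      ∑ q ∈ Icc 1 Q, ∑ b ∈ range q, ‖∑ n ∈ Icc 1 (Y q b),
        if n % q = b then fr h (θ l) α (fun i => r i (m i)) I n else 0‖ ≤ Q * N / Real.log N ^ U)).card : ℝ) ≤
      (∏ i, (y i : ℝ)) / Real.log N ^ U := by
  set V : ℕ := U + κ + 1 with hV
  obtain ⟨c, n1, h1⟩ := bdh_log V
  set κ' : ℕ := κ + 8 * V + 25 with hκ'
  set U' : ℕ := 8 * V + 24 + U with hU'
  obtain ⟨n2, h2⟩ := Run7.h223.LE.forms h hb hsup p B C κ' U'
  obtain ⟨n3, h3⟩ := ev_L' (B + 9)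
  refine ⟨c, n1 + n2 + n3 + 3, fun N hN t ht y r hr hE α hα L hL θ hθ => ?_⟩
  have hBL := h3 N (by omega)
  obtain ⟨Lg, hLgd⟩ : ∃ Lg, Lg = Real.log N := ⟨_, rfl⟩
  rw [← hLgd] at hBL
  have hB0 : (0 : ℝ) ≤ B := Nat.cast_nonneg _
  have hL9 : 9 ≤ Lg := by linarith
  have hL1 : 1 ≤ Lg := by linarith
  have hL0 : 0 < Lg := by linarith
  have hN0 : (0 : ℝ) < N := by exact_mod_cast (by omega : 0 < N)
  have hM1 : 1 ≤ Lg ^ κ := one_le_pow₀ hL1
  have hM0 : 0 < Lg ^ κ := by positivity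
  set q₀ : ℕ := ⌈Lg ^ (4 * V + 12)⌉₊ with hq₀
  have hLp : 1 ≤ Lg ^ (4 * V + 12) := one_le_pow₀ hL1
  have hq2 : (q₀ : ℝ) + 1 ≤ 3 * Lg ^ (4 * V + 12) := by
    have := (Nat.ceil_lt_add_one (by positivity : (0 : ℝ) ≤ Lg ^ (4 * V + 12))).le
    linarith
  -- the weights
  set e : (Fin L × Fin (q₀ + 1) × Fin (q₀ + 1)) ≃ Fin (Fintype.card (Fin L × Fin (q₀ + 1) × Fin (q₀ + 1))) :=
    Fintype.equivFin _ with he
  set θ' : Fin (Fintype.card (Fin L × Fin (q₀ + 1) × Fin (q₀ + 1))) → ℕ → ℂ := fun j n =>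
    if n % ((e.symm j).2.1 : ℕ) = ((e.symm j).2.2 : ℕ) then θ (e.symm j).1 n else 0 with hθ'
  have hcard : ((Fintype.card (Fin L × Fin (q₀ + 1) × Fin (q₀ + 1)) : ℕ) : ℝ) ≤ Real.log N ^ κ' := by
    rw [Fintype.card_prod, Fintype.card_prod, Fintype.card_fin, Fintype.card_fin, ← hLgd]
    push_cast
    rw [← hLgd] at hL
    calc (L : ℝ) * (((q₀ : ℝ) + 1) * ((q₀ : ℝ) + 1)) ≤ Lg ^ κ * ((3 * Lg ^ (4 * V + 12)) * (3 * Lg ^ (4 * V + 12))) := by
          apply mul_le_mul hL _ (by positivity) (by positivity)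
          exact mul_le_mul hq2 hq2 (by positivity) (by positivity)
      _ = 9 * Lg ^ (κ + 8 * V + 24) := by
          rw [show κ + 8 * V + 24 = κ + ((4 * V + 12) + (4 * V + 12)) by ring, pow_add Lg κ,
            pow_add Lg (4 * V + 12)]
          ring
      _ ≤ Lg * Lg ^ (κ + 8 * V + 24) := mul_le_mul_of_nonneg_right hL9 (by positivity)
      _ = Lg ^ κ' := by
          rw [hκ']
          ring
  have hmono : Real.log N ^ κ ≤ Real.log N ^ κ' := by
    rw [← hLgd]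
    exact pow_le_pow_right₀ hL1 (by omega)
  have key := h2 N (by omega) t (ht.trans hmono) y r hr hE α hα (Fintype.card (Fin L × Fin (q₀ + 1) × Fin (q₀ + 1))) hcard θ' (by
    intro j n hn1 hn2
    rw [hθ']
    simp only
    split_ifs
    · exact (hθ _ n hn1 hn2).trans hmono
    · rw [norm_zero, ← hLgd]
      positivity)
  refine le_trans ?_ (key.trans ?_)
  · refine Nat.cast_le.mpr (card_le_card ?_)
    intro m hm
    rw [mem_filter] at hm ⊢
    refine ⟨hm.1, fun hgood => hm.2 ?_⟩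
    intro l I hI Q hQ Y hY
    have hYtop : ∀ q b, Y q b ≤ top α I (B * N) := fun q b => le_top α hα I hI _ _ (hY q b)
    have htop : top α I (B * N) ≤ B * N := Nat.findGreatest_le _
    set g := gn h (θ l) α (fun i => r i (m i)) I (B * N) (Lg ^ κ) with hg
    have hg1 : ∀ n, ‖g n‖ ≤ 1 := gn_norm h (θ l) hb α hα _ I hI (B * N) (Lg ^ κ) hM0 (fun n a1 a2 => by
      rw [hLgd]
      exact hθ l n a1 a2)
    have hxN : N ≤ (B + 1) * N := Nat.le_mul_of_pos_left _ (Nat.succ_pos _)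
    have hxr : (((B + 1) * N : ℕ) : ℝ) ≤ Real.log N * N := by
      push_cast
      rw [← hLgd]
      exact mul_le_mul_of_nonneg_right (by linarith) hN0.le
    have hEq : Eqd g ((B + 1) * N) ⌈Real.log N ^ (4 * V + 12)⌉₊ (1 / Real.log N ^ (8 * V + 24)) := by
      rw [← hLgd, ← hq₀]
      intro b hb1 hbq c' y' hy'
      have e1 := cs_gn h (θ l) α hα (fun i => r i (m i)) I hI (B * N) (Lg ^ κ) b c' y'
      rw [← hg] at e1
      rw [e1, norm_div, Complex.norm_real, Real.norm_eq_abs, abs_of_pos hM0]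
      have e2 : ‖∑ n ∈ Icc 1 (min y' (top α I (B * N))),
          (if n % b = c' then fr h (θ l) α (fun i => r i (m i)) I n else 0)‖ ≤ N / Lg ^ U' := by
        by_cases hc : c' < b
        · have e3 := hgood (e (l, ⟨b, by omega⟩, ⟨c', by omega⟩)) I hI (min y' (top α I (B * N)))
            (fun i hi => (Nat.mul_le_mul_left _ (min_le_right _ _)).trans (top_spec α I _ i hi))
          rw [← hLgd] at e3
          refine le_trans (le_of_eq ?_) e3
          congr 1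
          refine sum_congr rfl fun n _ => ?_
          rw [hθ']
          simp only [Equiv.symm_apply_apply]
          unfold fr
          split_ifs
          · rfl
          · rw [zero_mul]
        · rw [sum_eq_zero, norm_zero]
          · positivity
          · intro n _
            rw [if_neg]
            intro h5
            have := Nat.mod_lt n hb1
            omega
      have e4 : (N : ℝ) / Lg ^ U' / Lg ^ κ ≤ 1 / Lg ^ (8 * V + 24) * (((B + 1) * N : ℕ) : ℝ) := by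
        have a1 : (N : ℝ) / Lg ^ U' ≤ N / Lg ^ (8 * V + 24) := by
          apply div_le_div_of_nonneg_left hN0.le (by positivity)
          exact pow_le_pow_right₀ hL1 (by omega)
        have a2 : (N : ℝ) / Lg ^ U' / Lg ^ κ ≤ N / Lg ^ U' := div_le_self (by positivity) hM1
        have a3 : (N : ℝ) ≤ (((B + 1) * N : ℕ) : ℝ) := by exact_mod_cast hxN
        calc (N : ℝ) / Lg ^ U' / Lg ^ κ ≤ N / Lg ^ (8 * V + 24) := a2.trans a1
          _ = 1 / Lg ^ (8 * V + 24) * N := by ring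
          _ ≤ _ := mul_le_mul_of_nonneg_left a3 (by positivity)
      refine le_trans ?_ e4
      exact div_le_div_of_nonneg_right e2 hM0.le
    have h5 := h1 N (by omega) ((B + 1) * N) hxN hxr g hg1 hEq Q hQ Y (fun q b => by
      have := hYtop q b
      have e1 : B * N ≤ (B + 1) * N := Nat.mul_le_mul_right _ (by omega)
      omega)
    have h6 : ∀ q b, ‖∑ n ∈ Icc 1 (Y q b), (if n % q = b then fr h (θ l) α (fun i => r i (m i)) I n else 0)‖ =
        Lg ^ κ * ‖cs g q b (Y q b)‖ := by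
      intro q b
      have e1 := cs_gn h (θ l) α hα (fun i => r i (m i)) I hI (B * N) (Lg ^ κ) q b (Y q b)
      rw [← hg] at e1
      rw [e1, norm_div, Complex.norm_real, Real.norm_eq_abs, abs_of_pos hM0, min_eq_left (hYtop q b)]
      field_simp
    rw [sum_congr rfl fun q _ => sum_congr rfl fun b _ => h6 q b]
    simp_rw [← mul_sum]
    calc Lg ^ κ * ∑ q ∈ Icc 1 Q, ∑ b ∈ range q, ‖cs g q b (Y q b)‖
        ≤ Lg ^ κ * (Q * (((B + 1) * N : ℕ) : ℝ) / Real.log N ^ V) := mul_le_mul_of_nonneg_left h5 hM0.le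
      _ ≤ Lg ^ κ * (Q * (Lg * N) / Real.log N ^ V) := by
          rw [← hLgd]
          rw [← hLgd] at hxr
          gcongr
      _ = Q * N / Real.log N ^ U := by
          rw [← hLgd, hV, show U + κ + 1 = κ + 1 + U by ring, pow_add Lg (κ + 1), pow_succ]
          field_simp
  · rw [← hLgd]
    apply div_le_div_of_nonneg_left (prod_nonneg fun _ _ => Nat.cast_nonneg _) (by positivity)
    exact pow_le_pow_right₀ hL1 (by omega)

end Pool.Agent.Run7.h17.JB
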