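import Mathlib
import Pool.Agent.H560R3.GB.Tup

/-! The von Mangoldt function minus its sieve model at linear forms with shifts from families of nearly minimal
additive energy: one form, and products. -/

set_option autoImplicit false
set_option maxHeartbeats 4000000

namespace Pool.Agent.Run7.h17.PT

open Finset Pool.Agent.H373R2.T7 Pool.Agent.H560R3.GB

/-- translations do not change the energy -/
lemma energy_shift (p x : ℕ) (s : ℕ → ℤ) (c : ℤ) :
    Pool.Agent.H373R2.T7.energy p x (fun m => s m + c) = Pool.Agent.H373R2.T7.energy p x s := by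
  unfold Pool.Agent.H373R2.T7.energy
  congr 1
  apply filter_congr
  intro q _
  simp only [sum_add_distrib, sum_const]
  constructor
  · intro h; linarith
  · intro h; linarith

lemma reidx (a A : ℕ) (ha : 1 ≤ a) (G : ℕ → ℝ) (F : ℕ → ℝ) :
    ∑ b ∈ Icc 1 (a * A), (if a ∣ b then G (b / a) else 0) * F b = ∑ n ∈ Icc 1 A, G n * F (a * n) := by
  have e1 : ∑ b ∈ Icc 1 (a * A), (if a ∣ b then G (b / a) else 0) * F b =
      ∑ b ∈ (Icc 1 (a * A)).filter (fun b => a ∣ b), G (b / a) * F b := by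
    rw [sum_filter]
    refine sum_congr rfl fun b _ => ?_
    split_ifs
    · rfl
    · rw [zero_mul]
  rw [e1]
  apply sum_nbij' (fun b => b / a) (fun n => a * n)
  · intro b hb
    rw [mem_filter, mem_Icc] at hb
    obtain ⟨⟨h1, h2⟩, n, rfl⟩ := hb
    rw [Nat.mul_div_cancel_left n (by omega), mem_Icc]
    constructor
    · rcases Nat.eq_zero_or_pos n with h | h
      · subst h; omega
      · exact h
    · exact Nat.le_of_mul_le_mul_left h2 (by omega)
  · intro n hn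
    rw [mem_Icc] at hn
    rw [mem_filter, mem_Icc]
    exact ⟨⟨Nat.mul_pos (by omega) (by omega), Nat.mul_le_mul_left _ hn.2⟩, Dvd.intro _ rfl⟩
  · intro b hb
    rw [mem_filter] at hb
    exact Nat.mul_div_cancel' hb.2
  · intro n _
    exact Nat.mul_div_cancel_left n (by omega)
  · intro b hb
    rw [mem_filter] at hb
    rw [Nat.mul_div_cancel' hb.2]

lemma reflect (H : ℕ) (φ ψ : ℕ → ℝ) :
    ∑ b ∈ Icc 1 H, φ (H + 1 - b) * ψ b = ∑ b ∈ Icc 1 H, φ b * ψ (H + 1 - b) := by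
  apply sum_nbij' (fun b => H + 1 - b) (fun b => H + 1 - b)
  · intro b hb
    rw [mem_Icc] at hb ⊢
    omega
  · intro b hb
    rw [mem_Icc] at hb ⊢
    omega
  · intro b hb
    rw [mem_Icc] at hb
    show H + 1 - (H + 1 - b) = b
    omega
  · intro b hb
    rw [mem_Icc] at hb
    show H + 1 - (H + 1 - b) = b
    omega
  · intro b hb
    rw [mem_Icc] at hb
    have : H + 1 - (H + 1 - b) = b := by omega
    rw [this]

/-- one form, one length -/
theorem one_lam (p B C U : ℕ) : ∃ B0 : ℕ, ∀ E : ℕ, ∃ N0 : ℕ, ∀ N : ℕ, N0 ≤ N → ∀ (x : ℕ) (s : ℕ → ℤ),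
    (∀ m ∈ Icc 1 x, |s m| ≤ B * N) →
    (Pool.Agent.H373R2.T7.energy p x s : ℝ) * N ≤ Real.log N ^ C * (x : ℝ) ^ (2 * p) →
    ∀ α : ℤ, α ≠ 0 → ∀ A : ℕ, α.natAbs * A ≤ B * N → ∀ z : ℕ, Real.log N ^ B0 ≤ z → (z : ℝ) ≤ Real.log N ^ E →
    ∀ K : ℝ, 0 < K → ∀ G : ℕ → ℝ, (∀ n ∈ Icc 1 A, |G n| ≤ K) →
    ∑ m ∈ Icc 1 x, |∑ n ∈ Icc 1 A, G n * (lamI (α * (n : ℤ) + s m) - lamzI z (α * (n : ℤ) + s m))| ≤
      K * (N * x / Real.log N ^ U) := by
  obtain ⟨B0, hB0⟩ := lam_e p (2 * B + 1) C U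
  refine ⟨B0, fun E => ?_⟩
  obtain ⟨N0, h0⟩ := hB0 E
  refine ⟨N0 + 1, fun N hN x s hs hE α hα A hA z hz1 hz2 K hK G hG => ?_⟩
  set a : ℕ := α.natAbs with ha
  have ha1 : 1 ≤ a := Int.natAbs_pos.mpr hα
  have hN1 : 1 ≤ N := by omega
  set G1 : ℕ → ℝ := fun b => if a ∣ b then G (b / a) else 0 with hG1
  have hG1b : ∀ b ∈ Icc 1 (a * A), |G1 b| ≤ K := by
    intro b hb
    rw [mem_Icc] at hb
    rw [hG1]
    simp only
    split_ifs with h
    · obtain ⟨n, rfl⟩ := h
      rw [Nat.mul_div_cancel_left n (by omega)]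
      apply hG
      rw [mem_Icc]
      constructor
      · rcases Nat.eq_zero_or_pos n with h | h
        · subst h; omega
        · exact h
      · exact Nat.le_of_mul_le_mul_left hb.2 (by omega)
    · simp [hK.le]
  rcases lt_or_gt_of_ne hα with hneg | hpos
  · -- negative multiplier
    have hαa : α = -(a : ℤ) := by rw [ha]; omega
    set H : ℕ := a * A with hH
    have h1 := h0 N (by omega) x (fun m => s m + (-((H : ℤ) + 1))) (fun m hm => by
        have e1 := hs m hm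
        have e2 : (H : ℤ) ≤ B * N := by exact_mod_cast hA
        have e3 : (1 : ℤ) ≤ N := by exact_mod_cast hN1
        have e4 : |s m + (-((H : ℤ) + 1))| ≤ |s m| + |(-((H : ℤ) + 1))| := abs_add_le _ _
        have e5 : |(-((H : ℤ) + 1))| = H + 1 := by
          rw [abs_neg, abs_of_nonneg (by positivity)]
        push_cast
        calc |s m + (-((H : ℤ) + 1))| ≤ B * N + (B * N + N) := by linarith
          _ = (2 * B + 1) * N := by ring) (by
        rw [energy_shift]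
        exact hE) H (hA.trans (Nat.mul_le_mul_right _ (by omega))) z hz1 hz2
    have h2 := l1_real H x (fun b m => lamI ((b : ℤ) + (s m + (-((H : ℤ) + 1)))) -
      lamzI z ((b : ℤ) + (s m + (-((H : ℤ) + 1))))) (N * x / Real.log N ^ U) K hK h1 (fun b => G1 (H + 1 - b)) (by
        intro b hb
        rw [mem_Icc] at hb
        exact hG1b _ (by rw [mem_Icc]; omega))
    refine le_trans (le_of_eq ?_) h2
    refine sum_congr rfl fun m _ => ?_
    congr 1
    rw [reflect H G1 (fun b => lamI ((b : ℤ) + (s m + (-((H : ℤ) + 1)))) -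
      lamzI z ((b : ℤ) + (s m + (-((H : ℤ) + 1)))))]
    have h3 := reidx a A ha1 G (fun b => lamI (((H + 1 - b : ℕ) : ℤ) + (s m + (-((H : ℤ) + 1)))) -
      lamzI z (((H + 1 - b : ℕ) : ℤ) + (s m + (-((H : ℤ) + 1)))))
    rw [← hH] at h3
    refine Eq.trans ?_ h3.symm
    refine sum_congr rfl fun n hn => ?_
    rw [mem_Icc] at hn
    have e1 : a * n ≤ H := Nat.mul_le_mul_left _ hn.2
    have e2 : ((H + 1 - a * n : ℕ) : ℤ) + (s m + (-((H : ℤ) + 1))) = α * (n : ℤ) + s m := by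
      rw [Nat.cast_sub (by omega), hαa]
      push_cast
      ring
    rw [e2]
  · -- positive multiplier
    have hαa : α = (a : ℤ) := by rw [ha]; omega
    have h1 := h0 N (by omega) x s (fun m hm => by
        have e1 := hs m hm
        have e3 : (0 : ℤ) ≤ B * N + N := by positivity
        push_cast
        calc |s m| ≤ B * N := e1
          _ ≤ (2 * B + 1) * N := by nlinarith) hE (a * A) (hA.trans (Nat.mul_le_mul_right _ (by omega))) z hz1 hz2
    have h2 := l1_real (a * A) x (fun b m => lamI ((b : ℤ) + s m) - lamzI z ((b : ℤ) + s m))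
      (N * x / Real.log N ^ U) K hK h1 G1 hG1b
    refine le_trans (le_of_eq ?_) h2
    refine sum_congr rfl fun m _ => ?_
    congr 1
    have h3 := reidx a A ha1 G (fun b => lamI ((b : ℤ) + s m) - lamzI z ((b : ℤ) + s m))
    refine Eq.trans ?_ h3.symm
    refine sum_congr rfl fun n _ => ?_
    rw [hαa]
    push_cast
    rfl

/-- products, one length -/
theorem prod_lam (k p B C U : ℕ) : ∃ B0 : ℕ, ∀ E : ℕ, ∃ N0 : ℕ, ∀ N : ℕ, N0 ≤ N → ∀ (x : Fin k → ℕ)
    (s : Fin k → ℕ → ℤ), (∀ i, 1 ≤ x i) → (∀ i, ∀ m ∈ Icc 1 (x i), |s i m| ≤ B * N) →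
    (∀ i, (Pool.Agent.H373R2.T7.energy p (x i) (s i) : ℝ) * N ≤ Real.log N ^ C * (x i : ℝ) ^ (2 * p)) →
    ∀ α : Fin k → ℤ, (∀ i, α i ≠ 0) → ∀ A : ℕ, (∀ i, (α i).natAbs * A ≤ B * N) →
    ∀ z : ℕ, Real.log N ^ B0 ≤ z → (z : ℝ) ≤ Real.log N ^ E →
    ∀ K : ℝ, 0 < K → ∀ G : ℕ → ℝ, (∀ n ∈ Icc 1 A, |G n| ≤ K) →
    ∑ m ∈ Fintype.piFinset (fun i => Icc 1 (x i)), |∑ n ∈ Icc 1 A, G n *
      (∏ i, lamI (α i * (n : ℤ) + s i (m i)) - ∏ i, lamzI z (α i * (n : ℤ) + s i (m i)))| ≤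
      K * (N * (∏ i, (x i : ℝ)) / Real.log N ^ U) := by
  classical
  obtain ⟨B0, hB0⟩ := one_lam p B C (U + k + 1)
  refine ⟨B0, fun E => ?_⟩
  obtain ⟨n1, h1⟩ := hB0 E
  obtain ⟨n2, h2⟩ := ev_L' (max (Real.log (2 * B + 1) + 1) ((k : ℝ) * 2 ^ k + 1))
  obtain ⟨n3, h3⟩ := Vz_inv_small E
  refine ⟨n1 + n2 + n3 + 3, fun N hN x s hx1 hs hE α hα A hA z hz1 hz2 K hK G hG => ?_⟩
  have hN0' : (0 : ℝ) < N := by exact_mod_cast (by omega : 0 < N)
  have hNr1 : (1 : ℝ) ≤ N := by exact_mod_cast (by omega : 1 ≤ N)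
  have hL := h2 N (by omega)
  have hLa : Real.log (2 * B + 1) + 1 ≤ Real.log N := (le_max_left _ _).trans hL
  have hLb : (k : ℝ) * 2 ^ k + 1 ≤ Real.log N := (le_max_right _ _).trans hL
  have hB0r : (0 : ℝ) ≤ B := Nat.cast_nonneg _
  have hlB : 0 ≤ Real.log (2 * B + 1) := Real.log_nonneg (by linarith)
  have hL1 : 1 ≤ Real.log N := by linarith
  have hL0 : 0 < Real.log N := by linarith
  have hz : 1 ≤ z := by
    have : (1 : ℝ) ≤ z := (one_le_pow₀ hL1).trans hz1
    exact_mod_cast this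
  have hV := h3 N (by omega) z hz hz2
  have hup : ∀ i, ∀ n ∈ Icc 1 A, ∀ v ∈ Icc 1 (x i), ((α i * (n : ℤ) + s i v : ℤ) : ℝ) ≤ (2 * B + 1) * N := by
    intro i n hn v hv
    rw [mem_Icc] at hn
    have h4 := hs i v hv
    have h5 : |α i * (n : ℤ)| ≤ B * N := by
      rw [abs_mul, Nat.abs_cast, Int.abs_eq_natAbs]
      have : (α i).natAbs * n ≤ B * N := (Nat.mul_le_mul_left _ hn.2).trans (hA i)
      exact_mod_cast this
    have h6 : α i * (n : ℤ) + s i v ≤ (2 * B + 1) * N := by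
      have e1 := le_abs_self (α i * (n : ℤ))
      have e2 := le_abs_self (s i v)
      have e3 : (0 : ℤ) ≤ N := Int.natCast_nonneg _
      linarith
    exact_mod_cast h6
  have hlog2 : Real.log ((2 * B + 1) * N) ≤ 2 * Real.log N := by
    rw [Real.log_mul (by linarith) hN0'.ne']
    linarith
  have key := tele A x hx1 (fun i n v => lamI (α i * (n : ℤ) + s i v)) (fun i n v => lamzI z (α i * (n : ℤ) + s i v))
    (2 * Real.log N) (N / Real.log N ^ (U + k + 1)) (by linarith) (by positivity) (by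
      intro i n hn v hv
      rw [abs_of_nonneg (lamI_nonneg _)]
      refine (lamI_le _ ((2 * B + 1) * N) ?_ (hup i n hn v hv)).trans hlog2
      nlinarith) (by
      intro i n hn v hv
      rw [abs_of_nonneg (lamzI_nonneg _ _)]
      have := lamzI_le z (α i * (n : ℤ) + s i v)
      linarith) (by
      intro i K' hK' G' hG'
      have h4 := h1 N (by omega) (x i) (s i) (hs i) (hE i) (α i) (hα i) A (hA i) z hz1 hz2 K' hK' G' hG'
      refine h4.trans (le_of_eq ?_)
      ring)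
    univ K hK (fun n _ => G n) (fun n hn m _ => hG n hn) (fun n m v i _ => rfl)
  refine key.trans ?_
  rw [card_univ, Fintype.card_fin]
  have hprod : 0 ≤ ∏ i, (x i : ℝ) := prod_nonneg fun _ _ => Nat.cast_nonneg _
  calc (k : ℝ) * (K * (2 * Real.log N) ^ k * (N / Real.log N ^ (U + k + 1))) * ∏ i, (x i : ℝ)
      = ((k : ℝ) * 2 ^ k / Real.log N) * (K * (N * (∏ i, (x i : ℝ)) / Real.log N ^ U)) := by
        rw [mul_pow, pow_succ, pow_add]
        field_simp
    _ ≤ 1 * (K * (N * (∏ i, (x i : ℝ)) / Real.log N ^ U)) := by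
        apply mul_le_mul_of_nonneg_right _ (by positivity)
        rw [div_le_one hL0]; linarith
    _ = _ := one_mul _

end Pool.Agent.Run7.h17.PT
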