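import Mathlib
import Pool.Agent.Run7.h17.PT1

/-! Products of values of the von Mangoldt function minus their sieve models: many weights, all lengths. -/

set_option autoImplicit false
set_option maxHeartbeats 4000000

namespace Pool.Agent.Run7.h17.PT

open Finset Pool.Agent.H373R2.T7 Pool.Agent.H560R3.GB

/-- the difference of the product and its model -/
noncomputable def df {k : ℕ} (z : ℕ) (α r : Fin k → ℤ) (n : ℕ) : ℝ :=
  ∏ i, lamI (α i * (n : ℤ) + r i) - ∏ i, lamzI z (α i * (n : ℤ) + r i)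

lemma df_zero (z : ℕ) (α r : Fin 0 → ℤ) (n : ℕ) : df z α r n = 0 := by
  unfold df
  simp

/-- trivial bounds -/
lemma df_bound (k B : ℕ) (E : ℕ) : ∃ N0 : ℕ, ∀ N : ℕ, N0 ≤ N → ∀ z : ℕ, 1 ≤ z → (z : ℝ) ≤ Real.log N ^ E →
    ∀ (α r : Fin k → ℤ), (∀ i, |r i| ≤ B * N) → ∀ n : ℕ, (∀ i, (α i).natAbs * n ≤ B * N) →
    |df z α r n| ≤ (2 * Real.log N) ^ k := by
  obtain ⟨n2, h2⟩ := ev_L' (Real.log (2 * B + 1) + 1)
  obtain ⟨n3, h3⟩ := Vz_inv_small E
  refine ⟨n2 + n3 + 3, fun N hN z hz hz2 α r hr n hn => ?_⟩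
  have hN0' : (0 : ℝ) < N := by exact_mod_cast (by omega : 0 < N)
  have hNr1 : (1 : ℝ) ≤ N := by exact_mod_cast (by omega : 1 ≤ N)
  have hLa := h2 N (by omega)
  have hB0r : (0 : ℝ) ≤ B := Nat.cast_nonneg _
  have hlB : 0 ≤ Real.log (2 * B + 1) := Real.log_nonneg (by linarith)
  have hL1 : 1 ≤ Real.log N := by linarith
  have hV := h3 N (by omega) z hz hz2
  have hlog2 : Real.log ((2 * B + 1) * N) ≤ 2 * Real.log N := by
    rw [Real.log_mul (by linarith) hN0'.ne']
    linarith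
  have hup : ∀ i, ((α i * (n : ℤ) + r i : ℤ) : ℝ) ≤ (2 * B + 1) * N := by
    intro i
    have h4 := hr i
    have h5 : |α i * (n : ℤ)| ≤ B * N := by
      rw [abs_mul, Nat.abs_cast, Int.abs_eq_natAbs]
      exact_mod_cast hn i
    have h6 : α i * (n : ℤ) + r i ≤ (2 * B + 1) * N := by
      have e1 := le_abs_self (α i * (n : ℤ))
      have e2 := le_abs_self (r i)
      have e3 : (0 : ℤ) ≤ N := Int.natCast_nonneg _
      linarith
    exact_mod_cast h6
  have p1 : 0 ≤ ∏ i, lamI (α i * (n : ℤ) + r i) := prod_nonneg fun _ _ => lamI_nonneg _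
  have p2 : 0 ≤ ∏ i, lamzI z (α i * (n : ℤ) + r i) := prod_nonneg fun _ _ => lamzI_nonneg _ _
  have p3 : ∏ i, lamI (α i * (n : ℤ) + r i) ≤ (2 * Real.log N) ^ k := by
    calc ∏ i, lamI (α i * (n : ℤ) + r i) ≤ ∏ _i : Fin k, (2 * Real.log N) := by
          refine prod_le_prod (fun _ _ => lamI_nonneg _) fun i _ => ?_
          refine (lamI_le _ ((2 * B + 1) * N) ?_ (hup i)).trans hlog2
          nlinarith
      _ = _ := by rw [prod_const, card_univ, Fintype.card_fin]
  have p4 : ∏ i, lamzI z (α i * (n : ℤ) + r i) ≤ (2 * Real.log N) ^ k := by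
    calc ∏ i, lamzI z (α i * (n : ℤ) + r i) ≤ ∏ _i : Fin k, (2 * Real.log N) := by
          refine prod_le_prod (fun _ _ => lamzI_nonneg _ _) fun i _ => ?_
          have := lamzI_le z (α i * (n : ℤ) + r i)
          linarith
      _ = _ := by rw [prod_const, card_univ, Fintype.card_fin]
  unfold df
  rw [abs_le]
  constructor <;> linarith

open Classical in
/-- many weights, all lengths -/
theorem all_len (k p B C κ U : ℕ) : ∃ B0 : ℕ, ∀ E : ℕ, ∃ N0 : ℕ, ∀ N : ℕ, N0 ≤ N → ∀ (x : Fin k → ℕ)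
    (s : Fin k → ℕ → ℤ), (∀ i, ∀ m ∈ Icc 1 (x i), |s i m| ≤ B * N) →
    (∀ i, (Pool.Agent.H373R2.T7.energy p (x i) (s i) : ℝ) * N ≤ Real.log N ^ C * (x i : ℝ) ^ (2 * p)) →
    ∀ α : Fin k → ℤ, (∀ i, α i ≠ 0) → ∀ z : ℕ, Real.log N ^ B0 ≤ z → (z : ℝ) ≤ Real.log N ^ E →
    ∀ L : ℕ, (L : ℝ) ≤ Real.log N ^ κ → ∀ θ : Fin L → ℕ → ℝ,
    (∀ l n, 1 ≤ n → (∀ i, (α i).natAbs * n ≤ B * N) → |θ l n| ≤ Real.log N ^ κ) →
    (((Fintype.piFinset (fun i => Icc 1 (x i))).filter (fun m : Fin k → ℕ => ¬ ∀ l, ∀ A : ℕ,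
      (∀ i, (α i).natAbs * A ≤ B * N) → |∑ n ∈ Icc 1 A, θ l n * df z α (fun i => s i (m i)) n| ≤
        N / Real.log N ^ U)).card : ℝ) ≤ (∏ i, (x i : ℝ)) / Real.log N ^ U := by
  set V : ℕ := U + κ + k + 1 with hV
  set U' : ℕ := 2 * U + 2 * κ + V + 1 with hU'
  obtain ⟨B0, hB0⟩ := prod_lam k p B C U'
  refine ⟨B0, fun E => ?_⟩
  obtain ⟨n1, h1⟩ := hB0 E
  obtain ⟨n2, h2⟩ := df_bound k B E
  obtain ⟨n3, h3⟩ := ev_L' (2 ^ (k + 2) + 4 * B + 8)
  obtain ⟨n4, h4⟩ := ev_log' V 2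
  refine ⟨n1 + n2 + n3 + n4 + 3, fun N hN x s hs hE α hα z hz1 hz2 L hL θ hθ => ?_⟩
  have hLg := h3 N (by omega)
  have a4 := h4 N (by omega)
  have hdf := h2 N (by omega)
  have hN0 : (0 : ℝ) < N := by exact_mod_cast (by omega : 0 < N)
  have hN1 : (1 : ℝ) ≤ N := by exact_mod_cast (by omega : 1 ≤ N)
  obtain ⟨Lg, hLgd⟩ : ∃ Lg, Lg = Real.log N := ⟨_, rfl⟩
  rw [← hLgd] at hLg a4 hL hz1 hz2 hdf ⊢
  have hB0r : (0 : ℝ) ≤ B := Nat.cast_nonneg _
  have h2k : (0 : ℝ) < 2 ^ (k + 2) := by positivity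
  have hL8 : 8 ≤ Lg := by linarith
  have hL1 : 1 ≤ Lg := by linarith
  have hL0 : 0 < Lg := by linarith
  have hz : 1 ≤ z := by
    have : (1 : ℝ) ≤ z := (one_le_pow₀ hL1).trans hz1
    exact_mod_cast this
  have hRHS : 0 ≤ (∏ i, (x i : ℝ)) / Lg ^ U := div_nonneg (prod_nonneg fun _ _ => Nat.cast_nonneg _) (by positivity)
  -- no forms
  rcases Nat.eq_zero_or_pos k with hk | hk
  · subst hk
    have : ((Fintype.piFinset (fun i => Icc 1 (x i))).filter (fun m : Fin 0 → ℕ => ¬ ∀ l, ∀ A : ℕ,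
      (∀ i, (α i).natAbs * A ≤ B * N) → |∑ n ∈ Icc 1 A, θ l n * df z α (fun i => s i (m i)) n| ≤
        N / Lg ^ U)) = ∅ := by
      rw [filter_eq_empty_iff]
      intro m _ hcon
      apply hcon
      intro l A _
      simp only [df_zero, mul_zero, sum_const_zero, abs_zero]
      positivity
    rw [this, card_empty, Nat.cast_zero]
    exact hRHS
  -- empty families
  by_cases hx1 : ∀ i, 1 ≤ x i
  swap
  · push Not at hx1
    obtain ⟨i, hi⟩ := hx1
    have : Fintype.piFinset (fun i => Icc 1 (x i)) = ∅ := by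
      rw [Fintype.piFinset_eq_empty]
      exact ⟨i, by rw [Icc_eq_empty]; omega⟩
    rw [this, filter_empty, card_empty, Nat.cast_zero]
    exact hRHS
  have hprod0 : 0 ≤ ∏ i, (x i : ℝ) := prod_nonneg fun _ _ => Nat.cast_nonneg _
  -- the grid
  have hLV : 0 < Lg ^ V := by positivity
  have hNV : 2 ≤ (N : ℝ) / Lg ^ V := by
    rw [le_div_iff₀ hLV]
    refine a4.trans ?_
    rw [Real.sqrt_le_left (by positivity)]
    nlinarith
  obtain ⟨D, hD⟩ : ∃ D : ℕ, D = ⌊(N : ℝ) / Lg ^ V⌋₊ := ⟨_, rfl⟩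
  have hD1 : (D : ℝ) ≤ N / Lg ^ V := by rw [hD]; exact Nat.floor_le (by linarith)
  have hD2 : (N : ℝ) / Lg ^ V / 2 ≤ D := by
    have := (Nat.lt_floor_add_one ((N : ℝ) / Lg ^ V)).le
    rw [← hD] at this
    linarith
  have hDpos : 1 ≤ D := by
    have : (1 : ℝ) ≤ D := by linarith
    exact_mod_cast this
  have hD0 : (0 : ℝ) < D := by exact_mod_cast hDpos
  obtain ⟨J, hJ⟩ : ∃ J : ℕ, J = B * N / D := ⟨_, rfl⟩
  have hJr : (J : ℝ) ≤ 2 * B * Lg ^ V := by
    have h5 : (J : ℝ) ≤ (B * N : ℕ) / (D : ℝ) := by rw [hJ]; exact Nat.cast_div_le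
    refine h5.trans ?_
    rw [div_le_iff₀ hD0]
    push_cast
    calc (B : ℝ) * N = 2 * B * Lg ^ V * (N / Lg ^ V / 2) := by field_simp
      _ ≤ 2 * B * Lg ^ V * D := mul_le_mul_of_nonneg_left hD2 (by positivity)
  -- the bad sets
  set S : Fin L → ℕ → (Fin k → ℕ) → ℝ := fun l A m =>
    |∑ n ∈ Icc 1 A, θ l n * df z α (fun i => s i (m i)) n| with hS
  set P := Fintype.piFinset (fun i => Icc 1 (x i)) with hP
  have hone : ∀ l A, (∀ i, (α i).natAbs * A ≤ B * N) →
      ((P.filter (fun m => N / (2 * Lg ^ U) < S l A m)).card : ℝ) ≤ 2 * Lg ^ (κ + U) * (∏ i, (x i : ℝ)) / Lg ^ U' := by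
    intro l A hA
    have e1 := h1 N (by omega) x s hx1 hs hE α hα A hA z (by rw [← hLgd]; exact hz1) (by rw [← hLgd]; exact hz2)
      (Lg ^ κ) (by positivity) (θ l) (by
        intro n hn
        rw [mem_Icc] at hn
        rw [hLgd]
        exact hθ l n hn.1 (fun i => (Nat.mul_le_mul_left _ hn.2).trans (hA i)))
    have e2 : ((P.filter (fun m => N / (2 * Lg ^ U) < S l A m)).card : ℝ) * (N / (2 * Lg ^ U)) ≤
        Lg ^ κ * (N * (∏ i, (x i : ℝ)) / Lg ^ U') := by
      rw [← nsmul_eq_mul, ← sum_const]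
      calc ∑ _m ∈ P.filter (fun m => N / (2 * Lg ^ U) < S l A m), (N : ℝ) / (2 * Lg ^ U)
          ≤ ∑ m ∈ P.filter (fun m => N / (2 * Lg ^ U) < S l A m), S l A m :=
            sum_le_sum fun m hm => (mem_filter.mp hm).2.le
        _ ≤ ∑ m ∈ P, S l A m := sum_le_sum_of_subset_of_nonneg (filter_subset _ _) fun _ _ _ => abs_nonneg _
        _ ≤ _ := by
            rw [← hLgd] at e1
            exact e1
    have e3 : (0 : ℝ) < N / (2 * Lg ^ U) := by positivity
    rw [← le_div_iff₀ e3] at e2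
    refine e2.trans (le_of_eq ?_)
    rw [pow_add]
    field_simp
    try ring
  -- the union
  have hsub : (P.filter (fun m : Fin k → ℕ => ¬ ∀ l, ∀ A : ℕ, (∀ i, (α i).natAbs * A ≤ B * N) →
      |∑ n ∈ Icc 1 A, θ l n * df z α (fun i => s i (m i)) n| ≤ N / Lg ^ U)) ⊆
      (univ : Finset (Fin L)).biUnion (fun l => (range (J + 1)).biUnion (fun j =>
        if ∀ i, (α i).natAbs * (j * D) ≤ B * N then P.filter (fun m => N / (2 * Lg ^ U) < S l (j * D) m) else ∅)) := by
    intro m hm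
    rw [mem_filter] at hm
    obtain ⟨hmP, hbad⟩ := hm
    push Not at hbad
    obtain ⟨l, A, hA, hbig⟩ := hbad
    rw [mem_biUnion]
    refine ⟨l, mem_univ _, ?_⟩
    rw [mem_biUnion]
    set j := A / D with hj
    have hjA : j * D ≤ A := Nat.div_mul_le_self _ _
    have hAj : A < j * D + D := by
      have := Nat.lt_div_mul_add (a := A) hDpos
      exact this
    have hAB : A ≤ B * N := by
      have i0 : Fin k := ⟨0, hk⟩
      have e1 : 1 ≤ (α i0).natAbs := Int.natAbs_pos.mpr (hα i0)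
      exact (Nat.le_mul_of_pos_left _ e1).trans (hA i0)
    refine ⟨j, ?_, ?_⟩
    · rw [mem_range, Nat.lt_succ_iff, hJ]
      exact Nat.div_le_div_right hAB
    · rw [if_pos (fun i => (Nat.mul_le_mul_left _ hjA).trans (hA i)), mem_filter]
      refine ⟨hmP, ?_⟩
      have e1 : ∑ n ∈ Icc 1 A, θ l n * df z α (fun i => s i (m i)) n =
          ∑ n ∈ Icc 1 (j * D), θ l n * df z α (fun i => s i (m i)) n +
            ∑ n ∈ Ioc (j * D) A, θ l n * df z α (fun i => s i (m i)) n := by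
        have e2 : Icc 1 A = Icc 1 (j * D) ∪ Ioc (j * D) A := by
          ext n
          simp only [mem_union, mem_Icc, mem_Ioc]
          omega
        rw [e2, sum_union]
        rw [disjoint_left]
        intro n hn hn'
        rw [mem_Icc] at hn
        rw [mem_Ioc] at hn'
        omega
      have e3 : |∑ n ∈ Ioc (j * D) A, θ l n * df z α (fun i => s i (m i)) n| ≤ D * (Lg ^ κ * (2 * Lg) ^ k) := by
        refine (abs_sum_le_sum_abs _ _).trans ?_
        calc ∑ n ∈ Ioc (j * D) A, |θ l n * df z α (fun i => s i (m i)) n|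
            ≤ ∑ n ∈ Ioc (j * D) A, Lg ^ κ * (2 * Lg) ^ k := by
              refine sum_le_sum fun n hn => ?_
              rw [mem_Ioc] at hn
              have g0 : ∀ i, (α i).natAbs * n ≤ B * N := fun i => (Nat.mul_le_mul_left _ hn.2).trans (hA i)
              have g1 : |θ l n| ≤ Lg ^ κ := by
                rw [hLgd]
                exact hθ l n (by omega) g0
              have g2 := hdf z hz hz2 α (fun i => s i (m i)) (fun i => hs i (m i) (by
                have := Fintype.mem_piFinset.mp hmP i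
                exact this)) n g0
              rw [abs_mul]
              exact mul_le_mul g1 g2 (abs_nonneg _) (by positivity)
          _ = ((A - j * D : ℕ) : ℝ) * (Lg ^ κ * (2 * Lg) ^ k) := by
              rw [sum_const, Nat.card_Ioc, nsmul_eq_mul]
          _ ≤ D * (Lg ^ κ * (2 * Lg) ^ k) := by
              apply mul_le_mul_of_nonneg_right _ (by positivity)
              exact_mod_cast (by omega : A - j * D ≤ D)
      have e4 : (D : ℝ) * (Lg ^ κ * (2 * Lg) ^ k) ≤ N / (2 * Lg ^ U) := by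
        calc (D : ℝ) * (Lg ^ κ * (2 * Lg) ^ k) ≤ N / Lg ^ V * (Lg ^ κ * (2 * Lg) ^ k) :=
              mul_le_mul_of_nonneg_right hD1 (by positivity)
          _ = N / (2 * Lg ^ U) * (2 ^ (k + 1) / Lg) := by
              rw [hV, mul_pow, pow_add, pow_add, pow_add, pow_succ 2 k]
              field_simp
          _ ≤ N / (2 * Lg ^ U) * 1 := by
              apply mul_le_mul_of_nonneg_left _ (by positivity)
              rw [div_le_one hL0]
              have : (2 : ℝ) ^ (k + 1) ≤ 2 ^ (k + 2) := pow_le_pow_right₀ (by norm_num) (by omega)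
              linarith
          _ = _ := mul_one _
      have e5 : (N : ℝ) / Lg ^ U = N / (2 * Lg ^ U) + N / (2 * Lg ^ U) := by
        field_simp
        ring
      have e6 := abs_add_le (∑ n ∈ Icc 1 (j * D), θ l n * df z α (fun i => s i (m i)) n)
        (∑ n ∈ Ioc (j * D) A, θ l n * df z α (fun i => s i (m i)) n)
      rw [← e1] at e6
      have e7 : S l (j * D) m = |∑ n ∈ Icc 1 (j * D), θ l n * df z α (fun i => s i (m i)) n| := rfl
      rw [e7]
      linarith
  have hfin : ((P.filter (fun m : Fin k → ℕ => ¬ ∀ l, ∀ A : ℕ, (∀ i, (α i).natAbs * A ≤ B * N) →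
      |∑ n ∈ Icc 1 A, θ l n * df z α (fun i => s i (m i)) n| ≤ N / Lg ^ U)).card : ℝ) ≤
      ∑ _l : Fin L, ∑ _j ∈ range (J + 1), 2 * Lg ^ (κ + U) * (∏ i, (x i : ℝ)) / Lg ^ U' := by
    refine (Nat.cast_le.mpr (card_le_card hsub)).trans ?_
    refine (Nat.cast_le.mpr card_biUnion_le).trans ?_
    push_cast
    refine sum_le_sum fun l _ => ?_
    refine (Nat.cast_le.mpr card_biUnion_le).trans ?_
    push_cast
    refine sum_le_sum fun j _ => ?_
    split_ifs with h
    · exact hone l (j * D) h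
    · rw [card_empty, Nat.cast_zero]
      positivity
  refine hfin.trans ?_
  rw [sum_const, sum_const, card_univ, Fintype.card_fin, card_range, nsmul_eq_mul, nsmul_eq_mul]
  push_cast
  have f1 : ((J : ℝ) + 1) ≤ (2 * B + 1) * Lg ^ V := by
    have : 1 ≤ Lg ^ V := one_le_pow₀ hL1
    linarith
  calc (L : ℝ) * (((J : ℝ) + 1) * (2 * Lg ^ (κ + U) * (∏ i, (x i : ℝ)) / Lg ^ U'))
      ≤ Lg ^ κ * (((2 * B + 1) * Lg ^ V) * (2 * Lg ^ (κ + U) * (∏ i, (x i : ℝ)) / Lg ^ U')) := by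
        apply mul_le_mul hL _ (by positivity) (by positivity)
        exact mul_le_mul_of_nonneg_right f1 (by positivity)
    _ = (∏ i, (x i : ℝ)) / Lg ^ U * ((2 * (2 * B + 1)) / Lg) := by
        have hUe : Lg ^ U' = Lg ^ κ * Lg ^ V * Lg ^ (κ + U) * Lg ^ U * Lg := by
          rw [hU', show 2 * U + 2 * κ + V + 1 = κ + V + (κ + U) + U + 1 by ring, pow_add, pow_add, pow_add, pow_add,
            pow_one]
        rw [hUe]
        field_simp
    _ ≤ (∏ i, (x i : ℝ)) / Lg ^ U * 1 := by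
        apply mul_le_mul_of_nonneg_left _ hRHS
        rw [div_le_one hL0]
        linarith
    _ = _ := mul_one _

end Pool.Agent.Run7.h17.PT
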