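import Mathlib
import Pool.Agent.Run7.h17.PT2
import Pool.Agent.Run7.h17.JointBDH
import Pool.Agent.Run7.h17.Coprime

/-! Products of values of the von Mangoldt function minus their sieve models in almost all classes of almost all
moduli (Barban, Davenport, Halberstam), and for pairwise coprime moduli. -/

set_option autoImplicit false
set_option maxHeartbeats 4000000

namespace Pool.Agent.Run7.h17.PT

open Finset Pool.Agent.H373R2.T7 Pool.Agent.H560R3.GB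
open Pool.Agent.Run7.h17.BDH (FF cs Eqd bdh_log blk blk_norm cs_blk blocks copr0)
open Pool.Agent.Run7.h17.JB (top top_spec le_top cond_iff)
open Pool.Agent.Helper112

/-- the normalised summand -/
noncomputable def gn {k : ℕ} (θ : ℕ → ℝ) (z : ℕ) (α r : Fin k → ℤ) (H : ℕ) (M : ℝ) (n : ℕ) : ℂ :=
  if 1 ≤ n ∧ ∀ i ∈ (univ : Finset (Fin k)), (α i).natAbs * n ≤ H then ((θ n * df z α r n / M : ℝ) : ℂ) else 0

lemma gn_norm {k : ℕ} (θ : ℕ → ℝ) (z : ℕ) (α r : Fin k → ℤ) (H : ℕ) (M : ℝ) (hM : 0 < M)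
    (h : ∀ n, 1 ≤ n → (∀ i, (α i).natAbs * n ≤ H) → |θ n * df z α r n| ≤ M) (n : ℕ) :
    ‖gn θ z α r H M n‖ ≤ 1 := by
  unfold gn
  split_ifs with h1
  · rw [Complex.norm_real, Real.norm_eq_abs, abs_div, abs_of_pos hM, div_le_one hM]
    exact h n h1.1 (fun i => h1.2 i (mem_univ i))
  · simp

/-- sums over classes -/
lemma cs_gn {k : ℕ} (hk : 0 < k) (θ : ℕ → ℝ) (z : ℕ) (α r : Fin k → ℤ) (hα : ∀ i, α i ≠ 0) (H : ℕ) (M : ℝ) (q c y : ℕ) :
    cs (gn θ z α r H M) q c y =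
      (((∑ n ∈ Icc 1 (min y (top (fun i => (α i).natAbs) univ H)), if n % q = c then θ n * df z α r n else 0) / M : ℝ) : ℂ) := by
  unfold cs
  set tp := top (fun i => (α i).natAbs) univ H with htp
  have hI : (univ : Finset (Fin k)).Nonempty := ⟨⟨0, hk⟩, mem_univ _⟩
  have e1 : Icc 1 (min y tp) = (Icc 1 y).filter (fun n => n ≤ tp) := by
    ext n
    rw [mem_filter, mem_Icc, mem_Icc, le_min_iff]
    tauto
  rw [e1, sum_filter, sum_div]
  push_cast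
  refine sum_congr rfl fun n hn => ?_
  rw [mem_Icc] at hn
  have hci := cond_iff (fun i => (α i).natAbs) (fun i => Int.natAbs_pos.mpr (hα i)) univ hI H n
  unfold gn
  by_cases h1 : n % q = c
  · by_cases h2 : n ≤ tp
    · rw [if_pos h1, if_pos ⟨hn.1, hci.mpr h2⟩, if_pos h2, if_pos h1]
      push_cast
      ring
    · rw [if_pos h1, if_neg (fun h3 => h2 (hci.mp h3.2)), if_neg h2]
      simp
  · by_cases h2 : n ≤ tp
    · rw [if_neg h1, if_pos h2, if_neg h1]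
      simp
    · rw [if_neg h1, if_neg h2]
      simp

/-- pairwise coprime bad moduli, all parameters explicit -/
lemma coprP (f : ℕ → ℂ) (hf : ∀ n, ‖f n‖ ≤ 1) (x Q T : ℕ) (ε : ℝ) (hε : 0 < ε) (hT : 8 / ε < T) (hx : 8 / ε ≤ x)
    (hQ : 8 / ε * Q ≤ x) (hF : ∀ y ≤ x, ‖FF f y 0‖ ≤ ε / (8 * T) * x) (M : Finset ℕ)
    (hM : ∀ q ∈ M, 1 ≤ q ∧ q ≤ Q) (hc : ∀ q ∈ M, ∀ q' ∈ M, q ≠ q' → Nat.Coprime q q')
    (hbad : ∀ q ∈ M, ∃ Y : ℕ → ℕ, (∀ c, Y c ≤ x) ∧ ε * x < ∑ c ∈ range q, ‖cs f q c (Y c)‖) :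
    (M.card : ℝ) ≤ 48 * (T : ℝ) ^ 3 / ε ^ 2 * (1 + (Q : ℝ) ^ 2 / x) := by
  classical
  have hT0r : (0 : ℝ) < T := lt_trans (by positivity) hT
  have hT0 : 0 < T := by exact_mod_cast hT0r
  set ε' : ℝ := ε / (2 * T) with hε'
  have hε'0 : 0 < ε' := by positivity
  have hxr : (0 : ℝ) < x := lt_of_lt_of_le (by positivity) hx
  have hx0 : 0 < x := by exact_mod_cast hxr
  have hε4 : ε / (8 * T) = ε' / 4 := by
    rw [hε']
    field_simp
    ring
  rw [hε4] at hF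
  set w : ℕ := x / T + 1 with hw
  have hFblk : ∀ u v, u ≤ v → ‖FF (blk f u v) x 0‖ ≤ ε' * x / 2 := by
    intro u v huv
    have e1 : ∀ g : ℕ → ℂ, ∀ y, FF g y 0 = cs g 1 0 y := by
      intro g y
      unfold FF cs
      refine sum_congr rfl fun n _ => ?_
      rw [mul_zero, ls_ee_zero, mul_one, if_pos (Nat.mod_one n)]
    rw [e1, cs_blk f u v 1 0 x huv, ← e1, ← e1]
    refine (norm_sub_le _ _).trans ?_
    have e2 := hF (min x v) (min_le_left _ _)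
    have e3 := hF (min x u) (min_le_left _ _)
    linarith
  set P : ℕ → Finset ℕ := fun t => M.filter (fun q => ε' * x < ∑ c ∈ range q,
    ‖cs (blk f (t * w) ((t + 1) * w)) q c x‖) with hP
  have hsub : M ⊆ (range T).biUnion P := by
    intro q hq
    obtain ⟨Y, hY, hbig⟩ := hbad q hq
    obtain ⟨hq1, hqQ⟩ := hM q hq
    have hq0 : 0 < q := hq1
    have hq0r : (0 : ℝ) < (q : ℝ) := by exact_mod_cast hq0
    have e1 : ∑ c ∈ range q, ‖cs f q c (Y c)‖ ≤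
        ∑ c ∈ range q, (∑ t ∈ range T, ‖cs (blk f (t * w) ((t + 1) * w)) q c x‖ + ((w : ℝ) / (q : ℝ) + 1)) :=
      sum_le_sum fun c _ => blocks f hf x T q c (Y c) hT0 hq0 (hY c)
    rw [sum_add_distrib, sum_comm] at e1
    have e2 : ∑ _c ∈ range q, ((w : ℝ) / (q : ℝ) + 1) = w + (q : ℝ) := by
      rw [sum_const, card_range, nsmul_eq_mul, mul_add, mul_one, mul_div_cancel₀ _ hq0r.ne']
    rw [e2] at e1
    have e3 : (w : ℝ) ≤ x / T + 1 := by
      rw [hw]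
      push_cast
      have : ((x / T : ℕ) : ℝ) ≤ (x : ℝ) / T := Nat.cast_div_le
      linarith
    have e4 : (x : ℝ) / T ≤ ε * x / 8 := by
      rw [div_le_iff₀ hT0r]
      rw [div_lt_iff₀ hε] at hT
      nlinarith
    have e5 : (1 : ℝ) ≤ ε * x / 8 := by
      rw [div_le_iff₀ hε] at hx
      linarith
    have e6 : (q : ℝ) ≤ ε * x / 8 := by
      have e7 : (q : ℝ) ≤ Q := by exact_mod_cast hqQ
      have e8 : (Q : ℝ) ≤ ε * x / 8 := by
        rw [div_mul_eq_mul_div, div_le_iff₀ hε] at hQ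
        linarith
      linarith
    have e11 : ε * x / 2 < ∑ t ∈ range T, ∑ c ∈ range q, ‖cs (blk f (t * w) ((t + 1) * w)) q c x‖ := by
      linarith
    have e12 : ∃ t ∈ range T, ε' * x < ∑ c ∈ range q, ‖cs (blk f (t * w) ((t + 1) * w)) q c x‖ := by
      by_contra hcon
      push Not at hcon
      have e13 := sum_le_sum hcon
      rw [sum_const, card_range, nsmul_eq_mul] at e13
      have e14 : (T : ℝ) * (ε' * x) = ε * x / 2 := by
        rw [hε']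
        field_simp
      linarith
    obtain ⟨t, ht, ht2⟩ := e12
    rw [mem_biUnion]
    exact ⟨t, ht, mem_filter.mpr ⟨hq, ht2⟩⟩
  calc (M.card : ℝ) ≤ (((range T).biUnion P).card : ℝ) := by exact_mod_cast card_le_card hsub
    _ ≤ ∑ t ∈ range T, ((P t).card : ℝ) := by exact_mod_cast card_biUnion_le
    _ ≤ ∑ t ∈ range T, 12 / ε' ^ 2 * (1 + (Q : ℝ) ^ 2 / x) := by
        refine sum_le_sum fun t _ => copr0 (blk f (t * w) ((t + 1) * w)) (blk_norm f hf _ _) x Q ε' hε'0 hx0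
          (hFblk (t * w) ((t + 1) * w) (Nat.mul_le_mul_right w (Nat.le_succ t))) (P t) ?_ ?_ ?_
        · intro q hq
          exact hM q (mem_filter.mp hq).1
        · intro q hq q' hq'
          exact hc q (mem_filter.mp hq).1 q' (mem_filter.mp hq').1
        · intro q hq
          exact (mem_filter.mp hq).2
    _ = 48 * (T : ℝ) ^ 3 / ε ^ 2 * (1 + (Q : ℝ) ^ 2 / x) := by
        rw [sum_const, card_range, nsmul_eq_mul, hε']
        field_simp
        ring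

/-- **Powers of logarithms, pairwise coprime moduli.** -/
theorem copr_log (V : ℕ) : ∃ c : ℕ, ∃ N₀ : ℕ, ∀ N : ℕ, N₀ ≤ N → ∀ x : ℕ, N ≤ x → (x : ℝ) ≤ Real.log N * N →
    ∀ f : ℕ → ℂ, (∀ n, ‖f n‖ ≤ 1) → (∀ y ≤ x, ‖FF f y 0‖ ≤ x / Real.log N ^ c) →
    ∀ Q : ℕ, Q * Real.log N ^ c ≤ N → ∀ M : Finset ℕ,
    (∀ q ∈ M, 1 ≤ q ∧ q ≤ Q) → (∀ q ∈ M, ∀ q' ∈ M, q ≠ q' → Nat.Coprime q q') →
    (∀ q ∈ M, ∃ Y : ℕ → ℕ, (∀ c, Y c ≤ x) ∧ x / Real.log N ^ V < ∑ c ∈ range q, ‖cs f q c (Y c)‖) →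
      (M.card : ℝ) ≤ Real.log N ^ c * (1 + (Q : ℝ) ^ 2 / N) := by
  obtain ⟨m₁, h1⟩ := Filter.eventually_atTop.mp
    ((Real.tendsto_log_atTop.comp (tendsto_natCast_atTop_atTop (R := ℝ))).eventually_ge_atTop 384)
  obtain ⟨m₂, h2⟩ := ev_log' (V + 1) 1
  refine ⟨5 * V + 4, m₁ + m₂ + 3, fun N hN x hNx hxN f hf hF Q hQ M hM hc hbad => ?_⟩
  have hL100 : (384 : ℝ) ≤ Real.log N := h1 N (by omega)
  have a2 := h2 N (by omega)
  set L : ℝ := Real.log N with hL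
  rw [one_mul] at a2
  have hL0 : 0 < L := by linarith
  have hL1 : 1 ≤ L := by linarith
  have hNr1 : (1 : ℝ) ≤ N := by exact_mod_cast (by omega : 1 ≤ N)
  have hN0 : (0 : ℝ) < N := by linarith
  have hNxr : (N : ℝ) ≤ x := by exact_mod_cast hNx
  have hx0 : (0 : ℝ) < x := by linarith
  have hLV : 1 ≤ L ^ V := one_le_pow₀ hL1
  have hLV0 : 0 < L ^ V := by linarith
  set T : ℕ := ⌈L ^ (V + 1)⌉₊ with hT
  have hT1 : L ^ (V + 1) ≤ T := Nat.le_ceil _
  have hLq : 1 ≤ L ^ (V + 1) := one_le_pow₀ hL1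
  have hT2 : (T : ℝ) ≤ 2 * L ^ (V + 1) := by
    have := (Nat.ceil_lt_add_one (by positivity : (0 : ℝ) ≤ L ^ (V + 1))).le
    linarith
  have hT0r : (0 : ℝ) < T := by linarith
  have he8 : 8 / (1 / L ^ V) = 8 * L ^ V := by
    field_simp
  have h8V : 8 * L ^ V < L ^ (V + 1) := by
    rw [pow_succ]
    nlinarith
  have hsq : √(N : ℝ) ≤ N := by
    rw [Real.sqrt_le_left (by positivity)]
    nlinarith
  have key := coprP f hf x Q T (1 / L ^ V) (by positivity) (by rw [he8]; linarith) (by rw [he8]; linarith) (by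
    rw [he8]
    have e1 : 8 * L ^ V * (Q : ℝ) ≤ Q * L ^ (5 * V + 4) := by
      have e2 : 8 * L ^ V ≤ L ^ (5 * V + 4) := h8V.le.trans (pow_le_pow_right₀ hL1 (by omega))
      calc 8 * L ^ V * (Q : ℝ) = Q * (8 * L ^ V) := by ring
        _ ≤ _ := mul_le_mul_of_nonneg_left e2 (Nat.cast_nonneg _)
    linarith) (by
    intro y hy
    refine (hF y hy).trans ?_
    have e1 : 1 / L ^ V / (8 * (T : ℝ)) * x = x / (L ^ V * (8 * T)) := by
      field_simp
    rw [e1]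
    apply div_le_div_of_nonneg_left hx0.le (by positivity)
    calc L ^ V * (8 * (T : ℝ)) ≤ L ^ V * (8 * (2 * L ^ (V + 1))) := by gcongr
      _ = 16 * L ^ (2 * V + 1) := by ring
      _ ≤ L * L ^ (2 * V + 1) := mul_le_mul_of_nonneg_right (by linarith) (by positivity)
      _ = L ^ (2 * V + 2) := by ring
      _ ≤ L ^ (5 * V + 4) := pow_le_pow_right₀ hL1 (by omega)) M hM hc (by
    intro q hq
    obtain ⟨Y, hY, hb⟩ := hbad q hq
    refine ⟨Y, hY, lt_of_le_of_lt (le_of_eq ?_) hb⟩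
    ring)
  refine key.trans ?_
  have e1 : 48 * (T : ℝ) ^ 3 / (1 / L ^ V) ^ 2 ≤ L ^ (5 * V + 4) := by
    calc 48 * (T : ℝ) ^ 3 / (1 / L ^ V) ^ 2 = 48 * (T : ℝ) ^ 3 * L ^ (2 * V) := by
          field_simp
          rw [← pow_mul, mul_comm]
      _ ≤ 48 * (2 * L ^ (V + 1)) ^ 3 * L ^ (2 * V) := by gcongr
      _ = 384 * L ^ (5 * V + 3) := by
          rw [mul_pow, ← pow_mul]
          ring
      _ ≤ L * L ^ (5 * V + 3) := mul_le_mul_of_nonneg_right hL100 (by positivity)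
      _ = _ := by ring
  have e2 : (Q : ℝ) ^ 2 / x ≤ (Q : ℝ) ^ 2 / N := div_le_div_of_nonneg_left (sq_nonneg _) hN0 hNxr
  have e3 : (0 : ℝ) ≤ (Q : ℝ) ^ 2 / x := by positivity
  calc 48 * (T : ℝ) ^ 3 / (1 / L ^ V) ^ 2 * (1 + (Q : ℝ) ^ 2 / x) ≤ L ^ (5 * V + 4) * (1 + (Q : ℝ) ^ 2 / x) :=
        mul_le_mul_of_nonneg_right e1 (by positivity)
    _ ≤ _ := mul_le_mul_of_nonneg_left (by linarith) (by positivity)

end Pool.Agent.Run7.h17.PT
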