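import Mathlib
import Pool.Agent.Run7.h17.PT3

/-! From estimates with arbitrary weights on average over a parameter to almost all classes of almost all moduli, and
to pairwise coprime moduli, for almost all values of the parameter. -/

set_option autoImplicit false
set_option maxHeartbeats 4000000

namespace Pool.Agent.Run7.h17.ABS

open Finset
open Pool.Agent.H373R2.T7 (ev_L' ev_log')
open Pool.Agent.Run7.h17.BDH (FF cs Eqd bdh_log)
open Pool.Agent.Run7.h17.PT (copr_log)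
open Pool.Agent.Helper112

open Classical in
/-- many weights, all lengths -/
theorem all_len (κ U : ℕ) : ∃ N0 : ℕ, ∀ N : ℕ, N0 ≤ N → ∀ X : ℕ, (X : ℝ) ≤ Real.log N * N →
    ∀ {ι : Type} (P : Finset ι) (D : ι → ℕ → ℝ) (W : ℝ), 0 ≤ W →
    (∀ m ∈ P, ∀ n ∈ Icc 1 X, |D m n| ≤ Real.log N ^ κ) →
    (∀ A : ℕ, A ≤ X → ∀ G : ℕ → ℝ, (∀ n, |G n| ≤ 1) →
      ∑ m ∈ P, |∑ n ∈ Icc 1 A, G n * D m n| ≤ N * W / Real.log N ^ (3 * U + 5 * κ + 6)) →
    ∀ L : ℕ, (L : ℝ) ≤ Real.log N ^ κ → ∀ θ : Fin L → ℕ → ℝ,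
    (∀ l, ∀ n ∈ Icc 1 X, |θ l n| ≤ Real.log N ^ κ) →
    ((P.filter (fun m => ¬ ∀ l, ∀ A : ℕ, A ≤ X → |∑ n ∈ Icc 1 A, θ l n * D m n| ≤
        N / Real.log N ^ U)).card : ℝ) ≤ W / Real.log N ^ U := by
  set V : ℕ := U + 2 * κ + 1 with hV
  obtain ⟨n3, h3⟩ := ev_L' 16
  obtain ⟨n4, h4⟩ := ev_log' V 2
  refine ⟨n3 + n4 + 3, fun N hN X hX ι P D W hW hD hL1 L hL θ hθ => ?_⟩
  have hLg := h3 N (by omega)
  have a4 := h4 N (by omega)
  have hN1 : (1 : ℝ) ≤ N := by exact_mod_cast (by omega : 1 ≤ N)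
  have hN0 : (0 : ℝ) < N := by linarith
  obtain ⟨Lg, hLgd⟩ : ∃ Lg, Lg = Real.log N := ⟨_, rfl⟩
  rw [← hLgd] at hLg a4 hL hX hD hL1 hθ ⊢
  have hL1' : 1 ≤ Lg := by linarith
  have hL0 : 0 < Lg := by linarith
  have hLV : 0 < Lg ^ V := by positivity
  have hNV : 2 ≤ (N : ℝ) / Lg ^ V := by
    rw [le_div_iff₀ hLV]
    refine a4.trans ?_
    rw [Real.sqrt_le_left (by positivity)]
    nlinarith
  obtain ⟨Dl, hDl⟩ : ∃ Dl : ℕ, Dl = ⌊(N : ℝ) / Lg ^ V⌋₊ := ⟨_, rfl⟩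
  have hD1 : (Dl : ℝ) ≤ N / Lg ^ V := by rw [hDl]; exact Nat.floor_le (by linarith)
  have hD2 : (N : ℝ) / Lg ^ V / 2 ≤ Dl := by
    have := (Nat.lt_floor_add_one ((N : ℝ) / Lg ^ V)).le
    rw [← hDl] at this
    linarith
  have hDpos : 1 ≤ Dl := by
    have : (1 : ℝ) ≤ Dl := by linarith
    exact_mod_cast this
  have hD0 : (0 : ℝ) < Dl := by exact_mod_cast hDpos
  obtain ⟨J, hJ⟩ : ∃ J : ℕ, J = X / Dl := ⟨_, rfl⟩
  have hJr : (J : ℝ) ≤ 2 * Lg ^ (V + 1) := by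
    have h5 : (J : ℝ) ≤ (X : ℝ) / (Dl : ℝ) := by rw [hJ]; exact Nat.cast_div_le
    refine h5.trans ?_
    rw [div_le_iff₀ hD0]
    calc (X : ℝ) ≤ Lg * N := hX
      _ = 2 * Lg ^ (V + 1) * (N / Lg ^ V / 2) := by
          rw [pow_succ]
          field_simp
      _ ≤ 2 * Lg ^ (V + 1) * Dl := mul_le_mul_of_nonneg_left hD2 (by positivity)
  -- the bad sets
  set S : Fin L → ℕ → ι → ℝ := fun l A m => |∑ n ∈ Icc 1 A, θ l n * D m n| with hS
  have hone : ∀ l A, A ≤ X → ((P.filter (fun m => N / (2 * Lg ^ U) < S l A m)).card : ℝ) ≤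
      2 * Lg ^ (κ + U) * W / Lg ^ (3 * U + 5 * κ + 6) := by
    intro l A hA
    set G : ℕ → ℝ := fun n => if n ∈ Icc 1 X then θ l n / Lg ^ κ else 0 with hG
    have e1 := hL1 A hA G (by
      intro n
      rw [hG]
      simp only
      split_ifs with hn
      · rw [abs_div, abs_of_pos (by positivity : 0 < Lg ^ κ), div_le_one (by positivity)]
        exact hθ l n hn
      · simp)
    have e0 : ∀ m, S l A m = Lg ^ κ * |∑ n ∈ Icc 1 A, G n * D m n| := by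
      intro m
      rw [hS]
      simp only
      have e00 : Lg ^ κ * |∑ n ∈ Icc 1 A, G n * D m n| = |Lg ^ κ * ∑ n ∈ Icc 1 A, G n * D m n| := by
        rw [abs_mul, abs_of_pos (by positivity : 0 < Lg ^ κ)]
      rw [e00, mul_sum]
      congr 1
      refine sum_congr rfl fun n hn => ?_
      rw [hG]
      simp only
      rw [if_pos (by rw [mem_Icc] at hn ⊢; omega)]
      field_simp
    have e2 : ((P.filter (fun m => N / (2 * Lg ^ U) < S l A m)).card : ℝ) * (N / (2 * Lg ^ U)) ≤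
        Lg ^ κ * (N * W / Lg ^ (3 * U + 5 * κ + 6)) := by
      rw [← nsmul_eq_mul, ← sum_const]
      calc ∑ _m ∈ P.filter (fun m => N / (2 * Lg ^ U) < S l A m), (N : ℝ) / (2 * Lg ^ U)
          ≤ ∑ m ∈ P.filter (fun m => N / (2 * Lg ^ U) < S l A m), S l A m :=
            sum_le_sum fun m hm => (mem_filter.mp hm).2.le
        _ ≤ ∑ m ∈ P, S l A m := sum_le_sum_of_subset_of_nonneg (filter_subset _ _) fun _ _ _ => abs_nonneg _
        _ = Lg ^ κ * ∑ m ∈ P, |∑ n ∈ Icc 1 A, G n * D m n| := by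
            rw [mul_sum]
            exact sum_congr rfl fun m _ => e0 m
        _ ≤ _ := mul_le_mul_of_nonneg_left e1 (by positivity)
    have e3 : (0 : ℝ) < N / (2 * Lg ^ U) := by positivity
    rw [← le_div_iff₀ e3] at e2
    refine e2.trans (le_of_eq ?_)
    rw [pow_add Lg κ U]
    field_simp
  -- the union
  have hsub : (P.filter (fun m => ¬ ∀ l, ∀ A : ℕ, A ≤ X → |∑ n ∈ Icc 1 A, θ l n * D m n| ≤ N / Lg ^ U)) ⊆
      (univ : Finset (Fin L)).biUnion (fun l => (range (J + 1)).biUnion (fun j =>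
        if j * Dl ≤ X then P.filter (fun m => N / (2 * Lg ^ U) < S l (j * Dl) m) else ∅)) := by
    intro m hm
    rw [mem_filter] at hm
    obtain ⟨hmP, hbad⟩ := hm
    push Not at hbad
    obtain ⟨l, A, hA, hbig⟩ := hbad
    rw [mem_biUnion]
    refine ⟨l, mem_univ _, ?_⟩
    rw [mem_biUnion]
    set j := A / Dl with hj
    have hjA : j * Dl ≤ A := Nat.div_mul_le_self _ _
    have hAj : A < j * Dl + Dl := Nat.lt_div_mul_add (a := A) hDpos
    refine ⟨j, ?_, ?_⟩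
    · rw [mem_range, Nat.lt_succ_iff, hJ]
      exact Nat.div_le_div_right hA
    · rw [if_pos (hjA.trans hA), mem_filter]
      refine ⟨hmP, ?_⟩
      have e1 : ∑ n ∈ Icc 1 A, θ l n * D m n =
          ∑ n ∈ Icc 1 (j * Dl), θ l n * D m n + ∑ n ∈ Ioc (j * Dl) A, θ l n * D m n := by
        have e2 : Icc 1 A = Icc 1 (j * Dl) ∪ Ioc (j * Dl) A := by
          ext n
          simp only [mem_union, mem_Icc, mem_Ioc]
          omega
        rw [e2, sum_union]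
        rw [disjoint_left]
        intro n hn hn'
        rw [mem_Icc] at hn
        rw [mem_Ioc] at hn'
        omega
      have e3 : |∑ n ∈ Ioc (j * Dl) A, θ l n * D m n| ≤ Dl * (Lg ^ κ * Lg ^ κ) := by
        refine (abs_sum_le_sum_abs _ _).trans ?_
        calc ∑ n ∈ Ioc (j * Dl) A, |θ l n * D m n| ≤ ∑ n ∈ Ioc (j * Dl) A, Lg ^ κ * Lg ^ κ := by
              refine sum_le_sum fun n hn => ?_
              rw [mem_Ioc] at hn
              have g0 : n ∈ Icc 1 X := by rw [mem_Icc]; omega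
              rw [abs_mul]
              exact mul_le_mul (hθ l n g0) (hD m hmP n g0) (abs_nonneg _) (by positivity)
          _ = ((A - j * Dl : ℕ) : ℝ) * (Lg ^ κ * Lg ^ κ) := by
              rw [sum_const, Nat.card_Ioc, nsmul_eq_mul]
          _ ≤ Dl * (Lg ^ κ * Lg ^ κ) := by
              apply mul_le_mul_of_nonneg_right _ (by positivity)
              exact_mod_cast (by omega : A - j * Dl ≤ Dl)
      have e4 : (Dl : ℝ) * (Lg ^ κ * Lg ^ κ) ≤ N / (2 * Lg ^ U) := by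
        calc (Dl : ℝ) * (Lg ^ κ * Lg ^ κ) ≤ N / Lg ^ V * (Lg ^ κ * Lg ^ κ) :=
              mul_le_mul_of_nonneg_right hD1 (by positivity)
          _ = N / (2 * Lg ^ U) * (2 / Lg) := by
              have hVe : Lg ^ V = Lg ^ U * (Lg ^ κ * Lg ^ κ) * Lg := by
                rw [hV, show U + 2 * κ + 1 = U + (κ + κ) + 1 by ring, pow_succ, pow_add, pow_add Lg κ κ]
              rw [hVe]
              field_simp
          _ ≤ N / (2 * Lg ^ U) * 1 := by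
              apply mul_le_mul_of_nonneg_left _ (by positivity)
              rw [div_le_one hL0]
              linarith
          _ = _ := mul_one _
      have e5 : (N : ℝ) / Lg ^ U = N / (2 * Lg ^ U) + N / (2 * Lg ^ U) := by
        field_simp
        ring
      have e6 := abs_add_le (∑ n ∈ Icc 1 (j * Dl), θ l n * D m n) (∑ n ∈ Ioc (j * Dl) A, θ l n * D m n)
      rw [← e1] at e6
      have e7 : S l (j * Dl) m = |∑ n ∈ Icc 1 (j * Dl), θ l n * D m n| := rfl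
      rw [e7]
      linarith
  have hpos : 0 ≤ 2 * Lg ^ (κ + U) * W / Lg ^ (3 * U + 5 * κ + 6) := by positivity
  have hfin : ((P.filter (fun m => ¬ ∀ l, ∀ A : ℕ, A ≤ X → |∑ n ∈ Icc 1 A, θ l n * D m n| ≤
        N / Lg ^ U)).card : ℝ) ≤
      ∑ _l : Fin L, ∑ _j ∈ range (J + 1), 2 * Lg ^ (κ + U) * W / Lg ^ (3 * U + 5 * κ + 6) := by
    refine (Nat.cast_le.mpr (card_le_card hsub)).trans ?_
    refine (Nat.cast_le.mpr card_biUnion_le).trans ?_
    push_cast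
    refine sum_le_sum fun l _ => ?_
    refine (Nat.cast_le.mpr card_biUnion_le).trans ?_
    push_cast
    refine sum_le_sum fun j _ => ?_
    split_ifs with h
    · exact hone l (j * Dl) h
    · rw [card_empty, Nat.cast_zero]
      exact hpos
  refine hfin.trans ?_
  rw [sum_const, sum_const, card_univ, Fintype.card_fin, card_range, nsmul_eq_mul, nsmul_eq_mul]
  push_cast
  have f1 : ((J : ℝ) + 1) ≤ 3 * Lg ^ (V + 1) := by
    have : 1 ≤ Lg ^ (V + 1) := one_le_pow₀ hL1'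
    linarith
  have hUe : Lg ^ (3 * U + 5 * κ + 6) = Lg ^ κ * Lg ^ (V + 1) * Lg ^ (κ + U) * Lg ^ U * Lg ^ (κ + 4) := by
    rw [← pow_add, ← pow_add, ← pow_add, ← pow_add, hV]
    congr 1
    ring
  have hL4 : 6 ≤ Lg ^ (κ + 4) := by
    calc (6 : ℝ) ≤ Lg ^ 1 := by rw [pow_one]; linarith
      _ ≤ Lg ^ (κ + 4) := pow_le_pow_right₀ hL1' (by omega)
  calc (L : ℝ) * (((J : ℝ) + 1) * (2 * Lg ^ (κ + U) * W / Lg ^ (3 * U + 5 * κ + 6)))
      ≤ Lg ^ κ * ((3 * Lg ^ (V + 1)) * (2 * Lg ^ (κ + U) * W / Lg ^ (3 * U + 5 * κ + 6))) := by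
        apply mul_le_mul hL _ (by positivity) (by positivity)
        exact mul_le_mul_of_nonneg_right f1 hpos
    _ = W / Lg ^ U * (6 / Lg ^ (κ + 4)) := by
        rw [hUe]
        field_simp
        ring
    _ ≤ W / Lg ^ U * 1 := by
        apply mul_le_mul_of_nonneg_left _ (by positivity)
        rw [div_le_one (by positivity)]
        exact hL4
    _ = _ := mul_one _

/-- the normalised summand -/
noncomputable def gn (θ D : ℕ → ℝ) (X : ℕ) (M : ℝ) (n : ℕ) : ℂ :=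
  if n ∈ Icc 1 X then ((θ n * D n / M : ℝ) : ℂ) else 0

lemma gn_norm (θ D : ℕ → ℝ) (X : ℕ) (M : ℝ) (hM : 0 < M) (h : ∀ n ∈ Icc 1 X, |θ n * D n| ≤ M) (n : ℕ) :
    ‖gn θ D X M n‖ ≤ 1 := by
  unfold gn
  split_ifs with h1
  · rw [Complex.norm_real, Real.norm_eq_abs, abs_div, abs_of_pos hM, div_le_one hM]
    exact h n h1
  · simp

lemma cs_gn (θ D : ℕ → ℝ) (X : ℕ) (M : ℝ) (q c y : ℕ) :
    cs (gn θ D X M) q c y = (((∑ n ∈ Icc 1 (min y X), if n % q = c then θ n * D n else 0) / M : ℝ) : ℂ) := by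
  unfold cs
  have e1 : Icc 1 (min y X) = (Icc 1 y).filter (fun n => n ≤ X) := by
    ext n
    rw [mem_filter, mem_Icc, mem_Icc, le_min_iff]
    tauto
  rw [e1, sum_filter, sum_div]
  push_cast
  refine sum_congr rfl fun n hn => ?_
  rw [mem_Icc] at hn
  unfold gn
  by_cases h1 : n % q = c
  · by_cases h2 : n ≤ X
    · rw [if_pos h1, if_pos (by rw [mem_Icc]; omega), if_pos h2, if_pos h1]
      push_cast
      ring
    · rw [if_pos h1, if_neg (by rw [mem_Icc]; omega), if_neg h2]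
      simp
  · by_cases h2 : n ≤ X
    · rw [if_neg h1, if_pos h2, if_neg h1]
      simp
    · rw [if_neg h1, if_neg h2]
      simp

open Classical in
/-- the classes of small moduli -/
theorem classes (κ U G : ℕ) : ∃ N0 : ℕ, ∀ N : ℕ, N0 ≤ N → ∀ X : ℕ, (X : ℝ) ≤ Real.log N * N →
    ∀ {ι : Type} (P : Finset ι) (D : ι → ℕ → ℝ) (W : ℝ), 0 ≤ W →
    (∀ m ∈ P, ∀ n ∈ Icc 1 X, |D m n| ≤ Real.log N ^ κ) →
    (∀ A : ℕ, A ≤ X → ∀ H : ℕ → ℝ, (∀ n, |H n| ≤ 1) →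
      ∑ m ∈ P, |∑ n ∈ Icc 1 A, H n * D m n| ≤ N * W / Real.log N ^ (3 * U + 5 * (κ + 2 * G + 1) + 6)) →
    ∀ L : ℕ, (L : ℝ) ≤ Real.log N ^ κ → ∀ θ : Fin L → ℕ → ℝ,
    (∀ l, ∀ n ∈ Icc 1 X, |θ l n| ≤ Real.log N ^ κ) →
    ((P.filter (fun m => ¬ ∀ l, (∀ n, ‖gn (θ l) (D m) X (Real.log N ^ (2 * κ)) n‖ ≤ 1) ∧
      ∀ b : ℕ, 1 ≤ b → (b : ℝ) ≤ 2 * Real.log N ^ G → ∀ c y : ℕ,
        ‖cs (gn (θ l) (D m) X (Real.log N ^ (2 * κ))) b c y‖ ≤ N / Real.log N ^ U)).card : ℝ) ≤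
      W / Real.log N ^ U := by
  set κ' : ℕ := κ + 2 * G + 1 with hκ'
  obtain ⟨n1, h1⟩ := all_len κ' U
  obtain ⟨n3, h3⟩ := ev_L' 9
  refine ⟨n1 + n3 + 3, fun N hN X hX ι P D W hW hD hL1b L hL θ hθ => ?_⟩
  have hLg := h3 N (by omega)
  obtain ⟨Lg, hLgd⟩ : ∃ Lg, Lg = Real.log N := ⟨_, rfl⟩
  rw [← hLgd] at hLg
  have hL1 : 1 ≤ Lg := by linarith
  have hL0 : 0 < Lg := by linarith
  have hN0 : (0 : ℝ) < N := by exact_mod_cast (by omega : 0 < N)
  set q₀ : ℕ := ⌊2 * Lg ^ G⌋₊ with hq₀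
  have hq1 : (q₀ : ℝ) ≤ 2 * Lg ^ G := Nat.floor_le (by positivity)
  have hLp : 1 ≤ Lg ^ G := one_le_pow₀ hL1
  have hq2 : (q₀ : ℝ) + 1 ≤ 3 * Lg ^ G := by linarith
  have hM1 : 1 ≤ Lg ^ (2 * κ) := one_le_pow₀ hL1
  have hM0 : 0 < Lg ^ (2 * κ) := by linarith
  set e : (Fin L × Fin (q₀ + 1) × Fin (q₀ + 1)) ≃ Fin (Fintype.card (Fin L × Fin (q₀ + 1) × Fin (q₀ + 1))) :=
    Fintype.equivFin _ with he
  set θ' : Fin (Fintype.card (Fin L × Fin (q₀ + 1) × Fin (q₀ + 1))) → ℕ → ℝ := fun j n =>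
    if n % ((e.symm j).2.1 : ℕ) = ((e.symm j).2.2 : ℕ) then θ (e.symm j).1 n else 0 with hθ'
  have hcard : ((Fintype.card (Fin L × Fin (q₀ + 1) × Fin (q₀ + 1)) : ℕ) : ℝ) ≤ Real.log N ^ κ' := by
    rw [Fintype.card_prod, Fintype.card_prod, Fintype.card_fin, Fintype.card_fin, ← hLgd]
    push_cast
    rw [← hLgd] at hL
    calc (L : ℝ) * (((q₀ : ℝ) + 1) * ((q₀ : ℝ) + 1)) ≤ Lg ^ κ * ((3 * Lg ^ G) * (3 * Lg ^ G)) := by
          apply mul_le_mul hL _ (by positivity) (by positivity)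
          exact mul_le_mul hq2 hq2 (by positivity) (by positivity)
      _ = 9 * Lg ^ (κ + 2 * G) := by
          rw [pow_add Lg κ, two_mul, pow_add Lg G]
          ring
      _ ≤ Lg * Lg ^ (κ + 2 * G) := mul_le_mul_of_nonneg_right hLg (by positivity)
      _ = Lg ^ κ' := by
          rw [hκ']
          ring
  have hmono : Real.log N ^ κ ≤ Real.log N ^ κ' := by
    rw [← hLgd]
    exact pow_le_pow_right₀ hL1 (by omega)
  have key := h1 N (by omega) X hX P D W hW (fun m hm n hn => (hD m hm n hn).trans hmono) hL1b _ hcard θ' (by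
    intro j n hn
    rw [hθ']
    simp only
    split_ifs
    · exact (hθ _ n hn).trans hmono
    · rw [abs_zero, ← hLgd]
      positivity)
  refine le_trans (Nat.cast_le.mpr (card_le_card ?_)) key
  intro m hm
  rw [mem_filter] at hm ⊢
  refine ⟨hm.1, fun hgood => hm.2 ?_⟩
  intro l
  rw [← hLgd]
  refine ⟨gn_norm (θ l) (D m) X _ hM0 ?_, ?_⟩
  · intro n hn
    rw [abs_mul, two_mul, pow_add]
    have g1 : |θ l n| ≤ Lg ^ κ := by
      rw [hLgd]
      exact hθ l n hn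
    have g2 : |D m n| ≤ Lg ^ κ := by
      rw [hLgd]
      exact hD m hm.1 n hn
    exact mul_le_mul g1 g2 (abs_nonneg _) (by positivity)
  · intro b hb1 hb2 c y
    have hbq : b ≤ q₀ := Nat.le_floor hb2
    rw [cs_gn, Complex.norm_real, Real.norm_eq_abs, abs_div, abs_of_pos hM0]
    have e2 : |∑ n ∈ Icc 1 (min y X), (if n % b = c then θ l n * D m n else 0)| ≤ N / Lg ^ U := by
      by_cases hc : c < b
      · have e3 := hgood (e (l, ⟨b, by omega⟩, ⟨c, by omega⟩)) (min y X) (min_le_right _ _)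
        rw [← hLgd] at e3
        refine le_trans (le_of_eq ?_) e3
        congr 1
        refine sum_congr rfl fun n _ => ?_
        rw [hθ']
        simp only [Equiv.symm_apply_apply]
        split_ifs
        · rfl
        · rw [zero_mul]
      · rw [sum_eq_zero, abs_zero]
        · positivity
        · intro n _
          rw [if_neg]
          intro h5
          have := Nat.mod_lt n hb1
          omega
    exact (div_le_self (abs_nonneg _) hM1).trans e2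

open Classical in
/-- **Almost all classes of almost all moduli.** -/
theorem bdh (κ U : ℕ) : ∃ c U' N0 : ℕ, ∀ N : ℕ, N0 ≤ N → ∀ X : ℕ, (X : ℝ) ≤ Real.log N * N / 2 →
    ∀ {ι : Type} (P : Finset ι) (D : ι → ℕ → ℝ) (W : ℝ), 0 ≤ W →
    (∀ m ∈ P, ∀ n ∈ Icc 1 X, |D m n| ≤ Real.log N ^ κ) →
    (∀ A : ℕ, A ≤ X → ∀ H : ℕ → ℝ, (∀ n, |H n| ≤ 1) →
      ∑ m ∈ P, |∑ n ∈ Icc 1 A, H n * D m n| ≤ N * W / Real.log N ^ U') →
    ∀ L : ℕ, (L : ℝ) ≤ Real.log N ^ κ → ∀ θ : Fin L → ℕ → ℝ,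
    (∀ l, ∀ n ∈ Icc 1 X, |θ l n| ≤ Real.log N ^ κ) →
    ((P.filter (fun m => ¬ ∀ l, ∀ Q : ℕ, Q * Real.log N ^ c ≤ N → ∀ Y : ℕ → ℕ → ℕ, (∀ q b, Y q b ≤ X) →
      ∑ q ∈ Icc 1 Q, ∑ b ∈ range q, |∑ n ∈ Icc 1 (Y q b), if n % q = b then θ l n * D m n else 0| ≤
        Q * N / Real.log N ^ U)).card : ℝ) ≤ W / Real.log N ^ U := by
  set V : ℕ := U + 2 * κ + 1 with hV
  obtain ⟨c, n1, h1⟩ := bdh_log V
  set U₁ : ℕ := 8 * V + 24 + U with hU₁
  obtain ⟨n2, h2⟩ := classes κ U₁ (4 * V + 12)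
  obtain ⟨n3, h3⟩ := ev_L' 16
  refine ⟨c, 3 * U₁ + 5 * (κ + 2 * (4 * V + 12) + 1) + 6, n1 + n2 + n3 + 3,
    fun N hN X hX ι P D W hW hD hL1b L hL θ hθ => ?_⟩
  have hBL := h3 N (by omega)
  have hNr1 : (1 : ℝ) ≤ N := by exact_mod_cast (by omega : 1 ≤ N)
  have hXr : (X : ℝ) ≤ Real.log N * N := by
    have : 0 ≤ Real.log N * N := by positivity
    linarith
  have key := h2 N (by omega) X hXr P D W hW hD hL1b L hL θ hθ
  obtain ⟨Lg, hLgd⟩ : ∃ Lg, Lg = Real.log N := ⟨_, rfl⟩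
  rw [← hLgd] at hBL
  have hL1 : 1 ≤ Lg := by linarith
  have hL0 : 0 < Lg := by linarith
  have hN0 : (0 : ℝ) < N := by linarith
  have hM0 : 0 < Lg ^ (2 * κ) := by positivity
  have hxr : ((X + N : ℕ) : ℝ) ≤ Lg * N := by
    push_cast
    rw [← hLgd] at hX
    nlinarith
  refine le_trans ?_ (key.trans ?_)
  · refine Nat.cast_le.mpr (card_le_card ?_)
    intro m hm
    rw [mem_filter] at hm ⊢
    refine ⟨hm.1, fun hgood => hm.2 ?_⟩
    intro l Q hQ Y hY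
    obtain ⟨hg1, hg2⟩ := hgood l
    rw [← hLgd] at hg1 hg2
    set g := gn (θ l) (D m) X (Lg ^ (2 * κ)) with hg
    have hEq : Eqd g (X + N) ⌈Real.log N ^ (4 * V + 12)⌉₊ (1 / Real.log N ^ (8 * V + 24)) := by
      rw [← hLgd]
      intro b hb1 hbq c' y' hy'
      have hb2 : (b : ℝ) ≤ 2 * Lg ^ (4 * V + 12) := by
        have e1 : 1 ≤ Lg ^ (4 * V + 12) := one_le_pow₀ hL1
        have e2 := (Nat.ceil_lt_add_one (by positivity : (0 : ℝ) ≤ Lg ^ (4 * V + 12))).le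
        have e3 : (b : ℝ) ≤ (⌈Lg ^ (4 * V + 12)⌉₊ : ℝ) := by exact_mod_cast hbq
        linarith
      refine (hg2 b hb1 hb2 c' y').trans ?_
      have a1 : (N : ℝ) / Lg ^ U₁ ≤ N / Lg ^ (8 * V + 24) := by
        apply div_le_div_of_nonneg_left hN0.le (by positivity)
        exact pow_le_pow_right₀ hL1 (by omega)
      have a3 : (N : ℝ) ≤ ((X + N : ℕ) : ℝ) := by exact_mod_cast Nat.le_add_left _ _
      calc (N : ℝ) / Lg ^ U₁ ≤ N / Lg ^ (8 * V + 24) := a1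
        _ = 1 / Lg ^ (8 * V + 24) * N := by ring
        _ ≤ _ := mul_le_mul_of_nonneg_left a3 (by positivity)
    have h5 := h1 N (by omega) (X + N) (Nat.le_add_left _ _) (by rw [← hLgd]; exact hxr) g hg1 hEq Q hQ Y (fun q b => by
      have := hY q b
      omega)
    have h6 : ∀ q b, |∑ n ∈ Icc 1 (Y q b), (if n % q = b then θ l n * D m n else 0)| =
        Lg ^ (2 * κ) * ‖cs g q b (Y q b)‖ := by
      intro q b
      rw [hg, cs_gn, Complex.norm_real, Real.norm_eq_abs, abs_div, abs_of_pos hM0, min_eq_left (hY q b)]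
      field_simp
    rw [sum_congr rfl fun q _ => sum_congr rfl fun b _ => h6 q b]
    simp_rw [← mul_sum]
    calc Lg ^ (2 * κ) * ∑ q ∈ Icc 1 Q, ∑ b ∈ range q, ‖cs g q b (Y q b)‖
        ≤ Lg ^ (2 * κ) * (Q * ((X + N : ℕ) : ℝ) / Real.log N ^ V) := mul_le_mul_of_nonneg_left h5 hM0.le
      _ ≤ Lg ^ (2 * κ) * (Q * (Lg * N) / Real.log N ^ V) := by
          rw [← hLgd]
          gcongr
      _ = Q * N / Real.log N ^ U := by
          have hVe : Lg ^ V = Lg ^ U * Lg ^ (2 * κ) * Lg := by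
            rw [hV, show U + 2 * κ + 1 = U + (2 * κ) + 1 by ring, pow_succ, pow_add]
          rw [← hLgd, hVe]
          field_simp
  · rw [← hLgd]
    apply div_le_div_of_nonneg_left hW (by positivity)
    exact pow_le_pow_right₀ hL1 (by omega)

open Classical in
/-- **Few pairwise coprime bad moduli.** -/
theorem copr (κ U : ℕ) : ∃ c U' N0 : ℕ, ∀ N : ℕ, N0 ≤ N → ∀ X : ℕ, (X : ℝ) ≤ Real.log N * N / 2 →
    ∀ {ι : Type} (P : Finset ι) (D : ι → ℕ → ℝ) (W : ℝ), 0 ≤ W →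
    (∀ m ∈ P, ∀ n ∈ Icc 1 X, |D m n| ≤ Real.log N ^ κ) →
    (∀ A : ℕ, A ≤ X → ∀ H : ℕ → ℝ, (∀ n, |H n| ≤ 1) →
      ∑ m ∈ P, |∑ n ∈ Icc 1 A, H n * D m n| ≤ N * W / Real.log N ^ U') →
    ∀ L : ℕ, (L : ℝ) ≤ Real.log N ^ κ → ∀ θ : Fin L → ℕ → ℝ,
    (∀ l, ∀ n ∈ Icc 1 X, |θ l n| ≤ Real.log N ^ κ) →
    ((P.filter (fun m => ¬ ∀ l, ∀ Q : ℕ, Q * Real.log N ^ c ≤ N → ∀ Mo : Finset ℕ, (∀ q ∈ Mo, 1 ≤ q ∧ q ≤ Q) →
      (∀ q ∈ Mo, ∀ q' ∈ Mo, q ≠ q' → Nat.Coprime q q') →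
      (∀ q ∈ Mo, ∃ Y : ℕ → ℕ, (∀ b, Y b ≤ X) ∧
        N / Real.log N ^ U < ∑ b ∈ range q, |∑ n ∈ Icc 1 (Y b), if n % q = b then θ l n * D m n else 0|) →
      (Mo.card : ℝ) ≤ Real.log N ^ c * (1 + (Q : ℝ) ^ 2 / N))).card : ℝ) ≤ W / Real.log N ^ U := by
  set V : ℕ := U + 2 * κ + 1 with hV
  obtain ⟨c, n1, h1⟩ := copr_log V
  set U₁ : ℕ := c + U with hU₁
  obtain ⟨n2, h2⟩ := classes κ U₁ 0
  obtain ⟨n3, h3⟩ := ev_L' 16
  refine ⟨c, 3 * U₁ + 5 * (κ + 2 * 0 + 1) + 6, n1 + n2 + n3 + 3,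
    fun N hN X hX ι P D W hW hD hL1b L hL θ hθ => ?_⟩
  have hBL := h3 N (by omega)
  have hNr1 : (1 : ℝ) ≤ N := by exact_mod_cast (by omega : 1 ≤ N)
  have hXr : (X : ℝ) ≤ Real.log N * N := by
    have : 0 ≤ Real.log N * N := by positivity
    linarith
  have key := h2 N (by omega) X hXr P D W hW hD hL1b L hL θ hθ
  obtain ⟨Lg, hLgd⟩ : ∃ Lg, Lg = Real.log N := ⟨_, rfl⟩
  rw [← hLgd] at hBL
  have hL1 : 1 ≤ Lg := by linarith
  have hL0 : 0 < Lg := by linarith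
  have hN0 : (0 : ℝ) < N := by linarith
  have hM0 : 0 < Lg ^ (2 * κ) := by positivity
  have hxr : ((X + N : ℕ) : ℝ) ≤ Lg * N := by
    push_cast
    rw [← hLgd] at hX
    nlinarith
  refine le_trans ?_ (key.trans ?_)
  · refine Nat.cast_le.mpr (card_le_card ?_)
    intro m hm
    rw [mem_filter] at hm ⊢
    refine ⟨hm.1, fun hgood => hm.2 ?_⟩
    intro l Q hQ Mo hMo hc hbad
    obtain ⟨hg1, hg2⟩ := hgood l
    rw [← hLgd] at hg1 hg2
    set g := gn (θ l) (D m) X (Lg ^ (2 * κ)) with hg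
    have hxN' : (N : ℝ) ≤ ((X + N : ℕ) : ℝ) := by exact_mod_cast Nat.le_add_left _ _
    refine h1 N (by omega) (X + N) (Nat.le_add_left _ _) (by rw [← hLgd]; exact hxr) g hg1 ?_ Q hQ Mo hMo hc ?_
    · intro y hy
      have e1 : FF g y 0 = cs g 1 0 y := by
        unfold FF cs
        refine sum_congr rfl fun n _ => ?_
        rw [mul_zero, ls_ee_zero, mul_one, if_pos (Nat.mod_one n)]
      rw [e1, ← hLgd]
      refine (hg2 1 le_rfl (by norm_num) 0 y).trans ?_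
      calc (N : ℝ) / Lg ^ U₁ ≤ N / Lg ^ c := by
            apply div_le_div_of_nonneg_left hN0.le (by positivity)
            exact pow_le_pow_right₀ hL1 (by omega)
        _ ≤ _ := div_le_div_of_nonneg_right hxN' (by positivity)
    · intro q hq
      obtain ⟨Y, hY, hb⟩ := hbad q hq
      refine ⟨Y, fun b => (hY b).trans (Nat.le_add_right _ _), ?_⟩
      have h6 : ∀ b, |∑ n ∈ Icc 1 (Y b), (if n % q = b then θ l n * D m n else 0)| =
          Lg ^ (2 * κ) * ‖cs g q b (Y b)‖ := by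
        intro b
        rw [hg, cs_gn, Complex.norm_real, Real.norm_eq_abs, abs_div, abs_of_pos hM0, min_eq_left (hY b)]
        field_simp
      rw [sum_congr rfl fun b _ => h6 b, ← mul_sum, ← hLgd] at hb
      rw [← hLgd]
      have hVe : Lg ^ V = Lg ^ U * Lg ^ (2 * κ) * Lg := by
        rw [hV, show U + 2 * κ + 1 = U + (2 * κ) + 1 by ring, pow_succ, pow_add]
      have h7 : Lg ^ (2 * κ) * (((X + N : ℕ) : ℝ) / Lg ^ V) ≤ N / Lg ^ U := by
        calc Lg ^ (2 * κ) * (((X + N : ℕ) : ℝ) / Lg ^ V) ≤ Lg ^ (2 * κ) * ((Lg * N) / Lg ^ V) := by gcongr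
          _ = N / Lg ^ U := by
              rw [hVe]
              field_simp
      exact lt_of_mul_lt_mul_left (lt_of_le_of_lt h7 hb) hM0.le
  · rw [← hLgd]
    apply div_le_div_of_nonneg_left hW (by positivity)
    exact pow_le_pow_right₀ hL1 (by omega)

end Pool.Agent.Run7.h17.ABS
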