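import Mathlib
import Pool.Agent.Run7.h17.BDHL
import Pool.Agent.H373R2.T7.Tuple4

/-! The asymptotic formula of Montgomery and Hooley for the mean square over the classes of the moduli `q ≤ Q`, for
bounded functions with small sums over the classes of the small moduli. -/

set_option autoImplicit false

namespace Pool.Agent.Run7.h17.BDH

open Finset Pool.Agent.Helper112

/-- the mean square -/
noncomputable def VV (f : ℕ → ℂ) (x Q : ℕ) : ℝ := ∑ q ∈ Icc 1 Q, ∑ c ∈ range q, ‖cs f q c x‖ ^ 2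

/-- the distance -/
def ds (m n : ℕ) : ℕ := (n - m) + (m - n)

lemma mod_iff (q m n : ℕ) : n % q = m % q ↔ q ∣ ds m n := by
  unfold ds
  rcases le_total m n with h | h
  · rw [Nat.sub_eq_zero_of_le h, add_zero]
    constructor
    · intro h1
      exact (Nat.modEq_iff_dvd' h).mp h1.symm
    · intro h1
      exact ((Nat.modEq_iff_dvd' h).mpr h1).symm
  · rw [Nat.sub_eq_zero_of_le h, zero_add]
    constructor
    · intro h1
      exact (Nat.modEq_iff_dvd' h).mp h1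
    · intro h1
      exact (Nat.modEq_iff_dvd' h).mpr h1

/-- the products -/
noncomputable def gg (f : ℕ → ℂ) (m n : ℕ) : ℝ := (f n * (starRingEnd ℂ) (f m)).re

lemma class_sq (f : ℕ → ℂ) (x q : ℕ) (hq : 0 < q) :
    ∑ c ∈ range q, ‖cs f q c x‖ ^ 2 = ∑ m ∈ Icc 1 x, ∑ n ∈ Icc 1 x, if n % q = m % q then gg f m n else 0 := by
  have h1 : ∀ c, ‖cs f q c x‖ ^ 2 = ∑ m ∈ Icc 1 x, ∑ n ∈ Icc 1 x,
      if n % q = c ∧ m % q = c then gg f m n else 0 := by
    intro c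
    have e1 : ‖cs f q c x‖ ^ 2 = (cs f q c x * (starRingEnd ℂ) (cs f q c x)).re := by
      rw [Complex.mul_conj, Complex.ofReal_re, Complex.normSq_eq_norm_sq]
    rw [e1]
    unfold cs
    rw [map_sum, sum_mul_sum, sum_comm, Complex.re_sum]
    refine sum_congr rfl fun m _ => ?_
    rw [Complex.re_sum]
    refine sum_congr rfl fun n _ => ?_
    unfold gg
    by_cases h1 : n % q = c
    · by_cases h2 : m % q = c
      · rw [if_pos h1, if_pos h2, if_pos ⟨h1, h2⟩]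
      · simp [h2]
    · simp [h1]
  rw [sum_congr rfl fun c _ => h1 c, sum_comm]
  refine sum_congr rfl fun m _ => ?_
  rw [sum_comm]
  refine sum_congr rfl fun n _ => ?_
  by_cases h : n % q = m % q
  · rw [if_pos h, sum_eq_single (m % q)]
    · rw [if_pos ⟨h, rfl⟩]
    · intro c _ hc
      rw [if_neg]
      rintro ⟨_, h2⟩
      exact hc h2.symm
    · intro h2
      exact absurd (mem_range.mpr (Nat.mod_lt _ hq)) h2
  · rw [if_neg h]
    refine sum_eq_zero fun c _ => ?_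
    rw [if_neg]
    rintro ⟨h1, h2⟩
    exact h (h1.trans h2.symm)

lemma count_div (x Q d : ℕ) (hd : 1 ≤ d) (hdx : d ≤ x) :
    ((Icc 1 Q).filter (fun q => q ∣ d)).card + ((Icc 1 x).filter (fun l => l ∣ d ∧ Q * l < d)).card =
      d.divisors.card := by
  have h1 : ((Icc 1 Q).filter (fun q => q ∣ d)) = d.divisors.filter (fun q => q ≤ Q) := by
    ext q
    rw [mem_filter, mem_Icc, mem_filter, Nat.mem_divisors]
    constructor
    · rintro ⟨⟨a, b⟩, c⟩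
      exact ⟨⟨c, by omega⟩, b⟩
    · rintro ⟨⟨a, b⟩, c⟩
      exact ⟨⟨Nat.pos_of_dvd_of_pos a hd, c⟩, a⟩
  have h2 : ((Icc 1 x).filter (fun l => l ∣ d ∧ Q * l < d)).card = (d.divisors.filter (fun q => ¬ q ≤ Q)).card := by
    apply card_bij' (fun l _ => d / l) (fun q _ => d / q)
    · intro l hl
      rw [mem_filter, mem_Icc] at hl
      obtain ⟨⟨a, b⟩, ⟨e, rfl⟩, c⟩ := hl
      rw [Nat.mul_div_cancel_left e (by omega), mem_filter, Nat.mem_divisors]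
      refine ⟨⟨Dvd.intro_left _ rfl, by omega⟩, ?_⟩
      intro h3
      have := Nat.mul_le_mul_right l h3
      rw [mul_comm l e] at c
      omega
    · intro q hq
      rw [mem_filter, Nat.mem_divisors] at hq
      obtain ⟨⟨⟨e, rfl⟩, b⟩, c⟩ := hq
      have hq0 : 0 < q := by
        rcases Nat.eq_zero_or_pos q with h | h
        · subst h; simp at b
        · exact h
      have he0 : 0 < e := by
        rcases Nat.eq_zero_or_pos e with h | h
        · subst h; simp at b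
        · exact h
      rw [Nat.mul_div_cancel_left e hq0, mem_filter, mem_Icc]
      refine ⟨⟨he0, (Nat.le_mul_of_pos_left _ hq0).trans hdx⟩, Dvd.intro_left _ rfl, ?_⟩
      push Not at c
      exact Nat.mul_lt_mul_of_pos_right c he0
    · intro l hl
      rw [mem_filter, mem_Icc] at hl
      exact Nat.div_div_self hl.2.1 (by omega)
    · intro q hq
      rw [mem_filter, Nat.mem_divisors] at hq
      exact Nat.div_div_self hq.1.1 hq.1.2
  rw [h1, h2, card_filter_add_card_filter_not]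

/-- the complementary sum -/
noncomputable def WW (f : ℕ → ℂ) (x Q : ℕ) : ℝ :=
  ∑ m ∈ Icc 1 x, ∑ n ∈ Icc 1 x, gg f m n * (((Icc 1 x).filter (fun l => l ∣ ds m n ∧ Q * l < ds m n)).card : ℝ)

/-- the full sum -/
noncomputable def TT (f : ℕ → ℂ) (x : ℕ) : ℝ :=
  ∑ m ∈ Icc 1 x, ∑ n ∈ Icc 1 x, gg f m n * (if m = n then 0 else ((ds m n).divisors.card : ℝ))

lemma gg_self (f : ℕ → ℂ) (m : ℕ) : gg f m m = ‖f m‖ ^ 2 := by
  unfold gg
  rw [Complex.mul_conj, Complex.ofReal_re, Complex.normSq_eq_norm_sq]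

lemma switch (f : ℕ → ℂ) (x Q : ℕ) :
    VV f x Q = Q * ∑ n ∈ Icc 1 x, ‖f n‖ ^ 2 + TT f x - WW f x Q := by
  have h1 : VV f x Q = ∑ m ∈ Icc 1 x, ∑ n ∈ Icc 1 x, gg f m n * (((Icc 1 Q).filter (fun q => q ∣ ds m n)).card : ℝ) := by
    unfold VV
    rw [sum_congr rfl fun q hq => class_sq f x q (by rw [mem_Icc] at hq; omega), sum_comm]
    refine sum_congr rfl fun m _ => ?_
    rw [sum_comm]
    refine sum_congr rfl fun n _ => ?_
    rw [← sum_filter, sum_const, nsmul_eq_mul, mul_comm]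
    congr 3
    ext q
    rw [mem_filter, mem_filter, mod_iff]
  have h2 : (Q : ℝ) * ∑ n ∈ Icc 1 x, ‖f n‖ ^ 2 = ∑ m ∈ Icc 1 x, ∑ n ∈ Icc 1 x, if m = n then Q * gg f m n else 0 := by
    rw [mul_sum]
    refine sum_congr rfl fun m hm => ?_
    rw [sum_ite_eq, if_pos hm, gg_self]
  rw [h1, h2]
  unfold TT WW
  rw [← sum_add_distrib, ← sum_sub_distrib]
  refine sum_congr rfl fun m hm => ?_
  rw [← sum_add_distrib, ← sum_sub_distrib]
  refine sum_congr rfl fun n hn => ?_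
  rw [mem_Icc] at hm hn
  by_cases h : m = n
  · subst h
    have e1 : ds m m = 0 := by unfold ds; omega
    rw [if_pos rfl, if_pos rfl, e1]
    have e2 : ((Icc 1 Q).filter (fun q => q ∣ 0)).card = Q := by
      rw [filter_true_of_mem (fun q _ => dvd_zero q), Nat.card_Icc, Nat.add_sub_cancel]
    have e3 : ((Icc 1 x).filter (fun l => l ∣ 0 ∧ Q * l < 0)).card = 0 := by
      rw [card_eq_zero, filter_eq_empty_iff]
      intro l _ h
      exact absurd h.2 (Nat.not_lt_zero _)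
    rw [e2, e3]
    push_cast
    ring
  · rw [if_neg h, if_neg h]
    have hd : 1 ≤ ds m n := by unfold ds; omega
    have hdx : ds m n ≤ x := by unfold ds; omega
    have e1 := count_div x Q (ds m n) hd hdx
    have e2 : ((((Icc 1 Q).filter (fun q => q ∣ ds m n)).card : ℕ) : ℝ) =
        ((ds m n).divisors.card : ℝ) - (((Icc 1 x).filter (fun l => l ∣ ds m n ∧ Q * l < ds m n)).card : ℝ) := by
      rw [← e1]
      push_cast
      ring
    rw [e2]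
    ring

lemma WW_le (f : ℕ → ℂ) (hf : ∀ n, ‖f n‖ ≤ 1) (x Q q₀ : ℕ) (κ : ℝ) (hκ : 0 ≤ κ) (h : Eqd f x q₀ κ)
    (hQ : x ≤ Q * q₀) : |WW f x Q| ≤ 3 * q₀ * κ * x ^ 2 := by
  have h1 : WW f x Q = ∑ l ∈ Icc 1 q₀, ∑ m ∈ Icc 1 x, ∑ n ∈ Icc 1 x,
      if n % l = m % l ∧ Q * l < ds m n then gg f m n else 0 := by
    unfold WW
    rw [sum_comm]
    have e1 : ∀ n ∈ Icc 1 x, ∀ m ∈ Icc 1 x, gg f m n * (((Icc 1 x).filter (fun l => l ∣ ds m n ∧ Q * l < ds m n)).card : ℝ) =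
        ∑ l ∈ Icc 1 q₀, if n % l = m % l ∧ Q * l < ds m n then gg f m n else 0 := by
      intro n hn m hm
      rw [mem_Icc] at hn hm
      rw [← sum_filter, sum_const, nsmul_eq_mul, mul_comm]
      congr 3
      ext l
      rw [mem_filter, mem_filter, mem_Icc, mem_Icc, mod_iff]
      have hdx : ds m n < x := by unfold ds; omega
      constructor
      · rintro ⟨⟨a, b⟩, c, d⟩
        refine ⟨⟨a, ?_⟩, c, d⟩
        by_contra hcon
        push Not at hcon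
        have := Nat.mul_le_mul_left Q hcon.le
        omega
      · rintro ⟨⟨a, b⟩, c, d⟩
        refine ⟨⟨a, ?_⟩, c, d⟩
        have h3 : 0 < ds m n := by omega
        exact (Nat.le_of_dvd h3 c).trans hdx.le
    rw [sum_congr rfl fun n hn => sum_congr rfl fun m hm => e1 n hn m hm]
    rw [sum_congr rfl fun n _ => sum_comm, sum_comm]
    refine sum_congr rfl fun l _ => sum_comm
  rw [h1]
  -- the inner sums
  have h2 : ∀ l ∈ Icc 1 q₀, ∀ m ∈ Icc 1 x, |∑ n ∈ Icc 1 x, if n % l = m % l ∧ Q * l < ds m n then gg f m n else 0| ≤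
      3 * (κ * x) := by
    intro l hl m hm
    rw [mem_Icc] at hl hm
    have e1 : ∑ n ∈ Icc 1 x, (if n % l = m % l ∧ Q * l < ds m n then gg f m n else 0) =
        ((∑ n ∈ Icc 1 x, if n % l = m % l ∧ Q * l < ds m n then f n else 0) * (starRingEnd ℂ) (f m)).re := by
      rw [sum_mul, Complex.re_sum]
      refine sum_congr rfl fun n _ => ?_
      unfold gg
      split_ifs
      · rfl
      · simp
    have e2 : ∑ n ∈ Icc 1 x, (if n % l = m % l ∧ Q * l < ds m n then f n else 0) =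
        (cs f l (m % l) x - cs f l (m % l) (min x (m + Q * l))) + cs f l (m % l) (m - 1 - Q * l) := by
      have e3 : ∀ y ≤ x, cs f l (m % l) y = ∑ n ∈ Icc 1 x, if n % l = m % l ∧ n ≤ y then f n else 0 := by
        intro y hy
        unfold cs
        have e4 : Icc 1 y = (Icc 1 x).filter (fun n => n ≤ y) := by
          ext n
          rw [mem_filter, mem_Icc, mem_Icc]
          omega
        rw [e4, sum_filter]
        refine sum_congr rfl fun n _ => ?_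
        by_cases a : n ≤ y
        · by_cases b : n % l = m % l
          · rw [if_pos a, if_pos b, if_pos ⟨b, a⟩]
          · rw [if_pos a, if_neg b, if_neg (fun h => b h.1)]
        · rw [if_neg a, if_neg (fun h => a h.2)]
      rw [e3 x le_rfl, e3 (min x (m + Q * l)) (min_le_left _ _), e3 (m - 1 - Q * l) (by omega), ← sum_sub_distrib,
        ← sum_add_distrib]
      refine sum_congr rfl fun n hn => ?_
      rw [mem_Icc] at hn
      by_cases b : n % l = m % l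
      · by_cases a1 : Q * l < ds m n
        · rw [if_pos ⟨b, a1⟩, if_pos ⟨b, hn.2⟩]
          unfold ds at a1
          by_cases a2 : m ≤ n
          · rw [if_neg (by rw [le_min_iff]; omega), if_neg (by omega)]
            ring
          · rw [if_pos ⟨b, by rw [le_min_iff]; omega⟩, if_pos ⟨b, by omega⟩]
            ring
        · rw [if_neg (fun h => a1 h.2), if_pos ⟨b, hn.2⟩]
          unfold ds at a1
          rw [if_pos ⟨b, by rw [le_min_iff]; omega⟩, if_neg (by omega)]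
          ring
      · rw [if_neg (fun h => b h.1), if_neg (fun h => b h.1), if_neg (fun h => b h.1), if_neg (fun h => b h.1)]
        ring
    have hb : ∀ y ≤ x, ‖cs f l (m % l) y‖ ≤ κ * x := fun y hy => h l hl.1 hl.2 (m % l) y hy
    rw [e1, e2]
    refine (Complex.abs_re_le_norm _).trans ?_
    rw [norm_mul, RCLike.norm_conj]
    have e5 : ‖(cs f l (m % l) x - cs f l (m % l) (min x (m + Q * l))) + cs f l (m % l) (m - 1 - Q * l)‖ ≤ 3 * (κ * x) := by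
      refine (norm_add_le _ _).trans ?_
      have a1 := norm_sub_le (cs f l (m % l) x) (cs f l (m % l) (min x (m + Q * l)))
      have a2 := hb x le_rfl
      have a3 := hb (min x (m + Q * l)) (min_le_left _ _)
      have a4 := hb (m - 1 - Q * l) (by omega)
      linarith
    calc _ ≤ 3 * (κ * x) * 1 := mul_le_mul e5 (hf m) (norm_nonneg _) (by positivity)
      _ = _ := mul_one _
  refine (abs_sum_le_sum_abs _ _).trans ?_
  calc ∑ l ∈ Icc 1 q₀, |∑ m ∈ Icc 1 x, ∑ n ∈ Icc 1 x, if n % l = m % l ∧ Q * l < ds m n then gg f m n else 0|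
      ≤ ∑ l ∈ Icc 1 q₀, ∑ m ∈ Icc 1 x, 3 * (κ * x) := by
        refine sum_le_sum fun l hl => (abs_sum_le_sum_abs _ _).trans (sum_le_sum fun m hm => h2 l hl m hm)
    _ = 3 * q₀ * κ * x ^ 2 := by
        rw [sum_const, sum_const, Nat.card_Icc, Nat.card_Icc, Nat.add_sub_cancel, Nat.add_sub_cancel, nsmul_eq_mul, nsmul_eq_mul]
        ring

/-- the mean square without the factor `q` -/
lemma VV_le (f : ℕ → ℂ) (hf : ∀ n, ‖f n‖ ≤ 1) (x q₀ Q J : ℕ) (κ : ℝ) (hκ : 0 ≤ κ) (hq₀ : 0 < q₀)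
    (hJ : Q < 2 ^ (J + 1)) (h : Eqd f x q₀ κ) :
    VV f x Q ≤ (J + 1) * (2 * x ^ 2 * (q₀ ^ 3 * κ ^ 2) + 24 * x ^ 2 / q₀) + 96 * (J + 2) * 2 ^ J * x := by
  have hnn : ∀ q, 0 ≤ ∑ c ∈ range q, ‖cs f q c x‖ ^ 2 := fun q => sum_nonneg fun _ _ => sq_nonneg _
  have h1 : ∀ q ∈ Icc 1 Q, ∑ c ∈ range q, ‖cs f q c x‖ ^ 2 ≤
      ∑ j ∈ range (J + 1), if q ≤ 2 ^ (j + 1) then (1 / (2 : ℝ) ^ j) * (q * ∑ c ∈ range q, ‖cs f q c x‖ ^ 2) else 0 := by
    intro q hq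
    rw [mem_Icc] at hq
    have hj : Nat.log 2 q ≤ J := by
      have := Nat.log_lt_of_lt_pow (b := 2) (by omega : q ≠ 0) (lt_of_le_of_lt hq.2 hJ)
      omega
    have h2 : ∀ j ∈ range (J + 1), 0 ≤ if q ≤ 2 ^ (j + 1) then (1 / (2 : ℝ) ^ j) * (q * ∑ c ∈ range q, ‖cs f q c x‖ ^ 2) else 0 := by
      intro j _
      have := hnn q
      split_ifs <;> positivity
    have h3 := single_le_sum h2 (mem_range.mpr (Nat.lt_succ_of_le hj))
    rw [if_pos (Nat.lt_pow_succ_log_self (by norm_num) q).le] at h3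
    refine le_trans ?_ h3
    have h4 : (2 : ℝ) ^ Nat.log 2 q ≤ q := by exact_mod_cast Nat.pow_log_le_self 2 (by omega)
    have h5 : (0 : ℝ) < 2 ^ Nat.log 2 q := by positivity
    calc ∑ c ∈ range q, ‖cs f q c x‖ ^ 2 = (1 / (2 : ℝ) ^ Nat.log 2 q) * (2 ^ Nat.log 2 q * ∑ c ∈ range q, ‖cs f q c x‖ ^ 2) := by
          field_simp
      _ ≤ _ := by
          apply mul_le_mul_of_nonneg_left _ (by positivity)
          exact mul_le_mul_of_nonneg_right h4 (hnn q)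
  unfold VV
  refine (sum_le_sum h1).trans ?_
  rw [sum_comm]
  have h6 : ∀ j ∈ range (J + 1), ∑ q ∈ Icc 1 Q, (if q ≤ 2 ^ (j + 1) then
      (1 / (2 : ℝ) ^ j) * (q * ∑ c ∈ range q, ‖cs f q c x‖ ^ 2) else 0) ≤
      (2 * x ^ 2 * (q₀ ^ 3 * κ ^ 2) + 24 * x ^ 2 / q₀) + 48 * (J + 2) * x * 2 ^ j := by
    intro j hj
    rw [mem_range] at hj
    have e1 : ∑ q ∈ Icc 1 Q, (if q ≤ 2 ^ (j + 1) then (1 / (2 : ℝ) ^ j) * (q * ∑ c ∈ range q, ‖cs f q c x‖ ^ 2) else 0) ≤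
        (1 / (2 : ℝ) ^ j) * ∑ q ∈ (Icc 1 (2 ^ (j + 1)) : Finset ℕ), (q : ℝ) * ∑ c ∈ range q, ‖cs f q c x‖ ^ 2 := by
      rw [← sum_filter, mul_sum]
      refine sum_le_sum_of_subset_of_nonneg ?_ fun q _ _ => ?_
      · intro q hq
        rw [mem_filter, mem_Icc] at hq
        rw [mem_Icc]
        exact ⟨hq.1.1, hq.2⟩
      · have := hnn q
        positivity
    have e2 := secondL f hf x q₀ (2 ^ (j + 1)) J κ hκ hq₀ (by
      calc 2 ^ (j + 1) ≤ 2 ^ (J + 1) := Nat.pow_le_pow_right (by norm_num) (by omega)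
        _ ≤ 2 ^ (J + 1) * q₀ := Nat.le_mul_of_pos_right _ hq₀) h
    refine (e1.trans (mul_le_mul_of_nonneg_left e2 (by positivity))).trans ?_
    have hq0r : (0 : ℝ) < q₀ := by exact_mod_cast hq₀
    have h2j : (0 : ℝ) < 2 ^ j := by positivity
    have e3 : (1 / (2 : ℝ) ^ j) * (((2 ^ (j + 1) : ℕ) : ℝ) * x ^ 2 * (q₀ ^ 3 * κ ^ 2) + (12 * ((2 ^ (j + 1) : ℕ) : ℝ) * x ^ 2 / q₀ +
        12 * (J + 1) * ((2 ^ (j + 1) : ℕ) : ℝ) ^ 2 * x)) =
        (2 * x ^ 2 * (q₀ ^ 3 * κ ^ 2) + 24 * x ^ 2 / q₀) + 48 * (J + 1) * x * 2 ^ j := by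
      push_cast
      rw [pow_succ]
      field_simp
      ring
    rw [e3]
    have e4 : (0 : ℝ) ≤ x * 2 ^ j := by positivity
    nlinarith
  refine (sum_le_sum h6).trans ?_
  rw [sum_add_distrib, sum_const, card_range, nsmul_eq_mul, ← mul_sum]
  have h7 : ∑ j ∈ range (J + 1), (2 : ℝ) ^ j ≤ 2 * 2 ^ J := by
    have e1 := geom_sum_eq (by norm_num : (2 : ℝ) ≠ 1) (J + 1)
    rw [e1, pow_succ]
    norm_num
    linarith
  have h8 : 48 * ((J : ℝ) + 2) * x * ∑ j ∈ range (J + 1), (2 : ℝ) ^ j ≤ 48 * ((J : ℝ) + 2) * x * (2 * 2 ^ J) :=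
    mul_le_mul_of_nonneg_left h7 (by positivity)
  push_cast
  calc _ ≤ ((J : ℝ) + 1) * (2 * x ^ 2 * (q₀ ^ 3 * κ ^ 2) + 24 * x ^ 2 / q₀) + 48 * ((J : ℝ) + 2) * x * (2 * 2 ^ J) := by linarith
    _ = _ := by ring

/-- **The asymptotic formula, all parameters explicit.** -/
lemma var_P (f : ℕ → ℂ) (hf : ∀ n, ‖f n‖ ≤ 1) (x q₀ Q₀ J : ℕ) (κ : ℝ) (hκ : 0 ≤ κ) (hq₀ : 0 < q₀)
    (hQ₀ : x ≤ Q₀ * q₀) (hJ : Q₀ < 2 ^ (J + 1)) (h : Eqd f x q₀ κ) (Q : ℕ) :
    |VV f x Q - Q * ∑ n ∈ Icc 1 x, ‖f n‖ ^ 2| ≤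
      (J + 1) * (2 * x ^ 2 * (q₀ ^ 3 * κ ^ 2) + 24 * x ^ 2 / q₀) + 96 * (J + 2) * 2 ^ J * x + Q₀ * x +
        6 * q₀ * κ * x ^ 2 := by
  have hV := VV_le f hf x q₀ Q₀ J κ hκ hq₀ hJ h
  have hS0 : 0 ≤ ∑ n ∈ Icc 1 x, ‖f n‖ ^ 2 := sum_nonneg fun _ _ => sq_nonneg _
  have hS1 : ∑ n ∈ Icc 1 x, ‖f n‖ ^ 2 ≤ x := by
    calc ∑ n ∈ Icc 1 x, ‖f n‖ ^ 2 ≤ ∑ n ∈ Icc 1 x, (1 : ℝ) :=
          sum_le_sum fun n _ => pow_le_one₀ (norm_nonneg _) (hf n)
      _ = x := by simp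
  have hVn : ∀ Q, 0 ≤ VV f x Q := fun Q => sum_nonneg fun _ _ => sum_nonneg fun _ _ => sq_nonneg _
  have hκx : 0 ≤ 6 * q₀ * κ * (x : ℝ) ^ 2 := by positivity
  rcases le_total Q₀ Q with hQ | hQ
  · have e1 := switch f x Q
    have e2 := switch f x Q₀
    have e3 := WW_le f hf x Q q₀ κ hκ h (hQ₀.trans (Nat.mul_le_mul_right _ hQ))
    have e4 := WW_le f hf x Q₀ q₀ κ hκ h hQ₀
    have e5 : VV f x Q - Q * ∑ n ∈ Icc 1 x, ‖f n‖ ^ 2 =
        VV f x Q₀ - Q₀ * ∑ n ∈ Icc 1 x, ‖f n‖ ^ 2 + WW f x Q₀ - WW f x Q := by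
      rw [e1, e2]
      ring
    have e6 : (Q₀ : ℝ) * ∑ n ∈ Icc 1 x, ‖f n‖ ^ 2 ≤ Q₀ * x := mul_le_mul_of_nonneg_left hS1 (Nat.cast_nonneg _)
    have e7 : 0 ≤ (Q₀ : ℝ) * ∑ n ∈ Icc 1 x, ‖f n‖ ^ 2 := by positivity
    have e8 := hVn Q₀
    rw [e5]
    rw [abs_le] at e3 e4 ⊢
    constructor <;> linarith
  · have e1 : VV f x Q ≤ VV f x Q₀ := by
      unfold VV
      refine sum_le_sum_of_subset_of_nonneg (Icc_subset_Icc_right hQ) fun _ _ _ => sum_nonneg fun _ _ => sq_nonneg _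
    have e6 : (Q : ℝ) * ∑ n ∈ Icc 1 x, ‖f n‖ ^ 2 ≤ Q₀ * x := by
      apply mul_le_mul _ hS1 hS0 (Nat.cast_nonneg _)
      exact_mod_cast hQ
    have e7 : 0 ≤ (Q : ℝ) * ∑ n ∈ Icc 1 x, ‖f n‖ ^ 2 := by positivity
    have e8 := hVn Q
    have e9 := hVn Q₀
    rw [abs_le]
    constructor <;> linarith

/-- **The asymptotic formula with powers of logarithms.** -/
theorem var_log (V : ℕ) : ∃ N₀ : ℕ, ∀ N : ℕ, N₀ ≤ N → ∀ x : ℕ, N ≤ x → (x : ℝ) ≤ Real.log N * N →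
    ∀ f : ℕ → ℂ, (∀ n, ‖f n‖ ≤ 1) →
    Eqd f x ⌈Real.log N ^ (V + 3)⌉₊ (2 / Real.log N ^ (2 * V + 7)) →
    ∀ Q : ℕ, |VV f x Q - Q * ∑ n ∈ Icc 1 x, ‖f n‖ ^ 2| ≤ (x : ℝ) ^ 2 / Real.log N ^ V := by
  obtain ⟨m₁, h1⟩ := Filter.eventually_atTop.mp
    ((Real.tendsto_log_atTop.comp (tendsto_natCast_atTop_atTop (R := ℝ))).eventually_ge_atTop 2500)
  obtain ⟨m₂, h2⟩ := Pool.Agent.H373R2.T7.ev_log' (V + 3) 769
  refine ⟨m₁ + m₂ + 3, fun N hN x hNx hxN f hf hE Q => ?_⟩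
  have hL64 : (2500 : ℝ) ≤ Real.log N := h1 N (by omega)
  have hsN := h2 N (by omega)
  set L : ℝ := Real.log N with hL
  have hL0 : 0 < L := by linarith
  have hL1 : 1 ≤ L := by linarith
  have hN0 : (0 : ℝ) < N := by exact_mod_cast (by omega : 0 < N)
  have hx0n : 0 < x := by omega
  have hx0 : (0 : ℝ) < x := by exact_mod_cast hx0n
  have hx1 : (1 : ℝ) ≤ x := by exact_mod_cast hx0n
  have hNxr : (N : ℝ) ≤ x := by exact_mod_cast hNx
  set q₀ : ℕ := ⌈L ^ (V + 3)⌉₊ with hq₀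
  have hq1 : L ^ (V + 3) ≤ q₀ := Nat.le_ceil _
  have hLp : 1 ≤ L ^ (V + 3) := one_le_pow₀ hL1
  have hq2 : (q₀ : ℝ) ≤ 2 * L ^ (V + 3) := by
    have := (Nat.ceil_lt_add_one (by positivity : (0 : ℝ) ≤ L ^ (V + 3))).le
    linarith
  have hq0r : (0 : ℝ) < q₀ := by linarith
  have hq0 : 0 < q₀ := by exact_mod_cast hq0r
  -- the crossing point
  set Q₀ : ℕ := x / q₀ + 1 with hQ₀
  have hQ1 : x ≤ Q₀ * q₀ := by
    have := Nat.lt_div_mul_add (a := x) hq0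
    rw [hQ₀, add_mul, one_mul]
    omega
  have hQ2 : (Q₀ : ℝ) ≤ x / L ^ (V + 3) + 1 := by
    rw [hQ₀]
    push_cast
    have e1 : ((x / q₀ : ℕ) : ℝ) ≤ (x : ℝ) / q₀ := Nat.cast_div_le
    have e2 : (x : ℝ) / q₀ ≤ x / L ^ (V + 3) := div_le_div_of_nonneg_left hx0.le (by positivity) hq1
    linarith
  set J : ℕ := Nat.log 2 Q₀ with hJ
  have hJQ : Q₀ < 2 ^ (J + 1) := Nat.lt_pow_succ_log_self (by norm_num) Q₀
  have hJ2 : (2 : ℝ) ^ J ≤ Q₀ := by exact_mod_cast Nat.pow_log_le_self 2 (Nat.succ_ne_zero _)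
  have hQx : (Q₀ : ℝ) ≤ 2 * x := by
    have : (x : ℝ) / L ^ (V + 3) ≤ x := div_le_self hx0.le hLp
    linarith
  have hJL : (J : ℝ) + 2 ≤ 8 * L := by
    have e2 : (J : ℝ) * Real.log 2 ≤ Real.log (2 * x) := by
      have := Real.log_le_log (by positivity) (hJ2.trans hQx)
      rwa [Real.log_pow] at this
    have e3 : Real.log (2 * x) ≤ Real.log 2 + (Real.log L + L) := by
      rw [Real.log_mul (by norm_num) hx0.ne']
      have : Real.log x ≤ Real.log (L * N) := Real.log_le_log hx0 hxN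
      rw [Real.log_mul hL0.ne' hN0.ne'] at this
      linarith
    have e4 : (1 / 2 : ℝ) ≤ Real.log 2 := by
      have := Real.log_two_gt_d9
      linarith
    have e4' : Real.log 2 ≤ 1 := by
      have := Real.log_two_lt_d9
      linarith
    have e5 : (J : ℝ) * (1 / 2) ≤ J * Real.log 2 := mul_le_mul_of_nonneg_left e4 (Nat.cast_nonneg _)
    have e6 : Real.log L ≤ L := (Real.log_le_sub_one_of_pos hL0).trans (by linarith)
    linarith
  have key := var_P f hf x q₀ Q₀ J (2 / L ^ (2 * V + 7)) (by positivity) hq0 hQ1 hJQ hE Q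
  refine key.trans ?_
  have hLV : L ^ (V + 3) = L ^ V * L ^ 3 := pow_add _ _ _
  have hLV7 : L ^ (2 * V + 7) = L ^ V * L ^ V * L ^ 7 := by
    rw [show 2 * V + 7 = V + V + 7 by ring, pow_add, pow_add]
  have hLVp : 0 < L ^ V := by positivity
  have hLV1 : 1 ≤ L ^ V := one_le_pow₀ hL1
  -- the terms
  have t1 : 2 * (x : ℝ) ^ 2 * ((q₀ : ℝ) ^ 3 * (2 / L ^ (2 * V + 7)) ^ 2) ≤ 64 * (x ^ 2 / (L ^ V * L ^ 3)) := by
    calc 2 * (x : ℝ) ^ 2 * ((q₀ : ℝ) ^ 3 * (2 / L ^ (2 * V + 7)) ^ 2)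
        ≤ 2 * (x : ℝ) ^ 2 * ((2 * L ^ (V + 3)) ^ 3 * (2 / L ^ (2 * V + 7)) ^ 2) := by gcongr
      _ = 64 * (x ^ 2 / (L ^ V * L ^ 3)) / L ^ 2 := by
          rw [hLV, hLV7]
          field_simp
          ring
      _ ≤ 64 * (x ^ 2 / (L ^ V * L ^ 3)) := div_le_self (by positivity) (one_le_pow₀ hL1)
  have t2 : 24 * (x : ℝ) ^ 2 / q₀ ≤ 24 * (x ^ 2 / (L ^ V * L ^ 3)) := by
    rw [← hLV, mul_div_assoc]
    apply mul_le_mul_of_nonneg_left _ (by norm_num)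
    exact div_le_div_of_nonneg_left (by positivity) (by positivity) hq1
  have t3 : ((J : ℝ) + 1) * (2 * x ^ 2 * (q₀ ^ 3 * (2 / L ^ (2 * V + 7)) ^ 2) + 24 * x ^ 2 / q₀) ≤
      704 * (x ^ 2 / (L ^ V * L ^ 2)) := by
    calc ((J : ℝ) + 1) * (2 * x ^ 2 * (q₀ ^ 3 * (2 / L ^ (2 * V + 7)) ^ 2) + 24 * x ^ 2 / q₀)
        ≤ (8 * L) * (64 * (x ^ 2 / (L ^ V * L ^ 3)) + 24 * (x ^ 2 / (L ^ V * L ^ 3))) := by
          apply mul_le_mul (by linarith) (by linarith) (by positivity) (by positivity)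
      _ = _ := by
          field_simp
          ring
  -- Q₀ ≤ 2 x / L^(V+3)... using x ≥ N
  have hNL : L ^ (V + 3) ≤ x ∨ x < L ^ (V + 3) := le_or_gt _ _
  have hQ3 : (Q₀ : ℝ) * x ≤ x ^ 2 / (L ^ V * L ^ 3) + x := by
    rw [← hLV]
    calc (Q₀ : ℝ) * x ≤ (x / L ^ (V + 3) + 1) * x := mul_le_mul_of_nonneg_right hQ2 hx0.le
      _ = _ := by ring
  have t5 : 96 * ((J : ℝ) + 2) * 2 ^ J * x ≤ 768 * (x ^ 2 / (L ^ V * L ^ 2)) + 768 * L * x := by
    calc 96 * ((J : ℝ) + 2) * 2 ^ J * x ≤ 96 * (8 * L) * Q₀ * x := by gcongr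
      _ = 768 * L * (Q₀ * x) := by ring
      _ ≤ 768 * L * (x ^ 2 / (L ^ V * L ^ 3) + x) := mul_le_mul_of_nonneg_left hQ3 (by positivity)
      _ = _ := by
          field_simp
  have t6 : 6 * (q₀ : ℝ) * (2 / L ^ (2 * V + 7)) * x ^ 2 ≤ 24 * (x ^ 2 / (L ^ V * L ^ 2)) := by
    calc 6 * (q₀ : ℝ) * (2 / L ^ (2 * V + 7)) * x ^ 2 ≤ 6 * (2 * L ^ (V + 3)) * (2 / L ^ (2 * V + 7)) * x ^ 2 := by gcongr
      _ = 24 * (x ^ 2 / (L ^ V * L ^ 2)) / L ^ 2 := by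
          rw [hLV, hLV7]
          field_simp
          ring
      _ ≤ _ := div_le_self (by positivity) (one_le_pow₀ hL1)
  have t7 : 769 * L * x ≤ x ^ 2 / (L ^ V * L ^ 2) := by
    have e1 : √(N : ℝ) ≤ N := by
      rw [Real.sqrt_le_left (by positivity)]
      have : (1 : ℝ) ≤ N := by exact_mod_cast (by omega : 1 ≤ N)
      nlinarith
    have e2 : 769 * L ^ (V + 3) ≤ x := by linarith
    rw [le_div_iff₀ (by positivity)]
    calc 769 * L * x * (L ^ V * L ^ 2) = (769 * L ^ (V + 3)) * x := by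
          rw [hLV]
          ring
      _ ≤ x * x := mul_le_mul_of_nonneg_right e2 hx0.le
      _ = _ := by ring
  have t8 : x ^ 2 / (L ^ V * L ^ 3) ≤ x ^ 2 / (L ^ V * L ^ 2) := by
    apply div_le_div_of_nonneg_left (by positivity) (by positivity)
    apply mul_le_mul_of_nonneg_left _ hLVp.le
    exact pow_le_pow_right₀ hL1 (by norm_num)
  have t9 : x ≤ L * x := by nlinarith
  have t10 : 1498 * (x ^ 2 / (L ^ V * L ^ 2)) ≤ x ^ 2 / L ^ V := by
    rw [mul_div_assoc', div_le_div_iff₀ (by positivity) (by positivity)]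
    have e1 : (1498 : ℝ) ≤ L ^ 2 := by nlinarith
    have e2 : (0 : ℝ) ≤ x ^ 2 * L ^ V := by positivity
    nlinarith
  have t0 : 0 ≤ x ^ 2 / (L ^ V * L ^ 2) := by positivity
  linarith

end Pool.Agent.Run7.h17.BDH
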