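import Mathlib
import Pool.Agent.Run7.h17.ABS
import Pool.Agent.Run7.h17.Var

/-! From estimates with arbitrary weights on average over a parameter to the asymptotic formula for the mean square
over the classes of the moduli `q ≤ Q`. -/

set_option autoImplicit false
set_option maxHeartbeats 4000000

namespace Pool.Agent.Run7.h17.ABS

open Finset
open Pool.Agent.H373R2.T7 (ev_L' ev_log')
open Pool.Agent.Run7.h17.BDH (cs Eqd VV blk blk_norm cs_blk Eqd_blk var_log)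

open Classical in
/-- **The asymptotic formula for the mean square.** -/
theorem var (κ U : ℕ) : ∃ U' N0 : ℕ, ∀ N : ℕ, N0 ≤ N → ∀ X : ℕ, (X : ℝ) ≤ Real.log N * N / 2 →
    ∀ {ι : Type} (P : Finset ι) (D : ι → ℕ → ℝ) (W : ℝ), 0 ≤ W →
    (∀ m ∈ P, ∀ n ∈ Icc 1 X, |D m n| ≤ Real.log N ^ κ) →
    (∀ A : ℕ, A ≤ X → ∀ H : ℕ → ℝ, (∀ n, |H n| ≤ 1) →
      ∑ m ∈ P, |∑ n ∈ Icc 1 A, H n * D m n| ≤ N * W / Real.log N ^ U') →
    ∀ L : ℕ, (L : ℝ) ≤ Real.log N ^ κ → ∀ θ : Fin L → ℕ → ℝ,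
    (∀ l, ∀ n ∈ Icc 1 X, |θ l n| ≤ Real.log N ^ κ) →
    ((P.filter (fun m => ¬ ∀ l, ∀ A : ℕ, A ≤ X → ∀ Q : ℕ,
      |∑ q ∈ Icc 1 Q, ∑ b ∈ range q, (∑ n ∈ Icc 1 A, if n % q = b then θ l n * D m n else 0) ^ 2 -
        Q * ∑ n ∈ Icc 1 A, (θ l n * D m n) ^ 2| ≤ (N : ℝ) ^ 2 / Real.log N ^ U)).card : ℝ) ≤
      W / Real.log N ^ U := by
  set V : ℕ := U + 4 * κ + 2 with hV
  obtain ⟨n1, h1⟩ := var_log V
  set U₁ : ℕ := 2 * V + 7 + U with hU₁
  obtain ⟨n2, h2⟩ := classes κ U₁ (V + 3)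
  obtain ⟨n3, h3⟩ := ev_L' 16
  refine ⟨3 * U₁ + 5 * (κ + 2 * (V + 3) + 1) + 6, n1 + n2 + n3 + 3,
    fun N hN X hX ι P D W hW hD hL1b L hL θ hθ => ?_⟩
  have hBL := h3 N (by omega)
  have hNr1 : (1 : ℝ) ≤ N := by exact_mod_cast (by omega : 1 ≤ N)
  have hXr : (X : ℝ) ≤ Real.log N * N := by
    have : 0 ≤ Real.log N * N := by positivity
    linarith
  have key := h2 N (by omega) X hXr P D W hW hD hL1b L hL θ hθ
  obtain ⟨Lg, hLgd⟩ : ∃ Lg, Lg = Real.log N := ⟨_, rfl⟩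
  rw [← hLgd] at hBL
  have hL1 : 1 ≤ Lg := by linarith
  have hL0 : 0 < Lg := by linarith
  have hN0 : (0 : ℝ) < N := by linarith
  have hM0 : 0 < Lg ^ (2 * κ) := by positivity
  have hxr : ((X + N : ℕ) : ℝ) ≤ Lg * N := by
    push_cast
    rw [← hLgd] at hX
    nlinarith
  refine le_trans ?_ (key.trans ?_)
  · refine Nat.cast_le.mpr (card_le_card ?_)
    intro m hm
    rw [mem_filter] at hm ⊢
    refine ⟨hm.1, fun hgood => hm.2 ?_⟩
    intro l A hA Q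
    obtain ⟨hg1, hg2⟩ := hgood l
    rw [← hLgd] at hg1 hg2
    set g := gn (θ l) (D m) X (Lg ^ (2 * κ)) with hg
    have hEq : Eqd g (X + N) ⌈Real.log N ^ (V + 3)⌉₊ (1 / Real.log N ^ (2 * V + 7)) := by
      rw [← hLgd]
      intro b hb1 hbq c' y' hy'
      have hb2 : (b : ℝ) ≤ 2 * Lg ^ (V + 3) := by
        have e1 : 1 ≤ Lg ^ (V + 3) := one_le_pow₀ hL1
        have e2 := (Nat.ceil_lt_add_one (by positivity : (0 : ℝ) ≤ Lg ^ (V + 3))).le
        have e3 : (b : ℝ) ≤ (⌈Lg ^ (V + 3)⌉₊ : ℝ) := by exact_mod_cast hbq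
        linarith
      refine (hg2 b hb1 hb2 c' y').trans ?_
      have a1 : (N : ℝ) / Lg ^ U₁ ≤ N / Lg ^ (2 * V + 7) := by
        apply div_le_div_of_nonneg_left hN0.le (by positivity)
        exact pow_le_pow_right₀ hL1 (by omega)
      have a3 : (N : ℝ) ≤ ((X + N : ℕ) : ℝ) := by exact_mod_cast Nat.le_add_left _ _
      calc (N : ℝ) / Lg ^ U₁ ≤ N / Lg ^ (2 * V + 7) := a1
        _ = 1 / Lg ^ (2 * V + 7) * N := by ring
        _ ≤ _ := mul_le_mul_of_nonneg_left a3 (by positivity)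
    have hEq2 := Eqd_blk hEq 0 A (Nat.zero_le _)
    have e0 : 2 * (1 / Real.log N ^ (2 * V + 7)) = 2 / Real.log N ^ (2 * V + 7) := by ring
    rw [e0] at hEq2
    have h5 := h1 N (by omega) (X + N) (Nat.le_add_left _ _) (by rw [← hLgd]; exact hxr) (blk g 0 A)
      (blk_norm g hg1 0 A) hEq2 Q
    -- the sums over classes
    have h6 : ∀ q b, (∑ n ∈ Icc 1 A, if n % q = b then θ l n * D m n else 0) ^ 2 =
        Lg ^ (4 * κ) * ‖cs (blk g 0 A) q b (X + N)‖ ^ 2 := by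
      intro q b
      rw [cs_blk g 0 A q b (X + N) (Nat.zero_le _), min_eq_right (by omega : A ≤ X + N), min_eq_right (Nat.zero_le _)]
      have e2 : cs g q b 0 = 0 := by
        unfold cs
        simp
      rw [e2, sub_zero, hg, cs_gn, Complex.norm_real, Real.norm_eq_abs, sq_abs, min_eq_left hA, div_pow]
      have e3 : Lg ^ (4 * κ) = (Lg ^ (2 * κ)) ^ 2 := by
        rw [← pow_mul]
        congr 1
        ring
      rw [e3]
      field_simp
    have h7 : ∑ n ∈ Icc 1 A, (θ l n * D m n) ^ 2 = Lg ^ (4 * κ) * ∑ n ∈ Icc 1 (X + N), ‖blk g 0 A n‖ ^ 2 := by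
      have e1 : Icc 1 A = (Icc 1 (X + N)).filter (fun n => n ≤ A) := by
        ext n
        rw [mem_filter, mem_Icc, mem_Icc]
        omega
      rw [e1, sum_filter, mul_sum]
      refine sum_congr rfl fun n hn => ?_
      rw [mem_Icc] at hn
      unfold blk
      by_cases a : n ≤ A
      · rw [if_pos a, if_pos ⟨by omega, a⟩, hg]
        unfold gn
        rw [if_pos (by rw [mem_Icc]; omega), Complex.norm_real, Real.norm_eq_abs, sq_abs, div_pow]
        have e3 : Lg ^ (4 * κ) = (Lg ^ (2 * κ)) ^ 2 := by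
          rw [← pow_mul]
          congr 1
          ring
        rw [e3]
        field_simp
      · rw [if_neg a, if_neg (fun h => a h.2)]
        simp
    have h8 : ∑ q ∈ Icc 1 Q, ∑ b ∈ range q, (∑ n ∈ Icc 1 A, if n % q = b then θ l n * D m n else 0) ^ 2 =
        Lg ^ (4 * κ) * VV (blk g 0 A) (X + N) Q := by
      unfold VV
      rw [mul_sum]
      refine sum_congr rfl fun q _ => ?_
      rw [mul_sum]
      exact sum_congr rfl fun b _ => h6 q b
    rw [h8, h7]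
    have h9 : Lg ^ (4 * κ) * VV (blk g 0 A) (X + N) Q - Q * (Lg ^ (4 * κ) * ∑ n ∈ Icc 1 (X + N), ‖blk g 0 A n‖ ^ 2) =
        Lg ^ (4 * κ) * (VV (blk g 0 A) (X + N) Q - Q * ∑ n ∈ Icc 1 (X + N), ‖blk g 0 A n‖ ^ 2) := by ring
    rw [h9, abs_mul, abs_of_pos (by positivity : 0 < Lg ^ (4 * κ))]
    calc Lg ^ (4 * κ) * |VV (blk g 0 A) (X + N) Q - Q * ∑ n ∈ Icc 1 (X + N), ‖blk g 0 A n‖ ^ 2|
        ≤ Lg ^ (4 * κ) * (((X + N : ℕ) : ℝ) ^ 2 / Real.log N ^ V) := mul_le_mul_of_nonneg_left h5 (by positivity)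
      _ ≤ Lg ^ (4 * κ) * ((Lg * N) ^ 2 / Real.log N ^ V) := by
          rw [← hLgd]
          gcongr
      _ = (N : ℝ) ^ 2 / Real.log N ^ U := by
          have hVe : Lg ^ V = Lg ^ U * Lg ^ (4 * κ) * Lg ^ 2 := by
            rw [hV, pow_add, pow_add]
          rw [← hLgd, hVe]
          field_simp
  · rw [← hLgd]
    apply div_le_div_of_nonneg_left hW (by positivity)
    exact pow_le_pow_right₀ hL1 (by omega)

end Pool.Agent.Run7.h17.ABS
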