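import Mathlib
import Pool.Agent.Run7.h17.ABS2
import Pool.Agent.Run7.h17.PT2

/-! Products of values of the von Mangoldt function at `s i t + v i (m i)`, where the positions `s i t` are arbitrary
sequences without many repetitions and the `v i m` run over families of nearly minimal additive energy; for almost all
vectors `m`, in the classes of `t`. -/

set_option autoImplicit false
set_option maxHeartbeats 4000000

namespace Pool.Agent.Run7.h17.Pos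

open Finset Pool.Agent.H373R2.T7 Pool.Agent.H560R3.GB

lemma energy_shift (p x : ℕ) (v : ℕ → ℤ) (a : ℤ) : energy p x (fun m => v m + a) = energy p x v := by
  unfold energy
  congr 1
  apply filter_congr
  intro q _
  rw [sum_add_distrib, sum_add_distrib]
  constructor
  · intro h; linarith
  · intro h; linarith

/-- one factor -/
theorem pos_one (p κ U : ℕ) : ∃ B0 : ℕ, ∀ E : ℕ, ∃ x0 : ℕ, ∀ x : ℕ, x0 ≤ x → ∀ (M : ℕ) (s v : ℕ → ℤ),
    (∀ t ∈ Icc 1 x, ((|s t| : ℤ) : ℝ) ≤ Real.log x ^ κ * x) →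
    (∀ c : ℤ, (((Icc 1 x).filter (fun t => s t = c)).card : ℝ) ≤ Real.log x ^ κ) →
    (∀ m ∈ Icc 1 M, ((|v m| : ℤ) : ℝ) ≤ Real.log x ^ κ * x) →
    (energy p M v : ℝ) * x ≤ Real.log x ^ κ * (M : ℝ) ^ (2 * p) →
    ∀ z : ℕ, Real.log x ^ B0 ≤ z → (z : ℝ) ≤ Real.log x ^ E →
    ∀ K : ℝ, 0 < K → ∀ G : ℕ → ℝ, (∀ t ∈ Icc 1 x, |G t| ≤ K) →
    ∑ m ∈ Icc 1 M, |∑ t ∈ Icc 1 x, G t * (lamI (s t + v m) - lamzI z (s t + v m))| ≤
      K * (x * M / Real.log x ^ U) := by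
  obtain ⟨B0, hB0⟩ := lam_e p 3 (2 * κ + 1) (U + 2 * κ + 1)
  refine ⟨B0 + 1, fun E => ?_⟩
  obtain ⟨n1, h1⟩ := hB0 E
  obtain ⟨n2, h2⟩ := ev_L' (2 ^ B0 + 3)
  obtain ⟨n3, h3⟩ := ev_log' κ 2
  refine ⟨n1 + n2 + n3 + 4, fun x hx M s v hs hmult hv hE z hz1 hz2 K hK G hG => ?_⟩
  have hLg := h2 x (by omega)
  have h3' := h3 x (by omega)
  have hx1 : (1 : ℝ) ≤ x := by exact_mod_cast (by omega : 1 ≤ x)
  have hx4 : (4 : ℝ) ≤ x := by exact_mod_cast (by omega : 4 ≤ x)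
  have hx0 : (0 : ℝ) < x := by linarith
  obtain ⟨L, hLd⟩ : ∃ L, L = Real.log x := ⟨_, rfl⟩
  rw [← hLd] at hLg h3' hs hmult hv hE hz1 hz2 ⊢
  have h2B : (1 : ℝ) ≤ 2 ^ B0 := one_le_pow₀ (by norm_num)
  have hL1 : 1 ≤ L := by linarith
  have hL0 : 0 < L := by linarith
  have hLκ : 1 ≤ L ^ κ := one_le_pow₀ hL1
  obtain ⟨N, hN⟩ : ∃ N : ℕ, N = ⌈L ^ κ * x⌉₊ := ⟨_, rfl⟩
  have hN1 : L ^ κ * x ≤ N := by rw [hN]; exact Nat.le_ceil _
  have hN2 : (N : ℝ) ≤ 2 * (L ^ κ * x) := by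
    have := Nat.ceil_lt_add_one (a := L ^ κ * x) (by positivity)
    rw [← hN] at this
    nlinarith
  have hxN : (x : ℝ) ≤ N := by nlinarith
  have hxNn : x ≤ N := by exact_mod_cast hxN
  have hNx2 : (N : ℝ) ≤ (x : ℝ) ^ 2 := by
    calc (N : ℝ) ≤ 2 * (L ^ κ * x) := hN2
      _ = (2 * L ^ κ) * x := by ring
      _ ≤ √x * x := mul_le_mul_of_nonneg_right h3' hx0.le
      _ ≤ x * x := by
          apply mul_le_mul_of_nonneg_right _ hx0.le
          rw [Real.sqrt_le_left hx0.le]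
          nlinarith
      _ = _ := by ring
  have hN0 : (0 : ℝ) < N := by linarith
  have hlN1 : L ≤ Real.log N := by rw [hLd]; exact Real.log_le_log hx0 hxN
  have hlN2 : Real.log N ≤ 2 * L := by
    have := Real.log_le_log hN0 hNx2
    rw [Real.log_pow, ← hLd] at this
    exact_mod_cast this
  have hlN0 : 0 < Real.log N := by linarith
  -- the shifted family
  set v' : ℕ → ℤ := fun m => v m + (-(N : ℤ) - 1) with hv'
  have hN1' : (1 : ℤ) ≤ N := by exact_mod_cast (by omega : 1 ≤ N)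
  have hvN : ∀ m ∈ Icc 1 M, |v m| ≤ (N : ℤ) := fun m hm => by
    have := (hv m hm).trans hN1
    exact_mod_cast this
  have hsN : ∀ t ∈ Icc 1 x, |s t| ≤ (N : ℤ) := fun t ht => by
    have := (hs t ht).trans hN1
    exact_mod_cast this
  have key := h1 N (by omega) M v' (fun m hm => by
      have e1 := hvN m hm
      rw [abs_le] at e1 ⊢
      rw [hv']
      simp only
      push_cast
      constructor <;> linarith [e1.1, e1.2]) (by
      rw [hv', energy_shift]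
      calc (energy p M v : ℝ) * N ≤ (energy p M v : ℝ) * (2 * (L ^ κ * x)) :=
            mul_le_mul_of_nonneg_left hN2 (Nat.cast_nonneg _)
        _ = 2 * L ^ κ * ((energy p M v : ℝ) * x) := by ring
        _ ≤ 2 * L ^ κ * (L ^ κ * (M : ℝ) ^ (2 * p)) := mul_le_mul_of_nonneg_left hE (by positivity)
        _ = (2 * (L ^ κ * L ^ κ)) * (M : ℝ) ^ (2 * p) := by ring
        _ ≤ (L * (L ^ κ * L ^ κ)) * (M : ℝ) ^ (2 * p) := by
            apply mul_le_mul_of_nonneg_right _ (by positivity)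
            apply mul_le_mul_of_nonneg_right _ (by positivity)
            linarith
        _ = L ^ (2 * κ + 1) * (M : ℝ) ^ (2 * p) := by
            rw [pow_succ, two_mul, pow_add]
            ring
        _ ≤ Real.log N ^ (2 * κ + 1) * (M : ℝ) ^ (2 * p) := by
            apply mul_le_mul_of_nonneg_right _ (by positivity)
            exact pow_le_pow_left₀ hL0.le hlN1 _) (3 * N) le_rfl z (by
      calc Real.log N ^ B0 ≤ (2 * L) ^ B0 := pow_le_pow_left₀ hlN0.le hlN2 _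
        _ = 2 ^ B0 * L ^ B0 := mul_pow _ _ _
        _ ≤ L * L ^ B0 := mul_le_mul_of_nonneg_right (by linarith) (by positivity)
        _ = L ^ (B0 + 1) := by ring
        _ ≤ z := hz1) (hz2.trans (pow_le_pow_left₀ hL0.le hlN1 _))
  -- the weights
  set G' : ℕ → ℝ := fun c => ∑ t ∈ (Icc 1 x).filter (fun t => s t + (N : ℤ) + 1 = (c : ℤ)), G t with hG'
  have hG'b : ∀ c ∈ Icc 1 (3 * N), |G' c| ≤ K * L ^ κ := by
    intro c _
    rw [hG']
    simp only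
    refine (abs_sum_le_sum_abs _ _).trans ?_
    calc ∑ t ∈ (Icc 1 x).filter (fun t => s t + (N : ℤ) + 1 = (c : ℤ)), |G t|
        ≤ ∑ _t ∈ (Icc 1 x).filter (fun t => s t + (N : ℤ) + 1 = (c : ℤ)), K :=
          sum_le_sum fun t ht => hG t (mem_filter.mp ht).1
      _ = (((Icc 1 x).filter (fun t => s t = (c : ℤ) - N - 1)).card : ℝ) * K := by
          rw [sum_const, nsmul_eq_mul]
          congr 3
          apply filter_congr
          intro t _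
          constructor
          · intro h; linarith
          · intro h; linarith
      _ ≤ L ^ κ * K := mul_le_mul_of_nonneg_right (hmult _) hK.le
      _ = _ := mul_comm _ _
  have key2 := l1_real (3 * N) M (fun c m => lamI ((c : ℤ) + v' m) - lamzI z ((c : ℤ) + v' m))
    (N * M / Real.log N ^ (U + 2 * κ + 1)) (K * L ^ κ) (by positivity) key G' hG'b
  have hsum : ∀ m, ∑ c ∈ Icc 1 (3 * N), G' c * (lamI ((c : ℤ) + v' m) - lamzI z ((c : ℤ) + v' m)) =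
      ∑ t ∈ Icc 1 x, G t * (lamI (s t + v m) - lamzI z (s t + v m)) := by
    intro m
    have e1 : ∀ c ∈ Icc 1 (3 * N), G' c * (lamI ((c : ℤ) + v' m) - lamzI z ((c : ℤ) + v' m)) =
        ∑ t ∈ Icc 1 x, if s t + (N : ℤ) + 1 = (c : ℤ) then
          G t * (lamI (s t + v m) - lamzI z (s t + v m)) else 0 := by
      intro c _
      rw [hG']
      simp only
      rw [sum_mul, sum_filter]
      refine sum_congr rfl fun t _ => ?_
      split_ifs with h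
      · have e2 : (c : ℤ) + v' m = s t + v m := by
          rw [hv']
          simp only
          rw [← h]
          ring
        rw [e2]
      · rfl
    rw [sum_congr rfl e1, sum_comm]
    refine sum_congr rfl fun t ht => ?_
    have e3 := hsN t ht
    rw [abs_le] at e3
    have e4 : ∃ c : ℕ, s t + (N : ℤ) + 1 = (c : ℤ) ∧ c ∈ Icc 1 (3 * N) := by
      refine ⟨(s t + (N : ℤ) + 1).toNat, ?_, ?_⟩
      · rw [Int.toNat_of_nonneg (by linarith [e3.1])]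
      · rw [mem_Icc]
        omega
    obtain ⟨c0, hc0, hc1⟩ := e4
    rw [sum_eq_single_of_mem c0 hc1]
    · rw [if_pos hc0]
    · intro c _ hne
      rw [if_neg]
      intro h
      apply hne
      have : (c : ℤ) = c0 := by rw [← h, hc0]
      exact_mod_cast this
  rw [sum_congr rfl fun m _ => by rw [hsum m]] at key2
  refine key2.trans ?_
  have e5 : (N : ℝ) * M / Real.log N ^ (U + 2 * κ + 1) ≤ 2 * (L ^ κ * x) * M / L ^ (U + 2 * κ + 1) := by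
    apply div_le_div₀ (by positivity) _ (by positivity) (pow_le_pow_left₀ hL0.le hlN1 _)
    exact mul_le_mul_of_nonneg_right hN2 (Nat.cast_nonneg _)
  calc K * L ^ κ * (N * M / Real.log N ^ (U + 2 * κ + 1))
      ≤ K * L ^ κ * (2 * (L ^ κ * x) * M / L ^ (U + 2 * κ + 1)) := mul_le_mul_of_nonneg_left e5 (by positivity)
    _ = (2 / L) * (K * (x * M / L ^ U)) := by
        rw [show U + 2 * κ + 1 = U + κ + κ + 1 by ring, pow_succ, pow_add, pow_add]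
        field_simp
    _ ≤ 1 * (K * (x * M / L ^ U)) := by
        apply mul_le_mul_of_nonneg_right _ (by positivity)
        rw [div_le_one hL0]
        linarith
    _ = _ := one_mul _

/-- the product minus its model -/
noncomputable def pq {k : ℕ} (z : ℕ) (s v : Fin k → ℕ → ℤ) (m : Fin k → ℕ) (t : ℕ) : ℝ :=
  ∏ i, lamI (s i t + v i (m i)) - ∏ i, lamzI z (s i t + v i (m i))

/-- products -/
theorem pos_prod (k p κ U : ℕ) : ∃ B0 : ℕ, ∀ E : ℕ, ∃ x0 : ℕ, ∀ x : ℕ, x0 ≤ x →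
    ∀ (M : Fin k → ℕ) (s v : Fin k → ℕ → ℤ), (∀ i, 1 ≤ M i) →
    (∀ i, ∀ t ∈ Icc 1 x, ((|s i t| : ℤ) : ℝ) ≤ Real.log x ^ κ * x) →
    (∀ i, ∀ c : ℤ, (((Icc 1 x).filter (fun t => s i t = c)).card : ℝ) ≤ Real.log x ^ κ) →
    (∀ i, ∀ m ∈ Icc 1 (M i), ((|v i m| : ℤ) : ℝ) ≤ Real.log x ^ κ * x) →
    (∀ i, (energy p (M i) (v i) : ℝ) * x ≤ Real.log x ^ κ * (M i : ℝ) ^ (2 * p)) →
    ∀ z : ℕ, Real.log x ^ B0 ≤ z → (z : ℝ) ≤ Real.log x ^ E →
    (∀ m ∈ Fintype.piFinset (fun i => Icc 1 (M i)), ∀ t ∈ Icc 1 x, |pq z s v m t| ≤ Real.log x ^ (2 * k)) ∧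
    ∀ A : ℕ, A ≤ x → ∀ G : ℕ → ℝ, (∀ t, |G t| ≤ 1) →
    ∑ m ∈ Fintype.piFinset (fun i => Icc 1 (M i)), |∑ t ∈ Icc 1 A, G t * pq z s v m t| ≤
      x * (∏ i, (M i : ℝ)) / Real.log x ^ U := by
  classical
  obtain ⟨B0, hB0⟩ := pos_one p κ (U + 2 * k + 1)
  refine ⟨B0, fun E => ?_⟩
  obtain ⟨n1, h1⟩ := hB0 E
  obtain ⟨n2, h2⟩ := Vz_inv_small E
  obtain ⟨n3, h3⟩ := ev_L' ((k : ℝ) + 3)
  obtain ⟨n4, h4⟩ := ev_log' κ 2
  refine ⟨n1 + n2 + n3 + n4 + 4, fun x hx M s v hM hs hmult hv hE z hz1 hz2 => ?_⟩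
  have hLg := h3 x (by omega)
  have h4' := h4 x (by omega)
  have hkr : (0 : ℝ) ≤ k := Nat.cast_nonneg _
  have hx1 : (1 : ℝ) ≤ x := by exact_mod_cast (by omega : 1 ≤ x)
  have hx0 : (0 : ℝ) < x := by linarith
  have hVz := h2 x (by omega)
  have h1' := h1 x (by omega)
  obtain ⟨L, hLd⟩ : ∃ L, L = Real.log x := ⟨_, rfl⟩
  rw [← hLd] at hLg h4' hs hmult hv hE hz1 hz2 hVz h1' ⊢
  have hL1 : 1 ≤ L := by linarith
  have hL0 : 0 < L := by linarith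
  have hz : 1 ≤ z := by
    have : (1 : ℝ) ≤ z := (one_le_pow₀ hL1).trans hz1
    exact_mod_cast this
  have hV := hVz z hz hz2
  set Λ : ℝ := 2 * L with hΛ
  have hΛ1 : 1 ≤ Λ := by linarith
  have hΛ2 : Λ ≤ L ^ 2 := by nlinarith
  have hlam : ∀ i, ∀ t ∈ Icc 1 x, ∀ m ∈ Icc 1 (M i), lamI (s i t + v i m) ≤ Λ := by
    intro i t ht m hm
    have e1 := hs i t ht
    have e2 := hv i m hm
    have e3 : ((s i t + v i m : ℤ) : ℝ) ≤ (x : ℝ) ^ 2 := by
      have a1 : ((s i t : ℤ) : ℝ) ≤ ((|s i t| : ℤ) : ℝ) := by exact_mod_cast le_abs_self _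
      have a2 : ((v i m : ℤ) : ℝ) ≤ ((|v i m| : ℤ) : ℝ) := by exact_mod_cast le_abs_self _
      calc ((s i t + v i m : ℤ) : ℝ) = ((s i t : ℤ) : ℝ) + ((v i m : ℤ) : ℝ) := by push_cast; ring
        _ ≤ (2 * L ^ κ) * x := by linarith
        _ ≤ √x * x := mul_le_mul_of_nonneg_right h4' hx0.le
        _ ≤ x * x := by
            apply mul_le_mul_of_nonneg_right _ hx0.le
            rw [Real.sqrt_le_left hx0.le]
            nlinarith
        _ = _ := by ring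
    refine (lamI_le _ ((x : ℝ) ^ 2) (one_le_pow₀ hx1) e3).trans ?_
    rw [Real.log_pow, ← hLd]
    norm_num [hΛ]
  have hlamz : ∀ w : ℤ, lamzI z w ≤ Λ := by
    intro w
    refine (lamzI_le z w).trans (hV.trans ?_)
    linarith
  have hDb : ∀ m ∈ Fintype.piFinset (fun i => Icc 1 (M i)), ∀ t ∈ Icc 1 x, |pq z s v m t| ≤ L ^ (2 * k) := by
    intro m hm t ht
    rw [Fintype.mem_piFinset] at hm
    have p1 : 0 ≤ ∏ i, lamI (s i t + v i (m i)) := prod_nonneg fun _ _ => lamI_nonneg _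
    have p2 : 0 ≤ ∏ i, lamzI z (s i t + v i (m i)) := prod_nonneg fun _ _ => lamzI_nonneg _ _
    have hΛk : Λ ^ k ≤ L ^ (2 * k) := by
      rw [pow_mul]
      exact pow_le_pow_left₀ (by linarith) hΛ2 k
    have p3 : ∏ i, lamI (s i t + v i (m i)) ≤ Λ ^ k := by
      calc ∏ i, lamI (s i t + v i (m i)) ≤ ∏ _i : Fin k, Λ :=
            prod_le_prod (fun _ _ => lamI_nonneg _) fun i _ => hlam i t ht (m i) (hm i)
        _ = _ := by rw [prod_const, card_univ, Fintype.card_fin]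
    have p4 : ∏ i, lamzI z (s i t + v i (m i)) ≤ Λ ^ k := by
      calc ∏ i, lamzI z (s i t + v i (m i)) ≤ ∏ _i : Fin k, Λ :=
            prod_le_prod (fun _ _ => lamzI_nonneg _ _) fun i _ => hlamz _
        _ = _ := by rw [prod_const, card_univ, Fintype.card_fin]
    unfold pq
    rw [abs_le]
    constructor <;> linarith
  refine ⟨hDb, fun A hA G hG => ?_⟩
  -- extension by zero
  set G' : ℕ → ℝ := fun t => if t ≤ A then G t else 0 with hG'
  have hext : ∀ f : ℕ → ℝ, ∑ t ∈ Icc 1 A, G t * f t = ∑ t ∈ Icc 1 x, G' t * f t := by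
    intro f
    have e1 : Icc 1 A = (Icc 1 x).filter (fun t => t ≤ A) := by
      ext t
      rw [mem_filter, mem_Icc, mem_Icc]
      omega
    rw [e1, sum_filter]
    refine sum_congr rfl fun t _ => ?_
    rw [hG']
    simp only
    split_ifs
    · rfl
    · rw [zero_mul]
  have hG'1 : ∀ t, |G' t| ≤ 1 := by
    intro t
    rw [hG']
    simp only
    split_ifs
    · exact hG t
    · simp
  have key := tele x M hM (fun i t m => lamI (s i t + v i m)) (fun i t m => lamzI z (s i t + v i m)) Λ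
    (x / L ^ (U + 2 * k + 1)) hΛ1 (by positivity) (by
      intro i t ht m hm
      rw [abs_of_nonneg (lamI_nonneg _)]
      exact hlam i t ht m hm) (by
      intro i t ht m hm
      rw [abs_of_nonneg (lamzI_nonneg _ _)]
      exact hlamz _) (by
      intro i K hK H hH
      have e1 := h1' (M i) (s i) (v i) (hs i) (hmult i) (hv i) (hE i) z hz1 hz2 K hK H hH
      refine e1.trans (le_of_eq ?_)
      ring)
    univ 1 one_pos (fun t _ => G' t) (fun t _ m _ => hG'1 t) (fun n m v i _ => rfl)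
  have e0 : ∀ m : Fin k → ℕ, |∑ t ∈ Icc 1 A, G t * pq z s v m t| =
      |∑ t ∈ Icc 1 x, G' t * (∏ i, lamI (s i t + v i (m i)) - ∏ i, lamzI z (s i t + v i (m i)))| := by
    intro m
    rw [hext]
    rfl
  rw [sum_congr rfl fun m _ => e0 m]
  refine key.trans ?_
  rw [card_univ, Fintype.card_fin]
  have hprod : 0 ≤ ∏ i, (M i : ℝ) := prod_nonneg fun _ _ => Nat.cast_nonneg _
  have hΛk : Λ ^ k ≤ L ^ (2 * k) := by
    rw [pow_mul]
    exact pow_le_pow_left₀ (by linarith) hΛ2 k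
  calc (k : ℝ) * (1 * Λ ^ k * (x / L ^ (U + 2 * k + 1))) * ∏ i, (M i : ℝ)
      ≤ (k : ℝ) * (1 * L ^ (2 * k) * (x / L ^ (U + 2 * k + 1))) * ∏ i, (M i : ℝ) := by gcongr
    _ = ((k : ℝ) / L) * (x * (∏ i, (M i : ℝ)) / L ^ U) := by
        rw [show U + 2 * k + 1 = U + (2 * k) + 1 by ring, pow_succ, pow_add]
        field_simp
    _ ≤ 1 * (x * (∏ i, (M i : ℝ)) / L ^ U) := by
        apply mul_le_mul_of_nonneg_right _ (by positivity)
        rw [div_le_one hL0]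
        linarith
    _ = _ := one_mul _


open Classical in
theorem pos_bdh (k p κ U : ℕ) : ∃ c B0 : ℕ, ∀ E : ℕ, ∃ x0 : ℕ, ∀ x : ℕ, x0 ≤ x →
    ∀ (M : Fin k → ℕ) (s v : Fin k → ℕ → ℤ),
    (∀ i, ∀ t ∈ Icc 1 x, ((|s i t| : ℤ) : ℝ) ≤ Real.log x ^ κ * x) →
    (∀ i, ∀ c : ℤ, (((Icc 1 x).filter (fun t => s i t = c)).card : ℝ) ≤ Real.log x ^ κ) →
    (∀ i, ∀ m ∈ Icc 1 (M i), ((|v i m| : ℤ) : ℝ) ≤ Real.log x ^ κ * x) →
    (∀ i, (energy p (M i) (v i) : ℝ) * x ≤ Real.log x ^ κ * (M i : ℝ) ^ (2 * p)) →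
    ∀ z : ℕ, Real.log x ^ B0 ≤ z → (z : ℝ) ≤ Real.log x ^ E →
    ∀ L : ℕ, (L : ℝ) ≤ Real.log x ^ κ → ∀ θ : Fin L → ℕ → ℝ, (∀ l, ∀ t ∈ Icc 1 x, |θ l t| ≤ Real.log x ^ κ) →
    (((Fintype.piFinset (fun i => Icc 1 (M i))).filter (fun m : Fin k → ℕ => ¬ ∀ l, ∀ Q : ℕ,
      Q * Real.log x ^ c ≤ x → ∀ Y : ℕ → ℕ → ℕ, (∀ q b, Y q b ≤ x) →
      ∑ q ∈ Icc 1 Q, ∑ b ∈ range q, |∑ t ∈ Icc 1 (Y q b), if t % q = b then
        θ l t * pq z s v m t else 0| ≤ Q * x / Real.log x ^ U)).card : ℝ) ≤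
      (∏ i, (M i : ℝ)) / Real.log x ^ U := by
  obtain ⟨c, U', n1, h1⟩ := ABS.bdh (2 * k + κ) U
  obtain ⟨B0, hB0⟩ := pos_prod k p κ U'
  refine ⟨c, B0, fun E => ?_⟩
  obtain ⟨n2, h2⟩ := hB0 E
  obtain ⟨n3, h3⟩ := ev_L' 2
  refine ⟨n1 + n2 + n3, fun x hx M s v hs hmult hv hE z hz1 hz2 L hL θ hθ => ?_⟩
  have hlog := h3 x (by omega)
  have hm1 : Real.log x ^ (2 * k) ≤ Real.log x ^ (2 * k + κ) := pow_le_pow_right₀ (by linarith) (by omega)
  have hm2 : Real.log x ^ κ ≤ Real.log x ^ (2 * k + κ) := pow_le_pow_right₀ (by linarith) (by omega)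
  by_cases hM : ∀ i, 1 ≤ M i
  · obtain ⟨e1, e2⟩ := h2 x (by omega) M s v hM hs hmult hv hE z hz1 hz2
    exact h1 x (by omega) x (by
      have : (0 : ℝ) ≤ x := Nat.cast_nonneg _
      nlinarith) (Fintype.piFinset (fun i => Icc 1 (M i)))
      (fun m t => pq z s v m t) (∏ i, (M i : ℝ)) (prod_nonneg fun _ _ => Nat.cast_nonneg _)
      (fun m hm t ht => (e1 m hm t ht).trans hm1) e2 L (hL.trans hm2) θ (fun l t ht => (hθ l t ht).trans hm2)
  · push Not at hM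
    obtain ⟨i, hi⟩ := hM
    have : Fintype.piFinset (fun i => Icc 1 (M i)) = ∅ := by
      rw [Fintype.piFinset_eq_empty]
      exact ⟨i, by rw [Icc_eq_empty]; omega⟩
    rw [this, filter_empty, card_empty, Nat.cast_zero]
    have : 0 ≤ ∏ i, (M i : ℝ) := prod_nonneg fun _ _ => Nat.cast_nonneg _
    have : 0 ≤ Real.log x ^ U := by
      have : 0 ≤ Real.log x := by linarith
      positivity
    positivity

open Classical in
theorem pos_copr (k p κ U : ℕ) : ∃ c B0 : ℕ, ∀ E : ℕ, ∃ x0 : ℕ, ∀ x : ℕ, x0 ≤ x →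
    ∀ (M : Fin k → ℕ) (s v : Fin k → ℕ → ℤ),
    (∀ i, ∀ t ∈ Icc 1 x, ((|s i t| : ℤ) : ℝ) ≤ Real.log x ^ κ * x) →
    (∀ i, ∀ c : ℤ, (((Icc 1 x).filter (fun t => s i t = c)).card : ℝ) ≤ Real.log x ^ κ) →
    (∀ i, ∀ m ∈ Icc 1 (M i), ((|v i m| : ℤ) : ℝ) ≤ Real.log x ^ κ * x) →
    (∀ i, (energy p (M i) (v i) : ℝ) * x ≤ Real.log x ^ κ * (M i : ℝ) ^ (2 * p)) →
    ∀ z : ℕ, Real.log x ^ B0 ≤ z → (z : ℝ) ≤ Real.log x ^ E →
    ∀ L : ℕ, (L : ℝ) ≤ Real.log x ^ κ → ∀ θ : Fin L → ℕ → ℝ, (∀ l, ∀ t ∈ Icc 1 x, |θ l t| ≤ Real.log x ^ κ) →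
    (((Fintype.piFinset (fun i => Icc 1 (M i))).filter (fun m : Fin k → ℕ => ¬ ∀ l, ∀ Q : ℕ,
      Q * Real.log x ^ c ≤ x → ∀ Mo : Finset ℕ, (∀ q ∈ Mo, 1 ≤ q ∧ q ≤ Q) →
      (∀ q ∈ Mo, ∀ q' ∈ Mo, q ≠ q' → Nat.Coprime q q') →
      (∀ q ∈ Mo, ∃ Y : ℕ → ℕ, (∀ b, Y b ≤ x) ∧ x / Real.log x ^ U < ∑ b ∈ range q,
        |∑ t ∈ Icc 1 (Y b), if t % q = b then θ l t * pq z s v m t else 0|) →
      (Mo.card : ℝ) ≤ Real.log x ^ c * (1 + (Q : ℝ) ^ 2 / x))).card : ℝ) ≤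
      (∏ i, (M i : ℝ)) / Real.log x ^ U := by
  obtain ⟨c, U', n1, h1⟩ := ABS.copr (2 * k + κ) U
  obtain ⟨B0, hB0⟩ := pos_prod k p κ U'
  refine ⟨c, B0, fun E => ?_⟩
  obtain ⟨n2, h2⟩ := hB0 E
  obtain ⟨n3, h3⟩ := ev_L' 2
  refine ⟨n1 + n2 + n3, fun x hx M s v hs hmult hv hE z hz1 hz2 L hL θ hθ => ?_⟩
  have hlog := h3 x (by omega)
  have hm1 : Real.log x ^ (2 * k) ≤ Real.log x ^ (2 * k + κ) := pow_le_pow_right₀ (by linarith) (by omega)
  have hm2 : Real.log x ^ κ ≤ Real.log x ^ (2 * k + κ) := pow_le_pow_right₀ (by linarith) (by omega)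
  by_cases hM : ∀ i, 1 ≤ M i
  · obtain ⟨e1, e2⟩ := h2 x (by omega) M s v hM hs hmult hv hE z hz1 hz2
    exact h1 x (by omega) x (by
      have : (0 : ℝ) ≤ x := Nat.cast_nonneg _
      nlinarith) (Fintype.piFinset (fun i => Icc 1 (M i)))
      (fun m t => pq z s v m t) (∏ i, (M i : ℝ)) (prod_nonneg fun _ _ => Nat.cast_nonneg _)
      (fun m hm t ht => (e1 m hm t ht).trans hm1) e2 L (hL.trans hm2) θ (fun l t ht => (hθ l t ht).trans hm2)
  · push Not at hM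
    obtain ⟨i, hi⟩ := hM
    have : Fintype.piFinset (fun i => Icc 1 (M i)) = ∅ := by
      rw [Fintype.piFinset_eq_empty]
      exact ⟨i, by rw [Icc_eq_empty]; omega⟩
    rw [this, filter_empty, card_empty, Nat.cast_zero]
    have : 0 ≤ ∏ i, (M i : ℝ) := prod_nonneg fun _ _ => Nat.cast_nonneg _
    have : 0 ≤ Real.log x ^ U := by
      have : 0 ≤ Real.log x := by linarith
      positivity
    positivity

open Classical in
theorem pos_var (k p κ U : ℕ) : ∃ B0 : ℕ, ∀ E : ℕ, ∃ x0 : ℕ, ∀ x : ℕ, x0 ≤ x →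
    ∀ (M : Fin k → ℕ) (s v : Fin k → ℕ → ℤ),
    (∀ i, ∀ t ∈ Icc 1 x, ((|s i t| : ℤ) : ℝ) ≤ Real.log x ^ κ * x) →
    (∀ i, ∀ c : ℤ, (((Icc 1 x).filter (fun t => s i t = c)).card : ℝ) ≤ Real.log x ^ κ) →
    (∀ i, ∀ m ∈ Icc 1 (M i), ((|v i m| : ℤ) : ℝ) ≤ Real.log x ^ κ * x) →
    (∀ i, (energy p (M i) (v i) : ℝ) * x ≤ Real.log x ^ κ * (M i : ℝ) ^ (2 * p)) →
    ∀ z : ℕ, Real.log x ^ B0 ≤ z → (z : ℝ) ≤ Real.log x ^ E →
    ∀ L : ℕ, (L : ℝ) ≤ Real.log x ^ κ → ∀ θ : Fin L → ℕ → ℝ, (∀ l, ∀ t ∈ Icc 1 x, |θ l t| ≤ Real.log x ^ κ) →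
    (((Fintype.piFinset (fun i => Icc 1 (M i))).filter (fun m : Fin k → ℕ => ¬ ∀ l, ∀ A : ℕ, A ≤ x → ∀ Q : ℕ,
      |∑ q ∈ Icc 1 Q, ∑ b ∈ range q, (∑ t ∈ Icc 1 A, if t % q = b then θ l t * pq z s v m t else 0) ^ 2 -
        Q * ∑ t ∈ Icc 1 A, (θ l t * pq z s v m t) ^ 2| ≤ (x : ℝ) ^ 2 / Real.log x ^ U)).card : ℝ) ≤
      (∏ i, (M i : ℝ)) / Real.log x ^ U := by
  obtain ⟨U', n1, h1⟩ := ABS.var (2 * k + κ) U
  obtain ⟨B0, hB0⟩ := pos_prod k p κ U'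
  refine ⟨B0, fun E => ?_⟩
  obtain ⟨n2, h2⟩ := hB0 E
  obtain ⟨n3, h3⟩ := ev_L' 2
  refine ⟨n1 + n2 + n3, fun x hx M s v hs hmult hv hE z hz1 hz2 L hL θ hθ => ?_⟩
  have hlog := h3 x (by omega)
  have hm1 : Real.log x ^ (2 * k) ≤ Real.log x ^ (2 * k + κ) := pow_le_pow_right₀ (by linarith) (by omega)
  have hm2 : Real.log x ^ κ ≤ Real.log x ^ (2 * k + κ) := pow_le_pow_right₀ (by linarith) (by omega)
  by_cases hM : ∀ i, 1 ≤ M i
  · obtain ⟨e1, e2⟩ := h2 x (by omega) M s v hM hs hmult hv hE z hz1 hz2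
    exact h1 x (by omega) x (by
      have : (0 : ℝ) ≤ x := Nat.cast_nonneg _
      nlinarith) (Fintype.piFinset (fun i => Icc 1 (M i)))
      (fun m t => pq z s v m t) (∏ i, (M i : ℝ)) (prod_nonneg fun _ _ => Nat.cast_nonneg _)
      (fun m hm t ht => (e1 m hm t ht).trans hm1) e2 L (hL.trans hm2) θ (fun l t ht => (hθ l t ht).trans hm2)
  · push Not at hM
    obtain ⟨i, hi⟩ := hM
    have : Fintype.piFinset (fun i => Icc 1 (M i)) = ∅ := by
      rw [Fintype.piFinset_eq_empty]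
      exact ⟨i, by rw [Icc_eq_empty]; omega⟩
    rw [this, filter_empty, card_empty, Nat.cast_zero]
    have : 0 ≤ ∏ i, (M i : ℝ) := prod_nonneg fun _ _ => Nat.cast_nonneg _
    have : 0 ≤ Real.log x ^ U := by
      have : 0 ≤ Real.log x := by linarith
      positivity
    positivity

end Pool.Agent.Run7.h17.Pos
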