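import Mathlib
import Pool.Agent.Run7.h17.Pos

/-! The sequence of the primes as a sequence of positions. -/

set_option autoImplicit false
set_option maxHeartbeats 4000000

namespace Pool.Agent.Run7.h17.Pos

open Finset
open Pool.Agent.H373R2.T7 (ev_L' ev_log')

/-- the `t`-th prime -/
noncomputable def pn (t : ℕ) : ℕ := Nat.nth Nat.Prime (t - 1)

lemma pn_inj (x : ℕ) : Set.InjOn pn (Icc 1 x : Finset ℕ) := by
  intro a ha b hb hab
  rw [coe_Icc, Set.mem_Icc] at ha hb
  unfold pn at hab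
  have := Nat.nth_injective Nat.infinite_setOf_prime hab
  omega

lemma pn_bound : ∃ x0 : ℕ, ∀ x : ℕ, x0 ≤ x → ∀ t ∈ Icc 1 x, (pn t : ℝ) ≤ Real.log x ^ 2 * x := by
  obtain ⟨n1, h1⟩ := ev_L' 8
  obtain ⟨n2, h2⟩ := ev_log' 2 1
  refine ⟨n1 + n2 + 8, fun x hx t ht => ?_⟩
  have hL := h1 x (by omega)
  have h2' := h2 x (by omega)
  have hx8 : (8 : ℝ) ≤ x := by exact_mod_cast (by omega : 8 ≤ x)
  have hx0 : (0 : ℝ) < x := by linarith
  set L := Real.log x with hLd
  set y : ℕ := ⌊L ^ 2 * x⌋₊ with hy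
  have hy1 : (y : ℝ) ≤ L ^ 2 * x := Nat.floor_le (by positivity)
  have hy2 : L ^ 2 * x - 1 < y := by
    have := Nat.lt_floor_add_one (L ^ 2 * x)
    rw [← hy] at this
    linarith
  have hL64 : 64 ≤ L ^ 2 := by nlinarith
  have hy3 : (1 : ℝ) ≤ y := by nlinarith
  have hy4 : (y : ℝ) ≤ (x : ℝ) ^ 2 := by
    refine hy1.trans ?_
    have : L ^ 2 ≤ √x := by simpa using h2'
    have h3 : √(x : ℝ) ≤ x := by
      rw [Real.sqrt_le_left hx0.le]
      nlinarith
    nlinarith
  have hly : Real.log y ≤ 2 * L := by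
    have := Real.log_le_log (by linarith) hy4
    rw [Real.log_pow] at this
    exact_mod_cast this
  have hly1 : Real.log (y + 1) ≤ 2 * L + 1 := by
    have e1 : (y : ℝ) + 1 ≤ 2 * y := by linarith
    have e2 := Real.log_le_log (by linarith : (0 : ℝ) < y + 1) e1
    rw [Real.log_mul (by norm_num) (by linarith)] at e2
    have := Real.log_two_lt_d9
    linarith
  have e1 := Chebyshev.psi_ge y
  have e2 := Chebyshev.psi_le_primeCounting_mul_log y
  have hlog2 := Real.log_two_gt_d9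
  have hlx : L ≤ x := (Real.log_le_sub_one_of_pos hx0).trans (by linarith)
  have hpi : (x : ℝ) ≤ Nat.primeCounting y := by
    by_contra hcon
    push Not at hcon
    have e3 : (Nat.primeCounting y : ℝ) * Real.log y ≤ x * (2 * L) := by
      apply mul_le_mul hcon.le hly (Real.log_nonneg hy3) hx0.le
    have e4 : (L ^ 2 * x - 1) * 0.69 ≤ y * Real.log 2 := by
      have : (0.69 : ℝ) ≤ Real.log 2 := by linarith
      nlinarith
    have e5 : 8 * (L * x) ≤ L ^ 2 * x := by nlinarith [mul_pos (show (0:ℝ) < L by linarith) hx0]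
    nlinarith [mul_pos (show (0:ℝ) < L by linarith) hx0]
  rw [mem_Icc] at ht
  have hpi2 : x ≤ Nat.primeCounting y := by exact_mod_cast hpi
  have hlt : t - 1 < Nat.count Nat.Prime (y + 1) := by
    have : Nat.primeCounting y = Nat.count Nat.Prime (y + 1) := rfl
    omega
  have h5 := Nat.nth_lt_of_lt_count hlt
  unfold pn
  have h6 : Nat.nth Nat.Prime (t - 1) ≤ y := by omega
  exact (by exact_mod_cast h6 : ((Nat.nth Nat.Prime (t - 1) : ℕ) : ℝ) ≤ y).trans hy1

lemma card_le_of_inj (x : ℕ) (s : ℕ → ℤ) (hs : Set.InjOn s (Icc 1 x : Finset ℕ)) (c : ℤ) :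
    ((Icc 1 x).filter (fun t => s t = c)).card ≤ 1 := by
  rw [card_le_one]
  intro a ha b hb
  rw [mem_filter] at ha hb
  exact hs (by exact_mod_cast ha.1) (by exact_mod_cast hb.1) (ha.2.trans hb.2.symm)

end Pool.Agent.Run7.h17.Pos
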