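import Mathlib
import Pool.Agent.Run7.h17.ABS
import Pool.Agent.Run7.h17.PT2
import Pool.Agent.Run7.h223.LE1

/-! Products of values of the von Mangoldt function at `s i t + c i`, where the sequences `s i` have nearly minimal
additive energy, for almost all constant terms `c i`; all logarithms in terms of the length of the sequences. -/

set_option autoImplicit false
set_option maxHeartbeats 4000000

namespace Pool.Agent.Run7.h17.PT

open Finset Pool.Agent.H373R2.T7 Pool.Agent.H560R3.GB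

/-- one sequence -/
theorem dual_one (p B C U : ℕ) : ∃ B0 : ℕ, ∀ E : ℕ, ∃ N0 : ℕ, ∀ N : ℕ, N0 ≤ N → ∀ (x : ℕ) (s : ℕ → ℤ),
    (∀ m ∈ Icc 1 x, |s m| ≤ B * N) →
    (Pool.Agent.H373R2.T7.energy p x s : ℝ) * N ≤ Real.log N ^ C * (x : ℝ) ^ (2 * p) →
    ∀ H : ℕ, H ≤ B * N → ∀ z : ℕ, Real.log N ^ B0 ≤ z → (z : ℝ) ≤ Real.log N ^ E →
    ∀ K : ℝ, 0 < K → ∀ G : ℕ → ℝ, (∀ t ∈ Icc 1 x, |G t| ≤ K) →
    ∑ c ∈ Icc 1 H, |∑ t ∈ Icc 1 x, G t * (lamI (s t + (c : ℤ)) - lamzI z (s t + (c : ℤ)))| ≤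
      K * (N * x / Real.log N ^ U) := by
  obtain ⟨B0, hB0⟩ := lam_e p B C U
  refine ⟨B0, fun E => ?_⟩
  obtain ⟨N0, h0⟩ := hB0 E
  refine ⟨N0, fun N hN x s hs hE H hH z hz1 hz2 K hK G hG => ?_⟩
  set F : ℕ → ℝ := fun c => ∑ t ∈ Icc 1 x, G t * (lamI (s t + (c : ℤ)) - lamzI z (s t + (c : ℤ))) with hF
  set ε : ℕ → ℝ := fun c => if 0 ≤ F c then 1 else -1 with hε
  have hεF : ∀ c, |F c| = ε c * F c := by
    intro c
    rw [hε]
    simp only
    split_ifs with h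
    · rw [abs_of_nonneg h, one_mul]
    · rw [abs_of_neg (by linarith), neg_one_mul]
  have h1 := h0 N hN x s hs hE H hH z hz1 hz2 (fun c => (ε c : ℂ)) (fun c => by
    rw [hε]
    simp only
    split_ifs <;> simp)
  have h2 : ∑ c ∈ Icc 1 H, |F c| = ∑ t ∈ Icc 1 x, G t * ∑ c ∈ Icc 1 H, ε c * (lamI (s t + (c : ℤ)) - lamzI z (s t + (c : ℤ))) := by
    calc ∑ c ∈ Icc 1 H, |F c| = ∑ c ∈ Icc 1 H, ∑ t ∈ Icc 1 x, ε c * (G t * (lamI (s t + (c : ℤ)) - lamzI z (s t + (c : ℤ)))) := by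
          refine sum_congr rfl fun c _ => ?_
          rw [hεF, hF, mul_sum]
      _ = ∑ t ∈ Icc 1 x, ∑ c ∈ Icc 1 H, ε c * (G t * (lamI (s t + (c : ℤ)) - lamzI z (s t + (c : ℤ)))) := sum_comm
      _ = _ := by
          refine sum_congr rfl fun t _ => ?_
          rw [mul_sum]
          refine sum_congr rfl fun c _ => ?_
          ring
  rw [h2]
  calc ∑ t ∈ Icc 1 x, G t * ∑ c ∈ Icc 1 H, ε c * (lamI (s t + (c : ℤ)) - lamzI z (s t + (c : ℤ)))
      ≤ ∑ t ∈ Icc 1 x, K * |∑ c ∈ Icc 1 H, ε c * (lamI (s t + (c : ℤ)) - lamzI z (s t + (c : ℤ)))| := by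
        refine sum_le_sum fun t ht => ?_
        refine (le_abs_self _).trans ?_
        rw [abs_mul]
        exact mul_le_mul_of_nonneg_right (hG t ht) (abs_nonneg _)
    _ = K * ∑ t ∈ Icc 1 x, ‖∑ c ∈ Icc 1 H, (ε c : ℂ) * ((lamI ((c : ℤ) + s t) - lamzI z ((c : ℤ) + s t) : ℝ) : ℂ)‖ := by
        rw [mul_sum]
        refine sum_congr rfl fun t _ => ?_
        congr 1
        rw [← Real.norm_eq_abs, ← Complex.norm_real]
        congr 1
        push_cast
        refine sum_congr rfl fun c _ => ?_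
        rw [add_comm (s t) (c : ℤ)]
    _ ≤ K * (N * x / Real.log N ^ U) := mul_le_mul_of_nonneg_left h1 hK.le

/-- logarithms of powers -/
lemma log_cmp (B : ℕ) : ∃ x0 : ℕ, ∀ x : ℕ, x0 ≤ x → ∀ M : ℕ, x ≤ B * M → (M : ℝ) ≤ (x : ℝ) ^ B →
    Real.log x ≤ 2 * Real.log M ∧ Real.log M ≤ B * Real.log x ∧ 0 < M := by
  obtain ⟨n1, h1⟩ := ev_L' (2 * Real.log (B + 1) + 2)
  refine ⟨n1 + 2, fun x hx M hM hM2 => ?_⟩
  have hL := h1 x (by omega)
  have hx1 : (2 : ℝ) ≤ x := by exact_mod_cast (by omega : 2 ≤ x)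
  have hM0 : 0 < M := by
    rcases Nat.eq_zero_or_pos M with h | h
    · subst h
      simp at hM
      omega
    · exact h
  have hMr : (0 : ℝ) < M := by exact_mod_cast hM0
  have hlB : 0 ≤ Real.log (B + 1) := Real.log_nonneg (by
    have : (0 : ℝ) ≤ B := Nat.cast_nonneg _
    linarith)
  refine ⟨?_, ?_, hM0⟩
  · have e1 : (x : ℝ) ≤ (B + 1) * M := by
      have : (x : ℝ) ≤ B * M := by exact_mod_cast hM
      nlinarith
    have e2 : Real.log x ≤ Real.log (B + 1) + Real.log M := by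
      rw [← Real.log_mul (by positivity) hMr.ne']
      exact Real.log_le_log (by linarith) e1
    linarith
  · have := Real.log_le_log hMr hM2
    rwa [Real.log_pow] at this

/-- products -/
theorem dual_prod (k p B C U : ℕ) : ∃ B0 : ℕ, ∀ E : ℕ, ∃ x0 : ℕ, ∀ x : ℕ, x0 ≤ x → ∀ M : Fin k → ℕ,
    (∀ i, x ≤ B * M i ∧ (M i : ℝ) ≤ (x : ℝ) ^ B) → ∀ s : Fin k → ℕ → ℤ,
    (∀ i, ∀ t ∈ Icc 1 x, |s i t| ≤ B * M i) →
    (∀ i, (Pool.Agent.H373R2.T7.energy p x (s i) : ℝ) * M i ≤ Real.log x ^ C * (x : ℝ) ^ (2 * p)) →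
    ∀ z : ℕ, Real.log x ^ B0 ≤ z → (z : ℝ) ≤ Real.log x ^ E →
    (∀ c ∈ Fintype.piFinset (fun i => Icc 1 (M i)), ∀ t ∈ Icc 1 x,
      |∏ i, lamI (s i t + (c i : ℤ)) - ∏ i, lamzI z (s i t + (c i : ℤ))| ≤ Real.log x ^ (2 * k)) ∧
    ∀ A : ℕ, A ≤ x → ∀ G : ℕ → ℝ, (∀ t, |G t| ≤ 1) →
    ∑ c ∈ Fintype.piFinset (fun i => Icc 1 (M i)), |∑ t ∈ Icc 1 A, G t *
      (∏ i, lamI (s i t + (c i : ℤ)) - ∏ i, lamzI z (s i t + (c i : ℤ)))| ≤
      x * (∏ i, (M i : ℝ)) / Real.log x ^ U := by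
  classical
  set B₁ : ℕ := B + 1 with hB₁
  obtain ⟨B0, hB0⟩ := dual_one p B₁ (C + 1) (U + 2 * k + 2)
  refine ⟨B0 + 1, fun E => ?_⟩
  obtain ⟨n1, h1⟩ := hB0 (E + 1)
  obtain ⟨n2, h2⟩ := log_cmp B
  obtain ⟨n3, h3⟩ := Vz_inv_small (E + 1)
  obtain ⟨n4, h4⟩ := ev_L' (2 * ((B : ℝ) + 1) ^ (B0 + 1) + 2 ^ (E + C + U + 2 * k + 4) + Real.log (2 * B + 2) + k + 2)
  refine ⟨(B + 1) * (n1 + n3 + 1) + n2 + n4 + 3, fun x hx M hM s hs hE z hz1 hz2 => ?_⟩
  have hL4 := h4 x (by omega)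
  obtain ⟨Lx, hLx⟩ : ∃ Lx, Lx = Real.log x := ⟨_, rfl⟩
  rw [← hLx] at hL4 hz1 hz2 hE ⊢
  have hBr : (0 : ℝ) ≤ B := Nat.cast_nonneg _
  have hkr : (0 : ℝ) ≤ k := Nat.cast_nonneg _
  have hx1 : (1 : ℝ) ≤ x := by exact_mod_cast (by omega : 1 ≤ x)
  have hx0 : (0 : ℝ) < x := by linarith
  have hp1 : (1 : ℝ) ≤ ((B : ℝ) + 1) ^ (B0 + 1) := one_le_pow₀ (by linarith)
  have hp2 : (0 : ℝ) < 2 ^ (E + C + U + 2 * k + 4) := by positivity
  have hlB : 0 ≤ Real.log (2 * B + 2) := Real.log_nonneg (by linarith)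
  have hL1 : 1 ≤ Lx := by linarith
  have hL0 : 0 < Lx := by linarith
  have hLk : (k : ℝ) ≤ Lx := by linarith
  -- the moduli
  have hcm : ∀ i, Lx ≤ 2 * Real.log (M i) ∧ Real.log (M i) ≤ B * Lx ∧ 0 < M i := fun i => by
    rw [hLx]
    exact h2 x (by omega) (M i) (hM i).1 (hM i).2
  have hMn : ∀ i, n1 + n3 + 1 ≤ M i := by
    intro i
    by_contra hcon
    have e1 : M i ≤ n1 + n3 + 1 := by omega
    have e2 := (hM i).1
    have e3 : B * M i ≤ B * (n1 + n3 + 1) := Nat.mul_le_mul_left _ e1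
    have e4 : (B + 1) * (n1 + n3 + 1) = B * (n1 + n3 + 1) + (n1 + n3 + 1) := by ring
    omega
  have hM0r : ∀ i, (0 : ℝ) < M i := fun i => by exact_mod_cast (hcm i).2.2
  have hlM0 : ∀ i, 0 < Real.log (M i) := fun i => by
    have := (hcm i).1
    linarith
  have hlM1 : ∀ i, 1 ≤ Real.log (M i) := fun i => by
    have := (hcm i).1
    have : (2 : ℝ) ≤ 2 ^ (E + C + U + 2 * k + 4) := by
      calc (2 : ℝ) = 2 ^ 1 := by norm_num
        _ ≤ _ := pow_le_pow_right₀ (by norm_num) (by omega)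
    linarith
  have hz : 1 ≤ z := by
    have : (1 : ℝ) ≤ z := (one_le_pow₀ hL1).trans hz1
    exact_mod_cast this
  -- conversions
  have hzlow : ∀ i, Real.log (M i) ^ B0 ≤ z := by
    intro i
    refine le_trans ?_ hz1
    calc Real.log (M i) ^ B0 ≤ (B * Lx) ^ B0 := pow_le_pow_left₀ (hlM0 i).le (hcm i).2.1 _
      _ = (B : ℝ) ^ B0 * Lx ^ B0 := mul_pow _ _ _
      _ ≤ Lx * Lx ^ B0 := by
          apply mul_le_mul_of_nonneg_right _ (by positivity)
          have e1 : (B : ℝ) ^ B0 ≤ ((B : ℝ) + 1) ^ (B0 + 1) := by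
            calc (B : ℝ) ^ B0 ≤ ((B : ℝ) + 1) ^ B0 := pow_le_pow_left₀ hBr (by linarith) _
              _ ≤ _ := pow_le_pow_right₀ (by linarith) (by omega)
          linarith
      _ = Lx ^ (B0 + 1) := by ring
  have h2pow : ∀ n : ℕ, n ≤ E + C + U + 2 * k + 4 → (2 : ℝ) ^ n ≤ Lx / 1 := by
    intro n hn
    have : (2 : ℝ) ^ n ≤ 2 ^ (E + C + U + 2 * k + 4) := pow_le_pow_right₀ (by norm_num) hn
    rw [div_one]
    linarith
  have hzup : ∀ i, (z : ℝ) ≤ Real.log (M i) ^ (E + 1) := by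
    intro i
    refine hz2.trans ?_
    calc Lx ^ E ≤ (2 * Real.log (M i)) ^ E := pow_le_pow_left₀ hL0.le (hcm i).1 _
      _ = 2 ^ E * Real.log (M i) ^ E := mul_pow _ _ _
      _ ≤ Real.log (M i) * Real.log (M i) ^ E := by
          apply mul_le_mul_of_nonneg_right _ (by have := hlM0 i; positivity)
          have e1 : (2 : ℝ) ^ (E + 1) ≤ Lx := by
            have := h2pow (E + 1) (by omega)
            rwa [div_one] at this
          have e2 := (hcm i).1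
          rw [pow_succ] at e1
          linarith
      _ = _ := by ring
  have hEi : ∀ i, (Pool.Agent.H373R2.T7.energy p x (s i) : ℝ) * M i ≤ Real.log (M i) ^ (C + 1) * (x : ℝ) ^ (2 * p) := by
    intro i
    refine (hE i).trans (mul_le_mul_of_nonneg_right ?_ (by positivity))
    calc Lx ^ C ≤ (2 * Real.log (M i)) ^ C := pow_le_pow_left₀ hL0.le (hcm i).1 _
      _ = 2 ^ C * Real.log (M i) ^ C := mul_pow _ _ _
      _ ≤ Real.log (M i) * Real.log (M i) ^ C := by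
          apply mul_le_mul_of_nonneg_right _ (by have := hlM0 i; positivity)
          have e1 : (2 : ℝ) ^ (C + 1) ≤ Lx := by
            have := h2pow (C + 1) (by omega)
            rwa [div_one] at this
          have e2 := (hcm i).1
          rw [pow_succ] at e1
          linarith
      _ = _ := by ring
  -- bounds
  have hVi : k ≠ 0 → (Vz z)⁻¹ ≤ B * Lx := by
    intro hk
    have i0 : Fin k := ⟨0, Nat.pos_of_ne_zero hk⟩
    exact (h3 (M i0) (by have := hMn i0; omega) z hz (hzup i0)).trans (hcm i0).2.1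
  set Λ : ℝ := ((B : ℝ) + 1) * Lx with hΛ
  have hΛ1 : 1 ≤ Λ := by rw [hΛ]; nlinarith
  have hΛ2 : Λ ≤ Lx ^ 2 := by
    rw [hΛ, sq]
    apply mul_le_mul_of_nonneg_right _ hL0.le
    have e1 : (B : ℝ) + 1 ≤ ((B : ℝ) + 1) ^ (B0 + 1) := by
      calc (B : ℝ) + 1 = ((B : ℝ) + 1) ^ 1 := (pow_one _).symm
        _ ≤ _ := pow_le_pow_right₀ (by linarith) (by omega)
    linarith
  have hlam : ∀ i, ∀ t ∈ Icc 1 x, ∀ v ∈ Icc 1 (M i), lamI (s i t + (v : ℤ)) ≤ Λ := by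
    intro i t ht v hv
    rw [mem_Icc] at hv
    have e1 := hs i t ht
    have e2 : s i t + (v : ℤ) ≤ (B + 1) * M i := by
      have e3 := le_abs_self (s i t)
      have e4 : (v : ℤ) ≤ M i := by exact_mod_cast hv.2
      linarith
    have e5 : ((s i t + (v : ℤ) : ℤ) : ℝ) ≤ (B + 1) * M i := by exact_mod_cast e2
    have hM1 : (1 : ℝ) ≤ M i := by exact_mod_cast (hcm i).2.2
    refine (lamI_le _ ((B + 1) * M i) (by nlinarith) e5).trans ?_
    rw [Real.log_mul (by linarith) (hM0r i).ne', hΛ]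
    have e6 : Real.log ((B : ℝ) + 1) ≤ Real.log (2 * B + 2) := Real.log_le_log (by linarith) (by linarith)
    have e7 := (hcm i).2.1
    linarith
  have hlamz : ∀ i : Fin k, ∀ w : ℤ, lamzI z w ≤ Λ := by
    intro i w
    refine (lamzI_le z w).trans ((hVi (by
      rintro rfl
      exact i.elim0)).trans ?_)
    rw [hΛ]
    nlinarith
  have hDb : ∀ c ∈ Fintype.piFinset (fun i => Icc 1 (M i)), ∀ t ∈ Icc 1 x,
      |∏ i, lamI (s i t + (c i : ℤ)) - ∏ i, lamzI z (s i t + (c i : ℤ))| ≤ Lx ^ (2 * k) := by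
    intro c hc t ht
    rw [Fintype.mem_piFinset] at hc
    have p1 : 0 ≤ ∏ i, lamI (s i t + (c i : ℤ)) := prod_nonneg fun _ _ => lamI_nonneg _
    have p2 : 0 ≤ ∏ i, lamzI z (s i t + (c i : ℤ)) := prod_nonneg fun _ _ => lamzI_nonneg _ _
    have hΛk : Λ ^ k ≤ Lx ^ (2 * k) := by
      rw [pow_mul]
      exact pow_le_pow_left₀ (by linarith) hΛ2 k
    have p3 : ∏ i, lamI (s i t + (c i : ℤ)) ≤ Λ ^ k := by
      calc ∏ i, lamI (s i t + (c i : ℤ)) ≤ ∏ _i : Fin k, Λ :=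
            prod_le_prod (fun _ _ => lamI_nonneg _) fun i _ => hlam i t ht (c i) (hc i)
        _ = _ := by rw [prod_const, card_univ, Fintype.card_fin]
    have p4 : ∏ i, lamzI z (s i t + (c i : ℤ)) ≤ Λ ^ k := by
      calc ∏ i, lamzI z (s i t + (c i : ℤ)) ≤ ∏ _i : Fin k, Λ :=
            prod_le_prod (fun _ _ => lamzI_nonneg _ _) fun i _ => hlamz i _
        _ = _ := by rw [prod_const, card_univ, Fintype.card_fin]
    rw [abs_le]
    constructor <;> linarith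
  refine ⟨hDb, fun A hA G hG => ?_⟩
  -- extension by zero
  set G' : ℕ → ℝ := fun t => if t ≤ A then G t else 0 with hG'
  have hext : ∀ f : ℕ → ℝ, ∑ t ∈ Icc 1 A, G t * f t = ∑ t ∈ Icc 1 x, G' t * f t := by
    intro f
    have e1 : Icc 1 A = (Icc 1 x).filter (fun t => t ≤ A) := by
      ext t
      rw [mem_filter, mem_Icc, mem_Icc]
      omega
    rw [e1, sum_filter]
    refine sum_congr rfl fun t _ => ?_
    rw [hG']
    simp only
    split_ifs
    · rfl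
    · rw [zero_mul]
  have hG'1 : ∀ t, |G' t| ≤ 1 := by
    intro t
    rw [hG']
    simp only
    split_ifs
    · exact hG t
    · simp
  have key := tele x M (fun i => (hcm i).2.2) (fun i t v => lamI (s i t + (v : ℤ)))
    (fun i t v => lamzI z (s i t + (v : ℤ))) Λ (x / Lx ^ (U + 2 * k + 1)) hΛ1 (by positivity) (by
      intro i t ht v hv
      rw [abs_of_nonneg (lamI_nonneg _)]
      exact hlam i t ht v hv) (by
      intro i t ht v hv
      rw [abs_of_nonneg (lamzI_nonneg _ _)]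
      exact hlamz i _) (by
      intro i K hK H hH
      have e1 := h1 (M i) (by have := hMn i; omega) x (s i) (fun m hm => by
        refine (hs i m hm).trans ?_
        have : (0 : ℤ) ≤ M i := Int.natCast_nonneg _
        rw [hB₁]
        push_cast
        nlinarith) (hEi i) (M i) (Nat.le_mul_of_pos_left _ (Nat.succ_pos _)) z (hzlow i) (hzup i) K hK H hH
      refine e1.trans (mul_le_mul_of_nonneg_left ?_ hK.le)
      have e2 : Lx ^ (U + 2 * k + 1) ≤ Real.log (M i) ^ (U + 2 * k + 2) := by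
        calc Lx ^ (U + 2 * k + 1) ≤ (2 * Real.log (M i)) ^ (U + 2 * k + 1) := pow_le_pow_left₀ hL0.le (hcm i).1 _
          _ = 2 ^ (U + 2 * k + 1) * Real.log (M i) ^ (U + 2 * k + 1) := mul_pow _ _ _
          _ ≤ Real.log (M i) * Real.log (M i) ^ (U + 2 * k + 1) := by
              apply mul_le_mul_of_nonneg_right _ (by have := hlM0 i; positivity)
              have e1 : (2 : ℝ) ^ (U + 2 * k + 1 + 1) ≤ Lx := by
                have := h2pow (U + 2 * k + 1 + 1) (by omega)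
                rwa [div_one] at this
              have e2 := (hcm i).1
              rw [pow_succ] at e1
              linarith
          _ = _ := by ring
      calc (M i : ℝ) * x / Real.log (M i) ^ (U + 2 * k + 2) ≤ (M i : ℝ) * x / Lx ^ (U + 2 * k + 1) := by
            apply div_le_div_of_nonneg_left (by have := hM0r i; positivity) (by positivity) e2
        _ = _ := by ring)
    univ 1 one_pos (fun t _ => G' t) (fun t _ m _ => hG'1 t) (fun n m v i _ => rfl)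
  have e0 : ∀ c : Fin k → ℕ, |∑ t ∈ Icc 1 A, G t * (∏ i, lamI (s i t + (c i : ℤ)) - ∏ i, lamzI z (s i t + (c i : ℤ)))| =
      |∑ t ∈ Icc 1 x, G' t * (∏ i, lamI (s i t + (c i : ℤ)) - ∏ i, lamzI z (s i t + (c i : ℤ)))| := by
    intro c
    rw [hext]
  rw [sum_congr rfl fun c _ => e0 c]
  refine key.trans ?_
  rw [card_univ, Fintype.card_fin]
  have hprod : 0 ≤ ∏ i, (M i : ℝ) := prod_nonneg fun _ _ => Nat.cast_nonneg _
  have hΛk : Λ ^ k ≤ Lx ^ (2 * k) := by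
    rw [pow_mul]
    exact pow_le_pow_left₀ (by linarith) hΛ2 k
  calc (k : ℝ) * (1 * Λ ^ k * (x / Lx ^ (U + 2 * k + 1))) * ∏ i, (M i : ℝ)
      ≤ (k : ℝ) * (1 * Lx ^ (2 * k) * (x / Lx ^ (U + 2 * k + 1))) * ∏ i, (M i : ℝ) := by gcongr
    _ = ((k : ℝ) / Lx) * (x * (∏ i, (M i : ℝ)) / Lx ^ U) := by
        rw [show U + 2 * k + 1 = U + (2 * k) + 1 by ring, pow_succ, pow_add]
        field_simp
    _ ≤ 1 * (x * (∏ i, (M i : ℝ)) / Lx ^ U) := by
        apply mul_le_mul_of_nonneg_right _ (by positivity)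
        rw [div_le_one hL0]
        exact hLk
    _ = _ := one_mul _

end Pool.Agent.Run7.h17.PT
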