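import Mathlib
import Pool.Agent.Run7.h17.Dual
import Pool.Agent.TH823.Fam.Fam2

/-! Prime values of polynomials in almost all classes of almost all moduli, for almost all constant terms. -/

set_option autoImplicit false
set_option maxHeartbeats 4000000

namespace Pool.Agent.Run7.h17.PB

open Finset Polynomial
open Pool.Agent.H373R2.T7 (energy ev_L' lamI lamzI)
open Pool.Agent.TH823.Fam (energy_poly' poly_size)
open Run7.h223.LE (energy_mono)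

/-- the product minus its model -/
noncomputable def pd {k : ℕ} (z : ℕ) (s : Fin k → ℕ → ℤ) (c : Fin k → ℕ) (t : ℕ) : ℝ :=
  ∏ i, lamI (s i t + (c i : ℤ)) - ∏ i, lamzI z (s i t + (c i : ℤ))

/-- one order of the energy for finitely many polynomials -/
lemma energy_polys (k : ℕ) (F : Fin k → ℤ[X]) (hF : ∀ i, 1 ≤ (F i).natDegree) : ∃ p : ℕ, ∃ C : ℝ, 0 < C ∧
    ∀ x : ℕ, 1 ≤ x → ∀ (i : Fin k) (a : ℤ),
      (energy p x (fun m => a + (F i).eval (m : ℤ)) : ℝ) * (x : ℝ) ^ (F i).natDegree ≤ C * (x : ℝ) ^ (2 * p) := by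
  choose p C hC h using fun i => energy_poly' (F i) (hF i)
  refine ⟨∑ i, p i, ∑ i, C i + 1, by
    have := sum_nonneg (s := univ) (f := C) fun i _ => (hC i).le
    linarith, fun x hx i a => ?_⟩
  have hp : p i ≤ ∑ i, p i := single_le_sum (f := p) (fun _ _ => Nat.zero_le _) (mem_univ i)
  have hCi : C i ≤ ∑ i, C i + 1 := by
    have := single_le_sum (f := C) (fun i _ => (hC i).le) (mem_univ i)
    linarith
  have h1 := energy_mono (p i) (∑ i, p i) x hp (fun m => a + (F i).eval (m : ℤ))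
  have h2 := h i x hx a
  have hx0 : (0 : ℝ) < x := by exact_mod_cast hx
  calc (energy (∑ i, p i) x (fun m => a + (F i).eval (m : ℤ)) : ℝ) * (x : ℝ) ^ (F i).natDegree
      ≤ ((x : ℝ) ^ (2 * (∑ i, p i - p i)) * energy (p i) x (fun m => a + (F i).eval (m : ℤ))) * (x : ℝ) ^ (F i).natDegree :=
        mul_le_mul_of_nonneg_right h1 (by positivity)
    _ = (x : ℝ) ^ (2 * (∑ i, p i - p i)) * (energy (p i) x (fun m => a + (F i).eval (m : ℤ)) * (x : ℝ) ^ (F i).natDegree) := by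
        ring
    _ ≤ (x : ℝ) ^ (2 * (∑ i, p i - p i)) * (C i * (x : ℝ) ^ (2 * p i)) := mul_le_mul_of_nonneg_left h2 (by positivity)
    _ = C i * (x : ℝ) ^ (2 * ∑ i, p i) := by
        rw [mul_comm, mul_assoc, ← pow_add]
        congr 2
        omega
    _ ≤ _ := mul_le_mul_of_nonneg_right hCi (by positivity)

/-- the hypotheses of the duality theorem for polynomials -/
theorem poly_dual (k : ℕ) (F : Fin k → ℤ[X]) (hF : ∀ i, 1 ≤ (F i).natDegree) (B U : ℕ) :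
    ∃ B0 : ℕ, ∀ E : ℕ, ∃ x0 : ℕ, ∀ x : ℕ, x0 ≤ x → ∀ M : Fin k → ℕ,
    (∀ i, x ^ (F i).natDegree ≤ B * M i ∧ M i ≤ B * x ^ (F i).natDegree) → ∀ a : Fin k → ℤ, (∀ i, |a i| ≤ B * M i) →
    ∀ z : ℕ, Real.log x ^ B0 ≤ z → (z : ℝ) ≤ Real.log x ^ E →
    (∀ c ∈ Fintype.piFinset (fun i => Icc 1 (M i)), ∀ t ∈ Icc 1 x,
      |pd z (fun i t => a i + (F i).eval (t : ℤ)) c t| ≤ Real.log x ^ (2 * k)) ∧
    ∀ A : ℕ, A ≤ x → ∀ G : ℕ → ℝ, (∀ t, |G t| ≤ 1) →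
    ∑ c ∈ Fintype.piFinset (fun i => Icc 1 (M i)), |∑ t ∈ Icc 1 A, G t *
      pd z (fun i t => a i + (F i).eval (t : ℤ)) c t| ≤ x * (∏ i, (M i : ℝ)) / Real.log x ^ U := by
  obtain ⟨p, C, hC, hE⟩ := energy_polys k F hF
  choose A hA using fun i => poly_size (F i)
  set D : ℕ := ∑ i, (F i).natDegree with hD
  set B' : ℕ := B + (∑ i, A i) * B + D + 1 with hB'
  obtain ⟨B0, hB0⟩ := Pool.Agent.Run7.h17.PT.dual_prod k p B' 1 U
  refine ⟨B0, fun E => ?_⟩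
  obtain ⟨n1, h1⟩ := hB0 E
  obtain ⟨n2, h2⟩ := ev_L' (B * C + 1)
  refine ⟨n1 + n2 + B + 2, fun x hx M hM a ha z hz1 hz2 => ?_⟩
  have hx1 : 1 ≤ x := by omega
  have hx0 : (0 : ℝ) < x := by exact_mod_cast hx1
  have hxr : (1 : ℝ) ≤ x := by exact_mod_cast hx1
  have hdeg : ∀ i, (F i).natDegree ≤ D := fun i =>
    single_le_sum (f := fun i => (F i).natDegree) (fun _ _ => Nat.zero_le _) (mem_univ i)
  have hAi : ∀ i, A i ≤ ∑ i, A i := fun i => single_le_sum (f := A) (fun _ _ => Nat.zero_le _) (mem_univ i)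
  refine h1 x (by omega) M (fun i => ⟨?_, ?_⟩) (fun i t => a i + (F i).eval (t : ℤ)) (fun i t ht => ?_) (fun i => ?_) z hz1 hz2
  · calc x ≤ x ^ (F i).natDegree := Nat.le_self_pow (by have := hF i; omega) x
      _ ≤ B * M i := (hM i).1
      _ ≤ B' * M i := Nat.mul_le_mul_right _ (by omega)
  · have e1 : (M i : ℝ) ≤ B * (x : ℝ) ^ (F i).natDegree := by exact_mod_cast (hM i).2
    calc (M i : ℝ) ≤ B * (x : ℝ) ^ (F i).natDegree := e1
      _ ≤ x * (x : ℝ) ^ (F i).natDegree := by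
          apply mul_le_mul_of_nonneg_right _ (by positivity)
          exact_mod_cast (by omega : B ≤ x)
      _ = (x : ℝ) ^ ((F i).natDegree + 1) := by ring
      _ ≤ (x : ℝ) ^ B' := pow_le_pow_right₀ hxr (by have := hdeg i; omega)
  · have e1 := hA i x hx1 t ht
    have e2 := (hM i).1
    have e3 : |a i + (F i).eval (t : ℤ)| ≤ |a i| + |(F i).eval (t : ℤ)| := abs_add_le _ _
    have e4 : ((x : ℤ)) ^ (F i).natDegree ≤ B * M i := by exact_mod_cast e2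
    have e5 : (A i : ℤ) * (x : ℤ) ^ (F i).natDegree ≤ (∑ i, A i : ℕ) * (B * M i) := by
      have e6 : (A i : ℤ) ≤ (∑ i, A i : ℕ) := by exact_mod_cast hAi i
      exact mul_le_mul e6 e4 (by positivity) (by positivity)
    have e7 := ha i
    have e8 : (0 : ℤ) ≤ M i := Int.natCast_nonneg _
    have e9 : (0 : ℤ) ≤ D := Int.natCast_nonneg _
    calc |a i + (F i).eval (t : ℤ)| ≤ B * M i + (∑ i, A i : ℕ) * (B * M i) := by linarith
      _ = (B + (∑ i, A i : ℕ) * B) * M i := by ring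
      _ ≤ B' * M i := by
          apply mul_le_mul_of_nonneg_right _ e8
          rw [hB']
          push_cast
          linarith
  · have e1 := hE x hx1 i (a i)
    have e2 : (M i : ℝ) ≤ B * (x : ℝ) ^ (F i).natDegree := by exact_mod_cast (hM i).2
    have hlog := h2 x (by omega)
    have hB0r : (0 : ℝ) ≤ B := Nat.cast_nonneg _
    calc (energy p x (fun t => a i + (F i).eval (t : ℤ)) : ℝ) * M i
        ≤ (energy p x (fun t => a i + (F i).eval (t : ℤ)) : ℝ) * (B * (x : ℝ) ^ (F i).natDegree) :=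
          mul_le_mul_of_nonneg_left e2 (Nat.cast_nonneg _)
      _ = B * ((energy p x (fun t => a i + (F i).eval (t : ℤ)) : ℝ) * (x : ℝ) ^ (F i).natDegree) := by ring
      _ ≤ B * (C * (x : ℝ) ^ (2 * p)) := mul_le_mul_of_nonneg_left e1 hB0r
      _ = (B * C) * (x : ℝ) ^ (2 * p) := by ring
      _ ≤ Real.log x ^ 1 * (x : ℝ) ^ (2 * p) := by
          apply mul_le_mul_of_nonneg_right _ (by positivity)
          rw [pow_one]
          linarith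

open Classical in
theorem poly_bdh (k : ℕ) (F : Fin k → ℤ[X]) (hF : ∀ i, 1 ≤ (F i).natDegree) (B κ U : ℕ) :
    ∃ c B0 : ℕ, ∀ E : ℕ, ∃ x0 : ℕ, ∀ x : ℕ, x0 ≤ x → ∀ M : Fin k → ℕ,
    (∀ i, x ^ (F i).natDegree ≤ B * M i ∧ M i ≤ B * x ^ (F i).natDegree) → ∀ a : Fin k → ℤ, (∀ i, |a i| ≤ B * M i) →
    ∀ z : ℕ, Real.log x ^ B0 ≤ z → (z : ℝ) ≤ Real.log x ^ E →
    ∀ L : ℕ, (L : ℝ) ≤ Real.log x ^ κ → ∀ θ : Fin L → ℕ → ℝ, (∀ l, ∀ t ∈ Icc 1 x, |θ l t| ≤ Real.log x ^ κ) →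
    (((Fintype.piFinset (fun i => Icc 1 (M i))).filter (fun m : Fin k → ℕ => ¬ ∀ l, ∀ Q : ℕ,
      Q * Real.log x ^ c ≤ x → ∀ Y : ℕ → ℕ → ℕ, (∀ q b, Y q b ≤ x) →
      ∑ q ∈ Icc 1 Q, ∑ b ∈ range q, |∑ t ∈ Icc 1 (Y q b), if t % q = b then
        θ l t * pd z (fun i t => a i + (F i).eval (t : ℤ)) m t else 0| ≤ Q * x / Real.log x ^ U)).card : ℝ) ≤
      (∏ i, (M i : ℝ)) / Real.log x ^ U := by
  obtain ⟨c, U', n1, h1⟩ := ABS.bdh (2 * k + κ) U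
  obtain ⟨B0, hB0⟩ := poly_dual k F hF B U'
  refine ⟨c, B0, fun E => ?_⟩
  obtain ⟨n2, h2⟩ := hB0 E
  obtain ⟨n3, h3⟩ := ev_L' 2
  refine ⟨n1 + n2 + n3, fun x hx M hM a ha z hz1 hz2 L hL θ hθ => ?_⟩
  have hlog := h3 x (by omega)
  obtain ⟨e1, e2⟩ := h2 x (by omega) M hM a ha z hz1 hz2
  have hm1 : Real.log x ^ (2 * k) ≤ Real.log x ^ (2 * k + κ) := pow_le_pow_right₀ (by linarith) (by omega)
  have hm2 : Real.log x ^ κ ≤ Real.log x ^ (2 * k + κ) := pow_le_pow_right₀ (by linarith) (by omega)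
  exact h1 x (by omega) x (by
    have : (0 : ℝ) ≤ x := Nat.cast_nonneg _
    nlinarith) (Fintype.piFinset (fun i => Icc 1 (M i)))
    (fun m t => pd z (fun i t => a i + (F i).eval (t : ℤ)) m t) (∏ i, (M i : ℝ)) (prod_nonneg fun _ _ => Nat.cast_nonneg _)
    (fun m hm t ht => (e1 m hm t ht).trans hm1) e2 L (hL.trans hm2) θ (fun l t ht => (hθ l t ht).trans hm2)

open Classical in
theorem poly_copr (k : ℕ) (F : Fin k → ℤ[X]) (hF : ∀ i, 1 ≤ (F i).natDegree) (B κ U : ℕ) :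
    ∃ c B0 : ℕ, ∀ E : ℕ, ∃ x0 : ℕ, ∀ x : ℕ, x0 ≤ x → ∀ M : Fin k → ℕ,
    (∀ i, x ^ (F i).natDegree ≤ B * M i ∧ M i ≤ B * x ^ (F i).natDegree) → ∀ a : Fin k → ℤ, (∀ i, |a i| ≤ B * M i) →
    ∀ z : ℕ, Real.log x ^ B0 ≤ z → (z : ℝ) ≤ Real.log x ^ E →
    ∀ L : ℕ, (L : ℝ) ≤ Real.log x ^ κ → ∀ θ : Fin L → ℕ → ℝ, (∀ l, ∀ t ∈ Icc 1 x, |θ l t| ≤ Real.log x ^ κ) →
    (((Fintype.piFinset (fun i => Icc 1 (M i))).filter (fun m : Fin k → ℕ => ¬ ∀ l, ∀ Q : ℕ,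
      Q * Real.log x ^ c ≤ x → ∀ Mo : Finset ℕ, (∀ q ∈ Mo, 1 ≤ q ∧ q ≤ Q) →
      (∀ q ∈ Mo, ∀ q' ∈ Mo, q ≠ q' → Nat.Coprime q q') →
      (∀ q ∈ Mo, ∃ Y : ℕ → ℕ, (∀ b, Y b ≤ x) ∧ x / Real.log x ^ U < ∑ b ∈ range q,
        |∑ t ∈ Icc 1 (Y b), if t % q = b then θ l t * pd z (fun i t => a i + (F i).eval (t : ℤ)) m t else 0|) →
      (Mo.card : ℝ) ≤ Real.log x ^ c * (1 + (Q : ℝ) ^ 2 / x))).card : ℝ) ≤
      (∏ i, (M i : ℝ)) / Real.log x ^ U := by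
  obtain ⟨c, U', n1, h1⟩ := ABS.copr (2 * k + κ) U
  obtain ⟨B0, hB0⟩ := poly_dual k F hF B U'
  refine ⟨c, B0, fun E => ?_⟩
  obtain ⟨n2, h2⟩ := hB0 E
  obtain ⟨n3, h3⟩ := ev_L' 2
  refine ⟨n1 + n2 + n3, fun x hx M hM a ha z hz1 hz2 L hL θ hθ => ?_⟩
  have hlog := h3 x (by omega)
  obtain ⟨e1, e2⟩ := h2 x (by omega) M hM a ha z hz1 hz2
  have hm1 : Real.log x ^ (2 * k) ≤ Real.log x ^ (2 * k + κ) := pow_le_pow_right₀ (by linarith) (by omega)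
  have hm2 : Real.log x ^ κ ≤ Real.log x ^ (2 * k + κ) := pow_le_pow_right₀ (by linarith) (by omega)
  exact h1 x (by omega) x (by
    have : (0 : ℝ) ≤ x := Nat.cast_nonneg _
    nlinarith) (Fintype.piFinset (fun i => Icc 1 (M i)))
    (fun m t => pd z (fun i t => a i + (F i).eval (t : ℤ)) m t) (∏ i, (M i : ℝ)) (prod_nonneg fun _ _ => Nat.cast_nonneg _)
    (fun m hm t ht => (e1 m hm t ht).trans hm1) e2 L (hL.trans hm2) θ (fun l t ht => (hθ l t ht).trans hm2)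

end Pool.Agent.Run7.h17.PB
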