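import Mathlib
import Pool.Agent.Run7.h17.ABS2

/-! Ternary additive problems: from estimates with arbitrary weights on average over parameters to asymptotic formulas
for all integers `n`, for almost all values of the parameters. -/

set_option autoImplicit false
set_option maxHeartbeats 4000000

namespace Pool.Agent.Run7.h17.Tern

open Finset
open Pool.Agent.H373R2.T7 (ev_L' ev_log')

/-- the weighted number of solutions of `a n₁ + b n₂ + c n₃ = n` -/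
noncomputable def rep (x : ℕ) (a b c : ℤ) (f g h : ℕ → ℝ) (n : ℤ) : ℝ :=
  ∑ n₁ ∈ Icc 1 x, ∑ n₂ ∈ Icc 1 x, ∑ n₃ ∈ Icc 1 x,
    if a * n₁ + b * n₂ + c * n₃ = n then f n₁ * g n₂ * h n₃ else 0

/-- the binary convolution -/
noncomputable def conv (x : ℕ) (a b : ℤ) (f g : ℕ → ℝ) (n : ℤ) : ℝ :=
  ∑ n₁ ∈ Icc 1 x, f n₁ * ∑ n₂ ∈ Icc 1 x, if a * n₁ + b * n₂ = n then g n₂ else 0

lemma rep_eq (x : ℕ) (a b c : ℤ) (f g h : ℕ → ℝ) (n : ℤ) :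
    rep x a b c f g h n = ∑ n₃ ∈ Icc 1 x, h n₃ * conv x a b f g (n - c * n₃) := by
  unfold rep conv
  have e1 : ∀ n₁ ∈ Icc 1 x, (∑ n₂ ∈ Icc 1 x, ∑ n₃ ∈ Icc 1 x,
      if a * (n₁ : ℤ) + b * (n₂ : ℤ) + c * (n₃ : ℤ) = n then f n₁ * g n₂ * h n₃ else 0) =
      ∑ n₃ ∈ Icc 1 x, ∑ n₂ ∈ Icc 1 x,
      if a * (n₁ : ℤ) + b * (n₂ : ℤ) + c * (n₃ : ℤ) = n then f n₁ * g n₂ * h n₃ else 0 := fun n₁ _ => sum_comm
  rw [sum_congr rfl e1, sum_comm]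
  refine sum_congr rfl fun n₃ _ => ?_
  rw [mul_sum]
  refine sum_congr rfl fun n₁ _ => ?_
  rw [mul_sum, mul_sum]
  refine sum_congr rfl fun n₂ _ => ?_
  by_cases hc : a * (n₁ : ℤ) + b * (n₂ : ℤ) + c * (n₃ : ℤ) = n
  · rw [if_pos hc, if_pos (by linarith)]
    ring
  · rw [if_neg hc, if_neg (fun h => hc (by linarith))]
    ring

lemma inner_le (x : ℕ) (a b : ℤ) (hb : b ≠ 0) (g : ℕ → ℝ) (K : ℝ) (hK : 0 ≤ K) (hg : ∀ t ∈ Icc 1 x, |g t| ≤ K)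
    (n₁ : ℕ) (n : ℤ) : |∑ n₂ ∈ Icc 1 x, if a * (n₁ : ℤ) + b * (n₂ : ℤ) = n then g n₂ else 0| ≤ K := by
  rw [← sum_filter]
  have hcard : ((Icc 1 x).filter (fun n₂ : ℕ => a * (n₁ : ℤ) + b * (n₂ : ℤ) = n)).card ≤ 1 := by
    rw [card_le_one]
    intro u hu v hv
    rw [mem_filter] at hu hv
    have : b * (u : ℤ) = b * (v : ℤ) := by linarith [hu.2, hv.2]
    have := mul_left_cancel₀ hb this
    exact_mod_cast this
  refine (abs_sum_le_sum_abs _ _).trans ?_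
  calc ∑ n₂ ∈ (Icc 1 x).filter (fun n₂ : ℕ => a * (n₁ : ℤ) + b * (n₂ : ℤ) = n), |g n₂|
      ≤ ∑ _n₂ ∈ (Icc 1 x).filter (fun n₂ : ℕ => a * (n₁ : ℤ) + b * (n₂ : ℤ) = n), K :=
        sum_le_sum fun t ht => hg t (mem_filter.mp ht).1
    _ = (((Icc 1 x).filter (fun n₂ : ℕ => a * (n₁ : ℤ) + b * (n₂ : ℤ) = n)).card : ℝ) * K := by
        rw [sum_const, nsmul_eq_mul]
    _ ≤ 1 * K := mul_le_mul_of_nonneg_right (by exact_mod_cast hcard) hK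
    _ = K := one_mul K

lemma conv_zero (x : ℕ) (a b : ℤ) (f g : ℕ → ℝ) (n : ℤ) (hn : (|a| + |b|) * x < |n|) : conv x a b f g n = 0 := by
  unfold conv
  refine sum_eq_zero fun n₁ h₁ => ?_
  rw [sum_eq_zero, mul_zero]
  intro n₂ h₂
  rw [if_neg]
  intro hc
  rw [mem_Icc] at h₁ h₂
  have e1 : |n| ≤ |a| * n₁ + |b| * n₂ := by
    rw [← hc]
    refine (abs_add_le _ _).trans ?_
    rw [abs_mul, abs_mul, Nat.abs_cast, Nat.abs_cast]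
  have e2 : |a| * (n₁ : ℤ) ≤ |a| * x := mul_le_mul_of_nonneg_left (by exact_mod_cast h₁.2) (abs_nonneg _)
  have e3 : |b| * (n₂ : ℤ) ≤ |b| * x := mul_le_mul_of_nonneg_left (by exact_mod_cast h₂.2) (abs_nonneg _)
  linarith [add_mul |a| |b| (x : ℤ)]

lemma rep_sq (x : ℕ) (a b c : ℤ) (hc : c ≠ 0) (f g h : ℕ → ℝ) (K : ℝ) (hh : ∀ t ∈ Icc 1 x, |h t| ≤ K)
    (n : ℤ) : rep x a b c f g h n ^ 2 ≤
      (x * K ^ 2) * ∑ w ∈ Icc (-((|a| + |b|) * (x : ℤ))) ((|a| + |b|) * x), conv x a b f g w ^ 2 := by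
  rw [rep_eq]
  refine (sum_mul_sq_le_sq_mul_sq _ _ _).trans ?_
  have e1 : ∑ n₃ ∈ Icc 1 x, h n₃ ^ 2 ≤ x * K ^ 2 := by
    calc ∑ n₃ ∈ Icc 1 x, h n₃ ^ 2 ≤ ∑ _n₃ ∈ Icc 1 x, K ^ 2 := by
          refine sum_le_sum fun t ht => ?_
          rw [← sq_abs]
          exact pow_le_pow_left₀ (abs_nonneg _) (hh t ht) 2
      _ = _ := by rw [sum_const, Nat.card_Icc, nsmul_eq_mul]; simp
  have e2 : ∑ n₃ ∈ Icc 1 x, conv x a b f g (n - c * n₃) ^ 2 ≤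
      ∑ w ∈ Icc (-((|a| + |b|) * (x : ℤ))) ((|a| + |b|) * x), conv x a b f g w ^ 2 := by
    have e3 : ∑ n₃ ∈ Icc 1 x, conv x a b f g (n - c * n₃) ^ 2 =
        ∑ w ∈ (Icc 1 x).image (fun n₃ : ℕ => n - c * (n₃ : ℤ)), conv x a b f g w ^ 2 := by
      rw [sum_image]
      intro u _ v _ huv
      simp only at huv
      have : c * (u : ℤ) = c * (v : ℤ) := by linarith
      have := mul_left_cancel₀ hc this
      exact_mod_cast this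
    rw [e3, ← sum_filter_add_sum_filter_not _ (fun w => w ∈ Icc (-((|a| + |b|) * (x : ℤ))) ((|a| + |b|) * x))]
    have e4 : ∑ w ∈ ((Icc 1 x).image (fun n₃ : ℕ => n - c * (n₃ : ℤ))).filter
        (fun w => ¬ w ∈ Icc (-((|a| + |b|) * (x : ℤ))) ((|a| + |b|) * x)), conv x a b f g w ^ 2 = 0 := by
      refine sum_eq_zero fun w hw => ?_
      rw [mem_filter, mem_Icc] at hw
      rw [conv_zero x a b f g w (by
        by_contra hcon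
        push Not at hcon
        rw [abs_le] at hcon
        exact hw.2 hcon)]
      ring
    rw [e4, add_zero]
    refine sum_le_sum_of_subset_of_nonneg ?_ fun _ _ _ => sq_nonneg _
    intro w hw
    exact (mem_filter.mp hw).2
  have hnn : 0 ≤ ∑ n₃ ∈ Icc 1 x, conv x a b f g (n - c * n₃) ^ 2 := sum_nonneg fun _ _ => sq_nonneg _
  have hx : (0 : ℝ) ≤ x * K ^ 2 := by positivity
  exact mul_le_mul e1 e2 hnn hx

lemma conv_le (x : ℕ) (a b : ℤ) (hb : b ≠ 0) (f g : ℕ → ℝ) (K : ℝ) (hK : 0 ≤ K) (hf : ∀ t ∈ Icc 1 x, |f t| ≤ K)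
    (hg : ∀ t ∈ Icc 1 x, |g t| ≤ K) (n : ℤ) : |conv x a b f g n| ≤ x * K ^ 2 := by
  unfold conv
  refine (abs_sum_le_sum_abs _ _).trans ?_
  calc ∑ n₁ ∈ Icc 1 x, |f n₁ * ∑ n₂ ∈ Icc 1 x, if a * (n₁ : ℤ) + b * (n₂ : ℤ) = n then g n₂ else 0|
      ≤ ∑ _n₁ ∈ Icc 1 x, K ^ 2 := by
        refine sum_le_sum fun t ht => ?_
        rw [abs_mul, sq]
        exact mul_le_mul (hf t ht) (inner_le x a b hb g K hK hg t n) (abs_nonneg _) hK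
    _ = _ := by rw [sum_const, Nat.card_Icc, nsmul_eq_mul]; simp

/-- one factor small on average: the sum over the parameter of the square of the mean square of the convolution -/
lemma conv_avg {ι : Type} (P : Finset ι) (D : ι → ℕ → ℝ) (x : ℕ) (a b : ℤ) (hb : b ≠ 0) (K δ : ℝ) (hK : 1 ≤ K)
    (hD : ∀ m ∈ P, ∀ t ∈ Icc 1 x, |D m t| ≤ K)
    (hL : ∀ G : ℕ → ℝ, (∀ t, |G t| ≤ 1) → ∑ m ∈ P, |∑ t ∈ Icc 1 x, G t * D m t| ≤ δ)
    (g : ℕ → ℝ) (hg : ∀ t ∈ Icc 1 x, |g t| ≤ K) :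
    ∑ m ∈ P, ∑ w ∈ Icc (-((|a| + |b|) * (x : ℤ))) ((|a| + |b|) * x), conv x a b (D m) g w ^ 2 ≤
      (2 * (((|a| + |b|) : ℤ) : ℝ) * x + 1) * (x * K ^ 3 * δ) := by
  have hK0 : 0 < K := by linarith
  rw [sum_comm]
  have hone : ∀ w : ℤ, ∑ m ∈ P, conv x a b (D m) g w ^ 2 ≤ x * K ^ 3 * δ := by
    intro w
    have h1 := hL (fun t => if t ∈ Icc 1 x then
      (∑ n₂ ∈ Icc 1 x, if a * (t : ℤ) + b * (n₂ : ℤ) = w then g n₂ else 0) / K else 0) (fun t => by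
      by_cases ht : t ∈ Icc 1 x
      · rw [if_pos ht, abs_div, abs_of_pos hK0, div_le_one hK0]
        exact inner_le x a b hb g K hK0.le hg t w
      · rw [if_neg ht]
        simp)
    have e1 : ∀ m, |conv x a b (D m) g w| = K * |∑ t ∈ Icc 1 x, (if t ∈ Icc 1 x then
        (∑ n₂ ∈ Icc 1 x, if a * (t : ℤ) + b * (n₂ : ℤ) = w then g n₂ else 0) / K else 0) * D m t| := by
      intro m
      have e2 : K * |∑ t ∈ Icc 1 x, (if t ∈ Icc 1 x then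
          (∑ n₂ ∈ Icc 1 x, if a * (t : ℤ) + b * (n₂ : ℤ) = w then g n₂ else 0) / K else 0) * D m t| =
          |K * ∑ t ∈ Icc 1 x, (if t ∈ Icc 1 x then
          (∑ n₂ ∈ Icc 1 x, if a * (t : ℤ) + b * (n₂ : ℤ) = w then g n₂ else 0) / K else 0) * D m t| := by
        rw [abs_mul, abs_of_pos hK0]
      rw [e2, mul_sum]
      congr 1
      unfold conv
      refine sum_congr rfl fun t ht => ?_
      rw [if_pos ht]
      field_simp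
    calc ∑ m ∈ P, conv x a b (D m) g w ^ 2 ≤ ∑ m ∈ P, (x * K ^ 2) * |conv x a b (D m) g w| := by
          refine sum_le_sum fun m hm => ?_
          rw [← sq_abs, sq]
          exact mul_le_mul_of_nonneg_right (conv_le x a b hb (D m) g K hK0.le (hD m hm) hg w) (abs_nonneg _)
      _ = (x * K ^ 2) * (K * ∑ m ∈ P, |∑ t ∈ Icc 1 x, (if t ∈ Icc 1 x then
          (∑ n₂ ∈ Icc 1 x, if a * (t : ℤ) + b * (n₂ : ℤ) = w then g n₂ else 0) / K else 0) * D m t|) := by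
          rw [← mul_sum]
          congr 1
          rw [mul_sum]
          exact sum_congr rfl fun m _ => e1 m
      _ ≤ (x * K ^ 2) * (K * δ) := by
          apply mul_le_mul_of_nonneg_left _ (by positivity)
          exact mul_le_mul_of_nonneg_left h1 hK0.le
      _ = _ := by ring
  calc ∑ w ∈ Icc (-((|a| + |b|) * (x : ℤ))) ((|a| + |b|) * x), ∑ m ∈ P, conv x a b (D m) g w ^ 2
      ≤ ∑ _w ∈ Icc (-((|a| + |b|) * (x : ℤ))) ((|a| + |b|) * x), x * K ^ 3 * δ := sum_le_sum fun w _ => hone w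
    _ = ((Icc (-((|a| + |b|) * (x : ℤ))) ((|a| + |b|) * x)).card : ℝ) * (x * K ^ 3 * δ) := by
        rw [sum_const, nsmul_eq_mul]
    _ = _ := by
        congr 1
        rw [Int.card_Icc]
        have h0 : (0 : ℤ) ≤ (|a| + |b|) * x := by positivity
        have h1 : (((|a| + |b|) * (x : ℤ) + 1 - -((|a| + |b|) * (x : ℤ))).toNat : ℤ) =
            2 * ((|a| + |b|) * x) + 1 := by
          rw [Int.toNat_of_nonneg (by linarith)]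
          ring
        have h2 : ((((|a| + |b|) * (x : ℤ) + 1 - -((|a| + |b|) * (x : ℤ))).toNat : ℤ) : ℝ) =
            ((2 * ((|a| + |b|) * x) + 1 : ℤ) : ℝ) := by rw [h1]
        rw [Int.cast_natCast] at h2
        rw [h2]
        push_cast
        ring

open Classical in
/-- the exceptional parameters for one term -/
lemma one_term {ι : Type} (P : Finset ι) (D : ι → ℕ → ℝ) (x : ℕ) (hx : 1 ≤ x) (a b c : ℤ) (hb : b ≠ 0) (hc : c ≠ 0)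
    (K δ ε : ℝ) (hK : 1 ≤ K) (hδ : 0 ≤ δ) (hε : 0 < ε) (hab : (((|a| + |b|) : ℤ) : ℝ) ≤ K)
    (hD : ∀ m ∈ P, ∀ t ∈ Icc 1 x, |D m t| ≤ K)
    (hL : ∀ G : ℕ → ℝ, (∀ t, |G t| ≤ 1) → ∑ m ∈ P, |∑ t ∈ Icc 1 x, G t * D m t| ≤ δ)
    (g h : ℕ → ℝ) (hg : ∀ t ∈ Icc 1 x, |g t| ≤ K) (hh : ∀ t ∈ Icc 1 x, |h t| ≤ K) :
    ((P.filter (fun m => ∃ n : ℤ, ε * (x : ℝ) ^ 2 < |rep x a b c (D m) g h n|)).card : ℝ) ≤
      3 * K ^ 6 * δ / (ε ^ 2 * x) := by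
  have hxr : (1 : ℝ) ≤ x := by exact_mod_cast hx
  have hx0 : (0 : ℝ) < x := by linarith
  have hK0 : 0 < K := by linarith
  set Bd := P.filter (fun m => ∃ n : ℤ, ε * (x : ℝ) ^ 2 < |rep x a b c (D m) g h n|) with hBd
  set I := Icc (-((|a| + |b|) * (x : ℤ))) ((|a| + |b|) * x) with hI
  have key := conv_avg P D x a b hb K δ hK hD hL g hg
  rw [← hI] at key
  have hlow : ∀ m ∈ Bd, ε ^ 2 * (x : ℝ) ^ 3 / K ^ 2 ≤ ∑ w ∈ I, conv x a b (D m) g w ^ 2 := by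
    intro m hm
    rw [hBd, mem_filter] at hm
    obtain ⟨n, hn⟩ := hm.2
    have e1 := rep_sq x a b c hc (D m) g h K hh n
    rw [← hI] at e1
    have e2 : (ε * (x : ℝ) ^ 2) ^ 2 ≤ rep x a b c (D m) g h n ^ 2 := by
      rw [← sq_abs (rep x a b c (D m) g h n)]
      exact pow_le_pow_left₀ (by positivity) hn.le 2
    rw [div_le_iff₀ (by positivity)]
    have e3 : x * (ε ^ 2 * (x : ℝ) ^ 3) ≤ x * ((∑ w ∈ I, conv x a b (D m) g w ^ 2) * K ^ 2) := by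
      calc x * (ε ^ 2 * (x : ℝ) ^ 3) = (ε * (x : ℝ) ^ 2) ^ 2 := by ring
        _ ≤ _ := e2.trans (e1.trans (le_of_eq (by ring)))
    exact le_of_mul_le_mul_left e3 hx0
  have e1 : (Bd.card : ℝ) * (ε ^ 2 * (x : ℝ) ^ 3 / K ^ 2) ≤ (2 * (((|a| + |b|) : ℤ) : ℝ) * x + 1) * (x * K ^ 3 * δ) := by
    calc (Bd.card : ℝ) * (ε ^ 2 * (x : ℝ) ^ 3 / K ^ 2) = ∑ _m ∈ Bd, ε ^ 2 * (x : ℝ) ^ 3 / K ^ 2 := by
          rw [sum_const, nsmul_eq_mul]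
      _ ≤ ∑ m ∈ Bd, ∑ w ∈ I, conv x a b (D m) g w ^ 2 := sum_le_sum hlow
      _ ≤ ∑ m ∈ P, ∑ w ∈ I, conv x a b (D m) g w ^ 2 :=
          sum_le_sum_of_subset_of_nonneg (filter_subset _ _) fun _ _ _ => sum_nonneg fun _ _ => sq_nonneg _
      _ ≤ _ := key
  have e2 : (2 * (((|a| + |b|) : ℤ) : ℝ) * x + 1) * (x * K ^ 3 * δ) ≤ (3 * K * x) * (x * K ^ 3 * δ) := by
    apply mul_le_mul_of_nonneg_right _ (by positivity)
    nlinarith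
  have e3 := e1.trans e2
  rw [← le_div_iff₀ (by positivity)] at e3
  refine e3.trans (le_of_eq ?_)
  field_simp


lemma rep_swap12 (x : ℕ) (a b c : ℤ) (f g h : ℕ → ℝ) (n : ℤ) : rep x a b c f g h n = rep x b a c g f h n := by
  unfold rep
  rw [sum_comm]
  refine sum_congr rfl fun n₁ _ => sum_congr rfl fun n₂ _ => sum_congr rfl fun n₃ _ => ?_
  by_cases hc : a * (n₂ : ℤ) + b * (n₁ : ℤ) + c * (n₃ : ℤ) = n
  · rw [if_pos hc, if_pos (by linarith)]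
    ring
  · rw [if_neg hc, if_neg (fun h => hc (by linarith))]

lemma rep_swap23 (x : ℕ) (a b c : ℤ) (f g h : ℕ → ℝ) (n : ℤ) : rep x a b c f g h n = rep x a c b f h g n := by
  unfold rep
  refine sum_congr rfl fun n₁ _ => ?_
  rw [sum_comm]
  refine sum_congr rfl fun n₂ _ => sum_congr rfl fun n₃ _ => ?_
  by_cases hc : a * (n₁ : ℤ) + b * (n₃ : ℤ) + c * (n₂ : ℤ) = n
  · rw [if_pos hc, if_pos (by linarith)]
    ring
  · rw [if_neg hc, if_neg (fun h => hc (by linarith))]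

lemma rep_sub (x : ℕ) (a b c : ℤ) (f f' g h : ℕ → ℝ) (n : ℤ) :
    rep x a b c f g h n - rep x a b c f' g h n = rep x a b c (fun t => f t - f' t) g h n := by
  unfold rep
  rw [← sum_sub_distrib]
  refine sum_congr rfl fun n₁ _ => ?_
  rw [← sum_sub_distrib]
  refine sum_congr rfl fun n₂ _ => ?_
  rw [← sum_sub_distrib]
  refine sum_congr rfl fun n₃ _ => ?_
  split_ifs
  · ring
  · ring

open Classical in
/-- ternary problems -/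
theorem tern (κ U : ℕ) : ∃ U' x0 : ℕ, ∀ x : ℕ, x0 ≤ x → ∀ {ι₁ ι₂ ι₃ : Type} (P₁ : Finset ι₁) (P₂ : Finset ι₂)
    (P₃ : Finset ι₃) (A₁ B₁ : ι₁ → ℕ → ℝ) (A₂ B₂ : ι₂ → ℕ → ℝ) (A₃ B₃ : ι₃ → ℕ → ℝ) (W₁ W₂ W₃ : ℝ),
    (P₁.card : ℝ) ≤ W₁ → (P₂.card : ℝ) ≤ W₂ → (P₃.card : ℝ) ≤ W₃ →
    (∀ m ∈ P₁, ∀ t ∈ Icc 1 x, |A₁ m t| ≤ Real.log x ^ κ ∧ |B₁ m t| ≤ Real.log x ^ κ) →
    (∀ m ∈ P₂, ∀ t ∈ Icc 1 x, |A₂ m t| ≤ Real.log x ^ κ ∧ |B₂ m t| ≤ Real.log x ^ κ) →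
    (∀ m ∈ P₃, ∀ t ∈ Icc 1 x, |A₃ m t| ≤ Real.log x ^ κ ∧ |B₃ m t| ≤ Real.log x ^ κ) →
    (∀ G : ℕ → ℝ, (∀ t, |G t| ≤ 1) → ∑ m ∈ P₁, |∑ t ∈ Icc 1 x, G t * (A₁ m t - B₁ m t)| ≤ x * W₁ / Real.log x ^ U') →
    (∀ G : ℕ → ℝ, (∀ t, |G t| ≤ 1) → ∑ m ∈ P₂, |∑ t ∈ Icc 1 x, G t * (A₂ m t - B₂ m t)| ≤ x * W₂ / Real.log x ^ U') →
    (∀ G : ℕ → ℝ, (∀ t, |G t| ≤ 1) → ∑ m ∈ P₃, |∑ t ∈ Icc 1 x, G t * (A₃ m t - B₃ m t)| ≤ x * W₃ / Real.log x ^ U') →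
    ∀ a b c : ℤ, a ≠ 0 → b ≠ 0 → c ≠ 0 → ((|a| + |b| + |c| : ℤ) : ℝ) ≤ Real.log x ^ κ →
    (((P₁ ×ˢ P₂ ×ˢ P₃).filter (fun m : ι₁ × ι₂ × ι₃ => ∃ n : ℤ, (x : ℝ) ^ 2 / Real.log x ^ U <
      |rep x a b c (A₁ m.1) (A₂ m.2.1) (A₃ m.2.2) n - rep x a b c (B₁ m.1) (B₂ m.2.1) (B₃ m.2.2) n|)).card : ℝ) ≤
      W₁ * W₂ * W₃ / Real.log x ^ U := by
  obtain ⟨n1, h1⟩ := ev_L' 100
  refine ⟨6 * (κ + 1) + 2 * U + U + 3, n1 + 1, fun x hx ι₁ ι₂ ι₃ P₁ P₂ P₃ A₁ B₁ A₂ B₂ A₃ B₃ W₁ W₂ W₃ hW₁ hW₂ hW₃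
    hb₁ hb₂ hb₃ hL₁ hL₂ hL₃ a b c ha hb hc habc => ?_⟩
  have hLg := h1 x (by omega)
  have hx1 : 1 ≤ x := by omega
  have hxr : (1 : ℝ) ≤ x := by exact_mod_cast hx1
  have hx0 : (0 : ℝ) < x := by linarith
  obtain ⟨L, hLd⟩ : ∃ L, L = Real.log x := ⟨_, rfl⟩
  rw [← hLd] at hLg hb₁ hb₂ hb₃ hL₁ hL₂ hL₃ habc ⊢
  have hL1 : 1 ≤ L := by linarith
  have hL0 : 0 < L := by linarith
  have hκ1 : 1 ≤ L ^ κ := one_le_pow₀ hL1
  set K : ℝ := L ^ (κ + 1) with hK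
  have hKκ : 2 * L ^ κ ≤ K := by
    rw [hK, pow_succ]
    nlinarith
  have hK1 : 1 ≤ K := by linarith
  have hK0 : 0 < K := by linarith
  set ε : ℝ := 1 / (3 * L ^ U) with hε
  have hLU : 0 < L ^ U := by positivity
  have hε0 : 0 < ε := by positivity
  have hW₁0 : 0 ≤ W₁ := (Nat.cast_nonneg _).trans hW₁
  have hW₂0 : 0 ≤ W₂ := (Nat.cast_nonneg _).trans hW₂
  have hW₃0 : 0 ≤ W₃ := (Nat.cast_nonneg _).trans hW₃
  have haa := abs_nonneg a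
  have hbb := abs_nonneg b
  have hcc := abs_nonneg c
  have hab : ((|a| + |b| : ℤ) : ℝ) ≤ K := by
    have : ((|a| + |b| : ℤ) : ℝ) ≤ ((|a| + |b| + |c| : ℤ) : ℝ) := by exact_mod_cast (by linarith)
    linarith
  have hba : ((|b| + |a| : ℤ) : ℝ) ≤ K := by rw [add_comm]; exact hab
  have hca : ((|c| + |a| : ℤ) : ℝ) ≤ K := by
    have : ((|c| + |a| : ℤ) : ℝ) ≤ ((|a| + |b| + |c| : ℤ) : ℝ) := by exact_mod_cast (by linarith)
    linarith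
  -- general bound for one term
  have hgen : ∀ {ι : Type} (P : Finset ι) (A B : ι → ℕ → ℝ) (W : ℝ), 0 ≤ W →
      (∀ m ∈ P, ∀ t ∈ Icc 1 x, |A m t| ≤ L ^ κ ∧ |B m t| ≤ L ^ κ) →
      (∀ G : ℕ → ℝ, (∀ t, |G t| ≤ 1) → ∑ m ∈ P, |∑ t ∈ Icc 1 x, G t * (A m t - B m t)| ≤
        x * W / L ^ (6 * (κ + 1) + 2 * U + U + 3)) →
      ∀ u v w : ℤ, v ≠ 0 → w ≠ 0 → ((|u| + |v| : ℤ) : ℝ) ≤ K → ∀ g h : ℕ → ℝ,
      (∀ t ∈ Icc 1 x, |g t| ≤ L ^ κ) → (∀ t ∈ Icc 1 x, |h t| ≤ L ^ κ) →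
      ((P.filter (fun m => ∃ n : ℤ, ε * (x : ℝ) ^ 2 < |rep x u v w (fun t => A m t - B m t) g h n|)).card : ℝ) ≤
      W / (3 * L ^ U) := by
    intro ι P A B W hW hbd hLL u v w hv hw huv g h hg hh
    have e1 := one_term P (fun m t => A m t - B m t) x hx1 u v w hv hw K (x * W / L ^ (6 * (κ + 1) + 2 * U + U + 3)) ε
      hK1 (by positivity) hε0 huv (fun m hm t ht => by
        have := hbd m hm t ht
        have h3 := abs_sub (A m t) (B m t)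
        linarith [this.1, this.2]) hLL g h (fun t ht => (hg t ht).trans (by linarith)) (fun t ht => (hh t ht).trans (by linarith))
    refine e1.trans ?_
    rw [hε, hK, ← pow_mul]
    have e2 : 3 * L ^ ((κ + 1) * 6) * (x * W / L ^ (6 * (κ + 1) + 2 * U + U + 3)) / ((1 / (3 * L ^ U)) ^ 2 * x) =
        (81 / L ^ 3) * (W / (3 * L ^ U)) := by
      rw [show 6 * (κ + 1) + 2 * U + U + 3 = (κ + 1) * 6 + U + U + U + 3 by ring, pow_add, pow_add, pow_add, pow_add]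
      obtain ⟨y, hy⟩ : ∃ y, y = L ^ ((κ + 1) * 6) := ⟨_, rfl⟩
      have hy0 : 0 < y := by rw [hy]; positivity
      obtain ⟨v, hv⟩ : ∃ v, v = L ^ U := ⟨_, rfl⟩
      rw [← hy, ← hv]
      rw [← hv] at hLU
      field_simp
      ring
    rw [e2]
    calc (81 / L ^ 3) * (W / (3 * L ^ U)) ≤ 1 * (W / (3 * L ^ U)) := by
          apply mul_le_mul_of_nonneg_right _ (by positivity)
          rw [div_le_one (by positivity)]
          have : (100 : ℝ) ^ 3 ≤ L ^ 3 := pow_le_pow_left₀ (by norm_num) hLg 3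
          linarith
      _ = _ := one_mul _
  -- the three bad sets
  set S := P₁ ×ˢ P₂ ×ˢ P₃ with hS
  set X₁ := S.filter (fun m : ι₁ × ι₂ × ι₃ => ∃ n : ℤ, ε * (x : ℝ) ^ 2 <
    |rep x a b c (fun t => A₁ m.1 t - B₁ m.1 t) (A₂ m.2.1) (A₃ m.2.2) n|) with hX₁
  set X₂ := S.filter (fun m : ι₁ × ι₂ × ι₃ => ∃ n : ℤ, ε * (x : ℝ) ^ 2 <
    |rep x b a c (fun t => A₂ m.2.1 t - B₂ m.2.1 t) (B₁ m.1) (A₃ m.2.2) n|) with hX₂
  set X₃ := S.filter (fun m : ι₁ × ι₂ × ι₃ => ∃ n : ℤ, ε * (x : ℝ) ^ 2 <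
    |rep x c a b (fun t => A₃ m.2.2 t - B₃ m.2.2 t) (B₁ m.1) (B₂ m.2.1) n|) with hX₃
  have hsub : S.filter (fun m : ι₁ × ι₂ × ι₃ => ∃ n : ℤ, (x : ℝ) ^ 2 / L ^ U <
      |rep x a b c (A₁ m.1) (A₂ m.2.1) (A₃ m.2.2) n - rep x a b c (B₁ m.1) (B₂ m.2.1) (B₃ m.2.2) n|) ⊆
      X₁ ∪ X₂ ∪ X₃ := by
    intro m hm
    rw [mem_filter] at hm
    obtain ⟨hmS, n, hn⟩ := hm
    by_contra hcon
    rw [mem_union, mem_union, not_or, not_or] at hcon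
    obtain ⟨⟨c1, c2⟩, c3⟩ := hcon
    have d1 : |rep x a b c (fun t => A₁ m.1 t - B₁ m.1 t) (A₂ m.2.1) (A₃ m.2.2) n| ≤ ε * (x : ℝ) ^ 2 := by
      by_contra h
      push Not at h
      exact c1 (mem_filter.mpr ⟨hmS, n, h⟩)
    have d2 : |rep x b a c (fun t => A₂ m.2.1 t - B₂ m.2.1 t) (B₁ m.1) (A₃ m.2.2) n| ≤ ε * (x : ℝ) ^ 2 := by
      by_contra h
      push Not at h
      exact c2 (mem_filter.mpr ⟨hmS, n, h⟩)
    have d3 : |rep x c a b (fun t => A₃ m.2.2 t - B₃ m.2.2 t) (B₁ m.1) (B₂ m.2.1) n| ≤ ε * (x : ℝ) ^ 2 := by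
      by_contra h
      push Not at h
      exact c3 (mem_filter.mpr ⟨hmS, n, h⟩)
    rw [← rep_sub] at d1 d2 d3
    have s1 : ∀ f, rep x b a c f (B₁ m.1) (A₃ m.2.2) n = rep x a b c (B₁ m.1) f (A₃ m.2.2) n := fun f =>
      rep_swap12 x b a c f (B₁ m.1) (A₃ m.2.2) n
    have s2 : ∀ f, rep x c a b f (B₁ m.1) (B₂ m.2.1) n = rep x a b c (B₁ m.1) (B₂ m.2.1) f n := fun f => by
      rw [rep_swap12, rep_swap23]
    rw [s1, s1] at d2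
    rw [s2, s2] at d3
    have e0 : rep x a b c (A₁ m.1) (A₂ m.2.1) (A₃ m.2.2) n - rep x a b c (B₁ m.1) (B₂ m.2.1) (B₃ m.2.2) n =
        (rep x a b c (A₁ m.1) (A₂ m.2.1) (A₃ m.2.2) n - rep x a b c (B₁ m.1) (A₂ m.2.1) (A₃ m.2.2) n) +
        (rep x a b c (B₁ m.1) (A₂ m.2.1) (A₃ m.2.2) n - rep x a b c (B₁ m.1) (B₂ m.2.1) (A₃ m.2.2) n) +
        (rep x a b c (B₁ m.1) (B₂ m.2.1) (A₃ m.2.2) n - rep x a b c (B₁ m.1) (B₂ m.2.1) (B₃ m.2.2) n) := by ring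
    have e1 : |rep x a b c (A₁ m.1) (A₂ m.2.1) (A₃ m.2.2) n - rep x a b c (B₁ m.1) (B₂ m.2.1) (B₃ m.2.2) n| ≤
        3 * (ε * (x : ℝ) ^ 2) := by
      rw [e0]
      refine (abs_add_le _ _).trans ?_
      refine (add_le_add (abs_add_le _ _) le_rfl).trans ?_
      linarith
    have e2 : 3 * (ε * (x : ℝ) ^ 2) = (x : ℝ) ^ 2 / L ^ U := by
      rw [hε]
      field_simp
    linarith
  have c1 : (X₁.card : ℝ) ≤ W₁ * W₂ * W₃ / (3 * L ^ U) := by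
    have e1 : (X₁.card : ℝ) = ∑ q ∈ P₂ ×ˢ P₃, ((P₁.filter (fun m => ∃ n : ℤ, ε * (x : ℝ) ^ 2 <
        |rep x a b c (fun t => A₁ m t - B₁ m t) (A₂ q.1) (A₃ q.2) n|)).card : ℝ) := by
      rw [hX₁, hS, card_filter, sum_product_right]
      push_cast
      refine sum_congr rfl fun q _ => ?_
      rw [card_filter]
      push_cast
      rfl
    rw [e1]
    calc ∑ q ∈ P₂ ×ˢ P₃, ((P₁.filter (fun m => ∃ n : ℤ, ε * (x : ℝ) ^ 2 <
          |rep x a b c (fun t => A₁ m t - B₁ m t) (A₂ q.1) (A₃ q.2) n|)).card : ℝ)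
        ≤ ∑ _q ∈ P₂ ×ˢ P₃, W₁ / (3 * L ^ U) := by
          refine sum_le_sum fun q hq => ?_
          rw [mem_product] at hq
          exact hgen P₁ A₁ B₁ W₁ hW₁0 hb₁ hL₁ a b c hb hc hab (A₂ q.1) (A₃ q.2) (fun t ht => (hb₂ _ hq.1 t ht).1)
            (fun t ht => (hb₃ _ hq.2 t ht).1)
      _ = ((P₂.card : ℝ) * P₃.card) * (W₁ / (3 * L ^ U)) := by
          rw [sum_const, nsmul_eq_mul, card_product]
          push_cast
          ring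
      _ ≤ (W₂ * W₃) * (W₁ / (3 * L ^ U)) := by
          apply mul_le_mul_of_nonneg_right _ (by positivity)
          exact mul_le_mul hW₂ hW₃ (Nat.cast_nonneg _) hW₂0
      _ = _ := by ring
  have c2 : (X₂.card : ℝ) ≤ W₁ * W₂ * W₃ / (3 * L ^ U) := by
    have e1 : (X₂.card : ℝ) = ∑ p ∈ P₁, ∑ r ∈ P₃, ((P₂.filter (fun m => ∃ n : ℤ, ε * (x : ℝ) ^ 2 <
        |rep x b a c (fun t => A₂ m t - B₂ m t) (B₁ p) (A₃ r) n|)).card : ℝ) := by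
      rw [hX₂, hS, card_filter, sum_product]
      push_cast
      refine sum_congr rfl fun p _ => ?_
      rw [sum_product_right]
      refine sum_congr rfl fun r _ => ?_
      rw [card_filter]
      push_cast
      rfl
    rw [e1]
    calc ∑ p ∈ P₁, ∑ r ∈ P₃, ((P₂.filter (fun m => ∃ n : ℤ, ε * (x : ℝ) ^ 2 <
          |rep x b a c (fun t => A₂ m t - B₂ m t) (B₁ p) (A₃ r) n|)).card : ℝ)
        ≤ ∑ _p ∈ P₁, ∑ _r ∈ P₃, W₂ / (3 * L ^ U) := by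
          refine sum_le_sum fun p hp => sum_le_sum fun r hr => ?_
          exact hgen P₂ A₂ B₂ W₂ hW₂0 hb₂ hL₂ b a c ha hc hba (B₁ p) (A₃ r) (fun t ht => (hb₁ _ hp t ht).2)
            (fun t ht => (hb₃ _ hr t ht).1)
      _ = ((P₁.card : ℝ) * P₃.card) * (W₂ / (3 * L ^ U)) := by
          rw [sum_const, sum_const, nsmul_eq_mul, nsmul_eq_mul]
          ring
      _ ≤ (W₁ * W₃) * (W₂ / (3 * L ^ U)) := by
          apply mul_le_mul_of_nonneg_right _ (by positivity)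
          exact mul_le_mul hW₁ hW₃ (Nat.cast_nonneg _) hW₁0
      _ = _ := by ring
  have c3 : (X₃.card : ℝ) ≤ W₁ * W₂ * W₃ / (3 * L ^ U) := by
    have e1 : (X₃.card : ℝ) = ∑ p ∈ P₁, ∑ q ∈ P₂, ((P₃.filter (fun m => ∃ n : ℤ, ε * (x : ℝ) ^ 2 <
        |rep x c a b (fun t => A₃ m t - B₃ m t) (B₁ p) (B₂ q) n|)).card : ℝ) := by
      rw [hX₃, hS, card_filter, sum_product]
      push_cast
      refine sum_congr rfl fun p _ => ?_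
      rw [sum_product]
      refine sum_congr rfl fun r _ => ?_
      rw [card_filter]
      push_cast
      rfl
    rw [e1]
    calc ∑ p ∈ P₁, ∑ q ∈ P₂, ((P₃.filter (fun m => ∃ n : ℤ, ε * (x : ℝ) ^ 2 <
          |rep x c a b (fun t => A₃ m t - B₃ m t) (B₁ p) (B₂ q) n|)).card : ℝ)
        ≤ ∑ _p ∈ P₁, ∑ _q ∈ P₂, W₃ / (3 * L ^ U) := by
          refine sum_le_sum fun p hp => sum_le_sum fun r hr => ?_
          exact hgen P₃ A₃ B₃ W₃ hW₃0 hb₃ hL₃ c a b ha hb hca (B₁ p) (B₂ r) (fun t ht => (hb₁ _ hp t ht).2)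
            (fun t ht => (hb₂ _ hr t ht).2)
      _ = ((P₁.card : ℝ) * P₂.card) * (W₃ / (3 * L ^ U)) := by
          rw [sum_const, sum_const, nsmul_eq_mul, nsmul_eq_mul]
          ring
      _ ≤ (W₁ * W₂) * (W₃ / (3 * L ^ U)) := by
          apply mul_le_mul_of_nonneg_right _ (by positivity)
          exact mul_le_mul hW₁ hW₂ (Nat.cast_nonneg _) hW₁0
      _ = _ := by ring
  have hfin : ((X₁ ∪ X₂ ∪ X₃).card : ℝ) ≤ X₁.card + X₂.card + X₃.card := by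
    have h1 := card_union_le (X₁ ∪ X₂) X₃
    have h2 := card_union_le X₁ X₂
    exact_mod_cast h1.trans (by omega)
  have hle : ((S.filter (fun m : ι₁ × ι₂ × ι₃ => ∃ n : ℤ, (x : ℝ) ^ 2 / L ^ U <
      |rep x a b c (A₁ m.1) (A₂ m.2.1) (A₃ m.2.2) n - rep x a b c (B₁ m.1) (B₂ m.2.1) (B₃ m.2.2) n|)).card : ℝ) ≤
      ((X₁ ∪ X₂ ∪ X₃).card : ℝ) := by exact_mod_cast card_le_card hsub
  refine hle.trans (hfin.trans ?_)
  have : W₁ * W₂ * W₃ / (3 * L ^ U) + W₁ * W₂ * W₃ / (3 * L ^ U) + W₁ * W₂ * W₃ / (3 * L ^ U) =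
      W₁ * W₂ * W₃ / L ^ U := by
    field_simp
    ring
  linarith

end Pool.Agent.Run7.h17.Tern
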