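import Mathlib
import Pool.Agent.Run7.h17.Tern2

/-! Binary additive problems: asymptotic formulas for almost all integers `n`, for almost all values of the parameters. -/

set_option autoImplicit false
set_option maxHeartbeats 4000000

namespace Pool.Agent.Run7.h17.Tern

open Finset Polynomial
open Pool.Agent.H373R2.T7 (ev_L' ev_log' energy lamI lamzI lamI_nonneg lamzI_nonneg lamI_le lamzI_le Vz_inv_small)

/-- the weighted number of solutions of `a n₁ + b n₂ = n` -/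
noncomputable def rep2 (x : ℕ) (a b : ℤ) (f g : ℕ → ℝ) (n : ℤ) : ℝ :=
  ∑ n₁ ∈ Icc 1 x, ∑ n₂ ∈ Icc 1 x, if a * n₁ + b * n₂ = n then f n₁ * g n₂ else 0

lemma rep2_conv (x : ℕ) (a b : ℤ) (f g : ℕ → ℝ) (n : ℤ) : rep2 x a b f g n = conv x a b f g n := by
  unfold rep2 conv
  refine sum_congr rfl fun n₁ _ => ?_
  rw [mul_sum]
  refine sum_congr rfl fun n₂ _ => ?_
  split_ifs
  · rfl
  · ring

lemma rep2_swap (x : ℕ) (a b : ℤ) (f g : ℕ → ℝ) (n : ℤ) : rep2 x a b f g n = rep2 x b a g f n := by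
  unfold rep2
  rw [sum_comm]
  refine sum_congr rfl fun n₁ _ => sum_congr rfl fun n₂ _ => ?_
  by_cases hc : a * (n₂ : ℤ) + b * (n₁ : ℤ) = n
  · rw [if_pos hc, if_pos (by linarith)]
    ring
  · rw [if_neg hc, if_neg (fun h => hc (by linarith))]

lemma rep2_sub (x : ℕ) (a b : ℤ) (f f' g : ℕ → ℝ) (n : ℤ) :
    rep2 x a b f g n - rep2 x a b f' g n = rep2 x a b (fun t => f t - f' t) g n := by
  unfold rep2
  rw [← sum_sub_distrib]
  refine sum_congr rfl fun n₁ _ => ?_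
  rw [← sum_sub_distrib]
  refine sum_congr rfl fun n₂ _ => ?_
  split_ifs
  · ring
  · ring

/-- the number of the integers for which a function is large, in a symmetric interval -/
def Rare (Z : ℤ) (f : ℤ → ℝ) (y r : ℝ) : Prop :=
  (((Icc (-Z) Z).filter (fun n : ℤ => y < |f n|)).card : ℝ) ≤ r

open Classical in
/-- the exceptional parameters for one term -/
lemma one_term2 {ι : Type} (P : Finset ι) (D : ι → ℕ → ℝ) (x : ℕ) (hx : 1 ≤ x) (a b : ℤ) (hb : b ≠ 0)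
    (K δ ε r : ℝ) (hK : 1 ≤ K) (hδ : 0 ≤ δ) (hε : 0 < ε) (hr : 0 < r) (hab : (((|a| + |b|) : ℤ) : ℝ) ≤ K)
    (hD : ∀ m ∈ P, ∀ t ∈ Icc 1 x, |D m t| ≤ K)
    (hL : ∀ G : ℕ → ℝ, (∀ t, |G t| ≤ 1) → ∑ m ∈ P, |∑ t ∈ Icc 1 x, G t * D m t| ≤ δ)
    (g : ℕ → ℝ) (hg : ∀ t ∈ Icc 1 x, |g t| ≤ K) :
    ((P.filter (fun m => ¬ Rare ((|a| + |b|) * x) (rep2 x a b (D m) g) (ε * x) (r * x))).card : ℝ) ≤
      3 * K ^ 4 * δ / (ε ^ 2 * r * x) := by
  have hxr : (1 : ℝ) ≤ x := by exact_mod_cast hx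
  have hx0 : (0 : ℝ) < x := by linarith
  have hK0 : 0 < K := by linarith
  set Bd := P.filter (fun m => ¬ Rare ((|a| + |b|) * x) (rep2 x a b (D m) g) (ε * x) (r * x)) with hBd
  set I := Icc (-((|a| + |b|) * (x : ℤ))) ((|a| + |b|) * x) with hI
  have key := conv_avg P D x a b hb K δ hK hD hL g hg
  rw [← hI] at key
  have hlow : ∀ m ∈ Bd, (r * x) * (ε * x) ^ 2 ≤ ∑ w ∈ I, conv x a b (D m) g w ^ 2 := by
    intro m hm
    rw [hBd, mem_filter] at hm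
    have hm2 := hm.2
    unfold Rare at hm2
    rw [← hI] at hm2
    push Not at hm2
    calc (r * x) * (ε * x) ^ 2 ≤ ((I.filter (fun n : ℤ => ε * x < |rep2 x a b (D m) g n|)).card : ℝ) * (ε * x) ^ 2 :=
          mul_le_mul_of_nonneg_right hm2.le (by positivity)
      _ = ∑ _w ∈ I.filter (fun n : ℤ => ε * x < |rep2 x a b (D m) g n|), (ε * x) ^ 2 := by
          rw [sum_const, nsmul_eq_mul]
      _ ≤ ∑ w ∈ I.filter (fun n : ℤ => ε * x < |rep2 x a b (D m) g n|), conv x a b (D m) g w ^ 2 := by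
          refine sum_le_sum fun w hw => ?_
          rw [mem_filter, rep2_conv] at hw
          rw [← sq_abs (conv x a b (D m) g w)]
          exact pow_le_pow_left₀ (by positivity) hw.2.le 2
      _ ≤ _ := sum_le_sum_of_subset_of_nonneg (filter_subset _ _) fun _ _ _ => sq_nonneg _
  have e1 : (Bd.card : ℝ) * ((r * x) * (ε * x) ^ 2) ≤ (2 * (((|a| + |b|) : ℤ) : ℝ) * x + 1) * (x * K ^ 3 * δ) := by
    calc (Bd.card : ℝ) * ((r * x) * (ε * x) ^ 2) = ∑ _m ∈ Bd, (r * x) * (ε * x) ^ 2 := by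
          rw [sum_const, nsmul_eq_mul]
      _ ≤ ∑ m ∈ Bd, ∑ w ∈ I, conv x a b (D m) g w ^ 2 := sum_le_sum hlow
      _ ≤ ∑ m ∈ P, ∑ w ∈ I, conv x a b (D m) g w ^ 2 :=
          sum_le_sum_of_subset_of_nonneg (filter_subset _ _) fun _ _ _ => sum_nonneg fun _ _ => sq_nonneg _
      _ ≤ _ := key
  have e2 : (2 * (((|a| + |b|) : ℤ) : ℝ) * x + 1) * (x * K ^ 3 * δ) ≤ (3 * K * x) * (x * K ^ 3 * δ) := by
    apply mul_le_mul_of_nonneg_right _ (by positivity)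
    nlinarith
  have e3 := e1.trans e2
  rw [← le_div_iff₀ (by positivity)] at e3
  refine e3.trans (le_of_eq ?_)
  field_simp

open Classical in
/-- binary problems -/
theorem bin2 (κ U : ℕ) : ∃ U' x0 : ℕ, ∀ x : ℕ, x0 ≤ x → ∀ {ι₁ ι₂ : Type} (P₁ : Finset ι₁) (P₂ : Finset ι₂)
    (A₁ B₁ : ι₁ → ℕ → ℝ) (A₂ B₂ : ι₂ → ℕ → ℝ) (W₁ W₂ : ℝ),
    (P₁.card : ℝ) ≤ W₁ → (P₂.card : ℝ) ≤ W₂ →
    (∀ m ∈ P₁, ∀ t ∈ Icc 1 x, |A₁ m t| ≤ Real.log x ^ κ ∧ |B₁ m t| ≤ Real.log x ^ κ) →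
    (∀ m ∈ P₂, ∀ t ∈ Icc 1 x, |A₂ m t| ≤ Real.log x ^ κ ∧ |B₂ m t| ≤ Real.log x ^ κ) →
    (∀ G : ℕ → ℝ, (∀ t, |G t| ≤ 1) → ∑ m ∈ P₁, |∑ t ∈ Icc 1 x, G t * (A₁ m t - B₁ m t)| ≤ x * W₁ / Real.log x ^ U') →
    (∀ G : ℕ → ℝ, (∀ t, |G t| ≤ 1) → ∑ m ∈ P₂, |∑ t ∈ Icc 1 x, G t * (A₂ m t - B₂ m t)| ≤ x * W₂ / Real.log x ^ U') →
    ∀ a b : ℤ, a ≠ 0 → b ≠ 0 → ((|a| + |b| : ℤ) : ℝ) ≤ Real.log x ^ κ →
    (((P₁ ×ˢ P₂).filter (fun m : ι₁ × ι₂ => ¬ Rare ((|a| + |b|) * x)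
      (fun n => rep2 x a b (A₁ m.1) (A₂ m.2) n - rep2 x a b (B₁ m.1) (B₂ m.2) n) (x / Real.log x ^ U)
        (x / Real.log x ^ U))).card : ℝ) ≤ W₁ * W₂ / Real.log x ^ U := by
  obtain ⟨n1, h1⟩ := ev_L' 100
  refine ⟨4 * (κ + 1) + 3 * U + U + 3, n1 + 1, fun x hx ι₁ ι₂ P₁ P₂ A₁ B₁ A₂ B₂ W₁ W₂ hW₁ hW₂
    hb₁ hb₂ hL₁ hL₂ a b ha hb hab0 => ?_⟩
  have hLg := h1 x (by omega)
  have hx1 : 1 ≤ x := by omega
  have hxr : (1 : ℝ) ≤ x := by exact_mod_cast hx1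
  have hx0 : (0 : ℝ) < x := by linarith
  obtain ⟨L, hLd⟩ : ∃ L, L = Real.log x := ⟨_, rfl⟩
  rw [← hLd] at hLg hb₁ hb₂ hL₁ hL₂ hab0 ⊢
  have hL1 : 1 ≤ L := by linarith
  have hL0 : 0 < L := by linarith
  have hκ1 : 1 ≤ L ^ κ := one_le_pow₀ hL1
  set K : ℝ := L ^ (κ + 1) with hK
  have hKκ : 2 * L ^ κ ≤ K := by
    rw [hK, pow_succ]
    nlinarith
  have hK1 : 1 ≤ K := by linarith
  have hK0 : 0 < K := by linarith
  have hLU : 0 < L ^ U := by positivity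
  set ε : ℝ := 1 / (2 * L ^ U) with hε
  have hε0 : 0 < ε := by positivity
  have hW₁0 : 0 ≤ W₁ := (Nat.cast_nonneg _).trans hW₁
  have hW₂0 : 0 ≤ W₂ := (Nat.cast_nonneg _).trans hW₂
  have hab : ((|a| + |b| : ℤ) : ℝ) ≤ K := by linarith
  have hba : ((|b| + |a| : ℤ) : ℝ) ≤ K := by rw [add_comm]; exact hab
  have hgen : ∀ {ι : Type} (P : Finset ι) (A B : ι → ℕ → ℝ) (W : ℝ), 0 ≤ W →
      (∀ m ∈ P, ∀ t ∈ Icc 1 x, |A m t| ≤ L ^ κ ∧ |B m t| ≤ L ^ κ) →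
      (∀ G : ℕ → ℝ, (∀ t, |G t| ≤ 1) → ∑ m ∈ P, |∑ t ∈ Icc 1 x, G t * (A m t - B m t)| ≤
        x * W / L ^ (4 * (κ + 1) + 3 * U + U + 3)) →
      ∀ u v : ℤ, v ≠ 0 → ((|u| + |v| : ℤ) : ℝ) ≤ K → ∀ g : ℕ → ℝ, (∀ t ∈ Icc 1 x, |g t| ≤ L ^ κ) →
      ((P.filter (fun m => ¬ Rare ((|u| + |v|) * x) (rep2 x u v (fun t => A m t - B m t) g) (ε * x) (ε * x))).card : ℝ) ≤
      W / (2 * L ^ U) := by
    intro ι P A B W hW hbd hLL u v hv huv g hg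
    have e1 := one_term2 P (fun m t => A m t - B m t) x hx1 u v hv K (x * W / L ^ (4 * (κ + 1) + 3 * U + U + 3)) ε ε
      hK1 (by positivity) hε0 hε0 huv (fun m hm t ht => by
        have := hbd m hm t ht
        have h3 := abs_sub (A m t) (B m t)
        linarith [this.1, this.2]) hLL g (fun t ht => (hg t ht).trans (by linarith))
    refine e1.trans ?_
    rw [hε, hK, ← pow_mul]
    have e2 : 3 * L ^ ((κ + 1) * 4) * (x * W / L ^ (4 * (κ + 1) + 3 * U + U + 3)) /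
        ((1 / (2 * L ^ U)) ^ 2 * (1 / (2 * L ^ U)) * x) = (48 / L ^ 3) * (W / (2 * L ^ U)) := by
      rw [show 4 * (κ + 1) + 3 * U + U + 3 = (κ + 1) * 4 + U + U + U + U + 3 by ring, pow_add, pow_add, pow_add, pow_add,
        pow_add]
      obtain ⟨y, hy⟩ : ∃ y, y = L ^ ((κ + 1) * 4) := ⟨_, rfl⟩
      have hy0 : 0 < y := by rw [hy]; positivity
      obtain ⟨v, hv⟩ : ∃ v, v = L ^ U := ⟨_, rfl⟩
      rw [← hy, ← hv]
      rw [← hv] at hLU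
      field_simp
      ring
    rw [e2]
    calc (48 / L ^ 3) * (W / (2 * L ^ U)) ≤ 1 * (W / (2 * L ^ U)) := by
          apply mul_le_mul_of_nonneg_right _ (by positivity)
          rw [div_le_one (by positivity)]
          have : (100 : ℝ) ^ 3 ≤ L ^ 3 := pow_le_pow_left₀ (by norm_num) hLg 3
          linarith
      _ = _ := one_mul _
  set S := P₁ ×ˢ P₂ with hS
  set X₁ := S.filter (fun m : ι₁ × ι₂ => ¬ Rare ((|a| + |b|) * x)
    (rep2 x a b (fun t => A₁ m.1 t - B₁ m.1 t) (A₂ m.2)) (ε * x) (ε * x)) with hX₁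
  set X₂ := S.filter (fun m : ι₁ × ι₂ => ¬ Rare ((|b| + |a|) * x)
    (rep2 x b a (fun t => A₂ m.2 t - B₂ m.2 t) (B₁ m.1)) (ε * x) (ε * x)) with hX₂
  have hsub : S.filter (fun m : ι₁ × ι₂ => ¬ Rare ((|a| + |b|) * x)
      (fun n => rep2 x a b (A₁ m.1) (A₂ m.2) n - rep2 x a b (B₁ m.1) (B₂ m.2) n) (x / L ^ U) (x / L ^ U)) ⊆
      X₁ ∪ X₂ := by
    intro m hm
    rw [mem_filter] at hm
    obtain ⟨hmS, hn⟩ := hm
    by_contra hcon
    rw [mem_union, not_or] at hcon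
    obtain ⟨c1, c2⟩ := hcon
    have d1 : Rare ((|a| + |b|) * x) (rep2 x a b (fun t => A₁ m.1 t - B₁ m.1 t) (A₂ m.2)) (ε * x) (ε * x) := by
      by_contra h
      exact c1 (mem_filter.mpr ⟨hmS, h⟩)
    have d2 : Rare ((|b| + |a|) * x) (rep2 x b a (fun t => A₂ m.2 t - B₂ m.2 t) (B₁ m.1)) (ε * x) (ε * x) := by
      by_contra h
      exact c2 (mem_filter.mpr ⟨hmS, h⟩)
    apply hn
    rw [add_comm |b| |a|] at d2
    unfold Rare at d1 d2 ⊢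
    set I := Icc (-((|a| + |b|) * (x : ℤ))) ((|a| + |b|) * x) with hI
    have hx2 : ε * x + ε * x = x / L ^ U := by
      rw [hε]
      field_simp
      norm_num
    have hsub2 : I.filter (fun n : ℤ => x / L ^ U <
        |rep2 x a b (A₁ m.1) (A₂ m.2) n - rep2 x a b (B₁ m.1) (B₂ m.2) n|) ⊆
        I.filter (fun n : ℤ => ε * x < |rep2 x a b (fun t => A₁ m.1 t - B₁ m.1 t) (A₂ m.2) n|) ∪
        I.filter (fun n : ℤ => ε * x < |rep2 x b a (fun t => A₂ m.2 t - B₂ m.2 t) (B₁ m.1) n|) := by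
      intro n hnn
      rw [mem_filter] at hnn
      rw [mem_union, mem_filter, mem_filter]
      by_contra hcon
      rw [not_or] at hcon
      have f1 : |rep2 x a b (fun t => A₁ m.1 t - B₁ m.1 t) (A₂ m.2) n| ≤ ε * x := by
        by_contra h
        push Not at h
        exact hcon.1 ⟨hnn.1, h⟩
      have f2 : |rep2 x b a (fun t => A₂ m.2 t - B₂ m.2 t) (B₁ m.1) n| ≤ ε * x := by
        by_contra h
        push Not at h
        exact hcon.2 ⟨hnn.1, h⟩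
      rw [← rep2_sub] at f1 f2
      rw [rep2_swap x b a (A₂ m.2) (B₁ m.1), rep2_swap x b a (B₂ m.2) (B₁ m.1)] at f2
      have e0 : rep2 x a b (A₁ m.1) (A₂ m.2) n - rep2 x a b (B₁ m.1) (B₂ m.2) n =
          (rep2 x a b (A₁ m.1) (A₂ m.2) n - rep2 x a b (B₁ m.1) (A₂ m.2) n) +
          (rep2 x a b (B₁ m.1) (A₂ m.2) n - rep2 x a b (B₁ m.1) (B₂ m.2) n) := by ring
      have e1 := hnn.2
      rw [e0] at e1
      have := abs_add_le (rep2 x a b (A₁ m.1) (A₂ m.2) n - rep2 x a b (B₁ m.1) (A₂ m.2) n)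
        (rep2 x a b (B₁ m.1) (A₂ m.2) n - rep2 x a b (B₁ m.1) (B₂ m.2) n)
      linarith
    have hc1 : ((I.filter (fun n : ℤ => x / L ^ U <
        |rep2 x a b (A₁ m.1) (A₂ m.2) n - rep2 x a b (B₁ m.1) (B₂ m.2) n|)).card : ℝ) ≤
        ((I.filter (fun n : ℤ => ε * x < |rep2 x a b (fun t => A₁ m.1 t - B₁ m.1 t) (A₂ m.2) n|)).card : ℝ) +
        ((I.filter (fun n : ℤ => ε * x < |rep2 x b a (fun t => A₂ m.2 t - B₂ m.2 t) (B₁ m.1) n|)).card : ℝ) := by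
      exact_mod_cast (card_le_card hsub2).trans (card_union_le _ _)
    linarith
  have c1 : (X₁.card : ℝ) ≤ W₁ * W₂ / (2 * L ^ U) := by
    have e1 : (X₁.card : ℝ) = ∑ q ∈ P₂, ((P₁.filter (fun m => ¬ Rare ((|a| + |b|) * x)
        (rep2 x a b (fun t => A₁ m t - B₁ m t) (A₂ q)) (ε * x) (ε * x))).card : ℝ) := by
      rw [hX₁, hS, card_filter, sum_product_right]
      push_cast
      refine sum_congr rfl fun q _ => ?_
      rw [card_filter]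
      push_cast
      rfl
    rw [e1]
    calc ∑ q ∈ P₂, ((P₁.filter (fun m => ¬ Rare ((|a| + |b|) * x)
          (rep2 x a b (fun t => A₁ m t - B₁ m t) (A₂ q)) (ε * x) (ε * x))).card : ℝ)
        ≤ ∑ _q ∈ P₂, W₁ / (2 * L ^ U) := by
          refine sum_le_sum fun q hq => ?_
          exact hgen P₁ A₁ B₁ W₁ hW₁0 hb₁ hL₁ a b hb hab (A₂ q) (fun t ht => (hb₂ _ hq t ht).1)
      _ = (P₂.card : ℝ) * (W₁ / (2 * L ^ U)) := by rw [sum_const, nsmul_eq_mul]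
      _ ≤ W₂ * (W₁ / (2 * L ^ U)) := mul_le_mul_of_nonneg_right hW₂ (by positivity)
      _ = _ := by ring
  have c2 : (X₂.card : ℝ) ≤ W₁ * W₂ / (2 * L ^ U) := by
    have e1 : (X₂.card : ℝ) = ∑ p ∈ P₁, ((P₂.filter (fun m => ¬ Rare ((|b| + |a|) * x)
        (rep2 x b a (fun t => A₂ m t - B₂ m t) (B₁ p)) (ε * x) (ε * x))).card : ℝ) := by
      rw [hX₂, hS, card_filter, sum_product]
      push_cast
      refine sum_congr rfl fun p _ => ?_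
      rw [card_filter]
      push_cast
      rfl
    rw [e1]
    calc ∑ p ∈ P₁, ((P₂.filter (fun m => ¬ Rare ((|b| + |a|) * x)
          (rep2 x b a (fun t => A₂ m t - B₂ m t) (B₁ p)) (ε * x) (ε * x))).card : ℝ)
        ≤ ∑ _p ∈ P₁, W₂ / (2 * L ^ U) := by
          refine sum_le_sum fun p hp => ?_
          exact hgen P₂ A₂ B₂ W₂ hW₂0 hb₂ hL₂ b a ha hba (B₁ p) (fun t ht => (hb₁ _ hp t ht).2)
      _ = (P₁.card : ℝ) * (W₂ / (2 * L ^ U)) := by rw [sum_const, nsmul_eq_mul]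
      _ ≤ W₁ * (W₂ / (2 * L ^ U)) := mul_le_mul_of_nonneg_right hW₁ (by positivity)
      _ = _ := by ring
  have hle : ((S.filter (fun m : ι₁ × ι₂ => ¬ Rare ((|a| + |b|) * x)
      (fun n => rep2 x a b (A₁ m.1) (A₂ m.2) n - rep2 x a b (B₁ m.1) (B₂ m.2) n) (x / L ^ U) (x / L ^ U))).card : ℝ) ≤
      (X₁.card : ℝ) + X₂.card := by exact_mod_cast (card_le_card hsub).trans (card_union_le _ _)
  refine hle.trans ?_
  have : W₁ * W₂ / (2 * L ^ U) + W₁ * W₂ / (2 * L ^ U) = W₁ * W₂ / L ^ U := by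
    field_simp
    norm_num
  linarith

end Pool.Agent.Run7.h17.Tern
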