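import Mathlib
import Pool.Agent.Run7.h17.Bin

/-! Binary additive problems with prime tuples and with prime values of polynomials. -/

set_option autoImplicit false
set_option maxHeartbeats 4000000

namespace Pool.Agent.Run7.h17.Tern

open Finset Polynomial
open Pool.Agent.H373R2.T7 (ev_L' ev_log' energy lamI lamzI lamI_nonneg lamzI_nonneg lamI_le lamzI_le Vz_inv_small)

open Classical in
theorem bin_two (κ U : ℕ) : ∃ U' x0 : ℕ, ∀ x : ℕ, x0 ≤ x → ∀ {ι : Type} (P : Fin 2 → Finset ι)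
    (A B : Fin 2 → ι → ℕ → ℝ) (W : Fin 2 → ℝ), (∀ j, ((P j).card : ℝ) ≤ W j) →
    (∀ j, ∀ m ∈ P j, ∀ t ∈ Icc 1 x, |A j m t| ≤ Real.log x ^ κ ∧ |B j m t| ≤ Real.log x ^ κ) →
    (∀ j, ∀ G : ℕ → ℝ, (∀ t, |G t| ≤ 1) →
      ∑ m ∈ P j, |∑ t ∈ Icc 1 x, G t * (A j m t - B j m t)| ≤ x * W j / Real.log x ^ U') →
    ∀ b : Fin 2 → ℤ, (∀ j, b j ≠ 0) → ((|b 0| + |b 1| : ℤ) : ℝ) ≤ Real.log x ^ κ →
    (((Fintype.piFinset P).filter (fun m : Fin 2 → ι => ¬ Rare ((|b 0| + |b 1|) * x)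
      (fun n => rep2 x (b 0) (b 1) (A 0 (m 0)) (A 1 (m 1)) n - rep2 x (b 0) (b 1) (B 0 (m 0)) (B 1 (m 1)) n)
        (x / Real.log x ^ U) (x / Real.log x ^ U))).card : ℝ) ≤
      (∏ j, W j) / Real.log x ^ U := by
  obtain ⟨U', x0, h⟩ := bin2 κ U
  refine ⟨U', x0, fun x hx ι P A B W hW hb hL b hb0 hbs => ?_⟩
  have key := h x hx (P 0) (P 1) (A 0) (B 0) (A 1) (B 1) (W 0) (W 1) (hW 0) (hW 1)
    (hb 0) (hb 1) (hL 0) (hL 1) (b 0) (b 1) (hb0 0) (hb0 1) hbs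
  rw [Fin.prod_univ_two]
  refine le_trans (Nat.cast_le.mpr ?_) key
  refine card_le_card_of_injOn (fun m => (m 0, m 1)) (fun m hm => ?_) (fun m _ m' _ hmm => ?_)
  · have hm' := mem_filter.mp (mem_coe.mp hm)
    have hm1 := Fintype.mem_piFinset.mp hm'.1
    exact mem_coe.mpr (mem_filter.mpr ⟨mem_product.mpr ⟨hm1 0, hm1 1⟩, hm'.2⟩)
  · simp only [Prod.mk.injEq] at hmm
    ext j
    fin_cases j
    · exact hmm.1
    · exact hmm.2

open Classical in
theorem bin_pos (k p κ U : ℕ) : ∃ B0 : ℕ, ∀ E : ℕ, ∃ x0 : ℕ, ∀ x : ℕ, x0 ≤ x →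
    ∀ (M : Fin 2 → Fin k → ℕ) (s v : Fin 2 → Fin k → ℕ → ℤ),
    (∀ j i, ∀ t ∈ Icc 1 x, ((|s j i t| : ℤ) : ℝ) ≤ Real.log x ^ κ * x) →
    (∀ j i, ∀ c : ℤ, (((Icc 1 x).filter (fun t => s j i t = c)).card : ℝ) ≤ Real.log x ^ κ) →
    (∀ j i, ∀ m ∈ Icc 1 (M j i), ((|v j i m| : ℤ) : ℝ) ≤ Real.log x ^ κ * x) →
    (∀ j i, (energy p (M j i) (v j i) : ℝ) * x ≤ Real.log x ^ κ * (M j i : ℝ) ^ (2 * p)) →
    ∀ z : ℕ, Real.log x ^ B0 ≤ z → (z : ℝ) ≤ Real.log x ^ E →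
    ∀ θ : Fin 2 → ℕ → ℝ, (∀ j, ∀ t ∈ Icc 1 x, |θ j t| ≤ Real.log x ^ κ) →
    ∀ b : Fin 2 → ℤ, (∀ j, b j ≠ 0) → ((|b 0| + |b 1| : ℤ) : ℝ) ≤ Real.log x ^ κ →
    (((Fintype.piFinset (fun j => Fintype.piFinset (fun i => Icc 1 (M j i)))).filter
      (fun m : Fin 2 → Fin k → ℕ => ¬ Rare ((|b 0| + |b 1|) * x) (fun n =>
        rep2 x (b 0) (b 1) (fun t => θ 0 t * ∏ i, lamI (s 0 i t + v 0 i (m 0 i)))
          (fun t => θ 1 t * ∏ i, lamI (s 1 i t + v 1 i (m 1 i))) n -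
        rep2 x (b 0) (b 1) (fun t => θ 0 t * ∏ i, lamzI z (s 0 i t + v 0 i (m 0 i)))
          (fun t => θ 1 t * ∏ i, lamzI z (s 1 i t + v 1 i (m 1 i))) n)
        (x / Real.log x ^ U) (x / Real.log x ^ U))).card : ℝ) ≤
      (∏ j, ∏ i, (M j i : ℝ)) / Real.log x ^ U := by
  obtain ⟨U', n1, h1⟩ := bin_two (2 * k + κ) U
  obtain ⟨B0, hB0⟩ := Pos.pos_prod k p κ (U' + κ)
  refine ⟨B0, fun E => ?_⟩
  obtain ⟨n2, h2⟩ := hB0 E
  obtain ⟨n3, h3⟩ := prod_bd k 2 E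
  obtain ⟨n4, h4⟩ := ev_L' 1
  obtain ⟨n5, h5⟩ := ev_log' κ 2
  refine ⟨n1 + n2 + n3 + n4 + n5 + 1, fun x hx M s v hs hmult hv hE z hz1 hz2 θ hθ b hb0 hbs => ?_⟩
  have hL1 := h4 x (by omega)
  have h5' := h5 x (by omega)
  have hx1 : (1 : ℝ) ≤ x := by exact_mod_cast (by omega : 1 ≤ x)
  have hx0 : (0 : ℝ) < x := by linarith
  have hprod : ∀ j, 0 ≤ ∏ i, (M j i : ℝ) := fun j => prod_nonneg fun _ _ => Nat.cast_nonneg _
  have hz : 1 ≤ z := by
    have : (1 : ℝ) ≤ z := (one_le_pow₀ hL1).trans hz1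
    exact_mod_cast this
  have hm2 : Real.log x ^ κ ≤ Real.log x ^ (2 * k + κ) := pow_le_pow_right₀ hL1 (by omega)
  have hκ0 : 0 < Real.log x ^ κ := by positivity
  by_cases hM : ∀ j i, 1 ≤ M j i
  · have hbd := h3 x (by omega) z hz hz2
    have hw : ∀ j, ∀ m ∈ Fintype.piFinset (fun i => Icc 1 (M j i)), ∀ t ∈ Icc 1 x, ∀ i,
        ((s j i t + v j i (m i) : ℤ) : ℝ) ≤ (x : ℝ) ^ 2 := by
      intro j m hm t ht i
      have e1 := hs j i t ht
      have e2 := hv j i (m i) (Fintype.mem_piFinset.mp hm i)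
      have a1 : ((s j i t : ℤ) : ℝ) ≤ ((|s j i t| : ℤ) : ℝ) := by exact_mod_cast le_abs_self _
      have a2 : ((v j i (m i) : ℤ) : ℝ) ≤ ((|v j i (m i)| : ℤ) : ℝ) := by exact_mod_cast le_abs_self _
      calc ((s j i t + v j i (m i) : ℤ) : ℝ) = ((s j i t : ℤ) : ℝ) + ((v j i (m i) : ℤ) : ℝ) := by push_cast; ring
        _ ≤ (2 * Real.log x ^ κ) * x := by linarith
        _ ≤ √x * x := mul_le_mul_of_nonneg_right h5' hx0.le
        _ ≤ x * x := by
            apply mul_le_mul_of_nonneg_right _ hx0.le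
            rw [Real.sqrt_le_left hx0.le]
            nlinarith
        _ = _ := by ring
    exact h1 x (by omega) (fun j => Fintype.piFinset (fun i => Icc 1 (M j i)))
      (fun j m t => θ j t * ∏ i, lamI (s j i t + v j i (m i)))
      (fun j m t => θ j t * ∏ i, lamzI z (s j i t + v j i (m i))) (fun j => ∏ i, (M j i : ℝ))
      (fun j => by
        rw [Fintype.card_piFinset]
        push_cast
        refine prod_le_prod (fun _ _ => Nat.cast_nonneg _) fun i _ => ?_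
        rw [Nat.card_Icc]
        simp)
      (fun j m hm t ht => by
        obtain ⟨c1, c2⟩ := hbd (fun i => s j i t + v j i (m i)) (hw j m hm t ht)
        have c3 := hθ j t ht
        rw [abs_mul, abs_mul, pow_add, mul_comm (Real.log x ^ (2 * k))]
        exact ⟨mul_le_mul c3 c1 (abs_nonneg _) hκ0.le, mul_le_mul c3 c2 (abs_nonneg _) hκ0.le⟩)
      (fun j G hG => by
        have e1 := (h2 x (by omega) (M j) (s j) (v j) (hM j) (hs j) (hmult j) (hv j) (hE j) z hz1 hz2).2 x le_rfl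
        have e2 := weight_L1 (Fintype.piFinset (fun i => Icc 1 (M j i))) x (Real.log x ^ κ) _ hκ0 (θ j) (hθ j)
          (fun m t => Pos.pq z (s j) (v j) m t) e1 G hG
        have e3 : ∀ m : Fin k → ℕ, ∑ t ∈ Icc 1 x, G t * (θ j t * ∏ i, lamI (s j i t + v j i (m i)) -
            θ j t * ∏ i, lamzI z (s j i t + v j i (m i))) =
            ∑ t ∈ Icc 1 x, G t * (θ j t * Pos.pq z (s j) (v j) m t) := by
          intro m
          refine sum_congr rfl fun t _ => ?_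
          unfold Pos.pq
          ring
        rw [sum_congr rfl fun m _ => by rw [e3 m]]
        refine e2.trans (le_of_eq ?_)
        rw [pow_add]
        field_simp)
      b hb0 (hbs.trans hm2)
  · push Not at hM
    obtain ⟨j, i, hi⟩ := hM
    have : Fintype.piFinset (fun j => Fintype.piFinset (fun i => Icc 1 (M j i))) = ∅ := by
      rw [Fintype.piFinset_eq_empty]
      refine ⟨j, ?_⟩
      rw [Fintype.piFinset_eq_empty]
      exact ⟨i, by rw [Icc_eq_empty]; omega⟩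
    rw [this, filter_empty, card_empty, Nat.cast_zero]
    have : 0 ≤ ∏ j, ∏ i, (M j i : ℝ) := prod_nonneg fun j _ => hprod j
    positivity

open Classical in
theorem bin_poly (k : ℕ) (F : Fin 2 → Fin k → ℤ[X]) (hF : ∀ j i, 1 ≤ (F j i).natDegree) (B κ U : ℕ) :
    ∃ B0 : ℕ, ∀ E : ℕ, ∃ x0 : ℕ, ∀ x : ℕ, x0 ≤ x → ∀ M : Fin 2 → Fin k → ℕ,
    (∀ j i, x ^ (F j i).natDegree ≤ B * M j i ∧ M j i ≤ B * x ^ (F j i).natDegree) →
    ∀ a : Fin 2 → Fin k → ℤ, (∀ j i, |a j i| ≤ B * M j i) →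
    ∀ z : ℕ, Real.log x ^ B0 ≤ z → (z : ℝ) ≤ Real.log x ^ E →
    ∀ θ : Fin 2 → ℕ → ℝ, (∀ j, ∀ t ∈ Icc 1 x, |θ j t| ≤ Real.log x ^ κ) →
    ∀ b : Fin 2 → ℤ, (∀ j, b j ≠ 0) → ((|b 0| + |b 1| : ℤ) : ℝ) ≤ Real.log x ^ κ →
    (((Fintype.piFinset (fun j => Fintype.piFinset (fun i => Icc 1 (M j i)))).filter
      (fun m : Fin 2 → Fin k → ℕ => ¬ Rare ((|b 0| + |b 1|) * x) (fun n =>
        rep2 x (b 0) (b 1) (fun t => θ 0 t * ∏ i, lamI (a 0 i + (F 0 i).eval (t : ℤ) + (m 0 i : ℤ)))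
          (fun t => θ 1 t * ∏ i, lamI (a 1 i + (F 1 i).eval (t : ℤ) + (m 1 i : ℤ))) n -
        rep2 x (b 0) (b 1) (fun t => θ 0 t * ∏ i, lamzI z (a 0 i + (F 0 i).eval (t : ℤ) + (m 0 i : ℤ)))
          (fun t => θ 1 t * ∏ i, lamzI z (a 1 i + (F 1 i).eval (t : ℤ) + (m 1 i : ℤ))) n)
        (x / Real.log x ^ U) (x / Real.log x ^ U))).card : ℝ) ≤
      (∏ j, ∏ i, (M j i : ℝ)) / Real.log x ^ U := by
  obtain ⟨U', n1, h1⟩ := bin_two (2 * k + κ) U
  choose B0 hB0 using fun j => PB.poly_dual k (F j) (hF j) B (U' + κ)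
  refine ⟨∑ j, B0 j, fun E => ?_⟩
  choose n2 h2 using fun j => hB0 j E
  choose A hA using fun j i => Pool.Agent.TH823.Fam.poly_size (F j i)
  set D : ℕ := ∑ j, ∑ i, (F j i).natDegree with hD
  obtain ⟨n3, h3⟩ := prod_bd k (D + 1) E
  obtain ⟨n4, h4⟩ := ev_L' 1
  set S : ℕ := ∑ j, ∑ i, A j i with hS
  refine ⟨n1 + ∑ j, n2 j + n3 + n4 + (B * B + S + B) + 1, fun x hx M hM a ha z hz1 hz2 θ hθ b hb0 hbs => ?_⟩
  have hL1 := h4 x (by omega)
  have hx1n : 1 ≤ x := by omega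
  have hx1 : (1 : ℝ) ≤ x := by exact_mod_cast hx1n
  have hx0 : (0 : ℝ) < x := by linarith
  have hz : 1 ≤ z := by
    have : (1 : ℝ) ≤ z := (one_le_pow₀ hL1).trans hz1
    exact_mod_cast this
  have hm2 : Real.log x ^ κ ≤ Real.log x ^ (2 * k + κ) := pow_le_pow_right₀ hL1 (by omega)
  have hκ0 : 0 < Real.log x ^ κ := by positivity
  have hbd := h3 x (by omega) z hz hz2
  have hdeg : ∀ j i, (F j i).natDegree ≤ D := fun j i =>
    (single_le_sum (f := fun i => (F j i).natDegree) (fun _ _ => Nat.zero_le _) (mem_univ i)).trans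
      (single_le_sum (f := fun j => ∑ i, (F j i).natDegree) (fun _ _ => Nat.zero_le _) (mem_univ j))
  have hAS : ∀ j i, A j i ≤ S := fun j i =>
    (single_le_sum (f := fun i => A j i) (fun _ _ => Nat.zero_le _) (mem_univ i)).trans
      (single_le_sum (f := fun j => ∑ i, A j i) (fun _ _ => Nat.zero_le _) (mem_univ j))
  have hn2 : ∀ j, n2 j ≤ x := fun j => by
    have := single_le_sum (f := n2) (fun _ _ => Nat.zero_le _) (mem_univ j)
    omega
  have hB0z : ∀ j, Real.log x ^ B0 j ≤ z := fun j => by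
    refine le_trans (pow_le_pow_right₀ hL1 ?_) hz1
    exact single_le_sum (f := B0) (fun _ _ => Nat.zero_le _) (mem_univ j)
  have hw : ∀ j, ∀ m ∈ Fintype.piFinset (fun i => Icc 1 (M j i)), ∀ t ∈ Icc 1 x, ∀ i,
      ((a j i + (F j i).eval (t : ℤ) + (m i : ℤ) : ℤ) : ℝ) ≤ (x : ℝ) ^ (D + 1) := by
    intro j m hm t ht i
    have e1 := hA j i x hx1n t ht
    have e2 := Fintype.mem_piFinset.mp hm i
    rw [mem_Icc] at e2
    have e3 := (hM j i).2
    have e4 := ha j i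
    have e5 : a j i + (F j i).eval (t : ℤ) + (m i : ℤ) ≤ (B * B + S + B : ℕ) * (x : ℤ) ^ (F j i).natDegree := by
      have f1 : a j i ≤ B * (B * (x : ℤ) ^ (F j i).natDegree) := by
        refine (le_abs_self _).trans (e4.trans ?_)
        exact mul_le_mul_of_nonneg_left (by exact_mod_cast e3) (Int.natCast_nonneg _)
      have f2 : (F j i).eval (t : ℤ) ≤ S * (x : ℤ) ^ (F j i).natDegree := by
        refine (le_abs_self _).trans (e1.trans ?_)
        exact mul_le_mul_of_nonneg_right (by exact_mod_cast hAS j i) (by positivity)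
      have f3 : (m i : ℤ) ≤ B * (x : ℤ) ^ (F j i).natDegree := by
        have : m i ≤ B * x ^ (F j i).natDegree := e2.2.trans e3
        exact_mod_cast this
      push_cast
      linarith
    have e6 : (B * B + S + B : ℕ) * (x : ℤ) ^ (F j i).natDegree ≤ x * (x : ℤ) ^ (F j i).natDegree :=
      mul_le_mul_of_nonneg_right (by exact_mod_cast (by omega : B * B + S + B ≤ x)) (by positivity)
    have e7 : ((a j i + (F j i).eval (t : ℤ) + (m i : ℤ) : ℤ) : ℝ) ≤ ((x * (x : ℤ) ^ (F j i).natDegree : ℤ) : ℝ) := by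
      exact_mod_cast e5.trans e6
    refine e7.trans ?_
    push_cast
    calc (x : ℝ) * (x : ℝ) ^ (F j i).natDegree = (x : ℝ) ^ ((F j i).natDegree + 1) := by ring
      _ ≤ _ := pow_le_pow_right₀ hx1 (by have := hdeg j i; omega)
  exact h1 x (by omega) (fun j => Fintype.piFinset (fun i => Icc 1 (M j i)))
    (fun j m t => θ j t * ∏ i, lamI (a j i + (F j i).eval (t : ℤ) + (m i : ℤ)))
    (fun j m t => θ j t * ∏ i, lamzI z (a j i + (F j i).eval (t : ℤ) + (m i : ℤ))) (fun j => ∏ i, (M j i : ℝ))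
    (fun j => by
      rw [Fintype.card_piFinset]
      push_cast
      refine prod_le_prod (fun _ _ => Nat.cast_nonneg _) fun i _ => ?_
      rw [Nat.card_Icc]
      simp)
    (fun j m hm t ht => by
      obtain ⟨c1, c2⟩ := hbd (fun i => a j i + (F j i).eval (t : ℤ) + (m i : ℤ)) (hw j m hm t ht)
      have c3 := hθ j t ht
      rw [abs_mul, abs_mul, pow_add, mul_comm (Real.log x ^ (2 * k))]
      exact ⟨mul_le_mul c3 c1 (abs_nonneg _) hκ0.le, mul_le_mul c3 c2 (abs_nonneg _) hκ0.le⟩)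
    (fun j G hG => by
      have e1 := (h2 j x (hn2 j) (M j) (hM j) (a j) (ha j) z (hB0z j) hz2).2 x le_rfl
      have e2 := weight_L1 (Fintype.piFinset (fun i => Icc 1 (M j i))) x (Real.log x ^ κ) _ hκ0 (θ j) (hθ j)
        (fun m t => PB.pd z (fun i t => a j i + (F j i).eval (t : ℤ)) m t) e1 G hG
      have e3 : ∀ m : Fin k → ℕ, ∑ t ∈ Icc 1 x, G t * (θ j t * ∏ i, lamI (a j i + (F j i).eval (t : ℤ) + (m i : ℤ)) -
          θ j t * ∏ i, lamzI z (a j i + (F j i).eval (t : ℤ) + (m i : ℤ))) =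
          ∑ t ∈ Icc 1 x, G t * (θ j t * PB.pd z (fun i t => a j i + (F j i).eval (t : ℤ)) m t) := by
        intro m
        refine sum_congr rfl fun t _ => ?_
        unfold PB.pd
        ring
      rw [sum_congr rfl fun m _ => by rw [e3 m]]
      refine e2.trans (le_of_eq ?_)
      rw [pow_add]
      field_simp)
    b hb0 (hbs.trans hm2)

end Pool.Agent.Run7.h17.Tern
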