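import Mathlib
import Pool.Agent.Run7.h17.Tern2

/-! Equations in three variables in arbitrary finite groups: one family of weights small on average. -/

set_option autoImplicit false
set_option maxHeartbeats 4000000

namespace Pool.Agent.Run7.h17.Grp

open Finset Polynomial
open Pool.Agent.H373R2.T7 (ev_L' ev_log' energy lamI lamzI lamI_nonneg lamzI_nonneg lamI_le lamzI_le Vz_inv_small)

open Classical in
/-- the convolution -/
noncomputable def conv2 {Γ : Type} (x : ℕ) (ψ : ℕ → ℕ → Γ) (D g : ℕ → ℝ) (w : Γ) : ℝ :=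
  ∑ n₁ ∈ Icc 1 x, D n₁ * ∑ n₂ ∈ Icc 1 x, if ψ n₁ n₂ = w then g n₂ else 0

open Classical in
lemma inner_le {Γ : Type} (x : ℕ) (ψ : ℕ → ℕ → Γ) (F : ℝ) (g : ℕ → ℝ) (K : ℝ) (hK : 0 ≤ K)
    (hg : ∀ t ∈ Icc 1 x, |g t| ≤ K) (n₁ : ℕ) (w : Γ)
    (hF : (((Icc 1 x).filter (fun n₂ => ψ n₁ n₂ = w)).card : ℝ) ≤ F) :
    |∑ n₂ ∈ Icc 1 x, if ψ n₁ n₂ = w then g n₂ else 0| ≤ F * K := by
  rw [← sum_filter]
  refine (abs_sum_le_sum_abs _ _).trans ?_
  calc ∑ n₂ ∈ (Icc 1 x).filter (fun n₂ => ψ n₁ n₂ = w), |g n₂|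
      ≤ ∑ _n₂ ∈ (Icc 1 x).filter (fun n₂ => ψ n₁ n₂ = w), K :=
        sum_le_sum fun t ht => hg t (mem_filter.mp ht).1
    _ = (((Icc 1 x).filter (fun n₂ => ψ n₁ n₂ = w)).card : ℝ) * K := by rw [sum_const, nsmul_eq_mul]
    _ ≤ F * K := mul_le_mul_of_nonneg_right hF hK

open Classical in
lemma conv_le {Γ : Type} (x : ℕ) (ψ : ℕ → ℕ → Γ) (F : ℝ)
    (hF : ∀ n₁ w, (((Icc 1 x).filter (fun n₂ => ψ n₁ n₂ = w)).card : ℝ) ≤ F)
    (D g : ℕ → ℝ) (K : ℝ) (hK : 0 ≤ K) (hD : ∀ t ∈ Icc 1 x, |D t| ≤ K)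
    (hg : ∀ t ∈ Icc 1 x, |g t| ≤ K) (w : Γ) : |conv2 x ψ D g w| ≤ x * (K * (F * K)) := by
  unfold conv2
  refine (abs_sum_le_sum_abs _ _).trans ?_
  calc ∑ n₁ ∈ Icc 1 x, |D n₁ * ∑ n₂ ∈ Icc 1 x, if ψ n₁ n₂ = w then g n₂ else 0|
      ≤ ∑ _n₁ ∈ Icc 1 x, K * (F * K) := by
        refine sum_le_sum fun t ht => ?_
        rw [abs_mul]
        exact mul_le_mul (hD t ht) (inner_le x ψ F g K hK hg t w (hF t w)) (abs_nonneg _) hK
    _ = _ := by rw [sum_const, Nat.card_Icc, nsmul_eq_mul]; simp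

open Classical in
/-- one factor small on average -/
lemma conv_avg {Γ : Type} [Fintype Γ] {ι : Type} (P : Finset ι) (D : ι → ℕ → ℝ) (x : ℕ) (ψ : ℕ → ℕ → Γ) (F : ℝ)
    (hF0 : 0 < F) (hF : ∀ n₁ w, (((Icc 1 x).filter (fun n₂ => ψ n₁ n₂ = w)).card : ℝ) ≤ F) (K δ : ℝ) (hK : 1 ≤ K)
    (hD : ∀ m ∈ P, ∀ t ∈ Icc 1 x, |D m t| ≤ K)
    (hL : ∀ G : ℕ → ℝ, (∀ t, |G t| ≤ 1) → ∑ m ∈ P, |∑ t ∈ Icc 1 x, G t * D m t| ≤ δ)
    (g : ℕ → ℝ) (hg : ∀ t ∈ Icc 1 x, |g t| ≤ K) :
    ∑ m ∈ P, ∑ w : Γ, conv2 x ψ (D m) g w ^ 2 ≤ Fintype.card Γ * (x * (F ^ 2 * K ^ 3 * δ)) := by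
  have hK0 : 0 < K := by linarith
  rw [sum_comm]
  have hone : ∀ w : Γ, ∑ m ∈ P, conv2 x ψ (D m) g w ^ 2 ≤ x * (F ^ 2 * K ^ 3 * δ) := by
    intro w
    have h1 := hL (fun t => if t ∈ Icc 1 x then
      (∑ n₂ ∈ Icc 1 x, if ψ t n₂ = w then g n₂ else 0) / (F * K) else 0) (fun t => by
      by_cases ht : t ∈ Icc 1 x
      · rw [if_pos ht, abs_div, abs_of_pos (by positivity : 0 < F * K), div_le_one (by positivity)]
        exact inner_le x ψ F g K hK0.le hg t w (hF t w)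
      · rw [if_neg ht]
        simp)
    have e1 : ∀ m, |conv2 x ψ (D m) g w| = (F * K) * |∑ t ∈ Icc 1 x, (if t ∈ Icc 1 x then
        (∑ n₂ ∈ Icc 1 x, if ψ t n₂ = w then g n₂ else 0) / (F * K) else 0) * D m t| := by
      intro m
      rw [show ∀ y : ℝ, (F * K) * |y| = |(F * K) * y| from fun y => by
        rw [abs_mul, abs_of_pos (by positivity : 0 < F * K)], mul_sum]
      congr 1
      unfold conv2
      refine sum_congr rfl fun t ht => ?_
      rw [if_pos ht]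
      field_simp
    calc ∑ m ∈ P, conv2 x ψ (D m) g w ^ 2 ≤ ∑ m ∈ P, (x * (K * (F * K))) * |conv2 x ψ (D m) g w| := by
          refine sum_le_sum fun m hm => ?_
          rw [← sq_abs, sq]
          exact mul_le_mul_of_nonneg_right (conv_le x ψ F hF (D m) g K hK0.le (hD m hm) hg w) (abs_nonneg _)
      _ = (x * (K * (F * K))) * ((F * K) * ∑ m ∈ P, |∑ t ∈ Icc 1 x, (if t ∈ Icc 1 x then
          (∑ n₂ ∈ Icc 1 x, if ψ t n₂ = w then g n₂ else 0) / (F * K) else 0) * D m t|) := by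
          rw [← mul_sum]
          congr 1
          rw [mul_sum]
          exact sum_congr rfl fun m _ => e1 m
      _ ≤ (x * (K * (F * K))) * ((F * K) * δ) := by
          apply mul_le_mul_of_nonneg_left _ (by positivity)
          exact mul_le_mul_of_nonneg_left h1 (by positivity)
      _ = _ := by ring
  calc ∑ w : Γ, ∑ m ∈ P, conv2 x ψ (D m) g w ^ 2
      ≤ ∑ _w : Γ, x * (F ^ 2 * K ^ 3 * δ) := sum_le_sum fun w _ => hone w
    _ = _ := by rw [sum_const, card_univ, nsmul_eq_mul]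

open Classical in
/-- the exceptional parameters for one term -/
lemma one_term {Γ : Type} [Fintype Γ] [Nonempty Γ] {ι : Type} (P : Finset ι) (D : ι → ℕ → ℝ) (x : ℕ) (hx : 1 ≤ x)
    (ψ : ℕ → ℕ → Γ) (F : ℝ)
    (hF0 : 0 < F) (hF : ∀ n₁ w, (((Icc 1 x).filter (fun n₂ => ψ n₁ n₂ = w)).card : ℝ) ≤ F)
    (K δ ε : ℝ) (hK : 1 ≤ K) (hδ : 0 ≤ δ) (hε : 0 < ε) (hFK : F * Fintype.card Γ ≤ K * x)
    (hD : ∀ m ∈ P, ∀ t ∈ Icc 1 x, |D m t| ≤ K)
    (hL : ∀ G : ℕ → ℝ, (∀ t, |G t| ≤ 1) → ∑ m ∈ P, |∑ t ∈ Icc 1 x, G t * D m t| ≤ δ)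
    (g h : ℕ → ℝ) (hg : ∀ t ∈ Icc 1 x, |g t| ≤ K) (hh : ∀ t ∈ Icc 1 x, |h t| ≤ K) :
    ((P.filter (fun m => ∃ u : ℕ → Γ, (∀ w, (((Icc 1 x).filter (fun t => u t = w)).card : ℝ) ≤ F) ∧
      ε * (x : ℝ) ^ 3 / Fintype.card Γ < |∑ t ∈ Icc 1 x, h t * conv2 x ψ (D m) g (u t)|)).card : ℝ) ≤
      K ^ 8 * δ / (ε ^ 2 * x) := by
  have hxr : (1 : ℝ) ≤ x := by exact_mod_cast hx
  have hx0 : (0 : ℝ) < x := by linarith
  have hK0 : 0 < K := by linarith
  have hc0 : (0 : ℝ) < Fintype.card Γ := by exact_mod_cast Fintype.card_pos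
  obtain ⟨C, hC⟩ : ∃ C : ℝ, C = Fintype.card Γ := ⟨_, rfl⟩
  set Bd := P.filter (fun m => ∃ u : ℕ → Γ, (∀ w, (((Icc 1 x).filter (fun t => u t = w)).card : ℝ) ≤ F) ∧
      ε * (x : ℝ) ^ 3 / Fintype.card Γ < |∑ t ∈ Icc 1 x, h t * conv2 x ψ (D m) g (u t)|) with hBd
  have key := conv_avg P D x ψ F hF0 hF K δ hK hD hL g hg
  have hlow : ∀ m ∈ Bd, (ε * (x : ℝ) ^ 3 / C) ^ 2 ≤ (x * K ^ 2) * (F * ∑ w : Γ, conv2 x ψ (D m) g w ^ 2) := by
    intro m hm
    rw [hBd, mem_filter] at hm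
    obtain ⟨u, hu, hn⟩ := hm.2
    rw [← hC] at hn
    have e1 : (∑ t ∈ Icc 1 x, h t * conv2 x ψ (D m) g (u t)) ^ 2 ≤
        (∑ t ∈ Icc 1 x, h t ^ 2) * ∑ t ∈ Icc 1 x, conv2 x ψ (D m) g (u t) ^ 2 := sum_mul_sq_le_sq_mul_sq _ _ _
    have e2 : ∑ t ∈ Icc 1 x, h t ^ 2 ≤ x * K ^ 2 := by
      calc ∑ t ∈ Icc 1 x, h t ^ 2 ≤ ∑ _t ∈ Icc 1 x, K ^ 2 := by
            refine sum_le_sum fun t ht => ?_
            rw [← sq_abs]
            exact pow_le_pow_left₀ (abs_nonneg _) (hh t ht) 2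
        _ = _ := by rw [sum_const, Nat.card_Icc, nsmul_eq_mul]; simp
    have e3 : ∑ t ∈ Icc 1 x, conv2 x ψ (D m) g (u t) ^ 2 ≤ F * ∑ w : Γ, conv2 x ψ (D m) g w ^ 2 := by
      rw [← sum_fiberwise_of_maps_to (s := Icc 1 x) (t := (univ : Finset Γ)) (g := u) (fun _ _ => mem_univ _), mul_sum]
      refine sum_le_sum fun w _ => ?_
      calc ∑ t ∈ (Icc 1 x).filter (fun t => u t = w), conv2 x ψ (D m) g (u t) ^ 2
          = ∑ _t ∈ (Icc 1 x).filter (fun t => u t = w), conv2 x ψ (D m) g w ^ 2 :=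
            sum_congr rfl fun t ht => by rw [(mem_filter.mp ht).2]
        _ = (((Icc 1 x).filter (fun t => u t = w)).card : ℝ) * conv2 x ψ (D m) g w ^ 2 := by
            rw [sum_const, nsmul_eq_mul]
        _ ≤ _ := mul_le_mul_of_nonneg_right (hu w) (sq_nonneg _)
    have e4 : (ε * (x : ℝ) ^ 3 / C) ^ 2 ≤ (∑ t ∈ Icc 1 x, h t * conv2 x ψ (D m) g (u t)) ^ 2 := by
      rw [← sq_abs (∑ t ∈ Icc 1 x, h t * conv2 x ψ (D m) g (u t))]
      refine pow_le_pow_left₀ ?_ hn.le 2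
      rw [hC]
      positivity
    refine e4.trans (e1.trans (mul_le_mul e2 e3 (sum_nonneg fun _ _ => sq_nonneg _) (by positivity)))
  have e1 : (Bd.card : ℝ) * (ε * (x : ℝ) ^ 3 / C) ^ 2 ≤ (x * K ^ 2) * (F * (C * (x * (F ^ 2 * K ^ 3 * δ)))) := by
    calc (Bd.card : ℝ) * (ε * (x : ℝ) ^ 3 / C) ^ 2 = ∑ _m ∈ Bd, (ε * (x : ℝ) ^ 3 / C) ^ 2 := by
          rw [sum_const, nsmul_eq_mul]
      _ ≤ ∑ m ∈ Bd, (x * K ^ 2) * (F * ∑ w : Γ, conv2 x ψ (D m) g w ^ 2) := sum_le_sum hlow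
      _ ≤ ∑ m ∈ P, (x * K ^ 2) * (F * ∑ w : Γ, conv2 x ψ (D m) g w ^ 2) :=
          sum_le_sum_of_subset_of_nonneg (filter_subset _ _) fun _ _ _ =>
            mul_nonneg (by positivity) (mul_nonneg hF0.le (sum_nonneg fun _ _ => sq_nonneg _))
      _ = (x * K ^ 2) * (F * ∑ m ∈ P, ∑ w : Γ, conv2 x ψ (D m) g w ^ 2) := by rw [← mul_sum, ← mul_sum]
      _ ≤ _ := by
          apply mul_le_mul_of_nonneg_left _ (by positivity)
          apply mul_le_mul_of_nonneg_left _ hF0.le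
          rw [hC]
          exact key
  rw [← hC] at hFK hc0
  have e2 : (Bd.card : ℝ) ≤ ((x * K ^ 2) * (F * (C * (x * (F ^ 2 * K ^ 3 * δ))))) / (ε * (x : ℝ) ^ 3 / C) ^ 2 := by
    rw [le_div_iff₀ (by positivity)]
    exact e1
  refine e2.trans ?_
  have e3 : ((x * K ^ 2) * (F * (C * (x * (F ^ 2 * K ^ 3 * δ))))) / (ε * (x : ℝ) ^ 3 / C) ^ 2 =
      (F * C) ^ 3 * (K ^ 5 * δ / (ε ^ 2 * x ^ 4)) := by
    field_simp
  rw [e3]
  calc (F * C) ^ 3 * (K ^ 5 * δ / (ε ^ 2 * x ^ 4)) ≤ (K * x) ^ 3 * (K ^ 5 * δ / (ε ^ 2 * x ^ 4)) := by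
        apply mul_le_mul_of_nonneg_right _ (by positivity)
        exact pow_le_pow_left₀ (by positivity) hFK 3
    _ = _ := by field_simp

open Classical in
/-- the weighted number of the solutions of an equation in a group -/
noncomputable def grep {Γ : Type} [Group Γ] (x : ℕ) (φ : Fin 3 → ℕ → Γ) (f : Fin 3 → ℕ → ℝ) (γ : Γ) : ℝ :=
  ∑ n₀ ∈ Icc 1 x, ∑ n₁ ∈ Icc 1 x, ∑ n₂ ∈ Icc 1 x,
    if φ 0 n₀ * φ 1 n₁ * φ 2 n₂ = γ then f 0 n₀ * f 1 n₁ * f 2 n₂ else 0

open Classical in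
lemma grep0 {Γ : Type} [Group Γ] (x : ℕ) (φ : Fin 3 → ℕ → Γ) (f : Fin 3 → ℕ → ℝ) (γ : Γ) :
    grep x φ f γ = ∑ t ∈ Icc 1 x, f 2 t * conv2 x (fun a b => φ 0 a * φ 1 b) (f 0) (f 1) (γ * (φ 2 t)⁻¹) := by
  unfold grep conv2
  have e1 : ∀ n₀ ∈ Icc 1 x, (∑ n₁ ∈ Icc 1 x, ∑ n₂ ∈ Icc 1 x,
      if φ 0 n₀ * φ 1 n₁ * φ 2 n₂ = γ then f 0 n₀ * f 1 n₁ * f 2 n₂ else 0) = ∑ n₂ ∈ Icc 1 x, ∑ n₁ ∈ Icc 1 x,
      if φ 0 n₀ * φ 1 n₁ * φ 2 n₂ = γ then f 0 n₀ * f 1 n₁ * f 2 n₂ else 0 := fun _ _ => sum_comm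
  rw [sum_congr rfl e1, sum_comm]
  refine sum_congr rfl fun t _ => ?_
  rw [mul_sum]
  refine sum_congr rfl fun a _ => ?_
  rw [mul_sum, mul_sum]
  refine sum_congr rfl fun b _ => ?_
  by_cases h : φ 0 a * φ 1 b * φ 2 t = γ
  · rw [if_pos h, if_pos (by rw [← h, mul_inv_cancel_right])]
    ring
  · rw [if_neg h, if_neg (fun h' : φ 0 a * φ 1 b = γ * (φ 2 t)⁻¹ => h (by rw [h', inv_mul_cancel_right]))]
    ring

open Classical in
lemma grep1 {Γ : Type} [Group Γ] (x : ℕ) (φ : Fin 3 → ℕ → Γ) (f : Fin 3 → ℕ → ℝ) (γ : Γ) :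
    grep x φ f γ = ∑ t ∈ Icc 1 x, f 0 t * conv2 x (fun a b => φ 1 a * φ 2 b) (f 1) (f 2) ((φ 0 t)⁻¹ * γ) := by
  unfold grep conv2
  refine sum_congr rfl fun t _ => ?_
  rw [mul_sum]
  refine sum_congr rfl fun a _ => ?_
  rw [mul_sum, mul_sum]
  refine sum_congr rfl fun b _ => ?_
  by_cases h : φ 0 t * φ 1 a * φ 2 b = γ
  · rw [if_pos h, if_pos (by rw [← h, mul_assoc, inv_mul_cancel_left])]
    ring
  · rw [if_neg h, if_neg (fun h' : φ 1 a * φ 2 b = (φ 0 t)⁻¹ * γ => h (by rw [mul_assoc, h', mul_inv_cancel_left]))]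
    ring

open Classical in
lemma grep2 {Γ : Type} [Group Γ] (x : ℕ) (φ : Fin 3 → ℕ → Γ) (f : Fin 3 → ℕ → ℝ) (γ : Γ) :
    grep x φ f γ = ∑ t ∈ Icc 1 x, f 0 t * conv2 x (fun a b => φ 1 b * φ 2 a) (f 2) (f 1) ((φ 0 t)⁻¹ * γ) := by
  unfold grep conv2
  refine sum_congr rfl fun t _ => ?_
  rw [sum_comm, mul_sum]
  refine sum_congr rfl fun a _ => ?_
  rw [mul_sum, mul_sum]
  refine sum_congr rfl fun b _ => ?_
  by_cases h : φ 0 t * φ 1 b * φ 2 a = γ
  · rw [if_pos h, if_pos (by rw [← h, mul_assoc, inv_mul_cancel_left])]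
    ring
  · rw [if_neg h, if_neg (fun h' : φ 1 b * φ 2 a = (φ 0 t)⁻¹ * γ => h (by rw [mul_assoc, h', mul_inv_cancel_left]))]
    ring

lemma grep_update {Γ : Type} [Group Γ] (x : ℕ) (φ : Fin 3 → ℕ → Γ) (f : Fin 3 → ℕ → ℝ) (j : Fin 3) (a b : ℕ → ℝ) (γ : Γ) :
    grep x φ (Function.update f j a) γ - grep x φ (Function.update f j b) γ =
      grep x φ (Function.update f j (fun n => a n - b n)) γ := by
  classical
  unfold grep
  rw [← sum_sub_distrib]
  refine sum_congr rfl fun n₀ _ => ?_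
  rw [← sum_sub_distrib]
  refine sum_congr rfl fun n₁ _ => ?_
  rw [← sum_sub_distrib]
  refine sum_congr rfl fun n₂ _ => ?_
  split_ifs
  · fin_cases j <;> simp [Function.update] <;> ring
  · simp

open Classical in
/-- **ternary equations in groups** -/
theorem grp3 (κ U : ℕ) : ∃ U' x0 : ℕ, ∀ x : ℕ, x0 ≤ x → ∀ {ι : Type} (P : Fin 3 → Finset ι)
    (A B : Fin 3 → ι → ℕ → ℝ) (W : Fin 3 → ℝ), (∀ j, ((P j).card : ℝ) ≤ W j) →
    (∀ j, ∀ m ∈ P j, ∀ t ∈ Icc 1 x, |A j m t| ≤ Real.log x ^ κ ∧ |B j m t| ≤ Real.log x ^ κ) →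
    (∀ j, ∀ G : ℕ → ℝ, (∀ t, |G t| ≤ 1) →
      ∑ m ∈ P j, |∑ t ∈ Icc 1 x, G t * (A j m t - B j m t)| ≤ x * W j / Real.log x ^ U') →
    ∀ {Γ : Type} [Group Γ] [Fintype Γ] (φ : Fin 3 → ℕ → Γ), (∀ j w,
      (((Icc 1 x).filter (fun t => φ j t = w)).card : ℝ) * Fintype.card Γ ≤ Real.log x ^ κ * x) →
    (((Fintype.piFinset P).filter (fun m : Fin 3 → ι => ∃ γ : Γ, (x : ℝ) ^ 3 / (Fintype.card Γ * Real.log x ^ U) <
      |grep x φ (fun j => A j (m j)) γ - grep x φ (fun j => B j (m j)) γ|)).card : ℝ) ≤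
      (∏ j, W j) / Real.log x ^ U := by
  obtain ⟨n1, h1⟩ := ev_L' 100
  refine ⟨8 * (κ + 1) + 2 * U + U + 3, n1 + 1, fun x hx ι P A B W hW hb hL Γ _ _ φ hφ => ?_⟩
  have hLg := h1 x (by omega)
  have hx1 : 1 ≤ x := by omega
  have hxr : (1 : ℝ) ≤ x := by exact_mod_cast hx1
  have hx0 : (0 : ℝ) < x := by linarith
  obtain ⟨L, hLd⟩ : ∃ L, L = Real.log x := ⟨_, rfl⟩
  rw [← hLd] at hLg hb hL hφ ⊢
  have hL1 : 1 ≤ L := by linarith
  have hL0 : 0 < L := by linarith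
  have hκ1 : 1 ≤ L ^ κ := one_le_pow₀ hL1
  set K : ℝ := L ^ (κ + 1) with hK
  have hKκ : 2 * L ^ κ ≤ K := by
    rw [hK, pow_succ]
    nlinarith
  have hK1 : 1 ≤ K := by linarith
  have hK0 : 0 < K := by linarith
  set ε : ℝ := 1 / (3 * L ^ U) with hε
  have hLU : 0 < L ^ U := by positivity
  have hε0 : 0 < ε := by positivity
  have hW0 : ∀ j, 0 ≤ W j := fun j => (Nat.cast_nonneg _).trans (hW j)
  have hC0 : (0 : ℝ) < Fintype.card Γ := by exact_mod_cast Fintype.card_pos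
  set F : ℝ := L ^ κ * x / Fintype.card Γ with hF
  have hF0 : 0 < F := by positivity
  have hFK : F * Fintype.card Γ ≤ K * x := by
    rw [hF, div_mul_cancel₀ _ hC0.ne']
    exact mul_le_mul_of_nonneg_right (by linarith) hx0.le
  have hfib : ∀ j w, (((Icc 1 x).filter (fun t => φ j t = w)).card : ℝ) ≤ F := by
    intro j w
    rw [hF, le_div_iff₀ hC0]
    exact hφ j w
  -- general bound for one term
  have hgen : ∀ (j : Fin 3) (ψ : ℕ → ℕ → Γ), (∀ n₁ w, (((Icc 1 x).filter (fun n₂ => ψ n₁ n₂ = w)).card : ℝ) ≤ F) →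
      ∀ g h : ℕ → ℝ, (∀ t ∈ Icc 1 x, |g t| ≤ L ^ κ) → (∀ t ∈ Icc 1 x, |h t| ≤ L ^ κ) →
      (((P j).filter (fun m => ∃ u : ℕ → Γ, (∀ w, (((Icc 1 x).filter (fun t => u t = w)).card : ℝ) ≤ F) ∧
        ε * (x : ℝ) ^ 3 / Fintype.card Γ <
          |∑ t ∈ Icc 1 x, h t * conv2 x ψ (fun t => A j m t - B j m t) g (u t)|)).card : ℝ) ≤ W j / (3 * L ^ U) := by
    intro j ψ hψ g h hg hh
    have e1 := one_term (P j) (fun m t => A j m t - B j m t) x hx1 ψ F hF0 hψ K
      (x * W j / L ^ (8 * (κ + 1) + 2 * U + U + 3)) ε hK1 (by have := hW0 j; positivity) hε0 hFK (fun m hm t ht => by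
        have := hb j m hm t ht
        have h3 := abs_sub (A j m t) (B j m t)
        linarith [this.1, this.2]) (hL j) g h (fun t ht => (hg t ht).trans (by linarith))
        (fun t ht => (hh t ht).trans (by linarith))
    refine e1.trans ?_
    rw [hε, hK, ← pow_mul]
    have e2 : L ^ ((κ + 1) * 8) * (x * W j / L ^ (8 * (κ + 1) + 2 * U + U + 3)) / ((1 / (3 * L ^ U)) ^ 2 * x) =
        (27 / L ^ 3) * (W j / (3 * L ^ U)) := by
      rw [show 8 * (κ + 1) + 2 * U + U + 3 = (κ + 1) * 8 + U + U + U + 3 by ring, pow_add, pow_add, pow_add, pow_add]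
      obtain ⟨y, hy⟩ : ∃ y, y = L ^ ((κ + 1) * 8) := ⟨_, rfl⟩
      have hy0 : 0 < y := by rw [hy]; positivity
      obtain ⟨v, hv⟩ : ∃ v, v = L ^ U := ⟨_, rfl⟩
      rw [← hy, ← hv]
      rw [← hv] at hLU
      field_simp
      ring
    rw [e2]
    have := hW0 j
    calc (27 / L ^ 3) * (W j / (3 * L ^ U)) ≤ 1 * (W j / (3 * L ^ U)) := by
          apply mul_le_mul_of_nonneg_right _ (by positivity)
          rw [div_le_one (by positivity)]
          have : (100 : ℝ) ^ 3 ≤ L ^ 3 := pow_le_pow_left₀ (by norm_num) hLg 3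
          linarith
      _ = _ := one_mul _
  -- mixed systems of weights
  set mix : Fin 3 → (Fin 3 → ι) → Fin 3 → ℕ → ℝ := fun i m j => if j < i then B j (m j) else A j (m j) with hmix
  set S := Fintype.piFinset P with hS
  set X : Fin 3 → Finset (Fin 3 → ι) := fun i => S.filter (fun m : Fin 3 → ι => ∃ γ : Γ,
    ε * (x : ℝ) ^ 3 / Fintype.card Γ <
      |grep x φ (Function.update (mix i m) i (fun t => A i (m i) t - B i (m i) t)) γ|) with hX
  have hsub : S.filter (fun m : Fin 3 → ι => ∃ γ : Γ, (x : ℝ) ^ 3 / (Fintype.card Γ * L ^ U) <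
      |grep x φ (fun j => A j (m j)) γ - grep x φ (fun j => B j (m j)) γ|) ⊆ X 0 ∪ X 1 ∪ X 2 := by
    intro m hm
    rw [mem_filter] at hm
    obtain ⟨hmS, γ, hn⟩ := hm
    by_contra hcon
    rw [mem_union, mem_union, not_or, not_or] at hcon
    have hd : ∀ i : Fin 3, m ∉ X i →
        |grep x φ (Function.update (mix i m) i (fun t => A i (m i) t - B i (m i) t)) γ| ≤
          ε * (x : ℝ) ^ 3 / Fintype.card Γ := by
      intro i hi
      by_contra h
      push Not at h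
      exact hi (mem_filter.mpr ⟨hmS, γ, h⟩)
    have d0 := hd 0 hcon.1.1
    have d1 := hd 1 hcon.1.2
    have d2 := hd 2 hcon.2
    rw [← grep_update] at d0 d1 d2
    have a0 : Function.update (mix 0 m) 0 (A 0 (m 0)) = fun j => A j (m j) := by
      funext j
      fin_cases j <;> simp [hmix]
    have a1 : Function.update (mix 0 m) 0 (B 0 (m 0)) = Function.update (mix 1 m) 1 (A 1 (m 1)) := by
      funext j
      fin_cases j <;> simp [hmix]
    have a2 : Function.update (mix 1 m) 1 (B 1 (m 1)) = Function.update (mix 2 m) 2 (A 2 (m 2)) := by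
      funext j
      fin_cases j <;> simp [hmix]
    have a3 : Function.update (mix 2 m) 2 (B 2 (m 2)) = fun j => B j (m j) := by
      funext j
      fin_cases j <;> simp [hmix]
    rw [a0] at d0
    rw [← a1] at d1
    rw [← a2, a3] at d2
    have e0 : grep x φ (fun j => A j (m j)) γ - grep x φ (fun j => B j (m j)) γ =
        (grep x φ (fun j => A j (m j)) γ - grep x φ (Function.update (mix 0 m) 0 (B 0 (m 0))) γ) +
        (grep x φ (Function.update (mix 0 m) 0 (B 0 (m 0))) γ - grep x φ (Function.update (mix 1 m) 1 (B 1 (m 1))) γ) +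
        (grep x φ (Function.update (mix 1 m) 1 (B 1 (m 1))) γ - grep x φ (fun j => B j (m j)) γ) := by ring
    have e1 : |grep x φ (fun j => A j (m j)) γ - grep x φ (fun j => B j (m j)) γ| ≤
        3 * (ε * (x : ℝ) ^ 3 / Fintype.card Γ) := by
      rw [e0]
      refine (abs_add_le _ _).trans ?_
      refine (add_le_add (abs_add_le _ _) le_rfl).trans ?_
      linarith
    have e2 : 3 * (ε * (x : ℝ) ^ 3 / Fintype.card Γ) = (x : ℝ) ^ 3 / (Fintype.card Γ * L ^ U) := by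
      rw [hε]
      field_simp
    linarith
  have hcard : ∀ i : Fin 3, ((X i).card : ℝ) ≤ (∏ j, W j) / (3 * L ^ U) := by
    intro i
    -- the fibres over the other parameters
    have hfibre : ∀ m₀ ∈ S, (((P i).filter (fun p => ∃ γ : Γ, ε * (x : ℝ) ^ 3 / Fintype.card Γ <
        |grep x φ (Function.update (mix i (Function.update m₀ i p)) i (fun t => A i p t - B i p t)) γ|)).card : ℝ) ≤
        W i / (3 * L ^ U) := by
      intro m₀ hm₀
      have hm := Fintype.mem_piFinset.mp hm₀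
      have hAb : ∀ j, ∀ t ∈ Icc 1 x, |A j (m₀ j) t| ≤ L ^ κ := fun j t ht => (hb j _ (hm j) t ht).1
      have hBb : ∀ j, ∀ t ∈ Icc 1 x, |B j (m₀ j) t| ≤ L ^ κ := fun j t ht => (hb j _ (hm j) t ht).2
      have hright : ∀ (c : Γ) w, (((Icc 1 x).filter (fun t => c * (φ 2 t)⁻¹ = w)).card : ℝ) ≤ F := by
        intro c w
        refine le_trans (le_of_eq ?_) (hfib 2 (w⁻¹ * c))
        congr 2
        refine filter_congr fun t _ => ?_
        constructor
        · intro h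
          rw [← h, mul_inv_rev, inv_inv, inv_mul_cancel_right]
        · intro h
          rw [h, mul_inv_rev, inv_inv, mul_inv_cancel_left]
      have hleft : ∀ (c : Γ) w, (((Icc 1 x).filter (fun t => (φ 0 t)⁻¹ * c = w)).card : ℝ) ≤ F := by
        intro c w
        refine le_trans (le_of_eq ?_) (hfib 0 (c * w⁻¹))
        congr 2
        refine filter_congr fun t _ => ?_
        constructor
        · intro h
          rw [← h, mul_inv_rev, inv_inv, mul_inv_cancel_left]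
        · intro h
          rw [h, mul_inv_rev, inv_inv, inv_mul_cancel_right]
      fin_cases i
      · refine le_trans (Nat.cast_le.mpr (card_le_card ?_)) (hgen 0 (fun a b => φ 0 a * φ 1 b) (fun a w => ?_)
          (A 1 (m₀ 1)) (A 2 (m₀ 2)) (hAb 1) (hAb 2))
        · intro p hp
          rw [mem_filter] at hp ⊢
          refine ⟨hp.1, ?_⟩
          obtain ⟨γ, hγ⟩ := hp.2
          refine ⟨fun t => γ * (φ 2 t)⁻¹, hright γ, ?_⟩
          rw [grep0] at hγ
          simpa [hmix] using hγ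
        · refine le_trans (le_of_eq ?_) (hfib 1 ((φ 0 a)⁻¹ * w))
          congr 2
          refine filter_congr fun t _ => ?_
          constructor
          · intro h
            rw [← h, inv_mul_cancel_left]
          · intro h
            rw [h, mul_inv_cancel_left]
      · refine le_trans (Nat.cast_le.mpr (card_le_card ?_)) (hgen 1 (fun a b => φ 1 a * φ 2 b) (fun a w => ?_)
          (A 2 (m₀ 2)) (B 0 (m₀ 0)) (hAb 2) (hBb 0))
        · intro p hp
          rw [mem_filter] at hp ⊢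
          refine ⟨hp.1, ?_⟩
          obtain ⟨γ, hγ⟩ := hp.2
          refine ⟨fun t => (φ 0 t)⁻¹ * γ, hleft γ, ?_⟩
          rw [grep1] at hγ
          simpa [hmix] using hγ
        · refine le_trans (le_of_eq ?_) (hfib 2 ((φ 1 a)⁻¹ * w))
          congr 2
          refine filter_congr fun t _ => ?_
          constructor
          · intro h
            rw [← h, inv_mul_cancel_left]
          · intro h
            rw [h, mul_inv_cancel_left]
      · refine le_trans (Nat.cast_le.mpr (card_le_card ?_)) (hgen 2 (fun a b => φ 1 b * φ 2 a) (fun a w => ?_)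
          (B 1 (m₀ 1)) (B 0 (m₀ 0)) (hBb 1) (hBb 0))
        · intro p hp
          rw [mem_filter] at hp ⊢
          refine ⟨hp.1, ?_⟩
          obtain ⟨γ, hγ⟩ := hp.2
          refine ⟨fun t => (φ 0 t)⁻¹ * γ, hleft γ, ?_⟩
          rw [grep2] at hγ
          simpa [hmix] using hγ
        · refine le_trans (le_of_eq ?_) (hfib 1 (w * (φ 2 a)⁻¹))
          congr 2
          refine filter_congr fun t _ => ?_
          constructor
          · intro h
            rw [← h, mul_inv_cancel_right]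
          · intro h
            rw [h, inv_mul_cancel_right]
    -- counting
    have hcount : (X i).card * (P i).card ≤
        ∑ m₀ ∈ S, ((P i).filter (fun p => ∃ γ : Γ, ε * (x : ℝ) ^ 3 / Fintype.card Γ <
        |grep x φ (Function.update (mix i (Function.update m₀ i p)) i (fun t => A i p t - B i p t)) γ|)).card := by
      have e1 : ∑ m₀ ∈ S, ((P i).filter (fun p => ∃ γ : Γ, ε * (x : ℝ) ^ 3 / Fintype.card Γ <
          |grep x φ (Function.update (mix i (Function.update m₀ i p)) i (fun t => A i p t - B i p t)) γ|)).card =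
          ((S ×ˢ P i).filter (fun q : (Fin 3 → ι) × ι => ∃ γ : Γ, ε * (x : ℝ) ^ 3 / Fintype.card Γ <
          |grep x φ (Function.update (mix i (Function.update q.1 i q.2)) i (fun t => A i q.2 t - B i q.2 t)) γ|)).card := by
        rw [card_filter, sum_product]
        refine sum_congr rfl fun m₀ _ => ?_
        rw [card_filter]
      rw [e1, ← card_product]
      refine card_le_card_of_injOn (fun q => (Function.update q.1 i q.2, q.1 i)) (fun q hq => ?_) (fun q hq q' hq' h => ?_)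
      · have hq1 := mem_product.mp (mem_coe.mp hq)
        have hq2 := mem_filter.mp hq1.1
        have hq3 := Fintype.mem_piFinset.mp hq2.1
        refine mem_coe.mpr (mem_filter.mpr ⟨mem_product.mpr ⟨Fintype.mem_piFinset.mpr fun j => ?_, hq3 i⟩, ?_⟩)
        · by_cases hj : j = i
          · subst hj
            simp only [Function.update_self]
            exact hq1.2
          · simp only [Function.update_of_ne hj]
            exact hq3 j
        · obtain ⟨γ, hγ⟩ := hq2.2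
          refine ⟨γ, ?_⟩
          simp only [Function.update_idem, Function.update_eq_self]
          exact hγ
      · have h1 : Function.update q.1 i q.2 = Function.update q'.1 i q'.2 := (Prod.ext_iff.mp h).1
        have h2 : q.1 i = q'.1 i := (Prod.ext_iff.mp h).2
        have h3 : q.2 = q'.2 := by
          have := congrFun h1 i
          simpa using this
        have h4 : q.1 = q'.1 := by
          funext j
          by_cases hj : j = i
          · subst hj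
            exact h2
          · have := congrFun h1 j
            simpa [Function.update_of_ne hj] using this
        exact Prod.ext h4 h3
    have hcount' : ((X i).card : ℝ) * (P i).card ≤ (∏ j, ((P j).card : ℝ)) * (W i / (3 * L ^ U)) := by
      calc ((X i).card : ℝ) * (P i).card ≤ ∑ m₀ ∈ S, (((P i).filter (fun p => ∃ γ : Γ,
            ε * (x : ℝ) ^ 3 / Fintype.card Γ < |grep x φ (Function.update (mix i (Function.update m₀ i p)) i
              (fun t => A i p t - B i p t)) γ|)).card : ℝ) := by exact_mod_cast hcount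
        _ ≤ ∑ _m₀ ∈ S, W i / (3 * L ^ U) := sum_le_sum hfibre
        _ = (S.card : ℝ) * (W i / (3 * L ^ U)) := by rw [sum_const, nsmul_eq_mul]
        _ = _ := by
            rw [hS, Fintype.card_piFinset]
            push_cast
            rfl
    by_cases hPi : (P i).card = 0
    · have hX0 : (X i).card = 0 := by
        rw [card_eq_zero, eq_empty_iff_forall_notMem]
        intro m hm
        have h1 := Fintype.mem_piFinset.mp (mem_filter.mp hm).1 i
        rw [card_eq_zero.mp hPi] at h1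
        exact absurd h1 (notMem_empty _)
      rw [hX0, Nat.cast_zero]
      exact div_nonneg (prod_nonneg fun j _ => hW0 j) (by positivity)
    · have hPi0 : (0 : ℝ) < (P i).card := by exact_mod_cast Nat.pos_of_ne_zero hPi
      have e1 : (∏ j, ((P j).card : ℝ)) = (P i).card * ∏ j ∈ univ.erase i, ((P j).card : ℝ) :=
        (mul_prod_erase univ _ (mem_univ i)).symm
      have e2 : ((X i).card : ℝ) * (P i).card ≤ ((∏ j ∈ univ.erase i, ((P j).card : ℝ)) * (W i / (3 * L ^ U))) * (P i).card := by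
        refine hcount'.trans (le_of_eq ?_)
        rw [e1]
        ring
      have e3 := le_of_mul_le_mul_right e2 hPi0
      refine e3.trans ?_
      have e4 : ∏ j ∈ univ.erase i, ((P j).card : ℝ) ≤ ∏ j ∈ univ.erase i, W j :=
        prod_le_prod (fun _ _ => Nat.cast_nonneg _) fun j _ => hW j
      have := hW0 i
      calc (∏ j ∈ univ.erase i, ((P j).card : ℝ)) * (W i / (3 * L ^ U)) ≤
            (∏ j ∈ univ.erase i, W j) * (W i / (3 * L ^ U)) := mul_le_mul_of_nonneg_right e4 (by positivity)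
        _ = (W i * ∏ j ∈ univ.erase i, W j) / (3 * L ^ U) := by ring
        _ = _ := by rw [mul_prod_erase univ _ (mem_univ i)]
  calc ((S.filter (fun m : Fin 3 → ι => ∃ γ : Γ, (x : ℝ) ^ 3 / (Fintype.card Γ * L ^ U) <
      |grep x φ (fun j => A j (m j)) γ - grep x φ (fun j => B j (m j)) γ|)).card : ℝ)
      ≤ ((X 0 ∪ X 1 ∪ X 2).card : ℝ) := Nat.cast_le.mpr (card_le_card hsub)
    _ ≤ (X 0).card + (X 1).card + (X 2).card := by
        have e1 := card_union_le (X 0 ∪ X 1) (X 2)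
        have e2 := card_union_le (X 0) (X 1)
        exact_mod_cast e1.trans (Nat.add_le_add_right e2 _)
    _ ≤ _ := by
        have c0 := hcard 0
        have c1 := hcard 1
        have c2 := hcard 2
        have e1 : (∏ j, W j) / L ^ U = 3 * ((∏ j, W j) / (3 * L ^ U)) := by field_simp
        rw [e1]
        linarith

end Pool.Agent.Run7.h17.Grp
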