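import Mathlib
import Pool.Agent.Run7.h17.ABS2
import Pool.Agent.Run7.h17.PolyBDH

/-! Prime values of polynomials at the members of an arbitrary sequence, in the classes of the index. -/

set_option autoImplicit false
set_option maxHeartbeats 4000000

namespace Pool.Agent.Run7.h17.PB

open Finset Polynomial
open Pool.Agent.H373R2.T7 (energy ev_L' ev_log' lamI lamzI)
open Pool.Agent.TH823.Fam (energy_poly' poly_size)

lemma energy_comp (p x X : ℕ) (s : ℕ → ℤ) (u : ℕ → ℕ) (hu : Set.InjOn u (Icc 1 x : Finset ℕ))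
    (hX : ∀ t ∈ Icc 1 x, u t ∈ Icc 1 X) : energy p x (fun t => s (u t)) ≤ energy p X s := by
  unfold energy
  refine card_le_card_of_injOn (fun q => (fun i => u (q.1 i), fun i => u (q.2 i))) (fun q hq => ?_)
    (fun q hq q' hq' h => ?_)
  · have h1 := mem_filter.mp (mem_coe.mp hq)
    have h2 := mem_product.mp h1.1
    refine mem_coe.mpr (mem_filter.mpr ⟨mem_product.mpr ⟨?_, ?_⟩, h1.2⟩)
    · rw [Fintype.mem_piFinset]
      exact fun i => hX _ (Fintype.mem_piFinset.mp h2.1 i)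
    · rw [Fintype.mem_piFinset]
      exact fun i => hX _ (Fintype.mem_piFinset.mp h2.2 i)
  · have h1 := (mem_product.mp (mem_filter.mp (mem_coe.mp hq)).1)
    have h2 := (mem_product.mp (mem_filter.mp (mem_coe.mp hq')).1)
    simp only [Prod.mk.injEq] at h
    have e1 : q.1 = q'.1 := by
      ext i
      exact hu (mem_coe.mpr (Fintype.mem_piFinset.mp h1.1 i)) (mem_coe.mpr (Fintype.mem_piFinset.mp h2.1 i))
        (congrFun h.1 i)
    have e2 : q.2 = q'.2 := by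
      ext i
      exact hu (mem_coe.mpr (Fintype.mem_piFinset.mp h1.2 i)) (mem_coe.mpr (Fintype.mem_piFinset.mp h2.2 i))
        (congrFun h.2 i)
    exact Prod.ext e1 e2

/-- the hypotheses of the duality theorem for polynomials along a sequence -/
theorem seq_dual (k : ℕ) (F : Fin k → ℤ[X]) (hF : ∀ i, 1 ≤ (F i).natDegree) (κ U : ℕ) :
    ∃ B0 : ℕ, ∀ E : ℕ, ∃ x0 : ℕ, ∀ x : ℕ, x0 ≤ x → ∀ M : Fin k → ℕ,
    (∀ i, (x : ℝ) ^ (F i).natDegree ≤ Real.log x ^ κ * M i ∧ (M i : ℝ) ≤ Real.log x ^ κ * x ^ (F i).natDegree) →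
    ∀ a : Fin k → ℤ, (∀ i, ((|a i| : ℤ) : ℝ) ≤ Real.log x ^ κ * M i) →
    ∀ u : ℕ → ℕ, (∀ t ∈ Icc 1 x, 1 ≤ u t ∧ (u t : ℝ) ≤ Real.log x ^ κ * x) → Set.InjOn u (Icc 1 x : Finset ℕ) →
    ∀ z : ℕ, Real.log x ^ B0 ≤ z → (z : ℝ) ≤ Real.log x ^ E →
    (∀ c ∈ Fintype.piFinset (fun i => Icc 1 (M i)), ∀ t ∈ Icc 1 x,
      |pd z (fun i t => a i + (F i).eval (u t : ℤ)) c t| ≤ Real.log x ^ (2 * k)) ∧
    ∀ A : ℕ, A ≤ x → ∀ G : ℕ → ℝ, (∀ t, |G t| ≤ 1) →
    ∑ c ∈ Fintype.piFinset (fun i => Icc 1 (M i)), |∑ t ∈ Icc 1 A, G t *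
      pd z (fun i t => a i + (F i).eval (u t : ℤ)) c t| ≤ x * (∏ i, (M i : ℝ)) / Real.log x ^ U := by
  classical
  obtain ⟨p, C, hC, hE⟩ := energy_polys k F hF
  choose A hA using fun i => poly_size (F i)
  set D : ℕ := ∑ i, (F i).natDegree with hD
  set S : ℕ := ∑ i, A i with hS
  set K : ℕ := κ * (D + 2) + 1 with hK
  set Ce : ℕ := 2 * p * κ + κ + K + 1 with hCe
  obtain ⟨B0, hB0⟩ := Pool.Agent.Run7.h17.PT.dual_prod k p (D + 2) Ce (U + k * (K + 1))
  refine ⟨B0, fun E => ?_⟩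
  obtain ⟨n1, h1⟩ := hB0 E
  obtain ⟨n2, h2⟩ := ev_L' (2 * C + S + 3)
  obtain ⟨n3, h3⟩ := ev_log' (κ + K) 2
  refine ⟨n1 + n2 + n3 + 2, fun x hx M hM a ha u hu huinj z hz1 hz2 => ?_⟩
  have hLg := h2 x (by omega)
  have h3' := h3 x (by omega)
  have h1' := h1 x (by omega)
  have hx1 : 1 ≤ x := by omega
  have hxr : (1 : ℝ) ≤ x := by exact_mod_cast hx1
  have hx0 : (0 : ℝ) < x := by linarith
  obtain ⟨L, hLd⟩ : ∃ L, L = Real.log x := ⟨_, rfl⟩
  rw [← hLd] at hLg h3' hM ha hu hz1 hz2 h1' ⊢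
  have hS0 : (0 : ℝ) ≤ S := Nat.cast_nonneg _
  have hL1 : 1 ≤ L := by linarith
  have hL3 : 3 ≤ L := by linarith
  have hL0 : 0 < L := by linarith
  have hκ1 : 1 ≤ L ^ κ := one_le_pow₀ hL1
  have hK1 : 1 ≤ L ^ K := one_le_pow₀ hL1
  obtain ⟨T, hT⟩ : ∃ T : ℕ, T = ⌈L ^ K⌉₊ := ⟨_, rfl⟩
  have hT1 : L ^ K ≤ T := by rw [hT]; exact Nat.le_ceil _
  have hT2 : (T : ℝ) ≤ 2 * L ^ K := by
    have := Nat.ceil_lt_add_one (a := L ^ K) (by positivity)
    rw [← hT] at this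
    linarith
  have hT3 : (T : ℝ) ≤ L ^ (K + 1) := by
    rw [pow_succ]
    nlinarith
  have hTr : (1 : ℝ) ≤ T := hK1.trans hT1
  have hTn : 1 ≤ T := by exact_mod_cast hTr
  have hdeg : ∀ i, (F i).natDegree ≤ D := fun i =>
    single_le_sum (f := fun i => (F i).natDegree) (fun _ _ => Nat.zero_le _) (mem_univ i)
  have hAS : ∀ i, A i ≤ S := fun i => single_le_sum (f := A) (fun _ _ => Nat.zero_le _) (mem_univ i)
  have hκK : L ^ κ ≤ L ^ K := pow_le_pow_right₀ hL1 (by rw [hK]; nlinarith)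
  obtain ⟨X, hX⟩ : ∃ X : ℕ, X = ⌊L ^ κ * x⌋₊ := ⟨_, rfl⟩
  have hX1 : (X : ℝ) ≤ L ^ κ * x := by rw [hX]; exact Nat.floor_le (by positivity)
  have hxX : x ≤ X := by
    rw [hX]
    apply Nat.le_floor
    nlinarith
  have huX : ∀ t ∈ Icc 1 x, u t ∈ Icc 1 X := by
    intro t ht
    rw [mem_Icc]
    refine ⟨(hu t ht).1, ?_⟩
    rw [hX]
    exact Nat.le_floor (hu t ht).2
  have hX1n : 1 ≤ X := hx1.trans hxX
  have hlow : ∀ i, (x : ℝ) ^ (F i).natDegree ≤ (M i : ℝ) * T := fun i => by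
    calc (x : ℝ) ^ (F i).natDegree ≤ L ^ κ * M i := (hM i).1
      _ ≤ T * M i := mul_le_mul_of_nonneg_right (hκK.trans hT1) (Nat.cast_nonneg _)
      _ = _ := mul_comm _ _
  have key := h1' (fun i => M i * T) (fun i => ⟨by
      have e1 : (x : ℝ) ≤ (x : ℝ) ^ (F i).natDegree := by
        calc (x : ℝ) = (x : ℝ) ^ 1 := (pow_one _).symm
          _ ≤ _ := pow_le_pow_right₀ hxr (hF i)
      have e2 : (x : ℝ) ≤ ((M i * T : ℕ) : ℝ) := by
        push_cast
        exact e1.trans (hlow i)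
      have e3 : x ≤ M i * T := by exact_mod_cast e2
      exact e3.trans (Nat.le_mul_of_pos_left _ (by omega)), by
      push_cast
      calc (M i : ℝ) * T ≤ (L ^ κ * x ^ (F i).natDegree) * (2 * L ^ K) := by
            apply mul_le_mul (hM i).2 hT2 (by positivity) (by positivity)
        _ = (2 * L ^ (κ + K)) * x ^ (F i).natDegree := by rw [pow_add]; ring
        _ ≤ √x * x ^ (F i).natDegree := mul_le_mul_of_nonneg_right h3' (by positivity)
        _ ≤ x * x ^ (F i).natDegree := by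
            apply mul_le_mul_of_nonneg_right _ (by positivity)
            rw [Real.sqrt_le_left hx0.le]
            nlinarith
        _ = (x : ℝ) ^ ((F i).natDegree + 1) := by ring
        _ ≤ (x : ℝ) ^ (D + 2) := pow_le_pow_right₀ hxr (by have := hdeg i; omega)⟩)
    (fun i t => a i + (F i).eval (u t : ℤ)) (fun i t ht => by
      have e1 := hA i X hX1n (u t) (huX t ht)
      have e3 : |a i + (F i).eval (u t : ℤ)| ≤ |a i| + |(F i).eval (u t : ℤ)| := abs_add_le _ _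
      have e4 : ((|(F i).eval (u t : ℤ)| : ℤ) : ℝ) ≤ S * (L ^ κ * x) ^ (F i).natDegree := by
        calc ((|(F i).eval (u t : ℤ)| : ℤ) : ℝ) ≤ ((A i * (X : ℤ) ^ (F i).natDegree : ℤ) : ℝ) := by exact_mod_cast e1
          _ = (A i : ℝ) * (X : ℝ) ^ (F i).natDegree := by push_cast; ring
          _ ≤ S * (L ^ κ * x) ^ (F i).natDegree := by
              apply mul_le_mul (by exact_mod_cast hAS i) (pow_le_pow_left₀ (Nat.cast_nonneg _) hX1 _) (by positivity) hS0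
      have e5 : (S : ℝ) * (L ^ κ * x) ^ (F i).natDegree ≤ L * (L ^ (κ * D) * (L ^ κ * M i)) := by
        calc (S : ℝ) * (L ^ κ * x) ^ (F i).natDegree = S * (L ^ (κ * (F i).natDegree) * (x : ℝ) ^ (F i).natDegree) := by
              rw [mul_pow, pow_mul]
          _ ≤ L * (L ^ (κ * D) * (L ^ κ * M i)) := by
              apply mul_le_mul (by linarith) _ (by positivity) hL0.le
              apply mul_le_mul _ (hM i).1 (by positivity) (by positivity)
              exact pow_le_pow_right₀ hL1 (Nat.mul_le_mul_left _ (hdeg i))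
      have e6 : ((|a i + (F i).eval (u t : ℤ)| : ℤ) : ℝ) ≤ 2 * (L ^ K * M i) := by
        calc ((|a i + (F i).eval (u t : ℤ)| : ℤ) : ℝ) ≤ ((|a i| + |(F i).eval (u t : ℤ)| : ℤ) : ℝ) := by exact_mod_cast e3
          _ = ((|a i| : ℤ) : ℝ) + ((|(F i).eval (u t : ℤ)| : ℤ) : ℝ) := by push_cast; ring
          _ ≤ L ^ κ * M i + L * (L ^ (κ * D) * (L ^ κ * M i)) := add_le_add (ha i) (e4.trans e5)
          _ ≤ L ^ K * M i + L ^ K * M i := by
              apply add_le_add (mul_le_mul_of_nonneg_right hκK (Nat.cast_nonneg _))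
              have : L * (L ^ (κ * D) * (L ^ κ * M i)) = L ^ (κ * D + κ + 1) * M i := by
                rw [pow_succ, pow_add]
                ring
              rw [this]
              apply mul_le_mul_of_nonneg_right _ (Nat.cast_nonneg _)
              exact pow_le_pow_right₀ hL1 (by rw [hK]; nlinarith)
          _ = _ := by ring
      have e7 : ((|a i + (F i).eval (u t : ℤ)| : ℤ) : ℝ) ≤ ((((D + 2 : ℕ) : ℤ) * ((M i * T : ℕ) : ℤ) : ℤ) : ℝ) := by
        refine e6.trans ?_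
        push_cast
        have f1 : L ^ K * M i ≤ M i * T := by
          rw [mul_comm]
          exact mul_le_mul_of_nonneg_left hT1 (Nat.cast_nonneg _)
        have f2 : (0 : ℝ) ≤ D := Nat.cast_nonneg _
        have f3 : (0 : ℝ) ≤ (M i : ℝ) * T := by positivity
        nlinarith
      exact_mod_cast e7)
    (fun i => by
      have e1 := hE X hX1n i (a i)
      have e2 := energy_comp p x X (fun m => a i + (F i).eval (m : ℤ)) u huinj huX
      have e3 : (energy p x (fun t => a i + (F i).eval (u t : ℤ)) : ℝ) * (x : ℝ) ^ (F i).natDegree ≤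
          C * (L ^ κ * x) ^ (2 * p) := by
        calc (energy p x (fun t => a i + (F i).eval (u t : ℤ)) : ℝ) * (x : ℝ) ^ (F i).natDegree
            ≤ (energy p X (fun m => a i + (F i).eval (m : ℤ)) : ℝ) * (X : ℝ) ^ (F i).natDegree := by
              apply mul_le_mul (by exact_mod_cast e2) _ (by positivity) (by positivity)
              exact pow_le_pow_left₀ hx0.le (by exact_mod_cast hxX) _
          _ ≤ C * (X : ℝ) ^ (2 * p) := e1
          _ ≤ C * (L ^ κ * x) ^ (2 * p) :=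
              mul_le_mul_of_nonneg_left (pow_le_pow_left₀ (Nat.cast_nonneg _) hX1 _) hC.le
      push_cast
      calc (energy p x (fun t => a i + (F i).eval (u t : ℤ)) : ℝ) * ((M i : ℝ) * T)
          ≤ (energy p x (fun t => a i + (F i).eval (u t : ℤ)) : ℝ) * ((L ^ κ * x ^ (F i).natDegree) * (2 * L ^ K)) := by
            apply mul_le_mul_of_nonneg_left _ (Nat.cast_nonneg _)
            exact mul_le_mul (hM i).2 hT2 (by positivity) (by positivity)
        _ = (2 * L ^ (κ + K)) * ((energy p x (fun t => a i + (F i).eval (u t : ℤ)) : ℝ) * (x : ℝ) ^ (F i).natDegree) := by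
            rw [pow_add]; ring
        _ ≤ (2 * L ^ (κ + K)) * (C * (L ^ κ * x) ^ (2 * p)) := mul_le_mul_of_nonneg_left e3 (by positivity)
        _ = (2 * C) * L ^ (2 * p * κ + κ + K) * (x : ℝ) ^ (2 * p) := by
            rw [mul_pow, ← pow_mul, show 2 * p * κ + κ + K = (κ + K) + κ * (2 * p) by ring, pow_add L (κ + K)]
            ring
        _ ≤ L * L ^ (2 * p * κ + κ + K) * (x : ℝ) ^ (2 * p) := by
            apply mul_le_mul_of_nonneg_right _ (by positivity)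
            apply mul_le_mul_of_nonneg_right _ (by positivity)
            linarith
        _ = L ^ Ce * (x : ℝ) ^ (2 * p) := by
            rw [hCe, pow_succ]
            ring) z hz1 hz2
  obtain ⟨k1, k2⟩ := key
  have hsub : Fintype.piFinset (fun i => Icc 1 (M i)) ⊆ Fintype.piFinset (fun i => Icc 1 (M i * T)) := by
    intro c hc
    rw [Fintype.mem_piFinset] at hc ⊢
    intro i
    have := hc i
    rw [mem_Icc] at this ⊢
    exact ⟨this.1, this.2.trans (Nat.le_mul_of_pos_right _ hTn)⟩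
  refine ⟨fun c hc t ht => k1 c (hsub hc) t ht, fun A hA G hG => ?_⟩
  refine le_trans (sum_le_sum_of_subset_of_nonneg hsub fun _ _ _ => abs_nonneg _) ?_
  refine (k2 A hA G hG).trans ?_
  have hprod : 0 ≤ ∏ i, (M i : ℝ) := prod_nonneg fun _ _ => Nat.cast_nonneg _
  have e1 : ∏ i, ((M i * T : ℕ) : ℝ) ≤ (∏ i, (M i : ℝ)) * L ^ (k * (K + 1)) := by
    push_cast
    rw [prod_mul_distrib, prod_const, card_univ, Fintype.card_fin, mul_comm k, pow_mul]
    exact mul_le_mul_of_nonneg_left (pow_le_pow_left₀ (by positivity) hT3 _) hprod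
  calc (x : ℝ) * (∏ i, ((M i * T : ℕ) : ℝ)) / L ^ (U + k * (K + 1))
      ≤ x * ((∏ i, (M i : ℝ)) * L ^ (k * (K + 1))) / L ^ (U + k * (K + 1)) := by gcongr
    _ = _ := by
        rw [pow_add]
        field_simp

open Classical in
theorem seq_var (k : ℕ) (F : Fin k → ℤ[X]) (hF : ∀ i, 1 ≤ (F i).natDegree) (κ U : ℕ) :
    ∃ B0 : ℕ, ∀ E : ℕ, ∃ x0 : ℕ, ∀ x : ℕ, x0 ≤ x → ∀ M : Fin k → ℕ,
    (∀ i, (x : ℝ) ^ (F i).natDegree ≤ Real.log x ^ κ * M i ∧ (M i : ℝ) ≤ Real.log x ^ κ * x ^ (F i).natDegree) →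
    ∀ a : Fin k → ℤ, (∀ i, ((|a i| : ℤ) : ℝ) ≤ Real.log x ^ κ * M i) →
    ∀ u : ℕ → ℕ, (∀ t ∈ Icc 1 x, 1 ≤ u t ∧ (u t : ℝ) ≤ Real.log x ^ κ * x) → Set.InjOn u (Icc 1 x : Finset ℕ) →
    ∀ z : ℕ, Real.log x ^ B0 ≤ z → (z : ℝ) ≤ Real.log x ^ E →
    ∀ L : ℕ, (L : ℝ) ≤ Real.log x ^ κ → ∀ θ : Fin L → ℕ → ℝ, (∀ l, ∀ t ∈ Icc 1 x, |θ l t| ≤ Real.log x ^ κ) →
    (((Fintype.piFinset (fun i => Icc 1 (M i))).filter (fun m : Fin k → ℕ => ¬ ∀ l, ∀ A : ℕ, A ≤ x → ∀ Q : ℕ,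
      |∑ q ∈ Icc 1 Q, ∑ b ∈ range q, (∑ t ∈ Icc 1 A, if t % q = b then
        θ l t * pd z (fun i t => a i + (F i).eval (u t : ℤ)) m t else 0) ^ 2 -
        Q * ∑ t ∈ Icc 1 A, (θ l t * pd z (fun i t => a i + (F i).eval (u t : ℤ)) m t) ^ 2| ≤
        (x : ℝ) ^ 2 / Real.log x ^ U)).card : ℝ) ≤ (∏ i, (M i : ℝ)) / Real.log x ^ U := by
  obtain ⟨U', n1, h1⟩ := ABS.var (2 * k + κ) U
  obtain ⟨B0, hB0⟩ := seq_dual k F hF κ U'
  refine ⟨B0, fun E => ?_⟩
  obtain ⟨n2, h2⟩ := hB0 E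
  obtain ⟨n3, h3⟩ := ev_L' 2
  refine ⟨n1 + n2 + n3, fun x hx M hM a ha u hu huinj z hz1 hz2 L hL θ hθ => ?_⟩
  have hlog := h3 x (by omega)
  obtain ⟨e1, e2⟩ := h2 x (by omega) M hM a ha u hu huinj z hz1 hz2
  have hm1 : Real.log x ^ (2 * k) ≤ Real.log x ^ (2 * k + κ) := pow_le_pow_right₀ (by linarith) (by omega)
  have hm2 : Real.log x ^ κ ≤ Real.log x ^ (2 * k + κ) := pow_le_pow_right₀ (by linarith) (by omega)
  exact h1 x (by omega) x (by
    have : (0 : ℝ) ≤ x := Nat.cast_nonneg _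
    nlinarith) (Fintype.piFinset (fun i => Icc 1 (M i)))
    (fun m t => pd z (fun i t => a i + (F i).eval (u t : ℤ)) m t) (∏ i, (M i : ℝ)) (prod_nonneg fun _ _ => Nat.cast_nonneg _)
    (fun m hm t ht => (e1 m hm t ht).trans hm1) e2 L (hL.trans hm2) θ (fun l t ht => (hθ l t ht).trans hm2)

end Pool.Agent.Run7.h17.PB
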