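import Mathlib
import Pool.Agent.Run7.h17.Seq
import Pool.Agent.Run7.h17.Bin2
import Pool.Agent.Run7.h17.Grp2

/-! Polynomials along several sequences: binary equations in the indices, equations in groups. -/

set_option autoImplicit false
set_option maxHeartbeats 4000000

namespace Pool.Agent.Run7.h17.PB

open Finset Polynomial
open Pool.Agent.H373R2.T7 (energy ev_L' ev_log' lamI lamzI)
open Pool.Agent.TH823.Fam (energy_poly' poly_size)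
open Pool.Agent.Run7.h17.Tern (prod_bd weight_L1 bin2 Rare rep2)

/-- the hypotheses of the duality theorem for polynomials along several sequences -/
theorem seq_dual2 (k : ℕ) (F : Fin k → ℤ[X]) (hF : ∀ i, 1 ≤ (F i).natDegree) (κ U : ℕ) :
    ∃ B0 : ℕ, ∀ E : ℕ, ∃ x0 : ℕ, ∀ x : ℕ, x0 ≤ x → ∀ M : Fin k → ℕ,
    (∀ i, (x : ℝ) ^ (F i).natDegree ≤ Real.log x ^ κ * M i ∧ (M i : ℝ) ≤ Real.log x ^ κ * x ^ (F i).natDegree) →
    ∀ a : Fin k → ℤ, (∀ i, ((|a i| : ℤ) : ℝ) ≤ Real.log x ^ κ * M i) →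
    ∀ u : Fin k → ℕ → ℕ, (∀ i, ∀ t ∈ Icc 1 x, 1 ≤ u i t ∧ (u i t : ℝ) ≤ Real.log x ^ κ * x) →
    (∀ i, Set.InjOn (u i) (Icc 1 x : Finset ℕ)) →
    ∀ z : ℕ, Real.log x ^ B0 ≤ z → (z : ℝ) ≤ Real.log x ^ E →
    (∀ c ∈ Fintype.piFinset (fun i => Icc 1 (M i)), ∀ t ∈ Icc 1 x,
      |pd z (fun i t => a i + (F i).eval (u i t : ℤ)) c t| ≤ Real.log x ^ (2 * k)) ∧
    ∀ A : ℕ, A ≤ x → ∀ G : ℕ → ℝ, (∀ t, |G t| ≤ 1) →
    ∑ c ∈ Fintype.piFinset (fun i => Icc 1 (M i)), |∑ t ∈ Icc 1 A, G t *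
      pd z (fun i t => a i + (F i).eval (u i t : ℤ)) c t| ≤ x * (∏ i, (M i : ℝ)) / Real.log x ^ U := by
  classical
  obtain ⟨p, C, hC, hE⟩ := energy_polys k F hF
  choose A hA using fun i => poly_size (F i)
  set D : ℕ := ∑ i, (F i).natDegree with hD
  set S : ℕ := ∑ i, A i with hS
  set K : ℕ := κ * (D + 2) + 1 with hK
  set Ce : ℕ := 2 * p * κ + κ + K + 1 with hCe
  obtain ⟨B0, hB0⟩ := Pool.Agent.Run7.h17.PT.dual_prod k p (D + 2) Ce (U + k * (K + 1))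
  refine ⟨B0, fun E => ?_⟩
  obtain ⟨n1, h1⟩ := hB0 E
  obtain ⟨n2, h2⟩ := ev_L' (2 * C + S + 3)
  obtain ⟨n3, h3⟩ := ev_log' (κ + K) 2
  refine ⟨n1 + n2 + n3 + 2, fun x hx M hM a ha u hu huinj z hz1 hz2 => ?_⟩
  have hLg := h2 x (by omega)
  have h3' := h3 x (by omega)
  have h1' := h1 x (by omega)
  have hx1 : 1 ≤ x := by omega
  have hxr : (1 : ℝ) ≤ x := by exact_mod_cast hx1
  have hx0 : (0 : ℝ) < x := by linarith
  obtain ⟨L, hLd⟩ : ∃ L, L = Real.log x := ⟨_, rfl⟩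
  rw [← hLd] at hLg h3' hM ha hu hz1 hz2 h1' ⊢
  have hS0 : (0 : ℝ) ≤ S := Nat.cast_nonneg _
  have hL1 : 1 ≤ L := by linarith
  have hL3 : 3 ≤ L := by linarith
  have hL0 : 0 < L := by linarith
  have hκ1 : 1 ≤ L ^ κ := one_le_pow₀ hL1
  have hK1 : 1 ≤ L ^ K := one_le_pow₀ hL1
  obtain ⟨T, hT⟩ : ∃ T : ℕ, T = ⌈L ^ K⌉₊ := ⟨_, rfl⟩
  have hT1 : L ^ K ≤ T := by rw [hT]; exact Nat.le_ceil _
  have hT2 : (T : ℝ) ≤ 2 * L ^ K := by
    have := Nat.ceil_lt_add_one (a := L ^ K) (by positivity)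
    rw [← hT] at this
    linarith
  have hT3 : (T : ℝ) ≤ L ^ (K + 1) := by
    rw [pow_succ]
    nlinarith
  have hTr : (1 : ℝ) ≤ T := hK1.trans hT1
  have hTn : 1 ≤ T := by exact_mod_cast hTr
  have hdeg : ∀ i, (F i).natDegree ≤ D := fun i =>
    single_le_sum (f := fun i => (F i).natDegree) (fun _ _ => Nat.zero_le _) (mem_univ i)
  have hAS : ∀ i, A i ≤ S := fun i => single_le_sum (f := A) (fun _ _ => Nat.zero_le _) (mem_univ i)
  have hκK : L ^ κ ≤ L ^ K := pow_le_pow_right₀ hL1 (by rw [hK]; nlinarith)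
  obtain ⟨X, hX⟩ : ∃ X : ℕ, X = ⌊L ^ κ * x⌋₊ := ⟨_, rfl⟩
  have hX1 : (X : ℝ) ≤ L ^ κ * x := by rw [hX]; exact Nat.floor_le (by positivity)
  have hxX : x ≤ X := by
    rw [hX]
    apply Nat.le_floor
    nlinarith
  have huX : ∀ i, ∀ t ∈ Icc 1 x, u i t ∈ Icc 1 X := by
    intro i t ht
    rw [mem_Icc]
    refine ⟨(hu i t ht).1, ?_⟩
    rw [hX]
    exact Nat.le_floor (hu i t ht).2
  have hX1n : 1 ≤ X := hx1.trans hxX
  have hlow : ∀ i, (x : ℝ) ^ (F i).natDegree ≤ (M i : ℝ) * T := fun i => by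
    calc (x : ℝ) ^ (F i).natDegree ≤ L ^ κ * M i := (hM i).1
      _ ≤ T * M i := mul_le_mul_of_nonneg_right (hκK.trans hT1) (Nat.cast_nonneg _)
      _ = _ := mul_comm _ _
  have key := h1' (fun i => M i * T) (fun i => ⟨by
      have e1 : (x : ℝ) ≤ (x : ℝ) ^ (F i).natDegree := by
        calc (x : ℝ) = (x : ℝ) ^ 1 := (pow_one _).symm
          _ ≤ _ := pow_le_pow_right₀ hxr (hF i)
      have e2 : (x : ℝ) ≤ ((M i * T : ℕ) : ℝ) := by
        push_cast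
        exact e1.trans (hlow i)
      have e3 : x ≤ M i * T := by exact_mod_cast e2
      exact e3.trans (Nat.le_mul_of_pos_left _ (by omega)), by
      push_cast
      calc (M i : ℝ) * T ≤ (L ^ κ * x ^ (F i).natDegree) * (2 * L ^ K) := by
            apply mul_le_mul (hM i).2 hT2 (by positivity) (by positivity)
        _ = (2 * L ^ (κ + K)) * x ^ (F i).natDegree := by rw [pow_add]; ring
        _ ≤ √x * x ^ (F i).natDegree := mul_le_mul_of_nonneg_right h3' (by positivity)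
        _ ≤ x * x ^ (F i).natDegree := by
            apply mul_le_mul_of_nonneg_right _ (by positivity)
            rw [Real.sqrt_le_left hx0.le]
            nlinarith
        _ = (x : ℝ) ^ ((F i).natDegree + 1) := by ring
        _ ≤ (x : ℝ) ^ (D + 2) := pow_le_pow_right₀ hxr (by have := hdeg i; omega)⟩)
    (fun i t => a i + (F i).eval (u i t : ℤ)) (fun i t ht => by
      have e1 := hA i X hX1n (u i t) (huX i t ht)
      have e3 : |a i + (F i).eval (u i t : ℤ)| ≤ |a i| + |(F i).eval (u i t : ℤ)| := abs_add_le _ _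
      have e4 : ((|(F i).eval (u i t : ℤ)| : ℤ) : ℝ) ≤ S * (L ^ κ * x) ^ (F i).natDegree := by
        calc ((|(F i).eval (u i t : ℤ)| : ℤ) : ℝ) ≤ ((A i * (X : ℤ) ^ (F i).natDegree : ℤ) : ℝ) := by exact_mod_cast e1
          _ = (A i : ℝ) * (X : ℝ) ^ (F i).natDegree := by push_cast; ring
          _ ≤ S * (L ^ κ * x) ^ (F i).natDegree := by
              apply mul_le_mul (by exact_mod_cast hAS i) (pow_le_pow_left₀ (Nat.cast_nonneg _) hX1 _) (by positivity) hS0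
      have e5 : (S : ℝ) * (L ^ κ * x) ^ (F i).natDegree ≤ L * (L ^ (κ * D) * (L ^ κ * M i)) := by
        calc (S : ℝ) * (L ^ κ * x) ^ (F i).natDegree = S * (L ^ (κ * (F i).natDegree) * (x : ℝ) ^ (F i).natDegree) := by
              rw [mul_pow, pow_mul]
          _ ≤ L * (L ^ (κ * D) * (L ^ κ * M i)) := by
              apply mul_le_mul (by linarith) _ (by positivity) hL0.le
              apply mul_le_mul _ (hM i).1 (by positivity) (by positivity)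
              exact pow_le_pow_right₀ hL1 (Nat.mul_le_mul_left _ (hdeg i))
      have e6 : ((|a i + (F i).eval (u i t : ℤ)| : ℤ) : ℝ) ≤ 2 * (L ^ K * M i) := by
        calc ((|a i + (F i).eval (u i t : ℤ)| : ℤ) : ℝ) ≤ ((|a i| + |(F i).eval (u i t : ℤ)| : ℤ) : ℝ) := by exact_mod_cast e3
          _ = ((|a i| : ℤ) : ℝ) + ((|(F i).eval (u i t : ℤ)| : ℤ) : ℝ) := by push_cast; ring
          _ ≤ L ^ κ * M i + L * (L ^ (κ * D) * (L ^ κ * M i)) := add_le_add (ha i) (e4.trans e5)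
          _ ≤ L ^ K * M i + L ^ K * M i := by
              apply add_le_add (mul_le_mul_of_nonneg_right hκK (Nat.cast_nonneg _))
              have : L * (L ^ (κ * D) * (L ^ κ * M i)) = L ^ (κ * D + κ + 1) * M i := by
                rw [pow_succ, pow_add]
                ring
              rw [this]
              apply mul_le_mul_of_nonneg_right _ (Nat.cast_nonneg _)
              exact pow_le_pow_right₀ hL1 (by rw [hK]; nlinarith)
          _ = _ := by ring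
      have e7 : ((|a i + (F i).eval (u i t : ℤ)| : ℤ) : ℝ) ≤ ((((D + 2 : ℕ) : ℤ) * ((M i * T : ℕ) : ℤ) : ℤ) : ℝ) := by
        refine e6.trans ?_
        push_cast
        have f1 : L ^ K * M i ≤ M i * T := by
          rw [mul_comm]
          exact mul_le_mul_of_nonneg_left hT1 (Nat.cast_nonneg _)
        have f2 : (0 : ℝ) ≤ D := Nat.cast_nonneg _
        have f3 : (0 : ℝ) ≤ (M i : ℝ) * T := by positivity
        nlinarith
      exact_mod_cast e7)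
    (fun i => by
      have e1 := hE X hX1n i (a i)
      have e2 := energy_comp p x X (fun m => a i + (F i).eval (m : ℤ)) (u i) (huinj i) (huX i)
      have e3 : (energy p x (fun t => a i + (F i).eval (u i t : ℤ)) : ℝ) * (x : ℝ) ^ (F i).natDegree ≤
          C * (L ^ κ * x) ^ (2 * p) := by
        calc (energy p x (fun t => a i + (F i).eval (u i t : ℤ)) : ℝ) * (x : ℝ) ^ (F i).natDegree
            ≤ (energy p X (fun m => a i + (F i).eval (m : ℤ)) : ℝ) * (X : ℝ) ^ (F i).natDegree := by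
              apply mul_le_mul (by exact_mod_cast e2) _ (by positivity) (by positivity)
              exact pow_le_pow_left₀ hx0.le (by exact_mod_cast hxX) _
          _ ≤ C * (X : ℝ) ^ (2 * p) := e1
          _ ≤ C * (L ^ κ * x) ^ (2 * p) :=
              mul_le_mul_of_nonneg_left (pow_le_pow_left₀ (Nat.cast_nonneg _) hX1 _) hC.le
      push_cast
      calc (energy p x (fun t => a i + (F i).eval (u i t : ℤ)) : ℝ) * ((M i : ℝ) * T)
          ≤ (energy p x (fun t => a i + (F i).eval (u i t : ℤ)) : ℝ) * ((L ^ κ * x ^ (F i).natDegree) * (2 * L ^ K)) := by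
            apply mul_le_mul_of_nonneg_left _ (Nat.cast_nonneg _)
            exact mul_le_mul (hM i).2 hT2 (by positivity) (by positivity)
        _ = (2 * L ^ (κ + K)) * ((energy p x (fun t => a i + (F i).eval (u i t : ℤ)) : ℝ) * (x : ℝ) ^ (F i).natDegree) := by
            rw [pow_add]; ring
        _ ≤ (2 * L ^ (κ + K)) * (C * (L ^ κ * x) ^ (2 * p)) := mul_le_mul_of_nonneg_left e3 (by positivity)
        _ = (2 * C) * L ^ (2 * p * κ + κ + K) * (x : ℝ) ^ (2 * p) := by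
            rw [mul_pow, ← pow_mul, show 2 * p * κ + κ + K = (κ + K) + κ * (2 * p) by ring, pow_add L (κ + K)]
            ring
        _ ≤ L * L ^ (2 * p * κ + κ + K) * (x : ℝ) ^ (2 * p) := by
            apply mul_le_mul_of_nonneg_right _ (by positivity)
            apply mul_le_mul_of_nonneg_right _ (by positivity)
            linarith
        _ = L ^ Ce * (x : ℝ) ^ (2 * p) := by
            rw [hCe, pow_succ]
            ring) z hz1 hz2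
  obtain ⟨k1, k2⟩ := key
  have hsub : Fintype.piFinset (fun i => Icc 1 (M i)) ⊆ Fintype.piFinset (fun i => Icc 1 (M i * T)) := by
    intro c hc
    rw [Fintype.mem_piFinset] at hc ⊢
    intro i
    have := hc i
    rw [mem_Icc] at this ⊢
    exact ⟨this.1, this.2.trans (Nat.le_mul_of_pos_right _ hTn)⟩
  refine ⟨fun c hc t ht => k1 c (hsub hc) t ht, fun A hA G hG => ?_⟩
  refine le_trans (sum_le_sum_of_subset_of_nonneg hsub fun _ _ _ => abs_nonneg _) ?_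
  refine (k2 A hA G hG).trans ?_
  have hprod : 0 ≤ ∏ i, (M i : ℝ) := prod_nonneg fun _ _ => Nat.cast_nonneg _
  have e1 : ∏ i, ((M i * T : ℕ) : ℝ) ≤ (∏ i, (M i : ℝ)) * L ^ (k * (K + 1)) := by
    push_cast
    rw [prod_mul_distrib, prod_const, card_univ, Fintype.card_fin, mul_comm k, pow_mul]
    exact mul_le_mul_of_nonneg_left (pow_le_pow_left₀ (by positivity) hT3 _) hprod
  calc (x : ℝ) * (∏ i, ((M i * T : ℕ) : ℝ)) / L ^ (U + k * (K + 1))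
      ≤ x * ((∏ i, (M i : ℝ)) * L ^ (k * (K + 1))) / L ^ (U + k * (K + 1)) := by gcongr
    _ = _ := by
        rw [pow_add]
        field_simp

/-- the package for one variable -/
theorem seq_pack (k : ℕ) (F : Fin k → ℤ[X]) (hF : ∀ i, 1 ≤ (F i).natDegree) (κ U : ℕ) :
    ∃ B0 : ℕ, ∀ E : ℕ, ∃ x0 : ℕ, ∀ x : ℕ, x0 ≤ x → ∀ M : Fin k → ℕ,
    (∀ i, (x : ℝ) ^ (F i).natDegree ≤ Real.log x ^ κ * M i ∧ (M i : ℝ) ≤ Real.log x ^ κ * x ^ (F i).natDegree) →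
    ∀ a : Fin k → ℤ, (∀ i, ((|a i| : ℤ) : ℝ) ≤ Real.log x ^ κ * M i) →
    ∀ u : Fin k → ℕ → ℕ, (∀ i, ∀ t ∈ Icc 1 x, 1 ≤ u i t ∧ (u i t : ℝ) ≤ Real.log x ^ κ * x) →
    (∀ i, Set.InjOn (u i) (Icc 1 x : Finset ℕ)) →
    ∀ z : ℕ, Real.log x ^ B0 ≤ z → (z : ℝ) ≤ Real.log x ^ E →
    ∀ θ : ℕ → ℝ, (∀ t ∈ Icc 1 x, |θ t| ≤ Real.log x ^ κ) →
    (∀ c ∈ Fintype.piFinset (fun i => Icc 1 (M i)), ∀ t ∈ Icc 1 x,
      |θ t * ∏ i, lamI (a i + (F i).eval (u i t : ℤ) + (c i : ℤ))| ≤ Real.log x ^ (2 * k + κ) ∧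
      |θ t * ∏ i, lamzI z (a i + (F i).eval (u i t : ℤ) + (c i : ℤ))| ≤ Real.log x ^ (2 * k + κ)) ∧
    ∀ G : ℕ → ℝ, (∀ t, |G t| ≤ 1) →
    ∑ c ∈ Fintype.piFinset (fun i => Icc 1 (M i)), |∑ t ∈ Icc 1 x, G t *
      (θ t * ∏ i, lamI (a i + (F i).eval (u i t : ℤ) + (c i : ℤ)) -
        θ t * ∏ i, lamzI z (a i + (F i).eval (u i t : ℤ) + (c i : ℤ)))| ≤
      x * (∏ i, (M i : ℝ)) / Real.log x ^ U := by
  classical
  obtain ⟨B0, hB0⟩ := seq_dual2 k F hF κ (U + κ)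
  refine ⟨B0, fun E => ?_⟩
  obtain ⟨n2, h2⟩ := hB0 E
  choose A hA using fun i => poly_size (F i)
  set D : ℕ := ∑ i, (F i).natDegree with hD
  set S : ℕ := ∑ i, A i with hS
  obtain ⟨n3, h3⟩ := prod_bd k (D + 1) E
  obtain ⟨n4, h4⟩ := ev_L' 1
  obtain ⟨n5, h5⟩ := ev_log' (2 * κ + κ * D) (S + 2)
  refine ⟨n2 + n3 + n4 + n5 + 1, fun x hx M hM a ha u hu huinj z hz1 hz2 θ hθ => ?_⟩
  have hL1 := h4 x (by omega)
  have h5' := h5 x (by omega)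
  have hx1n : 1 ≤ x := by omega
  have hx1 : (1 : ℝ) ≤ x := by exact_mod_cast hx1n
  have hx0 : (0 : ℝ) < x := by linarith
  have hz : 1 ≤ z := by
    have : (1 : ℝ) ≤ z := (one_le_pow₀ hL1).trans hz1
    exact_mod_cast this
  have hκ0 : 0 < Real.log x ^ κ := by positivity
  have hκ1 : 1 ≤ Real.log x ^ κ := one_le_pow₀ hL1
  have hbd := h3 x (by omega) z hz hz2
  have hdeg : ∀ i, (F i).natDegree ≤ D := fun i =>
    single_le_sum (f := fun i => (F i).natDegree) (fun _ _ => Nat.zero_le _) (mem_univ i)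
  have hAS : ∀ i, A i ≤ S := fun i => single_le_sum (f := A) (fun _ _ => Nat.zero_le _) (mem_univ i)
  obtain ⟨X, hX⟩ : ∃ X : ℕ, X = ⌊Real.log x ^ κ * x⌋₊ := ⟨_, rfl⟩
  have hX1 : (X : ℝ) ≤ Real.log x ^ κ * x := by rw [hX]; exact Nat.floor_le (by positivity)
  have hxX : x ≤ X := by
    rw [hX]
    apply Nat.le_floor
    nlinarith
  have hw : ∀ m ∈ Fintype.piFinset (fun i => Icc 1 (M i)), ∀ t ∈ Icc 1 x, ∀ i,
      ((a i + (F i).eval (u i t : ℤ) + (m i : ℤ) : ℤ) : ℝ) ≤ (x : ℝ) ^ (D + 1) := by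
    intro m hm t ht i
    have huX : u i t ∈ Icc 1 X := by
      rw [mem_Icc]
      refine ⟨(hu i t ht).1, ?_⟩
      rw [hX]
      exact Nat.le_floor (hu i t ht).2
    have e1 := hA i X (hx1n.trans hxX) (u i t) huX
    have e2 := Fintype.mem_piFinset.mp hm i
    rw [mem_Icc] at e2
    have e3 := (hM i).2
    have f1 : ((a i : ℤ) : ℝ) ≤ Real.log x ^ (2 * κ + κ * D) * (x : ℝ) ^ (F i).natDegree := by
      have g1 : ((a i : ℤ) : ℝ) ≤ ((|a i| : ℤ) : ℝ) := by exact_mod_cast le_abs_self _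
      calc ((a i : ℤ) : ℝ) ≤ Real.log x ^ κ * M i := g1.trans (ha i)
        _ ≤ Real.log x ^ κ * (Real.log x ^ κ * x ^ (F i).natDegree) := mul_le_mul_of_nonneg_left e3 hκ0.le
        _ = Real.log x ^ (2 * κ) * (x : ℝ) ^ (F i).natDegree := by ring
        _ ≤ _ := mul_le_mul_of_nonneg_right (pow_le_pow_right₀ hL1 (by omega)) (by positivity)
    have f2 : (((F i).eval (u i t : ℤ) : ℤ) : ℝ) ≤ S * (Real.log x ^ (2 * κ + κ * D) * (x : ℝ) ^ (F i).natDegree) := by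
      have g1 : (((F i).eval (u i t : ℤ) : ℤ) : ℝ) ≤ ((A i * (X : ℤ) ^ (F i).natDegree : ℤ) : ℝ) := by
        exact_mod_cast (le_abs_self _).trans e1
      refine g1.trans ?_
      push_cast
      apply mul_le_mul (by exact_mod_cast hAS i) _ (by positivity) (Nat.cast_nonneg _)
      calc (X : ℝ) ^ (F i).natDegree ≤ (Real.log x ^ κ * x) ^ (F i).natDegree :=
            pow_le_pow_left₀ (Nat.cast_nonneg _) hX1 _
        _ = Real.log x ^ (κ * (F i).natDegree) * (x : ℝ) ^ (F i).natDegree := by rw [mul_pow, pow_mul]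
        _ ≤ _ := by
            apply mul_le_mul_of_nonneg_right _ (by positivity)
            apply pow_le_pow_right₀ hL1
            have := Nat.mul_le_mul_left κ (hdeg i)
            omega
    have f3 : ((m i : ℤ) : ℝ) ≤ Real.log x ^ (2 * κ + κ * D) * (x : ℝ) ^ (F i).natDegree := by
      have g1 : ((m i : ℤ) : ℝ) ≤ (M i : ℝ) := by exact_mod_cast e2.2
      calc ((m i : ℤ) : ℝ) ≤ Real.log x ^ κ * x ^ (F i).natDegree := g1.trans e3
        _ ≤ _ := mul_le_mul_of_nonneg_right (pow_le_pow_right₀ hL1 (by omega)) (by positivity)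
    calc ((a i + (F i).eval (u i t : ℤ) + (m i : ℤ) : ℤ) : ℝ) =
          ((a i : ℤ) : ℝ) + (((F i).eval (u i t : ℤ) : ℤ) : ℝ) + ((m i : ℤ) : ℝ) := by push_cast; ring
      _ ≤ ((S + 2) * Real.log x ^ (2 * κ + κ * D)) * (x : ℝ) ^ (F i).natDegree := by linarith
      _ ≤ √x * (x : ℝ) ^ (F i).natDegree := mul_le_mul_of_nonneg_right h5' (by positivity)
      _ ≤ x * (x : ℝ) ^ (F i).natDegree := by
          apply mul_le_mul_of_nonneg_right _ (by positivity)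
          rw [Real.sqrt_le_left hx0.le]
          nlinarith
      _ = (x : ℝ) ^ ((F i).natDegree + 1) := by ring
      _ ≤ _ := pow_le_pow_right₀ hx1 (by have := hdeg i; omega)
  refine ⟨fun m hm t ht => ?_, fun G hG => ?_⟩
  · obtain ⟨c1, c2⟩ := hbd (fun i => a i + (F i).eval (u i t : ℤ) + (m i : ℤ)) (hw m hm t ht)
    have c3 := hθ t ht
    rw [abs_mul, abs_mul, pow_add, mul_comm (Real.log x ^ (2 * k))]
    exact ⟨mul_le_mul c3 c1 (abs_nonneg _) hκ0.le, mul_le_mul c3 c2 (abs_nonneg _) hκ0.le⟩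
  · have e1 := (h2 x (by omega) M hM a ha u hu huinj z hz1 hz2).2 x le_rfl
    have e2 := weight_L1 (Fintype.piFinset (fun i => Icc 1 (M i))) x (Real.log x ^ κ) _ hκ0 θ hθ
      (fun m t => pd z (fun i t => a i + (F i).eval (u i t : ℤ)) m t) e1 G hG
    have e3 : ∀ m : Fin k → ℕ, ∑ t ∈ Icc 1 x, G t * (θ t * ∏ i, lamI (a i + (F i).eval (u i t : ℤ) + (m i : ℤ)) -
        θ t * ∏ i, lamzI z (a i + (F i).eval (u i t : ℤ) + (m i : ℤ))) =
        ∑ t ∈ Icc 1 x, G t * (θ t * pd z (fun i t => a i + (F i).eval (u i t : ℤ)) m t) := by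
      intro m
      refine sum_congr rfl fun t _ => ?_
      unfold pd
      ring
    rw [sum_congr rfl fun m _ => by rw [e3 m]]
    refine e2.trans (le_of_eq ?_)
    rw [pow_add]
    field_simp

open Classical in
/-- sums of two indices -/
theorem bin_seq (k₁ k₂ : ℕ) (F₁ : Fin k₁ → ℤ[X]) (F₂ : Fin k₂ → ℤ[X]) (hF₁ : ∀ i, 1 ≤ (F₁ i).natDegree)
    (hF₂ : ∀ i, 1 ≤ (F₂ i).natDegree) (κ U : ℕ) :
    ∃ B0 : ℕ, ∀ E : ℕ, ∃ x0 : ℕ, ∀ x : ℕ, x0 ≤ x → ∀ (M₁ : Fin k₁ → ℕ) (M₂ : Fin k₂ → ℕ),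
    (∀ i, (x : ℝ) ^ (F₁ i).natDegree ≤ Real.log x ^ κ * M₁ i ∧ (M₁ i : ℝ) ≤ Real.log x ^ κ * x ^ (F₁ i).natDegree) →
    (∀ i, (x : ℝ) ^ (F₂ i).natDegree ≤ Real.log x ^ κ * M₂ i ∧ (M₂ i : ℝ) ≤ Real.log x ^ κ * x ^ (F₂ i).natDegree) →
    ∀ (a₁ : Fin k₁ → ℤ) (a₂ : Fin k₂ → ℤ), (∀ i, ((|a₁ i| : ℤ) : ℝ) ≤ Real.log x ^ κ * M₁ i) →
    (∀ i, ((|a₂ i| : ℤ) : ℝ) ≤ Real.log x ^ κ * M₂ i) →
    ∀ (u₁ : Fin k₁ → ℕ → ℕ) (u₂ : Fin k₂ → ℕ → ℕ),
    (∀ i, ∀ t ∈ Icc 1 x, 1 ≤ u₁ i t ∧ (u₁ i t : ℝ) ≤ Real.log x ^ κ * x) →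
    (∀ i, ∀ t ∈ Icc 1 x, 1 ≤ u₂ i t ∧ (u₂ i t : ℝ) ≤ Real.log x ^ κ * x) →
    (∀ i, Set.InjOn (u₁ i) (Icc 1 x : Finset ℕ)) → (∀ i, Set.InjOn (u₂ i) (Icc 1 x : Finset ℕ)) →
    ∀ z : ℕ, Real.log x ^ B0 ≤ z → (z : ℝ) ≤ Real.log x ^ E →
    ∀ θ₁ θ₂ : ℕ → ℝ, (∀ t ∈ Icc 1 x, |θ₁ t| ≤ Real.log x ^ κ) → (∀ t ∈ Icc 1 x, |θ₂ t| ≤ Real.log x ^ κ) →
    ∀ b c : ℤ, b ≠ 0 → c ≠ 0 → ((|b| + |c| : ℤ) : ℝ) ≤ Real.log x ^ κ →
    (((Fintype.piFinset (fun i => Icc 1 (M₁ i)) ×ˢ Fintype.piFinset (fun i => Icc 1 (M₂ i))).filter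
      (fun m : (Fin k₁ → ℕ) × (Fin k₂ → ℕ) => ¬ Rare ((|b| + |c|) * x) (fun n =>
        rep2 x b c (fun t => θ₁ t * ∏ i, lamI (a₁ i + (F₁ i).eval (u₁ i t : ℤ) + (m.1 i : ℤ)))
          (fun t => θ₂ t * ∏ i, lamI (a₂ i + (F₂ i).eval (u₂ i t : ℤ) + (m.2 i : ℤ))) n -
        rep2 x b c (fun t => θ₁ t * ∏ i, lamzI z (a₁ i + (F₁ i).eval (u₁ i t : ℤ) + (m.1 i : ℤ)))
          (fun t => θ₂ t * ∏ i, lamzI z (a₂ i + (F₂ i).eval (u₂ i t : ℤ) + (m.2 i : ℤ))) n)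
        (x / Real.log x ^ U) (x / Real.log x ^ U))).card : ℝ) ≤
      (∏ i, (M₁ i : ℝ)) * (∏ i, (M₂ i : ℝ)) / Real.log x ^ U := by
  obtain ⟨U', n1, h1⟩ := bin2 (2 * k₁ + 2 * k₂ + κ) U
  obtain ⟨B1, hB1⟩ := seq_pack k₁ F₁ hF₁ κ U'
  obtain ⟨B2, hB2⟩ := seq_pack k₂ F₂ hF₂ κ U'
  refine ⟨B1 + B2, fun E => ?_⟩
  obtain ⟨n2, h2⟩ := hB1 E
  obtain ⟨n3, h3⟩ := hB2 E
  obtain ⟨n4, h4⟩ := ev_L' 1
  refine ⟨n1 + n2 + n3 + n4, fun x hx M₁ M₂ hM₁ hM₂ a₁ a₂ ha₁ ha₂ u₁ u₂ hu₁ hu₂ hi₁ hi₂ z hz1 hz2 θ₁ θ₂ hθ₁ hθ₂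
    b c hb hc hbc => ?_⟩
  have hL1 := h4 x (by omega)
  have hz1' : Real.log x ^ B1 ≤ z := (pow_le_pow_right₀ hL1 (by omega)).trans hz1
  have hz2' : Real.log x ^ B2 ≤ z := (pow_le_pow_right₀ hL1 (by omega)).trans hz1
  obtain ⟨p1, p2⟩ := h2 x (by omega) M₁ hM₁ a₁ ha₁ u₁ hu₁ hi₁ z hz1' hz2 θ₁ hθ₁
  obtain ⟨q1, q2⟩ := h3 x (by omega) M₂ hM₂ a₂ ha₂ u₂ hu₂ hi₂ z hz2' hz2 θ₂ hθ₂
  have hm1 : Real.log x ^ (2 * k₁ + κ) ≤ Real.log x ^ (2 * k₁ + 2 * k₂ + κ) := pow_le_pow_right₀ hL1 (by omega)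
  have hm2 : Real.log x ^ (2 * k₂ + κ) ≤ Real.log x ^ (2 * k₁ + 2 * k₂ + κ) := pow_le_pow_right₀ hL1 (by omega)
  have hm3 : Real.log x ^ κ ≤ Real.log x ^ (2 * k₁ + 2 * k₂ + κ) := pow_le_pow_right₀ hL1 (by omega)
  have hcard : ∀ (k : ℕ) (M : Fin k → ℕ), ((Fintype.piFinset (fun i => Icc 1 (M i))).card : ℝ) ≤ ∏ i, (M i : ℝ) := by
    intro k M
    rw [Fintype.card_piFinset]
    push_cast
    refine prod_le_prod (fun _ _ => Nat.cast_nonneg _) fun i _ => ?_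
    rw [Nat.card_Icc]
    simp
  exact h1 x (by omega) (Fintype.piFinset (fun i => Icc 1 (M₁ i))) (Fintype.piFinset (fun i => Icc 1 (M₂ i)))
    (fun m t => θ₁ t * ∏ i, lamI (a₁ i + (F₁ i).eval (u₁ i t : ℤ) + (m i : ℤ)))
    (fun m t => θ₁ t * ∏ i, lamzI z (a₁ i + (F₁ i).eval (u₁ i t : ℤ) + (m i : ℤ)))
    (fun m t => θ₂ t * ∏ i, lamI (a₂ i + (F₂ i).eval (u₂ i t : ℤ) + (m i : ℤ)))
    (fun m t => θ₂ t * ∏ i, lamzI z (a₂ i + (F₂ i).eval (u₂ i t : ℤ) + (m i : ℤ)))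
    (∏ i, (M₁ i : ℝ)) (∏ i, (M₂ i : ℝ)) (hcard k₁ M₁) (hcard k₂ M₂)
    (fun m hm t ht => ⟨(p1 m hm t ht).1.trans hm1, (p1 m hm t ht).2.trans hm1⟩)
    (fun m hm t ht => ⟨(q1 m hm t ht).1.trans hm2, (q1 m hm t ht).2.trans hm2⟩)
    p2 q2 b c hb hc (hbc.trans hm3)

end Pool.Agent.Run7.h17.PB
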