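import Mathlib
import Pool.Agent.Run7.h17.Seq2

/-! Weights bounded in square mean, families of weights. -/

set_option autoImplicit false
set_option maxHeartbeats 4000000

namespace Pool.Agent.Run7.h17.L2

open Finset Polynomial
open Pool.Agent.H373R2.T7 (energy ev_L' ev_log' lamI lamzI)
open Pool.Agent.Run7.h17.PB (pd seq_dual2)

/-- from bounded weights to weights bounded in square mean -/
lemma L2_weight {ι : Type} (P : Finset ι) (x : ℕ) (T δ V Q : ℝ) (hT : 0 < T) (hV : 0 ≤ V) (f : ι → ℕ → ℝ)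
    (hf : ∀ m ∈ P, ∀ t ∈ Icc 1 x, |f m t| ≤ V)
    (h : ∀ G : ℕ → ℝ, (∀ t, |G t| ≤ 1) → ∑ m ∈ P, |∑ t ∈ Icc 1 x, G t * f m t| ≤ δ)
    (g : ℕ → ℝ) (hg : ∑ t ∈ Icc 1 x, g t ^ 2 ≤ Q) :
    ∑ m ∈ P, |∑ t ∈ Icc 1 x, g t * f m t| ≤ T * δ + P.card * (V * (Q / T)) := by
  classical
  obtain ⟨G, hG⟩ : ∃ G : ℕ → ℝ, G = fun t => if |g t| ≤ T then g t / T else 0 := ⟨_, rfl⟩
  obtain ⟨r, hr⟩ : ∃ r : ℕ → ℝ, r = fun t => if |g t| ≤ T then 0 else g t := ⟨_, rfl⟩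
  have e1 : ∀ t, g t = T * G t + r t := by
    intro t
    rw [hG, hr]
    simp only
    split_ifs with h1
    · field_simp
      ring
    · ring
  have e2 : ∀ t, |G t| ≤ 1 := by
    intro t
    rw [hG]
    simp only
    split_ifs with h1
    · rw [abs_div, abs_of_pos hT, div_le_one hT]
      exact h1
    · simp
  have e3 : ∀ t, |r t| ≤ g t ^ 2 / T := by
    intro t
    rw [hr]
    simp only
    split_ifs with h1
    · rw [abs_zero]; positivity
    · rw [le_div_iff₀ hT]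
      have h2 : T ≤ |g t| := (not_le.mp h1).le
      calc |g t| * T ≤ |g t| * |g t| := mul_le_mul_of_nonneg_left h2 (abs_nonneg _)
        _ = g t ^ 2 := by rw [← sq, sq_abs]
  have e4 : ∀ m ∈ P, |∑ t ∈ Icc 1 x, g t * f m t| ≤ T * |∑ t ∈ Icc 1 x, G t * f m t| + V * (Q / T) := by
    intro m hm
    have f1 : ∑ t ∈ Icc 1 x, g t * f m t = T * ∑ t ∈ Icc 1 x, G t * f m t + ∑ t ∈ Icc 1 x, r t * f m t := by
      rw [mul_sum, ← sum_add_distrib]
      refine sum_congr rfl fun t _ => ?_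
      rw [e1 t]
      ring
    rw [f1]
    refine (abs_add_le _ _).trans (add_le_add ?_ ?_)
    · rw [abs_mul, abs_of_pos hT]
    · refine (abs_sum_le_sum_abs _ _).trans ?_
      calc ∑ t ∈ Icc 1 x, |r t * f m t| ≤ ∑ t ∈ Icc 1 x, g t ^ 2 / T * V := by
            refine sum_le_sum fun t ht => ?_
            rw [abs_mul]
            exact mul_le_mul (e3 t) (hf m hm t ht) (abs_nonneg _) (by positivity)
        _ = V * ((∑ t ∈ Icc 1 x, g t ^ 2) / T) := by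
            rw [sum_div, mul_sum]
            exact sum_congr rfl fun t _ => by ring
        _ ≤ V * (Q / T) := by
            apply mul_le_mul_of_nonneg_left _ hV
            gcongr
  calc ∑ m ∈ P, |∑ t ∈ Icc 1 x, g t * f m t|
      ≤ ∑ m ∈ P, (T * |∑ t ∈ Icc 1 x, G t * f m t| + V * (Q / T)) := sum_le_sum e4
    _ = T * ∑ m ∈ P, |∑ t ∈ Icc 1 x, G t * f m t| + P.card * (V * (Q / T)) := by
        rw [sum_add_distrib, ← mul_sum, sum_const, nsmul_eq_mul]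
    _ ≤ _ := by
        have := mul_le_mul_of_nonneg_left (h G e2) hT.le
        linarith

/-- Markov's inequality twice -/
lemma markov2 {ι : Type} (P : Finset ι) (S : Finset ℕ) (D : ι → ℕ → ℝ) (hD : ∀ c ∈ P, ∀ n ∈ S, 0 ≤ D c n)
    (δ y r : ℝ) (hy : 0 < y) (hr : 0 < r) (h : ∑ c ∈ P, ∑ n ∈ S, D c n ≤ δ) :
    ((P.filter (fun c => ¬ ((S.filter (fun n => y < D c n)).card : ℝ) ≤ r)).card : ℝ) ≤ δ / (y * r) := by
  classical
  rw [le_div_iff₀ (by positivity)]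
  refine le_trans ?_ h
  calc ((P.filter (fun c => ¬ ((S.filter (fun n => y < D c n)).card : ℝ) ≤ r)).card : ℝ) * (y * r)
      = ∑ c ∈ P.filter (fun c => ¬ ((S.filter (fun n => y < D c n)).card : ℝ) ≤ r), y * r := by
        rw [sum_const, nsmul_eq_mul]
    _ ≤ ∑ c ∈ P.filter (fun c => ¬ ((S.filter (fun n => y < D c n)).card : ℝ) ≤ r), ∑ n ∈ S, D c n := by
        refine sum_le_sum fun c hc => ?_
        rw [mem_filter] at hc
        have h1 : r ≤ ((S.filter (fun n => y < D c n)).card : ℝ) := (not_le.mp hc.2).le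
        calc y * r ≤ y * ((S.filter (fun n => y < D c n)).card : ℝ) := mul_le_mul_of_nonneg_left h1 hy.le
          _ = ∑ n ∈ S.filter (fun n => y < D c n), y := by rw [sum_const, nsmul_eq_mul]; ring
          _ ≤ ∑ n ∈ S.filter (fun n => y < D c n), D c n :=
              sum_le_sum fun n hn => (mem_filter.mp hn).2.le
          _ ≤ ∑ n ∈ S, D c n :=
              sum_le_sum_of_subset_of_nonneg (filter_subset _ _) fun n hn _ => hD c hc.1 n hn
    _ ≤ ∑ c ∈ P, ∑ n ∈ S, D c n :=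
        sum_le_sum_of_subset_of_nonneg (filter_subset _ _) fun c hc _ => sum_nonneg fun n hn => hD c hc n hn

/-- polynomials along sequences, weights bounded in square mean -/
theorem seq_L2 (k : ℕ) (F : Fin k → ℤ[X]) (hF : ∀ i, 1 ≤ (F i).natDegree) (κ U : ℕ) :
    ∃ B0 : ℕ, ∀ E : ℕ, ∃ x0 : ℕ, ∀ x : ℕ, x0 ≤ x → ∀ M : Fin k → ℕ,
    (∀ i, (x : ℝ) ^ (F i).natDegree ≤ Real.log x ^ κ * M i ∧ (M i : ℝ) ≤ Real.log x ^ κ * x ^ (F i).natDegree) →
    ∀ a : Fin k → ℤ, (∀ i, ((|a i| : ℤ) : ℝ) ≤ Real.log x ^ κ * M i) →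
    ∀ u : Fin k → ℕ → ℕ, (∀ i, ∀ t ∈ Icc 1 x, 1 ≤ u i t ∧ (u i t : ℝ) ≤ Real.log x ^ κ * x) →
    (∀ i, Set.InjOn (u i) (Icc 1 x : Finset ℕ)) →
    ∀ z : ℕ, Real.log x ^ B0 ≤ z → (z : ℝ) ≤ Real.log x ^ E →
    ∀ g : ℕ → ℝ, (∑ t ∈ Icc 1 x, g t ^ 2 ≤ x * Real.log x ^ κ) →
    ∑ c ∈ Fintype.piFinset (fun i => Icc 1 (M i)), |∑ t ∈ Icc 1 x, g t *
      pd z (fun i t => a i + (F i).eval (u i t : ℤ)) c t| ≤ x * (∏ i, (M i : ℝ)) / Real.log x ^ U := by
  classical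
  obtain ⟨A, hA⟩ : ∃ A : ℕ, A = κ + 2 * k + U + 1 := ⟨_, rfl⟩
  obtain ⟨B0, hB0⟩ := seq_dual2 k F hF κ (U + A + 1)
  refine ⟨B0, fun E => ?_⟩
  obtain ⟨n1, h1⟩ := hB0 E
  obtain ⟨n2, h2⟩ := ev_L' 2
  refine ⟨n1 + n2, fun x hx M hM a ha u hu huinj z hz1 hz2 g hg => ?_⟩
  have hL2 := h2 x (by omega)
  have hL1 : 1 ≤ Real.log x := by linarith
  have hL0 : 0 < Real.log x := by linarith
  obtain ⟨p1, p2⟩ := h1 x (by omega) M hM a ha u hu huinj z hz1 hz2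
  have hcard : ((Fintype.piFinset (fun i => Icc 1 (M i))).card : ℝ) ≤ ∏ i, (M i : ℝ) := by
    rw [Fintype.card_piFinset]
    push_cast
    refine prod_le_prod (fun _ _ => Nat.cast_nonneg _) fun i _ => ?_
    rw [Nat.card_Icc]
    simp
  have hprod : 0 ≤ ∏ i, (M i : ℝ) := prod_nonneg fun _ _ => Nat.cast_nonneg _
  have key := L2_weight (Fintype.piFinset (fun i => Icc 1 (M i))) x (Real.log x ^ A)
    (x * (∏ i, (M i : ℝ)) / Real.log x ^ (U + A + 1)) (Real.log x ^ (2 * k)) (x * Real.log x ^ κ) (by positivity)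
    (by positivity) (fun c t => pd z (fun i t => a i + (F i).eval (u i t : ℤ)) c t) p1 (fun G hG => p2 x le_rfl G hG) g hg
  refine key.trans ?_
  have e1 : Real.log x ^ A * (x * (∏ i, (M i : ℝ)) / Real.log x ^ (U + A + 1)) =
      x * (∏ i, (M i : ℝ)) / Real.log x ^ (U + 1) := by
    rw [show U + A + 1 = A + (U + 1) by ring, pow_add]
    field_simp
  have e2 : Real.log x ^ (2 * k) * (x * Real.log x ^ κ / Real.log x ^ A) = x / Real.log x ^ (U + 1) := by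
    have f : Real.log x ^ A = Real.log x ^ (2 * k) * Real.log x ^ κ * Real.log x ^ (U + 1) := by
      rw [← pow_add, ← pow_add]
      congr 1
      omega
    rw [f]
    field_simp
  rw [e1, e2]
  have e3 : ((Fintype.piFinset (fun i => Icc 1 (M i))).card : ℝ) * (x / Real.log x ^ (U + 1)) ≤
      x * (∏ i, (M i : ℝ)) / Real.log x ^ (U + 1) := by
    calc _ ≤ (∏ i, (M i : ℝ)) * (x / Real.log x ^ (U + 1)) :=
          mul_le_mul_of_nonneg_right hcard (by positivity)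
      _ = _ := by ring
  have e4 : 2 * (x * (∏ i, (M i : ℝ)) / Real.log x ^ (U + 1)) ≤ x * (∏ i, (M i : ℝ)) / Real.log x ^ U := by
    rw [pow_succ, ← mul_div_assoc, div_le_div_iff₀ (by positivity) (by positivity)]
    have : 0 ≤ (x : ℝ) * (∏ i, (M i : ℝ)) * Real.log x ^ U := by positivity
    nlinarith
  linarith

/-- many weights at the same time -/
theorem seq_family (k : ℕ) (F : Fin k → ℤ[X]) (hF : ∀ i, 1 ≤ (F i).natDegree) (κ U : ℕ) :
    ∃ B0 : ℕ, ∀ E : ℕ, ∃ x0 : ℕ, ∀ x : ℕ, x0 ≤ x → ∀ M : Fin k → ℕ,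
    (∀ i, (x : ℝ) ^ (F i).natDegree ≤ Real.log x ^ κ * M i ∧ (M i : ℝ) ≤ Real.log x ^ κ * x ^ (F i).natDegree) →
    ∀ a : Fin k → ℤ, (∀ i, ((|a i| : ℤ) : ℝ) ≤ Real.log x ^ κ * M i) →
    ∀ u : Fin k → ℕ → ℕ, (∀ i, ∀ t ∈ Icc 1 x, 1 ≤ u i t ∧ (u i t : ℝ) ≤ Real.log x ^ κ * x) →
    (∀ i, Set.InjOn (u i) (Icc 1 x : Finset ℕ)) →
    ∀ z : ℕ, Real.log x ^ B0 ≤ z → (z : ℝ) ≤ Real.log x ^ E →
    ∀ (S : Finset ℕ) (R : ℝ), (S.card : ℝ) ≤ R → 0 < R → ∀ g : ℕ → ℕ → ℝ,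
    (∀ n ∈ S, ∑ t ∈ Icc 1 x, g n t ^ 2 ≤ x * Real.log x ^ κ) →
    (((Fintype.piFinset (fun i => Icc 1 (M i))).filter (fun c =>
      ¬ ((S.filter (fun n => x / Real.log x ^ U < |∑ t ∈ Icc 1 x, g n t *
        pd z (fun i t => a i + (F i).eval (u i t : ℤ)) c t|)).card : ℝ) ≤ R / Real.log x ^ U)).card : ℝ) ≤
      (∏ i, (M i : ℝ)) / Real.log x ^ U := by
  classical
  obtain ⟨B0, hB0⟩ := seq_L2 k F hF κ (3 * U)
  refine ⟨B0, fun E => ?_⟩
  obtain ⟨n1, h1⟩ := hB0 E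
  obtain ⟨n2, h2⟩ := ev_L' 1
  refine ⟨n1 + n2 + 1, fun x hx M hM a ha u hu huinj z hz1 hz2 S R hR hR0 g hg => ?_⟩
  have hL1 := h2 x (by omega)
  have hL0 : 0 < Real.log x := by linarith
  have hx0 : (0 : ℝ) < x := by exact_mod_cast (by omega : 0 < x)
  have hprod : 0 ≤ ∏ i, (M i : ℝ) := prod_nonneg fun _ _ => Nat.cast_nonneg _
  have key := markov2 (Fintype.piFinset (fun i => Icc 1 (M i))) S (fun c n => |∑ t ∈ Icc 1 x, g n t *
        pd z (fun i t => a i + (F i).eval (u i t : ℤ)) c t|) (fun _ _ _ _ => abs_nonneg _)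
    (R * (x * (∏ i, (M i : ℝ)) / Real.log x ^ (3 * U))) (x / Real.log x ^ U) (R / Real.log x ^ U)
    (by positivity) (by positivity) (by
      rw [sum_comm]
      calc _ ≤ ∑ n ∈ S, x * (∏ i, (M i : ℝ)) / Real.log x ^ (3 * U) :=
            sum_le_sum fun n hn => h1 x (by omega) M hM a ha u hu huinj z hz1 hz2 (g n) (hg n hn)
        _ = S.card * (x * (∏ i, (M i : ℝ)) / Real.log x ^ (3 * U)) := by rw [sum_const, nsmul_eq_mul]
        _ ≤ _ := mul_le_mul_of_nonneg_right hR (by positivity))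
  refine key.trans (le_of_eq ?_)
  rw [show 3 * U = U + U + U by ring, pow_add, pow_add]
  field_simp

end Pool.Agent.Run7.h17.L2
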