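import Mathlib
import Pool.Agent.Run7.h17.FourSq

/-! Representations of almost all integers by four squares, polynomial values of a second form. -/

set_option autoImplicit false
set_option maxHeartbeats 4000000

namespace Pool.Agent.Run7.h17.FourSq

open Finset Polynomial
open Pool.Agent.H373R2.T7 (energy ev_L' ev_log' lamI lamzI)
open Pool.Agent.Run7.h17.PB (pd)
open Pool.Agent.Run7.h17.L2 (seq_family)

lemma S2_small : ∃ x0 : ℕ, ∀ x : ℕ, x0 ≤ x → N8 (Nat.sqrt (x / 7)) ≤ (x : ℝ) ^ 2 * Real.log x ^ 8 := by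
  obtain ⟨n2, h2⟩ := ev_L' 100
  refine ⟨n2 + 49, fun x hx => ?_⟩
  have hL := h2 x (by omega)
  have hL0 : 0 < Real.log x := by linarith
  have hL1 : 1 ≤ Real.log x := by linarith
  have hx0 : (0 : ℝ) < x := by exact_mod_cast (by omega : 0 < x)
  obtain ⟨s, hs⟩ : ∃ s, s = Nat.sqrt (x / 7) := ⟨_, rfl⟩
  rw [← hs]
  have hs1 : s ^ 2 ≤ x / 7 := by rw [hs]; exact Nat.sqrt_le' _
  have hs2 : s ^ 2 ≤ x := hs1.trans (Nat.div_le_self _ _)
  have hs3 : 1 ≤ s := by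
    rw [hs, Nat.le_sqrt']
    omega
  have hsr : ((s ^ 2 : ℕ) : ℝ) ≤ x := by exact_mod_cast hs2
  have hs3r : (1 : ℝ) ≤ s := by exact_mod_cast hs3
  have hs4 : (1 : ℝ) ≤ ((s ^ 2 : ℕ) : ℝ) := by exact_mod_cast Nat.one_le_pow 2 s hs3
  have hlog : Real.log ((s ^ 2 : ℕ) : ℝ) ≤ Real.log x := Real.log_le_log (by linarith) hsr
  have hlog0 : 0 ≤ Real.log ((s ^ 2 : ℕ) : ℝ) := Real.log_nonneg hs4
  have e1 := S2_bd s
  have e2 : S2 s ≤ x * Real.log x ^ 4 := by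
    refine e1.trans ?_
    have f1 : (2 * (s : ℝ) + 1) ^ 2 ≤ 9 * x := by
      have : ((s ^ 2 : ℕ) : ℝ) = (s : ℝ) ^ 2 := by push_cast; ring
      rw [this] at hsr
      nlinarith
    have f2 : (1 + Real.log ((s ^ 2 : ℕ) : ℝ)) ^ 3 ≤ 8 * Real.log x ^ 3 := by
      calc (1 + Real.log ((s ^ 2 : ℕ) : ℝ)) ^ 3 ≤ (2 * Real.log x) ^ 3 :=
            pow_le_pow_left₀ (by linarith) (by linarith) _
        _ = _ := by ring
    have f3 : ((s ^ 2 : ℕ) : ℝ) * (1 + Real.log ((s ^ 2 : ℕ) : ℝ)) ^ 3 ≤ x * (8 * Real.log x ^ 3) :=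
      mul_le_mul hsr f2 (by positivity) hx0.le
    have f4 : 1 ≤ Real.log x ^ 3 := one_le_pow₀ hL1
    calc 4 * (2 * (s : ℝ) + 1) ^ 2 + 8 * (((s ^ 2 : ℕ) : ℝ) * (1 + Real.log ((s ^ 2 : ℕ) : ℝ)) ^ 3)
        ≤ 4 * (9 * x) + 8 * (x * (8 * Real.log x ^ 3)) := by linarith
      _ = x * (36 + 64 * Real.log x ^ 3) := by ring
      _ ≤ x * (Real.log x * Real.log x ^ 3) := by
          apply mul_le_mul_of_nonneg_left _ hx0.le
          nlinarith
      _ = _ := by ring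
  have e3 : 0 ≤ S2 s := sum_nonneg fun _ _ => sq_nonneg _
  calc N8 s ≤ S2 s ^ 2 := N8_bd s
    _ ≤ (x * Real.log x ^ 4) ^ 2 := pow_le_pow_left₀ e3 e2 _
    _ = _ := by ring

lemma form_mem (x n : ℕ) (hn : n ∈ Icc 1 (x / 7)) (v : ℤ × ℤ × ℤ × ℤ) (hv : v ∈ reps n) :
    (form v).toNat ∈ Icc 1 x ∧ ((form v).toNat : ℤ) = form v := by
  unfold reps at hv
  have h := (mem_filter.mp hv).2
  rw [mem_Icc] at hn
  have q1 := sq_nonneg v.1
  have q2 := sq_nonneg v.2.1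
  have q3 := sq_nonneg v.2.2.1
  have q4 := sq_nonneg v.2.2.2
  have h1 : (n : ℤ) ≤ form v := by
    unfold form
    linarith
  have h2 : form v ≤ 7 * n := by
    unfold form
    linarith
  rw [mem_Icc]
  omega

/-- the weight of the value `t` of the second form -/
noncomputable def gw (θ : ℤ × ℤ × ℤ × ℤ → ℝ) (n t : ℕ) : ℝ := ∑ v ∈ (reps n).filter (fun v => form v = (t : ℤ)), θ v

lemma gw_sq (θ : ℤ × ℤ × ℤ × ℤ → ℝ) (K : ℝ) (hθ : ∀ v, |θ v| ≤ K) (n t : ℕ) :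
    gw θ n t ^ 2 ≤ K ^ 2 * (rho n (t : ℤ) : ℝ) ^ 2 := by
  have hK : 0 ≤ K := (abs_nonneg _).trans (hθ 0)
  have h1 : |gw θ n t| ≤ K * rho n (t : ℤ) := by
    unfold gw rho
    refine (abs_sum_le_sum_abs _ _).trans ?_
    calc _ ≤ ∑ v ∈ (reps n).filter (fun v => form v = (t : ℤ)), K := sum_le_sum fun v _ => hθ v
      _ = _ := by rw [sum_const, nsmul_eq_mul]; ring
  rw [← mul_pow, ← sq_abs]
  exact pow_le_pow_left₀ (abs_nonneg _) h1 _

lemma gw_sum (θ : ℤ × ℤ × ℤ × ℤ → ℝ) (x n : ℕ) (hn : n ∈ Icc 1 (x / 7)) (f : ℕ → ℝ) (f' : ℤ → ℝ)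
    (hf : ∀ t : ℕ, f t = f' t) : ∑ t ∈ Icc 1 x, gw θ n t * f t = ∑ v ∈ reps n, θ v * f' (form v) := by
  classical
  rw [← sum_fiberwise_of_maps_to (s := reps n) (t := Icc 1 x) (g := fun v => (form v).toNat)
    (fun v hv => (form_mem x n hn v hv).1)]
  refine sum_congr rfl fun t ht => ?_
  unfold gw
  rw [sum_mul]
  refine sum_congr ?_ fun v hv => ?_
  · ext v
    rw [mem_filter, mem_filter]
    constructor
    · rintro ⟨h1, h2⟩
      exact ⟨h1, by rw [h2, Int.toNat_natCast]⟩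
    · rintro ⟨h1, h2⟩
      exact ⟨h1, by rw [← h2]; exact (form_mem x n hn v h1).2.symm⟩
  · have h3 := mem_filter.mp hv
    rw [hf, ← h3.2, (form_mem x n hn v h3.1).2]

/-- **four squares** -/
theorem four_main (k : ℕ) (F : Fin k → ℤ[X]) (hF : ∀ i, 1 ≤ (F i).natDegree) (κ U : ℕ) :
    ∃ B0 : ℕ, ∀ E : ℕ, ∃ x0 : ℕ, ∀ x : ℕ, x0 ≤ x → ∀ M : Fin k → ℕ,
    (∀ i, (x : ℝ) ^ (F i).natDegree ≤ Real.log x ^ κ * M i ∧ (M i : ℝ) ≤ Real.log x ^ κ * x ^ (F i).natDegree) →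
    ∀ a : Fin k → ℤ, (∀ i, ((|a i| : ℤ) : ℝ) ≤ Real.log x ^ κ * M i) →
    ∀ z : ℕ, Real.log x ^ B0 ≤ z → (z : ℝ) ≤ Real.log x ^ E →
    ∀ θ : ℤ × ℤ × ℤ × ℤ → ℝ, (∀ v, |θ v| ≤ Real.log x ^ κ) →
    (((Fintype.piFinset (fun i => Icc 1 (M i))).filter (fun c =>
      ¬ (((Icc 1 (x / 7)).filter (fun n => x / Real.log x ^ U < |∑ v ∈ reps n, θ v *
        (∏ i, lamI (a i + (F i).eval (form v) + (c i : ℤ)) - ∏ i, lamzI z (a i + (F i).eval (form v) + (c i : ℤ)))|)).card : ℝ) ≤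
          x / Real.log x ^ U)).card : ℝ) ≤
      (∏ i, (M i : ℝ)) / Real.log x ^ U := by
  classical
  obtain ⟨B0, hB0⟩ := seq_family k F hF (2 * κ + (U + 9)) (U + 1)
  refine ⟨B0, fun E => ?_⟩
  obtain ⟨n1, h1⟩ := hB0 E
  obtain ⟨n2, h2⟩ := ev_L' 2
  obtain ⟨n3, h3⟩ := S2_small
  refine ⟨n1 + n2 + n3 + 7, fun x hx M hM a ha z hz1 hz2 θ hθ => ?_⟩
  have hL2 := h2 x (by omega)
  have hL1 : 1 ≤ Real.log x := by linarith
  have hL0 : 0 < Real.log x := by linarith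
  have hx0 : (0 : ℝ) < x := by exact_mod_cast (by omega : 0 < x)
  have hκκ : Real.log x ^ κ ≤ Real.log x ^ (2 * κ + (U + 9)) := pow_le_pow_right₀ hL1 (by omega)
  obtain ⟨S, hS⟩ : ∃ S : Finset ℕ, S = (Icc 1 (x / 7)).filter (fun n =>
      ∑ t ∈ Icc 1 x, (rho n (t : ℤ) : ℝ) ^ 2 ≤ x * Real.log x ^ (U + 9)) := ⟨_, rfl⟩
  have hScard : (S.card : ℝ) ≤ x := by
    have e1 : S.card ≤ (Icc 1 (x / 7)).card := by rw [hS]; exact card_le_card (filter_subset _ _)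
    rw [Nat.card_Icc] at e1
    have e2 : S.card ≤ x := by omega
    exact_mod_cast e2
  have hcomp : ((((Icc 1 (x / 7)).filter (fun n => n ∉ S)).card : ℝ)) ≤ x / Real.log x ^ (U + 1) := by
    have e1 := rho_moment (x / 7) x
    have e2 := h3 x (by omega)
    have e3 : ((((Icc 1 (x / 7)).filter (fun n => n ∉ S)).card : ℝ)) * (x * Real.log x ^ (U + 9)) ≤
        (x : ℝ) ^ 2 * Real.log x ^ 8 := by
      calc ((((Icc 1 (x / 7)).filter (fun n => n ∉ S)).card : ℝ)) * (x * Real.log x ^ (U + 9))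
          = ∑ n ∈ (Icc 1 (x / 7)).filter (fun n => n ∉ S), x * Real.log x ^ (U + 9) := by
            rw [sum_const, nsmul_eq_mul]
        _ ≤ ∑ n ∈ (Icc 1 (x / 7)).filter (fun n => n ∉ S), ∑ t ∈ Icc 1 x, (rho n (t : ℤ) : ℝ) ^ 2 := by
            refine sum_le_sum fun n hn => ?_
            rw [mem_filter, hS, mem_filter] at hn
            by_contra hcon
            exact hn.2 ⟨hn.1, (not_le.mp hcon).le⟩
        _ ≤ ∑ n ∈ Icc 1 (x / 7), ∑ t ∈ Icc 1 x, (rho n (t : ℤ) : ℝ) ^ 2 :=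
            sum_le_sum_of_subset_of_nonneg (filter_subset _ _) fun _ _ _ => sum_nonneg fun _ _ => sq_nonneg _
        _ ≤ _ := e1.trans e2
    rw [le_div_iff₀ (by positivity)]
    have e4 : (x : ℝ) * Real.log x ^ (U + 9) = (Real.log x ^ (U + 1)) * (x * Real.log x ^ 8) := by
      rw [show U + 9 = (U + 1) + 8 by ring, pow_add]
      ring
    rw [e4, ← mul_assoc] at e3
    have e5 : (0 : ℝ) < x * Real.log x ^ 8 := by positivity
    apply le_of_mul_le_mul_right _ e5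
    calc _ ≤ (x : ℝ) ^ 2 * Real.log x ^ 8 := e3
      _ = _ := by ring
  have key := h1 x (by omega) M (fun i => ⟨(hM i).1.trans (mul_le_mul_of_nonneg_right hκκ (Nat.cast_nonneg _)),
      (hM i).2.trans (mul_le_mul_of_nonneg_right hκκ (by positivity))⟩) a
    (fun i => (ha i).trans (mul_le_mul_of_nonneg_right hκκ (Nat.cast_nonneg _)))
    (fun _ t => t) (fun i t ht => by
      rw [mem_Icc] at ht
      refine ⟨ht.1, ?_⟩
      have e1 : (t : ℝ) ≤ x := by exact_mod_cast ht.2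
      exact e1.trans (le_mul_of_one_le_left hx0.le (one_le_pow₀ hL1)))
    (fun i m _ n _ h => h) z hz1 hz2 S x hScard hx0 (gw θ) (fun n hn => by
      rw [hS, mem_filter] at hn
      calc ∑ t ∈ Icc 1 x, gw θ n t ^ 2 ≤ ∑ t ∈ Icc 1 x, (Real.log x ^ κ) ^ 2 * (rho n (t : ℤ) : ℝ) ^ 2 :=
            sum_le_sum fun t _ => gw_sq θ _ hθ n t
        _ = (Real.log x ^ κ) ^ 2 * ∑ t ∈ Icc 1 x, (rho n (t : ℤ) : ℝ) ^ 2 := by rw [mul_sum]
        _ ≤ (Real.log x ^ κ) ^ 2 * (x * Real.log x ^ (U + 9)) := mul_le_mul_of_nonneg_left hn.2 (by positivity)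
        _ = _ := by rw [pow_add, ← pow_mul, mul_comm 2 κ]; ring)
  have hU : (∏ i, (M i : ℝ)) / Real.log x ^ (U + 1) ≤ (∏ i, (M i : ℝ)) / Real.log x ^ U := by
    apply div_le_div_of_nonneg_left (prod_nonneg fun _ _ => Nat.cast_nonneg _) (by positivity)
    exact pow_le_pow_right₀ hL1 (by omega)
  refine le_trans (Nat.cast_le.mpr (card_le_card ?_)) (key.trans hU)
  intro c hc
  rw [mem_filter] at hc ⊢
  refine ⟨hc.1, fun hgood => hc.2 ?_⟩
  have e1 : (Icc 1 (x / 7)).filter (fun n => x / Real.log x ^ U < |∑ v ∈ reps n, θ v *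
        (∏ i, lamI (a i + (F i).eval (form v) + (c i : ℤ)) - ∏ i, lamzI z (a i + (F i).eval (form v) + (c i : ℤ)))|) ⊆
      (S.filter (fun n => x / Real.log x ^ (U + 1) < |∑ t ∈ Icc 1 x, gw θ n t *
        pd z (fun i t => a i + (F i).eval (t : ℤ)) c t|)) ∪ (Icc 1 (x / 7)).filter (fun n => n ∉ S) := by
    intro n hn
    rw [mem_filter] at hn
    rw [mem_union, mem_filter, mem_filter]
    by_cases hnS : n ∈ S
    · left
      refine ⟨hnS, ?_⟩
      rw [gw_sum θ x n hn.1 _ (fun v => ∏ i, lamI (a i + (F i).eval v + (c i : ℤ)) -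
        ∏ i, lamzI z (a i + (F i).eval v + (c i : ℤ))) (fun t => by unfold pd; rfl)]
      refine lt_of_le_of_lt ?_ hn.2
      exact div_le_div_of_nonneg_left hx0.le (by positivity) (pow_le_pow_right₀ hL1 (by omega))
    · exact Or.inr ⟨hn.1, hnS⟩
  have e2 : (((Icc 1 (x / 7)).filter (fun n => x / Real.log x ^ U < |∑ v ∈ reps n, θ v *
        (∏ i, lamI (a i + (F i).eval (form v) + (c i : ℤ)) -
          ∏ i, lamzI z (a i + (F i).eval (form v) + (c i : ℤ)))|)).card : ℝ) ≤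
      x / Real.log x ^ (U + 1) + x / Real.log x ^ (U + 1) := by
    refine (Nat.cast_le.mpr ((card_le_card e1).trans (card_union_le _ _))).trans ?_
    push_cast
    exact add_le_add hgood hcomp
  refine e2.trans ?_
  rw [← add_div, div_le_div_iff₀ (by positivity) (by positivity), pow_succ]
  have : 0 ≤ (x : ℝ) * Real.log x ^ U := by positivity
  nlinarith

end Pool.Agent.Run7.h17.FourSq
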