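import Mathlib
import Pool.Agent.Run7.h17.PT3

/-! Products of values of the von Mangoldt function minus their sieve models: almost all classes of almost all
moduli, and pairwise coprime moduli, for almost all shifts from families of nearly minimal additive energy. -/

set_option autoImplicit false
set_option maxHeartbeats 4000000

namespace Pool.Agent.Run7.h17.PT

open Finset Pool.Agent.H373R2.T7 Pool.Agent.H560R3.GB
open Pool.Agent.Run7.h17.BDH (FF cs Eqd bdh_log)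
open Pool.Agent.Run7.h17.JB (top top_spec le_top cond_iff)
open Pool.Agent.Helper112

open Classical in
/-- for almost all shifts the sums over the classes of the moduli up to a power of the logarithm are small -/
theorem classes (k p B C κ U G : ℕ) (hk : 0 < k) : ∃ B0 : ℕ, ∀ E : ℕ, ∃ N0 : ℕ, ∀ N : ℕ, N0 ≤ N → ∀ (x : Fin k → ℕ)
    (s : Fin k → ℕ → ℤ), (∀ i, ∀ m ∈ Icc 1 (x i), |s i m| ≤ B * N) →
    (∀ i, (Pool.Agent.H373R2.T7.energy p (x i) (s i) : ℝ) * N ≤ Real.log N ^ C * (x i : ℝ) ^ (2 * p)) →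
    ∀ α : Fin k → ℤ, (∀ i, α i ≠ 0) → ∀ z : ℕ, Real.log N ^ B0 ≤ z → (z : ℝ) ≤ Real.log N ^ E →
    ∀ L : ℕ, (L : ℝ) ≤ Real.log N ^ κ → ∀ θ : Fin L → ℕ → ℝ,
    (∀ l n, 1 ≤ n → (∀ i, (α i).natAbs * n ≤ B * N) → |θ l n| ≤ Real.log N ^ κ) →
    (((Fintype.piFinset (fun i => Icc 1 (x i))).filter (fun m : Fin k → ℕ => ¬ ∀ l,
      (∀ n, ‖gn (θ l) z α (fun i => s i (m i)) (B * N) (Real.log N ^ κ * (2 * Real.log N) ^ k) n‖ ≤ 1) ∧
      ∀ b : ℕ, 1 ≤ b → (b : ℝ) ≤ 2 * Real.log N ^ G → ∀ c y : ℕ,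
        ‖cs (gn (θ l) z α (fun i => s i (m i)) (B * N) (Real.log N ^ κ * (2 * Real.log N) ^ k)) b c y‖ ≤
          N / Real.log N ^ U)).card : ℝ) ≤ (∏ i, (x i : ℝ)) / Real.log N ^ U := by
  set κ' : ℕ := κ + 2 * G + 1 with hκ'
  obtain ⟨B0, hB0⟩ := all_len k p B C κ' U
  refine ⟨B0, fun E => ?_⟩
  obtain ⟨n1, h1⟩ := hB0 E
  obtain ⟨n2, h2⟩ := df_bound k B E
  obtain ⟨n3, h3⟩ := ev_L' 9
  refine ⟨n1 + n2 + n3 + 3, fun N hN x s hs hE α hα z hz1 hz2 L hL θ hθ => ?_⟩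
  have hLg := h3 N (by omega)
  have hdf := h2 N (by omega)
  obtain ⟨Lg, hLgd⟩ : ∃ Lg, Lg = Real.log N := ⟨_, rfl⟩
  rw [← hLgd] at hLg hdf
  have hL1 : 1 ≤ Lg := by linarith
  have hL0 : 0 < Lg := by linarith
  have hN0 : (0 : ℝ) < N := by exact_mod_cast (by omega : 0 < N)
  have hz : 1 ≤ z := by
    have : (1 : ℝ) ≤ z := by
      refine le_trans ?_ hz1
      rw [← hLgd]
      exact one_le_pow₀ hL1
    exact_mod_cast this
  set q₀ : ℕ := ⌊2 * Lg ^ G⌋₊ with hq₀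
  have hq1 : (q₀ : ℝ) ≤ 2 * Lg ^ G := Nat.floor_le (by positivity)
  have hLp : 1 ≤ Lg ^ G := one_le_pow₀ hL1
  have hq2 : (q₀ : ℝ) + 1 ≤ 3 * Lg ^ G := by linarith
  set M : ℝ := Lg ^ κ * (2 * Lg) ^ k with hM
  have hM1 : 1 ≤ M := by
    rw [hM]
    have e1 : 1 ≤ Lg ^ κ := one_le_pow₀ hL1
    have e2 : 1 ≤ (2 * Lg) ^ k := one_le_pow₀ (by linarith)
    nlinarith
  have hM0 : 0 < M := by linarith
  -- the weights
  set e : (Fin L × Fin (q₀ + 1) × Fin (q₀ + 1)) ≃ Fin (Fintype.card (Fin L × Fin (q₀ + 1) × Fin (q₀ + 1))) :=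
    Fintype.equivFin _ with he
  set θ' : Fin (Fintype.card (Fin L × Fin (q₀ + 1) × Fin (q₀ + 1))) → ℕ → ℝ := fun j n =>
    if n % ((e.symm j).2.1 : ℕ) = ((e.symm j).2.2 : ℕ) then θ (e.symm j).1 n else 0 with hθ'
  have hcard : ((Fintype.card (Fin L × Fin (q₀ + 1) × Fin (q₀ + 1)) : ℕ) : ℝ) ≤ Real.log N ^ κ' := by
    rw [Fintype.card_prod, Fintype.card_prod, Fintype.card_fin, Fintype.card_fin, ← hLgd]
    push_cast
    rw [← hLgd] at hL
    calc (L : ℝ) * (((q₀ : ℝ) + 1) * ((q₀ : ℝ) + 1)) ≤ Lg ^ κ * ((3 * Lg ^ G) * (3 * Lg ^ G)) := by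
          apply mul_le_mul hL _ (by positivity) (by positivity)
          exact mul_le_mul hq2 hq2 (by positivity) (by positivity)
      _ = 9 * Lg ^ (κ + 2 * G) := by
          rw [pow_add Lg κ, two_mul, pow_add Lg G]
          ring
      _ ≤ Lg * Lg ^ (κ + 2 * G) := mul_le_mul_of_nonneg_right hLg (by positivity)
      _ = Lg ^ κ' := by
          rw [hκ']
          ring
  have hmono : Real.log N ^ κ ≤ Real.log N ^ κ' := by
    rw [← hLgd]
    exact pow_le_pow_right₀ hL1 (by omega)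
  have key := h1 N (by omega) x s hs hE α hα z hz1 hz2 _ hcard θ' (by
    intro j n hn1 hn2
    rw [hθ']
    simp only
    split_ifs
    · exact (hθ _ n hn1 hn2).trans hmono
    · rw [abs_zero, ← hLgd]
      positivity)
  refine le_trans (Nat.cast_le.mpr (card_le_card ?_)) key
  intro m hm
  rw [mem_filter] at hm ⊢
  refine ⟨hm.1, fun hgood => hm.2 ?_⟩
  intro l
  rw [← hLgd, ← hM]
  set r : Fin k → ℤ := fun i => s i (m i) with hr
  have hmm : ∀ i, m i ∈ Icc 1 (x i) := fun i => Fintype.mem_piFinset.mp hm.1 i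
  refine ⟨gn_norm (θ l) z α r (B * N) M hM0 ?_, ?_⟩
  · intro n hn hn2
    rw [abs_mul, hM]
    have g1 : |θ l n| ≤ Lg ^ κ := by
      rw [hLgd]
      exact hθ l n hn hn2
    have g2 := hdf z hz (by rw [← hLgd] at hz2; exact hz2) α r (fun i => hs i (m i) (hmm i)) n hn2
    exact mul_le_mul g1 g2 (abs_nonneg _) (by positivity)
  · intro b hb1 hb2 c y
    have hbq : b ≤ q₀ := Nat.le_floor hb2
    rw [cs_gn hk (θ l) z α r hα (B * N) M b c y, Complex.norm_real, Real.norm_eq_abs, abs_div, abs_of_pos hM0]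
    set tp := top (fun i => (α i).natAbs) univ (B * N) with htp
    have e2 : |∑ n ∈ Icc 1 (min y tp), (if n % b = c then θ l n * df z α r n else 0)| ≤ N / Lg ^ U := by
      by_cases hc : c < b
      · have e3 := hgood (e (l, ⟨b, by omega⟩, ⟨c, by omega⟩)) (min y tp)
          (fun i => (Nat.mul_le_mul_left _ (min_le_right _ _)).trans (top_spec (fun i => (α i).natAbs) univ _ i (mem_univ i)))
        rw [← hLgd] at e3
        refine le_trans (le_of_eq ?_) e3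
        congr 1
        refine sum_congr rfl fun n _ => ?_
        rw [hθ']
        simp only [Equiv.symm_apply_apply]
        split_ifs
        · rfl
        · rw [zero_mul]
      · rw [sum_eq_zero, abs_zero]
        · positivity
        · intro n _
          rw [if_neg]
          intro h5
          have := Nat.mod_lt n hb1
          omega
    exact (div_le_self (abs_nonneg _) hM1).trans e2

open Classical in
/-- **Almost all classes of almost all moduli.** -/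
theorem tuple_bdh (k p B C κ U : ℕ) (hk : 0 < k) : ∃ c B0 : ℕ, ∀ E : ℕ, ∃ N0 : ℕ, ∀ N : ℕ, N0 ≤ N →
    ∀ (x : Fin k → ℕ) (s : Fin k → ℕ → ℤ), (∀ i, ∀ m ∈ Icc 1 (x i), |s i m| ≤ B * N) →
    (∀ i, (Pool.Agent.H373R2.T7.energy p (x i) (s i) : ℝ) * N ≤ Real.log N ^ C * (x i : ℝ) ^ (2 * p)) →
    ∀ α : Fin k → ℤ, (∀ i, α i ≠ 0) → ∀ z : ℕ, Real.log N ^ B0 ≤ z → (z : ℝ) ≤ Real.log N ^ E →
    ∀ L : ℕ, (L : ℝ) ≤ Real.log N ^ κ → ∀ θ : Fin L → ℕ → ℝ,
    (∀ l n, 1 ≤ n → (∀ i, (α i).natAbs * n ≤ B * N) → |θ l n| ≤ Real.log N ^ κ) →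
    (((Fintype.piFinset (fun i => Icc 1 (x i))).filter (fun m : Fin k → ℕ => ¬ ∀ l, ∀ Q : ℕ,
      Q * Real.log N ^ c ≤ N → ∀ Y : ℕ → ℕ → ℕ, (∀ q b i, (α i).natAbs * Y q b ≤ B * N) →
      ∑ q ∈ Icc 1 Q, ∑ b ∈ range q, |∑ n ∈ Icc 1 (Y q b),
        if n % q = b then θ l n * df z α (fun i => s i (m i)) n else 0| ≤ Q * N / Real.log N ^ U)).card : ℝ) ≤
      (∏ i, (x i : ℝ)) / Real.log N ^ U := by
  set V : ℕ := U + κ + 2 * k + 1 with hV
  obtain ⟨c, n1, h1⟩ := bdh_log V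
  set U' : ℕ := 8 * V + 24 + U with hU'
  obtain ⟨B0, hB0⟩ := classes k p B C κ U' (4 * V + 12) hk
  refine ⟨c, B0, fun E => ?_⟩
  obtain ⟨n2, h2⟩ := hB0 E
  obtain ⟨n3, h3⟩ := ev_L' (B + 9)
  refine ⟨n1 + n2 + n3 + 3, fun N hN x s hs hE α hα z hz1 hz2 L hL θ hθ => ?_⟩
  have hBL := h3 N (by omega)
  have hNr1 : (1 : ℝ) ≤ N := by exact_mod_cast (by omega : 1 ≤ N)
  have key := h2 N (by omega) x s hs hE α hα z hz1 hz2 L hL θ hθ
  obtain ⟨Lg, hLgd⟩ : ∃ Lg, Lg = Real.log N := ⟨_, rfl⟩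
  rw [← hLgd] at hBL
  have hB0' : (0 : ℝ) ≤ B := Nat.cast_nonneg _
  have hL9 : 9 ≤ Lg := by linarith
  have hL1 : 1 ≤ Lg := by linarith
  have hL0 : 0 < Lg := by linarith
  have hN0 : (0 : ℝ) < N := by linarith
  set M : ℝ := Lg ^ κ * (2 * Lg) ^ k with hM
  have hM0 : 0 < M := by positivity
  have hM2 : M ≤ Lg ^ (κ + 2 * k) := by
    rw [hM, pow_add, pow_mul]
    apply mul_le_mul_of_nonneg_left _ (by positivity)
    apply pow_le_pow_left₀ (by positivity)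
    nlinarith
  have hI : (univ : Finset (Fin k)).Nonempty := ⟨⟨0, hk⟩, mem_univ _⟩
  set tp := top (fun i => (α i).natAbs) univ (B * N) with htp
  have htop : tp ≤ B * N := Nat.findGreatest_le _
  refine le_trans ?_ (key.trans ?_)
  · refine Nat.cast_le.mpr (card_le_card ?_)
    intro m hm
    rw [mem_filter] at hm ⊢
    refine ⟨hm.1, fun hgood => hm.2 ?_⟩
    intro l Q hQ Y hY
    have hYtop : ∀ q b, Y q b ≤ tp := fun q b =>
      le_top (fun i => (α i).natAbs) (fun i => Int.natAbs_pos.mpr (hα i)) univ hI _ _ (fun i _ => hY q b i)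
    obtain ⟨hg1, hg2⟩ := hgood l
    rw [← hLgd, ← hM] at hg1 hg2
    set g := gn (θ l) z α (fun i => s i (m i)) (B * N) M with hg
    have hxN : N ≤ (B + 1) * N := Nat.le_mul_of_pos_left _ (Nat.succ_pos _)
    have hxr : (((B + 1) * N : ℕ) : ℝ) ≤ Real.log N * N := by
      push_cast
      rw [← hLgd]
      exact mul_le_mul_of_nonneg_right (by linarith) hN0.le
    have hEq : Eqd g ((B + 1) * N) ⌈Real.log N ^ (4 * V + 12)⌉₊ (1 / Real.log N ^ (8 * V + 24)) := by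
      rw [← hLgd]
      intro b hb1 hbq c' y' hy'
      have hb2 : (b : ℝ) ≤ 2 * Lg ^ (4 * V + 12) := by
        have e1 : 1 ≤ Lg ^ (4 * V + 12) := one_le_pow₀ hL1
        have e2 := (Nat.ceil_lt_add_one (by positivity : (0 : ℝ) ≤ Lg ^ (4 * V + 12))).le
        have e3 : (b : ℝ) ≤ (⌈Lg ^ (4 * V + 12)⌉₊ : ℝ) := by exact_mod_cast hbq
        linarith
      refine (hg2 b hb1 hb2 c' y').trans ?_
      have a1 : (N : ℝ) / Lg ^ U' ≤ N / Lg ^ (8 * V + 24) := by
        apply div_le_div_of_nonneg_left hN0.le (by positivity)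
        exact pow_le_pow_right₀ hL1 (by omega)
      have a3 : (N : ℝ) ≤ (((B + 1) * N : ℕ) : ℝ) := by exact_mod_cast hxN
      calc (N : ℝ) / Lg ^ U' ≤ N / Lg ^ (8 * V + 24) := a1
        _ = 1 / Lg ^ (8 * V + 24) * N := by ring
        _ ≤ _ := mul_le_mul_of_nonneg_left a3 (by positivity)
    have h5 := h1 N (by omega) ((B + 1) * N) hxN hxr g hg1 hEq Q hQ Y (fun q b => by
      have := hYtop q b
      have e1 : B * N ≤ (B + 1) * N := Nat.mul_le_mul_right _ (by omega)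
      omega)
    have h6 : ∀ q b, |∑ n ∈ Icc 1 (Y q b), (if n % q = b then θ l n * df z α (fun i => s i (m i)) n else 0)| =
        M * ‖cs g q b (Y q b)‖ := by
      intro q b
      rw [hg, cs_gn hk (θ l) z α _ hα (B * N) M q b (Y q b), Complex.norm_real, Real.norm_eq_abs, abs_div, abs_of_pos hM0,
        min_eq_left (hYtop q b)]
      field_simp
    rw [sum_congr rfl fun q _ => sum_congr rfl fun b _ => h6 q b]
    simp_rw [← mul_sum]
    calc M * ∑ q ∈ Icc 1 Q, ∑ b ∈ range q, ‖cs g q b (Y q b)‖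
        ≤ M * (Q * (((B + 1) * N : ℕ) : ℝ) / Real.log N ^ V) := mul_le_mul_of_nonneg_left h5 hM0.le
      _ ≤ Lg ^ (κ + 2 * k) * (Q * (Lg * N) / Real.log N ^ V) := by
          rw [← hLgd]
          rw [← hLgd] at hxr
          gcongr
      _ = Q * N / Real.log N ^ U := by
          have hVe : Lg ^ V = Lg ^ U * Lg ^ (κ + 2 * k) * Lg := by
            rw [hV, show U + κ + 2 * k + 1 = U + (κ + 2 * k) + 1 by ring, pow_succ, pow_add]
          rw [← hLgd, hVe]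
          field_simp
  · rw [← hLgd]
    apply div_le_div_of_nonneg_left (prod_nonneg fun _ _ => Nat.cast_nonneg _) (by positivity)
    exact pow_le_pow_right₀ hL1 (by omega)

open Classical in
/-- **Few pairwise coprime bad moduli.** -/
theorem tuple_copr (k p B C κ U : ℕ) (hk : 0 < k) : ∃ c B0 : ℕ, ∀ E : ℕ, ∃ N0 : ℕ, ∀ N : ℕ, N0 ≤ N →
    ∀ (x : Fin k → ℕ) (s : Fin k → ℕ → ℤ), (∀ i, ∀ m ∈ Icc 1 (x i), |s i m| ≤ B * N) →
    (∀ i, (Pool.Agent.H373R2.T7.energy p (x i) (s i) : ℝ) * N ≤ Real.log N ^ C * (x i : ℝ) ^ (2 * p)) →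
    ∀ α : Fin k → ℤ, (∀ i, α i ≠ 0) → ∀ z : ℕ, Real.log N ^ B0 ≤ z → (z : ℝ) ≤ Real.log N ^ E →
    ∀ L : ℕ, (L : ℝ) ≤ Real.log N ^ κ → ∀ θ : Fin L → ℕ → ℝ,
    (∀ l n, 1 ≤ n → (∀ i, (α i).natAbs * n ≤ B * N) → |θ l n| ≤ Real.log N ^ κ) →
    (((Fintype.piFinset (fun i => Icc 1 (x i))).filter (fun m : Fin k → ℕ => ¬ ∀ l, ∀ Q : ℕ,
      Q * Real.log N ^ c ≤ N → ∀ Mo : Finset ℕ, (∀ q ∈ Mo, 1 ≤ q ∧ q ≤ Q) →
      (∀ q ∈ Mo, ∀ q' ∈ Mo, q ≠ q' → Nat.Coprime q q') →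
      (∀ q ∈ Mo, ∃ Y : ℕ → ℕ, (∀ b i, (α i).natAbs * Y b ≤ B * N) ∧
        N / Real.log N ^ U < ∑ b ∈ range q, |∑ n ∈ Icc 1 (Y b),
          if n % q = b then θ l n * df z α (fun i => s i (m i)) n else 0|) →
      (Mo.card : ℝ) ≤ Real.log N ^ c * (1 + (Q : ℝ) ^ 2 / N))).card : ℝ) ≤
      (∏ i, (x i : ℝ)) / Real.log N ^ U := by
  set V : ℕ := U + κ + 2 * k + 1 with hV
  obtain ⟨c, n1, h1⟩ := copr_log V
  set U' : ℕ := c + U with hU'
  obtain ⟨B0, hB0⟩ := classes k p B C κ U' 0 hk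
  refine ⟨c, B0, fun E => ?_⟩
  obtain ⟨n2, h2⟩ := hB0 E
  obtain ⟨n3, h3⟩ := ev_L' (B + 9)
  refine ⟨n1 + n2 + n3 + 3, fun N hN x s hs hE α hα z hz1 hz2 L hL θ hθ => ?_⟩
  have hBL := h3 N (by omega)
  have hNr1 : (1 : ℝ) ≤ N := by exact_mod_cast (by omega : 1 ≤ N)
  have key := h2 N (by omega) x s hs hE α hα z hz1 hz2 L hL θ hθ
  obtain ⟨Lg, hLgd⟩ : ∃ Lg, Lg = Real.log N := ⟨_, rfl⟩
  rw [← hLgd] at hBL
  have hB0' : (0 : ℝ) ≤ B := Nat.cast_nonneg _
  have hL9 : 9 ≤ Lg := by linarith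
  have hL1 : 1 ≤ Lg := by linarith
  have hL0 : 0 < Lg := by linarith
  have hN0 : (0 : ℝ) < N := by linarith
  set M : ℝ := Lg ^ κ * (2 * Lg) ^ k with hM
  have hM0 : 0 < M := by positivity
  have hM2 : M ≤ Lg ^ (κ + 2 * k) := by
    rw [hM, pow_add, pow_mul]
    apply mul_le_mul_of_nonneg_left _ (by positivity)
    apply pow_le_pow_left₀ (by positivity)
    nlinarith
  have hI : (univ : Finset (Fin k)).Nonempty := ⟨⟨0, hk⟩, mem_univ _⟩
  set tp := top (fun i => (α i).natAbs) univ (B * N) with htp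
  have htop : tp ≤ B * N := Nat.findGreatest_le _
  refine le_trans ?_ (key.trans ?_)
  · refine Nat.cast_le.mpr (card_le_card ?_)
    intro m hm
    rw [mem_filter] at hm ⊢
    refine ⟨hm.1, fun hgood => hm.2 ?_⟩
    intro l Q hQ Mo hMo hc hbad
    obtain ⟨hg1, hg2⟩ := hgood l
    rw [← hLgd, ← hM] at hg1 hg2
    set g := gn (θ l) z α (fun i => s i (m i)) (B * N) M with hg
    have hxN : N ≤ (B + 1) * N := Nat.le_mul_of_pos_left _ (Nat.succ_pos _)
    have hxr : (((B + 1) * N : ℕ) : ℝ) ≤ Real.log N * N := by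
      push_cast
      rw [← hLgd]
      exact mul_le_mul_of_nonneg_right (by linarith) hN0.le
    have hxN' : (N : ℝ) ≤ (((B + 1) * N : ℕ) : ℝ) := by exact_mod_cast hxN
    refine h1 N (by omega) ((B + 1) * N) hxN hxr g hg1 ?_ Q hQ Mo hMo hc ?_
    · intro y hy
      have e1 : FF g y 0 = cs g 1 0 y := by
        unfold FF cs
        refine sum_congr rfl fun n _ => ?_
        rw [mul_zero, ls_ee_zero, mul_one, if_pos (Nat.mod_one n)]
      rw [e1, ← hLgd]
      refine (hg2 1 le_rfl (by norm_num) 0 y).trans ?_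
      calc (N : ℝ) / Lg ^ U' ≤ N / Lg ^ c := by
            apply div_le_div_of_nonneg_left hN0.le (by positivity)
            exact pow_le_pow_right₀ hL1 (by omega)
        _ ≤ _ := div_le_div_of_nonneg_right hxN' (by positivity)
    · intro q hq
      obtain ⟨Y, hY, hb⟩ := hbad q hq
      have hYtop : ∀ b, Y b ≤ tp := fun b =>
        le_top (fun i => (α i).natAbs) (fun i => Int.natAbs_pos.mpr (hα i)) univ hI _ _ (fun i _ => hY b i)
      refine ⟨Y, fun b => ?_, ?_⟩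
      · have := hYtop b
        have e1 : B * N ≤ (B + 1) * N := Nat.mul_le_mul_right _ (by omega)
        omega
      · have h6 : ∀ b, |∑ n ∈ Icc 1 (Y b), (if n % q = b then θ l n * df z α (fun i => s i (m i)) n else 0)| =
            M * ‖cs g q b (Y b)‖ := by
          intro b
          rw [hg, cs_gn hk (θ l) z α _ hα (B * N) M q b (Y b), Complex.norm_real, Real.norm_eq_abs, abs_div,
            abs_of_pos hM0, min_eq_left (hYtop b)]
          field_simp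
        rw [sum_congr rfl fun b _ => h6 b, ← mul_sum, ← hLgd] at hb
        rw [← hLgd]
        have hVe : Lg ^ V = Lg ^ U * Lg ^ (κ + 2 * k) * Lg := by
          rw [hV, show U + κ + 2 * k + 1 = U + (κ + 2 * k) + 1 by ring, pow_succ, pow_add]
        have h7 : M * ((((B + 1) * N : ℕ) : ℝ) / Lg ^ V) ≤ N / Lg ^ U := by
          calc M * ((((B + 1) * N : ℕ) : ℝ) / Lg ^ V) ≤ Lg ^ (κ + 2 * k) * ((Lg * N) / Lg ^ V) := by
                rw [← hLgd] at hxr
                gcongr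
            _ = N / Lg ^ U := by
                rw [hVe]
                field_simp
        exact lt_of_mul_lt_mul_left (lt_of_le_of_lt h7 hb) hM0.le
  · rw [← hLgd]
    apply div_le_div_of_nonneg_left (prod_nonneg fun _ _ => Nat.cast_nonneg _) (by positivity)
    exact pow_le_pow_right₀ hL1 (by omega)

end Pool.Agent.Run7.h17.PT
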