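import Mathlib
import Pool.Agent.Run7.h17.PT4

/-! Representations `s = α n + p`: the same results for negative multipliers. -/

set_option autoImplicit false
set_option maxHeartbeats 4000000

namespace Pool.Agent.Run7.h17.PT

open Finset Pool.Agent.H373R2.T7 Pool.Agent.H560R3.GB
open Pool.Agent.Run7.h17.JB (top top_spec le_top cond_iff)

lemma df_neg {k : ℕ} (z : ℕ) (α s : Fin k → ℕ) (n : ℕ) :
    df z (fun i => -(α i : ℤ)) (fun i => (s i : ℤ)) n =
      if ∀ i, α i * n < s i then
        ∏ i, ArithmeticFunction.vonMangoldt (s i - α i * n) - ∏ i, lamz z (s i - α i * n) else 0 := by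
  unfold df
  split_ifs with h
  · congr 1
    · refine prod_congr rfl fun i _ => ?_
      have h1 := h i
      have e : -(α i : ℤ) * (n : ℤ) + (s i : ℤ) = ((s i - α i * n : ℕ) : ℤ) := by
        rw [Nat.cast_sub h1.le]
        push_cast
        ring
      rw [e]
      unfold lamI
      rw [if_pos (by omega), Int.toNat_natCast]
    · refine prod_congr rfl fun i _ => ?_
      have h1 := h i
      have e : -(α i : ℤ) * (n : ℤ) + (s i : ℤ) = ((s i - α i * n : ℕ) : ℤ) := by
        rw [Nat.cast_sub h1.le]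
        push_cast
        ring
      rw [e]
      unfold lamzI
      rw [if_pos (by omega), Int.toNat_natCast]
  · push Not at h
    obtain ⟨i, hi⟩ := h
    have e : ¬ (1 : ℤ) ≤ -(α i : ℤ) * (n : ℤ) + (s i : ℤ) := by
      have h2 : (s i : ℤ) ≤ (α i : ℤ) * (n : ℤ) := by exact_mod_cast hi
      linarith
    rw [prod_eq_zero (mem_univ i), prod_eq_zero (mem_univ i), sub_self]
    · unfold lamzI
      rw [if_neg e]
    · unfold lamI
      rw [if_neg e]

/-- the sum over a class, all lengths -/
lemma sum_neg {k : ℕ} (hk : 0 < k) (z : ℕ) (θ : ℕ → ℝ) (α s : Fin k → ℕ) (hα : ∀ i, 1 ≤ α i) (H : ℕ) (hs : ∀ i, s i ≤ H)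
    (q b X : ℕ) :
    ∑ n ∈ (Icc 1 X).filter (fun n => n % q = b ∧ ∀ i, α i * n < s i),
      θ n * (∏ i, ArithmeticFunction.vonMangoldt (s i - α i * n) - ∏ i, lamz z (s i - α i * n)) =
    ∑ n ∈ Icc 1 (min X (top (fun i => (-(α i : ℤ)).natAbs) univ H)),
      if n % q = b then θ n * df z (fun i => -(α i : ℤ)) (fun i => (s i : ℤ)) n else 0 := by
  set tp := top (fun i => (-(α i : ℤ)).natAbs) univ H with htp
  have hI : (univ : Finset (Fin k)).Nonempty := ⟨⟨0, hk⟩, mem_univ _⟩
  have e1 : Icc 1 (min X tp) = (Icc 1 X).filter (fun n => n ≤ tp) := by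
    ext n
    rw [mem_filter, mem_Icc, mem_Icc, le_min_iff]
    tauto
  rw [e1, sum_filter, sum_filter]
  refine sum_congr rfl fun n hn => ?_
  have hci := cond_iff (fun i => (-(α i : ℤ)).natAbs) (fun i => by have := hα i; omega) univ hI H n
  rw [df_neg]
  by_cases h1 : n % q = b
  · by_cases h2 : ∀ i, α i * n < s i
    · rw [if_pos ⟨h1, h2⟩, if_pos h1, if_pos h2, if_pos]
      rw [← hci]
      intro i _
      have h3 := h2 i
      have h4 := hs i
      have h5 : (-(α i : ℤ)).natAbs = α i := by omega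
      rw [h5]
      omega
    · rw [if_neg (fun h => h2 h.2), if_pos h1, if_neg h2, mul_zero, ite_self]
  · rw [if_neg (fun h => h1 h.1), if_neg h1, ite_self]

end Pool.Agent.Run7.h17.PT
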