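import Mathlib
import Pool.Agent.Run7.h17.ABS2
import Pool.Agent.Run7.h17.PT5
import Pool.Agent.Run7.h17.PolyBDH

/-! Asymptotic formulas for the mean square over the classes of the moduli `q ≤ Q`: prime tuples, and prime values of
polynomials. -/

set_option autoImplicit false
set_option maxHeartbeats 4000000

namespace Pool.Agent.Run7.h17.PT

open Finset Pool.Agent.H373R2.T7 Pool.Agent.H560R3.GB
open Pool.Agent.Run7.h17.JB (top top_spec le_top cond_iff)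

open Classical in
theorem tuple_var (k p B C κ U : ℕ) (hk : 0 < k) : ∃ B0 : ℕ, ∀ E : ℕ, ∃ N0 : ℕ, ∀ N : ℕ, N0 ≤ N →
    ∀ (x : Fin k → ℕ) (s : Fin k → ℕ → ℤ), (∀ i, ∀ m ∈ Icc 1 (x i), |s i m| ≤ B * N) →
    (∀ i, (Pool.Agent.H373R2.T7.energy p (x i) (s i) : ℝ) * N ≤ Real.log N ^ C * (x i : ℝ) ^ (2 * p)) →
    ∀ α : Fin k → ℤ, (∀ i, α i ≠ 0) → ∀ z : ℕ, Real.log N ^ B0 ≤ z → (z : ℝ) ≤ Real.log N ^ E →
    ∀ L : ℕ, (L : ℝ) ≤ Real.log N ^ κ → ∀ θ : Fin L → ℕ → ℝ,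
    (∀ l n, 1 ≤ n → (∀ i, (α i).natAbs * n ≤ B * N) → |θ l n| ≤ Real.log N ^ κ) →
    (((Fintype.piFinset (fun i => Icc 1 (x i))).filter (fun m : Fin k → ℕ => ¬ ∀ l, ∀ A : ℕ,
      (∀ i, (α i).natAbs * A ≤ B * N) → ∀ Q : ℕ,
      |∑ q ∈ Icc 1 Q, ∑ b ∈ range q, (∑ n ∈ Icc 1 A,
        if n % q = b then θ l n * df z α (fun i => s i (m i)) n else 0) ^ 2 -
        Q * ∑ n ∈ Icc 1 A, (θ l n * df z α (fun i => s i (m i)) n) ^ 2| ≤ (N : ℝ) ^ 2 / Real.log N ^ U)).card : ℝ) ≤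
      (∏ i, (x i : ℝ)) / Real.log N ^ U := by
  obtain ⟨U', n1, h1⟩ := ABS.var (2 * k + κ) U
  obtain ⟨B0, hB0⟩ := prod_lam k p B C U'
  refine ⟨B0, fun E => ?_⟩
  obtain ⟨n2, h2⟩ := hB0 E
  obtain ⟨n3, h3⟩ := df_bound k B E
  obtain ⟨n4, h4⟩ := ev_L' (2 * B + 2)
  refine ⟨n1 + n2 + n3 + n4 + 1, fun N hN x s hs hE α hα z hz1 hz2 L hL θ hθ => ?_⟩
  have hlog := h4 N (by omega)
  have hBr : (0 : ℝ) ≤ B := Nat.cast_nonneg _
  have hL1 : 1 ≤ Real.log N := by linarith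
  have hL2 : 2 ≤ Real.log N := by linarith
  have hNr : (0 : ℝ) ≤ N := Nat.cast_nonneg _
  have hz : 1 ≤ z := by
    have : (1 : ℝ) ≤ z := (one_le_pow₀ hL1).trans hz1
    exact_mod_cast this
  have hI : (univ : Finset (Fin k)).Nonempty := ⟨⟨0, hk⟩, mem_univ _⟩
  set tp := top (fun i => (α i).natAbs) univ (B * N) with htp
  have htop : tp ≤ B * N := Nat.findGreatest_le _
  have htpr : (tp : ℝ) ≤ Real.log N * N / 2 := by
    have e1 : (tp : ℝ) ≤ B * N := by exact_mod_cast htop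
    nlinarith
  have hci : ∀ n, (∀ i, (α i).natAbs * n ≤ B * N) ↔ n ≤ tp := fun n => by
    have := cond_iff (fun i => (α i).natAbs) (fun i => Int.natAbs_pos.mpr (hα i)) univ hI (B * N) n
    rw [← this]
    constructor
    · exact fun h i _ => h i
    · exact fun h i => h i (mem_univ i)
  have hm1 : (2 * Real.log N) ^ k ≤ Real.log N ^ (2 * k + κ) := by
    calc (2 * Real.log N) ^ k ≤ (Real.log N ^ 2) ^ k := pow_le_pow_left₀ (by positivity) (by nlinarith) k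
      _ = Real.log N ^ (2 * k) := by rw [← pow_mul]
      _ ≤ _ := pow_le_pow_right₀ hL1 (by omega)
  have hm2 : Real.log N ^ κ ≤ Real.log N ^ (2 * k + κ) := pow_le_pow_right₀ hL1 (by omega)
  have hW : (0 : ℝ) ≤ ∏ i, (x i : ℝ) := prod_nonneg fun _ _ => Nat.cast_nonneg _
  have key := h1 N (by omega) tp htpr (Fintype.piFinset (fun i => Icc 1 (x i)))
    (fun m n => df z α (fun i => s i (m i)) n) (∏ i, (x i : ℝ)) hW
    (fun m hm n hn => by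
      rw [mem_Icc] at hn
      refine (h3 N (by omega) z hz hz2 α (fun i => s i (m i)) (fun i => hs i (m i) (Fintype.mem_piFinset.mp hm i)) n
        ((hci n).mpr hn.2)).trans hm1)
    (fun A hA H hH => by
      by_cases hx1 : ∀ i, 1 ≤ x i
      · have e1 := h2 N (by omega) x s hx1 hs hE α hα A ((hci A).mpr hA) z hz1 hz2 1 one_pos H (fun n _ => hH n)
        rw [one_mul] at e1
        exact e1
      · push Not at hx1
        obtain ⟨i, hi⟩ := hx1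
        have : Fintype.piFinset (fun i => Icc 1 (x i)) = ∅ := by
          rw [Fintype.piFinset_eq_empty]
          exact ⟨i, by rw [Icc_eq_empty]; omega⟩
        rw [this, sum_empty]
        positivity)
    L (hL.trans hm2) θ (fun l n hn => by
      rw [mem_Icc] at hn
      exact (hθ l n hn.1 ((hci n).mpr hn.2)).trans hm2)
  refine le_trans (Nat.cast_le.mpr (card_le_card ?_)) key
  intro m hm
  rw [mem_filter] at hm ⊢
  refine ⟨hm.1, fun hgood => hm.2 ?_⟩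
  intro l A hA Q
  exact hgood l A ((hci A).mp hA) Q

end Pool.Agent.Run7.h17.PT

namespace Pool.Agent.Run7.h17.PB

open Finset Polynomial
open Pool.Agent.H373R2.T7 (energy ev_L' lamI lamzI)

open Classical in
theorem poly_var (k : ℕ) (F : Fin k → ℤ[X]) (hF : ∀ i, 1 ≤ (F i).natDegree) (B κ U : ℕ) :
    ∃ B0 : ℕ, ∀ E : ℕ, ∃ x0 : ℕ, ∀ x : ℕ, x0 ≤ x → ∀ M : Fin k → ℕ,
    (∀ i, x ^ (F i).natDegree ≤ B * M i ∧ M i ≤ B * x ^ (F i).natDegree) → ∀ a : Fin k → ℤ, (∀ i, |a i| ≤ B * M i) →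
    ∀ z : ℕ, Real.log x ^ B0 ≤ z → (z : ℝ) ≤ Real.log x ^ E →
    ∀ L : ℕ, (L : ℝ) ≤ Real.log x ^ κ → ∀ θ : Fin L → ℕ → ℝ, (∀ l, ∀ t ∈ Icc 1 x, |θ l t| ≤ Real.log x ^ κ) →
    (((Fintype.piFinset (fun i => Icc 1 (M i))).filter (fun m : Fin k → ℕ => ¬ ∀ l, ∀ A : ℕ, A ≤ x → ∀ Q : ℕ,
      |∑ q ∈ Icc 1 Q, ∑ b ∈ range q, (∑ t ∈ Icc 1 A, if t % q = b then
        θ l t * pd z (fun i t => a i + (F i).eval (t : ℤ)) m t else 0) ^ 2 -
        Q * ∑ t ∈ Icc 1 A, (θ l t * pd z (fun i t => a i + (F i).eval (t : ℤ)) m t) ^ 2| ≤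
        (x : ℝ) ^ 2 / Real.log x ^ U)).card : ℝ) ≤ (∏ i, (M i : ℝ)) / Real.log x ^ U := by
  obtain ⟨U', n1, h1⟩ := ABS.var (2 * k + κ) U
  obtain ⟨B0, hB0⟩ := poly_dual k F hF B U'
  refine ⟨B0, fun E => ?_⟩
  obtain ⟨n2, h2⟩ := hB0 E
  obtain ⟨n3, h3⟩ := ev_L' 2
  refine ⟨n1 + n2 + n3, fun x hx M hM a ha z hz1 hz2 L hL θ hθ => ?_⟩
  have hlog := h3 x (by omega)
  obtain ⟨e1, e2⟩ := h2 x (by omega) M hM a ha z hz1 hz2
  have hm1 : Real.log x ^ (2 * k) ≤ Real.log x ^ (2 * k + κ) := pow_le_pow_right₀ (by linarith) (by omega)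
  have hm2 : Real.log x ^ κ ≤ Real.log x ^ (2 * k + κ) := pow_le_pow_right₀ (by linarith) (by omega)
  exact h1 x (by omega) x (by
    have : (0 : ℝ) ≤ x := Nat.cast_nonneg _
    nlinarith) (Fintype.piFinset (fun i => Icc 1 (M i)))
    (fun m t => pd z (fun i t => a i + (F i).eval (t : ℤ)) m t) (∏ i, (M i : ℝ)) (prod_nonneg fun _ _ => Nat.cast_nonneg _)
    (fun m hm t ht => (e1 m hm t ht).trans hm1) e2 L (hL.trans hm2) θ (fun l t ht => (hθ l t ht).trans hm2)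

end Pool.Agent.Run7.h17.PB
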