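import Mathlib
import Pool.Agent.Run7.h17.L2
import Pool.Agent.Run7.h17.Idx
import Pool.Agent.H442R2.KF.Diag

/-! Polynomials along sequences at products of two indices. -/

set_option autoImplicit false
set_option maxHeartbeats 4000000

namespace Pool.Agent.Run7.h17.Multi

open Finset Polynomial
open Pool.Agent.H373R2.T7 (energy ev_L' ev_log' lamI lamzI)
open Pool.Agent.Run7.h17.PB (pd)
open Pool.Agent.Run7.h17.L2 (seq_family)

/-- few weights at the same time, without exceptions -/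
theorem seq_many (k : ℕ) (F : Fin k → ℤ[X]) (hF : ∀ i, 1 ≤ (F i).natDegree) (κ U : ℕ) :
    ∃ B0 : ℕ, ∀ E : ℕ, ∃ x0 : ℕ, ∀ x : ℕ, x0 ≤ x → ∀ M : Fin k → ℕ,
    (∀ i, (x : ℝ) ^ (F i).natDegree ≤ Real.log x ^ κ * M i ∧ (M i : ℝ) ≤ Real.log x ^ κ * x ^ (F i).natDegree) →
    ∀ a : Fin k → ℤ, (∀ i, ((|a i| : ℤ) : ℝ) ≤ Real.log x ^ κ * M i) →
    ∀ u : Fin k → ℕ → ℕ, (∀ i, ∀ t ∈ Icc 1 x, 1 ≤ u i t ∧ (u i t : ℝ) ≤ Real.log x ^ κ * x) →
    (∀ i, Set.InjOn (u i) (Icc 1 x : Finset ℕ)) →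
    ∀ z : ℕ, Real.log x ^ B0 ≤ z → (z : ℝ) ≤ Real.log x ^ E →
    ∀ (S : Finset ℕ), (S.card : ℝ) ≤ Real.log x ^ κ → ∀ g : ℕ → ℕ → ℝ,
    (∀ n ∈ S, ∑ t ∈ Icc 1 x, g n t ^ 2 ≤ x * Real.log x ^ κ) →
    (((Fintype.piFinset (fun i => Icc 1 (M i))).filter (fun c => ¬ ∀ n ∈ S, |∑ t ∈ Icc 1 x, g n t *
        pd z (fun i t => a i + (F i).eval (u i t : ℤ)) c t| ≤ x / Real.log x ^ U)).card : ℝ) ≤
      (∏ i, (M i : ℝ)) / Real.log x ^ U := by
  classical
  obtain ⟨B0, hB0⟩ := seq_family k F hF κ (U + κ + 1)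
  refine ⟨B0, fun E => ?_⟩
  obtain ⟨n1, h1⟩ := hB0 E
  obtain ⟨n2, h2⟩ := ev_L' 2
  refine ⟨n1 + n2, fun x hx M hM a ha u hu huinj z hz1 hz2 S hS g hg => ?_⟩
  have hL2 := h2 x (by omega)
  have hL1 : 1 ≤ Real.log x := by linarith
  have hL0 : 0 < Real.log x := by linarith
  have key := h1 x (by omega) M hM a ha u hu huinj z hz1 hz2 S (Real.log x ^ κ) hS (by positivity) g hg
  have hU : (∏ i, (M i : ℝ)) / Real.log x ^ (U + κ + 1) ≤ (∏ i, (M i : ℝ)) / Real.log x ^ U := by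
    apply div_le_div_of_nonneg_left (prod_nonneg fun _ _ => Nat.cast_nonneg _) (by positivity)
    exact pow_le_pow_right₀ hL1 (by omega)
  refine le_trans (Nat.cast_le.mpr (card_le_card ?_)) (key.trans hU)
  intro c hc
  rw [mem_filter] at hc ⊢
  refine ⟨hc.1, fun hgood => hc.2 fun n hn => ?_⟩
  have e1 : Real.log x ^ κ / Real.log x ^ (U + κ + 1) < 1 := by
    rw [div_lt_one (by positivity)]
    exact pow_lt_pow_right₀ (by linarith) (by omega)
  have e2 : ((S.filter (fun n => x / Real.log x ^ (U + κ + 1) < |∑ t ∈ Icc 1 x, g n t *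
        pd z (fun i t => a i + (F i).eval (u i t : ℤ)) c t|)).card : ℝ) < 1 := lt_of_le_of_lt hgood e1
  have e3 : (S.filter (fun n => x / Real.log x ^ (U + κ + 1) < |∑ t ∈ Icc 1 x, g n t *
        pd z (fun i t => a i + (F i).eval (u i t : ℤ)) c t|)).card < 1 := by exact_mod_cast e2
  have e4 : S.filter (fun n => x / Real.log x ^ (U + κ + 1) < |∑ t ∈ Icc 1 x, g n t *
        pd z (fun i t => a i + (F i).eval (u i t : ℤ)) c t|) = ∅ := by
    rw [← card_eq_zero]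
    omega
  rw [filter_eq_empty_iff] at e4
  have e5 := not_lt.mp (e4 hn)
  refine e5.trans ?_
  exact div_le_div_of_nonneg_left (Nat.cast_nonneg _) (by positivity) (pow_le_pow_right₀ hL1 (by omega))

/-- the weights: index `0` for the pairs, index `n` for the multiples of `n` -/
noncomputable def mw (x : ℕ) (θ : ℕ → ℕ → ℝ) (n t : ℕ) : ℝ :=
  if n = 0 then ∑ v ∈ (Icc 1 x ×ˢ Icc 1 x).filter (fun v : ℕ × ℕ => v.1 ≤ v.2 ∧ v.1 * v.2 = t), θ v.1 v.2
  else if n ∣ t then θ (t / n) n else 0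

lemma mw_row (x : ℕ) (θ : ℕ → ℕ → ℝ) (n : ℕ) (hn : 1 ≤ n) (f : ℕ → ℝ) :
    ∑ t ∈ Icc 1 x, mw x θ n t * f t = ∑ k ∈ Icc 1 (x / n), θ k n * f (k * n) := by
  classical
  unfold mw
  have h0 : n ≠ 0 := by omega
  have e1 : ∀ t, (if n = 0 then ∑ v ∈ (Icc 1 x ×ˢ Icc 1 x).filter (fun v : ℕ × ℕ => v.1 ≤ v.2 ∧ v.1 * v.2 = t), θ v.1 v.2
      else if n ∣ t then θ (t / n) n else 0) * f t = if n ∣ t then θ (t / n) n * f t else 0 := by
    intro t
    rw [if_neg h0]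
    split_ifs <;> simp
  rw [sum_congr rfl fun t _ => e1 t, ← sum_filter]
  have e2 : (Icc 1 x).filter (fun t => n ∣ t) = (Icc 1 (x / n)).image (fun k => k * n) := by
    ext t
    rw [mem_filter, mem_Icc, mem_image]
    constructor
    · rintro ⟨⟨h1, h2⟩, m, rfl⟩
      refine ⟨m, ?_, by ring⟩
      rw [mem_Icc, Nat.le_div_iff_mul_le hn]
      refine ⟨?_, by rw [mul_comm]; exact h2⟩
      rcases Nat.eq_zero_or_pos m with h | h
      · rw [h] at h1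
        omega
      · exact h
    · rintro ⟨m, hm, rfl⟩
      rw [mem_Icc, Nat.le_div_iff_mul_le hn] at hm
      exact ⟨⟨Nat.mul_pos hm.1 hn, hm.2⟩, dvd_mul_left _ _⟩
  rw [e2, sum_image (fun a _ b _ h => Nat.eq_of_mul_eq_mul_right hn h)]
  refine sum_congr rfl fun m _ => ?_
  rw [Nat.mul_div_cancel _ hn]

lemma mw_pair (x : ℕ) (θ : ℕ → ℕ → ℝ) (f : ℕ → ℝ) :
    ∑ t ∈ Icc 1 x, mw x θ 0 t * f t =
      ∑ v ∈ (Icc 1 x ×ˢ Icc 1 x).filter (fun v : ℕ × ℕ => v.1 ≤ v.2 ∧ v.1 * v.2 ≤ x), θ v.1 v.2 * f (v.1 * v.2) := by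
  classical
  rw [← sum_fiberwise_of_maps_to (s := (Icc 1 x ×ˢ Icc 1 x).filter (fun v : ℕ × ℕ => v.1 ≤ v.2 ∧ v.1 * v.2 ≤ x))
    (t := Icc 1 x) (g := fun v => v.1 * v.2) (fun v hv => by
      rw [mem_filter, mem_product, mem_Icc, mem_Icc] at hv
      rw [mem_Icc]
      exact ⟨Nat.mul_pos hv.1.1.1 hv.1.2.1, hv.2.2⟩)]
  refine sum_congr rfl fun t ht => ?_
  rw [mem_Icc] at ht
  unfold mw
  rw [if_pos rfl, sum_mul]
  refine sum_congr ?_ fun v hv => ?_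
  · ext v
    rw [mem_filter, mem_filter, mem_filter]
    constructor
    · rintro ⟨h1, h2, h3⟩
      exact ⟨⟨h1, h2, by omega⟩, h3⟩
    · rintro ⟨⟨h1, h2, _⟩, h3⟩
      exact ⟨h1, h2, h3⟩
  · rw [(mem_filter.mp hv).2]

lemma mw_sq (x : ℕ) (θ : ℕ → ℕ → ℝ) (K : ℝ) (hθ : ∀ k n, |θ k n| ≤ K) (hL : 1 ≤ Real.log x) (n : ℕ) :
    ∑ t ∈ Icc 1 x, mw x θ n t ^ 2 ≤ K ^ 2 * (x * (8 * Real.log x ^ 3)) := by
  classical
  have hK : 0 ≤ K := (abs_nonneg _).trans (hθ 0 0)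
  have h1 : ∀ t ∈ Icc 1 x, mw x θ n t ^ 2 ≤ K ^ 2 * (Pool.Agent.H442R2.KF.tau t) ^ 2 := by
    intro t ht
    rw [mem_Icc] at ht
    have hτ : 1 ≤ Pool.Agent.H442R2.KF.tau t := by
      unfold Pool.Agent.H442R2.KF.tau
      have : 1 ≤ t.divisors.card := Finset.card_pos.mpr ⟨1, Nat.one_mem_divisors.mpr (by omega)⟩
      exact_mod_cast this
    have h2 : |mw x θ n t| ≤ K * Pool.Agent.H442R2.KF.tau t := by
      unfold mw
      split_ifs with h3 h4
      · refine (abs_sum_le_sum_abs _ _).trans ?_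
        calc _ ≤ ∑ v ∈ (Icc 1 x ×ˢ Icc 1 x).filter (fun v : ℕ × ℕ => v.1 ≤ v.2 ∧ v.1 * v.2 = t), K :=
              sum_le_sum fun v _ => hθ _ _
          _ = K * ((Icc 1 x ×ˢ Icc 1 x).filter (fun v : ℕ × ℕ => v.1 ≤ v.2 ∧ v.1 * v.2 = t)).card := by
              rw [sum_const, nsmul_eq_mul]; ring
          _ ≤ K * Pool.Agent.H442R2.KF.tau t := by
              apply mul_le_mul_of_nonneg_left _ hK
              unfold Pool.Agent.H442R2.KF.tau
              apply Nat.cast_le.mpr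
              apply card_le_card_of_injOn (fun v => v.1)
              · intro v hv
                have hv' := (mem_filter.mp (mem_coe.mp hv)).2
                rw [mem_coe, Nat.mem_divisors]
                exact ⟨⟨v.2, hv'.2.symm⟩, by omega⟩
              · intro v hv w hw h
                have hv' := (mem_filter.mp (mem_coe.mp hv)).2
                have hw' := (mem_filter.mp (mem_coe.mp hw)).2
                have hv1 := (mem_filter.mp (mem_coe.mp hv)).1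
                rw [mem_product, mem_Icc] at hv1
                simp only at h
                ext
                · exact h
                · have e1 : v.1 * v.2 = v.1 * w.2 := by rw [hv'.2, h, hw'.2]
                  exact Nat.eq_of_mul_eq_mul_left hv1.1.1 e1
      · exact (hθ _ _).trans (le_mul_of_one_le_right hK hτ)
      · rw [abs_zero]
        exact mul_nonneg hK (zero_le_one.trans hτ)
    rw [← mul_pow, ← sq_abs]
    exact pow_le_pow_left₀ (abs_nonneg _) h2 _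
  calc ∑ t ∈ Icc 1 x, mw x θ n t ^ 2 ≤ ∑ t ∈ Icc 1 x, K ^ 2 * (Pool.Agent.H442R2.KF.tau t) ^ 2 :=
        sum_le_sum h1
    _ = K ^ 2 * ∑ t ∈ Icc 1 x, (Pool.Agent.H442R2.KF.tau t) ^ 2 := by rw [mul_sum]
    _ ≤ K ^ 2 * (x * (1 + Real.log x) ^ 3) :=
        mul_le_mul_of_nonneg_left (Pool.Agent.H442R2.KF.TaskP.sum_tau_sq x) (by positivity)
    _ ≤ _ := by
        apply mul_le_mul_of_nonneg_left _ (by positivity)
        apply mul_le_mul_of_nonneg_left _ (Nat.cast_nonneg _)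
        calc (1 + Real.log x) ^ 3 ≤ (2 * Real.log x) ^ 3 := pow_le_pow_left₀ (by linarith) (by linarith) _
          _ = _ := by ring

open Classical in
/-- **products of two indices** -/
theorem multi_main (k : ℕ) (F : Fin k → ℤ[X]) (hF : ∀ i, 1 ≤ (F i).natDegree) (κ U : ℕ) :
    ∃ B0 : ℕ, ∀ E : ℕ, ∃ x0 : ℕ, ∀ x : ℕ, x0 ≤ x → ∀ M : Fin k → ℕ,
    (∀ i, (x : ℝ) ^ (F i).natDegree ≤ Real.log x ^ κ * M i ∧ (M i : ℝ) ≤ Real.log x ^ κ * x ^ (F i).natDegree) →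
    ∀ a : Fin k → ℤ, (∀ i, ((|a i| : ℤ) : ℝ) ≤ Real.log x ^ κ * M i) →
    ∀ u : ℕ → ℕ, (∀ t ∈ Icc 1 x, 1 ≤ u t ∧ (u t : ℝ) ≤ Real.log x ^ κ * x) →
    Set.InjOn u (Icc 1 x : Finset ℕ) →
    ∀ z : ℕ, Real.log x ^ B0 ≤ z → (z : ℝ) ≤ Real.log x ^ E →
    ∀ θ : ℕ → ℕ → ℝ, (∀ k n, |θ k n| ≤ Real.log x ^ κ) →
    (((Fintype.piFinset (fun i => Icc 1 (M i))).filter (fun c : Fin k → ℕ => ¬
      ((∀ n : ℕ, 1 ≤ n → (n : ℝ) ≤ Real.log x ^ κ → |∑ k ∈ Icc 1 (x / n), θ k n *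
        (∏ i, lamI (a i + (F i).eval (u (k * n) : ℤ) + (c i : ℤ)) -
          ∏ i, lamzI z (a i + (F i).eval (u (k * n) : ℤ) + (c i : ℤ)))| ≤ x / Real.log x ^ U) ∧
       |∑ v ∈ (Icc 1 x ×ˢ Icc 1 x).filter (fun v : ℕ × ℕ => v.1 ≤ v.2 ∧ v.1 * v.2 ≤ x), θ v.1 v.2 *
        (∏ i, lamI (a i + (F i).eval (u (v.1 * v.2) : ℤ) + (c i : ℤ)) -
          ∏ i, lamzI z (a i + (F i).eval (u (v.1 * v.2) : ℤ) + (c i : ℤ)))| ≤ x / Real.log x ^ U))).card : ℝ) ≤
      (∏ i, (M i : ℝ)) / Real.log x ^ U := by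
  classical
  obtain ⟨B0, hB0⟩ := seq_many k F hF (2 * κ + 4) U
  refine ⟨B0, fun E => ?_⟩
  obtain ⟨n1, h1⟩ := hB0 E
  obtain ⟨n2, h2⟩ := ev_L' 8
  refine ⟨n1 + n2, fun x hx M hM a ha u hu huinj z hz1 hz2 θ hθ => ?_⟩
  have hL8 := h2 x (by omega)
  have hL1 : 1 ≤ Real.log x := by linarith
  have hL0 : 0 < Real.log x := by linarith
  have hκκ : Real.log x ^ κ ≤ Real.log x ^ (2 * κ + 4) := pow_le_pow_right₀ hL1 (by omega)
  obtain ⟨R, hR⟩ : ∃ R : ℕ, R = ⌊Real.log x ^ κ⌋₊ := ⟨_, rfl⟩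
  have hR1 : (R : ℝ) ≤ Real.log x ^ κ := by rw [hR]; exact Nat.floor_le (by positivity)
  have key := h1 x (by omega) M (fun i => ⟨(hM i).1.trans (mul_le_mul_of_nonneg_right hκκ (Nat.cast_nonneg _)),
      (hM i).2.trans (mul_le_mul_of_nonneg_right hκκ (by positivity))⟩) a
    (fun i => (ha i).trans (mul_le_mul_of_nonneg_right hκκ (Nat.cast_nonneg _)))
    (fun _ => u) (fun i t ht => ⟨(hu t ht).1, (hu t ht).2.trans (mul_le_mul_of_nonneg_right hκκ (Nat.cast_nonneg _))⟩)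
    (fun _ => huinj) z hz1 hz2 (range (R + 1)) (by
      rw [card_range]
      push_cast
      have e1 : Real.log x ^ κ + 1 ≤ Real.log x ^ κ * Real.log x ^ (κ + 4) := by
        have f1 : 1 ≤ Real.log x ^ κ := one_le_pow₀ hL1
        have f2 : Real.log x ≤ Real.log x ^ (κ + 4) := by
          calc Real.log x = Real.log x ^ 1 := (pow_one _).symm
            _ ≤ _ := pow_le_pow_right₀ hL1 (by omega)
        nlinarith
      calc (R : ℝ) + 1 ≤ Real.log x ^ κ + 1 := by linarith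
        _ ≤ _ := e1
        _ = _ := by rw [← pow_add]; congr 1; ring)
    (mw x θ) (fun n _ => by
      refine (mw_sq x θ _ hθ hL1 n).trans ?_
      calc (Real.log x ^ κ) ^ 2 * (x * (8 * Real.log x ^ 3)) = x * ((Real.log x ^ κ) ^ 2 * Real.log x ^ 3 * 8) := by ring
        _ ≤ x * ((Real.log x ^ κ) ^ 2 * Real.log x ^ 3 * Real.log x) := by
            apply mul_le_mul_of_nonneg_left _ (Nat.cast_nonneg _)
            exact mul_le_mul_of_nonneg_left hL8 (by positivity)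
        _ = _ := by ring)
  refine le_trans (Nat.cast_le.mpr (card_le_card ?_)) key
  intro c hc
  rw [mem_filter] at hc ⊢
  refine ⟨hc.1, fun hgood => hc.2 ⟨fun n hn1 hn2 => ?_, ?_⟩⟩
  · have hnR : n ∈ range (R + 1) := by
      rw [mem_range, hR]
      have : n ≤ ⌊Real.log x ^ κ⌋₊ := Nat.le_floor hn2
      omega
    have e1 := hgood n hnR
    rw [mw_row x θ n hn1] at e1
    exact e1
  · have e1 := hgood 0 (by rw [mem_range]; omega)
    rw [mw_pair x θ] at e1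
    exact e1

end Pool.Agent.Run7.h17.Multi
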