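import Mathlib
import Pool.Agent.Run7.h17.Hyp
import Pool.Agent.Run7.h581.Ex
import Pool.Agent.Run7.h581.Poly2

/-! Products of any number of multiplicative functions twisted by oscillating phases, in almost all classes of
almost all moduli. -/

set_option autoImplicit false

namespace Pool.Agent.Run7.h17.Os

open Finset Filter
open Pool.Agent.N781.FV (IsMult)
open Pool.Agent.N781.E (exc toZ)
open Pool.Agent.Y958.U (LZ)
open Pool.Agent.Run7.h17.Sc (few_LZ)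
open Pool.Agent.Y842.EL (LZ_mono)
open Pool.Agent.Run7.h17.Hy (PS Hyp tw moduli_E)
open Run7.h581 (SP ee Irr Irr2)

/-- few exceptional scales for the phase `g` -/
def Few (g : ℕ → ℝ) : Prop := ∀ k : ℕ, 0 < k → ∀ (a : Fin k → ℕ) (b : Fin k → ℤ), (∀ j, 1 ≤ a j) →
  ∀ ε : ℝ, 0 < ε → ∃ C : ℝ, ∀ J : ℕ, ∃ N₀ : ℕ, ∀ N : ℕ, N₀ ≤ N → ∀ f : Fin k → ℕ → ℂ, (∀ j, IsMult (f j)) →
    ∑ i ∈ exc (fun y => ‖SP a b (toZ f) (fun n => ee (g n)) y‖) ε J N, 1 / (i : ℝ) ≤ C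

/-- few exceptional scales in all classes -/
def FewAP (g : ℕ → ℝ) : Prop := ∀ q r : ℕ, 1 ≤ q → Few (fun n => g (q * n + r))

/-- the summand -/
noncomputable def FO {k : ℕ} (g : ℕ → ℝ) (a : Fin k → ℕ) (b : Fin k → ℤ) (f : Fin k → ℕ → ℂ) (n : ℕ) : ℂ :=
  ee (g n) * ∏ j, f j ((a j : ℤ) * n + b j).natAbs

lemma FO_norm {k : ℕ} (g : ℕ → ℝ) (a : Fin k → ℕ) (b : Fin k → ℤ) (f : Fin k → ℕ → ℂ) (hf : ∀ j, IsMult (f j))
    (n : ℕ) : ‖FO g a b f n‖ ≤ 1 := by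
  unfold FO
  rw [norm_mul, Run7.h581.ee_norm, one_mul, norm_prod]
  exact prod_le_one (fun _ _ => norm_nonneg _) fun j _ => (hf j).1 _

lemma osc_hyp (g : ℕ → ℝ) (hg : FewAP g) {k : ℕ} (hk : 0 < k) (a : Fin k → ℕ) (b : Fin k → ℤ)
    (ha : ∀ j, 1 ≤ a j) (f : Fin k → ℕ → ℂ) (hf : ∀ j, IsMult (f j)) :
    Hyp (fun γ => γ = 0) (FO g a b f) := by
  intro q c hq δ hδ
  obtain ⟨C, hC⟩ := hg q c hq k hk (fun j => a j * q) (fun j => b j + a j * c)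
    (fun j => Nat.mul_pos (ha j) hq) δ hδ
  have h1 := few_LZ (fun y => ‖SP (fun j => a j * q) (fun j => b j + a j * c) (toZ f)
    (fun n => ee (g (q * n + c))) y‖) δ C (fun J => by
      obtain ⟨N₀, h⟩ := hC J
      exact ⟨N₀, fun N hN => h N hN f hf⟩)
  refine LZ_mono ?_ h1
  rintro y ⟨γ, hγ, hy⟩
  rw [Set.mem_ofPred_eq]
  refine lt_of_lt_of_le hy (le_of_eq ?_)
  congr 1
  unfold PS SP FO Pool.Agent.N781.E.toZ
  refine sum_congr rfl fun n _ => ?_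
  have h2 : Pool.Agent.Helper112.ee ((n : ℝ) * γ) = 1 := by
    rw [hγ, mul_zero]
    unfold Pool.Agent.Helper112.ee
    simp
  rw [h2, mul_one]
  congr 1
  refine prod_congr rfl fun j _ => ?_
  have h3 : (a j : ℤ) * ((q * n + c : ℕ) : ℤ) + b j = ((a j * q : ℕ) : ℤ) * (n : ℤ) + (b j + (a j : ℤ) * (c : ℤ)) := by
    push_cast
    ring
  rw [h3]

/-- all forms, a sequence of multiplicative functions -/
theorem osc_main (g : ℕ → ℝ) (hg : FewAP g) (f : ℕ → ℕ → ℂ) (hf : ∀ m, IsMult (f m)) :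
    ∃ E : Set ℕ, LZ E ∧ ∀ (k : ℕ) (a : Fin k → ℕ) (b : Fin k → ℤ) (ν : Fin k → ℕ), 0 < k → (∀ j, 1 ≤ a j) →
      ∀ ε : ℝ, 0 < ε → ∃ K : ℕ, ∀ N : ℕ, K ≤ N → N ∉ E → ∀ Q : ℕ, K * Q ≤ N →
        (∀ Y : ℕ → ℕ → ℕ, (∀ q c, Y q c ≤ N) →
          ∑ q ∈ Icc 1 Q, ∑ c ∈ range q,
            ‖Pool.Agent.Run7.h17.BDH.cs (FO g a b (fun j => f (ν j))) q c (Y q c)‖ ≤ ε * (Q * N)) ∧
        (∀ M : Finset ℕ, (∀ q ∈ M, 1 ≤ q ∧ q ≤ Q) → (∀ q ∈ M, ∀ q' ∈ M, q ≠ q' → Nat.Coprime q q') →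
          (∀ q ∈ M, ∃ Y : ℕ → ℕ, (∀ c, Y c ≤ N) ∧
            ε * N < ∑ c ∈ range q, ‖Pool.Agent.Run7.h17.BDH.cs (FO g a b (fun j => f (ν j))) q c (Y c)‖) →
          (M.card : ℝ) ≤ K * (1 + (Q : ℝ) ^ 2 / N)) := by
  obtain ⟨E, hE, h1⟩ := moduli_E
    (ι := {t : (Σ k : ℕ, (Fin k → ℕ) × (Fin k → ℤ) × (Fin k → ℕ)) // 0 < t.1 ∧ ∀ j, 1 ≤ t.2.1 j})
    (fun _ γ => γ = 0) (fun _ γ q h => by rw [h, zero_mul])
    (fun t => FO g t.1.2.1 t.1.2.2.1 (fun j => f (t.1.2.2.2 j)))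
    (fun t n => FO_norm g _ _ _ (fun j => hf _) n)
    (fun t => osc_hyp g hg t.2.1 _ _ t.2.2 _ (fun j => hf _))
  refine ⟨E, hE, fun k a b ν hk ha ε hε => ?_⟩
  obtain ⟨K, hK⟩ := h1 ⟨⟨k, a, b, ν⟩, hk, ha⟩ ε hε
  refine ⟨K, fun N hN hNE Q hQ => ?_⟩
  have h2 := hK N hN hNE 0 rfl Q hQ
  have h3 : tw (FO g a b (fun j => f (ν j))) 0 = FO g a b (fun j => f (ν j)) := by
    funext n
    unfold tw
    have : Pool.Agent.Helper112.ee ((n : ℝ) * 0) = 1 := by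
      rw [mul_zero]
      unfold Pool.Agent.Helper112.ee
      simp
    rw [this, mul_one]
  simp only [h3] at h2
  exact h2

/-- polynomials -/
lemma irr2_few (P : ℕ → ℝ) (hP : Irr2 P) : Few P :=
  fun k hk a b ha ε hε => Run7.h581.whole k hk a b ha P hP ε hε

lemma irr2_ap (P : ℕ → ℝ) (hP : Irr2 P) (q r : ℕ) (hq : 1 ≤ q) : Irr2 (fun n => P (q * n + r)) := by
  obtain ⟨q₁, hq₁, h⟩ := hP
  refine ⟨q₁, hq₁, fun r₁ => ?_⟩
  obtain ⟨D, Q, c, hQ, h1⟩ := h (q * r₁ + r)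
  refine ⟨D, fun m => Q (q * m + 0), c, Run7.h581.irr_sub D q 0 hq Q hQ, fun m => ?_⟩
  show ee (P (q * (q₁ * m + r₁) + r)) = ee c * ee (Q (q * m + 0))
  rw [← h1 (q * m + 0)]
  have e1 : q * (q₁ * m + r₁) + r = q₁ * (q * m + 0) + (q * r₁ + r) := by ring
  rw [e1]

lemma poly_few (P : Polynomial ℝ) (hP : ∃ d, 1 ≤ d ∧ Irrational (P.coeff d)) : FewAP (fun n => P.eval (n : ℝ)) :=
  fun q r hq => irr2_few _ (irr2_ap _ (Run7.h581.poly_irr2 P.natDegree P le_rfl hP) q r hq)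

/-- smooth phases -/
lemma smooth_few (c : ℝ) (hc1 : 1 < c) (hc : ∀ n : ℕ, c ≠ n) (hind : Run7.h581.Indep c) (G : ℕ → ℝ → ℝ) (κ : ℝ)
    (hκ : κ ≠ 0) (hG : ∀ i : ℕ, i ≤ ⌊c⌋₊ → ∀ x : ℝ, 0 < x → HasDerivAt (G i) (G (i + 1) x) x)
    (hlim : Tendsto (fun x : ℝ => G (⌊c⌋₊ + 1) x * x ^ ((⌊c⌋₊ : ℝ) + 1 - c)) atTop (nhds κ)) :
    FewAP (fun n => G 0 n) := by
  intro q r hq k hk a b ha ε hε
  have hq0 : (0 : ℝ) < q := by exact_mod_cast hq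
  obtain ⟨C, hC⟩ := Run7.h581.smooth_few c hc1 hc hind k hk a b ha ε hε
  refine ⟨C, fun J => ?_⟩
  set s : ℝ := (⌊c⌋₊ : ℝ) + 1 - c with hs
  obtain ⟨N₀, hN₀⟩ := hC (fun i x => (q : ℝ) ^ i * G i (q * x + r)) ((q : ℝ) ^ (⌊c⌋₊ + 1) * (κ * ((1 : ℝ) / q) ^ s))
    (by
      have : (0 : ℝ) < ((1 : ℝ) / q) ^ s := Real.rpow_pos_of_pos (by positivity) _
      have h2 : (q : ℝ) ^ (⌊c⌋₊ + 1) ≠ 0 := by positivity
      exact mul_ne_zero h2 (mul_ne_zero hκ this.ne'))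
    (fun i hi x hx => by
      have h1 := hG i hi (q * x + r) (by positivity)
      have h2 : HasDerivAt (fun x : ℝ => (q : ℝ) * x + r) (q : ℝ) x := by
        have := ((hasDerivAt_id x).const_mul (q : ℝ)).add_const (r : ℝ)
        simpa using this
      have h3 := (h1.comp x h2).const_mul ((q : ℝ) ^ i)
      refine h3.congr_deriv ?_
      rw [pow_succ]
      ring)
    (by
      have e1 : Tendsto (fun x : ℝ => (q : ℝ) * x + r) atTop atTop :=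
        tendsto_atTop_add_const_right _ _ (tendsto_id.const_mul_atTop hq0)
      have e2 := hlim.comp e1
      have e3 : Tendsto (fun x : ℝ => x / ((q : ℝ) * x + r)) atTop (nhds (1 / (q : ℝ))) := by
        have e4 : Tendsto (fun x : ℝ => (q : ℝ) + r / x) atTop (nhds ((q : ℝ) + 0)) :=
          tendsto_const_nhds.add (tendsto_const_nhds.div_atTop tendsto_id)
        rw [add_zero] at e4
        have e5 := (e4.inv₀ hq0.ne')
        rw [one_div]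
        refine e5.congr' ?_
        filter_upwards [eventually_gt_atTop 0] with x hx
        have : (q : ℝ) * x + r ≠ 0 := by positivity
        have h6 : (q : ℝ) + r / x = ((q : ℝ) * x + r) / x := by field_simp
        rw [h6, inv_div]
      have e6 : Tendsto (fun x : ℝ => (x / ((q : ℝ) * x + r)) ^ s) atTop (nhds ((1 / (q : ℝ)) ^ s)) :=
        e3.rpow_const (Or.inl (by positivity))
      have e7 := (e2.mul e6).const_mul ((q : ℝ) ^ (⌊c⌋₊ + 1))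
      refine e7.congr' ?_
      filter_upwards [eventually_gt_atTop 0] with x hx
      have hy : (0 : ℝ) < (q : ℝ) * x + r := by positivity
      simp only [Function.comp]
      rw [Real.div_rpow hx.le hy.le]
      have h8 : ((q : ℝ) * x + r) ^ s ≠ 0 := (Real.rpow_pos_of_pos hy _).ne'
      field_simp) J
  refine ⟨N₀, fun N hN f hf => le_trans (le_of_eq ?_) (hN₀ N hN f hf)⟩
  simp

end Pool.Agent.Run7.h17.Os
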