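import Pool.Agent.Run7.h17.Sparse5

/-!
# Random sparse changes: the general theorems
-/

set_option autoImplicit false

namespace Pool.Agent.Run7.h17.Sparse

open MeasureTheory ProbabilityTheory Finset Filter Topology

universe u

open Classical in
/-- number of the `i < I` with `h (b i + s) = v s` modulo `M` for all `s < L` -/
noncomputable def hits (h : ℕ → ℤ) (b : ℕ → ℕ) (M L : ℕ) (v : Fin L → ZMod M) (I : ℕ) : ℕ :=
  ((range I).filter fun i => ∀ s : Fin L, (h (b i + s) : ZMod M) = v s).card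

/-- all windows are equidistributed modulo all `M` along `b`, with a power saving -/
def Equi (h : ℕ → ℤ) (b : ℕ → ℕ) (κ : ℝ) : Prop :=
  ∀ M L : ℕ, 0 < M → ∃ C : ℝ, ∀ (v : Fin L → ZMod M) (I : ℕ), 1 ≤ I →
    |(hits h b M L v I : ℝ) - (I : ℝ) / (M : ℝ) ^ L| ≤ C * (I : ℝ) ^ (1 - κ)

/-- **Almost sure equidistribution.** -/
theorem main_as (c D : ℝ) (hc : 0 < c) (hc1 : c < 1) (hD : 0 ≤ D) (hDc : D * c < 1) :
    ∃ κ : ℝ, 0 < κ ∧ κ < 1 ∧ ∀ (Ω : Type u) [MeasurableSpace Ω] (μ : Measure Ω) [IsProbabilityMeasure μ]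
      (ξ : ℕ → Ω → Bool) (_ : ∀ k, Measurable (ξ k)) (_ : iIndepFun ξ μ) (a : ℝ) (_ : 0 < a)
      (_ : ∀ k : ℕ, 1 ≤ k → a * (k : ℝ) ^ (-c) ≤ μ.real {ω | ξ k ω = true} ∧
        μ.real {ω | ξ k ω = true} ≤ 1 - a * (k : ℝ) ^ (-c))
      (sg : ℕ → Bool) (g : ℕ → Cfg → ℤ) (_ : Sys sg g) (b : ℕ → ℕ) (_ : StrictMono b)
      (_ : ∃ C₀ : ℝ, ∀ i, (b i : ℝ) ≤ C₀ * ((i : ℝ) + 1) ^ D),
      ∀ᵐ ω ∂μ, Equi (fun n => g n (cf ξ ω)) b κ := by
  classical
  obtain ⟨τ, hτ⟩ : ∃ τ, τ = (1 + D * c) / 2 := ⟨_, rfl⟩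
  have hDc0 : 0 ≤ D * c := by positivity
  have hτ0 : 0 < τ := by rw [hτ]; linarith
  have hτ1 : τ < 1 := by rw [hτ]; linarith
  have hτ2 : D * c < τ := by rw [hτ]; linarith
  have hbb : (0 : ℝ) < bb τ := by exact_mod_cast bb_pos hτ1
  have hbb4 := bb_le hτ1
  refine ⟨1 / (bb τ : ℝ), by positivity, ?_, ?_⟩
  · rw [div_lt_one hbb]
    nlinarith
  intro Ω _ μ _ ξ hm hi a ha hp sg g hg b hb hbD
  obtain ⟨C₀, hC₀⟩ := hbD
  have h := equi (μ := μ) hm hi (C₀ := max C₀ 1) hc hc1 ha (le_max_right _ _) hD hτ0 hτ1 hτ2 hp hg hb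
    (fun i => (hC₀ i).trans (mul_le_mul_of_nonneg_right (le_max_left _ _) (by positivity)))
  filter_upwards [h] with ω hω M L hM
  obtain ⟨M', rfl⟩ : ∃ M', M = M' + 1 := ⟨M - 1, by omega⟩
  obtain ⟨C, hC⟩ := hω M' L
  refine ⟨C, fun v I hI => ?_⟩
  have h1 := hC v I hI
  have e : hits (fun n => g n (cf ξ ω)) b (M' + 1) L v I =
      ((range I).filter fun i => win g (M' + 1) L (b i) (cf ξ ω) = v).card := by
    unfold hits
    congr 1
    refine filter_congr fun i _ => ?_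
    rw [funext_iff]
    rfl
  rw [e]
  push_cast
  exact h1

/-- the distribution of one bit -/
noncomputable def bit (p : ℝ) : Measure Bool :=
  ENNReal.ofReal (1 - p) • Measure.dirac false + ENNReal.ofReal p • Measure.dirac true

lemma bit_prob {p : ℝ} (h0 : 0 ≤ p) (h1 : p ≤ 1) : IsProbabilityMeasure (bit p) := by
  refine ⟨?_⟩
  unfold bit
  simp only [Measure.coe_add, Measure.coe_smul, Pi.add_apply, Pi.smul_apply, measure_univ, smul_eq_mul, mul_one]
  rw [← ENNReal.ofReal_add (by linarith) h0]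
  simp

lemma bit_true (p : ℝ) : bit p {true} = ENNReal.ofReal p := by
  unfold bit
  simp

/-- **Deterministic version.** -/
theorem main_det {sg : ℕ → Bool} {g : ℕ → Cfg → ℤ} (hg : Sys sg g) {ε : ℝ} (hε : 0 < ε) (hε1 : ε < 1) :
    ∃ x : Cfg, (∃ C : ℝ, ∀ N : ℕ, ((((Icc 1 N).filter fun k => x k = true).card : ℕ) : ℝ) ≤ C * (N : ℝ) ^ ε) ∧
      ∃ κ : ℝ, 0 < κ ∧ ∀ q r : ℕ, 0 < q → Equi (fun n => g n x) (fun i => q * i + r) κ := by
  classical
  obtain ⟨c, hc⟩ : ∃ c, c = 1 - ε / 2 := ⟨_, rfl⟩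
  have hc0 : 0 < c := by rw [hc]; linarith
  have hc1 : c < 1 := by rw [hc]; linarith
  obtain ⟨κ, hκ, -, hmain⟩ := main_as.{0} c 1 hc0 hc1 zero_le_one (by linarith)
  obtain ⟨p, hp⟩ : ∃ p : ℕ → ℝ, ∀ k, p k = 1 / 2 * (k : ℝ) ^ (-c) := ⟨_, fun _ => rfl⟩
  have hpk : ∀ k : ℕ, 0 ≤ p k ∧ p k ≤ 1 / 2 := by
    intro k
    rw [hp]
    refine ⟨by positivity, ?_⟩
    have : (k : ℝ) ^ (-c) ≤ 1 := by
      rcases Nat.eq_zero_or_pos k with h | h
      · subst h
        rw [Nat.cast_zero, Real.zero_rpow (by linarith)]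
        norm_num
      · exact Real.rpow_le_one_of_one_le_of_nonpos (by exact_mod_cast h) (by linarith)
    linarith
  haveI hprob : ∀ k, IsProbabilityMeasure (bit (p k)) := fun k => bit_prob (hpk k).1 (by linarith [(hpk k).2])
  let μ : Measure (ℕ → Bool) := Measure.infinitePi fun k => bit (p k)
  let ξ : ℕ → (ℕ → Bool) → Bool := fun k ω => ω k
  have hm : ∀ k, Measurable (ξ k) := fun k => measurable_pi_apply k
  have hi : iIndepFun ξ μ := iIndepFun_infinitePi (X := fun _ b => b) (fun _ => measurable_id)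
  have hμk : ∀ k, μ {ω | ξ k ω = true} = ENNReal.ofReal (p k) := by
    intro k
    have h1 : {ω : ℕ → Bool | ξ k ω = true} = (fun ω : ℕ → Bool => ω k) ⁻¹' {true} := by ext ω; simp [ξ]
    rw [h1, ← Measure.map_apply (measurable_pi_apply k) (measurableSet_singleton _)]
    have h2 := Measure.infinitePi_map_eval (μ := fun k => bit (p k)) k
    rw [h2, bit_true]
  have hprk : ∀ k : ℕ, 1 ≤ k → 1 / 2 * (k : ℝ) ^ (-c) ≤ μ.real {ω | ξ k ω = true} ∧
      μ.real {ω | ξ k ω = true} ≤ 1 - 1 / 2 * (k : ℝ) ^ (-c) := by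
    intro k _
    have h1 : μ.real {ω | ξ k ω = true} = p k := by
      rw [Measure.real, hμk, ENNReal.toReal_ofReal (hpk k).1]
    rw [h1, ← hp]
    have := hpk k
    constructor <;> linarith [this.2]
  -- equidistribution for all progressions
  have h1 : ∀ᵐ ω ∂μ, ∀ q r : ℕ, 0 < q → Equi (fun n => g n (cf ξ ω)) (fun i => q * i + r) κ := by
    rw [ae_all_iff]; intro q
    rw [ae_all_iff]; intro r
    by_cases hq : 0 < q
    · have h2 := hmain (ℕ → Bool) μ ξ hm hi (1 / 2) (by norm_num) hprk sg g hg (fun i => q * i + r)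
        (fun i j hij => by
          simp only
          have : q * i < q * j := Nat.mul_lt_mul_of_pos_left hij hq
          omega)
        ⟨q + r, fun i => by
          rw [Real.rpow_one]; push_cast
          have hi0 : (0 : ℝ) ≤ i := Nat.cast_nonneg i
          have hq0 : (0 : ℝ) ≤ q := Nat.cast_nonneg q
          have hr0 : (0 : ℝ) ≤ r := Nat.cast_nonneg r
          nlinarith [mul_nonneg hr0 hi0]⟩
      filter_upwards [h2] with ω hω _
      exact hω
    · exact Eventually.of_forall fun ω h => absurd h hq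
  -- sparsity
  let G : ℕ → (ℕ → Bool) → ENNReal := fun k ω => if ξ k ω = true then ENNReal.ofReal ((k : ℝ) ^ (-ε)) else 0
  have hGm : ∀ k, Measurable (G k) := fun k =>
    Measurable.ite (measurableSet_eq_fun (hm k) measurable_const) measurable_const measurable_const
  have hG : ∀ k, ∫⁻ ω, G k ω ∂μ = ENNReal.ofReal ((k : ℝ) ^ (-ε) * p k) := by
    intro k
    have e1 : G k = Set.indicator {ω | ξ k ω = true} fun _ => ENNReal.ofReal ((k : ℝ) ^ (-ε)) := by
      funext ω; simp [G, Set.indicator]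
    rw [e1, lintegral_indicator (measurableSet_eq_fun (hm k) measurable_const), setLIntegral_const, hμk,
      ← ENNReal.ofReal_mul (by positivity)]
  have hsum : ∫⁻ ω, ∑' k, G k ω ∂μ ≠ ⊤ := by
    rw [lintegral_tsum fun k => (hGm k).aemeasurable]
    simp only [hG]
    have hs : Summable fun k : ℕ => (k : ℝ) ^ (-ε) * p k := by
      have h3 : Summable fun k : ℕ => 1 / 2 * (1 / (k : ℝ) ^ (1 + ε / 2)) :=
        (Real.summable_one_div_nat_rpow.2 (by linarith)).mul_left _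
      refine h3.congr fun k => ?_
      rw [hp]
      rcases Nat.eq_zero_or_pos k with h | h
      · subst h
        rw [Nat.cast_zero, Real.zero_rpow (by linarith), Real.zero_rpow (by linarith), Real.zero_rpow (by linarith)]
        norm_num
      · have hk : (0 : ℝ) < k := by exact_mod_cast h
        have e3 : (k : ℝ) ^ (-ε) * (1 / 2 * (k : ℝ) ^ (-c)) = 1 / 2 * (k : ℝ) ^ (-(1 + ε / 2)) := by
          have : (k : ℝ) ^ (-(1 + ε / 2)) = (k : ℝ) ^ (-ε) * (k : ℝ) ^ (-c) := by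
            rw [← Real.rpow_add hk]; congr 1; rw [hc]; ring
          rw [this]; ring
        rw [e3, Real.rpow_neg hk.le, one_div ((k : ℝ) ^ (1 + ε / 2))]
    exact hs.tsum_ofReal_ne_top
  have h2 := ae_lt_top (Measurable.tsum hGm) hsum
  obtain ⟨ω, hω1, hω2⟩ := (h1.and h2).exists
  refine ⟨cf ξ ω, ⟨(∑' k, G k ω).toReal, fun N => ?_⟩, κ, hκ, hω1⟩
  have h3 : ∀ N : ℕ, ∑ k ∈ (Icc 1 N).filter (fun k => cf ξ ω k = true), (k : ℝ) ^ (-ε) ≤ (∑' k, G k ω).toReal := by
    intro N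
    have h4 : ∑ k ∈ (Icc 1 N).filter (fun k => cf ξ ω k = true), ENNReal.ofReal ((k : ℝ) ^ (-ε)) ≤ ∑' k, G k ω := by
      refine le_trans (le_of_eq ?_) (ENNReal.sum_le_tsum ((Icc 1 N).filter fun k => cf ξ ω k = true))
      refine sum_congr rfl fun k hk => ?_
      rw [mem_filter] at hk
      have : ξ k ω = true := hk.2
      simp only [G, this, if_true]
    rw [← ENNReal.ofReal_sum_of_nonneg fun k _ => by positivity] at h4
    exact (ENNReal.ofReal_le_iff_le_toReal hω2.ne).1 h4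
  rcases Nat.eq_zero_or_pos N with h | h
  · subst h
    simp [Real.zero_rpow hε.ne']
  · have hN : (0 : ℝ) < N := by exact_mod_cast h
    have h5 : ((((Icc 1 N).filter fun k => cf ξ ω k = true).card : ℕ) : ℝ) ≤
        (∑ k ∈ (Icc 1 N).filter (fun k => cf ξ ω k = true), (k : ℝ) ^ (-ε)) * (N : ℝ) ^ ε := by
      rw [sum_mul, card_eq_sum_ones]
      push_cast
      refine sum_le_sum fun k hk => ?_
      rw [mem_filter, mem_Icc] at hk
      have hk0 : (0 : ℝ) < k := by exact_mod_cast hk.1.1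
      have e1 : (1 : ℝ) = (k : ℝ) ^ (-ε) * (k : ℝ) ^ ε := by
        rw [← Real.rpow_add hk0, neg_add_cancel, Real.rpow_zero]
      calc (1 : ℝ) = (k : ℝ) ^ (-ε) * (k : ℝ) ^ ε := e1
        _ ≤ (k : ℝ) ^ (-ε) * (N : ℝ) ^ ε := by
          refine mul_le_mul_of_nonneg_left ?_ (by positivity)
          exact Real.rpow_le_rpow hk0.le (by exact_mod_cast hk.1.2) hε.le
    exact h5.trans (mul_le_mul_of_nonneg_right (h3 N) (by positivity))

/-- odd density one half from equidistribution -/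
theorem Equi.density {h : ℕ → ℤ} {b : ℕ → ℕ} {κ : ℝ} (hκ : 0 < κ) (he : Equi h b κ) (M : ℕ) (hM : 0 < M) (v : ZMod M) :
    Tendsto (fun I : ℕ => (hits h b M 1 (fun _ => v) I : ℝ) / I) atTop (𝓝 (1 / M)) := by
  obtain ⟨C, hC⟩ := he M 1 hM
  rw [tendsto_iff_norm_sub_tendsto_zero]
  have h1 : Tendsto (fun I : ℕ => |C| * (I : ℝ) ^ (-κ)) atTop (𝓝 0) := by
    have := ((tendsto_rpow_neg_atTop hκ).comp tendsto_natCast_atTop_atTop).const_mul |C|
    simpa using this
  refine squeeze_zero' (Eventually.of_forall fun _ => norm_nonneg _) ?_ h1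
  filter_upwards [eventually_ge_atTop 1] with I hI
  have hI0 : (0 : ℝ) < I := by exact_mod_cast hI
  have h2 := hC (fun _ => v) I hI
  rw [pow_one] at h2
  have e : (hits h b M 1 (fun _ => v) I : ℝ) / I - 1 / M = ((hits h b M 1 (fun _ => v) I : ℝ) - I / M) / I := by
    field_simp
  rw [e, norm_div, Real.norm_eq_abs, Real.norm_of_nonneg hI0.le, div_le_iff₀ hI0]
  calc |(hits h b M 1 (fun _ => v) I : ℝ) - I / M| ≤ C * (I : ℝ) ^ (1 - κ) := h2
    _ ≤ |C| * (I : ℝ) ^ (1 - κ) := mul_le_mul_of_nonneg_right (le_abs_self _) (by positivity)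
    _ = |C| * (I : ℝ) ^ (-κ) * I := by
      rw [mul_assoc, sub_eq_add_neg, add_comm, Real.rpow_add hI0, Real.rpow_one]

end Pool.Agent.Run7.h17.Sparse
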