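import Mathlib
import Pool.Agent.Run7.h17.JointBDH
import Pool.Agent.H373R2.T7.SupLiou

/-! Joint correlations of the von Mangoldt function and the Liouville function in almost all classes of almost
all moduli. -/

set_option autoImplicit false

namespace Pool.Agent.Run7.h17.JB

open Finset
open Pool.Agent.H373R2.T7 (energy exI SupSmall ev_L' liR sup_liou)

lemma liR_norm (n : ℕ) : ‖liR n‖ ≤ 1 := by
  unfold liR
  rw [norm_pow, norm_neg, norm_one, one_pow]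

/-- the product of values of the von Mangoldt function -/
noncomputable def vp {k : ℕ} (a : Fin k → ℕ) (K : Finset (Fin k)) (n : ℕ) : ℂ :=
  ∏ i ∈ K, (ArithmeticFunction.vonMangoldt (n + a i) : ℂ)

open Classical in
theorem joint_bdh (k p B C κ U : ℕ) :
    ∃ c N0 : ℕ, ∀ N : ℕ, N0 ≤ N → ∀ t : ℕ, (2 : ℝ) ^ t ≤ Real.log N ^ κ →
    ∀ (y : Fin t → ℕ) (r : Fin t → ℕ → ℤ), (∀ i, ∀ m ∈ Icc 1 (y i), |r i m| ≤ B * N) →
    (∀ i, (energy p (y i) (r i) : ℝ) * N ≤ Real.log N ^ C * (y i : ℝ) ^ (2 * p)) →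
    ∀ α : Fin t → ℕ, (∀ i, 1 ≤ α i) → ∀ a : Fin k → ℕ, (∀ i, a i ≤ B * N) →
    ∀ L : ℕ, (L : ℝ) ≤ Real.log N ^ κ → ∀ θ : Fin L → ℕ → ℂ,
    (∀ l n, 1 ≤ n → n ≤ B * N → ‖θ l n‖ ≤ Real.log N ^ κ) →
    (((Fintype.piFinset (fun i => Icc 1 (y i))).filter (fun m : Fin t → ℕ => ¬ ∀ l, ∀ K : Finset (Fin k),
      ∀ I : Finset (Fin t), I.Nonempty →
      ∀ Q : ℕ, Q * Real.log N ^ c ≤ N → ∀ Y : ℕ → ℕ → ℕ, (∀ q b, ∀ i ∈ I, α i * Y q b ≤ B * N) →
      ∑ q ∈ Icc 1 Q, ∑ b ∈ range q, ‖∑ n ∈ Icc 1 (Y q b),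
        if n % q = b then θ l n * vp a K n * ∏ i ∈ I, exI liR (((α i * n : ℕ) : ℤ) + r i (m i)) else 0‖ ≤
          Q * N / Real.log N ^ U)).card : ℝ) ≤
      (∏ i, (y i : ℝ)) / Real.log N ^ U := by
  obtain ⟨c, N1, h1⟩ := forms_bdh liR liR_norm sup_liou p B C (κ + 2 * k) U
  obtain ⟨N2, h2⟩ := ev_L' 2
  refine ⟨c, N1 + N2 + 2 * B + 1, fun N hN t ht y r hr hE α hα a ha L hL θ hθ => ?_⟩
  have hLg := h2 N (by omega)
  obtain ⟨Lg, hLgd⟩ : ∃ Lg, Lg = Real.log N := ⟨_, rfl⟩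
  have hLg2 : 2 ≤ Lg := by rw [hLgd]; exact hLg
  have hL1 : 1 ≤ Lg := by linarith
  have hL0 : 0 < Lg := by linarith
  have hmono : Lg ^ κ ≤ Lg ^ (κ + 2 * k) := pow_le_pow_right₀ hL1 (by omega)
  have hN0 : (0 : ℝ) < N := by exact_mod_cast (by omega : 0 < N)
  have hvm : ∀ i n, 1 ≤ n → n ≤ B * N → ‖(ArithmeticFunction.vonMangoldt (n + a i) : ℂ)‖ ≤ Lg ^ 2 := by
    intro i n hn1 hn2
    rw [Complex.norm_real, Real.norm_eq_abs, abs_of_nonneg ArithmeticFunction.vonMangoldt_nonneg]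
    have e1 : ArithmeticFunction.vonMangoldt (n + a i) ≤ Real.log ((n + a i : ℕ) : ℝ) :=
      ArithmeticFunction.vonMangoldt_le_log
    have e2 : ((n + a i : ℕ) : ℝ) ≤ N * N := by
      have h3 := ha i
      have h4 : 2 * B * N ≤ N * N := Nat.mul_le_mul_right _ (by omega)
      have h5 : n + a i ≤ N * N := by
        have : 2 * B * N = B * N + B * N := by ring
        omega
      exact_mod_cast h5
    have e3 : Real.log ((n + a i : ℕ) : ℝ) ≤ Real.log ((N : ℝ) * N) :=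
      Real.log_le_log (by exact_mod_cast (by omega : 0 < n + a i)) e2
    rw [Real.log_mul hN0.ne' hN0.ne', ← hLgd] at e3
    have e4 : Lg + Lg ≤ Lg ^ 2 := by nlinarith
    linarith
  have hvp : ∀ (K : Finset (Fin k)) n, 1 ≤ n → n ≤ B * N → ‖vp a K n‖ ≤ Lg ^ (2 * k) := by
    intro K n hn1 hn2
    unfold vp
    rw [norm_prod]
    calc ∏ i ∈ K, ‖(ArithmeticFunction.vonMangoldt (n + a i) : ℂ)‖ ≤ ∏ _i ∈ K, Lg ^ 2 :=
          prod_le_prod (fun _ _ => norm_nonneg _) fun i _ => hvm i n hn1 hn2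
      _ = (Lg ^ 2) ^ K.card := by rw [prod_const]
      _ ≤ (Lg ^ 2) ^ k := by
          apply pow_le_pow_right₀ (one_le_pow₀ hL1)
          have := card_le_univ K
          rwa [Fintype.card_fin] at this
      _ = Lg ^ (2 * k) := by rw [← pow_mul]
  set e : (Fin L × Finset (Fin k)) ≃ Fin (Fintype.card (Fin L × Finset (Fin k))) := Fintype.equivFin _ with he
  have hcard : ((Fintype.card (Fin L × Finset (Fin k)) : ℕ) : ℝ) ≤ Real.log N ^ (κ + 2 * k) := by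
    rw [Fintype.card_prod, Fintype.card_fin, Fintype.card_finset, Fintype.card_fin, ← hLgd]
    push_cast
    rw [← hLgd] at hL
    rw [pow_add]
    apply mul_le_mul hL _ (by positivity) (by positivity)
    calc (2 : ℝ) ^ k ≤ Lg ^ k := pow_le_pow_left₀ (by norm_num) hLg2 k
      _ ≤ Lg ^ (2 * k) := pow_le_pow_right₀ hL1 (by omega)
  have key := h1 N (by omega) t (ht.trans (by rw [← hLgd]; exact hmono)) y r hr hE α hα
    (Fintype.card (Fin L × Finset (Fin k))) hcard (fun j n => θ (e.symm j).1 n * vp a (e.symm j).2 n) (by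
      intro j n hn1 hn2
      rw [norm_mul, ← hLgd, pow_add]
      have := hθ (e.symm j).1 n hn1 hn2
      rw [← hLgd] at this
      exact mul_le_mul this (hvp _ n hn1 hn2) (norm_nonneg _) (by positivity))
  refine le_trans (Nat.cast_le.mpr (card_le_card ?_)) key
  intro m hm
  rw [mem_filter] at hm ⊢
  refine ⟨hm.1, fun hgood => hm.2 ?_⟩
  intro l K I hI Q hQ Y hY
  have h3 := hgood (e (l, K)) I hI Q hQ Y hY
  simp only [Equiv.symm_apply_apply] at h3
  exact h3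

end Pool.Agent.Run7.h17.JB
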