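import Pool.Agent.Run7.h17.Sparse4

/-!
# Smooth functions of numbers with random sparse digits: the basic objects
-/

set_option autoImplicit false

namespace Pool.Agent.Run7.h17.Dig

open MeasureTheory ProbabilityTheory Finset Filter Topology
open Pool.Agent.Run7.h17.Sparse

/-- the digit term -/
noncomputable def dg (β : ℝ) (x : Cfg) (k : ℕ) : ℝ := if x k = true then β ^ (k + 1) else 0

/-- truncated sums -/
noncomputable def XX (β x0 : ℝ) (K : ℕ) (x : Cfg) : ℝ := x0 + ∑ k ∈ range K, dg β x k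

/-- the full sum -/
noncomputable def XI (β x0 : ℝ) (x : Cfg) : ℝ := x0 + ∑' k, dg β x k

/-- the exponential -/
noncomputable def ee (t : ℝ) : ℂ := Complex.exp ((2 * Real.pi * t : ℝ) * Complex.I)

lemma ee_norm (t : ℝ) : ‖ee t‖ = 1 := Complex.norm_exp_ofReal_mul_I _

lemma ee_add (s t : ℝ) : ee (s + t) = ee s * ee t := by
  unfold ee; rw [← Complex.exp_add]; congr 1; push_cast; ring

lemma ee_zero : ee 0 = 1 := by simp [ee]

lemma ee_lip (s t : ℝ) : ‖ee s - ee t‖ ≤ 2 * Real.pi * |s - t| := by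
  have h1 : ee s - ee t = ee t * (ee (s - t) - 1) := by
    rw [mul_sub, ← ee_add, mul_one]; congr 2; ring
  rw [h1, norm_mul, ee_norm, one_mul]
  unfold ee
  have h2 := Real.norm_exp_I_mul_ofReal_sub_one_le (x := 2 * Real.pi * (s - t))
  rw [mul_comm Complex.I] at h2
  refine h2.trans ?_
  rw [Real.norm_eq_abs, abs_mul, abs_of_pos (by positivity)]

lemma ee_sum (s : Finset ℕ) (F : ℕ → ℝ) : ee (∑ j ∈ s, F j) = ∏ j ∈ s, ee (F j) := by
  classical
  induction s using Finset.induction_on with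
  | empty => simp [ee_zero]
  | insert a s ha IH => rw [sum_insert ha, prod_insert ha, ee_add, IH]

/-- distance at least `η` from the integers -/
def Far (η t : ℝ) : Prop := ∀ n : ℤ, η ≤ |t - n|

lemma Far.near {η t s : ℝ} (h : Far (2 * η) t) (hs : |s - t| ≤ η) : Far η s := by
  intro n
  have h1 := h n
  have h2 : |t - n| ≤ |s - n| + |s - t| := by
    have : t - n = (s - n) - (s - t) := by ring
    rw [this]
    exact abs_sub _ _
  linarith

lemma ee_re {η t : ℝ} (hη : 0 ≤ η) (h : Far η t) : (ee t).re ≤ 1 - 2 * (4 * η ^ 2) := by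
  obtain ⟨d, hd⟩ : ∃ d, d = t - round t := ⟨_, rfl⟩
  have h1 : η ≤ |d| := by rw [hd]; exact h _
  have h2 : |d| ≤ 1 / 2 := by rw [hd]; exact abs_sub_round t
  have h3 : (ee t).re = Real.cos (2 * Real.pi * |d|) := by
    unfold ee
    rw [Complex.exp_ofReal_mul_I_re]
    have e : 2 * Real.pi * t = 2 * Real.pi * d + (round t : ℤ) * (2 * Real.pi) := by rw [hd]; ring
    rw [e, Real.cos_add_int_mul_two_pi]
    rcases abs_choice d with h4 | h4 <;> rw [h4]
    rw [mul_neg, Real.cos_neg]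
  rw [h3]
  have h5 : Real.cos (2 * Real.pi * |d|) = 1 - 2 * Real.sin (Real.pi * |d|) ^ 2 := by
    have : 2 * Real.pi * |d| = 2 * (Real.pi * |d|) := by ring
    rw [this, Real.cos_two_mul, Real.cos_sq']
    ring
  rw [h5]
  have h6 : 2 * |d| ≤ Real.sin (Real.pi * |d|) := by
    have h7 := Real.mul_le_sin (x := Real.pi * |d|) (by positivity) (by nlinarith [Real.pi_pos])
    have e : 2 / Real.pi * (Real.pi * |d|) = 2 * |d| := by
      field_simp
    rwa [e] at h7
  have h8 : (2 * η) ^ 2 ≤ Real.sin (Real.pi * |d|) ^ 2 := by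
    refine pow_le_pow_left₀ (by linarith) (by linarith) 2
  nlinarith

lemma far_toggle {η u v : ℝ} (h1 : 4 * η ≤ |u - v|) (h2 : |u - v| ≤ 1 / 2) : Far (2 * η) u ∨ Far (2 * η) v := by
  by_contra hcon
  push Not at hcon
  obtain ⟨hu, hv⟩ := hcon
  unfold Far at hu hv
  push Not at hu hv
  obtain ⟨n, hn⟩ := hu
  obtain ⟨k, hk⟩ := hv
  have h3 : |(u - v) - ((n - k : ℤ) : ℝ)| < 4 * η := by
    have e : (u - v) - ((n - k : ℤ) : ℝ) = (u - n) - (v - k) := by push_cast; ring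
    rw [e]
    have := abs_sub (u - n) (v - k)
    linarith
  rcases eq_or_ne (n - k) 0 with h0 | h0
  · rw [h0] at h3
    simp only [Int.cast_zero, sub_zero] at h3
    linarith
  · have h4 : (1 : ℝ) ≤ |((n - k : ℤ) : ℝ)| := by
      rw [← Int.cast_abs]
      exact_mod_cast Int.one_le_abs h0
    have h5 : |((n - k : ℤ) : ℝ)| ≤ |(u - v) - ((n - k : ℤ) : ℝ)| + |u - v| := by
      have e : ((n - k : ℤ) : ℝ) = (u - v) - ((u - v) - ((n - k : ℤ) : ℝ)) := by ring
      calc |((n - k : ℤ) : ℝ)| = |(u - v) - ((u - v) - ((n - k : ℤ) : ℝ))| := by rw [← e]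
        _ ≤ |u - v| + |(u - v) - ((n - k : ℤ) : ℝ)| := abs_sub _ _
        _ = _ := by ring
    linarith

section digits
variable {β : ℝ}

lemma dg_nonneg (h0 : 0 ≤ β) (x : Cfg) (k : ℕ) : 0 ≤ dg β x k := by
  unfold dg; split_ifs
  · positivity
  · exact le_rfl

lemma dg_le (h0 : 0 ≤ β) (x : Cfg) (k : ℕ) : dg β x k ≤ β ^ (k + 1) := by
  unfold dg; split_ifs
  · exact le_rfl
  · positivity

lemma sum_dg_le (h0 : 0 ≤ β) (h1 : β ≤ 1 / 2) (x : Cfg) (K t : ℕ) :
    ∑ j ∈ range t, dg β x (K + j) ≤ β ^ K := by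
  have key : ∑ j ∈ range t, dg β x (K + j) ≤ β ^ K - β ^ (K + t) := by
    induction t with
    | zero => simp
    | succ t IH =>
      rw [sum_range_succ]
      have h2 := dg_le h0 x (K + t)
      have h3 : β ^ (K + t + 1) ≤ β ^ (K + t) * (1 / 2) := by
        rw [pow_succ]
        exact mul_le_mul_of_nonneg_left h1 (by positivity)
      have e : K + (t + 1) = K + t + 1 := by ring
      rw [e]
      linarith
  have : 0 ≤ β ^ (K + t) := by positivity
  linarith

lemma XX_add (x0 : ℝ) (x : Cfg) (K t : ℕ) : XX β x0 (K + t) x = XX β x0 K x + ∑ j ∈ range t, dg β x (K + j) := by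
  unfold XX
  rw [sum_range_add, add_assoc]

lemma XX_loc (x0 : ℝ) (K : ℕ) : Loc K (XX β x0 K) := by
  intro x y h
  unfold XX
  congr 1
  refine sum_congr rfl fun k hk => ?_
  rw [mem_range] at hk
  unfold dg
  rw [h k hk]

lemma XX_diff (h0 : 0 ≤ β) (h1 : β ≤ 1 / 2) (x0 : ℝ) (x : Cfg) {K L : ℕ} (h : K ≤ L) :
    0 ≤ XX β x0 L x - XX β x0 K x ∧ XX β x0 L x - XX β x0 K x ≤ β ^ K := by
  obtain ⟨t, rfl⟩ := Nat.exists_eq_add_of_le h
  rw [XX_add, add_sub_cancel_left]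
  exact ⟨sum_nonneg fun j _ => dg_nonneg h0 _ _, sum_dg_le h0 h1 x K t⟩

lemma XX_mem (h0 : 0 ≤ β) (h1 : β ≤ 1 / 2) (x0 : ℝ) (x : Cfg) (K : ℕ) :
    XX β x0 K x ∈ Set.Icc x0 (x0 + 1) := by
  have h2 := XX_diff h0 h1 x0 x (Nat.zero_le K)
  have e : XX β x0 0 x = x0 := by simp [XX]
  rw [e, pow_zero] at h2
  constructor <;> linarith [h2.1, h2.2]

lemma XX_st (x0 : ℝ) (x : Cfg) {j K : ℕ} (hj : j < K) :
    XX β x0 K (st x j true) - XX β x0 K (st x j false) = β ^ (j + 1) := by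
  unfold XX
  rw [add_sub_add_left_eq_sub, ← sum_sub_distrib]
  rw [sum_eq_single j]
  · unfold dg
    rw [st_same, st_same]
    simp
  · intro k _ hk
    unfold dg
    rw [st_ne _ hk, st_ne _ hk, sub_self]
  · intro h
    exact absurd (mem_range.2 hj) h

lemma dg_summable (h0 : 0 ≤ β) (h1 : β ≤ 1 / 2) (x : Cfg) : Summable (dg β x) := by
  refine Summable.of_nonneg_of_le (dg_nonneg h0 x) (dg_le h0 x) ?_
  have := (summable_geometric_of_lt_one h0 (by linarith : β < 1)).mul_left β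
  refine this.congr fun k => ?_
  rw [pow_succ]; ring

lemma XX_tendsto (h0 : 0 ≤ β) (h1 : β ≤ 1 / 2) (x0 : ℝ) (x : Cfg) :
    Tendsto (fun K => XX β x0 K x) atTop (𝓝 (XI β x0 x)) :=
  ((dg_summable h0 h1 x).hasSum.tendsto_sum_nat).const_add x0

lemma XI_diff (h0 : 0 ≤ β) (h1 : β ≤ 1 / 2) (x0 : ℝ) (x : Cfg) (K : ℕ) :
    0 ≤ XI β x0 x - XX β x0 K x ∧ XI β x0 x - XX β x0 K x ≤ β ^ K := by
  have h2 : Tendsto (fun L => XX β x0 L x - XX β x0 K x) atTop (𝓝 (XI β x0 x - XX β x0 K x)) :=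
    (XX_tendsto h0 h1 x0 x).sub_const _
  constructor
  · refine ge_of_tendsto h2 ?_
    filter_upwards [eventually_ge_atTop K] with L hL
    exact (XX_diff h0 h1 x0 x hL).1
  · refine le_of_tendsto h2 ?_
    filter_upwards [eventually_ge_atTop K] with L hL
    exact (XX_diff h0 h1 x0 x hL).2

lemma XI_mem (h0 : 0 ≤ β) (h1 : β ≤ 1 / 2) (x0 : ℝ) (x : Cfg) :
    XI β x0 x ∈ Set.Icc x0 (x0 + 1) :=
  isClosed_Icc.mem_of_tendsto (XX_tendsto h0 h1 x0 x) (Eventually.of_forall fun K => XX_mem h0 h1 x0 x K)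

end digits

/-- the data: `f` with derivative `g`, and `g` bi-Lipschitz -/
structure Dat (b : ℕ) (x0 A B G : ℝ) (f g : ℝ → ℝ) : Prop where
  hb : 2 ≤ b
  A0 : 0 < A
  B0 : 0 < B
  G0 : 0 ≤ G
  tay : ∀ u ∈ Set.Icc x0 (x0 + 1), ∀ v ∈ Set.Icc x0 (x0 + 1), |f v - f u - g u * (v - u)| ≤ A * (v - u) ^ 2
  lip : ∀ u ∈ Set.Icc x0 (x0 + 1), ∀ v ∈ Set.Icc x0 (x0 + 1), |f v - f u| ≤ G * |v - u|
  glo : ∀ u ∈ Set.Icc x0 (x0 + 1), ∀ v ∈ Set.Icc x0 (x0 + 1), B * |v - u| ≤ |g v - g u|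
  gup : ∀ u ∈ Set.Icc x0 (x0 + 1), ∀ v ∈ Set.Icc x0 (x0 + 1), |g v - g u| ≤ A * |v - u|

section
variable {Ω : Type*} [MeasurableSpace Ω] {μ : Measure Ω} {ξ : ℕ → Ω → Bool}

theorem peel_prod [IsProbabilityMeasure μ] (hm : ∀ k, Measurable (ξ k)) (hi : iIndepFun ξ μ) (K : ℕ)
    (θ : ℕ → Cfg → ℂ) (hθ : ∀ j, Loc K (θ j)) (t : ℕ) :
    ∀ Q : Cfg → ℂ, Loc K Q →
      ∫ ω, Q (cf ξ ω) * ∏ j ∈ range t, (if cf ξ ω (K + j) = true then θ j (cf ξ ω) else 1) ∂μ =
      ∫ ω, Q (cf ξ ω) * ∏ j ∈ range t,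
        (((1 - pr μ ξ (K + j) : ℝ) : ℂ) + (pr μ ξ (K + j) : ℂ) * θ j (cf ξ ω)) ∂μ := by
  induction t with
  | zero => intro Q _; rfl
  | succ t IH =>
    intro Q hQ
    have hloc : Loc (K + t + 1) fun x : Cfg => Q x * ∏ j ∈ range (t + 1), (if x (K + j) = true then θ j x else 1) := by
      intro x y h
      simp only
      rw [hQ x y fun k hk => h k (by omega)]
      congr 1
      refine prod_congr rfl fun j hj => ?_
      rw [mem_range] at hj
      rw [h (K + j) (by omega), hθ j x y fun k hk => h k (by omega)]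
    have h1 := integral_av hm hi (μ := μ) (K + t) hloc
    beta_reduce at h1
    rw [h1]
    have e : ∀ x : Cfg, av (pr μ ξ) (K + t) (fun x : Cfg => Q x * ∏ j ∈ range (t + 1), (if x (K + j) = true then θ j x else 1)) x =
        (Q x * (((1 - pr μ ξ (K + t) : ℝ) : ℂ) + (pr μ ξ (K + t) : ℂ) * θ t x)) *
          ∏ j ∈ range t, (if x (K + j) = true then θ j x else 1) := by
      intro x
      unfold av
      have e1 : ∀ c, Q (st x (K + t) c) = Q x := fun c => hQ.st (by omega) x c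
      have e2 : ∀ c, ∏ j ∈ range t, (if (st x (K + t) c) (K + j) = true then θ j (st x (K + t) c) else 1) =
          ∏ j ∈ range t, (if x (K + j) = true then θ j x else 1) := by
        intro c
        refine prod_congr rfl fun j hj => ?_
        rw [mem_range] at hj
        rw [st_ne x (by omega : K + j ≠ K + t), (hθ j).st (by omega) x c]
      simp only [prod_range_succ, e1, e2, st_same, (hθ t).st (Nat.le_add_right K t) x]
      simp only [Complex.real_smul, Bool.false_eq_true, if_false, if_true]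
      push_cast
      ring
    simp_rw [e]
    have h2 := IH (fun x => Q x * (((1 - pr μ ξ (K + t) : ℝ) : ℂ) + (pr μ ξ (K + t) : ℂ) * θ t x)) (by
      intro x y h
      simp only
      rw [hQ x y h, hθ t x y h])
    beta_reduce at h2
    rw [h2]
    congr 1
    funext ω
    rw [prod_range_succ]
    ring

end

end Pool.Agent.Run7.h17.Dig
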