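import Pool.Agent.Run7.h17.Dig1

/-!
# Smooth functions of numbers with random sparse digits: pair correlations
-/

set_option autoImplicit false

namespace Pool.Agent.Run7.h17.Dig

open MeasureTheory ProbabilityTheory Finset Filter Topology
open Pool.Agent.Run7.h17.Sparse

/-- the base inverse -/
noncomputable def bi (b : ℕ) : ℝ := ((b : ℝ))⁻¹

lemma bi_pos {b : ℕ} (hb : 2 ≤ b) : 0 < bi b := by
  unfold bi
  have : (2 : ℝ) ≤ b := by exact_mod_cast hb
  positivity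

lemma bi_le {b : ℕ} (hb : 2 ≤ b) : bi b ≤ 1 / 2 := by
  unfold bi
  have : (2 : ℝ) ≤ b := by exact_mod_cast hb
  rw [one_div]
  exact inv_anti₀ (by norm_num) this

lemma pow_bi {b : ℕ} (hb : 2 ≤ b) (m : ℕ) : (b : ℝ) ^ m * bi b ^ m = 1 := by
  have : (2 : ℝ) ≤ b := by exact_mod_cast hb
  rw [← mul_pow]
  unfold bi
  rw [mul_inv_cancel₀ (by positivity), one_pow]

lemma pow_bi_add {b : ℕ} (hb : 2 ≤ b) (m s : ℕ) : (b : ℝ) ^ m * bi b ^ (m + s) = bi b ^ s := by
  rw [pow_add, ← mul_assoc, pow_bi hb, one_mul]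

lemma pow_bi_le {b : ℕ} (hb : 2 ≤ b) {m s K : ℕ} (h : m + s ≤ K) : (b : ℝ) ^ m * bi b ^ K ≤ bi b ^ s := by
  obtain ⟨t, rfl⟩ := Nat.exists_eq_add_of_le h
  rw [add_assoc, pow_bi_add hb]
  exact pow_le_pow_of_le_one (bi_pos hb).le (by linarith [bi_le hb]) (by omega)

/-- the process -/
noncomputable def PP (b : ℕ) (x0 : ℝ) (f : ℝ → ℝ) (h : ℝ) (T n : ℕ) (x : Cfg) : ℂ :=
  ee (h * ((b : ℝ) ^ n * f (XX (bi b) x0 T x)))

lemma PP_loc (b : ℕ) (x0 : ℝ) (f : ℝ → ℝ) (h : ℝ) (T n : ℕ) : Loc T (PP b x0 f h T n) := by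
  intro x y hxy
  unfold PP
  rw [XX_loc x0 T x y hxy]

open Classical in
/-- the indicator -/
noncomputable def In (b : ℕ) (x0 : ℝ) (g : ℝ → ℝ) (h η : ℝ) (R i : ℕ) (x : Cfg) : ℝ :=
  if Far (2 * η) (h * ((b : ℝ) ^ (i * R) * g (XX (bi b) x0 (i * R + R) x))) then 1 else 0

lemma In_loc (b : ℕ) (x0 : ℝ) (g : ℝ → ℝ) (h η : ℝ) (R i : ℕ) : Loc (i * R + R) (In b x0 g h η R i) := by
  intro x y hxy
  unfold In
  rw [XX_loc x0 _ x y hxy]

lemma In_nonneg (b : ℕ) (x0 : ℝ) (g : ℝ → ℝ) (h η : ℝ) (R i : ℕ) (x : Cfg) : 0 ≤ In b x0 g h η R i x := by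
  unfold In; split_ifs <;> norm_num

/-- the number of indicators -/
noncomputable def cn (b : ℕ) (x0 : ℝ) (g : ℝ → ℝ) (h η : ℝ) (R M : ℕ) (x : Cfg) : ℝ :=
  ∑ i ∈ range M, In b x0 g h η R i x

lemma cn_loc (b : ℕ) (x0 : ℝ) (g : ℝ → ℝ) (h η : ℝ) (R M : ℕ) : Loc (M * R) (cn b x0 g h η R M) := by
  intro x y hxy
  unfold cn
  refine sum_congr rfl fun i hi => ?_
  rw [mem_range] at hi
  refine In_loc b x0 g h η R i x y fun k hk => hxy k ?_
  have : i * R + R ≤ M * R := by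
    calc i * R + R = (i + 1) * R := by ring
      _ ≤ M * R := Nat.mul_le_mul_right _ hi
  omega

section
variable {Ω : Type*} [MeasurableSpace Ω] {μ : Measure Ω} {ξ : ℕ → Ω → Bool}

/-- the exponential moment -/
theorem expm_le [IsProbabilityMeasure μ] (hm : ∀ k, Measurable (ξ k)) (hi : iIndepFun ξ μ)
    {b : ℕ} {x0 A B G : ℝ} {f g : ℝ → ℝ} (D : Dat b x0 A B G f g) {h η : ℝ} {R r : ℕ} (hr : 1 ≤ r) (hrR : r ≤ R)
    (h4 : 4 * η ≤ |h| * (B * bi b ^ r)) (hA : |h| * (A * bi b ^ r) ≤ 1 / 2)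
    {s δ : ℝ} (hs : 0 ≤ s) (hδ : 0 ≤ δ) (hδ1 : δ ≤ 1) (M : ℕ)
    (hp : ∀ k < M * R, δ ≤ pr μ ξ k ∧ pr μ ξ k ≤ 1 - δ) :
    ∫ ω, Real.exp (-s * cn b x0 g h η R M (cf ξ ω)) ∂μ ≤ (1 - δ * (1 - Real.exp (-s))) ^ M := by
  have hβ0 := bi_pos D.hb
  have hβ1 := bi_le D.hb
  have hes : Real.exp (-s) ≤ 1 := Real.exp_le_one_iff.2 (by linarith)
  have hes0 : 0 < Real.exp (-s) := Real.exp_pos _
  have hq0 : 0 ≤ 1 - δ * (1 - Real.exp (-s)) := by nlinarith
  have hloc : ∀ M, Loc (M * R) fun x : Cfg => Real.exp (-s * cn b x0 g h η R M x) := by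
    intro M x y hxy
    simp only
    rw [cn_loc b x0 g h η R M x y hxy]
  induction M with
  | zero => simp [cn]
  | succ M IH =>
    have hMR : (M + 1) * R = M * R + R := by ring
    have hIH := IH fun k hk => hp k (by omega)
    obtain ⟨k0, hk0⟩ : ∃ k0, k0 = M * R + (r - 1) := ⟨_, rfl⟩
    have h1 := integral_av hm hi (μ := μ) k0 (hloc (M + 1))
    beta_reduce at h1
    rw [h1]
    have hpt : ∀ x : Cfg, av (pr μ ξ) k0 (fun x : Cfg => Real.exp (-s * cn b x0 g h η R (M + 1) x)) x ≤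
        Real.exp (-s * cn b x0 g h η R M x) * (1 - δ * (1 - Real.exp (-s))) := by
      intro x
      have e1 : ∀ c, Real.exp (-s * cn b x0 g h η R (M + 1) (st x k0 c)) =
          Real.exp (-s * cn b x0 g h η R M x) * Real.exp (-s * In b x0 g h η R M (st x k0 c)) := by
        intro c
        have e2 : cn b x0 g h η R (M + 1) (st x k0 c) = cn b x0 g h η R M x + In b x0 g h η R M (st x k0 c) := by
          rw [← (cn_loc b x0 g h η R M).st (by omega : M * R ≤ k0) x c]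
          unfold cn
          rw [sum_range_succ]
        rw [e2, mul_add, Real.exp_add]
      unfold av
      simp only [smul_eq_mul]
      rw [e1, e1]
      obtain ⟨hp1, hp2⟩ := hp k0 (by omega)
      have hne : In b x0 g h η R M (st x k0 true) = 1 ∨ In b x0 g h η R M (st x k0 false) = 1 := by
        have h5 := XX_st (β := bi b) x0 x (j := k0) (K := M * R + R) (by omega)
        have h6 := XX_mem hβ0.le hβ1 x0 (st x k0 true) (M * R + R)
        have h7 := XX_mem hβ0.le hβ1 x0 (st x k0 false) (M * R + R)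
        have h8 := D.glo _ h7 _ h6
        have h9 := D.gup _ h7 _ h6
        have h5b : |XX (bi b) x0 (M * R + R) (st x k0 true) - XX (bi b) x0 (M * R + R) (st x k0 false)| = bi b ^ (k0 + 1) := by
          rw [h5]; exact abs_of_pos (pow_pos hβ0 _)
        rw [h5b] at h8 h9
        have hk1 : k0 + 1 = M * R + r := by omega
        have e10 : h * ((b : ℝ) ^ (M * R) * g (XX (bi b) x0 (M * R + R) (st x k0 true))) -
            h * ((b : ℝ) ^ (M * R) * g (XX (bi b) x0 (M * R + R) (st x k0 false))) =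
            h * (b : ℝ) ^ (M * R) * (g (XX (bi b) x0 (M * R + R) (st x k0 true)) - g (XX (bi b) x0 (M * R + R) (st x k0 false))) := by
          ring
        have e11 : |h * (b : ℝ) ^ (M * R)| = |h| * (b : ℝ) ^ (M * R) := by
          rw [abs_mul, abs_of_nonneg (by positivity : (0 : ℝ) ≤ (b : ℝ) ^ (M * R))]
        have h12 := pow_bi_add D.hb (M * R) r
        have hh0 : 0 ≤ |h| * (b : ℝ) ^ (M * R) := by positivity
        have h13 : |h| * (B * bi b ^ r) ≤ |h * (b : ℝ) ^ (M * R)| * |g (XX (bi b) x0 (M * R + R) (st x k0 true)) - g (XX (bi b) x0 (M * R + R) (st x k0 false))| := by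
          rw [e11]
          calc |h| * (B * bi b ^ r) = |h| * (b : ℝ) ^ (M * R) * (B * bi b ^ (k0 + 1)) := by
                rw [← h12, hk1]; ring
            _ ≤ _ := mul_le_mul_of_nonneg_left h8 hh0
        have h14 : |h * (b : ℝ) ^ (M * R)| * |g (XX (bi b) x0 (M * R + R) (st x k0 true)) - g (XX (bi b) x0 (M * R + R) (st x k0 false))| ≤ |h| * (A * bi b ^ r) := by
          rw [e11]
          calc |h| * (b : ℝ) ^ (M * R) * |g (XX (bi b) x0 (M * R + R) (st x k0 true)) - g (XX (bi b) x0 (M * R + R) (st x k0 false))|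
              ≤ |h| * (b : ℝ) ^ (M * R) * (A * bi b ^ (k0 + 1)) := mul_le_mul_of_nonneg_left h9 hh0
            _ = _ := by rw [← h12, hk1]; ring
        have h15 := far_toggle (η := η) (u := h * ((b : ℝ) ^ (M * R) * g (XX (bi b) x0 (M * R + R) (st x k0 true))))
          (v := h * ((b : ℝ) ^ (M * R) * g (XX (bi b) x0 (M * R + R) (st x k0 false))))
          (by rw [e10, abs_mul]; linarith) (by rw [e10, abs_mul]; linarith)
        rcases h15 with h16 | h16
        · left; unfold In; rw [if_pos h16]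
        · right; unfold In; rw [if_pos h16]
      have hE := Real.exp_pos (-s * cn b x0 g h η R M x)
      have hle : ∀ c, Real.exp (-s * In b x0 g h η R M (st x k0 c)) ≤ 1 := by
        intro c
        refine Real.exp_le_one_iff.2 ?_
        have := In_nonneg b x0 g h η R M (st x k0 c)
        nlinarith
      have hkey : (1 - pr μ ξ k0) * Real.exp (-s * In b x0 g h η R M (st x k0 false)) +
          pr μ ξ k0 * Real.exp (-s * In b x0 g h η R M (st x k0 true)) ≤ 1 - δ * (1 - Real.exp (-s)) := by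
        rcases hne with h16 | h16
        · rw [h16, mul_one]
          have h8 := hle false
          nlinarith
        · rw [h16, mul_one]
          have h8 := hle true
          nlinarith
      nlinarith [mul_le_mul_of_nonneg_left hkey hE.le]
    have hI1 : Integrable (fun ω => av (pr μ ξ) k0 (fun x : Cfg => Real.exp (-s * cn b x0 g h η R (M + 1) x)) (cf ξ ω)) μ :=
      int_loc (av_loc (hloc (M + 1)) _ _) hm
    have hI2 : Integrable (fun ω => Real.exp (-s * cn b x0 g h η R M (cf ξ ω)) * (1 - δ * (1 - Real.exp (-s)))) μ :=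
      (int_loc (hloc M) hm).mul_const _
    calc ∫ ω, av (pr μ ξ) k0 (fun x : Cfg => Real.exp (-s * cn b x0 g h η R (M + 1) x)) (cf ξ ω) ∂μ
        ≤ ∫ ω, Real.exp (-s * cn b x0 g h η R M (cf ξ ω)) * (1 - δ * (1 - Real.exp (-s))) ∂μ :=
          integral_mono hI1 hI2 fun ω => hpt _
      _ = (∫ ω, Real.exp (-s * cn b x0 g h η R M (cf ξ ω)) ∂μ) * (1 - δ * (1 - Real.exp (-s))) := integral_mul_const _ _
      _ ≤ (1 - δ * (1 - Real.exp (-s))) ^ M * (1 - δ * (1 - Real.exp (-s))) :=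
          mul_le_mul_of_nonneg_right hIH hq0
      _ = _ := (pow_succ _ _).symm

lemma prod_le_prod_inj {a : ℕ → ℝ} {t M : ℕ} {φ : ℕ → ℕ} (h0 : ∀ j, 0 ≤ a j) (h1 : ∀ j, a j ≤ 1)
    (hφ : ∀ i < M, φ i < t) (hinj : ∀ i < M, ∀ j < M, φ i = φ j → i = j) :
    ∏ j ∈ range t, a j ≤ ∏ i ∈ range M, a (φ i) := by
  classical
  have h2 : ∏ i ∈ range M, a (φ i) = ∏ j ∈ (range M).image φ, a j := by
    rw [prod_image]
    intro i hi j hj hij
    exact hinj i (mem_range.1 hi) j (mem_range.1 hj) hij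
  have h3 : (range M).image φ ⊆ range t := by
    intro j hj
    obtain ⟨i, hi, rfl⟩ := mem_image.1 hj
    exact mem_range.2 (hφ i (mem_range.1 hi))
  rw [h2, ← prod_sdiff h3]
  have h4 : ∏ j ∈ range t \ (range M).image φ, a j ≤ 1 := prod_le_one (fun j _ => h0 j) fun j _ => h1 j
  have h5 : 0 ≤ ∏ j ∈ (range M).image φ, a j := prod_nonneg fun j _ => h0 j
  nlinarith

theorem pair_le [IsProbabilityMeasure μ] (hm : ∀ k, Measurable (ξ k)) (hi : iIndepFun ξ μ)
    {b : ℕ} {x0 A B G : ℝ} {f g : ℝ → ℝ} (D : Dat b x0 A B G f g) {h h' H η : ℝ} (hη : 0 < η)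
    (hH : |h| ≤ H) (hH' : |h'| ≤ H) {R : ℕ} (hR : 1 ≤ R)
    (hAR : |h| * (A * bi b ^ R) ≤ η)
    {δ : ℝ} (hδ : 0 ≤ δ) (n m K t s M : ℕ) (h1 : n + s ≤ K) (h2 : m + s ≤ 2 * K) (hKm : m ≤ K + t)
    (hM1 : M * R ≤ K) (hM2 : M * R + K ≤ m)
    (hp : ∀ k < K + t, δ ≤ pr μ ξ k ∧ pr μ ξ k ≤ 1 - δ) :
    ‖∫ ω, PP b x0 f h (K + t) m (cf ξ ω) * star (PP b x0 f h' (K + t) n (cf ξ ω)) ∂μ‖ ≤
      2 * Real.pi * (H * (A + G)) * bi b ^ s +
        ∫ ω, Real.exp (-(4 * η ^ 2 * δ) * cn b x0 g h η R M (cf ξ ω)) ∂μ := by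
  have hβ0 := bi_pos D.hb
  have hβ1 := bi_le D.hb
  have hb0 : (0 : ℝ) ≤ b := Nat.cast_nonneg _
  obtain ⟨Y, hY⟩ : ∃ Y : Cfg → ℝ, Y = XX (bi b) x0 K := ⟨_, rfl⟩
  have hYl : Loc K Y := by rw [hY]; exact XX_loc x0 K
  have hYm : ∀ x, Y x ∈ Set.Icc x0 (x0 + 1) := fun x => by rw [hY]; exact XX_mem hβ0.le hβ1 x0 x K
  obtain ⟨Q, hQ⟩ : ∃ Q : Cfg → ℂ, Q = fun x => ee (h * ((b : ℝ) ^ m * f (Y x))) * star (ee (h' * ((b : ℝ) ^ n * f (Y x)))) := ⟨_, rfl⟩
  have hQl : Loc K Q := by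
    intro x y hxy
    rw [hQ]; simp only
    rw [hYl x y hxy]
  have hQn : ∀ x, ‖Q x‖ = 1 := by
    intro x
    rw [hQ]; simp only
    rw [norm_mul, norm_star, ee_norm, ee_norm, mul_one]
  obtain ⟨θ, hθ⟩ : ∃ θ : ℕ → Cfg → ℂ, θ = fun j x => ee (h * ((b : ℝ) ^ m * (g (Y x) * bi b ^ (K + j + 1)))) := ⟨_, rfl⟩
  have hθl : ∀ j, Loc K (θ j) := by
    intro j x y hxy
    rw [hθ]; simp only
    rw [hYl x y hxy]
  have hθn : ∀ j x, ‖θ j x‖ = 1 := by
    intro j x
    rw [hθ]; exact ee_norm _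
  have hpeel := peel_prod hm hi (μ := μ) K θ hθl t Q hQl
  -- pointwise comparison
  have hH0 : 0 ≤ H := (abs_nonneg h).trans hH
  have hpt : ∀ x, ‖PP b x0 f h (K + t) m x * star (PP b x0 f h' (K + t) n x) -
      Q x * ∏ j ∈ range t, (if x (K + j) = true then θ j x else 1)‖ ≤ 2 * Real.pi * (H * (A + G)) * bi b ^ s := by
    intro x
    obtain ⟨Z, hZ⟩ : ∃ Z, Z = ∑ j ∈ range t, dg (bi b) x (K + j) := ⟨_, rfl⟩
    have hXT : XX (bi b) x0 (K + t) x = Y x + Z := by rw [hY, hZ, XX_add]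
    have hZ0 : 0 ≤ Z := by rw [hZ]; exact sum_nonneg fun j _ => dg_nonneg hβ0.le _ _
    have hZ1 : Z ≤ bi b ^ K := by rw [hZ]; exact sum_dg_le hβ0.le hβ1 x K t
    have hTm : Y x + Z ∈ Set.Icc x0 (x0 + 1) := by rw [← hXT]; exact XX_mem hβ0.le hβ1 x0 x _
    have e1 : ∏ j ∈ range t, (if x (K + j) = true then θ j x else 1) = ee (h * ((b : ℝ) ^ m * (g (Y x) * Z))) := by
      have : h * ((b : ℝ) ^ m * (g (Y x) * Z)) = ∑ j ∈ range t, h * ((b : ℝ) ^ m * (g (Y x) * dg (bi b) x (K + j))) := by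
        rw [hZ, mul_sum, mul_sum, mul_sum]
      rw [this, ee_sum]
      refine prod_congr rfl fun j _ => ?_
      unfold dg
      split_ifs with h3
      · rw [hθ]
      · simp [ee_zero]
    rw [e1, hQ]
    simp only
    have e2 : PP b x0 f h (K + t) m x = ee (h * ((b : ℝ) ^ m * f (Y x + Z))) := by unfold PP; rw [hXT]
    have e3 : PP b x0 f h' (K + t) n x = ee (h' * ((b : ℝ) ^ n * f (Y x + Z))) := by unfold PP; rw [hXT]
    rw [e2, e3]
    have e4 : ee (h * ((b : ℝ) ^ m * f (Y x))) * star (ee (h' * ((b : ℝ) ^ n * f (Y x)))) * ee (h * ((b : ℝ) ^ m * (g (Y x) * Z))) =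
        ee (h * ((b : ℝ) ^ m * f (Y x)) + h * ((b : ℝ) ^ m * (g (Y x) * Z))) * star (ee (h' * ((b : ℝ) ^ n * f (Y x)))) := by
      rw [ee_add]; ring
    rw [e4]
    have e5 : ee (h * ((b : ℝ) ^ m * f (Y x + Z))) * star (ee (h' * ((b : ℝ) ^ n * f (Y x + Z)))) -
        ee (h * ((b : ℝ) ^ m * f (Y x)) + h * ((b : ℝ) ^ m * (g (Y x) * Z))) * star (ee (h' * ((b : ℝ) ^ n * f (Y x)))) =
        (ee (h * ((b : ℝ) ^ m * f (Y x + Z))) - ee (h * ((b : ℝ) ^ m * f (Y x)) + h * ((b : ℝ) ^ m * (g (Y x) * Z)))) * star (ee (h' * ((b : ℝ) ^ n * f (Y x + Z)))) +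
        ee (h * ((b : ℝ) ^ m * f (Y x)) + h * ((b : ℝ) ^ m * (g (Y x) * Z))) * star (ee (h' * ((b : ℝ) ^ n * f (Y x + Z))) - ee (h' * ((b : ℝ) ^ n * f (Y x)))) := by
      rw [star_sub]; ring
    rw [e5]
    refine (norm_add_le _ _).trans ?_
    rw [norm_mul, norm_mul, norm_star, norm_star, ee_norm, ee_norm, mul_one, one_mul]
    have h5 := ee_lip (h * ((b : ℝ) ^ m * f (Y x + Z))) (h * ((b : ℝ) ^ m * f (Y x)) + h * ((b : ℝ) ^ m * (g (Y x) * Z)))
    have h6 := ee_lip (h' * ((b : ℝ) ^ n * f (Y x + Z))) (h' * ((b : ℝ) ^ n * f (Y x)))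
    have h7 : |h * ((b : ℝ) ^ m * f (Y x + Z)) - (h * ((b : ℝ) ^ m * f (Y x)) + h * ((b : ℝ) ^ m * (g (Y x) * Z)))| ≤ H * A * bi b ^ s := by
      have e7 : h * ((b : ℝ) ^ m * f (Y x + Z)) - (h * ((b : ℝ) ^ m * f (Y x)) + h * ((b : ℝ) ^ m * (g (Y x) * Z))) =
          h * (b : ℝ) ^ m * (f (Y x + Z) - f (Y x) - g (Y x) * (Y x + Z - Y x)) := by ring
      rw [e7, abs_mul, abs_mul, abs_of_nonneg (by positivity : (0 : ℝ) ≤ (b : ℝ) ^ m)]
      have h8 := D.tay _ (hYm x) _ hTm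
      have h9 : A * (Y x + Z - Y x) ^ 2 ≤ A * (bi b ^ (2 * K)) := by
        have e9 : bi b ^ (2 * K) = (bi b ^ K) ^ 2 := by rw [← pow_mul, mul_comm]
        rw [e9, add_sub_cancel_left]
        refine mul_le_mul_of_nonneg_left ?_ D.A0.le
        exact pow_le_pow_left₀ hZ0 hZ1 2
      have h10 := pow_bi_le D.hb (m := m) (s := s) (K := 2 * K) h2
      calc |h| * (b : ℝ) ^ m * |f (Y x + Z) - f (Y x) - g (Y x) * (Y x + Z - Y x)|
          ≤ |h| * (b : ℝ) ^ m * (A * bi b ^ (2 * K)) := mul_le_mul_of_nonneg_left (h8.trans h9) (by positivity)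
        _ = |h| * (A * ((b : ℝ) ^ m * bi b ^ (2 * K))) := by ring
        _ ≤ H * (A * bi b ^ s) := mul_le_mul hH (mul_le_mul_of_nonneg_left h10 D.A0.le) (by have := D.A0; positivity) hH0
        _ = H * A * bi b ^ s := by ring
    have h8 : |h' * ((b : ℝ) ^ n * f (Y x + Z)) - h' * ((b : ℝ) ^ n * f (Y x))| ≤ H * G * bi b ^ s := by
      have e7 : h' * ((b : ℝ) ^ n * f (Y x + Z)) - h' * ((b : ℝ) ^ n * f (Y x)) = h' * (b : ℝ) ^ n * (f (Y x + Z) - f (Y x)) := by ring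
      rw [e7, abs_mul, abs_mul, abs_of_nonneg (by positivity : (0 : ℝ) ≤ (b : ℝ) ^ n)]
      have h9 := D.lip _ (hYm x) _ hTm
      have h11 : G * |Y x + Z - Y x| ≤ G * bi b ^ K := by
        rw [add_sub_cancel_left, abs_of_nonneg hZ0]
        exact mul_le_mul_of_nonneg_left hZ1 D.G0
      have h10 := pow_bi_le D.hb (m := n) (s := s) (K := K) h1
      calc |h'| * (b : ℝ) ^ n * |f (Y x + Z) - f (Y x)|
          ≤ |h'| * (b : ℝ) ^ n * (G * bi b ^ K) := mul_le_mul_of_nonneg_left (h9.trans h11) (by positivity)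
        _ = |h'| * (G * ((b : ℝ) ^ n * bi b ^ K)) := by ring
        _ ≤ H * (G * bi b ^ s) := mul_le_mul hH' (mul_le_mul_of_nonneg_left h10 D.G0) (by have := D.G0; positivity) hH0
        _ = H * G * bi b ^ s := by ring
    have hpi := Real.pi_pos
    calc _ ≤ 2 * Real.pi * (H * A * bi b ^ s) + 2 * Real.pi * (H * G * bi b ^ s) :=
          add_le_add (h5.trans (mul_le_mul_of_nonneg_left h7 (by positivity))) (h6.trans (mul_le_mul_of_nonneg_left h8 (by positivity)))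
      _ = _ := by ring
  -- integrability
  have hl1 : Loc (K + t) fun x => PP b x0 f h (K + t) m x * star (PP b x0 f h' (K + t) n x) := by
    intro x y hxy
    simp only
    rw [PP_loc b x0 f h (K + t) m x y hxy, PP_loc b x0 f h' (K + t) n x y hxy]
  have hl2 : Loc (K + t) fun x => Q x * ∏ j ∈ range t, (if x (K + j) = true then θ j x else 1) := by
    intro x y hxy
    simp only
    rw [hQl x y fun k hk => hxy k (by omega)]
    congr 1
    refine prod_congr rfl fun j hj => ?_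
    rw [mem_range] at hj
    rw [hxy (K + j) (by omega), hθl j x y fun k hk => hxy k (by omega)]
  have hI1 := int_loc (μ := μ) hl1 hm
  have hI2 := int_loc (μ := μ) hl2 hm
  have hdiff : ‖∫ ω, (PP b x0 f h (K + t) m (cf ξ ω) * star (PP b x0 f h' (K + t) n (cf ξ ω)) -
      Q (cf ξ ω) * ∏ j ∈ range t, (if cf ξ ω (K + j) = true then θ j (cf ξ ω) else 1)) ∂μ‖ ≤ 2 * Real.pi * (H * (A + G)) * bi b ^ s := by
    have := norm_integral_le_of_norm_le_const (μ := μ) (Eventually.of_forall fun ω => hpt (cf ξ ω))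
    simpa using this
  rw [integral_sub hI1 hI2, hpeel] at hdiff
  have hmain : ‖∫ ω, Q (cf ξ ω) * ∏ j ∈ range t,
        (((1 - pr μ ξ (K + j) : ℝ) : ℂ) + (pr μ ξ (K + j) : ℂ) * θ j (cf ξ ω)) ∂μ‖ ≤
        ∫ ω, Real.exp (-(4 * η ^ 2 * δ) * cn b x0 g h η R M (cf ξ ω)) ∂μ := by
    have hlc : Loc (M * R) fun x : Cfg => Real.exp (-(4 * η ^ 2 * δ) * cn b x0 g h η R M x) := by
      intro x y hxy
      simp only
      rw [cn_loc b x0 g h η R M x y hxy]
    refine norm_integral_le_of_norm_le (int_loc hlc hm) (Eventually.of_forall fun ω => ?_)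
    obtain ⟨x, hx⟩ : ∃ x, x = cf ξ ω := ⟨_, rfl⟩
    rw [← hx, norm_mul, hQn, one_mul, norm_prod]
    have hφ : ∀ i < M, m - 1 - i * R - K < t := by
      intro i hiM
      have : (i + 1) * R ≤ M * R := Nat.mul_le_mul_right _ hiM
      have e : (i + 1) * R = i * R + R := by ring
      omega
    have hinj : ∀ i < M, ∀ j < M, m - 1 - i * R - K = m - 1 - j * R - K → i = j := by
      intro i hiM j hjM hij
      have h3 : (i + 1) * R ≤ M * R := Nat.mul_le_mul_right _ hiM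
      have e3 : (i + 1) * R = i * R + R := by ring
      have h4 : (j + 1) * R ≤ M * R := Nat.mul_le_mul_right _ hjM
      have e4 : (j + 1) * R = j * R + R := by ring
      have h5 : i * R = j * R := by omega
      exact Nat.eq_of_mul_eq_mul_right hR h5
    calc ∏ j ∈ range t, ‖((1 - pr μ ξ (K + j) : ℝ) : ℂ) + (pr μ ξ (K + j) : ℂ) * θ j x‖
        ≤ ∏ i ∈ range M, ‖((1 - pr μ ξ (K + (m - 1 - i * R - K)) : ℝ) : ℂ) + (pr μ ξ (K + (m - 1 - i * R - K)) : ℂ) * θ (m - 1 - i * R - K) x‖ :=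
          prod_le_prod_inj (a := fun j => ‖((1 - pr μ ξ (K + j) : ℝ) : ℂ) + (pr μ ξ (K + j) : ℂ) * θ j x‖)
            (fun j => norm_nonneg _) (fun j => norm_mix (hθn _ _) (pr_nonneg _ _ _) (pr_le_one _ _)) hφ hinj
      _ ≤ ∏ i ∈ range M, Real.exp (-(4 * η ^ 2 * δ) * In b x0 g h η R i x) := by
          refine prod_le_prod (fun j _ => norm_nonneg _) fun i hiM => ?_
          rw [mem_range] at hiM
          have h3 : (i + 1) * R ≤ M * R := Nat.mul_le_mul_right _ hiM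
          have e3 : (i + 1) * R = i * R + R := by ring
          unfold In
          split_ifs with hfar
          · rw [mul_one]
            have h4 := hp (K + (m - 1 - i * R - K)) (by have := hφ i hiM; omega)
            refine norm_mix_gap (hθn _ _) (κ := 4 * η ^ 2) (by positivity) ?_ hδ h4.1 h4.2 
            rw [hθ]
            refine ee_re hη.le ?_
            have e5 : (b : ℝ) ^ m * (g (Y x) * bi b ^ (K + (m - 1 - i * R - K) + 1)) = (b : ℝ) ^ (i * R) * g (Y x) := by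
              have e6 : K + (m - 1 - i * R - K) + 1 = m - i * R := by omega
              have e7 : (b : ℝ) ^ m = (b : ℝ) ^ (i * R) * (b : ℝ) ^ (m - i * R) := by
                rw [← pow_add]; congr 1; omega
              rw [e6, e7]
              calc (b : ℝ) ^ (i * R) * (b : ℝ) ^ (m - i * R) * (g (Y x) * bi b ^ (m - i * R))
                  = (b : ℝ) ^ (i * R) * g (Y x) * ((b : ℝ) ^ (m - i * R) * bi b ^ (m - i * R)) := by ring
                _ = _ := by rw [pow_bi D.hb, mul_one]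
            rw [e5]
            refine hfar.near ?_
            have e8 : h * ((b : ℝ) ^ (i * R) * g (Y x)) - h * ((b : ℝ) ^ (i * R) * g (XX (bi b) x0 (i * R + R) x)) =
                h * (b : ℝ) ^ (i * R) * (g (Y x) - g (XX (bi b) x0 (i * R + R) x)) := by ring
            rw [e8, abs_mul, abs_mul, abs_of_nonneg (by positivity : (0 : ℝ) ≤ (b : ℝ) ^ (i * R))]
            have h9 := D.gup _ (XX_mem hβ0.le hβ1 x0 x (i * R + R)) _ (hYm x)
            have h10 : |Y x - XX (bi b) x0 (i * R + R) x| ≤ bi b ^ (i * R + R) := by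
              have h11 := XX_diff hβ0.le hβ1 x0 x (K := i * R + R) (L := K) (by omega)
              rw [← hY] at h11
              rw [abs_of_nonneg h11.1]
              exact h11.2
            calc |h| * (b : ℝ) ^ (i * R) * |g (Y x) - g (XX (bi b) x0 (i * R + R) x)|
                ≤ |h| * (b : ℝ) ^ (i * R) * (A * bi b ^ (i * R + R)) :=
                  mul_le_mul_of_nonneg_left (h9.trans (mul_le_mul_of_nonneg_left h10 D.A0.le)) (by positivity)
              _ = |h| * (A * ((b : ℝ) ^ (i * R) * bi b ^ (i * R + R))) := by ring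
              _ = |h| * (A * bi b ^ R) := by rw [pow_bi_add D.hb]
              _ ≤ η := hAR
          · rw [mul_zero, Real.exp_zero]
            exact norm_mix (hθn _ _) (pr_nonneg _ _ _) (pr_le_one _ _)
      _ = Real.exp (-(4 * η ^ 2 * δ) * cn b x0 g h η R M x) := by
          rw [← Real.exp_sum, ← mul_sum]
          rfl
  have h12 : ∀ a c : ℂ, ‖a‖ ≤ ‖a - c‖ + ‖c‖ := fun a c => by
    have := norm_add_le (a - c) c
    rwa [sub_add_cancel] at this
  exact (h12 _ _).trans (add_le_add hdiff hmain)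

end

end Pool.Agent.Run7.h17.Dig
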