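import Pool.Agent.Run7.h17.Dig2

/-!
# Smooth functions of numbers with random sparse digits: second moments
-/

set_option autoImplicit false

namespace Pool.Agent.Run7.h17.Dig

open MeasureTheory ProbabilityTheory Finset Filter Topology
open Pool.Agent.Run7.h17.Sparse

section
variable {Ω : Type*} [MeasurableSpace Ω] {μ : Measure Ω} {ξ : ℕ → Ω → Bool}

theorem second_moment' [IsProbabilityMeasure μ] (hm : ∀ k, Measurable (ξ k)) {T : ℕ} {Ψ : ℕ → Cfg → ℂ}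
    (hl : ∀ n, Loc T (Ψ n)) (hn : ∀ n x, ‖Ψ n x‖ = 1) (I W : ℕ) {ε : ℝ} (hε : 0 ≤ ε)
    (hpair : ∀ i j, j + W ≤ i → i < I → ‖∫ ω, Ψ i (cf ξ ω) * star (Ψ j (cf ξ ω)) ∂μ‖ ≤ ε) :
    ∫ ω, ‖∑ i ∈ range I, Ψ i (cf ξ ω)‖ ^ 2 ∂μ ≤ 2 * W * I + (I : ℝ) ^ 2 * ε := by
  classical
  have hl2 : ∀ i j, Loc T fun x : Cfg => Ψ i x * star (Ψ j x) := by
    intro i j x y h
    simp only
    rw [hl i x y h, hl j x y h]
  have hI : ∀ i j, Integrable (fun ω => Ψ i (cf ξ ω) * star (Ψ j (cf ξ ω))) μ := fun i j => int_loc (hl2 i j) hm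
  have e1 : ∀ x, ((‖∑ i ∈ range I, Ψ i x‖ ^ 2 : ℝ) : ℂ) = ∑ i ∈ range I, ∑ j ∈ range I, Ψ i x * star (Ψ j x) := by
    intro x
    rw [← sum_mul_sum]
    have h2 : ∑ j ∈ range I, star (Ψ j x) = star (∑ i ∈ range I, Ψ i x) := by
      rw [star_sum]
    rw [h2]
    have h3 := Complex.mul_conj' (∑ i ∈ range I, Ψ i x)
    rw [← Complex.ofReal_pow] at h3
    exact h3.symm
  have e2 : ((∫ ω, ‖∑ i ∈ range I, Ψ i (cf ξ ω)‖ ^ 2 ∂μ : ℝ) : ℂ) =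
      ∑ i ∈ range I, ∑ j ∈ range I, ∫ ω, Ψ i (cf ξ ω) * star (Ψ j (cf ξ ω)) ∂μ := by
    refine Eq.trans (integral_ofReal (𝕜 := ℂ) (μ := μ) (f := fun ω => ‖∑ i ∈ range I, Ψ i (cf ξ ω)‖ ^ 2)).symm ?_
    have : (fun ω => ((‖∑ i ∈ range I, Ψ i (cf ξ ω)‖ ^ 2 : ℝ) : ℂ)) = fun ω =>
        ∑ i ∈ range I, ∑ j ∈ range I, Ψ i (cf ξ ω) * star (Ψ j (cf ξ ω)) := by
      funext ω; exact e1 _
    have h5 : ∫ ω, ((‖∑ i ∈ range I, Ψ i (cf ξ ω)‖ ^ 2 : ℝ) : ℂ) ∂μ =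
        ∫ ω, ∑ i ∈ range I, ∑ j ∈ range I, Ψ i (cf ξ ω) * star (Ψ j (cf ξ ω)) ∂μ := by
      rw [this]
    refine Eq.trans h5 ?_
    rw [integral_finsetSum _ fun i _ => integrable_finsetSum _ fun j _ => hI i j]
    refine sum_congr rfl fun i _ => ?_
    rw [integral_finsetSum _ fun j _ => hI i j]
  have hpb : ∀ i ∈ range I, ∀ j ∈ range I, ‖∫ ω, Ψ i (cf ξ ω) * star (Ψ j (cf ξ ω)) ∂μ‖ ≤
      (if i < j + W ∧ j < i + W then (1 : ℝ) else 0) + ε := by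
    intro i hi j hj
    rw [mem_range] at hi hj
    have hone : ‖∫ ω, Ψ i (cf ξ ω) * star (Ψ j (cf ξ ω)) ∂μ‖ ≤ 1 := by
      have := norm_integral_le_of_norm_le_const (μ := μ) (f := fun ω => Ψ i (cf ξ ω) * star (Ψ j (cf ξ ω)))
        (C := 1) (Eventually.of_forall fun ω => by rw [norm_mul, norm_star, hn, hn, mul_one])
      simpa using this
    by_cases h1 : i < j + W ∧ j < i + W
    · rw [if_pos h1]; linarith
    · rw [if_neg h1, zero_add]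
      by_cases h2 : j + W ≤ i
      · exact hpair i j h2 hi
      · have h3 : i + W ≤ j := by
          by_contra h4
          exact h1 ⟨by omega, by omega⟩
        have h4 := hpair j i h3 hj
        have h5 : ∫ ω, Ψ i (cf ξ ω) * star (Ψ j (cf ξ ω)) ∂μ =
            (starRingEnd ℂ) (∫ ω, Ψ j (cf ξ ω) * star (Ψ i (cf ξ ω)) ∂μ) := by
          rw [← integral_conj]
          congr 1
          funext ω
          rw [map_mul]
          simp only [← starRingEnd_apply, Complex.conj_conj]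
          ring
        rw [h5, RCLike.norm_conj]
        exact h4
  have h6 : ∫ ω, ‖∑ i ∈ range I, Ψ i (cf ξ ω)‖ ^ 2 ∂μ ≤
      ∑ i ∈ range I, ∑ j ∈ range I, ((if i < j + W ∧ j < i + W then (1 : ℝ) else 0) + ε) := by
    calc ∫ ω, ‖∑ i ∈ range I, Ψ i (cf ξ ω)‖ ^ 2 ∂μ ≤ ‖((∫ ω, ‖∑ i ∈ range I, Ψ i (cf ξ ω)‖ ^ 2 ∂μ : ℝ) : ℂ)‖ := by
          rw [Complex.norm_real]; exact le_abs_self _
      _ ≤ ∑ i ∈ range I, ∑ j ∈ range I, ‖∫ ω, Ψ i (cf ξ ω) * star (Ψ j (cf ξ ω)) ∂μ‖ := by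
          rw [e2]
          exact (norm_sum_le _ _).trans (sum_le_sum fun i _ => norm_sum_le _ _)
      _ ≤ _ := sum_le_sum fun i hi => sum_le_sum fun j hj => hpb i hi j hj
  refine h6.trans ?_
  have h7 : ∀ i ∈ range I, ∑ j ∈ range I, ((if i < j + W ∧ j < i + W then (1 : ℝ) else 0) + ε) ≤ 2 * W + I * ε := by
    intro i _
    rw [sum_add_distrib, sum_const, card_range, nsmul_eq_mul]
    have h8 : ∑ j ∈ range I, (if i < j + W ∧ j < i + W then (1 : ℝ) else 0) ≤ 2 * W := by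
      rw [← sum_filter, sum_const, nsmul_eq_mul, mul_one]
      have h9 : ((range I).filter fun j => i < j + W ∧ j < i + W) ⊆ Ico (i - W) (i + W) := by
        intro j hj
        rw [mem_filter] at hj
        rw [mem_Ico]
        omega
      have h10 := card_le_card h9
      rw [Nat.card_Ico] at h10
      exact_mod_cast (by omega : ((range I).filter fun j => i < j + W ∧ j < i + W).card ≤ 2 * W)
    linarith
  calc ∑ i ∈ range I, ∑ j ∈ range I, ((if i < j + W ∧ j < i + W then (1 : ℝ) else 0) + ε)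
      ≤ ∑ _i ∈ range I, (2 * W + I * ε) := sum_le_sum h7
    _ = _ := by
      rw [sum_const, card_range, nsmul_eq_mul]; ring

/-- second moment for the truncated process, with explicit parameters -/
theorem trunc_moment [IsProbabilityMeasure μ] (hm : ∀ k, Measurable (ξ k)) (hi : iIndepFun ξ μ)
    {b : ℕ} {x0 A B G : ℝ} {f g : ℝ → ℝ} (D : Dat b x0 A B G f g) {H0 H1 η : ℝ} (hη : 0 < η) (hη1 : η ≤ 1 / 8)
    {ρ : ℕ → ℝ} (hρ : ∀ n, H0 ≤ |ρ n| ∧ |ρ n| ≤ H1) {e : ℕ → ℕ} {L : ℕ} (he : ∀ i j W, j + L * W ≤ i → e j + W ≤ e i)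
    {R r : ℕ} (hr : 1 ≤ r) (hrR : r ≤ R)
    (h4 : 4 * η ≤ H0 * (B * bi b ^ r)) (hA : H1 * (A * bi b ^ r) ≤ 1 / 2) (hAR : H1 * (A * bi b ^ R) ≤ η)
    {δ : ℝ} (hδ : 0 ≤ δ) (hδ1 : δ ≤ 1) (I M T : ℕ) (hT : ∀ i < I, e i ≤ T)
    (hp : ∀ k < T, δ ≤ pr μ ξ k ∧ pr μ ξ k ≤ 1 - δ) :
    ∫ ω, ‖∑ n ∈ range I, PP b x0 f (ρ n) T (e n) (cf ξ ω)‖ ^ 2 ∂μ ≤
      2 * ((L * (2 * (M * R + M) + 2) : ℕ) : ℝ) * I + (I : ℝ) ^ 2 *
        (2 * Real.pi * (H1 * (A + G)) * bi b ^ M + Real.exp (-(2 * η ^ 2 * δ ^ 2 * M))) := by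
  have hβ0 := bi_pos D.hb
  have hA0 := D.A0
  have hG0 := D.G0
  have hB0 := D.B0
  have hpi := Real.pi_pos
  have hH1 : 0 ≤ H1 := (abs_nonneg _).trans (hρ 0).2
  refine second_moment' hm (Ψ := fun n => PP b x0 f (ρ n) T (e n)) (fun n => PP_loc b x0 f _ T _) (fun n x => ee_norm _) I _
    (by positivity) fun i j hji hiI => ?_
  have hnm := he i j _ hji
  obtain ⟨m, hmm⟩ : ∃ m, m = e i := ⟨_, rfl⟩
  obtain ⟨n, hnn⟩ : ∃ n, n = e j := ⟨_, rfl⟩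
  rw [← hmm, ← hnn] at hnm ⊢
  have hmT : m ≤ T := by rw [hmm]; exact hT i hiI
  obtain ⟨K, hK⟩ : ∃ K, K = max n (m / 2) + M + 1 := ⟨_, rfl⟩
  have hKI : K ≤ T := by omega
  obtain ⟨t, ht⟩ := Nat.exists_eq_add_of_le hKI
  have hR : 1 ≤ R := hr.trans hrR
  have hAβ : ∀ s : ℕ, 0 ≤ A * bi b ^ s := fun s => by positivity
  have hBβ : 0 ≤ B * bi b ^ r := by positivity
  have hAR' : |ρ i| * (A * bi b ^ R) ≤ η := (mul_le_mul_of_nonneg_right (hρ i).2 (hAβ R)).trans hAR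
  have hA' : |ρ i| * (A * bi b ^ r) ≤ 1 / 2 := (mul_le_mul_of_nonneg_right (hρ i).2 (hAβ r)).trans hA
  have h4' : 4 * η ≤ |ρ i| * (B * bi b ^ r) := h4.trans (mul_le_mul_of_nonneg_right (hρ i).1 hBβ)
  have h1 := pair_le (μ := μ) hm hi D hη (hρ i).2 (hρ j).2 hR hAR' hδ n m K t M M (by omega) (by omega) (by omega) (by omega) (by omega)
    (fun k hk => hp k (by omega))
  rw [← ht] at h1
  have hs0 : 0 ≤ 4 * η ^ 2 * δ := by positivity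
  have h2 := expm_le (μ := μ) hm hi D (η := η) hr hrR h4' hA' hs0 hδ hδ1 M (fun k hk => hp k (by omega))
  refine h1.trans (add_le_add le_rfl (h2.trans ?_))
  have hs1 : 4 * η ^ 2 * δ ≤ 1 := by
    have : η ^ 2 ≤ 1 / 64 := by nlinarith
    nlinarith
  have h3 := one_sub_exp hs0 hs1
  have h5 : 1 - δ * (1 - Real.exp (-(4 * η ^ 2 * δ))) ≤ Real.exp (-(2 * η ^ 2 * δ ^ 2)) := by
    have h6 := Real.add_one_le_exp (-(2 * η ^ 2 * δ ^ 2))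
    have h7 : 2 * η ^ 2 * δ ^ 2 ≤ δ * (1 - Real.exp (-(4 * η ^ 2 * δ))) := by
      calc 2 * η ^ 2 * δ ^ 2 = δ * (4 * η ^ 2 * δ / 2) := by ring
        _ ≤ _ := mul_le_mul_of_nonneg_left h3 hδ
    linarith
  have h8 : 0 ≤ 1 - δ * (1 - Real.exp (-(4 * η ^ 2 * δ))) := by
    have h9 := Real.exp_pos (-(4 * η ^ 2 * δ))
    nlinarith
  calc (1 - δ * (1 - Real.exp (-(4 * η ^ 2 * δ)))) ^ M ≤ (Real.exp (-(2 * η ^ 2 * δ ^ 2))) ^ M := pow_le_pow_left₀ h8 h5 M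
    _ = _ := by
      rw [← Real.exp_nat_mul]; congr 1; ring

/-- parameters -/
lemma params {b : ℕ} {x0 A B G : ℝ} {f g : ℝ → ℝ} (D : Dat b x0 A B G f g) {H0 H1 : ℝ} (h0 : 0 < H0) (h1 : 0 < H1) :
    ∃ (η : ℝ) (R r : ℕ), 0 < η ∧ η ≤ 1 / 8 ∧ 1 ≤ r ∧ r ≤ R ∧ 4 * η ≤ H0 * (B * bi b ^ r) ∧ H1 * (A * bi b ^ r) ≤ 1 / 2 ∧
      H1 * (A * bi b ^ R) ≤ η := by
  have hβ0 := bi_pos D.hb
  have hβ1 := bi_le D.hb
  have hA0 := D.A0
  have hB0 := D.B0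
  have hsmall : ∀ c : ℝ, 0 < c → ∃ r : ℕ, ∀ s, r ≤ s → H1 * (A * bi b ^ s) ≤ c := by
    intro c hc
    obtain ⟨r, hr⟩ := exists_pow_lt_of_lt_one (show 0 < c / (H1 * A) by positivity) (by linarith : bi b < 1)
    refine ⟨r, fun s hs => ?_⟩
    have h1 : bi b ^ s ≤ bi b ^ r := pow_le_pow_of_le_one hβ0.le (by linarith) hs
    have h2 : bi b ^ s ≤ c / (H1 * A) := h1.trans hr.le
    rw [le_div_iff₀ (by positivity)] at h2
    linarith [h2, mul_comm (bi b ^ s) (H1 * A), mul_assoc H1 A (bi b ^ s)]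
  obtain ⟨r, hr⟩ := hsmall (1 / 2) (by norm_num)
  obtain ⟨η, hη⟩ : ∃ η : ℝ, η = min (1 / 8) (H0 * (B * bi b ^ (r + 1)) / 4) := ⟨_, rfl⟩
  have hη0 : 0 < η := by
    rw [hη]
    exact lt_min (by norm_num) (by positivity)
  obtain ⟨R, hR⟩ := hsmall η hη0
  refine ⟨η, max R (r + 1), r + 1, hη0, by rw [hη]; exact min_le_left _ _, by omega, le_max_right _ _, ?_, hr _ (by omega), hR _ (le_max_left _ _)⟩
  have : η ≤ H0 * (B * bi b ^ (r + 1)) / 4 := by rw [hη]; exact min_le_right _ _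
  linarith

end

end Pool.Agent.Run7.h17.Dig
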