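import Pool.Agent.Run7.h17.Dig3

/-!
# Smooth functions of numbers with random sparse digits: almost sure bounds for Weyl sums, all bases
-/

set_option autoImplicit false

namespace Pool.Agent.Run7.h17.Dig

open MeasureTheory ProbabilityTheory Finset Filter Topology
open Pool.Agent.Run7.h17.Sparse

/-- the exponent with `b ^ ex b q n ≤ q ^ n < b ^ (ex b q n + 1)` -/
def lx (b q n : ℕ) : ℕ := Nat.log b (q ^ n)

/-- the quotient -/
noncomputable def rx (b q : ℕ) (h : ℝ) (n : ℕ) : ℝ := h * ((q : ℝ) ^ n / (b : ℝ) ^ lx b q n)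

lemma lx_step {b q : ℕ} (hb : 2 ≤ b) (hq : 2 ≤ q) (i j W : ℕ) (h : j + b * W ≤ i) : lx b q j + W ≤ lx b q i := by
  unfold lx
  refine Nat.le_log_of_pow_le (by omega) ?_
  have h1 : b ^ Nat.log b (q ^ j) ≤ q ^ j := Nat.pow_log_le_self b (by positivity)
  have h2 : b ≤ q ^ b := (Nat.lt_two_pow_self.le).trans (Nat.pow_le_pow_left hq b)
  calc b ^ (Nat.log b (q ^ j) + W) = b ^ Nat.log b (q ^ j) * b ^ W := pow_add _ _ _
    _ ≤ q ^ j * (q ^ b) ^ W := Nat.mul_le_mul h1 (Nat.pow_le_pow_left h2 W)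
    _ = q ^ (j + b * W) := by rw [← pow_mul, ← pow_add]
    _ ≤ q ^ i := Nat.pow_le_pow_right (by omega) h

lemma lx_le {b q : ℕ} (hb : 2 ≤ b) (hq : 2 ≤ q) (n : ℕ) : lx b q n ≤ q * n := by
  unfold lx
  have h1 : b ^ Nat.log b (q ^ n) ≤ q ^ n := Nat.pow_log_le_self b (by positivity)
  have h2 : 2 ^ Nat.log b (q ^ n) ≤ b ^ Nat.log b (q ^ n) := Nat.pow_le_pow_left hb _
  have h3 : q ^ n ≤ (2 ^ q) ^ n := Nat.pow_le_pow_left Nat.lt_two_pow_self.le n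
  rw [← pow_mul] at h3
  exact (Nat.pow_le_pow_iff_right (by norm_num)).1 (h2.trans (h1.trans h3))

lemma rx_bound {b q : ℕ} (hb : 2 ≤ b) (hq : 2 ≤ q) (h : ℝ) (n : ℕ) :
    |h| ≤ |rx b q h n| ∧ |rx b q h n| ≤ |h| * b := by
  unfold rx lx
  have hb0 : (0 : ℝ) < (b : ℝ) ^ Nat.log b (q ^ n) := by
    have : (2 : ℝ) ≤ b := by exact_mod_cast hb
    positivity
  have h1 : (b : ℝ) ^ Nat.log b (q ^ n) ≤ (q : ℝ) ^ n := by
    exact_mod_cast Nat.pow_log_le_self b (by positivity : q ^ n ≠ 0)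
  have h2 : (q : ℝ) ^ n ≤ (b : ℝ) * (b : ℝ) ^ Nat.log b (q ^ n) := by
    have h3 := (Nat.lt_pow_succ_log_self (by omega : 1 < b) (q ^ n)).le
    rw [pow_succ, mul_comm] at h3
    exact_mod_cast h3
  have h3 : 1 ≤ (q : ℝ) ^ n / (b : ℝ) ^ Nat.log b (q ^ n) := by
    rw [le_div_iff₀ hb0, one_mul]; exact h1
  have h4 : (q : ℝ) ^ n / (b : ℝ) ^ Nat.log b (q ^ n) ≤ b := by
    rw [div_le_iff₀ hb0]; exact h2
  rw [abs_mul, abs_of_pos (by linarith : 0 < (q : ℝ) ^ n / (b : ℝ) ^ Nat.log b (q ^ n))]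
  have hh := abs_nonneg h
  constructor
  · nlinarith
  · exact mul_le_mul_of_nonneg_left h4 hh

lemma rx_mul {b q : ℕ} (hb : 2 ≤ b) (h : ℝ) (n : ℕ) (y : ℝ) :
    rx b q h n * ((b : ℝ) ^ lx b q n * y) = h * ((q : ℝ) ^ n * y) := by
  unfold rx
  have hb0 : (b : ℝ) ^ lx b q n ≠ 0 := by
    have : (2 : ℝ) ≤ b := by exact_mod_cast hb
    positivity
  field_simp

section
variable {Ω : Type*} [MeasurableSpace Ω] {μ : Measure Ω} {ξ : ℕ → Ω → Bool}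

theorem moment_bound [IsProbabilityMeasure μ] (hm : ∀ k, Measurable (ξ k)) (hi : iIndepFun ξ μ)
    {b : ℕ} {x0 A B G : ℝ} {f g : ℝ → ℝ} (D : Dat b x0 A B G f g) {q : ℕ} (hq : 2 ≤ q) {h : ℝ} (hh : h ≠ 0)
    {a c : ℝ} (ha : 0 < a) (hc0 : 0 ≤ c) (hc : c < 1 / 2)
    (hp : ∀ k : ℕ, a * ((k : ℝ) + 1) ^ (-c) ≤ pr μ ξ k ∧ pr μ ξ k ≤ 1 - a * ((k : ℝ) + 1) ^ (-c)) :
    ∃ C : ℝ, 0 < C ∧ ∀ I : ℕ, 1 ≤ I →
      ∫ ω, ‖∑ n ∈ range I, PP b x0 f (rx b q h n) ((q + 1) * I) (lx b q n) (cf ξ ω)‖ ^ 2 ∂μ ≤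
        C * (I : ℝ) ^ (1 + (1 + 2 * c) / 2) := by
  have hhp : 0 < |h| := abs_pos.2 hh
  have hb2 : (2 : ℝ) ≤ b := by exact_mod_cast D.hb
  obtain ⟨H1, hH1⟩ : ∃ H1, H1 = |h| * (b : ℝ) := ⟨_, rfl⟩
  have hH10 : 0 < H1 := by rw [hH1]; positivity
  obtain ⟨η, R, r, hη, hη1, hr, hrR, h4, hA, hAR⟩ := params D hhp hH10
  have hβ0 := bi_pos D.hb
  have hβ1 := bi_le D.hb
  have hA0 := D.A0
  have hG0 := D.G0
  have hpi := Real.pi_pos
  have ha1 : a ≤ 1 := by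
    have h1 := (hp 0).1
    simp only [Nat.cast_zero, zero_add, Real.one_rpow, mul_one] at h1
    exact h1.trans (pr_le_one ξ 0)
  obtain ⟨τ, hτ⟩ : ∃ τ : ℝ, τ = (1 + 2 * c) / 2 := ⟨_, rfl⟩
  have hτ0 : 0 < τ := by rw [hτ]; linarith
  rw [← hτ]
  obtain ⟨q1, hq1⟩ : ∃ q1 : ℝ, q1 = (q : ℝ) + 1 := ⟨_, rfl⟩
  have hq10 : 1 ≤ q1 := by rw [hq1]; have := Nat.cast_nonneg (α := ℝ) q; linarith
  have hq1p : 0 < q1 := by linarith
  obtain ⟨C1, hC1, hs1⟩ := exp_small (q := Real.log 2) (γ := τ) (Real.log_pos (by norm_num)) hτ0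
  obtain ⟨C2, hC2, hs2⟩ := exp_small (q := 2 * η ^ 2 * a ^ 2 * q1 ^ (-(2 * c))) (γ := τ - 2 * c) (by positivity)
    (by rw [hτ]; linarith)
  refine ⟨(8 * R + 12) * b + (2 * Real.pi * (H1 * (A + G)) * C1 + C2), by positivity, fun I hI => ?_⟩
  have hI0 : (0 : ℝ) < I := by exact_mod_cast hI
  have hI1 : (1 : ℝ) ≤ I := by exact_mod_cast hI
  obtain ⟨δ, hδ⟩ : ∃ δ : ℝ, δ = a * (q1 * (I : ℝ)) ^ (-c) := ⟨_, rfl⟩
  have hδ0 : 0 ≤ δ := by rw [hδ]; positivity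
  have hδ1 : δ ≤ 1 := by
    rw [hδ]
    have : (q1 * (I : ℝ)) ^ (-c) ≤ 1 := Real.rpow_le_one_of_one_le_of_nonpos (by nlinarith) (by linarith)
    nlinarith
  obtain ⟨M, hM⟩ : ∃ M : ℕ, M = ⌈(I : ℝ) ^ τ⌉₊ := ⟨_, rfl⟩
  have hM1 : (I : ℝ) ^ τ ≤ M := by rw [hM]; exact Nat.le_ceil _
  have hIt : 1 ≤ (I : ℝ) ^ τ := Real.one_le_rpow hI1 hτ0.le
  have hM2 : (M : ℝ) ≤ 2 * (I : ℝ) ^ τ := by
    have := Nat.ceil_lt_add_one (show 0 ≤ (I : ℝ) ^ τ by linarith)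
    rw [← hM] at this
    linarith
  have hpI : ∀ k < (q + 1) * I, δ ≤ pr μ ξ k ∧ pr μ ξ k ≤ 1 - δ := by
    intro k hk
    have h5 : (q1 * (I : ℝ)) ^ (-c) ≤ ((k : ℝ) + 1) ^ (-c) := by
      refine Real.rpow_le_rpow_of_nonpos (by positivity) ?_ (by linarith)
      rw [hq1]
      exact_mod_cast hk
    have h6 : δ ≤ a * ((k : ℝ) + 1) ^ (-c) := by rw [hδ]; exact mul_le_mul_of_nonneg_left h5 ha.le
    exact ⟨h6.trans (hp k).1, (hp k).2.trans (by linarith)⟩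
  have hmain := trunc_moment (μ := μ) hm hi D (H0 := |h|) (H1 := H1) hη hη1 (ρ := rx b q h) (fun n => by
      rw [hH1]; exact rx_bound D.hb hq h n) (e := lx b q) (L := b) (lx_step D.hb hq) hr hrR h4 hA hAR hδ0 hδ1 I M
      ((q + 1) * I) (fun i hi => by
        have h1 := lx_le D.hb hq i
        have h2 : q * i ≤ q * I := Nat.mul_le_mul_left _ hi.le
        have h3 : (q + 1) * I = q * I + I := by ring
        omega) hpI
  refine hmain.trans ?_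
  have h7 : bi b ^ M ≤ C1 / I := by
    refine le_trans ?_ (hs1 I hI)
    have h8 : bi b ^ M ≤ (1 / 2 : ℝ) ^ M := pow_le_pow_left₀ hβ0.le hβ1 M
    have h9 : (1 / 2 : ℝ) ^ M = Real.exp (-(Real.log 2 * M)) := by
      rw [mul_comm, Real.exp_neg, Real.exp_nat_mul, Real.exp_log (by norm_num), one_div, inv_pow]
    rw [h9] at h8
    refine h8.trans (Real.exp_le_exp.2 ?_)
    have : 0 < Real.log 2 := Real.log_pos (by norm_num)
    nlinarith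
  have h8 : Real.exp (-(2 * η ^ 2 * δ ^ 2 * M)) ≤ C2 / I := by
    refine le_trans (Real.exp_le_exp.2 ?_) (hs2 I hI)
    have h9 : δ ^ 2 = a ^ 2 * (q1 ^ (-(2 * c)) * (I : ℝ) ^ (-(2 * c))) := by
      rw [hδ, mul_pow, ← Real.mul_rpow hq1p.le hI0.le]
      congr 1
      rw [← Real.rpow_natCast, ← Real.rpow_mul (by positivity)]
      congr 1; push_cast; ring
    have h10 : (I : ℝ) ^ (τ - 2 * c) = (I : ℝ) ^ (-(2 * c)) * (I : ℝ) ^ τ := by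
      rw [← Real.rpow_add hI0]; congr 1; ring
    rw [h9, h10]
    have h11 : 2 * η ^ 2 * a ^ 2 * q1 ^ (-(2 * c)) * ((I : ℝ) ^ (-(2 * c)) * (I : ℝ) ^ τ) ≤
        2 * η ^ 2 * (a ^ 2 * (q1 ^ (-(2 * c)) * (I : ℝ) ^ (-(2 * c)))) * M := by
      calc 2 * η ^ 2 * a ^ 2 * q1 ^ (-(2 * c)) * ((I : ℝ) ^ (-(2 * c)) * (I : ℝ) ^ τ)
          = 2 * η ^ 2 * (a ^ 2 * (q1 ^ (-(2 * c)) * (I : ℝ) ^ (-(2 * c)))) * (I : ℝ) ^ τ := by ring
        _ ≤ _ := mul_le_mul_of_nonneg_left hM1 (by positivity)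
    linarith
  have hE : (I : ℝ) ^ (1 + τ) = I * (I : ℝ) ^ τ := by rw [Real.rpow_add hI0, Real.rpow_one]
  have h9 : 2 * ((b * (2 * (M * R + M) + 2) : ℕ) : ℝ) * I ≤ (8 * R + 12) * b * (I : ℝ) ^ (1 + τ) := by
    rw [hE]
    have h10 : ((2 * (M * R + M) + 2 : ℕ) : ℝ) ≤ (4 * R + 6) * (I : ℝ) ^ τ := by
      push_cast
      have hR0 : (0 : ℝ) ≤ R := Nat.cast_nonneg _
      nlinarith [mul_le_mul_of_nonneg_right hM2 hR0]
    have h11 := mul_le_mul_of_nonneg_right h10 (by positivity : (0 : ℝ) ≤ 2 * b * I)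
    have e11 : ((b * (2 * (M * R + M) + 2) : ℕ) : ℝ) = (b : ℝ) * ((2 * (M * R + M) + 2 : ℕ) : ℝ) := by push_cast; ring
    rw [e11]
    calc 2 * ((b : ℝ) * ((2 * (M * R + M) + 2 : ℕ) : ℝ)) * I = ((2 * (M * R + M) + 2 : ℕ) : ℝ) * (2 * b * I) := by ring
      _ ≤ (4 * R + 6) * (I : ℝ) ^ τ * (2 * b * I) := h11
      _ = _ := by ring
  have h10 : (I : ℝ) ^ 2 * (2 * Real.pi * (H1 * (A + G)) * bi b ^ M + Real.exp (-(2 * η ^ 2 * δ ^ 2 * M))) ≤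
      (2 * Real.pi * (H1 * (A + G)) * C1 + C2) * (I : ℝ) ^ (1 + τ) := by
    have h11 : 2 * Real.pi * (H1 * (A + G)) * bi b ^ M ≤ 2 * Real.pi * (H1 * (A + G)) * (C1 / I) :=
      mul_le_mul_of_nonneg_left h7 (by positivity)
    have h12 : (I : ℝ) ^ 2 * (2 * Real.pi * (H1 * (A + G)) * bi b ^ M + Real.exp (-(2 * η ^ 2 * δ ^ 2 * M))) ≤
        (I : ℝ) ^ 2 * (2 * Real.pi * (H1 * (A + G)) * (C1 / I) + C2 / I) :=
      mul_le_mul_of_nonneg_left (add_le_add h11 h8) (by positivity)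
    have h13 : (I : ℝ) ^ 2 * (2 * Real.pi * (H1 * (A + G)) * (C1 / I) + C2 / I) =
        (2 * Real.pi * (H1 * (A + G)) * C1 + C2) * I := by
      field_simp
    rw [h13] at h12
    refine h12.trans (mul_le_mul_of_nonneg_left ?_ (by positivity))
    rw [hE]
    nlinarith
  linarith

/-- the Weyl sums of `h q ^ n f(X)` -/
noncomputable def WS (b q : ℕ) (x0 : ℝ) (f : ℝ → ℝ) (h : ℝ) (I : ℕ) (x : Cfg) : ℂ :=
  ∑ n ∈ range I, ee (h * ((q : ℝ) ^ n * f (XI (bi b) x0 x)))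

theorem weyl_as [IsProbabilityMeasure μ] (hm : ∀ k, Measurable (ξ k)) (hi : iIndepFun ξ μ)
    {b : ℕ} {x0 A B G : ℝ} {f g : ℝ → ℝ} (D : Dat b x0 A B G f g) {q : ℕ} (hq : 2 ≤ q) {h : ℝ} (hh : h ≠ 0)
    {a c : ℝ} (ha : 0 < a) (hc0 : 0 ≤ c) (hc : c < 1 / 2)
    (hp : ∀ k : ℕ, a * ((k : ℝ) + 1) ^ (-c) ≤ pr μ ξ k ∧ pr μ ξ k ≤ 1 - a * ((k : ℝ) + 1) ^ (-c)) :
    ∀ᵐ ω ∂μ, ∃ C' : ℝ, ∀ I : ℕ, 1 ≤ I →
      ‖WS b q x0 f h I (cf ξ ω)‖ ≤ C' * (I : ℝ) ^ (1 - 1 / (bb ((1 + 2 * c) / 2) : ℝ)) := by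
  have hβ0 := bi_pos D.hb
  have hβ1 := bi_le D.hb
  have hG0 := D.G0
  have hpi := Real.pi_pos
  have hb2 : (2 : ℝ) ≤ b := by exact_mod_cast D.hb
  obtain ⟨C, hC, hCb⟩ := moment_bound (μ := μ) hm hi D hq hh ha hc0 hc hp
  -- measurability
  have hF : Measurable fun ω => f (XI (bi b) x0 (cf ξ ω)) := by
    refine measurable_of_tendsto_metrizable (f := fun K ω => f (XX (bi b) x0 K (cf ξ ω))) (fun K => ?_)
      (tendsto_pi_nhds.2 fun ω => ?_)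
    · refine meas_loc (f := fun x => f (XX (bi b) x0 K x)) (N := K) ?_ hm
      intro x y hxy
      simp only
      rw [XX_loc x0 K x y hxy]
    · have h1 : Tendsto (fun K => G * bi b ^ K) atTop (𝓝 0) := by
        have := (tendsto_pow_atTop_nhds_zero_of_lt_one hβ0.le (by linarith : bi b < 1)).const_mul G
        simpa using this
      refine tendsto_iff_norm_sub_tendsto_zero.2 (squeeze_zero (fun _ => norm_nonneg _) (fun K => ?_) h1)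
      have h2 := D.lip _ (XI_mem hβ0.le hβ1 x0 (cf ξ ω)) _ (XX_mem hβ0.le hβ1 x0 (cf ξ ω) K)
      have h3 := XI_diff hβ0.le hβ1 x0 (cf ξ ω) K
      rw [Real.norm_eq_abs]
      refine h2.trans (mul_le_mul_of_nonneg_left ?_ hG0)
      rw [abs_sub_comm, abs_of_nonneg h3.1]
      exact h3.2
  have hX : ∀ I, Measurable fun ω => WS b q x0 f h I (cf ξ ω) := by
    intro I
    unfold WS
    refine Finset.measurable_fun_sum _ fun n _ => ?_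
    unfold ee
    refine Complex.measurable_exp.comp ?_
    refine Measurable.mul_const ?_ _
    exact Complex.measurable_ofReal.comp (((hF.const_mul _).const_mul _).const_mul _)
  have hbd : ∀ I ω, ‖WS b q x0 f h I (cf ξ ω)‖ ≤ I := by
    intro I ω
    unfold WS
    refine (norm_sum_le _ _).trans ?_
    simp [ee_norm]
  have hstep : ∀ I ω, ‖WS b q x0 f h (I + 1) (cf ξ ω) - WS b q x0 f h I (cf ξ ω)‖ ≤ 1 := by
    intro I ω
    unfold WS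
    rw [sum_range_succ, add_sub_cancel_left, ee_norm]
  obtain ⟨c1, hc1⟩ : ∃ c1 : ℝ, c1 = 2 * Real.pi * (|h| * b * G) := ⟨_, rfl⟩
  have hc10 : 0 ≤ c1 := by rw [hc1]; positivity
  have hcmp : ∀ (I : ℕ) (x : Cfg), ‖WS b q x0 f h I x - ∑ n ∈ range I, PP b x0 f (rx b q h n) ((q + 1) * I) (lx b q n) x‖ ≤ c1 := by
    intro I x
    unfold WS
    rw [← sum_sub_distrib]
    have h1 : ∀ n ∈ range I, ‖ee (h * ((q : ℝ) ^ n * f (XI (bi b) x0 x))) - PP b x0 f (rx b q h n) ((q + 1) * I) (lx b q n) x‖ ≤ c1 * bi b ^ I := by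
      intro n hn
      rw [mem_range] at hn
      unfold PP
      rw [← rx_mul (q := q) D.hb h n]
      refine (ee_lip _ _).trans ?_
      have e : rx b q h n * ((b : ℝ) ^ lx b q n * f (XI (bi b) x0 x)) - rx b q h n * ((b : ℝ) ^ lx b q n * f (XX (bi b) x0 ((q + 1) * I) x)) =
          rx b q h n * (b : ℝ) ^ lx b q n * (f (XI (bi b) x0 x) - f (XX (bi b) x0 ((q + 1) * I) x)) := by ring
      rw [e, abs_mul, abs_mul, abs_of_nonneg (by positivity : (0 : ℝ) ≤ (b : ℝ) ^ lx b q n)]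
      have h2 := D.lip _ (XX_mem hβ0.le hβ1 x0 x ((q + 1) * I)) _ (XI_mem hβ0.le hβ1 x0 x)
      have h3 := XI_diff hβ0.le hβ1 x0 x ((q + 1) * I)
      rw [abs_of_nonneg h3.1] at h2
      have h4 := pow_bi_le D.hb (m := lx b q n) (s := I) (K := (q + 1) * I) (by
        have h5 := lx_le D.hb hq n
        have h6 : q * n ≤ q * I := Nat.mul_le_mul_left _ hn.le
        have h7 : (q + 1) * I = q * I + I := by ring
        omega)
      have h5 := (rx_bound D.hb hq h n).2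
      have h6 : |rx b q h n| * (b : ℝ) ^ lx b q n * |f (XI (bi b) x0 x) - f (XX (bi b) x0 ((q + 1) * I) x)| ≤
          |h| * b * (G * bi b ^ I) := by
        calc |rx b q h n| * (b : ℝ) ^ lx b q n * |f (XI (bi b) x0 x) - f (XX (bi b) x0 ((q + 1) * I) x)|
            ≤ |rx b q h n| * (b : ℝ) ^ lx b q n * (G * bi b ^ ((q + 1) * I)) :=
              mul_le_mul_of_nonneg_left (h2.trans (mul_le_mul_of_nonneg_left h3.2 hG0)) (by positivity)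
          _ = |rx b q h n| * (G * ((b : ℝ) ^ lx b q n * bi b ^ ((q + 1) * I))) := by ring
          _ ≤ |h| * b * (G * bi b ^ I) :=
              mul_le_mul h5 (mul_le_mul_of_nonneg_left h4 hG0) (by positivity) (by positivity)
      calc 2 * Real.pi * (|rx b q h n| * (b : ℝ) ^ lx b q n * |f (XI (bi b) x0 x) - f (XX (bi b) x0 ((q + 1) * I) x)|)
          ≤ 2 * Real.pi * (|h| * b * (G * bi b ^ I)) := mul_le_mul_of_nonneg_left h6 (by positivity)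
        _ = c1 * bi b ^ I := by rw [hc1]; ring
    refine (norm_sum_le_of_le _ h1).trans ?_
    rw [sum_const, card_range, nsmul_eq_mul]
    have h5 : (I : ℝ) * bi b ^ I ≤ 1 := by
      have h6 : bi b ^ I ≤ (1 / 2 : ℝ) ^ I := pow_le_pow_left₀ hβ0.le hβ1 I
      have h7 : (I : ℝ) ≤ 2 ^ I := by exact_mod_cast Nat.lt_two_pow_self.le
      calc (I : ℝ) * bi b ^ I ≤ 2 ^ I * (1 / 2 : ℝ) ^ I := by gcongr
        _ = 1 := by rw [← mul_pow]; norm_num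
    calc (I : ℝ) * (c1 * bi b ^ I) = c1 * ((I : ℝ) * bi b ^ I) := by ring
      _ ≤ c1 * 1 := mul_le_mul_of_nonneg_left h5 hc10
      _ = c1 := mul_one _
  refine as_bound (μ := μ) (τ := (1 + 2 * c) / 2) (by linarith) hX hbd hstep (C := 2 * C + 2 * c1 ^ 2) (by positivity) fun I hI => ?_
  have hI1 : (1 : ℝ) ≤ I := by exact_mod_cast hI
  have hIp : 1 ≤ (I : ℝ) ^ (1 + (1 + 2 * c) / 2) := Real.one_le_rpow hI1 (by linarith)
  obtain ⟨S, hS⟩ : ∃ S : Cfg → ℂ, S = fun x => ∑ n ∈ range I, PP b x0 f (rx b q h n) ((q + 1) * I) (lx b q n) x := ⟨_, rfl⟩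
  have hl : Loc ((q + 1) * I) S := by
    intro x y hxy
    rw [hS]
    simp only
    exact sum_congr rfl fun n _ => PP_loc b x0 f _ _ _ x y hxy
  have hl2 : Loc ((q + 1) * I) fun x => ‖S x‖ ^ 2 := by
    intro x y hxy
    simp only
    rw [hl x y hxy]
  have hI2 : Integrable (fun ω => ‖S (cf ξ ω)‖ ^ 2) μ := int_loc hl2 hm
  have hI3 : Integrable (fun ω => ‖WS b q x0 f h I (cf ξ ω)‖ ^ 2) μ := by
    refine Integrable.of_bound ((hX I).norm.pow_const 2).aestronglyMeasurable ((I : ℝ) ^ 2) (Eventually.of_forall fun ω => ?_)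
    rw [Real.norm_eq_abs, abs_of_nonneg (by positivity)]
    exact pow_le_pow_left₀ (norm_nonneg _) (hbd I ω) 2
  have hpt : ∀ ω, ‖WS b q x0 f h I (cf ξ ω)‖ ^ 2 ≤ 2 * ‖S (cf ξ ω)‖ ^ 2 + 2 * c1 ^ 2 := by
    intro ω
    have h1 : ‖WS b q x0 f h I (cf ξ ω) - S (cf ξ ω)‖ ≤ c1 := by
      rw [hS]; exact hcmp I (cf ξ ω)
    have h2 := norm_add_le (WS b q x0 f h I (cf ξ ω) - S (cf ξ ω)) (S (cf ξ ω))
    rw [sub_add_cancel] at h2
    have h3 : ‖WS b q x0 f h I (cf ξ ω)‖ ≤ c1 + ‖S (cf ξ ω)‖ := by linarith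
    have h4 := pow_le_pow_left₀ (norm_nonneg _) h3 2
    nlinarith [sq_nonneg (c1 - ‖S (cf ξ ω)‖)]
  have hCI : ∫ ω, ‖S (cf ξ ω)‖ ^ 2 ∂μ ≤ C * (I : ℝ) ^ (1 + (1 + 2 * c) / 2) := by
    rw [hS]; exact hCb I hI
  calc ∫ ω, ‖WS b q x0 f h I (cf ξ ω)‖ ^ 2 ∂μ
      ≤ ∫ ω, (2 * ‖S (cf ξ ω)‖ ^ 2 + 2 * c1 ^ 2) ∂μ :=
        integral_mono hI3 ((hI2.const_mul 2).add (integrable_const _)) hpt
    _ = 2 * ∫ ω, ‖S (cf ξ ω)‖ ^ 2 ∂μ + 2 * c1 ^ 2 := by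
        rw [integral_add (hI2.const_mul 2) (integrable_const _), integral_const_mul]
        simp
    _ ≤ 2 * (C * (I : ℝ) ^ (1 + (1 + 2 * c) / 2)) + 2 * c1 ^ 2 * (I : ℝ) ^ (1 + (1 + 2 * c) / 2) := by
        have h2 : 2 * c1 ^ 2 * 1 ≤ 2 * c1 ^ 2 * (I : ℝ) ^ (1 + (1 + 2 * c) / 2) :=
          mul_le_mul_of_nonneg_left hIp (by positivity)
        linarith
    _ = _ := by ring

end

end Pool.Agent.Run7.h17.Dig
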