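import Pool.Agent.Run7.h17.Dig4
import Pool.Agent.W28.NRWeyl

/-!
# Smooth functions of numbers with random sparse digits: normality
-/

set_option autoImplicit false

namespace Pool.Agent.Run7.h17.Dig

open MeasureTheory ProbabilityTheory Finset Filter Topology
open Pool.Agent.Run7.h17.Sparse

/-- the data from a derivative -/
lemma dat_of_deriv {b : ℕ} (hb : 2 ≤ b) {x0 A B : ℝ} {f g : ℝ → ℝ} (hB : 0 < B)
    (hf : ∀ u ∈ Set.Icc x0 (x0 + 1), HasDerivWithinAt f (g u) (Set.Icc x0 (x0 + 1)) u)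
    (hg : ∀ u ∈ Set.Icc x0 (x0 + 1), ∀ v ∈ Set.Icc x0 (x0 + 1), B * |v - u| ≤ |g v - g u| ∧ |g v - g u| ≤ A * |v - u|) :
    Dat b x0 A B (|g x0| + A) f g := by
  have hm0 : x0 ∈ Set.Icc x0 (x0 + 1) := ⟨le_rfl, by linarith⟩
  have hm1 : x0 + 1 ∈ Set.Icc x0 (x0 + 1) := ⟨by linarith, le_rfl⟩
  have hA : 0 < A := by
    have h1 := hg x0 hm0 (x0 + 1) hm1
    have e : |x0 + 1 - x0| = 1 := by simp
    rw [e] at h1
    linarith [h1.1, h1.2]
  refine ⟨hb, hA, hB, by positivity, ?_, ?_, fun u hu v hv => (hg u hu v hv).1, fun u hu v hv => (hg u hu v hv).2⟩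
  · intro u hu v hv
    have hsub : Set.uIcc u v ⊆ Set.Icc x0 (x0 + 1) := Set.uIcc_subset_Icc hu hv
    have h1 := Convex.norm_image_sub_le_of_norm_hasDerivWithin_le (f := fun w => f w - g u * w) (f' := fun w => g w - g u)
      (C := A * |v - u|) (s := Set.uIcc u v) (x := u) (y := v) (fun w hw => ?_) (fun w hw => ?_) (convex_uIcc u v)
      Set.left_mem_uIcc Set.right_mem_uIcc
    · rw [Real.norm_eq_abs, Real.norm_eq_abs] at h1
      have e : f v - g u * v - (f u - g u * u) = f v - f u - g u * (v - u) := by ring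
      rw [e] at h1
      refine h1.trans (le_of_eq ?_)
      rw [mul_assoc, ← sq, sq_abs]
    · have h2 := (hf w (hsub hw)).mono hsub
      have h3 := ((hasDerivAt_id w).const_mul (g u)).hasDerivWithinAt (s := Set.uIcc u v)
      have h4 := h2.sub h3
      simp only [mul_one] at h4
      exact h4
    · rw [Real.norm_eq_abs]
      refine (hg u hu w (hsub hw)).2.trans (mul_le_mul_of_nonneg_left ?_ hA.le)
      exact Set.abs_sub_left_of_mem_uIcc hw
  · intro u hu v hv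
    have h1 := Convex.norm_image_sub_le_of_norm_hasDerivWithin_le (f := f) (f' := g)
      (C := |g x0| + A) (s := Set.Icc x0 (x0 + 1)) (x := u) (y := v) hf (fun w hw => ?_) (convex_Icc _ _) hu hv
    · exact h1
    · rw [Real.norm_eq_abs]
      have h2 := (hg x0 hm0 w hw).2
      have h3 : |w - x0| ≤ 1 := by
        rw [abs_of_nonneg (by linarith [hw.1])]
        linarith [hw.2]
      have h4 : |g w| ≤ |g x0| + |g w - g x0| := by
        have := abs_add_le (g x0) (g w - g x0)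
        rwa [add_sub_cancel] at this
      nlinarith

/-- the square root -/
lemma sqrt_bounds {x0 x1 : ℝ} (h0 : 0 < x0) : ∀ u ∈ Set.Icc x0 x1, ∀ v ∈ Set.Icc x0 x1,
    1 / (4 * √x1 ^ 3) * |v - u| ≤ |1 / (2 * √v) - 1 / (2 * √u)| ∧
    |1 / (2 * √v) - 1 / (2 * √u)| ≤ 1 / (4 * √x0 ^ 3) * |v - u| := by
  intro u hu v hv
  obtain ⟨p, hp⟩ : ∃ p, p = √u := ⟨_, rfl⟩
  obtain ⟨q, hq⟩ : ∃ q, q = √v := ⟨_, rfl⟩
  obtain ⟨s, hs⟩ : ∃ s, s = √x0 := ⟨_, rfl⟩
  obtain ⟨t, ht⟩ : ∃ t, t = √x1 := ⟨_, rfl⟩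
  have hs0 : 0 < s := by rw [hs]; exact Real.sqrt_pos.2 h0
  have hsp : s ≤ p := by rw [hs, hp]; exact Real.sqrt_le_sqrt hu.1
  have hsq : s ≤ q := by rw [hs, hq]; exact Real.sqrt_le_sqrt hv.1
  have hpt : p ≤ t := by rw [ht, hp]; exact Real.sqrt_le_sqrt hu.2
  have hqt : q ≤ t := by rw [ht, hq]; exact Real.sqrt_le_sqrt hv.2
  have hp0 : 0 < p := hs0.trans_le hsp
  have hq0 : 0 < q := hs0.trans_le hsq
  have ht0 : 0 < t := hp0.trans_le hpt
  have hu2 : u = p ^ 2 := by rw [hp, Real.sq_sqrt (h0.le.trans hu.1)]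
  have hv2 : v = q ^ 2 := by rw [hq, Real.sq_sqrt (h0.le.trans hv.1)]
  rw [← hp, ← hq, ← hs, ← ht, hu2, hv2]
  have e1 : |q ^ 2 - p ^ 2| = |q - p| * (q + p) := by
    have : q ^ 2 - p ^ 2 = (q - p) * (q + p) := by ring
    rw [this, abs_mul, abs_of_pos (by linarith : 0 < q + p)]
  have e2 : |1 / (2 * q) - 1 / (2 * p)| = |q - p| * (1 / (2 * (p * q))) := by
    have : 1 / (2 * q) - 1 / (2 * p) = -((q - p) * (1 / (2 * (p * q)))) := by
      field_simp; ring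
    rw [this, abs_neg, abs_mul, abs_of_pos (by positivity : 0 < 1 / (2 * (p * q)))]
  rw [e1, e2]
  have hd := abs_nonneg (q - p)
  have k1 : (q + p) * (2 * (p * q)) ≤ 4 * t ^ 3 := by
    have h1 : p * q ≤ t * t := mul_le_mul hpt hqt hq0.le ht0.le
    have h2 : q + p ≤ 2 * t := by linarith
    calc (q + p) * (2 * (p * q)) ≤ (2 * t) * (2 * (t * t)) := by gcongr
      _ = 4 * t ^ 3 := by ring
  have k2 : 4 * s ^ 3 ≤ (q + p) * (2 * (p * q)) := by
    have h1 : s * s ≤ p * q := mul_le_mul hsp hsq hs0.le hp0.le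
    have h2 : 2 * s ≤ q + p := by linarith
    calc 4 * s ^ 3 = (2 * s) * (2 * (s * s)) := by ring
      _ ≤ _ := by gcongr
  constructor
  · have h3 : 1 / (4 * t ^ 3) * (q + p) ≤ 1 / (2 * (p * q)) := by
      rw [one_div_mul_eq_div, div_le_div_iff₀ (by positivity) (by positivity)]
      linarith
    calc 1 / (4 * t ^ 3) * (|q - p| * (q + p)) = |q - p| * (1 / (4 * t ^ 3) * (q + p)) := by ring
      _ ≤ _ := mul_le_mul_of_nonneg_left h3 hd
  · have h3 : 1 / (2 * (p * q)) ≤ 1 / (4 * s ^ 3) * (q + p) := by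
      rw [one_div_mul_eq_div, div_le_div_iff₀ (by positivity) (by positivity)]
      linarith
    calc |q - p| * (1 / (2 * (p * q))) ≤ |q - p| * (1 / (4 * s ^ 3) * (q + p)) := mul_le_mul_of_nonneg_left h3 hd
      _ = _ := by ring

section
variable {Ω : Type*} [MeasurableSpace Ω] {μ : Measure Ω} {ξ : ℕ → Ω → Bool}

theorem normal_as [IsProbabilityMeasure μ] (hm : ∀ k, Measurable (ξ k)) (hi : iIndepFun ξ μ)
    {b : ℕ} {x0 A B G : ℝ} {f g : ℝ → ℝ} (D : Dat b x0 A B G f g)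
    {a c : ℝ} (ha : 0 < a) (hc0 : 0 ≤ c) (hc : c < 1 / 2)
    (hp : ∀ k : ℕ, a * ((k : ℝ) + 1) ^ (-c) ≤ pr μ ξ k ∧ pr μ ξ k ≤ 1 - a * ((k : ℝ) + 1) ^ (-c)) :
    ∀ᵐ ω ∂μ, ∀ q : ℕ, 2 ≤ q → Pool.Agent.W28.NR.NormalBase q (f (XI (bi b) x0 (cf ξ ω))) := by
  have h1 : ∀ᵐ ω ∂μ, ∀ (q : ℕ), 2 ≤ q → ∀ k : ℕ, ∃ C' : ℝ, ∀ I : ℕ, 1 ≤ I →
      ‖WS b q x0 f ((k : ℝ) + 1) I (cf ξ ω)‖ ≤ C' * (I : ℝ) ^ (1 - 1 / (bb ((1 + 2 * c) / 2) : ℝ)) := by
    rw [ae_all_iff]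
    intro q
    by_cases hq : 2 ≤ q
    · have h2 : ∀ᵐ ω ∂μ, ∀ k : ℕ, ∃ C' : ℝ, ∀ I : ℕ, 1 ≤ I →
          ‖WS b q x0 f ((k : ℝ) + 1) I (cf ξ ω)‖ ≤ C' * (I : ℝ) ^ (1 - 1 / (bb ((1 + 2 * c) / 2) : ℝ)) := by
        rw [ae_all_iff]
        intro k
        exact weyl_as (μ := μ) hm hi D hq (h := (k : ℝ) + 1) (by positivity) ha hc0 hc hp
      filter_upwards [h2] with ω hω _
      exact hω
    · exact Eventually.of_forall fun ω h => absurd h hq
  filter_upwards [h1] with ω hω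
  intro q hq
  refine Pool.Agent.W28.NR.normal_of_weyl q hq _ fun k hk => ?_
  obtain ⟨j, rfl⟩ : ∃ j, k = j + 1 := ⟨k - 1, by omega⟩
  obtain ⟨C', hC'⟩ := hω q hq j
  have hbb : 0 < 1 / (bb ((1 + 2 * c) / 2) : ℝ) := by
    have := bb_pos (τ := (1 + 2 * c) / 2) (by linarith)
    have h2 : (0 : ℝ) < bb ((1 + 2 * c) / 2) := by exact_mod_cast this
    positivity
  obtain ⟨κ, hκ⟩ : ∃ κ : ℝ, κ = 1 / (bb ((1 + 2 * c) / 2) : ℝ) := ⟨_, rfl⟩
  rw [← hκ] at hbb hC'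
  have h3 : Tendsto (fun N : ℕ => C' * (N : ℝ) ^ (-κ)) atTop (𝓝 0) := by
    have := ((tendsto_rpow_neg_atTop hbb).comp tendsto_natCast_atTop_atTop).const_mul C'
    simpa using this
  refine squeeze_zero_norm' ?_ h3
  filter_upwards [eventually_ge_atTop 1] with N hN
  have hN0 : (0 : ℝ) < N := by exact_mod_cast hN
  have h4 := hC' N hN
  have e : ∑ n ∈ range N, Pool.Agent.W28.NR.ex (((j + 1 : ℕ) : ℝ) * ((q : ℝ) ^ n * f (XI (bi b) x0 (cf ξ ω)))) =
      WS b q x0 f ((j : ℝ) + 1) N (cf ξ ω) := by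
    unfold WS Pool.Agent.W28.NR.ex ee
    refine sum_congr rfl fun n _ => ?_
    rw [mul_comm Complex.I]
    push_cast
    rfl
  rw [e, norm_div, Complex.norm_natCast, div_le_iff₀ hN0]
  refine h4.trans (le_of_eq ?_)
  rw [mul_assoc, ← Real.rpow_add_one hN0.ne']
  congr 2
  ring

/-- the number of ones -/
theorem count_as [IsProbabilityMeasure μ] (hm : ∀ k, Measurable (ξ k))
    {A' c ε : ℝ} (hε : 0 < ε) (hc : c < 1) (hp : ∀ k : ℕ, pr μ ξ k ≤ A' * ((k : ℝ) + 1) ^ (-c)) :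
    ∀ᵐ ω ∂μ, ∃ C : ℝ, ∀ N : ℕ, 1 ≤ N →
      (((range N).filter fun k => ξ k ω = true).card : ℝ) ≤ C * (N : ℝ) ^ (1 - c + ε) := by
  classical
  let w : ℕ → Ω → ENNReal := fun k ω => if ξ k ω = true then ENNReal.ofReal (((k : ℝ) + 1) ^ (-(1 - c + ε))) else 0
  have hset : ∀ k, MeasurableSet {ω | ξ k ω = true} := fun k => measurableSet_eq_fun (hm k) measurable_const
  have hw : ∀ k, w k = Set.indicator {ω | ξ k ω = true} (fun _ => ENNReal.ofReal (((k : ℝ) + 1) ^ (-(1 - c + ε)))) := by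
    intro k; funext ω; simp only [w, Set.indicator, Set.mem_ofPred_eq]
  have hwm : ∀ k, Measurable (w k) := fun k => by rw [hw]; exact measurable_const.indicator (hset k)
  have hA' : 0 ≤ A' := by
    have := (pr_nonneg μ ξ 0).trans (hp 0)
    simpa using this
  have hwI : ∀ k, ∫⁻ ω, w k ω ∂μ ≤ ENNReal.ofReal (A' * (1 / ((k : ℝ) + 1) ^ (1 + ε))) := by
    intro k
    rw [hw, lintegral_indicator_const (hset k)]
    have e1 : μ {ω | ξ k ω = true} = ENNReal.ofReal (pr μ ξ k) := by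
      unfold pr; rw [ofReal_measureReal]
    rw [e1, ← ENNReal.ofReal_mul (by positivity)]
    refine ENNReal.ofReal_le_ofReal ?_
    have hk0 : (0 : ℝ) < (k : ℝ) + 1 := by positivity
    calc ((k : ℝ) + 1) ^ (-(1 - c + ε)) * pr μ ξ k ≤ ((k : ℝ) + 1) ^ (-(1 - c + ε)) * (A' * ((k : ℝ) + 1) ^ (-c)) :=
          mul_le_mul_of_nonneg_left (hp k) (by positivity)
      _ = A' * (((k : ℝ) + 1) ^ (-(1 - c + ε)) * ((k : ℝ) + 1) ^ (-c)) := by ring
      _ = A' * (1 / ((k : ℝ) + 1) ^ (1 + ε)) := by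
          rw [← Real.rpow_add hk0, one_div, ← Real.rpow_neg hk0.le]
          congr 2; ring
  have hsum : ∫⁻ ω, ∑' k, w k ω ∂μ ≠ ⊤ := by
    rw [lintegral_tsum fun k => (hwm k).aemeasurable]
    refine ne_top_of_le_ne_top ?_ (ENNReal.tsum_le_tsum hwI)
    have hs : Summable fun k : ℕ => A' * (1 / ((k : ℝ) + 1) ^ (1 + ε)) := by
      refine Summable.mul_left _ ?_
      have h5 := (summable_nat_add_iff 1).2 (Real.summable_one_div_nat_rpow.2 (by linarith : 1 < 1 + ε))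
      refine h5.congr fun j => ?_
      push_cast; rfl
    exact hs.tsum_ofReal_ne_top
  have hfin := ae_lt_top (Measurable.tsum hwm) hsum
  filter_upwards [hfin] with ω hω
  obtain ⟨T, hT⟩ : ∃ T, T = (∑' k, w k ω).toReal := ⟨_, rfl⟩
  refine ⟨T, fun N hN => ?_⟩
  have hN0 : (0 : ℝ) < N := by exact_mod_cast hN
  have hexp : 0 ≤ 1 - c + ε := by linarith
  have h1 : ∑ k ∈ (range N).filter (fun k => ξ k ω = true), ENNReal.ofReal ((N : ℝ) ^ (-(1 - c + ε))) ≤ ∑' k, w k ω := by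
    refine le_trans ?_ (ENNReal.sum_le_tsum ((range N).filter fun k => ξ k ω = true))
    refine sum_le_sum fun k hk => ?_
    rw [mem_filter, mem_range] at hk
    simp only [w]
    rw [if_pos hk.2]
    refine ENNReal.ofReal_le_ofReal ?_
    refine Real.rpow_le_rpow_of_nonpos (by positivity) ?_ (by linarith)
    exact_mod_cast hk.1
  rw [sum_const, nsmul_eq_mul, ← ENNReal.ofReal_natCast, ← ENNReal.ofReal_mul (by positivity)] at h1
  have h2 := (ENNReal.ofReal_le_iff_le_toReal hω.ne).1 h1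
  rw [← hT] at h2
  rw [Real.rpow_neg hN0.le, ← div_eq_mul_inv, div_le_iff₀ (by positivity)] at h2
  exact h2

end

end Pool.Agent.Run7.h17.Dig
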