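import Pool.Agent.Run7.h17.Dig5
import Pool.Agent.Run7.h17.Sparse6

/-!
# Smooth functions of numbers with random sparse digits: square roots of sparse perturbations
-/

set_option autoImplicit false

namespace Pool.Agent.Run7.h17.Dig

open MeasureTheory ProbabilityTheory Finset Filter Topology
open Pool.Agent.Run7.h17.Sparse

/-- the function `u ↦ √(x0 + d u)` -/
lemma dat_sqrt {b : ℕ} (hb : 2 ≤ b) {x0 d : ℝ} (h0 : 0 < x0) (hd : 0 < d) :
    ∃ A B G : ℝ, Dat b 0 A B G (fun u => √(x0 + d * u)) (fun u => d * (1 / (2 * √(x0 + d * u)))) := by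
  have hmem : ∀ u ∈ Set.Icc (0 : ℝ) (0 + 1), x0 + d * u ∈ Set.Icc x0 (x0 + d) := by
    intro u hu
    have h1 := hu.1
    have h2 := hu.2
    constructor <;> nlinarith
  have ht : 0 < √(x0 + d) := Real.sqrt_pos.2 (by linarith)
  have hs : 0 < √x0 := Real.sqrt_pos.2 h0
  refine ⟨d ^ 2 * (1 / (4 * √x0 ^ 3)), d ^ 2 * (1 / (4 * √(x0 + d) ^ 3)), _,
    dat_of_deriv hb (by positivity) (fun u hu => ?_) (fun u hu v hv => ?_)⟩
  · have h1 := (hmem u hu).1
    have h2 : HasDerivAt (fun u : ℝ => x0 + d * u) d u := by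
      have := ((hasDerivAt_id u).const_mul d).const_add x0
      simpa using this
    have h3 := (Real.hasDerivAt_sqrt (by linarith : x0 + d * u ≠ 0)).comp u h2
    have e : 1 / (2 * √(x0 + d * u)) * d = d * (1 / (2 * √(x0 + d * u))) := mul_comm _ _
    rw [e] at h3
    exact h3.hasDerivWithinAt
  · have h1 := sqrt_bounds h0 _ (hmem u hu) _ (hmem v hv)
    have e1 : |x0 + d * v - (x0 + d * u)| = d * |v - u| := by
      have : x0 + d * v - (x0 + d * u) = d * (v - u) := by ring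
      rw [this, abs_mul, abs_of_pos hd]
    have e2 : |d * (1 / (2 * √(x0 + d * v))) - d * (1 / (2 * √(x0 + d * u)))| =
        d * |1 / (2 * √(x0 + d * v)) - 1 / (2 * √(x0 + d * u))| := by
      rw [← mul_sub, abs_mul, abs_of_pos hd]
    rw [e1] at h1
    rw [e2]
    constructor
    · calc d ^ 2 * (1 / (4 * √(x0 + d) ^ 3)) * |v - u| = d * (1 / (4 * √(x0 + d) ^ 3) * (d * |v - u|)) := by ring
        _ ≤ _ := mul_le_mul_of_nonneg_left h1.1 hd.le
    · calc d * |1 / (2 * √(x0 + d * v)) - 1 / (2 * √(x0 + d * u))| ≤ d * (1 / (4 * √x0 ^ 3) * (d * |v - u|)) :=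
          mul_le_mul_of_nonneg_left h1.2 hd.le
        _ = _ := by ring

/-- **Deterministic version.** -/
theorem sqrt_det {b : ℕ} (hb : 2 ≤ b) {x0 d : ℝ} (h0 : 0 < x0) (hd : 0 < d) {ε : ℝ} (hε : 0 < ε) :
    ∃ x : Cfg, (∃ C : ℝ, ∀ N : ℕ, 1 ≤ N → (((range N).filter fun k => x k = true).card : ℝ) ≤ C * (N : ℝ) ^ (1 / 2 + ε)) ∧
      ∀ q : ℕ, 2 ≤ q → Pool.Agent.W28.NR.NormalBase q √(x0 + d * XI (bi b) 0 x) := by
  classical
  obtain ⟨c, hc⟩ : ∃ c : ℝ, c = max 0 (1 / 2 - ε / 2) := ⟨_, rfl⟩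
  have hc0 : 0 ≤ c := by rw [hc]; exact le_max_left _ _
  have hc1 : c < 1 / 2 := by rw [hc]; exact max_lt (by norm_num) (by linarith)
  have hc2 : 1 / 2 - ε / 2 ≤ c := by rw [hc]; exact le_max_right _ _
  obtain ⟨p, hp⟩ : ∃ p : ℕ → ℝ, ∀ k, p k = 1 / 2 * ((k : ℝ) + 1) ^ (-c) := ⟨_, fun _ => rfl⟩
  have hpk : ∀ k : ℕ, 0 ≤ p k ∧ p k ≤ 1 / 2 := by
    intro k
    rw [hp]
    refine ⟨by positivity, ?_⟩
    have : ((k : ℝ) + 1) ^ (-c) ≤ 1 := Real.rpow_le_one_of_one_le_of_nonpos (by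
      have := Nat.cast_nonneg (α := ℝ) k; linarith) (by linarith)
    linarith
  have hprob : ∀ k, IsProbabilityMeasure (bit (p k)) := fun k => bit_prob (hpk k).1 (by linarith [(hpk k).2])
  let μ : Measure (ℕ → Bool) := Measure.infinitePi fun k => bit (p k)
  let ξ : ℕ → (ℕ → Bool) → Bool := fun k ω => ω k
  have hm : ∀ k, Measurable (ξ k) := fun k => measurable_pi_apply k
  have hi : iIndepFun ξ μ := iIndepFun_infinitePi (X := fun _ b => b) (fun _ => measurable_id)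
  have hprk : ∀ k : ℕ, pr μ ξ k = p k := by
    intro k
    have h1 : {ω : ℕ → Bool | ξ k ω = true} = (fun ω : ℕ → Bool => ω k) ⁻¹' {true} := by ext ω; simp [ξ]
    have h2 := Measure.infinitePi_map_eval (μ := fun k => bit (p k)) k
    have h3 : μ {ω | ξ k ω = true} = ENNReal.ofReal (p k) := by
      rw [h1, ← Measure.map_apply (measurable_pi_apply k) (measurableSet_singleton _), h2, bit_true]
    unfold pr
    rw [Measure.real, h3, ENNReal.toReal_ofReal (hpk k).1]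
  obtain ⟨A, B, G, D⟩ := dat_sqrt hb h0 hd
  have h1 := normal_as (μ := μ) hm hi D (a := 1 / 2) (by norm_num) hc0 hc1 (fun k => by
    rw [hprk, ← hp]
    have := hpk k
    constructor <;> linarith [this.2])
  have h2 := count_as (μ := μ) hm (A' := 1 / 2) (c := c) (ε := ε / 2) (by linarith) (by linarith) (fun k => by
    rw [hprk, hp])
  obtain ⟨ω, hω1, C, hC⟩ := (h1.and h2).exists
  refine ⟨cf ξ ω, ⟨|C|, fun N hN => ?_⟩, fun q hq => hω1 q hq⟩
  have hN1 : (1 : ℝ) ≤ N := by exact_mod_cast hN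
  have h3 := hC N hN
  have h4 : (N : ℝ) ^ (1 - c + ε / 2) ≤ (N : ℝ) ^ (1 / 2 + ε) :=
    Real.rpow_le_rpow_of_exponent_le hN1 (by linarith)
  calc (((range N).filter fun k => cf ξ ω k = true).card : ℝ) ≤ C * (N : ℝ) ^ (1 - c + ε / 2) := h3
    _ ≤ |C| * (N : ℝ) ^ (1 - c + ε / 2) := mul_le_mul_of_nonneg_right (le_abs_self C) (by positivity)
    _ ≤ |C| * (N : ℝ) ^ (1 / 2 + ε) := mul_le_mul_of_nonneg_left h4 (abs_nonneg C)

end Pool.Agent.Run7.h17.Dig
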