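import Pool.Agent.Run7.h17.Dig2

/-!
# Numbers with random sparse digits: small balls have small probability
-/

set_option autoImplicit false

namespace Pool.Agent.Run7.h17.Dig

open MeasureTheory ProbabilityTheory Finset Filter Topology
open Pool.Agent.Run7.h17.Sparse

/-- `b ^ K` times the truncated sum -/
def VV (b : ℕ) : ℕ → Cfg → ℕ
  | 0, _ => 0
  | K + 1, x => b * VV b K x + (if x K = true then 1 else 0)

lemma VV_loc (b K : ℕ) : Loc K (VV b K) := by
  induction K with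
  | zero => intro x y _; rfl
  | succ K IH =>
    intro x y h
    unfold VV
    rw [IH x y fun k hk => h k (by omega), h K (by omega)]

lemma XX_VV {b : ℕ} (hb : 2 ≤ b) (K : ℕ) (x : Cfg) : XX (bi b) 0 K x = VV b K x * bi b ^ K := by
  have hbi : (b : ℝ) * bi b = 1 := by
    have := pow_bi hb 1
    simpa using this
  induction K with
  | zero => simp [XX, VV]
  | succ K IH =>
    have h1 : XX (bi b) 0 (K + 1) x = XX (bi b) 0 K x + dg (bi b) x K := by
      unfold XX; rw [sum_range_succ]; ring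
    have hV : VV b (K + 1) x = b * VV b K x + (if x K = true then 1 else 0) := rfl
    rw [h1, IH, hV]
    unfold dg
    push_cast
    split_ifs with h
    · rw [pow_succ]
      linear_combination (-(VV b K x : ℝ) * bi b ^ K) * hbi
    · rw [pow_succ]
      linear_combination (-(VV b K x : ℝ) * bi b ^ K) * hbi

section
variable {Ω : Type*} [MeasurableSpace Ω] {μ : Measure Ω} {ξ : ℕ → Ω → Bool}

theorem atom_le [IsProbabilityMeasure μ] (hm : ∀ k, Measurable (ξ k)) (hi : iIndepFun ξ μ) {b : ℕ} (hb : 2 ≤ b)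
    {δ : ℕ → ℝ} (hδ : ∀ k, δ k ≤ pr μ ξ k ∧ pr μ ξ k ≤ 1 - δ k) (K : ℕ) : ∀ v : ℤ,
    ∫ ω, (if ((VV b K (cf ξ ω) : ℕ) : ℤ) = v then (1 : ℝ) else 0) ∂μ ≤ ∏ k ∈ range K, (1 - δ k) := by
  classical
  have hδ1 : ∀ k, 0 ≤ 1 - δ k := fun k => by linarith [(hδ k).1, pr_le_one (μ := μ) ξ k]
  have hloc : ∀ (K : ℕ) (v : ℤ), Loc K fun x : Cfg => (if ((VV b K x : ℕ) : ℤ) = v then (1 : ℝ) else 0) := by
    intro K v x y h
    simp only
    rw [VV_loc b K x y h]
  induction K with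
  | zero =>
    intro v
    have : ∀ ω, (if ((VV b 0 (cf ξ ω) : ℕ) : ℤ) = v then (1 : ℝ) else 0) ≤ 1 := fun ω => by split_ifs <;> norm_num
    calc ∫ ω, (if ((VV b 0 (cf ξ ω) : ℕ) : ℤ) = v then (1 : ℝ) else 0) ∂μ ≤ ∫ _ω, (1 : ℝ) ∂μ :=
          integral_mono (int_loc (hloc 0 v) hm) (integrable_const _) this
      _ = _ := by simp
  | succ K IH =>
    intro v
    have h1 := integral_av hm hi (μ := μ) K (hloc (K + 1) v)
    beta_reduce at h1
    rw [h1, prod_range_succ]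
    have hP : 0 ≤ ∏ k ∈ range K, (1 - δ k) := prod_nonneg fun k _ => hδ1 k
    have hp0 := pr_nonneg μ ξ K
    have hp1 := pr_le_one (μ := μ) ξ K
    -- the value of the average
    have hav : ∀ x : Cfg, av (pr μ ξ) K (fun x : Cfg => (if ((VV b (K + 1) x : ℕ) : ℤ) = v then (1 : ℝ) else 0)) x =
        (1 - pr μ ξ K) * (if ((b * VV b K x : ℕ) : ℤ) = v then (1 : ℝ) else 0) +
        pr μ ξ K * (if ((b * VV b K x + 1 : ℕ) : ℤ) = v then (1 : ℝ) else 0) := by
      intro x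
      have e1 : ∀ c, VV b K (st x K c) = VV b K x := fun c => (VV_loc b K).st le_rfl x c
      unfold av
      simp only [VV, e1, st_same, smul_eq_mul, Bool.false_eq_true, if_false, if_true, add_zero]
    have hb0 : (b : ℤ) ≠ 0 := by omega
    -- a dominating atom
    obtain ⟨v', hv'⟩ : ∃ v' : ℤ, ∀ x : Cfg, av (pr μ ξ) K (fun x : Cfg => (if ((VV b (K + 1) x : ℕ) : ℤ) = v then (1 : ℝ) else 0)) x ≤
        (if ((VV b K x : ℕ) : ℤ) = v' then (1 : ℝ) else 0) * (1 - δ K) := by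
      by_cases h2 : (b : ℤ) ∣ v
      · obtain ⟨v', rfl⟩ := h2
        refine ⟨v', fun x => ?_⟩
        rw [hav]
        have e2 : ¬ ((b * VV b K x + 1 : ℕ) : ℤ) = b * v' := by
          intro h
          push_cast at h
          have : (b : ℤ) ∣ 1 := ⟨v' - VV b K x, by linarith⟩
          have := Int.le_of_dvd one_pos this
          omega
        rw [if_neg e2, mul_zero, add_zero]
        by_cases h3 : ((VV b K x : ℕ) : ℤ) = v'
        · rw [if_pos h3, one_mul]
          split_ifs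
          · linarith [(hδ K).1]
          · have := hδ1 K
            linarith
        · have e3 : ¬ ((b * VV b K x : ℕ) : ℤ) = b * v' := by
            intro h
            push_cast at h
            exact h3 (mul_left_cancel₀ hb0 h)
          rw [if_neg h3, if_neg e3]
          simp
      · by_cases h4 : (b : ℤ) ∣ v - 1
        · obtain ⟨v', hv⟩ := h4
          refine ⟨v', fun x => ?_⟩
          rw [hav]
          have e2 : ¬ ((b * VV b K x : ℕ) : ℤ) = v := by
            intro h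
            push_cast at h
            exact h2 ⟨_, h.symm⟩
          rw [if_neg e2, mul_zero, zero_add]
          by_cases h3 : ((VV b K x : ℕ) : ℤ) = v'
          · rw [if_pos h3, one_mul]
            split_ifs
            · linarith [(hδ K).2]
            · have := hδ1 K
              linarith
          · have e3 : ¬ ((b * VV b K x + 1 : ℕ) : ℤ) = v := by
              intro h
              push_cast at h
              refine h3 (mul_left_cancel₀ hb0 ?_)
              linarith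
            rw [if_neg h3, if_neg e3]
            simp
        · refine ⟨0, fun x => ?_⟩
          rw [hav]
          have e2 : ¬ ((b * VV b K x : ℕ) : ℤ) = v := by
            intro h
            push_cast at h
            exact h2 ⟨_, h.symm⟩
          have e3 : ¬ ((b * VV b K x + 1 : ℕ) : ℤ) = v := by
            intro h
            push_cast at h
            exact h4 ⟨(VV b K x : ℤ), by linarith⟩
          rw [if_neg e2, if_neg e3]
          have := hδ1 K
          split_ifs <;> linarith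
    calc ∫ ω, av (pr μ ξ) K (fun x : Cfg => (if ((VV b (K + 1) x : ℕ) : ℤ) = v then (1 : ℝ) else 0)) (cf ξ ω) ∂μ
        ≤ ∫ ω, (if ((VV b K (cf ξ ω) : ℕ) : ℤ) = v' then (1 : ℝ) else 0) * (1 - δ K) ∂μ :=
          integral_mono (int_loc (av_loc (hloc (K + 1) v) _ _) hm) ((int_loc (hloc K v') hm).mul_const _) fun ω => hv' _
      _ = (∫ ω, (if ((VV b K (cf ξ ω) : ℕ) : ℤ) = v' then (1 : ℝ) else 0) ∂μ) * (1 - δ K) := integral_mul_const _ _
      _ ≤ _ := mul_le_mul_of_nonneg_right (IH v') (hδ1 K)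

theorem ball_le [IsProbabilityMeasure μ] (hm : ∀ k, Measurable (ξ k)) (hi : iIndepFun ξ μ) {b : ℕ} (hb : 2 ≤ b)
    {δ : ℕ → ℝ} (hδ : ∀ k, δ k ≤ pr μ ξ k ∧ pr μ ξ k ≤ 1 - δ k) (K : ℕ) (t : ℝ) :
    μ {ω | |XI (bi b) 0 (cf ξ ω) - t| ≤ bi b ^ K} ≤ ENNReal.ofReal (4 * ∏ k ∈ range K, (1 - δ k)) := by
  classical
  have hβ0 := bi_pos hb
  have hβ1 := bi_le hb
  obtain ⟨u, hu⟩ : ∃ u : ℤ, u = ⌈t * (b : ℝ) ^ K - 2⌉ := ⟨_, rfl⟩
  have hsub : {ω | |XI (bi b) 0 (cf ξ ω) - t| ≤ bi b ^ K} ⊆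
      ⋃ i ∈ range 4, {ω | ((VV b K (cf ξ ω) : ℕ) : ℤ) = u + i} := by
    intro ω hω
    have h0 : |XI (bi b) 0 (cf ξ ω) - t| ≤ bi b ^ K := hω
    have h1 := XI_diff hβ0.le hβ1 0 (cf ξ ω) K
    rw [XX_VV hb] at h1
    rw [abs_le] at h0
    have h2 := pow_bi hb K
    have hbK : 0 < (b : ℝ) ^ K := by
      have : (2 : ℝ) ≤ b := by exact_mod_cast hb
      positivity
    have h3 : (VV b K (cf ξ ω) : ℝ) ≤ t * (b : ℝ) ^ K + 1 := by
      have h4 : (VV b K (cf ξ ω) : ℝ) * bi b ^ K ≤ t + bi b ^ K := by linarith [h1.1, h0.2]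
      have h5 := mul_le_mul_of_nonneg_right h4 hbK.le
      have e5 : (VV b K (cf ξ ω) : ℝ) * bi b ^ K * (b : ℝ) ^ K = VV b K (cf ξ ω) := by
        rw [mul_assoc, mul_comm (bi b ^ K), h2, mul_one]
      have e6 : (t + bi b ^ K) * (b : ℝ) ^ K = t * (b : ℝ) ^ K + 1 := by
        rw [add_mul, mul_comm (bi b ^ K), h2]
      rwa [e5, e6] at h5
    have h4 : t * (b : ℝ) ^ K - 2 ≤ (VV b K (cf ξ ω) : ℝ) := by
      have h4 : t - 2 * bi b ^ K ≤ (VV b K (cf ξ ω) : ℝ) * bi b ^ K := by linarith [h1.2, h0.1]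
      have h5 := mul_le_mul_of_nonneg_right h4 hbK.le
      have e5 : (VV b K (cf ξ ω) : ℝ) * bi b ^ K * (b : ℝ) ^ K = VV b K (cf ξ ω) := by
        rw [mul_assoc, mul_comm (bi b ^ K), h2, mul_one]
      have e6 : (t - 2 * bi b ^ K) * (b : ℝ) ^ K = t * (b : ℝ) ^ K - 2 := by
        rw [sub_mul, mul_assoc, mul_comm (bi b ^ K), h2, mul_one]
      rwa [e5, e6] at h5
    have h5 : u ≤ ((VV b K (cf ξ ω) : ℕ) : ℤ) := by
      rw [hu]
      exact Int.ceil_le.2 (by exact_mod_cast h4)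
    have h6 : ((VV b K (cf ξ ω) : ℕ) : ℤ) ≤ u + 3 := by
      have h7 : t * (b : ℝ) ^ K - 2 ≤ u := by rw [hu]; exact Int.le_ceil _
      have h8 : (VV b K (cf ξ ω) : ℝ) ≤ (u : ℝ) + 3 := by linarith
      exact_mod_cast h8
    simp only [Set.mem_iUnion, mem_range, Set.mem_ofPred_eq]
    exact ⟨(((VV b K (cf ξ ω) : ℕ) : ℤ) - u).toNat, by omega, by omega⟩
  have hatom : ∀ v : ℤ, μ {ω | ((VV b K (cf ξ ω) : ℕ) : ℤ) = v} ≤ ENNReal.ofReal (∏ k ∈ range K, (1 - δ k)) := by
    intro v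
    have hloc : Loc K fun x : Cfg => (((VV b K x : ℕ) : ℤ) = v : Prop) := by
      intro x y h
      simp only
      rw [VV_loc b K x y h]
    have hms : MeasurableSet {ω | ((VV b K (cf ξ ω) : ℕ) : ℤ) = v} := by
      have := meas_loc (ξ := ξ) hloc hm
      exact measurableSet_setOfPred.2 this
    have e : ∫ ω, (if ((VV b K (cf ξ ω) : ℕ) : ℤ) = v then (1 : ℝ) else 0) ∂μ = μ.real {ω | ((VV b K (cf ξ ω) : ℕ) : ℤ) = v} := by
      have e1 : (fun ω => (if ((VV b K (cf ξ ω) : ℕ) : ℤ) = v then (1 : ℝ) else 0)) =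
          Set.indicator {ω | ((VV b K (cf ξ ω) : ℕ) : ℤ) = v} fun _ => (1 : ℝ) := by
        funext ω; simp [Set.indicator]
      rw [e1, integral_indicator hms]
      simp
    have h1 := atom_le (μ := μ) hm hi hb hδ K v
    rw [e] at h1
    rw [← ofReal_measureReal]
    exact ENNReal.ofReal_le_ofReal h1
  have hδ1 : ∀ k, 0 ≤ 1 - δ k := fun k => by linarith [(hδ k).1, pr_le_one (μ := μ) ξ k]
  have hP : 0 ≤ ∏ k ∈ range K, (1 - δ k) := prod_nonneg fun k _ => hδ1 k
  calc μ {ω | |XI (bi b) 0 (cf ξ ω) - t| ≤ bi b ^ K} ≤ μ (⋃ i ∈ range 4, {ω | ((VV b K (cf ξ ω) : ℕ) : ℤ) = u + i}) := measure_mono hsub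
    _ ≤ ∑ i ∈ range 4, μ {ω | ((VV b K (cf ξ ω) : ℕ) : ℤ) = u + i} := measure_biUnion_finset_le _ _
    _ ≤ ∑ _i ∈ range 4, ENNReal.ofReal (∏ k ∈ range K, (1 - δ k)) := sum_le_sum fun i _ => hatom _
    _ = _ := by
      rw [sum_const, card_range, nsmul_eq_mul, ENNReal.ofReal_mul (by norm_num)]
      norm_num

/-- the product for `δ k = 3 / (k + 1)`, `k ≥ k₀` -/
lemma prod_le_cube {δ : ℕ → ℝ} (h1 : ∀ k, δ k ≤ 1) {k₀ : ℕ} (h0 : ∀ k, 0 ≤ δ k) (h3 : ∀ k, k₀ ≤ k → 3 / ((k : ℝ) + 1) ≤ δ k) (K : ℕ) :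
    ∏ k ∈ range K, (1 - δ k) ≤ (((k₀ : ℝ) + 1) / ((K : ℝ) + 1)) ^ 3 := by
  have hP : ∀ K, 0 ≤ ∏ k ∈ range K, (1 - δ k) := fun K => prod_nonneg fun k _ => by linarith [h1 k]
  induction K with
  | zero =>
    simp only [range_zero, prod_empty, Nat.cast_zero, zero_add, div_one]
    have : (1 : ℝ) ≤ (k₀ : ℝ) + 1 := by have := Nat.cast_nonneg (α := ℝ) k₀; linarith
    exact one_le_pow₀ this
  | succ K IH =>
    rcases Nat.lt_or_ge K k₀ with hK | hK
    · have h4 : ∏ k ∈ range (K + 1), (1 - δ k) ≤ 1 := prod_le_one (fun k _ => by linarith [h1 k]) fun k _ => by linarith [h0 k]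
      have h5 : (1 : ℝ) ≤ ((k₀ : ℝ) + 1) / (((K + 1 : ℕ) : ℝ) + 1) := by
        rw [le_div_iff₀ (by positivity), one_mul]
        have : ((K + 1 : ℕ) : ℝ) ≤ k₀ := by exact_mod_cast hK
        linarith
      exact h4.trans (one_le_pow₀ h5)
    · rw [prod_range_succ]
      have hK0 : (0 : ℝ) ≤ K := Nat.cast_nonneg K
      have h4 : 1 - δ K ≤ (((K : ℝ) + 1) / ((K : ℝ) + 2)) ^ 3 := by
        have h5 := h3 K hK
        have h6 : 1 - 3 / ((K : ℝ) + 1) ≤ (((K : ℝ) + 1) / ((K : ℝ) + 2)) ^ 3 := by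
          rw [div_pow, le_div_iff₀ (by positivity), sub_mul, one_mul, div_mul_eq_mul_div, sub_le_iff_le_add, ← sub_le_iff_le_add',
            le_div_iff₀ (by positivity)]
          nlinarith [sq_nonneg (K : ℝ), pow_nonneg hK0 3]
        linarith
      calc (∏ k ∈ range K, (1 - δ k)) * (1 - δ K) ≤ (((k₀ : ℝ) + 1) / ((K : ℝ) + 1)) ^ 3 * (((K : ℝ) + 1) / ((K : ℝ) + 2)) ^ 3 :=
            mul_le_mul IH h4 (by linarith [h1 K]) (by positivity)
        _ = _ := by
            rw [← mul_pow]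
            congr 1
            push_cast
            field_simp
            ring

end

end Pool.Agent.Run7.h17.Dig
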