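import Pool.Agent.Run7.h17.Dig7
import Pool.Agent.H491R3.PE.Near

/-!
# Near coincidences for random sparse bases
-/

set_option autoImplicit false

namespace Pool.Agent.Run7.h17.Dig

open MeasureTheory ProbabilityTheory Finset Filter Topology
open Pool.Agent.Run7.h17.Sparse
open Pool.Agent.H491R3.PE (SS SX NS)

lemma ss_m_le {a L y0 : ℝ} (ha : 1 < a) (hy : 0 < y0) (hL : y0 ≤ L) {n m : ℕ}
    (hp : |a ^ n - Real.exp L ^ m| ^ 2 < a ^ n) : (m : ℝ) ≤ (Real.log a + 1) / y0 * ((n : ℝ) + 1) := by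
  have hA : 1 ≤ a ^ n := one_le_pow₀ ha.le
  have hA0 : 0 < a ^ n := by linarith
  have h1 : |a ^ n - Real.exp L ^ m| < a ^ n := by
    refine lt_of_pow_lt_pow_left₀ 2 hA0.le (hp.trans_le ?_)
    nlinarith
  have h2 : Real.exp L ^ m < 2 * a ^ n := by
    have := neg_abs_le (a ^ n - Real.exp L ^ m)
    linarith
  have h3 : (m : ℝ) * L < Real.log 2 + n * Real.log a := by
    have h4 := Real.log_lt_log (by positivity) h2
    rwa [Real.log_pow, Real.log_exp, Real.log_mul (by norm_num) (by positivity), Real.log_pow] at h4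
  have h5 : Real.log 2 ≤ 1 := by
    have := Real.log_two_lt_d9
    linarith
  have hla : 0 < Real.log a := Real.log_pos ha
  have hn0 : (0 : ℝ) ≤ n := Nat.cast_nonneg n
  have hm0 : (0 : ℝ) ≤ m := Nat.cast_nonneg m
  rw [div_mul_eq_mul_div, le_div_iff₀ hy]
  nlinarith [mul_le_mul_of_nonneg_left hL hm0]

lemma ss_close {a L : ℝ} (ha : 1 < a) {n m : ℕ} (hA : 4 ≤ a ^ n)
    (hp : |a ^ n - Real.exp L ^ m| ^ 2 < a ^ n) :
    1 ≤ m ∧ ((m : ℝ) * L - n * Real.log a) ^ 2 * a ^ n ≤ 4 := by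
  have hA0 : 0 < a ^ n := by linarith
  have ha0 : 0 < a := by linarith
  constructor
  · rcases Nat.eq_zero_or_pos m with h | h
    · subst h
      rw [pow_zero, sq_abs] at hp
      nlinarith
    · exact h
  · obtain ⟨t, ht⟩ : ∃ t, t = (m : ℝ) * L - n * Real.log a := ⟨_, rfl⟩
    have he : Real.exp t = Real.exp L ^ m / a ^ n := by
      rw [ht, Real.exp_sub, Real.exp_nat_mul, Real.exp_nat_mul, Real.exp_log ha0]
    obtain ⟨r, hr⟩ : ∃ r, r = |Real.exp t - 1| := ⟨_, rfl⟩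
    have hr2 : r = |a ^ n - Real.exp L ^ m| / a ^ n := by
      rw [hr, he, div_sub_one hA0.ne', abs_div, abs_of_pos hA0, abs_sub_comm]
    have hr0 : 0 ≤ r := by rw [hr]; exact abs_nonneg _
    have hr3 : r ^ 2 * a ^ n < 1 := by
      rw [hr2, div_pow, div_mul_eq_mul_div, div_lt_one (by positivity), sq (a ^ n)]
      exact mul_lt_mul_of_pos_right hp hA0
    have hr4 : r ≤ 1 / 2 := by
      by_contra hcon
      push Not at hcon
      nlinarith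
    have hrt : |t| ≤ 2 * r := by
      rcases le_total 0 t with h | h
      · rw [abs_of_nonneg h]
        have h1 := Real.add_one_le_exp t
        have h2 : Real.exp t - 1 ≤ r := by rw [hr]; exact le_abs_self _
        linarith
      · rw [abs_of_nonpos h]
        have h1 := Real.add_one_le_exp (-t)
        have h2 : 1 - Real.exp t ≤ r := by
          rw [hr, abs_sub_comm]; exact le_abs_self _
        have h3 : 1 / 2 ≤ Real.exp t := by linarith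
        have h4 : Real.exp (-t) * Real.exp t = 1 := by rw [← Real.exp_add]; simp
        have h5 : Real.exp (-t) ≤ 2 := by nlinarith [Real.exp_pos (-t)]
        nlinarith [Real.exp_pos (-t)]
    have h6 : t ^ 2 ≤ (2 * r) ^ 2 := by
      rw [← sq_abs t]
      exact pow_le_pow_left₀ (abs_nonneg t) hrt 2
    rw [← ht]
    nlinarith [mul_le_mul_of_nonneg_right h6 hA0.le]

/-- near misses are close to special numbers -/
lemma ss_ball {b : ℕ} (hb : 2 ≤ b) {a d y0 X : ℝ} (ha : 1 < a) (hd : 0 < d) {D : ℕ} (hD : (b : ℝ) ^ 4 ≤ a ^ D) {n m : ℕ} (hA : 4 ≤ a ^ n)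
    (hn : 2 / d ≤ (b : ℝ) ^ (n / D)) (hp : |a ^ n - Real.exp (y0 + d * X) ^ m| ^ 2 < a ^ n) :
    |X - ((n : ℝ) / m * Real.log a - y0) / d| ≤ bi b ^ (n / D) := by
  obtain ⟨hm1, h1⟩ := ss_close ha hA hp
  have hm0 : (1 : ℝ) ≤ m := by exact_mod_cast hm1
  have hA0 : 0 < a ^ n := by linarith
  obtain ⟨K, hK⟩ : ∃ K, K = n / D := ⟨_, rfl⟩
  rw [← hK] at hn ⊢
  have hb2 : (2 : ℝ) ≤ b := by exact_mod_cast hb
  obtain ⟨B, hB⟩ : ∃ B : ℝ, B = (b : ℝ) ^ K := ⟨_, rfl⟩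
  have hB0 : 0 < B := by rw [hB]; positivity
  have hbi : bi b ^ K = 1 / B := by
    rw [eq_div_iff hB0.ne', hB, mul_comm]; exact pow_bi hb K
  rw [← hB] at hn
  rw [hbi]
  have hBA : B ^ 4 ≤ a ^ n := by
    rw [hB, ← pow_mul, mul_comm K 4, pow_mul]
    calc ((b : ℝ) ^ 4) ^ K ≤ (a ^ D) ^ K := pow_le_pow_left₀ (by positivity) hD K
      _ = a ^ (D * K) := (pow_mul _ _ _).symm
      _ ≤ a ^ n := pow_le_pow_right₀ ha.le (by rw [hK]; exact Nat.mul_div_le n D)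
  obtain ⟨t, ht⟩ : ∃ t, t = (m : ℝ) * (y0 + d * X) - n * Real.log a := ⟨_, rfl⟩
  rw [← ht] at h1
  have e1 : X - ((n : ℝ) / m * Real.log a - y0) / d = t / (m * d) := by
    rw [ht]; field_simp; ring
  rw [e1, abs_div, abs_of_pos (by positivity : 0 < (m : ℝ) * d), div_le_div_iff₀ (by positivity) hB0, one_mul]
  have h2 : t ^ 2 * B ^ 4 ≤ 4 := (mul_le_mul_of_nonneg_left hBA (sq_nonneg t)).trans h1
  have h3 : |t| * B ^ 2 ≤ 2 := by
    refine abs_le_of_sq_le_sq' ?_ (by norm_num) |>.2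
    rw [mul_pow, sq_abs, ← pow_mul]
    norm_num
    exact h2
  rw [div_le_iff₀ hd] at hn
  have h4 : |t| * B * B ≤ d * B := by nlinarith
  have h5 : |t| * B ≤ d := le_of_mul_le_mul_right h4 hB0
  nlinarith

section
variable {Ω : Type*} [MeasurableSpace Ω] {μ : Measure Ω} {ξ : ℕ → Ω → Bool}

theorem near_as [IsProbabilityMeasure μ] (hm : ∀ k, Measurable (ξ k)) (hi : iIndepFun ξ μ) {b : ℕ} (hb : 2 ≤ b)
    {k₀ : ℕ} (hp : ∀ k : ℕ, k₀ ≤ k → 3 / ((k : ℝ) + 1) ≤ pr μ ξ k ∧ pr μ ξ k ≤ 1 - 3 / ((k : ℝ) + 1))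
    {a y0 d : ℝ} (ha : 1 < a) (hy : 0 < y0) (hd : 0 < d) :
    ∀ᵐ ω ∂μ, Irrational (Real.log a / (y0 + d * XI (bi b) 0 (cf ξ ω))) ∧
      (SS a (Real.exp (y0 + d * XI (bi b) 0 (cf ξ ω)))).Finite := by
  classical
  have hβ0 := bi_pos hb
  have hβ1 := bi_le hb
  have hb2 : (2 : ℝ) ≤ b := by exact_mod_cast hb
  have hla : 0 < Real.log a := Real.log_pos ha
  obtain ⟨δ, hδ⟩ : ∃ δ : ℕ → ℝ, δ = fun k => if k₀ ≤ k then 3 / ((k : ℝ) + 1) else 0 := ⟨_, rfl⟩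
  have hδp : ∀ k, δ k ≤ pr μ ξ k ∧ pr μ ξ k ≤ 1 - δ k := by
    intro k
    rw [hδ]
    simp only
    split_ifs with h
    · exact hp k h
    · exact ⟨pr_nonneg _ _ _, by rw [sub_zero]; exact pr_le_one _ _⟩
  have hδ0 : ∀ k, 0 ≤ δ k := by
    intro k; rw [hδ]; simp only; split_ifs <;> positivity
  have hδ1 : ∀ k, δ k ≤ 1 := fun k => (hδp k).1.trans (pr_le_one _ _)
  have hδ3 : ∀ k, k₀ ≤ k → 3 / ((k : ℝ) + 1) ≤ δ k := by
    intro k hk; rw [hδ]; simp only; rw [if_pos hk]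
  have hball : ∀ (K : ℕ) (t : ℝ), μ {ω | |XI (bi b) 0 (cf ξ ω) - t| ≤ bi b ^ K} ≤
      ENNReal.ofReal (4 * (((k₀ : ℝ) + 1) / ((K : ℝ) + 1)) ^ 3) := by
    intro K t
    refine (ball_le (μ := μ) hm hi hb hδp K t).trans (ENNReal.ofReal_le_ofReal ?_)
    exact mul_le_mul_of_nonneg_left (prod_le_cube hδ1 hδ0 hδ3 K) (by norm_num)
  -- points have measure zero
  have hpoint : ∀ t : ℝ, μ {ω | XI (bi b) 0 (cf ξ ω) = t} = 0 := by
    intro t
    have h1 : ∀ K : ℕ, μ {ω | XI (bi b) 0 (cf ξ ω) = t} ≤ ENNReal.ofReal (4 * (((k₀ : ℝ) + 1) / ((K : ℝ) + 1)) ^ 3) := by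
      intro K
      refine (measure_mono fun ω hω => ?_).trans (hball K t)
      have h2 : XI (bi b) 0 (cf ξ ω) = t := hω
      change |XI (bi b) 0 (cf ξ ω) - t| ≤ bi b ^ K
      rw [h2, sub_self, abs_zero]
      positivity
    have h2 : Tendsto (fun K : ℕ => ENNReal.ofReal (4 * (((k₀ : ℝ) + 1) / ((K : ℝ) + 1)) ^ 3)) atTop (𝓝 0) := by
      have h3 : Tendsto (fun K : ℕ => 4 * (((k₀ : ℝ) + 1) / ((K : ℝ) + 1)) ^ 3) atTop (𝓝 0) := by
        have h4 : Tendsto (fun K : ℕ => ((k₀ : ℝ) + 1) / ((K : ℝ) + 1)) atTop (𝓝 0) := by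
          have := (tendsto_one_div_add_atTop_nhds_zero_nat (𝕜 := ℝ)).const_mul ((k₀ : ℝ) + 1)
          rw [mul_zero] at this
          refine this.congr fun K => ?_
          rw [mul_one_div]
        have := (h4.pow 3).const_mul 4
        simpa using this
      have := ENNReal.tendsto_ofReal h3
      simpa using this
    exact nonpos_iff_eq_zero.1 (ge_of_tendsto' h2 h1)
  have hirr : ∀ᵐ ω ∂μ, Irrational (Real.log a / (y0 + d * XI (bi b) 0 (cf ξ ω))) := by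
    have h1 : ∀ᵐ ω ∂μ, ∀ q : ℚ, XI (bi b) 0 (cf ξ ω) ≠ (Real.log a / q - y0) / d := by
      rw [ae_all_iff]
      intro q
      have := hpoint ((Real.log a / q - y0) / d)
      rw [ae_iff]
      simpa using this
    filter_upwards [h1] with ω hω
    rintro ⟨q, hq⟩
    have hX := XI_mem hβ0.le hβ1 0 (cf ξ ω)
    have hL : 0 < y0 + d * XI (bi b) 0 (cf ξ ω) := by
      have := mul_nonneg hd.le hX.1
      linarith
    have hq0 : (q : ℝ) ≠ 0 := by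
      rw [hq]
      exact (div_pos hla hL).ne'
    refine hω q ?_
    have h3 : Real.log a / q = y0 + d * XI (bi b) 0 (cf ξ ω) := by
      rw [div_eq_iff hq0, hq, mul_div_cancel₀ _ hL.ne']
    rw [h3, add_sub_cancel_left, mul_div_cancel_left₀ _ hd.ne']
  -- Borel-Cantelli
  obtain ⟨D, hD⟩ : ∃ D : ℕ, (b : ℝ) ^ 4 ≤ a ^ D := by
    obtain ⟨D, hD⟩ := pow_unbounded_of_one_lt ((b : ℝ) ^ 4) ha
    exact ⟨D, hD.le⟩
  have hD1 : 1 ≤ D := by
    by_contra hcon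
    have : D = 0 := by omega
    rw [this, pow_zero] at hD
    have h2 : (2 : ℝ) ^ 4 ≤ (b : ℝ) ^ 4 := pow_le_pow_left₀ (by norm_num) hb2 4
    norm_num at h2
    linarith
  obtain ⟨C2, hC2⟩ : ∃ C2 : ℕ, (Real.log a + 1) / y0 ≤ C2 := ⟨_, Nat.le_ceil _⟩
  obtain ⟨E, hE⟩ : ∃ E : ℕ → Set Ω, E = fun n => ⋃ m ∈ range (C2 * (n + 1) + 1),
      {ω | |XI (bi b) 0 (cf ξ ω) - ((n : ℝ) / (m : ℕ) * Real.log a - y0) / d| ≤ bi b ^ (n / D)} := ⟨_, rfl⟩
  obtain ⟨C3, hC3⟩ : ∃ C3 : ℝ, C3 = 4 * ((C2 : ℝ) + 1) * (((k₀ : ℝ) + 1) * D) ^ 3 := ⟨_, rfl⟩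
  have hEm : ∀ n : ℕ, μ (E n) ≤ ENNReal.ofReal (C3 * (1 / ((n : ℝ) + 1) ^ 2)) := by
    intro n
    have hn0 : (0 : ℝ) < (n : ℝ) + 1 := by positivity
    have h1 : μ (E n) ≤ ∑ m ∈ range (C2 * (n + 1) + 1), ENNReal.ofReal (4 * (((k₀ : ℝ) + 1) / (((n / D : ℕ) : ℝ) + 1)) ^ 3) := by
      rw [hE]
      exact (measure_biUnion_finset_le _ _).trans (sum_le_sum fun m _ => hball _ _)
    refine h1.trans ?_
    rw [sum_const, card_range, nsmul_eq_mul, ← ENNReal.ofReal_natCast, ← ENNReal.ofReal_mul (by positivity)]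
    refine ENNReal.ofReal_le_ofReal ?_
    have h2 : ((k₀ : ℝ) + 1) / (((n / D : ℕ) : ℝ) + 1) ≤ ((k₀ : ℝ) + 1) * D / ((n : ℝ) + 1) := by
      rw [div_le_div_iff₀ (by positivity) hn0]
      have h3 : n + 1 ≤ D * (n / D + 1) := by
        have := Nat.lt_mul_div_succ n (by omega : 0 < D)
        omega
      have h4 : (n : ℝ) + 1 ≤ D * (((n / D : ℕ) : ℝ) + 1) := by exact_mod_cast h3
      have h5 : (0 : ℝ) ≤ (k₀ : ℝ) + 1 := by positivity
      nlinarith [mul_le_mul_of_nonneg_left h4 h5]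
    have h3 : (((C2 * (n + 1) + 1 : ℕ)) : ℝ) ≤ ((C2 : ℝ) + 1) * ((n : ℝ) + 1) := by
      push_cast
      have := Nat.cast_nonneg (α := ℝ) n
      nlinarith
    calc (((C2 * (n + 1) + 1 : ℕ)) : ℝ) * (4 * (((k₀ : ℝ) + 1) / (((n / D : ℕ) : ℝ) + 1)) ^ 3)
        ≤ ((C2 : ℝ) + 1) * ((n : ℝ) + 1) * (4 * (((k₀ : ℝ) + 1) * D / ((n : ℝ) + 1)) ^ 3) := by gcongr
      _ = C3 * (1 / ((n : ℝ) + 1) ^ 2) := by
        rw [hC3, div_pow]
        field_simp
  have hsum : ∑' n, μ (E n) ≠ ⊤ := by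
    refine ne_top_of_le_ne_top ?_ (ENNReal.tsum_le_tsum hEm)
    have hs : Summable fun n : ℕ => C3 * (1 / ((n : ℝ) + 1) ^ 2) := by
      refine Summable.mul_left _ ?_
      have h5 := (summable_nat_add_iff 1).2 (Real.summable_one_div_nat_pow.2 (by norm_num : 1 < 2))
      refine h5.congr fun j => ?_
      push_cast; rfl
    exact hs.tsum_ofReal_ne_top
  have hBC := ae_eventually_notMem hsum
  filter_upwards [hirr, hBC] with ω hω1 hω2
  refine ⟨hω1, ?_⟩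
  obtain ⟨n1, hn1⟩ := eventually_atTop.1 hω2
  have hX := XI_mem hβ0.le hβ1 0 (cf ξ ω)
  have hL : y0 ≤ y0 + d * XI (bi b) 0 (cf ξ ω) := by
    have := mul_nonneg hd.le hX.1
    linarith
  -- thresholds
  obtain ⟨n2, hn2⟩ : ∃ n2 : ℕ, ∀ n, n2 ≤ n → 4 ≤ a ^ n := by
    obtain ⟨n2, hn2⟩ := pow_unbounded_of_one_lt (4 : ℝ) ha
    exact ⟨n2, fun n hn => hn2.le.trans (pow_le_pow_right₀ ha.le hn)⟩
  obtain ⟨n3, hn3⟩ : ∃ n3 : ℕ, ∀ n, n3 ≤ n → 2 / d ≤ (b : ℝ) ^ (n / D) := by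
    obtain ⟨K, hK⟩ := pow_unbounded_of_one_lt (2 / d) (by linarith : (1 : ℝ) < b)
    refine ⟨D * K, fun n hn => hK.le.trans (pow_le_pow_right₀ (by linarith) ?_)⟩
    exact (Nat.le_div_iff_mul_le (by omega)).2 (by rw [mul_comm]; exact hn)
  obtain ⟨n4, hn4⟩ : ∃ n4, n4 = n1 + n2 + n3 := ⟨_, rfl⟩
  have hmle : ∀ n m : ℕ, |a ^ n - Real.exp (y0 + d * XI (bi b) 0 (cf ξ ω)) ^ m| ^ 2 < a ^ n → m ≤ C2 * (n + 1) := by
    intro n m h
    have h1 := ss_m_le ha hy hL h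
    have h2 : (m : ℝ) ≤ C2 * ((n : ℝ) + 1) := h1.trans (mul_le_mul_of_nonneg_right hC2 (by positivity))
    exact_mod_cast h2
  refine ((Set.finite_Iio n4).prod (Set.finite_Iic (C2 * (n4 + 1)))).subset ?_
  rintro ⟨n, m⟩ ⟨-, h⟩
  have h' : |a ^ n - Real.exp (y0 + d * XI (bi b) 0 (cf ξ ω)) ^ m| ^ 2 < a ^ n := h
  have hm2 := hmle n m h'
  have hn5 : n < n4 := by
    by_contra hcon
    push Not at hcon
    refine hn1 n (by omega) ?_
    rw [hE]
    simp only [Set.mem_iUnion, mem_range]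
    refine ⟨m, by omega, ?_⟩
    exact ss_ball hb ha hd hD (hn2 n (by omega)) (hn3 n (by omega)) h'
  exact ⟨hn5, hm2.trans (Nat.mul_le_mul_left _ (by omega))⟩

end

/-- the asymptotic formula from finitely many near misses -/
theorem formula_of {a b : ℝ} (ha : 1 < a) (hb : 1 < b) (hirr : Irrational (Real.log a / Real.log b)) (hS : (SS a b).Finite) :
    ∃ C : ℝ, ∀ x : ℝ, 2 ≤ x → (NS a b x).Finite ∧
      |((NS a b x).ncard : ℝ) - Real.log x ^ 2 / (Real.log a * Real.log b)| ≤ C * Real.log x := by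
  have hSX : ∀ x, SX a b x ⊆ SS a b := fun x p hp => hp.1
  obtain ⟨C, hC⟩ := Pool.Agent.H491R3.PE.countS ha hb hirr fun x => hS.subset (hSX x)
  refine ⟨C + (SS a b).ncard / Real.log 2, fun x hx => ?_⟩
  obtain ⟨h1, h2⟩ := hC x hx
  refine ⟨h1, ?_⟩
  have h3 : ((SX a b x).ncard : ℝ) ≤ (SS a b).ncard := by exact_mod_cast Set.ncard_le_ncard (hSX x) hS
  have hl2 : 0 < Real.log 2 := Real.log_pos (by norm_num)
  have hlx : Real.log 2 ≤ Real.log x := Real.log_le_log (by norm_num) hx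
  have h4 : ((SS a b).ncard : ℝ) ≤ (SS a b).ncard / Real.log 2 * Real.log x := by
    rw [div_mul_eq_mul_div, le_div_iff₀ hl2]
    exact mul_le_mul_of_nonneg_left hlx (Nat.cast_nonneg _)
  have h5 : (0 : ℝ) ≤ (SX a b x).ncard := Nat.cast_nonneg _
  rw [add_mul, abs_le]
  rw [abs_le] at h2
  constructor <;> linarith [h2.1, h2.2]

end Pool.Agent.Run7.h17.Dig
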