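import Pool.Agent.Run7.h17.Dig8
import Pool.Agent.Run7.h17.Dig5
import Pool.Agent.Run7.h17.Sparse6

/-!
# Near coincidences for random sparse bases: deterministic version
-/

set_option autoImplicit false

namespace Pool.Agent.Run7.h17.Dig

open MeasureTheory ProbabilityTheory Finset Filter Topology
open Pool.Agent.Run7.h17.Sparse
open Pool.Agent.H491R3.PE (SS SX NS)

section
variable {Ω : Type*} [MeasurableSpace Ω] {μ : Measure Ω} {ξ : ℕ → Ω → Bool}

theorem formula_as [IsProbabilityMeasure μ] (hm : ∀ k, Measurable (ξ k)) (hi : iIndepFun ξ μ) {b : ℕ} (hb : 2 ≤ b)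
    {k₀ : ℕ} (hp : ∀ k : ℕ, k₀ ≤ k → 3 / ((k : ℝ) + 1) ≤ pr μ ξ k ∧ pr μ ξ k ≤ 1 - 3 / ((k : ℝ) + 1))
    {a y0 d : ℝ} (ha : 1 < a) (hy : 0 < y0) (hd : 0 < d) :
    ∀ᵐ ω ∂μ, ∃ C : ℝ, ∀ x : ℝ, 2 ≤ x → (NS a (Real.exp (y0 + d * XI (bi b) 0 (cf ξ ω))) x).Finite ∧
      |((NS a (Real.exp (y0 + d * XI (bi b) 0 (cf ξ ω))) x).ncard : ℝ) -
        Real.log x ^ 2 / (Real.log a * (y0 + d * XI (bi b) 0 (cf ξ ω)))| ≤ C * Real.log x := by
  filter_upwards [near_as (μ := μ) hm hi hb hp ha hy hd] with ω hω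
  have hX := XI_mem (bi_pos hb).le (bi_le hb) 0 (cf ξ ω)
  have hL : 0 < y0 + d * XI (bi b) 0 (cf ξ ω) := by
    have := mul_nonneg hd.le hX.1
    linarith
  have h1 := formula_of ha (Real.one_lt_exp_iff.2 hL) (by rw [Real.log_exp]; exact hω.1) hω.2
  rw [Real.log_exp] at h1
  exact h1

end

theorem formula_det {b : ℕ} (hb : 2 ≤ b) {a y0 d : ℝ} (ha : 1 < a) (hy : 0 < y0) (hd : 0 < d) {ε : ℝ} (hε : 0 < ε) :
    ∃ x : Cfg, (∃ C : ℝ, ∀ N : ℕ, 1 ≤ N → (((range N).filter fun k => x k = true).card : ℝ) ≤ C * (N : ℝ) ^ ε) ∧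
      ∃ C : ℝ, ∀ X : ℝ, 2 ≤ X → (NS a (Real.exp (y0 + d * XI (bi b) 0 x)) X).Finite ∧
      |((NS a (Real.exp (y0 + d * XI (bi b) 0 x)) X).ncard : ℝ) -
        Real.log X ^ 2 / (Real.log a * (y0 + d * XI (bi b) 0 x))| ≤ C * Real.log X := by
  classical
  obtain ⟨p, hp⟩ : ∃ p : ℕ → ℝ, ∀ k, p k = min (1 / 2) (3 / ((k : ℝ) + 1)) := ⟨_, fun _ => rfl⟩
  have hpk : ∀ k : ℕ, 0 ≤ p k ∧ p k ≤ 1 / 2 := by
    intro k
    rw [hp]
    exact ⟨le_min (by norm_num) (by positivity), min_le_left _ _⟩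
  have hprob : ∀ k, IsProbabilityMeasure (bit (p k)) := fun k => bit_prob (hpk k).1 (by linarith [(hpk k).2])
  let μ : Measure (ℕ → Bool) := Measure.infinitePi fun k => bit (p k)
  let ξ : ℕ → (ℕ → Bool) → Bool := fun k ω => ω k
  have hm : ∀ k, Measurable (ξ k) := fun k => measurable_pi_apply k
  have hi : iIndepFun ξ μ := iIndepFun_infinitePi (X := fun _ b => b) (fun _ => measurable_id)
  have hprk : ∀ k : ℕ, pr μ ξ k = p k := by
    intro k
    have h1 : {ω : ℕ → Bool | ξ k ω = true} = (fun ω : ℕ → Bool => ω k) ⁻¹' {true} := by ext ω; simp [ξ]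
    have h2 := Measure.infinitePi_map_eval (μ := fun k => bit (p k)) k
    have h3 : μ {ω | ξ k ω = true} = ENNReal.ofReal (p k) := by
      rw [h1, ← Measure.map_apply (measurable_pi_apply k) (measurableSet_singleton _), h2, bit_true]
    unfold pr
    rw [Measure.real, h3, ENNReal.toReal_ofReal (hpk k).1]
  have h1 := formula_as (μ := μ) hm hi hb (k₀ := 5) (fun k hk => by
    rw [hprk, hp]
    have hk5 : (5 : ℝ) ≤ k := by exact_mod_cast hk
    have h3 : 3 / ((k : ℝ) + 1) ≤ 1 / 2 := by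
      rw [div_le_div_iff₀ (by linarith) (by norm_num)]
      linarith
    rw [min_eq_right h3]
    constructor
    · exact le_rfl
    · linarith) ha hy hd
  have h2 := count_as (μ := μ) hm (A' := 3) (c := 1 - ε / 2) (ε := ε / 2) (by linarith) (by linarith) (fun k => by
    rw [hprk, hp]
    refine (min_le_right _ _).trans ?_
    rw [div_eq_mul_inv]
    refine mul_le_mul_of_nonneg_left ?_ (by norm_num)
    rw [← Real.rpow_neg_one]
    refine Real.rpow_le_rpow_of_exponent_le ?_ (by linarith)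
    have := Nat.cast_nonneg (α := ℝ) k
    linarith)
  obtain ⟨ω, hω1, C, hC⟩ := (h1.and h2).exists
  refine ⟨cf ξ ω, ⟨C, fun N hN => ?_⟩, hω1⟩
  have h3 := hC N hN
  have e : 1 - (1 - ε / 2) + ε / 2 = ε := by ring
  rw [e] at h3
  exact h3

end Pool.Agent.Run7.h17.Dig
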