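import Mathlib
import Pool.Agent.Run7.h17.Fixed
import Pool.Agent.Run7.h17.Coprime

/-! Correlations of the Liouville function at almost all scales in the classes of individual moduli. -/

set_option autoImplicit false

namespace Pool.Agent.Run7.h17.Fx

open Finset Filter
open Pool.Agent.Helper112
open Pool.Agent.Y958.U (LZ)
open Pool.Agent.Run7.h17.BDH (cs FF copr1)

/-- few pairwise coprime bad moduli -/
theorem copr_main : ∃ E : Set ℕ, LZ E ∧ ∀ (k : ℕ) (a b : Fin k → ℕ) (ε : ℝ), 0 < ε →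
    ∃ K : ℕ, ∀ N : ℕ, K ≤ N → N ∉ E → ∀ γ : ℝ, Adm k a b γ → ∀ Q : ℕ, K * Q ≤ N → ∀ M : Finset ℕ,
      (∀ q ∈ M, 1 ≤ q ∧ q ≤ Q) → (∀ q ∈ M, ∀ q' ∈ M, q ≠ q' → Nat.Coprime q q') →
      (∀ q ∈ M, ∃ Y : ℕ → ℕ, (∀ c, Y c ≤ N) ∧ ε * N < ∑ c ∈ range q, ‖cs (fg k a b γ) q c (Y c)‖) →
      (M.card : ℝ) ≤ K * (1 + (Q : ℝ) ^ 2 / N) := by
  obtain ⟨E, hE, h1⟩ := one_E
  refine ⟨E, hE, fun k a b ε hε => ?_⟩
  obtain ⟨K, κ, hK, hκ, hB⟩ := copr1 ε hε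
  obtain ⟨K₁, hK₁⟩ := h1 k a b κ hκ
  refine ⟨K + K₁, fun N hN hNE γ hγ Q hQ M hM hc hbad => ?_⟩
  have h2 := hB N (by omega) (fg k a b γ) (fg_norm k a b γ) (fun y hy => by
    have h3 := hK₁ N (by omega) hNE γ hγ y hy
    refine le_trans (le_of_eq ?_) h3
    unfold S FF fg
    congr 1
    refine sum_congr rfl fun n _ => ?_
    rw [mul_zero, ls_ee_zero, mul_one]) Q (le_trans (Nat.mul_le_mul_right Q (by omega)) hQ) M hM hc hbad
  refine h2.trans ?_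
  have h4 : (0 : ℝ) ≤ 1 + (Q : ℝ) ^ 2 / N := by positivity
  apply mul_le_mul_of_nonneg_right _ h4
  push_cast
  have : (0 : ℝ) ≤ K₁ := Nat.cast_nonneg _
  linarith

end Pool.Agent.Run7.h17.Fx
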