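import Mathlib

/-!
# Random sparse changes: averaging over one coordinate
-/

set_option autoImplicit false

namespace Pool.Agent.Run7.h17.Sparse

open MeasureTheory ProbabilityTheory Finset Filter Topology

/-- configurations -/
abbrev Cfg := ℕ → Bool

/-- set the coordinate `k` to `b` -/
def st (x : Cfg) (k : ℕ) (b : Bool) : Cfg := Function.update x k b

/-- `f` depends only on the coordinates `< N` -/
def Loc {β : Type*} (N : ℕ) (f : Cfg → β) : Prop := ∀ x y : Cfg, (∀ k < N, x k = y k) → f x = f y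

lemma st_same (x : Cfg) (k : ℕ) (b : Bool) : st x k b k = b := by simp [st]

lemma st_ne (x : Cfg) {k j : ℕ} (h : j ≠ k) (b : Bool) : st x k b j = x j := by simp [st, h]

lemma st_st (x : Cfg) (k : ℕ) (b c : Bool) : st (st x k b) k c = st x k c := by simp [st]

lemma st_self (x : Cfg) (k : ℕ) : st x k (x k) = x := by simp [st]

lemma Loc.mono {β : Type*} {N M : ℕ} {f : Cfg → β} (h : Loc N f) (hNM : N ≤ M) : Loc M f :=
  fun x y hxy => h x y fun k hk => hxy k (by omega)

lemma Loc.st {β : Type*} {N : ℕ} {f : Cfg → β} (h : Loc N f) {k : ℕ} (hk : N ≤ k) (x : Cfg) (b : Bool) :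
    f (st x k b) = f x := h _ _ fun j hj => st_ne x (by omega) b

/-- average over the coordinate `k` -/
noncomputable def av {E : Type*} [AddCommGroup E] [Module ℝ E] (p : ℕ → ℝ) (k : ℕ) (f : Cfg → E) (x : Cfg) : E :=
  (1 - p k) • f (st x k false) + p k • f (st x k true)

section
variable {Ω : Type*} [MeasurableSpace Ω] {μ : Measure Ω} {ξ : ℕ → Ω → Bool}

/-- the configuration of `ω` -/
def cf (ξ : ℕ → Ω → Bool) (ω : Ω) : Cfg := fun j => ξ j ω

omit [MeasurableSpace Ω] in
/-- local functions are functions of a finite tuple -/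
lemma loc_factor {E : Type*} {f : Cfg → E} (S : Finset ℕ)
    (hS : ∀ x y : Cfg, (∀ k ∈ S, x k = y k) → f x = f y) :
    ∃ G : (S → Bool) → E, ∀ ω, f (cf ξ ω) = G (fun i : S => ξ i ω) := by
  classical
  refine ⟨fun t => f (fun j => if h : j ∈ S then t ⟨j, h⟩ else false), fun ω => hS _ _ fun k hk => ?_⟩
  simp [cf, hk]

lemma meas_loc {E : Type*} [MeasurableSpace E] {N : ℕ} {f : Cfg → E} (hf : Loc N f)
    (hm : ∀ k, Measurable (ξ k)) : Measurable fun ω => f (cf ξ ω) := by
  obtain ⟨G, hG⟩ := loc_factor (ξ := ξ) (f := f) (range N) fun x y h => hf x y fun k hk => h k (mem_range.2 hk)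
  have e : (fun ω => f (cf ξ ω)) = G ∘ fun ω => fun i : ↥(range N) => ξ i ω := by
    funext ω; exact hG ω
  rw [e]
  exact (measurable_of_finite G).comp (measurable_pi_lambda _ fun i => hm i)

lemma bdd_loc {E : Type*} [NormedAddCommGroup E] {N : ℕ} {f : Cfg → E} (hf : Loc N f) :
    ∃ C : ℝ, ∀ x, ‖f x‖ ≤ C := by
  classical
  let G : (↥(range N) → Bool) → E := fun t => f (fun j => if h : j ∈ range N then t ⟨j, h⟩ else false)
  obtain ⟨C, hC⟩ := (Set.finite_range fun t => ‖G t‖).bddAbove
  refine ⟨C, fun x => ?_⟩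
  have h : f x = G (fun i => x i) := by
    refine hf _ _ fun k hk => ?_
    simp [mem_range.2 hk]
  rw [h]
  exact hC (Set.mem_range_self (f := fun t => ‖G t‖) (fun i : ↥(range N) => x i))

lemma int_loc [IsProbabilityMeasure μ] {E : Type*} [NormedAddCommGroup E] [MeasurableSpace E] [BorelSpace E]
    [SecondCountableTopology E] {N : ℕ} {f : Cfg → E} (hf : Loc N f)
    (hm : ∀ k, Measurable (ξ k)) : Integrable (fun ω => f (cf ξ ω)) μ := by
  obtain ⟨C, hC⟩ := bdd_loc hf
  exact Integrable.of_bound (meas_loc hf hm).aestronglyMeasurable C (Eventually.of_forall fun ω => hC _)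

lemma av_loc {E : Type*} [AddCommGroup E] [Module ℝ E] {N : ℕ} {f : Cfg → E} (hf : Loc N f) (p : ℕ → ℝ) (k : ℕ) :
    Loc N (av p k f) := by
  intro x y h
  unfold av
  have : ∀ b, f (Sparse.st x k b) = f (Sparse.st y k b) := fun b => hf _ _ fun j hj => by
    by_cases hjk : j = k
    · subst hjk; rw [st_same, st_same]
    · rw [st_ne x hjk, st_ne y hjk, h j hj]
  rw [this, this]

/-- the probabilities -/
noncomputable def pr (μ : Measure Ω) (ξ : ℕ → Ω → Bool) (k : ℕ) : ℝ := μ.real {ω | ξ k ω = true}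

theorem integral_av [IsProbabilityMeasure μ] (hm : ∀ k, Measurable (ξ k)) (hi : iIndepFun ξ μ)
    {E : Type*} [NormedAddCommGroup E] [NormedSpace ℝ E] [MeasurableSpace E] [BorelSpace E]
    [SecondCountableTopology E] {N : ℕ} (k : ℕ) {f : Cfg → E} (hf : Loc N f) :
    ∫ ω, f (cf ξ ω) ∂μ = ∫ ω, av (pr μ ξ) k f (cf ξ ω) ∂μ := by
  classical
  -- for each value b
  have key : ∀ b : Bool, ∫ ω, (if ξ k ω = b then (1 : ℝ) else 0) • f (st (cf ξ ω) k b) ∂μ =
      (∫ ω, (if ξ k ω = b then (1 : ℝ) else 0) ∂μ) • ∫ ω, f (st (cf ξ ω) k b) ∂μ := by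
    intro b
    obtain ⟨G, hG⟩ := loc_factor (ξ := ξ) (f := fun x => f (st x k b)) ((range N).erase k) (fun x y h => by
      refine hf _ _ fun j hj => ?_
      by_cases hjk : j = k
      · subst hjk; rw [st_same, st_same]
      · rw [st_ne x hjk, st_ne y hjk]
        exact h j (mem_erase.2 ⟨hjk, mem_range.2 hj⟩))
    have hind := hi.indepFun_finset {k} ((range N).erase k) (by simp) hm
    have hind2 := hind.comp (φ := fun t : (↥({k} : Finset ℕ) → Bool) => if t ⟨k, by simp⟩ = b then (1 : ℝ) else 0)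
      (ψ := G) (measurable_of_finite _) (measurable_of_finite _)
    have h3 := hind2.integral_fun_smul_eq_smul_integral
      ((measurable_of_finite _).comp (measurable_pi_lambda (fun ω (i : ↥({k} : Finset ℕ)) => ξ i ω) fun i => hm i)).aestronglyMeasurable
      ((measurable_of_finite G).comp (measurable_pi_lambda (fun ω (i : ↥((range N).erase k)) => ξ i ω) fun i => hm i)).aestronglyMeasurable
    simp only [Function.comp_def] at h3
    simpa only [← hG] using h3
  have hpt : ∫ ω, (if ξ k ω = true then (1 : ℝ) else 0) ∂μ = pr μ ξ k := by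
    have e : (fun ω => (if ξ k ω = true then (1 : ℝ) else 0)) = Set.indicator {ω | ξ k ω = true} (fun _ => (1 : ℝ)) := by
      funext ω; simp [Set.indicator]
    rw [e, integral_indicator (measurableSet_eq_fun (hm k) measurable_const)]
    simp [pr]
  have hpf : ∫ ω, (if ξ k ω = false then (1 : ℝ) else 0) ∂μ = 1 - pr μ ξ k := by
    have e : (fun ω => (if ξ k ω = false then (1 : ℝ) else 0)) = fun ω => 1 - (if ξ k ω = true then (1 : ℝ) else 0) := by
      funext ω
      cases ξ k ω <;> simp
    rw [e, integral_sub (integrable_const _), hpt]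
    · simp
    · have := int_loc (μ := μ) (ξ := ξ) (N := k + 1) (f := fun x : Cfg => if x k = true then (1 : ℝ) else 0)
        (fun x y h => by simp [h k (by omega)]) hm
      simp only [cf] at this
      exact this
  have hsplit : ∀ ω, f (cf ξ ω) = (if ξ k ω = false then (1 : ℝ) else 0) • f (st (cf ξ ω) k false) +
      (if ξ k ω = true then (1 : ℝ) else 0) • f (st (cf ξ ω) k true) := by
    intro ω
    have h := st_self (cf ξ ω) k
    have h2 : cf ξ ω k = ξ k ω := rfl
    rw [h2] at h
    cases hb : ξ k ω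
    · rw [hb] at h
      simp [h]
    · rw [hb] at h
      simp [h]
  have hloc : ∀ b : Bool, Loc N fun x => f (st x k b) := by
    intro b x y h
    exact hf _ _ fun j hj => by
      by_cases hjk : j = k
      · subst hjk; rw [st_same, st_same]
      · rw [st_ne x hjk, st_ne y hjk, h j hj]
  have hloc2 : ∀ b : Bool, Loc (max N (k + 1)) fun x : Cfg => (if x k = b then (1 : ℝ) else 0) • f (st x k b) := by
    intro b x y h
    have e1 : f (st x k b) = f (st y k b) := (hloc b) x y fun j hj => h j (by omega)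
    have e2 : x k = y k := h k (by omega)
    simp only [e1, e2]
  have hI : ∀ b : Bool, Integrable (fun ω => (if ξ k ω = b then (1 : ℝ) else 0) • f (st (cf ξ ω) k b)) μ :=
    fun b => int_loc (hloc2 b) hm
  have hI2 : ∀ b : Bool, Integrable (fun ω => f (st (cf ξ ω) k b)) μ := fun b =>
    int_loc (f := fun x => f (st x k b)) (hloc b) hm
  calc ∫ ω, f (cf ξ ω) ∂μ = ∫ ω, ((if ξ k ω = false then (1 : ℝ) else 0) • f (st (cf ξ ω) k false) +
      (if ξ k ω = true then (1 : ℝ) else 0) • f (st (cf ξ ω) k true)) ∂μ := by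
        congr 1; funext ω; exact hsplit ω
    _ = (1 - pr μ ξ k) • ∫ ω, f (st (cf ξ ω) k false) ∂μ + pr μ ξ k • ∫ ω, f (st (cf ξ ω) k true) ∂μ := by
        rw [integral_add (hI false) (hI true), key false, key true, hpt, hpf]
    _ = ∫ ω, av (pr μ ξ) k f (cf ξ ω) ∂μ := by
        have h1 := integral_add (μ := μ) (f := fun ω => (1 - pr μ ξ k) • f (st (cf ξ ω) k false))
          (g := fun ω => pr μ ξ k • f (st (cf ξ ω) k true)) ((hI2 false).smul _) ((hI2 true).smul _)
        unfold av
        rw [h1, integral_smul, integral_smul]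

end

end Pool.Agent.Run7.h17.Sparse
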