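import Pool.Agent.Run7.h17.Sparse1

/-!
# Random sparse changes: pair correlations
-/

set_option autoImplicit false

namespace Pool.Agent.Run7.h17.Sparse

open MeasureTheory ProbabilityTheory Finset Filter Topology

/-- the abstract process: `f n x` is a root of unity, depends on the coordinates `≤ n + L`, and a change of one
coordinate multiplies it by an earlier value -/
structure Proc (L : ℕ) (κ : ℝ) (sg : ℕ → Bool) (f : ℕ → Cfg → ℂ) : Prop where
  loc : ∀ n, Loc (n + L + 1) (f n)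
  norm : ∀ n x, ‖f n x‖ = 1
  gap : ∀ n x, f n x ≠ 1 → (f n x).re ≤ 1 - 2 * κ
  tog : ∀ n k x, n + L < 2 * k → k ≤ n →
    f n (st x k true) = f n (st x k false) * (if sg k then f (n - k) x else star (f (n - k) x))
  top : ∀ n x, 0 < n → f n (st x (n + L) true) ≠ f n (st x (n + L) false)

/-- the factor -/
noncomputable def zf (sg : ℕ → Bool) (f : ℕ → Cfg → ℂ) (m k : ℕ) (x : Cfg) : ℂ :=
  if sg k then f (m - k) x else star (f (m - k) x)

lemma zf_loc {L : ℕ} {κ : ℝ} {sg : ℕ → Bool} {f : ℕ → Cfg → ℂ} (hf : Proc L κ sg f) (m k : ℕ) :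
    Loc (m - k + L + 1) (zf sg f m k) := by
  intro x y h
  unfold zf
  rw [hf.loc (m - k) x y h]

/-- number of the `j < H` with `f j x ≠ 1` -/
noncomputable def cnt (f : ℕ → Cfg → ℂ) (H : ℕ) (x : Cfg) : ℝ :=
  ∑ j ∈ range H, if f j x = 1 then (0 : ℝ) else 1

lemma cnt_loc {L : ℕ} {κ : ℝ} {sg : ℕ → Bool} {f : ℕ → Cfg → ℂ} (hf : Proc L κ sg f) (H : ℕ) :
    Loc (H + L) (cnt f H) := by
  intro x y h
  unfold cnt
  refine sum_congr rfl fun j hj => ?_
  rw [mem_range] at hj
  rw [hf.loc j x y fun k hk => h k (by omega)]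

lemma cnt_mono (f : ℕ → Cfg → ℂ) {H K : ℕ} (h : H ≤ K) (x : Cfg) : cnt f H x ≤ cnt f K x := by
  unfold cnt
  refine sum_le_sum_of_subset_of_nonneg (range_subset_range.2 h) fun j _ _ => ?_
  split_ifs <;> norm_num

lemma norm_mix {z : ℂ} (hz : ‖z‖ = 1) {p : ℝ} (h0 : 0 ≤ p) (h1 : p ≤ 1) :
    ‖((1 - p : ℝ) : ℂ) + (p : ℂ) * z‖ ≤ 1 := by
  refine (norm_add_le _ _).trans ?_
  rw [norm_mul, hz, Complex.norm_real, Complex.norm_real, Real.norm_eq_abs, Real.norm_eq_abs,
    abs_of_nonneg h0, abs_of_nonneg (by linarith)]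
  linarith

lemma norm_mix_gap {z : ℂ} (hz : ‖z‖ = 1) {κ δ p : ℝ} (hκ : 0 ≤ κ) (hre : z.re ≤ 1 - 2 * κ) (hδ : 0 ≤ δ) (h0 : δ ≤ p) (h1 : p ≤ 1 - δ) :
    ‖((1 - p : ℝ) : ℂ) + (p : ℂ) * z‖ ≤ Real.exp (-(κ * δ)) := by
  have hsq : ‖((1 - p : ℝ) : ℂ) + (p : ℂ) * z‖ ^ 2 ≤ (Real.exp (-(κ * δ))) ^ 2 := by
    have h2 : ‖((1 - p : ℝ) : ℂ) + (p : ℂ) * z‖ ^ 2 = (1 - p) ^ 2 + p ^ 2 + 2 * p * (1 - p) * z.re := by
      have hz2 : z.re ^ 2 + z.im ^ 2 = 1 := by
        have := Complex.sq_norm z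
        rw [hz, Complex.normSq_apply] at this
        nlinarith
      rw [Complex.sq_norm, Complex.normSq_apply]
      simp only [Complex.add_re, Complex.ofReal_re, Complex.mul_re, Complex.ofReal_im, zero_mul, sub_zero,
        Complex.add_im, Complex.mul_im, zero_add, add_zero]
      nlinarith [hz2]
    have h3 : (1 - p) ^ 2 + p ^ 2 + 2 * p * (1 - p) * z.re ≤ 1 - 2 * (κ * δ) := by
      have h4 : 0 ≤ 2 * p * (1 - p) := by
        have : 0 ≤ 1 - p := by linarith
        have : 0 ≤ p := by linarith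
        positivity
      have h5 : 2 * p * (1 - p) * z.re ≤ 2 * p * (1 - p) * (1 - 2 * κ) := mul_le_mul_of_nonneg_left hre h4
      have h6 : δ / 2 ≤ p * (1 - p) := by
        rcases le_total p (1 / 2) with h | h
        · nlinarith
        · nlinarith
      nlinarith [mul_le_mul_of_nonneg_left h6 hκ]
    have h7 : 1 - 2 * (κ * δ) ≤ (Real.exp (-(κ * δ))) ^ 2 := by
      rw [← Real.exp_nat_mul]
      have := Real.add_one_le_exp (((2 : ℕ) : ℝ) * -(κ * δ))
      push_cast at this ⊢
      linarith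
    linarith
  exact (pow_le_pow_iff_left₀ (norm_nonneg _) (Real.exp_pos _).le two_ne_zero).1 hsq

section
variable {Ω : Type*} [MeasurableSpace Ω] {μ : Measure Ω} {ξ : ℕ → Ω → Bool}

lemma pr_nonneg (μ : Measure Ω) (ξ : ℕ → Ω → Bool) (k : ℕ) : 0 ≤ pr μ ξ k := measureReal_nonneg

lemma pr_le_one [IsProbabilityMeasure μ] (ξ : ℕ → Ω → Bool) (k : ℕ) : pr μ ξ k ≤ 1 := measureReal_le_one

/-- the coordinates in `(m - t, m]` set to `false` -/
def zr (m t : ℕ) (x : Cfg) : Cfg := fun j => if m - t < j ∧ j ≤ m then false else x j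

/-- **Peeling.** -/
theorem peel [IsProbabilityMeasure μ] (hm : ∀ k, Measurable (ξ k)) (hi : iIndepFun ξ μ) {L : ℕ} {κ : ℝ}
    {sg : ℕ → Bool} {f : ℕ → Cfg → ℂ} (hf : Proc L κ sg f) (n m k₀ : ℕ) (h1 : n + L ≤ k₀) (h2 : m + L ≤ 2 * k₀ + 1)
    (hk : k₀ ≤ m) (t : ℕ) (ht : t ≤ m - k₀) :
    ∫ ω, f m (cf ξ ω) * star (f n (cf ξ ω)) ∂μ =
      ∫ ω, f m (zr m t (cf ξ ω)) * star (f n (cf ξ ω)) *
        ∏ j ∈ range t, (((1 - pr μ ξ (m - j) : ℝ) : ℂ) + (pr μ ξ (m - j) : ℂ) * zf sg f m (m - j) (cf ξ ω)) ∂μ := by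
  induction t with
  | zero =>
    have e : ∀ x, zr m 0 x = x := by
      intro x; funext j; unfold zr
      rw [if_neg (by omega)]
    simp [e]
  | succ t IH =>
    rw [IH (by omega)]
    -- the function
    have hloc : Loc (m + L + 1) fun x : Cfg => f m (zr m t x) * star (f n x) *
        ∏ j ∈ range t, (((1 - pr μ ξ (m - j) : ℝ) : ℂ) + (pr μ ξ (m - j) : ℂ) * zf sg f m (m - j) x) := by
      intro x y h
      have e1 : f m (zr m t x) = f m (zr m t y) := by
        refine hf.loc m _ _ fun k hk => ?_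
        unfold zr
        split_ifs with h3
        · rfl
        · exact h k hk
      have e2 : f n x = f n y := hf.loc n x y fun k hk => h k (by omega)
      have e3 : ∀ j ∈ range t, zf sg f m (m - j) x = zf sg f m (m - j) y := by
        intro j hj
        rw [mem_range] at hj
        exact zf_loc hf m (m - j) x y fun k hk => h k (by omega)
      simp only [e1, e2]
      congr 1
      exact prod_congr rfl fun j hj => by rw [e3 j hj]
    rw [integral_av hm hi (m - t) hloc]
    congr 1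
    funext ω
    obtain ⟨x, hx⟩ : ∃ x, x = cf ξ ω := ⟨_, rfl⟩
    rw [← hx]
    unfold av
    have e1 : ∀ b, zr m t (st x (m - t) b) = st (zr m t x) (m - t) b := by
      intro b; funext j
      unfold zr
      by_cases hj : j = m - t
      · subst hj
        rw [st_same, if_neg (by omega), st_same]
      · rw [st_ne _ hj, st_ne _ hj]
    have e2 : ∀ b, f n (st x (m - t) b) = f n x := fun b => (hf.loc n).st (by omega) x b
    have e3 : ∀ b, ∏ j ∈ range t, (((1 - pr μ ξ (m - j) : ℝ) : ℂ) + (pr μ ξ (m - j) : ℂ) * zf sg f m (m - j) (st x (m - t) b)) =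
        ∏ j ∈ range t, (((1 - pr μ ξ (m - j) : ℝ) : ℂ) + (pr μ ξ (m - j) : ℂ) * zf sg f m (m - j) x) := by
      intro b
      refine prod_congr rfl fun j hj => ?_
      rw [mem_range] at hj
      rw [(zf_loc hf m (m - j)).st (by omega) x b]
    have e4 : f m (st (zr m t x) (m - t) true) = f m (st (zr m t x) (m - t) false) * zf sg f m (m - t) x := by
      rw [hf.tog m (m - t) (zr m t x) (by omega) (by omega)]
      congr 1
      change zf sg f m (m - t) (zr m t x) = zf sg f m (m - t) x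
      refine zf_loc hf m (m - t) _ _ fun k hk => ?_
      unfold zr
      rw [if_neg (by omega)]
    have e5 : zr m (t + 1) x = st (zr m t x) (m - t) false := by
      funext j
      unfold zr
      by_cases hj : j = m - t
      · subst hj
        rw [st_same, if_pos (by omega)]
      · rw [st_ne _ hj]
        by_cases h3 : m - t < j ∧ j ≤ m
        · rw [if_pos h3, if_pos (by omega)]
        · rw [if_neg h3, if_neg (by omega)]
    beta_reduce
    rw [e1, e1, e2, e2, e3, e3, e4, e5, prod_range_succ]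
    simp only [Complex.real_smul]
    push_cast
    ring

/-- the pair correlation is at most an exponential moment of `cnt` -/
theorem pair_le [IsProbabilityMeasure μ] (hm : ∀ k, Measurable (ξ k)) (hi : iIndepFun ξ μ) {L : ℕ} {κ : ℝ} (hκ : 0 ≤ κ)
    {sg : ℕ → Bool} {f : ℕ → Cfg → ℂ} (hf : Proc L κ sg f) (n m k₀ H : ℕ) (h1 : n + L ≤ k₀) (h2 : m + L ≤ 2 * k₀ + 1)
    (hk : k₀ ≤ m) (hH : H ≤ m - k₀) {δ : ℝ} (hδ : 0 ≤ δ) (hp : ∀ k, k₀ < k → k ≤ m → δ ≤ pr μ ξ k ∧ pr μ ξ k ≤ 1 - δ) :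
    ‖∫ ω, f m (cf ξ ω) * star (f n (cf ξ ω)) ∂μ‖ ≤ ∫ ω, Real.exp (-(κ * δ) * cnt f H (cf ξ ω)) ∂μ := by
  rw [peel hm hi hf n m k₀ h1 h2 hk (m - k₀) le_rfl]
  have hloc : Loc (m + L + 1) fun x : Cfg => Real.exp (-(κ * δ) * cnt f H x) := by
    intro x y h
    simp only
    rw [cnt_loc hf H x y fun k hk => h k (by omega)]
  refine norm_integral_le_of_norm_le (int_loc hloc hm) (Eventually.of_forall fun ω => ?_)
  obtain ⟨x, hx⟩ : ∃ x, x = cf ξ ω := ⟨_, rfl⟩
  rw [← hx, norm_mul, norm_mul, hf.norm, norm_star, hf.norm, one_mul, one_mul, norm_prod]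
  have hz : ∀ k, ‖zf sg f m k x‖ = 1 := by
    intro k; unfold zf
    split_ifs
    · exact hf.norm _ _
    · rw [norm_star]; exact hf.norm _ _
  have hz2 : ∀ k, f (m - k) x ≠ 1 → (zf sg f m k x).re ≤ 1 - 2 * κ := by
    intro k hk
    unfold zf
    split_ifs
    · exact hf.gap _ _ hk
    · have := hf.gap _ _ hk
      simpa using this
  calc ∏ j ∈ range (m - k₀), ‖((1 - pr μ ξ (m - j) : ℝ) : ℂ) + (pr μ ξ (m - j) : ℂ) * zf sg f m (m - j) x‖
      ≤ ∏ j ∈ range (m - k₀), Real.exp (-(κ * δ) * (if f j x = 1 then (0 : ℝ) else 1)) := by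
        refine prod_le_prod (fun j _ => norm_nonneg _) fun j hj => ?_
        rw [mem_range] at hj
        have hmj : m - (m - j) = j := by omega
        split_ifs with h3
        · rw [mul_zero, Real.exp_zero]
          exact norm_mix (hz _) (pr_nonneg _ _ _) (pr_le_one _ _)
        · rw [mul_one]
          have h4 := hz2 (m - j) (by rw [hmj]; exact h3)
          have h5 := hp (m - j) (by omega) (by omega)
          exact norm_mix_gap (hz _) hκ h4 hδ h5.1 h5.2
    _ = Real.exp (-(κ * δ) * cnt f (m - k₀) x) := by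
        rw [← Real.exp_sum, ← mul_sum]
        rfl
    _ ≤ Real.exp (-(κ * δ) * cnt f H x) := by
        refine Real.exp_le_exp.2 ?_
        have h6 := cnt_mono f hH x
        have h7 : 0 ≤ κ * δ := mul_nonneg hκ hδ
        nlinarith

/-- the exponential moment -/
theorem expm_le [IsProbabilityMeasure μ] (hm : ∀ k, Measurable (ξ k)) (hi : iIndepFun ξ μ) {L : ℕ} {κ : ℝ}
    {sg : ℕ → Bool} {f : ℕ → Cfg → ℂ} (hf : Proc L κ sg f) {s δ : ℝ} (hs : 0 ≤ s) (hδ : 0 ≤ δ) (hδ1 : δ ≤ 1) (H : ℕ)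
    (hp : ∀ k, 0 < k → k < H + L → δ ≤ pr μ ξ k ∧ pr μ ξ k ≤ 1 - δ) :
    ∫ ω, Real.exp (-s * cnt f H (cf ξ ω)) ∂μ ≤ (1 - δ * (1 - Real.exp (-s))) ^ (H - 1) := by
  have hes : Real.exp (-s) ≤ 1 := Real.exp_le_one_iff.2 (by linarith)
  have hes0 : 0 < Real.exp (-s) := Real.exp_pos _
  have hq0 : 0 ≤ 1 - δ * (1 - Real.exp (-s)) := by nlinarith
  have hloc : ∀ H, Loc (H + L) fun x : Cfg => Real.exp (-s * cnt f H x) := by
    intro H x y h
    simp only
    rw [cnt_loc hf H x y h]
  induction H with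
  | zero => simp [cnt]
  | succ H IH =>
    rcases Nat.eq_zero_or_pos H with h0 | h0
    · subst h0
      have : ∀ x, Real.exp (-s * cnt f (0 + 1) x) ≤ 1 := by
        intro x
        refine Real.exp_le_one_iff.2 ?_
        have : 0 ≤ cnt f (0 + 1) x := by
          unfold cnt
          exact sum_nonneg fun j _ => by split_ifs <;> norm_num
        nlinarith
      calc ∫ ω, Real.exp (-s * cnt f (0 + 1) (cf ξ ω)) ∂μ ≤ ∫ _ω, (1 : ℝ) ∂μ :=
            integral_mono (int_loc (hloc _) hm) (integrable_const _) fun ω => this _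
        _ = _ := by simp
    · have hIH := IH fun k hk1 hk2 => hp k hk1 (by omega)
      rw [integral_av hm hi (H + L) (hloc (H + 1))]
      have hpt : ∀ x : Cfg, av (pr μ ξ) (H + L) (fun x : Cfg => Real.exp (-s * cnt f (H + 1) x)) x ≤
          Real.exp (-s * cnt f H x) * (1 - δ * (1 - Real.exp (-s))) := by
        intro x
        have e1 : ∀ b, Real.exp (-s * cnt f (H + 1) (st x (H + L) b)) =
            Real.exp (-s * cnt f H x) * Real.exp (-s * (if f H (st x (H + L) b) = 1 then (0 : ℝ) else 1)) := by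
          intro b
          have e2 : cnt f (H + 1) (st x (H + L) b) = cnt f H x + (if f H (st x (H + L) b) = 1 then (0 : ℝ) else 1) := by
            rw [← (cnt_loc hf H).st (le_refl (H + L)) x b]
            unfold cnt
            rw [sum_range_succ]
          rw [e2, mul_add, Real.exp_add]
        unfold av
        simp only [smul_eq_mul]
        rw [e1, e1]
        obtain ⟨hp1, hp2⟩ := hp (H + L) (by omega) (by omega)
        have hne := hf.top H x h0
        have hE := Real.exp_pos (-s * cnt f H x)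
        have hkey : (1 - pr μ ξ (H + L)) * Real.exp (-s * (if f H (st x (H + L) false) = 1 then (0 : ℝ) else 1)) +
            pr μ ξ (H + L) * Real.exp (-s * (if f H (st x (H + L) true) = 1 then (0 : ℝ) else 1)) ≤
            1 - δ * (1 - Real.exp (-s)) := by
          by_cases ha : f H (st x (H + L) false) = 1
          · have hb : f H (st x (H + L) true) ≠ 1 := fun h => hne (h.trans ha.symm)
            rw [if_pos ha, if_neg hb, mul_zero, Real.exp_zero, mul_one, mul_one]
            nlinarith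
          · rw [if_neg ha, mul_one]
            have h8 : Real.exp (-s * (if f H (st x (H + L) true) = 1 then (0 : ℝ) else 1)) ≤ 1 := by
              refine Real.exp_le_one_iff.2 ?_
              split_ifs <;> nlinarith
            have h9 := pr_nonneg μ ξ (H + L)
            nlinarith
        nlinarith [mul_le_mul_of_nonneg_left hkey hE.le]
      have hI1 : Integrable (fun ω => av (pr μ ξ) (H + L) (fun x : Cfg => Real.exp (-s * cnt f (H + 1) x)) (cf ξ ω)) μ :=
        int_loc (av_loc (hloc (H + 1)) _ _) hm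
      have hI2 : Integrable (fun ω => Real.exp (-s * cnt f H (cf ξ ω)) * (1 - δ * (1 - Real.exp (-s)))) μ :=
        (int_loc (hloc H) hm).mul_const _
      calc ∫ ω, av (pr μ ξ) (H + L) (fun x : Cfg => Real.exp (-s * cnt f (H + 1) x)) (cf ξ ω) ∂μ
          ≤ ∫ ω, Real.exp (-s * cnt f H (cf ξ ω)) * (1 - δ * (1 - Real.exp (-s))) ∂μ :=
            integral_mono hI1 hI2 fun ω => hpt _
        _ = (∫ ω, Real.exp (-s * cnt f H (cf ξ ω)) ∂μ) * (1 - δ * (1 - Real.exp (-s))) := integral_mul_const _ _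
        _ ≤ (1 - δ * (1 - Real.exp (-s))) ^ (H - 1) * (1 - δ * (1 - Real.exp (-s))) :=
            mul_le_mul_of_nonneg_right hIH hq0
        _ = _ := by
            rw [← pow_succ]
            congr 1
            omega

end

end Pool.Agent.Run7.h17.Sparse
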