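import Pool.Agent.Run7.h17.Sparse2

/-!
# Random sparse changes: second moments and almost sure bounds
-/

set_option autoImplicit false

namespace Pool.Agent.Run7.h17.Sparse

open MeasureTheory ProbabilityTheory Finset Filter Topology

section
variable {Ω : Type*} [MeasurableSpace Ω] {μ : Measure Ω} {ξ : ℕ → Ω → Bool}

/-- the sum over the first `I` terms of the sequence `b` -/
noncomputable def SS (f : ℕ → Cfg → ℂ) (b : ℕ → ℕ) (I : ℕ) (x : Cfg) : ℂ := ∑ i ∈ range I, f (b i) x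

lemma add_le_of_strictMono {b : ℕ → ℕ} (hb : StrictMono b) (i k : ℕ) : b i + k ≤ b (i + k) := by
  induction k with
  | zero => simp
  | succ k IH =>
    have := hb (show i + k < i + (k + 1) by omega)
    omega

lemma SS_loc {L : ℕ} {κ : ℝ} {sg : ℕ → Bool} {f : ℕ → Cfg → ℂ} (hf : Proc L κ sg f) {b : ℕ → ℕ} (hb : StrictMono b)
    (I : ℕ) : Loc (b I + L + 1) (SS f b I) := by
  intro x y h
  unfold SS
  refine sum_congr rfl fun i hi => ?_
  rw [mem_range] at hi
  have := hb hi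
  exact hf.loc (b i) x y fun k hk => h k (by omega)

theorem second_moment [IsProbabilityMeasure μ] (hm : ∀ k, Measurable (ξ k)) {L : ℕ} {κ : ℝ}
    {sg : ℕ → Bool} {f : ℕ → Cfg → ℂ} (hf : Proc L κ sg f) {b : ℕ → ℕ} (hb : StrictMono b) (I W : ℕ) {ε : ℝ} (hε : 0 ≤ ε)
    (hpair : ∀ i j, j + W ≤ i → i < I → ‖∫ ω, f (b i) (cf ξ ω) * star (f (b j) (cf ξ ω)) ∂μ‖ ≤ ε) :
    ∫ ω, ‖SS f b I (cf ξ ω)‖ ^ 2 ∂μ ≤ 2 * W * I + (I : ℝ) ^ 2 * ε := by
  classical
  have hl2 : ∀ i j, Loc (b i + b j + L + 1) fun x : Cfg => f (b i) x * star (f (b j) x) := by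
    intro i j x y h
    simp only
    rw [hf.loc (b i) x y fun k hk => h k (by omega), hf.loc (b j) x y fun k hk => h k (by omega)]
  have hI : ∀ i j, Integrable (fun ω => f (b i) (cf ξ ω) * star (f (b j) (cf ξ ω))) μ := fun i j => int_loc (hl2 i j) hm
  have e1 : ∀ x, ((‖SS f b I x‖ ^ 2 : ℝ) : ℂ) = ∑ i ∈ range I, ∑ j ∈ range I, f (b i) x * star (f (b j) x) := by
    intro x
    rw [← sum_mul_sum]
    have h2 : ∑ j ∈ range I, star (f (b j) x) = star (SS f b I x) := by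
      unfold SS
      rw [star_sum]
    rw [h2]
    change _ = SS f b I x * star (SS f b I x)
    have h3 := Complex.mul_conj' (SS f b I x)
    rw [← Complex.ofReal_pow] at h3
    exact h3.symm
  have e2 : ((∫ ω, ‖SS f b I (cf ξ ω)‖ ^ 2 ∂μ : ℝ) : ℂ) =
      ∑ i ∈ range I, ∑ j ∈ range I, ∫ ω, f (b i) (cf ξ ω) * star (f (b j) (cf ξ ω)) ∂μ := by
    refine Eq.trans (integral_ofReal (𝕜 := ℂ) (μ := μ) (f := fun ω => ‖SS f b I (cf ξ ω)‖ ^ 2)).symm ?_
    have : (fun ω => ((‖SS f b I (cf ξ ω)‖ ^ 2 : ℝ) : ℂ)) = fun ω =>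
        ∑ i ∈ range I, ∑ j ∈ range I, f (b i) (cf ξ ω) * star (f (b j) (cf ξ ω)) := by
      funext ω; exact e1 _
    have h5 : ∫ ω, ((‖SS f b I (cf ξ ω)‖ ^ 2 : ℝ) : ℂ) ∂μ =
        ∫ ω, ∑ i ∈ range I, ∑ j ∈ range I, f (b i) (cf ξ ω) * star (f (b j) (cf ξ ω)) ∂μ := by
      rw [this]
    refine Eq.trans h5 ?_
    rw [integral_finsetSum _ fun i _ => integrable_finsetSum _ fun j _ => hI i j]
    refine sum_congr rfl fun i _ => ?_
    rw [integral_finsetSum _ fun j _ => hI i j]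
  have hpb : ∀ i ∈ range I, ∀ j ∈ range I, ‖∫ ω, f (b i) (cf ξ ω) * star (f (b j) (cf ξ ω)) ∂μ‖ ≤
      (if i < j + W ∧ j < i + W then (1 : ℝ) else 0) + ε := by
    intro i hi j hj
    rw [mem_range] at hi hj
    have hone : ‖∫ ω, f (b i) (cf ξ ω) * star (f (b j) (cf ξ ω)) ∂μ‖ ≤ 1 := by
      have := norm_integral_le_of_norm_le_const (μ := μ) (f := fun ω => f (b i) (cf ξ ω) * star (f (b j) (cf ξ ω)))
        (C := 1) (Eventually.of_forall fun ω => by rw [norm_mul, norm_star, hf.norm, hf.norm, mul_one])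
      simpa using this
    by_cases h1 : i < j + W ∧ j < i + W
    · rw [if_pos h1]; linarith
    · rw [if_neg h1, zero_add]
      by_cases h2 : j + W ≤ i
      · exact hpair i j h2 hi
      · have h3 : i + W ≤ j := by
          by_contra h4
          exact h1 ⟨by omega, by omega⟩
        have h4 := hpair j i h3 hj
        have h5 : ∫ ω, f (b i) (cf ξ ω) * star (f (b j) (cf ξ ω)) ∂μ =
            (starRingEnd ℂ) (∫ ω, f (b j) (cf ξ ω) * star (f (b i) (cf ξ ω)) ∂μ) := by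
          rw [← integral_conj]
          congr 1
          funext ω
          rw [map_mul]
          simp only [← starRingEnd_apply, Complex.conj_conj]
          ring
        rw [h5, RCLike.norm_conj]
        exact h4
  have h6 : ∫ ω, ‖SS f b I (cf ξ ω)‖ ^ 2 ∂μ ≤
      ∑ i ∈ range I, ∑ j ∈ range I, ((if i < j + W ∧ j < i + W then (1 : ℝ) else 0) + ε) := by
    calc ∫ ω, ‖SS f b I (cf ξ ω)‖ ^ 2 ∂μ ≤ ‖((∫ ω, ‖SS f b I (cf ξ ω)‖ ^ 2 ∂μ : ℝ) : ℂ)‖ := by
          rw [Complex.norm_real]; exact le_abs_self _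
      _ ≤ ∑ i ∈ range I, ∑ j ∈ range I, ‖∫ ω, f (b i) (cf ξ ω) * star (f (b j) (cf ξ ω)) ∂μ‖ := by
          rw [e2]
          exact (norm_sum_le _ _).trans (sum_le_sum fun i _ => norm_sum_le _ _)
      _ ≤ _ := sum_le_sum fun i hi => sum_le_sum fun j hj => hpb i hi j hj
  refine h6.trans ?_
  have h7 : ∀ i ∈ range I, ∑ j ∈ range I, ((if i < j + W ∧ j < i + W then (1 : ℝ) else 0) + ε) ≤ 2 * W + I * ε := by
    intro i _
    rw [sum_add_distrib, sum_const, card_range, nsmul_eq_mul]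
    have h8 : ∑ j ∈ range I, (if i < j + W ∧ j < i + W then (1 : ℝ) else 0) ≤ 2 * W := by
      rw [← sum_filter, sum_const, nsmul_eq_mul, mul_one]
      have h9 : ((range I).filter fun j => i < j + W ∧ j < i + W) ⊆ Ico (i - W) (i + W) := by
        intro j hj
        rw [mem_filter] at hj
        rw [mem_Ico]
        omega
      have h10 := card_le_card h9
      rw [Nat.card_Ico] at h10
      exact_mod_cast (by omega : ((range I).filter fun j => i < j + W ∧ j < i + W).card ≤ 2 * W)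
    linarith
  calc ∑ i ∈ range I, ∑ j ∈ range I, ((if i < j + W ∧ j < i + W then (1 : ℝ) else 0) + ε)
      ≤ ∑ _i ∈ range I, (2 * W + I * ε) := sum_le_sum h7
    _ = _ := by
      rw [sum_const, card_range, nsmul_eq_mul]; ring

/-- stretched exponentials are small -/
lemma exp_small {q γ : ℝ} (hq : 0 < q) (hγ : 0 < γ) : ∃ C : ℝ, 0 < C ∧ ∀ I : ℕ, 1 ≤ I →
    Real.exp (-(q * (I : ℝ) ^ γ)) ≤ C / I := by
  have h1 := (tendsto_rpow_mul_exp_neg_mul_atTop_nhds_zero (1 / γ) q hq)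
  have h2 : Tendsto (fun I : ℕ => (I : ℝ) ^ γ) atTop atTop :=
    (tendsto_rpow_atTop hγ).comp tendsto_natCast_atTop_atTop
  have h3 := h1.comp h2
  obtain ⟨C, hC⟩ := h3.bddAbove_range
  refine ⟨max C 1, by positivity, fun I hI => ?_⟩
  have hI0 : (0 : ℝ) < I := by exact_mod_cast hI
  have h4 := hC (Set.mem_range_self I)
  simp only [Function.comp_apply] at h4
  rw [← Real.rpow_mul hI0.le, mul_one_div_cancel hγ.ne', Real.rpow_one] at h4
  rw [le_div_iff₀ hI0]
  calc Real.exp (-(q * (I : ℝ) ^ γ)) * I = I * Real.exp (-q * (I : ℝ) ^ γ) := by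
        rw [mul_comm, neg_mul]
    _ ≤ C := h4
    _ ≤ max C 1 := le_max_left _ _

lemma one_sub_exp {y : ℝ} (h0 : 0 ≤ y) (h1 : y ≤ 1) : y / 2 ≤ 1 - Real.exp (-y) := by
  have h2 : Real.exp (-y) ≤ 1 / (1 + y) := by
    rw [Real.exp_neg, ← one_div]
    exact one_div_le_one_div_of_le (by linarith) (by have := Real.add_one_le_exp y; linarith)
  have h3 : 1 / (1 + y) ≤ 1 - y / 2 := by
    rw [div_le_iff₀ (by linarith)]
    nlinarith
  linarith

end

end Pool.Agent.Run7.h17.Sparse
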