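import Pool.Agent.Run7.h17.Sparse3

/-!
# Random sparse changes: almost sure equidistribution
-/

set_option autoImplicit false

namespace Pool.Agent.Run7.h17.Sparse

open MeasureTheory ProbabilityTheory Finset Filter Topology

/-- the exponent of the interpolating powers -/
noncomputable def bb (τ : ℝ) : ℕ := ⌈4 / (1 - τ)⌉₊

lemma bb_pos {τ : ℝ} (h1 : τ < 1) : 1 ≤ bb τ := by
  unfold bb
  have : 0 < 4 / (1 - τ) := div_pos (by norm_num) (by linarith)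
  exact Nat.one_le_iff_ne_zero.2 (Nat.ceil_pos.2 this).ne'

lemma bb_le {τ : ℝ} (h1 : τ < 1) : 4 ≤ (bb τ : ℝ) * (1 - τ) := by
  have h2 : 4 / (1 - τ) ≤ bb τ := Nat.le_ceil _
  rwa [div_le_iff₀ (by linarith)] at h2

lemma pow_step (m B : ℕ) : (m + 1) ^ B ≤ m ^ B + B * (m + 1) ^ (B - 1) := by
  induction B with
  | zero => simp
  | succ B IH =>
    rcases Nat.eq_zero_or_pos B with h | h
    · subst h; simp
    · have e : B + 1 - 1 = (B - 1) + 1 := by omega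
      have e2 : (m + 1) ^ (B - 1) * (m + 1) = (m + 1) ^ B := by
        rw [← pow_succ]; congr 1; omega
      rw [e, pow_succ (m + 1) (B - 1), e2]
      calc (m + 1) ^ (B + 1) = (m + 1) ^ B * m + (m + 1) ^ B := by ring
        _ ≤ (m ^ B + B * (m + 1) ^ (B - 1)) * m + (m + 1) ^ B := by gcongr
        _ = m ^ (B + 1) + B * ((m + 1) ^ (B - 1) * m) + (m + 1) ^ B := by ring
        _ ≤ m ^ (B + 1) + B * ((m + 1) ^ (B - 1) * (m + 1)) + (m + 1) ^ B := by gcongr; omega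
        _ = m ^ (B + 1) + (B + 1) * (m + 1) ^ B := by rw [e2]; ring

section
variable {Ω : Type*} [MeasurableSpace Ω] {μ : Measure Ω}

theorem as_bound [IsProbabilityMeasure μ] {τ : ℝ} (h1 : τ < 1) {X : ℕ → Ω → ℂ} (hX : ∀ I, Measurable (X I))
    (hbd : ∀ I ω, ‖X I ω‖ ≤ I)
    (hstep : ∀ I ω, ‖X (I + 1) ω - X I ω‖ ≤ 1) {C : ℝ} (hC0 : 0 < C)
    (hC : ∀ I : ℕ, 1 ≤ I → ∫ ω, ‖X I ω‖ ^ 2 ∂μ ≤ C * (I : ℝ) ^ (1 + τ)) :
    ∀ᵐ ω ∂μ, ∃ C' : ℝ, ∀ I : ℕ, 1 ≤ I → ‖X I ω‖ ≤ C' * (I : ℝ) ^ (1 - 1 / (bb τ : ℝ)) := by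
  obtain ⟨B, hB⟩ : ∃ B, B = bb τ := ⟨_, rfl⟩
  have hB1 : 1 ≤ B := by rw [hB]; exact bb_pos h1
  have hB4 : 4 ≤ (B : ℝ) * (1 - τ) := by rw [hB]; exact bb_le h1
  have hBr : (0 : ℝ) < B := by exact_mod_cast hB1
  rw [← hB]
  obtain ⟨e, he⟩ : ∃ e : ℝ, e = (3 + τ) / 2 := ⟨_, rfl⟩
  obtain ⟨J, hJ⟩ : ∃ J : ℕ → ℕ, ∀ j, J j = (j + 1) ^ B := ⟨_, fun _ => rfl⟩
  have hJ1 : ∀ j, 1 ≤ J j := fun j => by rw [hJ]; exact Nat.one_le_pow _ _ (by omega)
  have hJr : ∀ j, (0 : ℝ) < (J j : ℝ) := fun j => by exact_mod_cast hJ1 j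
  let g : ℕ → Ω → ENNReal := fun j ω => ENNReal.ofReal (‖X (J j) ω‖ ^ 2 * (J j : ℝ) ^ (-e))
  have hgm : ∀ j, Measurable (g j) := fun j =>
    ENNReal.measurable_ofReal.comp (((hX _).norm.pow_const 2).mul_const _)
  have hgI : ∀ j, ∫⁻ ω, g j ω ∂μ ≤ ENNReal.ofReal (C * (1 / ((j : ℝ) + 1) ^ 2)) := by
    intro j
    have hint : Integrable (fun ω => ‖X (J j) ω‖ ^ 2 * (J j : ℝ) ^ (-e)) μ := by
      refine Integrable.of_bound (((hX _).norm.pow_const 2).mul_const _).aestronglyMeasurable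
        ((J j : ℝ) ^ 2 * (J j : ℝ) ^ (-e)) (Eventually.of_forall fun ω => ?_)
      rw [Real.norm_eq_abs, abs_of_nonneg (by positivity)]
      gcongr
      exact hbd _ _
    have h2 : ∫⁻ ω, g j ω ∂μ = ENNReal.ofReal (∫ ω, ‖X (J j) ω‖ ^ 2 * (J j : ℝ) ^ (-e) ∂μ) :=
      (ofReal_integral_eq_lintegral_ofReal hint (Eventually.of_forall fun ω => by positivity)).symm
    rw [h2, integral_mul_const]
    refine ENNReal.ofReal_le_ofReal ?_
    have h3 := mul_le_mul_of_nonneg_right (hC (J j) (hJ1 j)) (by positivity : 0 ≤ (J j : ℝ) ^ (-e))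
    refine h3.trans ?_
    rw [mul_assoc, ← Real.rpow_add (hJr j)]
    refine mul_le_mul_of_nonneg_left ?_ hC0.le
    have hj1 : (1 : ℝ) ≤ (j : ℝ) + 1 := by have := Nat.cast_nonneg (α := ℝ) j; linarith
    have e1 : (J j : ℝ) ^ (1 + τ + -e) = ((j : ℝ) + 1) ^ (-((B : ℝ) * (1 - τ) / 2)) := by
      rw [hJ]; push_cast
      rw [← Real.rpow_natCast, ← Real.rpow_mul (by linarith)]
      congr 1; rw [he]; ring
    rw [e1, one_div, ← Real.rpow_natCast ((j : ℝ) + 1) 2, ← Real.rpow_neg (by linarith)]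
    refine Real.rpow_le_rpow_of_exponent_le hj1 ?_
    push_cast
    linarith
  have hsum : ∫⁻ ω, ∑' j, g j ω ∂μ ≠ ⊤ := by
    rw [lintegral_tsum fun j => (hgm j).aemeasurable]
    refine ne_top_of_le_ne_top ?_ (ENNReal.tsum_le_tsum hgI)
    have hs : Summable fun j : ℕ => C * (1 / ((j : ℝ) + 1) ^ 2) := by
      refine Summable.mul_left _ ?_
      have h5 := (summable_nat_add_iff 1).2 (Real.summable_one_div_nat_pow.2 (by norm_num : 1 < 2))
      refine h5.congr fun j => ?_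
      push_cast; rfl
    exact hs.tsum_ofReal_ne_top
  have hfin := ae_lt_top (Measurable.tsum hgm) hsum
  filter_upwards [hfin] with ω hω
  obtain ⟨T, hT⟩ : ∃ T, T = (∑' j, g j ω).toReal := ⟨_, rfl⟩
  have hT0 : 0 ≤ T := by rw [hT]; exact ENNReal.toReal_nonneg
  have hb : ∀ j, ‖X (J j) ω‖ ≤ Real.sqrt T * (J j : ℝ) ^ (1 - 1 / (B : ℝ)) := by
    intro j
    have h2 : g j ω ≤ ∑' j, g j ω := ENNReal.le_tsum j
    have h3 : ‖X (J j) ω‖ ^ 2 * (J j : ℝ) ^ (-e) ≤ T := by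
      rw [hT]
      exact (ENNReal.ofReal_le_iff_le_toReal hω.ne).1 h2
    have h4 : ‖X (J j) ω‖ ^ 2 ≤ T * (J j : ℝ) ^ e := by
      rw [Real.rpow_neg (hJr j).le, ← div_eq_mul_inv, div_le_iff₀ (Real.rpow_pos_of_pos (hJr j) e)] at h3
      exact h3
    have h5 : ‖X (J j) ω‖ ≤ Real.sqrt T * (J j : ℝ) ^ (e / 2) := by
      refine abs_le_of_sq_le_sq' ?_ (by positivity) |>.2
      rw [mul_pow, Real.sq_sqrt hT0, ← Real.rpow_natCast ((J j : ℝ) ^ (e / 2)) 2, ← Real.rpow_mul (hJr j).le]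
      have : e / 2 * ((2 : ℕ) : ℝ) = e := by push_cast; ring
      rw [this]
      exact h4
    refine h5.trans (mul_le_mul_of_nonneg_left ?_ (Real.sqrt_nonneg _))
    refine Real.rpow_le_rpow_of_exponent_le (by exact_mod_cast hJ1 j) ?_
    rw [he]
    have : 1 / (B : ℝ) ≤ (1 - τ) / 4 := by
      rw [div_le_div_iff₀ hBr (by norm_num)]
      linarith
    linarith
  refine ⟨Real.sqrt T + B * 2 ^ (B - 1), fun I hI => ?_⟩
  -- the largest m with m ^ B ≤ I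
  obtain ⟨m, hm1, hm2, hm3⟩ : ∃ m, 1 ≤ m ∧ m ^ B ≤ I ∧ I < (m + 1) ^ B := by
    have hP : (1 : ℕ) ^ B ≤ I := by simpa using hI
    refine ⟨Nat.findGreatest (fun m => m ^ B ≤ I) I, Nat.le_findGreatest hI hP,
      Nat.findGreatest_spec (P := fun m => m ^ B ≤ I) hI hP, ?_⟩
    by_contra hcon
    push Not at hcon
    have h2 : Nat.findGreatest (fun m => m ^ B ≤ I) I + 1 ≤ I :=
      (Nat.le_self_pow (by omega) _).trans hcon
    have := Nat.le_findGreatest (P := fun m => m ^ B ≤ I) h2 hcon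
    omega
  obtain ⟨j, rfl⟩ : ∃ j, m = j + 1 := ⟨m - 1, by omega⟩
  have hIr : (0 : ℝ) < I := by exact_mod_cast hI
  have hI1 : (1 : ℝ) ≤ I := by exact_mod_cast hI
  have hstep2 : ∀ k, ‖X (J j + k) ω - X (J j) ω‖ ≤ k := by
    intro k
    induction k with
    | zero => simp
    | succ k IH =>
      have h6 := hstep (J j + k) ω
      have e6 : X (J j + (k + 1)) ω - X (J j) ω = (X (J j + k + 1) ω - X (J j + k) ω) + (X (J j + k) ω - X (J j) ω) := by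
        rw [add_assoc]; ring
      rw [e6]
      refine (norm_add_le _ _).trans ?_
      push_cast
      linarith
  have hJI : J j ≤ I := by rw [hJ]; exact hm2
  have hexp : 0 ≤ 1 - 1 / (B : ℝ) := by
    have : 1 / (B : ℝ) ≤ 1 := by
      rw [div_le_one hBr]; exact_mod_cast hB1
    linarith
  have h7 : ‖X I ω‖ ≤ ‖X (J j) ω‖ + (I - J j : ℕ) := by
    have h8 := hstep2 (I - J j)
    have e8 : J j + (I - J j) = I := by omega
    rw [e8] at h8
    have h9 := norm_add_le (X I ω - X (J j) ω) (X (J j) ω)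
    rw [sub_add_cancel] at h9
    linarith
  have h8 : ((I - J j : ℕ) : ℝ) ≤ B * 2 ^ (B - 1) * (I : ℝ) ^ (1 - 1 / (B : ℝ)) := by
    have h9 : I - J j ≤ B * (j + 1 + 1) ^ (B - 1) := by
      have := pow_step (j + 1) B
      rw [hJ]
      omega
    have h10 : (j + 1 + 1) ^ (B - 1) ≤ 2 ^ (B - 1) * (j + 1) ^ (B - 1) := by
      rw [← mul_pow]
      exact Nat.pow_le_pow_left (by omega) _
    have h11 : I - J j ≤ B * (2 ^ (B - 1) * (j + 1) ^ (B - 1)) := h9.trans (Nat.mul_le_mul_left _ h10)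
    have h12 : ((I - J j : ℕ) : ℝ) ≤ B * (2 ^ (B - 1) * ((j : ℝ) + 1) ^ (B - 1)) := by exact_mod_cast h11
    have h13 : ((j : ℝ) + 1) ^ (B - 1) ≤ (I : ℝ) ^ (1 - 1 / (B : ℝ)) := by
      have hj0 : (0 : ℝ) ≤ (j : ℝ) + 1 := by positivity
      have e13 : ((j : ℝ) + 1) ^ (B - 1) = (((j : ℝ) + 1) ^ B) ^ (1 - 1 / (B : ℝ)) := by
        rw [← Real.rpow_natCast ((j : ℝ) + 1) B, ← Real.rpow_mul hj0, ← Real.rpow_natCast ((j : ℝ) + 1) (B - 1)]
        congr 1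
        rw [Nat.cast_sub hB1]
        field_simp
        norm_num
      rw [e13]
      refine Real.rpow_le_rpow (by positivity) ?_ hexp
      exact_mod_cast hm2
    calc ((I - J j : ℕ) : ℝ) ≤ B * (2 ^ (B - 1) * ((j : ℝ) + 1) ^ (B - 1)) := h12
      _ ≤ B * (2 ^ (B - 1) * (I : ℝ) ^ (1 - 1 / (B : ℝ))) := by gcongr
      _ = _ := by ring
  have h9 := hb j
  have h10 : (J j : ℝ) ^ (1 - 1 / (B : ℝ)) ≤ (I : ℝ) ^ (1 - 1 / (B : ℝ)) :=
    Real.rpow_le_rpow (hJr j).le (by exact_mod_cast hJI) hexp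
  have h11 : Real.sqrt T * (J j : ℝ) ^ (1 - 1 / (B : ℝ)) ≤ Real.sqrt T * (I : ℝ) ^ (1 - 1 / (B : ℝ)) :=
    mul_le_mul_of_nonneg_left h10 (Real.sqrt_nonneg _)
  rw [add_mul]
  linarith

end

end Pool.Agent.Run7.h17.Sparse
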