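import Pool.Agent.Run7.h17.SparseR

/-!
# Random sparse changes: the multiscale bound and the second moment for all exponents
-/

set_option autoImplicit false

namespace Pool.Agent.Run7.h17.Sparse

open MeasureTheory ProbabilityTheory Finset Filter Topology

section
variable {Ω : Type*} [MeasurableSpace Ω] {μ : Measure Ω} {ξ : ℕ → Ω → Bool}

/-- exponential moments are small -/
def PP (μ : Measure Ω) (ξ : ℕ → Ω → Bool) (f : ℕ → Cfg → ℂ) (e : ℝ) : Prop :=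
  ∃ C β q : ℝ, 0 < C ∧ 0 < β ∧ 0 < q ∧ ∀ H : ℕ, 1 ≤ H → ∀ s : ℝ, 0 ≤ s → 1 ≤ s * (H : ℝ) ^ e →
    ∫ ω, Real.exp (-s * cnt f H (cf ξ ω)) ∂μ ≤ C * Real.exp (-(q * (H : ℝ) ^ β))

lemma expm_le_one [IsProbabilityMeasure μ] (hm : ∀ k, Measurable (ξ k)) {L : ℕ} {κ : ℝ}
    {sg : ℕ → Bool} {f : ℕ → Cfg → ℂ} (hf : Proc L κ sg f) {s : ℝ} (hs : 0 ≤ s) (H : ℕ) :
    ∫ ω, Real.exp (-s * cnt f H (cf ξ ω)) ∂μ ≤ 1 := by
  have hl : Loc (H + L) fun x => Real.exp (-s * cnt f H x) := by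
    intro x y h; simp only; rw [cnt_loc hf H x y h]
  calc ∫ ω, Real.exp (-s * cnt f H (cf ξ ω)) ∂μ ≤ ∫ _ω, (1 : ℝ) ∂μ :=
        integral_mono (int_loc hl hm) (integrable_const _) fun ω => by
          refine Real.exp_le_one_iff.2 ?_
          have := cnt_nonneg f H (cf ξ ω)
          nlinarith
    _ = 1 := by simp

lemma a_le_half {a c : ℝ} (hp : ∀ k : ℕ, 1 ≤ k → a * (k : ℝ) ^ (-c) ≤ pr μ ξ k ∧ pr μ ξ k ≤ 1 - a * (k : ℝ) ^ (-c)) :
    a ≤ 1 / 2 := by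
  have := hp 1 le_rfl
  rw [Nat.cast_one, Real.one_rpow] at this
  linarith [this.1, this.2]

lemma p_bounds {a c : ℝ} (ha : 0 < a) (hc : 0 < c)
    (hp : ∀ k : ℕ, 1 ≤ k → a * (k : ℝ) ^ (-c) ≤ pr μ ξ k ∧ pr μ ξ k ≤ 1 - a * (k : ℝ) ^ (-c)) (N k : ℕ) (hk : 1 ≤ k) (hkN : k ≤ N) :
    a * (N : ℝ) ^ (-c) ≤ pr μ ξ k ∧ pr μ ξ k ≤ 1 - a * (N : ℝ) ^ (-c) := by
  have h4 : a * (N : ℝ) ^ (-c) ≤ a * (k : ℝ) ^ (-c) := by
    refine mul_le_mul_of_nonneg_left ?_ ha.le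
    exact Real.rpow_le_rpow_of_nonpos (by exact_mod_cast hk) (by exact_mod_cast hkN) (by linarith)
  have := hp k hk
  constructor <;> linarith [this.1, this.2]

theorem PP_zero [IsProbabilityMeasure μ] (hm : ∀ k, Measurable (ξ k)) (hi : iIndepFun ξ μ) {c a : ℝ}
    (hc : 0 < c) (hc1 : c < 1) (ha : 0 < a)
    (hp : ∀ k : ℕ, 1 ≤ k → a * (k : ℝ) ^ (-c) ≤ pr μ ξ k ∧ pr μ ξ k ≤ 1 - a * (k : ℝ) ^ (-c))
    {L : ℕ} {κ : ℝ} {sg : ℕ → Bool} {f : ℕ → Cfg → ℂ} (hf : Proc L κ sg f) : PP μ ξ f 0 := by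
  have ha2 := a_le_half hp
  obtain ⟨A, hA⟩ : ∃ A, A = a / 2 * ((L : ℝ) + 1) ^ (-c) := ⟨_, rfl⟩
  have hL1 : (0 : ℝ) < (L : ℝ) + 1 := by positivity
  have hA0 : 0 < A := by rw [hA]; positivity
  refine ⟨Real.exp A, 1 - c, A, Real.exp_pos _, by linarith, hA0, fun H hH s hs hs1 => ?_⟩
  rw [Real.rpow_zero, mul_one] at hs1
  have hHr : (1 : ℝ) ≤ H := by exact_mod_cast hH
  have hH0 : (0 : ℝ) < H := by linarith
  obtain ⟨δ, hδ⟩ : ∃ δ, δ = a * ((H + L : ℕ) : ℝ) ^ (-c) := ⟨_, rfl⟩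
  have hHL : (1 : ℝ) ≤ ((H + L : ℕ) : ℝ) := by exact_mod_cast (by omega : 1 ≤ H + L)
  have hδ0 : 0 < δ := by rw [hδ]; positivity
  have hδ1 : δ ≤ 1 / 2 := by
    rw [hδ]
    have : ((H + L : ℕ) : ℝ) ^ (-c) ≤ 1 := Real.rpow_le_one_of_one_le_of_nonpos hHL (by linarith)
    nlinarith
  have h1 := expm_le hm hi hf hs hδ0.le (by linarith : δ ≤ 1) H (fun k hk1 hk2 => by
    rw [hδ]; exact p_bounds ha hc hp (H + L) k hk1 (by omega))
  refine h1.trans ?_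
  have h2 : (1 : ℝ) / 2 ≤ 1 - Real.exp (-s) := by
    have h3 := one_sub_exp zero_le_one (le_refl (1 : ℝ))
    have h4 : Real.exp (-s) ≤ Real.exp (-1) := Real.exp_le_exp.2 (by linarith)
    linarith
  have h30 : 0 ≤ 1 - δ * (1 - Real.exp (-s)) := by
    have := Real.exp_pos (-s)
    nlinarith
  have h3 : 1 - δ * (1 - Real.exp (-s)) ≤ Real.exp (-(δ / 2)) := by
    have := Real.add_one_le_exp (-(δ / 2))
    nlinarith
  have h5 : A * (H : ℝ) ^ (-c) ≤ δ / 2 := by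
    rw [hA, hδ]
    have e : a / 2 * ((L : ℝ) + 1) ^ (-c) * (H : ℝ) ^ (-c) = a * (((L : ℝ) + 1) * H) ^ (-c) / 2 := by
      rw [Real.mul_rpow hL1.le hH0.le]; ring
    rw [e]
    have : (((L : ℝ) + 1) * H) ^ (-c) ≤ ((H + L : ℕ) : ℝ) ^ (-c) := by
      refine Real.rpow_le_rpow_of_nonpos (by linarith) ?_ (by linarith)
      push_cast
      nlinarith [Nat.cast_nonneg (α := ℝ) L]
    nlinarith
  calc (1 - δ * (1 - Real.exp (-s))) ^ (H - 1) ≤ (Real.exp (-(δ / 2))) ^ (H - 1) := pow_le_pow_left₀ h30 h3 _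
    _ = Real.exp (-(δ / 2 * ((H - 1 : ℕ) : ℝ))) := by
        rw [← Real.exp_nat_mul]; congr 1; ring
    _ ≤ Real.exp A * Real.exp (-(A * (H : ℝ) ^ (1 - c))) := by
        rw [← Real.exp_add]
        refine Real.exp_le_exp.2 ?_
        rw [Nat.cast_sub hH, Nat.cast_one]
        have e : (H : ℝ) ^ (1 - c) = H * (H : ℝ) ^ (-c) := by
          rw [sub_eq_add_neg, Real.rpow_add hH0, Real.rpow_one]
        rw [e]
        have h6 : (H : ℝ) ^ (-c) ≤ 1 := Real.rpow_le_one_of_one_le_of_nonpos hHr (by linarith)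
        have h7 : 0 < (H : ℝ) ^ (-c) := by positivity
        have h8 : A * (H : ℝ) ^ (-c) * (H - 1) ≤ δ / 2 * (H - 1) := mul_le_mul_of_nonneg_right h5 (by linarith)
        nlinarith

theorem PP_step [IsProbabilityMeasure μ] (hm : ∀ k, Measurable (ξ k)) (hi : iIndepFun ξ μ) {c a : ℝ}
    (hc : 0 < c) (hc1 : c < 1) (ha : 0 < a)
    (hp : ∀ k : ℕ, 1 ≤ k → a * (k : ℝ) ^ (-c) ≤ pr μ ξ k ∧ pr μ ξ k ≤ 1 - a * (k : ℝ) ^ (-c))
    {L : ℕ} {κ : ℝ} {sg : ℕ → Bool} {f : ℕ → Cfg → ℂ} (hf : Proc L κ sg f) {e e' : ℝ} (he0 : 0 ≤ e) (he1 : e ≤ 1)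
    (hee : e' < 1 - c * (1 - e)) (h : PP μ ξ f e) : PP μ ξ f e' := by
  have ha2 := a_le_half hp
  obtain ⟨C, β, q, hC, hβ, hq, hP⟩ := h
  obtain ⟨σ, hσ⟩ : ∃ σ, σ = 1 - c * (1 - e) - e' := ⟨_, rfl⟩
  have hσ0 : 0 < σ := by rw [hσ]; linarith
  have hL1 : (0 : ℝ) < (L : ℝ) + 1 := by positivity
  obtain ⟨A, hA⟩ : ∃ A, A = a / 6 * ((L : ℝ) + 1) ^ (-c) := ⟨_, rfl⟩
  have hA0 : 0 < A := by rw [hA]; positivity
  -- large H
  have hlim : ∀ γ : ℝ, 0 < γ → Tendsto (fun H : ℕ => (H : ℝ) ^ γ) atTop atTop := fun γ hγ =>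
    (tendsto_rpow_atTop hγ).comp tendsto_natCast_atTop_atTop
  have hev : ∀ᶠ H : ℕ in atTop, ((L : ℝ) + 2 ≤ (H : ℝ) ^ c ∧ 10 ≤ (H : ℝ) ^ (1 - c)) ∧ 16 / A ≤ (H : ℝ) ^ σ :=
    (((hlim c hc).eventually_ge_atTop _).and ((hlim (1 - c) (by linarith)).eventually_ge_atTop _)).and
      ((hlim σ hσ0).eventually_ge_atTop _)
  obtain ⟨H₀, hH₀⟩ := eventually_atTop.1 hev
  obtain ⟨β', hβ'⟩ : ∃ β', β' = min (1 - c) (c * β) := ⟨_, rfl⟩
  have hβ'0 : 0 < β' := by rw [hβ']; exact lt_min (by linarith) (by positivity)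
  obtain ⟨q', hq'⟩ : ∃ q', q' = min (A / 4) (q * (2 : ℝ) ^ (-β)) := ⟨_, rfl⟩
  have hq'0 : 0 < q' := by rw [hq']; exact lt_min (by positivity) (by positivity)
  refine ⟨max (1 + C) (Real.exp (q' * (H₀ : ℝ) ^ β')), β', q', by positivity, hβ'0, hq'0, fun H hH s hs hs1 => ?_⟩
  have hHr : (1 : ℝ) ≤ H := by exact_mod_cast hH
  have hHp : (0 : ℝ) < H := by linarith
  rcases lt_or_ge H H₀ with hlt | hge
  · refine (expm_le_one hm hf hs H).trans ?_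
    have h1 : (H : ℝ) ^ β' ≤ (H₀ : ℝ) ^ β' :=
      Real.rpow_le_rpow hHp.le (by exact_mod_cast hlt.le) hβ'0.le
    calc (1 : ℝ) ≤ Real.exp (q' * (H₀ : ℝ) ^ β') * Real.exp (-(q' * (H : ℝ) ^ β')) := by
          rw [← Real.exp_add]
          exact Real.one_le_exp (by nlinarith)
      _ ≤ _ := mul_le_mul_of_nonneg_right (le_max_right _ _) (Real.exp_pos _).le
  · obtain ⟨⟨hc2, hc10⟩, hcσ⟩ := hH₀ H hge
    obtain ⟨r, hr⟩ : ∃ r : ℕ, r = ⌊(H : ℝ) ^ c⌋₊ := ⟨_, rfl⟩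
    have hHc0 : (0 : ℝ) ≤ (H : ℝ) ^ c := by positivity
    have hr1 : (r : ℝ) ≤ (H : ℝ) ^ c := by rw [hr]; exact Nat.floor_le hHc0
    have hr2 : (H : ℝ) ^ c < r + 1 := by rw [hr]; exact Nat.lt_floor_add_one _
    have hrL : (L : ℝ) + 1 < r := by linarith
    have hrL' : L + 1 < r := by exact_mod_cast hrL
    have hr0 : (0 : ℝ) < r := by linarith
    have hr3 : (H : ℝ) ^ c / 2 ≤ r := by linarith [Nat.cast_nonneg (α := ℝ) L]
    have hr10 : 10 * (r : ℝ) ≤ H := by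
      have e1 : (H : ℝ) = (H : ℝ) ^ c * (H : ℝ) ^ (1 - c) := by
        rw [← Real.rpow_add hHp]
        have : c + (1 - c) = 1 := by ring
        rw [this, Real.rpow_one]
      rw [e1]
      nlinarith
    have hr10' : 10 * r ≤ H := by exact_mod_cast hr10
    obtain ⟨m, hmdef⟩ : ∃ m : ℕ, m = (H - (r + L)) / (2 * r + L) := ⟨_, rfl⟩
    have hm1 : (2 * r + L) * m ≤ H - (r + L) := by rw [hmdef]; exact Nat.mul_div_le _ _
    have hm2 : H - (r + L) < (2 * r + L) * (m + 1) := by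
      rw [hmdef]
      exact Nat.lt_mul_div_succ _ (by omega)
    have hHm : (r + L) + (2 * r + L) * m ≤ H := by omega
    have hmr : (H : ℝ) / 6 ≤ m * r := by
      have h3 : (2 * r + L) * (m + 1) ≤ 3 * r * (m + 1) := Nat.mul_le_mul_right _ (by omega)
      have h4 : H < 3 * r * (m + 1) + (r + L) := by omega
      have h5 : (H : ℝ) < 3 * r * (m + 1) + (r + L) := by exact_mod_cast h4
      nlinarith
    obtain ⟨δ, hδ⟩ : ∃ δ, δ = a * (H : ℝ) ^ (-c) := ⟨_, rfl⟩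
    have hδ0 : 0 < δ := by rw [hδ]; positivity
    have hHc1 : (H : ℝ) ^ (-c) ≤ 1 := Real.rpow_le_one_of_one_le_of_nonpos hHr (by linarith)
    have hδ1 : δ ≤ 1 / 2 := by rw [hδ]; nlinarith
    have hcc : (H : ℝ) ^ (-c) * (H : ℝ) ^ c = 1 := by
      rw [← Real.rpow_add hHp, neg_add_cancel, Real.rpow_zero]
    have hrδ : 2 * δ * r ≤ 1 := by
      rw [hδ]
      have h6 : (H : ℝ) ^ (-c) * r ≤ 1 := by
        rw [← hcc]
        exact mul_le_mul_of_nonneg_left hr1 (by positivity)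
      nlinarith
    have hrec := recursion hm hi hf (H := H) (r := r) (m := m) hHm hs hδ0.le hδ1 hrδ (fun k hk1 hk2 => by
      rw [hδ]; exact p_bounds ha hc hp H k (by omega) hk2.le)
    refine hrec.trans ?_
    -- lower bound for m r δ
    have e1c : (H : ℝ) ^ (1 - c) = H * (H : ℝ) ^ (-c) := by
      rw [sub_eq_add_neg, Real.rpow_add hHp, Real.rpow_one]
    have hAle : A ≤ a / 6 := by
      rw [hA]
      have : ((L : ℝ) + 1) ^ (-c) ≤ 1 :=
        Real.rpow_le_one_of_one_le_of_nonpos (by linarith [Nat.cast_nonneg (α := ℝ) L]) (by linarith)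
      nlinarith
    have hX : A * (H : ℝ) ^ (1 - c) ≤ m * r * δ := by
      rw [e1c, hδ]
      have h7 : 0 < (H : ℝ) ^ (-c) := by positivity
      calc A * (H * (H : ℝ) ^ (-c)) ≤ a / 6 * (H * (H : ℝ) ^ (-c)) := by gcongr
        _ = (H / 6) * (a * (H : ℝ) ^ (-c)) := by ring
        _ ≤ m * r * (a * (H : ℝ) ^ (-c)) := mul_le_mul_of_nonneg_right hmr (by positivity)
    have h8 : Real.exp (-(m * r * δ / 4)) ≤ Real.exp (-(q' * (H : ℝ) ^ β')) := by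
      refine Real.exp_le_exp.2 (neg_le_neg ?_)
      have h9 : (H : ℝ) ^ β' ≤ (H : ℝ) ^ (1 - c) :=
        Real.rpow_le_rpow_of_exponent_le hHr (by rw [hβ']; exact min_le_left _ _)
      have h10 : q' ≤ A / 4 := by rw [hq']; exact min_le_left _ _
      calc q' * (H : ℝ) ^ β' ≤ A / 4 * (H : ℝ) ^ (1 - c) :=
            mul_le_mul h10 h9 (by positivity) (by positivity)
        _ ≤ m * r * δ / 4 := by linarith
    have hr1' : 1 ≤ r := by omega
    have hs' : 0 ≤ m * r * δ * s / 8 := by positivity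
    have hre : (H : ℝ) ^ (c * e) / 2 ≤ (r : ℝ) ^ e := by
      calc (H : ℝ) ^ (c * e) / 2 ≤ (H : ℝ) ^ (c * e) * (2 : ℝ) ^ (-e) := by
            rw [div_eq_mul_inv]
            refine mul_le_mul_of_nonneg_left ?_ (by positivity)
            have : (2 : ℝ)⁻¹ = (2 : ℝ) ^ (-1 : ℝ) := by rw [Real.rpow_neg_one]
            rw [this]
            exact Real.rpow_le_rpow_of_exponent_le (by norm_num) (by linarith)
        _ = ((H : ℝ) ^ c / 2) ^ e := by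
            rw [Real.div_rpow hHc0 (by norm_num), ← Real.rpow_mul hHp.le, Real.rpow_neg (by norm_num), div_eq_mul_inv]
        _ ≤ (r : ℝ) ^ e := Real.rpow_le_rpow (by positivity) hr3 he0
    have hs'' : 1 ≤ m * r * δ * s / 8 * (r : ℝ) ^ e := by
      have h11 : A * (H : ℝ) ^ (1 - c) * s / 8 * ((H : ℝ) ^ (c * e) / 2) ≤ m * r * δ * s / 8 * (r : ℝ) ^ e := by
        refine mul_le_mul ?_ hre (by positivity) hs'
        have := mul_le_mul_of_nonneg_right hX hs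
        linarith
      refine le_trans ?_ h11
      have e3 : A * (H : ℝ) ^ (1 - c) * s / 8 * ((H : ℝ) ^ (c * e) / 2) = A / 16 * (H : ℝ) ^ σ * (s * (H : ℝ) ^ e') := by
        have e4 : (H : ℝ) ^ (1 - c) * (H : ℝ) ^ (c * e) = (H : ℝ) ^ σ * (H : ℝ) ^ e' := by
          rw [← Real.rpow_add hHp, ← Real.rpow_add hHp]
          congr 1; rw [hσ]; ring
        calc A * (H : ℝ) ^ (1 - c) * s / 8 * ((H : ℝ) ^ (c * e) / 2) =
              A / 16 * s * ((H : ℝ) ^ (1 - c) * (H : ℝ) ^ (c * e)) := by ring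
          _ = _ := by rw [e4]; ring
      rw [e3]
      have h12 : 1 ≤ A / 16 * (H : ℝ) ^ σ := by
        rw [div_le_iff₀ hA0] at hcσ
        linarith
      nlinarith
    have h13 := hP r hr1' (m * r * δ * s / 8) hs' hs''
    have h14 : Real.exp (-(q * (r : ℝ) ^ β)) ≤ Real.exp (-(q' * (H : ℝ) ^ β')) := by
      refine Real.exp_le_exp.2 (neg_le_neg ?_)
      have h9 : (H : ℝ) ^ β' ≤ (H : ℝ) ^ (c * β) :=
        Real.rpow_le_rpow_of_exponent_le hHr (by rw [hβ']; exact min_le_right _ _)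
      have h10 : q' ≤ q * (2 : ℝ) ^ (-β) := by rw [hq']; exact min_le_right _ _
      have h15 : (2 : ℝ) ^ (-β) * (H : ℝ) ^ (c * β) ≤ (r : ℝ) ^ β := by
        calc (2 : ℝ) ^ (-β) * (H : ℝ) ^ (c * β) = ((H : ℝ) ^ c / 2) ^ β := by
              rw [Real.div_rpow hHc0 (by norm_num), ← Real.rpow_mul hHp.le, Real.rpow_neg (by norm_num), div_eq_mul_inv,
                mul_comm]
          _ ≤ (r : ℝ) ^ β := Real.rpow_le_rpow (by positivity) hr3 hβ.le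
      calc q' * (H : ℝ) ^ β' ≤ (q * (2 : ℝ) ^ (-β)) * (H : ℝ) ^ (c * β) :=
            mul_le_mul h10 h9 (by positivity) (by positivity)
        _ = q * ((2 : ℝ) ^ (-β) * (H : ℝ) ^ (c * β)) := by ring
        _ ≤ q * (r : ℝ) ^ β := mul_le_mul_of_nonneg_left h15 hq.le
    calc Real.exp (-(m * r * δ / 4)) + ∫ ω, Real.exp (-(m * r * δ * s / 8) * cnt f r (cf ξ ω)) ∂μ
        ≤ Real.exp (-(q' * (H : ℝ) ^ β')) + C * Real.exp (-(q' * (H : ℝ) ^ β')) :=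
          add_le_add h8 (h13.trans (mul_le_mul_of_nonneg_left h14 hC.le))
      _ = (1 + C) * Real.exp (-(q' * (H : ℝ) ^ β')) := by ring
      _ ≤ _ := mul_le_mul_of_nonneg_right (le_max_left _ _) (Real.exp_pos _).le

theorem PP_all [IsProbabilityMeasure μ] (hm : ∀ k, Measurable (ξ k)) (hi : iIndepFun ξ μ) {c a : ℝ}
    (hc : 0 < c) (hc1 : c < 1) (ha : 0 < a)
    (hp : ∀ k : ℕ, 1 ≤ k → a * (k : ℝ) ^ (-c) ≤ pr μ ξ k ∧ pr μ ξ k ≤ 1 - a * (k : ℝ) ^ (-c))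
    {L : ℕ} {κ : ℝ} {sg : ℕ → Bool} {f : ℕ → Cfg → ℂ} (hf : Proc L κ sg f) {e : ℝ} (he : e < 1) : PP μ ξ f e := by
  obtain ⟨c', hc'⟩ : ∃ c', c' = (1 + c) / 2 := ⟨_, rfl⟩
  have hc'0 : 0 < c' := by rw [hc']; linarith
  have hc'1 : c' < 1 := by rw [hc']; linarith
  have hcc' : c < c' := by rw [hc']; linarith
  have hall : ∀ n : ℕ, PP μ ξ f (1 - c' ^ n) := by
    intro n
    induction n with
    | zero =>
      rw [pow_zero, sub_self]
      exact PP_zero hm hi hc hc1 ha hp hf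
    | succ n IH =>
      have h1 : 0 < c' ^ n := by positivity
      have h2 : c' ^ n ≤ 1 := pow_le_one₀ hc'0.le hc'1.le
      refine PP_step hm hi hc hc1 ha hp hf (e := 1 - c' ^ n) (by linarith) (by linarith) ?_ IH
      rw [pow_succ]
      nlinarith
  obtain ⟨n, hn⟩ := exists_pow_lt_of_lt_one (by linarith : 0 < 1 - e) hc'1
  obtain ⟨C, β, q, hC, hβ, hq, hP⟩ := hall n
  refine ⟨C, β, q, hC, hβ, hq, fun H hH s hs hs1 => hP H hH s hs (hs1.trans ?_)⟩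
  refine mul_le_mul_of_nonneg_left ?_ hs
  exact Real.rpow_le_rpow_of_exponent_le (by exact_mod_cast hH) (by linarith)

/-- the second moment for all exponents `c < 1` -/
theorem moment2 [IsProbabilityMeasure μ] (hm : ∀ k, Measurable (ξ k)) (hi : iIndepFun ξ μ) {c a C₀ D τ : ℝ}
    (hc : 0 < c) (hc1 : c < 1) (ha : 0 < a) (hC₀ : 1 ≤ C₀) (hD : 0 ≤ D) (hτ0 : 0 < τ) (hτ : D * c < τ)
    (hp : ∀ k : ℕ, 1 ≤ k → a * (k : ℝ) ^ (-c) ≤ pr μ ξ k ∧ pr μ ξ k ≤ 1 - a * (k : ℝ) ^ (-c))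
    {L : ℕ} {κ : ℝ} (hκ : 0 < κ)
    {sg : ℕ → Bool} {f : ℕ → Cfg → ℂ} (hf : Proc L κ sg f) {b : ℕ → ℕ} (hb : StrictMono b)
    (hbD : ∀ i, (b i : ℝ) ≤ C₀ * ((i : ℝ) + 1) ^ D) :
    ∃ C : ℝ, 0 < C ∧ ∀ I : ℕ, 1 ≤ I → ∫ ω, ‖SS f b I (cf ξ ω)‖ ^ 2 ∂μ ≤ C * (I : ℝ) ^ (1 + τ) := by
  obtain ⟨e, he⟩ : ∃ e, e = (1 + D * c / τ) / 2 := ⟨_, rfl⟩
  have hDτ : D * c / τ < 1 := by rw [div_lt_one hτ0]; exact hτ
  have he1 : e < 1 := by rw [he]; linarith
  have he2 : D * c < τ * e := by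
    rw [he]
    have : D * c / τ * τ = D * c := div_mul_cancel₀ _ hτ0.ne'
    nlinarith
  have he0 : 0 ≤ e := by
    rw [he]
    have : 0 ≤ D * c / τ := by positivity
    linarith
  obtain ⟨C₂, β, q, hC₂, hβ, hq, hP⟩ := PP_all hm hi hc hc1 ha hp hf he1
  obtain ⟨γ, hγ⟩ : ∃ γ, γ = τ * e - D * c := ⟨_, rfl⟩
  have hγ0 : 0 < γ := by rw [hγ]; linarith
  have hC00 : (0 : ℝ) < C₀ := by linarith
  obtain ⟨A, hA⟩ : ∃ A, A = κ * (a * C₀ ^ (-c)) := ⟨_, rfl⟩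
  have hA0 : 0 < A := by rw [hA]; positivity
  obtain ⟨C₁, hC₁, hsmall⟩ := exp_small hq (show 0 < τ * β by positivity)
  have hev : ∀ᶠ I : ℕ in atTop, 1 / A ≤ (I : ℝ) ^ γ :=
    ((tendsto_rpow_atTop hγ0).comp tendsto_natCast_atTop_atTop).eventually_ge_atTop _
  obtain ⟨I₀, hI₀⟩ := eventually_atTop.1 hev
  refine ⟨2 * (2 * (L : ℝ) + 8) + C₂ * C₁ + 2 * I₀, by positivity, fun I hI => ?_⟩
  have hI0 : (0 : ℝ) < I := by exact_mod_cast hI
  have hI1 : (1 : ℝ) ≤ I := by exact_mod_cast hI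
  have hIτ : (1 : ℝ) ≤ (I : ℝ) ^ τ := Real.one_le_rpow hI1 hτ0.le
  have hpow : (I : ℝ) ^ (1 + τ) = I * (I : ℝ) ^ τ := by
    rw [Real.rpow_add hI0, Real.rpow_one]
  rcases lt_or_ge I I₀ with hlt | hge
  · have h1 := second_moment (μ := μ) (ξ := ξ) hm hf hb I I (le_refl (0 : ℝ)) (fun i j h1 h2 => by omega)
    refine h1.trans ?_
    have hlt' : (I : ℝ) ≤ I₀ := by exact_mod_cast hlt.le
    rw [hpow]
    have h2 : 2 * (I : ℝ) * I + (I : ℝ) ^ 2 * 0 ≤ 2 * I₀ * (I * (I : ℝ) ^ τ) := by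
      have h3 : (I : ℝ) ≤ I * (I : ℝ) ^ τ := by nlinarith
      have h4 : (0 : ℝ) ≤ I * (I : ℝ) ^ τ := by positivity
      nlinarith
    have h5 : 0 ≤ (2 * (2 * (L : ℝ) + 8) + C₂ * C₁) * (I * (I : ℝ) ^ τ) := by positivity
    nlinarith
  · have hIγ := hI₀ I hge
    obtain ⟨H, hH⟩ : ∃ H : ℕ, H = ⌈(I : ℝ) ^ τ⌉₊ + 1 := ⟨_, rfl⟩
    have hH1 : (I : ℝ) ^ τ ≤ H := by
      rw [hH]; push_cast
      have := Nat.le_ceil ((I : ℝ) ^ τ)
      linarith
    have hH2 : (H : ℝ) ≤ (I : ℝ) ^ τ + 2 := by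
      rw [hH]; push_cast
      have := (Nat.ceil_lt_add_one (by positivity : (0 : ℝ) ≤ (I : ℝ) ^ τ)).le
      linarith
    have hH1' : 1 ≤ H := by omega
    obtain ⟨δ, hδ⟩ : ∃ δ, δ = a * (C₀ * (I : ℝ) ^ D) ^ (-c) := ⟨_, rfl⟩
    have hID : (1 : ℝ) ≤ (I : ℝ) ^ D := Real.one_le_rpow hI1 hD
    have hδ0 : 0 < δ := by rw [hδ]; positivity
    have hs1 : 1 ≤ κ * δ * (H : ℝ) ^ e := by
      have h1 : (I : ℝ) ^ (τ * e) ≤ (H : ℝ) ^ e := by
        rw [Real.rpow_mul hI0.le]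
        exact Real.rpow_le_rpow (by positivity) hH1 he0
      have h2 : κ * δ = A * (I : ℝ) ^ (-(D * c)) := by
        rw [hδ, hA, Real.mul_rpow hC00.le (by positivity), ← Real.rpow_mul hI0.le]
        have : D * -c = -(D * c) := by ring
        rw [this]; ring
      rw [h2]
      calc (1 : ℝ) ≤ A * (I : ℝ) ^ γ := by
            rw [div_le_iff₀ hA0] at hIγ
            linarith
        _ = A * (I : ℝ) ^ (-(D * c)) * (I : ℝ) ^ (τ * e) := by
            rw [mul_assoc, ← Real.rpow_add hI0]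
            congr 2; rw [hγ]; ring
        _ ≤ A * (I : ℝ) ^ (-(D * c)) * (H : ℝ) ^ e := mul_le_mul_of_nonneg_left h1 (by positivity)
    have hW : ∀ i j, j + (2 * H + 2 * L) ≤ i → i < I →
        ‖∫ ω, f (b i) (cf ξ ω) * star (f (b j) (cf ξ ω)) ∂μ‖ ≤ C₂ * (C₁ / I) := by
      intro i j hij hiI
      have hbij : b j + (2 * H + 2 * L) ≤ b i := by
        have h1 := add_le_of_strictMono hb j (i - j)
        have h2 : j + (i - j) = i := by omega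
        rw [h2] at h1
        omega
      have hbi : ((b i : ℕ) : ℝ) ≤ C₀ * (I : ℝ) ^ D := by
        refine (hbD i).trans (mul_le_mul_of_nonneg_left ?_ hC00.le)
        refine Real.rpow_le_rpow (by positivity) ?_ hD
        exact_mod_cast (by omega : i + 1 ≤ I)
      have h1 := pair_le hm hi hκ.le hf (b j) (b i) (max (b j + L) ((b i + L) / 2)) H (le_max_left _ _)
        (by
          have : (b i + L) / 2 ≤ max (b j + L) ((b i + L) / 2) := le_max_right _ _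
          omega) (by
          refine max_le (by omega) (by omega)) (by
          have h3 : max (b j + L) ((b i + L) / 2) ≤ b i - H := max_le (by omega) (by omega)
          omega) hδ0.le (fun k hk1 hk2 => by
            have hk0 : 1 ≤ k := by omega
            have h4 : δ ≤ a * (k : ℝ) ^ (-c) := by
              rw [hδ]
              refine mul_le_mul_of_nonneg_left ?_ ha.le
              refine Real.rpow_le_rpow_of_nonpos (by exact_mod_cast hk0) ?_ (by linarith)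
              exact (by exact_mod_cast hk2 : (k : ℝ) ≤ b i).trans hbi
            have := hp k hk0
            constructor <;> linarith [this.1, this.2])
      refine h1.trans ?_
      refine (hP H hH1' (κ * δ) (by positivity) hs1).trans (mul_le_mul_of_nonneg_left ?_ hC₂.le)
      refine le_trans ?_ (hsmall I hI)
      refine Real.exp_le_exp.2 (neg_le_neg ?_)
      refine mul_le_mul_of_nonneg_left ?_ hq.le
      rw [Real.rpow_mul hI0.le]
      exact Real.rpow_le_rpow (by positivity) hH1 hβ.le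
    have h5 := second_moment (μ := μ) (ξ := ξ) hm hf hb I (2 * H + 2 * L) (by positivity : 0 ≤ C₂ * (C₁ / I)) hW
    refine h5.trans ?_
    rw [hpow]
    have h7 : (I : ℝ) ^ 2 * (C₂ * (C₁ / I)) = C₂ * C₁ * I := by field_simp
    rw [h7]
    have h8 : C₂ * C₁ * (I : ℝ) ≤ C₂ * C₁ * (I * (I : ℝ) ^ τ) := by
      refine mul_le_mul_of_nonneg_left ?_ (by positivity)
      nlinarith
    have h9 : 2 * ((2 * H + 2 * L : ℕ) : ℝ) * I ≤ 2 * (2 * (L : ℝ) + 8) * (I * (I : ℝ) ^ τ) := by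
      push_cast
      have h10 : 2 * (H : ℝ) + 2 * L ≤ (2 * (L : ℝ) + 8) * (I : ℝ) ^ τ := by
        nlinarith [Nat.cast_nonneg (α := ℝ) L]
      nlinarith
    have h11 : 0 ≤ 2 * (I₀ : ℝ) * (I * (I : ℝ) ^ τ) := by positivity
    nlinarith

end

end Pool.Agent.Run7.h17.Sparse
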