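import Pool.Agent.Run7.h17.Sparse4
import Pool.Agent.Run7.h17.SparseM

/-!
# Random sparse changes: windows of integer valued systems
-/

set_option autoImplicit false

namespace Pool.Agent.Run7.h17.Sparse

open MeasureTheory ProbabilityTheory Finset Filter Topology

/-- integer valued systems -/
structure Sys (sg : ℕ → Bool) (g : ℕ → Cfg → ℤ) : Prop where
  loc : ∀ n, Loc (n + 1) (g n)
  tog : ∀ n k x, n < 2 * k → k ≤ n →
    g n (st x k true) = g n (st x k false) + (if sg k then g (n - k) x else -g (n - k) x)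
  zero : ∀ x, g 0 x = 1 ∨ g 0 x = -1

/-- the window of length `L` at `n` modulo `M` -/
def win (g : ℕ → Cfg → ℤ) (M L n : ℕ) (x : Cfg) : Fin L → ZMod M := fun s => (g (n + s) x : ZMod M)

lemma ch_sum {G ι : Type*} [AddCommGroup G] (ψ : AddChar G ℂ) (S : Finset ι) (F : ι → G) :
    ψ (∑ s ∈ S, F s) = ∏ s ∈ S, ψ (F s) := by
  classical
  induction S using Finset.induction_on with
  | empty => simp
  | insert a S ha IH => rw [sum_insert ha, prod_insert ha, AddChar.map_add_eq_mul, IH]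

lemma single_pow {M L : ℕ} [NeZero M] (ψ : AddChar (Fin L → ZMod M) ℂ) (s : Fin L) (z : ZMod M) :
    ψ (Pi.single s z) = ψ (Pi.single s 1) ^ z.val := by
  rw [← AddChar.map_nsmul_eq_pow]
  congr 1
  funext t
  by_cases h : t = s
  · subst h; simp
  · simp [Pi.single_eq_of_ne h]

lemma ch_top {M L : ℕ} [NeZero M] (ψ : AddChar (Fin L → ZMod M) ℂ) (hψ : ψ ≠ 1) :
    ∃ s₀ : Fin L, ψ (Pi.single s₀ 1) ≠ 1 ∧ ∀ y y' : Fin L → ZMod M, (∀ s ≤ s₀, y s = y' s) → ψ y = ψ y' := by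
  classical
  have hT : ∃ s : Fin L, ψ (Pi.single s 1) ≠ 1 := by
    by_contra hcon
    push Not at hcon
    apply hψ
    ext y
    rw [AddChar.one_apply, ← Finset.univ_sum_single y, ch_sum]
    exact prod_eq_one fun s _ => by rw [single_pow, hcon, one_pow]
  obtain ⟨s₀, hs₀, hmax⟩ := ((univ : Finset (Fin L)).filter fun s => ψ (Pi.single s 1) ≠ 1).exists_max_image id
    (by obtain ⟨s, hs⟩ := hT; exact ⟨s, by simp [hs]⟩)
  simp only [mem_filter, mem_univ, true_and, id] at hs₀ hmax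
  refine ⟨s₀, hs₀, fun y y' h => ?_⟩
  have h1 : ψ (y - y') = 1 := by
    rw [← Finset.univ_sum_single (y - y'), ch_sum]
    refine prod_eq_one fun s _ => ?_
    by_cases hs : s ≤ s₀
    · rw [Pi.sub_apply, h s hs, sub_self, Pi.single_zero, AddChar.map_zero_eq_one]
    · rw [single_pow]
      have : ψ (Pi.single s 1) = 1 := by
        by_contra h2
        exact hs (hmax s h2)
      rw [this, one_pow]
  have h2 : ψ y = ψ (y - y') * ψ y' := by
    rw [← AddChar.map_add_eq_mul, sub_add_cancel]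
  rw [h2, h1, one_mul]

lemma ch_gap {G : Type*} [AddCommGroup G] [Finite G] (ψ : AddChar G ℂ) :
    ∃ κ : ℝ, 0 < κ ∧ κ ≤ 1 ∧ ∀ y, ψ y ≠ 1 → (ψ y).re ≤ 1 - 2 * κ := by
  classical
  let h : G → ℝ := fun y => if ψ y = 1 then (1 : ℝ) else (1 - (ψ y).re) / 2
  obtain ⟨y₀, hy₀⟩ := Finite.exists_min h
  have hpos : ∀ y, 0 < h y := by
    intro y
    simp only [h]
    split_ifs with h1
    · norm_num
    · have hn : ‖ψ y‖ = 1 := AddChar.norm_apply _ _
      have hre : (ψ y).re ≤ 1 := (Complex.re_le_norm _).trans hn.le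
      have hne : (ψ y).re ≠ 1 := by
        intro h2
        apply h1
        have h3 := Complex.sq_norm (ψ y)
        rw [hn, Complex.normSq_apply, h2] at h3
        have h4 : (ψ y).im = 0 := by nlinarith
        exact Complex.ext h2 h4
      have : (ψ y).re < 1 := lt_of_le_of_ne hre hne
      linarith
  refine ⟨h y₀, hpos y₀, ?_, fun y hy => ?_⟩
  · have := hy₀ 0
    simpa [h] using this
  · have := hy₀ y
    simp only [h, if_neg hy] at this
    have e : h y₀ = if ψ y₀ = 1 then (1 : ℝ) else (1 - (ψ y₀).re) / 2 := rfl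
    rw [e]
    linarith

theorem proc_of_sys {sg : ℕ → Bool} {g : ℕ → Cfg → ℤ} (hg : Sys sg g) {M L : ℕ} [NeZero M]
    (ψ : AddChar (Fin L → ZMod M) ℂ) (hψ : ψ ≠ 1) :
    ∃ (L' : ℕ) (κ : ℝ), 0 < κ ∧ κ ≤ 1 ∧ Proc L' κ sg fun n x => ψ (win g M L n x) := by
  obtain ⟨s₀, hs₀, hag⟩ := ch_top ψ hψ
  obtain ⟨κ, hκ0, hκ1, hgap⟩ := ch_gap ψ
  refine ⟨s₀, κ, hκ0, hκ1, ?_⟩
  constructor
  · intro n x y h
    refine hag _ _ fun s hs => ?_
    have hs' : (s : ℕ) ≤ s₀ := hs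
    unfold win
    rw [hg.loc (n + s) x y fun k hk => h k (by omega)]
  · intro n x
    exact AddChar.norm_apply _ _
  · intro n x h
    exact hgap _ h
  · intro n k x h1 h2
    have key : ∀ s ≤ s₀, win g M L n (st x k true) s =
        (win g M L n (st x k false) + (if sg k then win g M L (n - k) x else -win g M L (n - k) x)) s := by
      intro s hs
      have hs' : (s : ℕ) ≤ s₀ := hs
      have h3 := hg.tog (n + s) k x (by omega) (by omega)
      have e : n + s - k = n - k + s := by omega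
      rw [e] at h3
      rw [Pi.add_apply]
      unfold win
      split_ifs with h4
      · rw [if_pos h4] at h3
        rw [h3]; push_cast; rfl
      · rw [if_neg h4] at h3
        rw [h3, Pi.neg_apply]; push_cast; rfl
    rw [hag _ _ key, AddChar.map_add_eq_mul]
    split_ifs with h4
    · rfl
    · rw [AddChar.map_neg_eq_conj]; rfl
  · intro n x hn
    have hk1 : n + (s₀ : ℕ) < 2 * (n + (s₀ : ℕ)) := by omega
    have key : ∀ s ≤ s₀, win g M L n (st x (n + s₀) true) s =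
        (win g M L n (st x (n + s₀) false) +
          (Pi.single s₀ (((if sg (n + s₀) then g 0 x else -g 0 x : ℤ)) : ZMod M) : Fin L → ZMod M)) s := by
      intro s hs
      rw [Pi.add_apply]
      unfold win
      by_cases hss : s = s₀
      · subst hss
        have h3 := hg.tog (n + s) (n + s) x hk1 le_rfl
        rw [Nat.sub_self] at h3
        rw [h3, Pi.single_eq_same]; push_cast; rfl
      · rw [Pi.single_eq_of_ne hss, add_zero]
        have hlt : (s : ℕ) < s₀ := lt_of_le_of_ne hs (fun h => hss (Fin.ext h))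
        rw [(hg.loc (n + s)).st (by omega) x true, (hg.loc (n + s)).st (by omega) x false]
    rw [hag _ _ key, AddChar.map_add_eq_mul]
    intro h
    have hne : ψ (win g M L n (st x (n + s₀) false)) ≠ 0 := by
      intro h0
      have := AddChar.norm_apply ψ (win g M L n (st x (n + s₀) false))
      rw [h0, norm_zero] at this
      exact zero_ne_one this
    have h5 : ψ (Pi.single s₀ (((if sg (n + s₀) then g 0 x else -g 0 x : ℤ)) : ZMod M)) = 1 := by
      have := mul_left_cancel₀ hne (h.trans (mul_one _).symm)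
      exact this
    -- the integer is ±1
    have h6 : (if sg (n + s₀) then g 0 x else -g 0 x : ℤ) = 1 ∨ (if sg (n + s₀) then g 0 x else -g 0 x : ℤ) = -1 := by
      rcases hg.zero x with h7 | h7 <;> rw [h7] <;> split_ifs <;> simp
    rcases h6 with h7 | h7
    · rw [h7] at h5
      apply hs₀
      simpa using h5
    · rw [h7] at h5
      apply hs₀
      have e : (Pi.single s₀ (((-1 : ℤ)) : ZMod M) : Fin L → ZMod M) = -Pi.single s₀ 1 := by
        rw [← Pi.single_neg]; push_cast; rfl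
      rw [e, AddChar.map_neg_eq_inv, inv_eq_one] at h5
      exact h5

section
variable {Ω : Type*} [MeasurableSpace Ω] {μ : Measure Ω} {ξ : ℕ → Ω → Bool}

/-- characters -/
theorem char_as [IsProbabilityMeasure μ] (hm : ∀ k, Measurable (ξ k)) (hi : iIndepFun ξ μ) {c a C₀ D τ : ℝ}
    (hc : 0 < c) (hc1 : c < 1) (ha : 0 < a) (hC₀ : 1 ≤ C₀) (hD : 0 ≤ D) (hτ0 : 0 < τ) (hτ1 : τ < 1) (hτ : D * c < τ)
    (hp : ∀ k : ℕ, 1 ≤ k → a * (k : ℝ) ^ (-c) ≤ pr μ ξ k ∧ pr μ ξ k ≤ 1 - a * (k : ℝ) ^ (-c))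
    {sg : ℕ → Bool} {g : ℕ → Cfg → ℤ} (hg : Sys sg g) {b : ℕ → ℕ} (hb : StrictMono b)
    (hbD : ∀ i, (b i : ℝ) ≤ C₀ * ((i : ℝ) + 1) ^ D) {M L : ℕ} [NeZero M] (ψ : AddChar (Fin L → ZMod M) ℂ) (hψ : ψ ≠ 1) :
    ∀ᵐ ω ∂μ, ∃ C : ℝ, ∀ I : ℕ, 1 ≤ I →
      ‖∑ i ∈ range I, ψ (win g M L (b i) (cf ξ ω))‖ ≤ C * (I : ℝ) ^ (1 - 1 / (bb τ : ℝ)) := by
  obtain ⟨L', κ, hκ0, hκ1, hf⟩ := proc_of_sys hg ψ hψ
  obtain ⟨C, hC0, hC⟩ := moment2 hm hi hc hc1 ha hC₀ hD hτ0 hτ hp hκ0 hf hb hbD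
  have h := as_bound (μ := μ) hτ1 (X := fun I ω => SS (fun n x => ψ (win g M L n x)) b I (cf ξ ω))
    (fun I => meas_loc (SS_loc hf hb I) hm)
    (fun I ω => by
      unfold SS
      refine (norm_sum_le _ _).trans ?_
      refine (sum_le_sum fun i _ => (AddChar.norm_apply ψ _).le).trans ?_
      simp)
    (fun I ω => by
      unfold SS
      rw [sum_range_succ, add_sub_cancel_left]
      exact (AddChar.norm_apply ψ _).le) hC0 hC
  exact h

open Classical in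
/-- **Equidistribution.** -/
theorem equi [IsProbabilityMeasure μ] (hm : ∀ k, Measurable (ξ k)) (hi : iIndepFun ξ μ) {c a C₀ D τ : ℝ}
    (hc : 0 < c) (hc1 : c < 1) (ha : 0 < a) (hC₀ : 1 ≤ C₀) (hD : 0 ≤ D) (hτ0 : 0 < τ) (hτ1 : τ < 1) (hτ : D * c < τ)
    (hp : ∀ k : ℕ, 1 ≤ k → a * (k : ℝ) ^ (-c) ≤ pr μ ξ k ∧ pr μ ξ k ≤ 1 - a * (k : ℝ) ^ (-c))
    {sg : ℕ → Bool} {g : ℕ → Cfg → ℤ} (hg : Sys sg g) {b : ℕ → ℕ} (hb : StrictMono b)
    (hbD : ∀ i, (b i : ℝ) ≤ C₀ * ((i : ℝ) + 1) ^ D) :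
    ∀ᵐ ω ∂μ, ∀ M L : ℕ, ∃ C : ℝ, ∀ v : Fin L → ZMod (M + 1), ∀ I : ℕ, 1 ≤ I →
      |(((range I).filter fun i => win g (M + 1) L (b i) (cf ξ ω) = v).card : ℝ) - (I : ℝ) / ((M : ℝ) + 1) ^ L| ≤
        C * (I : ℝ) ^ (1 - 1 / (bb τ : ℝ)) := by
  have hall : ∀ᵐ ω ∂μ, ∀ M L : ℕ, ∀ ψ : AddChar (Fin L → ZMod (M + 1)) ℂ, ψ ≠ 1 → ∃ C : ℝ, ∀ I : ℕ, 1 ≤ I →
      ‖∑ i ∈ range I, ψ (win g (M + 1) L (b i) (cf ξ ω))‖ ≤ C * (I : ℝ) ^ (1 - 1 / (bb τ : ℝ)) := by
    rw [ae_all_iff]; intro M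
    rw [ae_all_iff]; intro L
    have : Countable (AddChar (Fin L → ZMod (M + 1)) ℂ) := Finite.to_countable
    rw [ae_all_iff]; intro ψ
    by_cases hψ : ψ = 1
    · exact Eventually.of_forall fun ω h => absurd hψ h
    · filter_upwards [char_as hm hi hc hc1 ha hC₀ hD hτ0 hτ1 hτ hp hg hb hbD ψ hψ] with ω hω _
      exact hω
  filter_upwards [hall] with ω hω M L
  have hch : ∀ ψ : AddChar (Fin L → ZMod (M + 1)) ℂ, ∃ C : ℝ, 0 ≤ C ∧ (ψ ≠ 1 → ∀ I : ℕ, 1 ≤ I →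
      ‖∑ i ∈ range I, ψ (win g (M + 1) L (b i) (cf ξ ω))‖ ≤ C * (I : ℝ) ^ (1 - 1 / (bb τ : ℝ))) := by
    intro ψ
    by_cases hψ : ψ = 1
    · exact ⟨0, le_rfl, fun h => absurd hψ h⟩
    · obtain ⟨C, hC⟩ := hω M L ψ hψ
      refine ⟨max C 0, le_max_right _ _, fun _ I hI => (hC I hI).trans ?_⟩
      exact mul_le_mul_of_nonneg_right (le_max_left _ _) (by positivity)
  choose C hC0 hC using hch
  refine ⟨∑ ψ : AddChar (Fin L → ZMod (M + 1)) ℂ, C ψ, fun v I hI => ?_⟩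
  have hcard : (Fintype.card (Fin L → ZMod (M + 1)) : ℂ) = ((M : ℂ) + 1) ^ L := by
    rw [Fintype.card_fun, ZMod.card, Fintype.card_fin]; push_cast; rfl
  have hQ : ((M : ℂ) + 1) ^ L ≠ 0 := by
    have : ((M : ℂ) + 1) ≠ 0 := by exact_mod_cast Nat.succ_ne_zero M
    exact pow_ne_zero _ this
  have hQr : (1 : ℝ) ≤ ((M : ℝ) + 1) ^ L := one_le_pow₀ (by have := Nat.cast_nonneg (α := ℝ) M; linarith)
  -- Fourier inversion
  have e1 : (((range I).filter fun i => win g (M + 1) L (b i) (cf ξ ω) = v).card : ℂ) * ((M : ℂ) + 1) ^ L =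
      ∑ ψ : AddChar (Fin L → ZMod (M + 1)) ℂ, ψ (-v) * ∑ i ∈ range I, ψ (win g (M + 1) L (b i) (cf ξ ω)) := by
    rw [card_filter]
    push_cast
    rw [sum_mul]
    have h2 : ∀ i ∈ range I, (if win g (M + 1) L (b i) (cf ξ ω) = v then (1 : ℂ) else 0) * ((M : ℂ) + 1) ^ L =
        ∑ ψ : AddChar (Fin L → ZMod (M + 1)) ℂ, ψ (-v) * ψ (win g (M + 1) L (b i) (cf ξ ω)) := by
      intro i _
      have h3 := AddChar.sum_apply_eq_ite (-v + win g (M + 1) L (b i) (cf ξ ω))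
      have h4 : (-v + win g (M + 1) L (b i) (cf ξ ω) = 0) ↔ win g (M + 1) L (b i) (cf ξ ω) = v := by
        rw [neg_add_eq_zero]; exact eq_comm
      simp only [h4, hcard] at h3
      simp only [← AddChar.map_add_eq_mul]
      rw [h3]
      split_ifs <;> simp
    rw [sum_congr rfl h2, sum_comm]
    exact sum_congr rfl fun ψ _ => by rw [mul_sum]
  have e2 : (((range I).filter fun i => win g (M + 1) L (b i) (cf ξ ω) = v).card : ℂ) * ((M : ℂ) + 1) ^ L - I =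
      ∑ ψ ∈ (univ : Finset (AddChar (Fin L → ZMod (M + 1)) ℂ)).erase 1,
        ψ (-v) * ∑ i ∈ range I, ψ (win g (M + 1) L (b i) (cf ξ ω)) := by
    rw [e1, ← add_sum_erase _ _ (mem_univ (1 : AddChar (Fin L → ZMod (M + 1)) ℂ))]
    simp
  have h5 : ‖(((range I).filter fun i => win g (M + 1) L (b i) (cf ξ ω) = v).card : ℂ) * ((M : ℂ) + 1) ^ L - I‖ ≤
      (∑ ψ : AddChar (Fin L → ZMod (M + 1)) ℂ, C ψ) * (I : ℝ) ^ (1 - 1 / (bb τ : ℝ)) := by
    rw [e2]
    refine (norm_sum_le _ _).trans ?_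
    rw [sum_mul]
    have h6 : ∀ ψ ∈ (univ : Finset (AddChar (Fin L → ZMod (M + 1)) ℂ)).erase 1,
        ‖ψ (-v) * ∑ i ∈ range I, ψ (win g (M + 1) L (b i) (cf ξ ω))‖ ≤ C ψ * (I : ℝ) ^ (1 - 1 / (bb τ : ℝ)) := by
      intro ψ hψ
      rw [mem_erase] at hψ
      rw [norm_mul, AddChar.norm_apply, one_mul]
      exact hC ψ hψ.1 I hI
    refine (sum_le_sum h6).trans ?_
    refine sum_le_sum_of_subset_of_nonneg (erase_subset _ _) fun ψ _ _ => ?_
    exact mul_nonneg (hC0 ψ) (by positivity)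
  have e3 : ((((range I).filter fun i => win g (M + 1) L (b i) (cf ξ ω) = v).card : ℂ) * ((M : ℂ) + 1) ^ L - I) =
      (((((range I).filter fun i => win g (M + 1) L (b i) (cf ξ ω) = v).card : ℝ) * ((M : ℝ) + 1) ^ L - I : ℝ) : ℂ) := by
    push_cast; rfl
  rw [e3, Complex.norm_real, Real.norm_eq_abs] at h5
  have h7 : |(((range I).filter fun i => win g (M + 1) L (b i) (cf ξ ω) = v).card : ℝ) - (I : ℝ) / ((M : ℝ) + 1) ^ L| =
      |(((range I).filter fun i => win g (M + 1) L (b i) (cf ξ ω) = v).card : ℝ) * ((M : ℝ) + 1) ^ L - I| / ((M : ℝ) + 1) ^ L := by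
    have hQ0 : (0 : ℝ) < ((M : ℝ) + 1) ^ L := by linarith
    rw [eq_div_iff hQ0.ne', ← abs_of_pos hQ0, ← abs_mul, abs_of_pos hQ0, sub_mul, div_mul_cancel₀ _ hQ0.ne']
  rw [h7]
  refine (div_le_self (abs_nonneg _) hQr).trans h5

end

end Pool.Agent.Run7.h17.Sparse
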