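import Pool.Agent.Run7.h17.Sparse5

/-!
# Random sparse changes: partitions with parts in a changed set
-/

set_option autoImplicit false

namespace Pool.Agent.Run7.h17.Sparse

open Finset

open Classical in
/-- number of partitions of `n` with all parts satisfying `P` -/
noncomputable def pc (P : ℕ → Prop) (n : ℕ) : ℕ := (Nat.Partition.restricted n P).card

lemma pc_congr {P Q : ℕ → Prop} {n : ℕ} (h : ∀ k ≤ n, P k ↔ Q k) : pc P n = pc Q n := by
  classical
  unfold pc Nat.Partition.restricted
  congr 1
  refine filter_congr fun p _ => ?_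
  refine forall₂_congr fun i hi => h i ?_
  exact p.parts_sum ▸ Multiset.single_le_sum (fun _ _ => Nat.zero_le _) i hi

lemma pc_zero (P : ℕ → Prop) : pc P 0 = 1 := by
  classical
  unfold pc Nat.Partition.restricted
  rw [filter_true_of_mem]
  · simp
  · intro p _ i hi
    have h1 : i ≤ 0 := p.parts_sum ▸ Multiset.single_le_sum (fun _ _ => Nat.zero_le _) i hi
    have h2 := p.parts_pos hi
    omega

lemma pc_step {P Q : ℕ → Prop} {n k : ℕ} (h1 : n < 2 * k) (h2 : k ≤ n) (hP : P k) (hQ : ¬ Q k)
    (h : ∀ i, i ≠ k → (P i ↔ Q i)) : pc P n = pc Q n + pc Q (n - k) := by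
  classical
  unfold pc Nat.Partition.restricted
  have hk0 : 0 < k := by omega
  rw [← card_filter_add_card_filter_not (s := (univ : Finset n.Partition).filter fun p => ∀ i ∈ p.parts, P i)
    (fun p : n.Partition => k ∉ p.parts)]
  congr 1
  · congr 1
    ext p
    simp only [mem_filter, mem_univ, true_and]
    constructor
    · rintro ⟨h3, h4⟩ i hi
      exact (h i fun hik => h4 (hik ▸ hi)).1 (h3 i hi)
    · intro h3
      have h4 : k ∉ p.parts := fun h5 => hQ (h3 k h5)
      exact ⟨fun i hi => (h i fun hik => h4 (hik ▸ hi)).2 (h3 i hi), h4⟩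
  · symm
    refine card_bij (fun (q : (n - k).Partition) _ => (⟨k ::ₘ q.parts, ?_, ?_⟩ : n.Partition)) ?_ ?_ ?_
    · intro i hi
      rcases Multiset.mem_cons.1 hi with h3 | h3
      · rw [h3]; exact hk0
      · exact q.parts_pos h3
    · rw [Multiset.sum_cons, q.parts_sum]; omega
    · intro q hq
      simp only [mem_filter, mem_univ, true_and] at hq ⊢
      refine ⟨fun i hi => ?_, ?_⟩
      · rcases Multiset.mem_cons.1 hi with h3 | h3
        · rw [h3]; exact hP
        · exact (h i fun hik => hQ (hik ▸ hq i h3)).2 (hq i h3)
      · simp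
    · intro q _ q' _ hqq
      have h3 : k ::ₘ q.parts = k ::ₘ q'.parts := congrArg Nat.Partition.parts hqq
      exact Nat.Partition.ext ((Multiset.cons_inj_right k).1 h3)
    · intro p hp
      simp only [mem_filter, mem_univ, true_and, not_not] at hp
      obtain ⟨hp1, hp2⟩ := hp
      have h3 : k ::ₘ p.parts.erase k = p.parts := Multiset.cons_erase hp2
      have hsum : (p.parts.erase k).sum = n - k := by
        have h4 := p.parts_sum
        rw [← h3, Multiset.sum_cons] at h4
        omega
      refine ⟨⟨p.parts.erase k, fun hi => p.parts_pos (Multiset.mem_of_mem_erase hi), hsum⟩, ?_, ?_⟩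
      · simp only [mem_filter, mem_univ, true_and]
        intro i hi
        have hik : i ≠ k := by
          rintro rfl
          have h5 : i ≤ n - i := hsum ▸ Multiset.single_le_sum (fun _ _ => Nat.zero_le _) i hi
          omega
        exact (h i hik).1 (hp1 i (Multiset.mem_of_mem_erase hi))
      · exact Nat.Partition.ext h3

open Classical in
/-- partitions into parts in `A` changed at the coordinates where `x` is true form a system -/
theorem sys_parts (A : Set ℕ) : Sys (fun k => decide (k ∉ A)) fun n x => (pc (fun k => ¬ (k ∈ A ↔ x k = true)) n : ℤ) := by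
  constructor
  · intro n x y h
    simp only
    rw [pc_congr fun k hk => by rw [h k (by omega)]]
  · intro n k x h1 h2
    by_cases hk : k ∈ A
    · have h3 := pc_step (P := fun j => ¬ (j ∈ A ↔ st x k false j = true))
        (Q := fun j => ¬ (j ∈ A ↔ st x k true j = true)) h1 h2
        (by simp [st_same, hk]) (by simp [st_same, hk])
        (fun j hj => by rw [st_ne x hj, st_ne x hj])
      have h4 : pc (fun j => ¬ (j ∈ A ↔ st x k true j = true)) (n - k) =
          pc (fun j => ¬ (j ∈ A ↔ x j = true)) (n - k) :=
        pc_congr fun j hj => by rw [st_ne x (by omega)]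
      rw [h4] at h3
      simp only [hk, not_true_eq_false, decide_false, Bool.false_eq_true, if_false]
      rw [h3]; push_cast; ring
    · have h3 := pc_step (P := fun j => ¬ (j ∈ A ↔ st x k true j = true))
        (Q := fun j => ¬ (j ∈ A ↔ st x k false j = true)) h1 h2
        (by simp [st_same, hk]) (by simp [st_same, hk])
        (fun j hj => by rw [st_ne x hj, st_ne x hj])
      have h4 : pc (fun j => ¬ (j ∈ A ↔ st x k false j = true)) (n - k) =
          pc (fun j => ¬ (j ∈ A ↔ x j = true)) (n - k) :=
        pc_congr fun j hj => by rw [st_ne x (by omega)]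
      rw [h4] at h3
      simp only [hk, not_false_eq_true, decide_true, if_true]
      rw [h3]; push_cast; ring
  · intro x
    left
    rw [pc_zero]; rfl

end Pool.Agent.Run7.h17.Sparse
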