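import Pool.Agent.Run7.h17.Sparse5

/-!
# Random sparse changes: products of power series
-/

set_option autoImplicit false

namespace Pool.Agent.Run7.h17.Sparse

open Finset PowerSeries

/-- the factors: `U k = 1 + X ^ k + O(X ^ (2 k))` or `1 - X ^ k + O(X ^ (2 k))` -/
def IsFactor (U : ℕ → ℤ⟦X⟧) : Prop :=
  ∀ k, 1 ≤ k → ∃ V : ℤ⟦X⟧, U k = 1 + X ^ k + X ^ (2 * k) * V ∨ U k = 1 - X ^ k + X ^ (2 * k) * V

open Classical in
/-- the coefficient of `X ^ n` in `F * ∏ U k` over the `k` with `P k` -/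
noncomputable def cp (F : ℤ⟦X⟧) (U : ℕ → ℤ⟦X⟧) (P : ℕ → Prop) (n : ℕ) : ℤ :=
  coeff n (F * ∏ k ∈ (Icc 1 n).filter P, U k)

lemma factor_one {U : ℕ → ℤ⟦X⟧} (hU : IsFactor U) {k : ℕ} (hk : 1 ≤ k) : ∃ V : ℤ⟦X⟧, U k = 1 + X ^ k * V := by
  obtain ⟨V, h | h⟩ := hU k hk
  · refine ⟨1 + X ^ k * V, ?_⟩
    rw [h]; ring
  · refine ⟨-1 + X ^ k * V, ?_⟩
    rw [h]; ring

lemma coeff_X_pow_mul_zero (G : ℤ⟦X⟧) {n k : ℕ} (h : n < k) : coeff n (X ^ k * G) = 0 := by
  rw [coeff_X_pow_mul', if_neg (by omega)]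

/-- factors with large index do not matter -/
lemma coeff_trunc {U : ℕ → ℤ⟦X⟧} (hU : IsFactor U) (G : ℤ⟦X⟧) (S : Finset ℕ) (m : ℕ) (hS : ∀ k ∈ S, m < k) :
    coeff m (G * ∏ k ∈ S, U k) = coeff m G := by
  classical
  induction S using Finset.induction_on generalizing G with
  | empty => simp
  | insert k S hk IH =>
    rw [prod_insert hk, ← mul_assoc, IH _ fun j hj => hS j (mem_insert_of_mem hj)]
    have hmk := hS k (mem_insert_self _ _)
    obtain ⟨V, hV⟩ := factor_one hU (by omega : 1 ≤ k)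
    rw [hV, mul_add, mul_one, map_add]
    have e : G * (X ^ k * V) = X ^ k * (G * V) := by ring
    rw [e, coeff_X_pow_mul_zero _ hmk, add_zero]

lemma cp_congr {F : ℤ⟦X⟧} {U : ℕ → ℤ⟦X⟧} {P Q : ℕ → Prop} {n : ℕ} (h : ∀ k, 1 ≤ k → k ≤ n → (P k ↔ Q k)) :
    cp F U P n = cp F U Q n := by
  classical
  unfold cp
  have : (Icc 1 n).filter P = (Icc 1 n).filter Q := filter_congr fun k hk => by
    rw [mem_Icc] at hk
    exact h k hk.1 hk.2
  rw [this]

lemma cp_step {F : ℤ⟦X⟧} {U : ℕ → ℤ⟦X⟧} (hU : IsFactor U) {P Q : ℕ → Prop} {n k : ℕ} (h1 : n < 2 * k) (h2 : k ≤ n)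
    (hP : P k) (hQ : ¬ Q k) (h : ∀ i, i ≠ k → (P i ↔ Q i)) (c : ℤ) (V : ℤ⟦X⟧) (hV : U k = 1 + C c * X ^ k + X ^ (2 * k) * V) :
    cp F U P n = cp F U Q n + c * cp F U Q (n - k) := by
  classical
  have hset : (Icc 1 n).filter P = insert k ((Icc 1 n).filter Q) := by
    ext i
    rw [mem_insert, mem_filter, mem_filter, mem_Icc]
    by_cases hi : i = k
    · subst hi
      simp only [hP, hQ, true_or, and_true, iff_true]
      omega
    · rw [h i hi]
      simp [hi]
  have hk : k ∉ (Icc 1 n).filter Q := by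
    rw [mem_filter]
    exact fun h3 => hQ h3.2
  unfold cp
  rw [hset, prod_insert hk, hV]
  obtain ⟨W, hW⟩ : ∃ W, W = F * ∏ i ∈ (Icc 1 n).filter Q, U i := ⟨_, rfl⟩
  have e1 : F * ((1 + C c * X ^ k + X ^ (2 * k) * V) * ∏ i ∈ (Icc 1 n).filter Q, U i) =
      W + C c * (X ^ k * W) + X ^ (2 * k) * (V * W) := by
    rw [hW]; ring
  rw [e1, ← hW, map_add, map_add, coeff_X_pow_mul_zero _ h1, add_zero, coeff_C_mul]
  congr 2
  rw [coeff_X_pow_mul', if_pos h2, hW]
  have hsplit : (Icc 1 n).filter Q = (Icc 1 (n - k)).filter Q ∪ (Ioc (n - k) n).filter Q := by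
    ext i
    rw [mem_union, mem_filter, mem_filter, mem_filter, mem_Icc, mem_Icc, mem_Ioc]
    constructor
    · rintro ⟨⟨h3, h4⟩, h5⟩
      by_cases h6 : i ≤ n - k
      · exact Or.inl ⟨⟨h3, h6⟩, h5⟩
      · exact Or.inr ⟨⟨by omega, h4⟩, h5⟩
    · rintro (⟨⟨h3, h4⟩, h5⟩ | ⟨⟨h3, h4⟩, h5⟩)
      · exact ⟨⟨h3, by omega⟩, h5⟩
      · exact ⟨⟨by omega, h4⟩, h5⟩
  have hdis : Disjoint ((Icc 1 (n - k)).filter Q) ((Ioc (n - k) n).filter Q) := by
    rw [disjoint_left]
    intro i h3 h4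
    rw [mem_filter, mem_Icc] at h3
    rw [mem_filter, mem_Ioc] at h4
    omega
  rw [hsplit, prod_union hdis, ← mul_assoc]
  refine coeff_trunc hU _ _ _ fun i hi => ?_
  rw [mem_filter, mem_Ioc] at hi
  exact hi.1.1

open Classical in
/-- products over random sets form a system -/
theorem sys_series {F : ℤ⟦X⟧} (hF : coeff 0 F = 1 ∨ coeff 0 F = -1) {U : ℕ → ℤ⟦X⟧} (hU : IsFactor U) :
    Sys (fun k => decide (∃ V : ℤ⟦X⟧, U k = 1 + X ^ k + X ^ (2 * k) * V)) fun n x => cp F U (fun k => x k = true) n := by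
  constructor
  · intro n x y h
    exact cp_congr fun k _ hk => by rw [h k (by omega)]
  · intro n k x h1 h2
    have hk1 : 1 ≤ k := by omega
    have h5 : cp F U (fun j => st x k false j = true) (n - k) = cp F U (fun j => x j = true) (n - k) :=
      cp_congr fun j _ hj => by rw [st_ne x (by omega)]
    by_cases hs : ∃ V : ℤ⟦X⟧, U k = 1 + X ^ k + X ^ (2 * k) * V
    · obtain ⟨V, hV⟩ := hs
      have h3 := cp_step (F := F) hU (P := fun j => st x k true j = true) (Q := fun j => st x k false j = true) h1 h2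
        (by simp [st_same]) (by simp [st_same]) (fun j hj => by rw [st_ne x hj, st_ne x hj]) 1 V (by
          rw [hV]; simp)
      rw [h5, one_mul] at h3
      have hd : decide (∃ V : ℤ⟦X⟧, U k = 1 + X ^ k + X ^ (2 * k) * V) = true := by
        rw [decide_eq_true_eq]; exact ⟨V, hV⟩
      rw [hd, if_pos rfl]
      exact h3
    · obtain ⟨V, hV | hV⟩ := hU k hk1
      · exact absurd ⟨V, hV⟩ hs
      · have h3 := cp_step (F := F) hU (P := fun j => st x k true j = true) (Q := fun j => st x k false j = true) h1 h2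
          (by simp [st_same]) (by simp [st_same]) (fun j hj => by rw [st_ne x hj, st_ne x hj]) (-1) V (by
            rw [hV]; simp; ring)
        rw [h5, neg_one_mul] at h3
        have hd : decide (∃ V : ℤ⟦X⟧, U k = 1 + X ^ k + X ^ (2 * k) * V) = false := by
          rw [decide_eq_false_iff_not]; exact hs
        rw [hd, if_neg (by simp)]
        exact h3
  · intro x
    have : cp F U (fun k => x k = true) 0 = coeff 0 F := by
      unfold cp
      simp
    rw [this]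
    exact hF

end Pool.Agent.Run7.h17.Sparse
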