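import Pool.Agent.Run7.h17.Sparse3

/-!
# Random sparse changes: the multiscale recursion
-/

set_option autoImplicit false

namespace Pool.Agent.Run7.h17.Sparse

open MeasureTheory ProbabilityTheory Finset Filter Topology

lemma st_comm (x : Cfg) {k k' : ℕ} (h : k ≠ k') (b b' : Bool) : st (st x k b) k' b' = st (st x k' b') k b := by
  unfold st
  exact Function.update_comm h b b' x

/-- number of `n` in the block `[K, K + 2 r)` with `f n x ≠ 1` -/
noncomputable def nb (f : ℕ → Cfg → ℂ) (K r : ℕ) (x : Cfg) : ℝ :=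
  ∑ j ∈ range (2 * r), if f (K + j) x = 1 then (0 : ℝ) else 1

lemma nb_nonneg (f : ℕ → Cfg → ℂ) (K r : ℕ) (x : Cfg) : 0 ≤ nb f K r x :=
  sum_nonneg fun j _ => by split_ifs <;> norm_num

lemma cnt_nonneg (f : ℕ → Cfg → ℂ) (H : ℕ) (x : Cfg) : 0 ≤ cnt f H x :=
  sum_nonneg fun j _ => by split_ifs <;> norm_num

lemma nb_loc {L : ℕ} {κ : ℝ} {sg : ℕ → Bool} {f : ℕ → Cfg → ℂ} (hf : Proc L κ sg f) (K r : ℕ) :
    Loc (K + 2 * r + L) (nb f K r) := by
  intro x y h
  unfold nb
  refine sum_congr rfl fun j hj => ?_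
  rw [mem_range] at hj
  rw [hf.loc (K + j) x y fun k hk => h k (by omega)]

/-- toggling one coordinate of the first half of a block -/
lemma nb_toggle {L : ℕ} {κ : ℝ} {sg : ℕ → Bool} {f : ℕ → Cfg → ℂ} (hf : Proc L κ sg f) {K r k : ℕ} (hK : r + L ≤ K)
    (h1 : K ≤ k) (h2 : k < K + r) (x : Cfg) :
    cnt f r x ≤ nb f K r (st x k false) + nb f K r (st x k true) := by
  obtain ⟨i, rfl⟩ : ∃ i, k = K + i := ⟨k - K, by omega⟩
  have h3 : ∀ b, ∑ j ∈ range r, (if f (K + i + j) (st x (K + i) b) = 1 then (0 : ℝ) else 1) ≤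
      nb f K r (st x (K + i) b) := by
    intro b
    unfold nb
    have e : ∑ j ∈ range r, (if f (K + i + j) (st x (K + i) b) = 1 then (0 : ℝ) else 1) =
        ∑ j ∈ (range r).map ⟨fun j => i + j, fun a b h => by simpa using h⟩,
          (if f (K + j) (st x (K + i) b) = 1 then (0 : ℝ) else 1) := by
      rw [sum_map]
      refine sum_congr rfl fun j _ => ?_
      simp only [Function.Embedding.coeFn_mk, add_assoc]
    rw [e]
    refine sum_le_sum_of_subset_of_nonneg ?_ fun j _ _ => by split_ifs <;> norm_num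
    intro j hj
    rw [Finset.mem_map] at hj
    obtain ⟨l, hl, rfl⟩ := hj
    rw [mem_range] at hl ⊢
    simp only [Function.Embedding.coeFn_mk]
    omega
  refine le_trans ?_ (add_le_add (h3 false) (h3 true))
  rw [← sum_add_distrib]
  unfold cnt
  refine sum_le_sum fun j hj => ?_
  rw [mem_range] at hj
  by_cases h4 : f j x = 1
  · rw [if_pos h4]
    split_ifs <;> norm_num
  · rw [if_neg h4]
    have h5 := hf.tog (K + i + j) (K + i) x (by omega) (by omega)
    have e5 : K + i + j - (K + i) = j := by omega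
    rw [e5] at h5
    by_cases h6 : f (K + i + j) (st x (K + i) false) = 1
    · have h7 : f (K + i + j) (st x (K + i) true) ≠ 1 := by
        rw [h5, h6, one_mul]
        split_ifs
        · exact h4
        · intro h8
          apply h4
          have := congrArg star h8
          simpa using this
      rw [if_pos h6, if_neg h7]; norm_num
    · rw [if_neg h6]
      split_ifs <;> norm_num

/-- the bound for one block -/
noncomputable def th (s T : ℝ) : ℝ := (1 + Real.exp (-s * T / 2)) / 2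

noncomputable def be (s δ T : ℝ) (i : ℕ) : ℝ := th s T + (1 - th s T) * (1 - 2 * δ) ^ i

section
variable {Ω : Type*} [MeasurableSpace Ω] {μ : Measure Ω} {ξ : ℕ → Ω → Bool}

/-- iterated averages -/
noncomputable def hh (μ : Measure Ω) (ξ : ℕ → Ω → Bool) (K : ℕ) (h : Cfg → ℝ) : ℕ → Cfg → ℝ
  | 0 => h
  | i + 1 => av (pr μ ξ) (K + i) (hh μ ξ K h i)

lemma hh_loc {K N : ℕ} {h : Cfg → ℝ} (hl : Loc N h) (i : ℕ) : Loc N (hh μ ξ K h i) := by
  induction i with
  | zero => exact hl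
  | succ i IH => exact av_loc IH _ _

lemma hh_bound [IsProbabilityMeasure μ] {K r : ℕ} {h : Cfg → ℝ} {s δ : ℝ} (hδ : 0 ≤ δ) {T : Cfg → ℝ}
    (hT : Loc K T) (h1 : ∀ x, h x ≤ 1)
    (h2 : ∀ x k, K ≤ k → k < K + r → (h (st x k false) + h (st x k true)) / 2 ≤ th s (T x))
    (hp : ∀ k, K ≤ k → k < K + r → δ ≤ pr μ ξ k ∧ pr μ ξ k ≤ 1 - δ) (i : ℕ) (hi : i ≤ r) :
    (∀ x, hh μ ξ K h i x ≤ be s δ (T x) i) ∧
    (∀ x k, K + i ≤ k → k < K + r → (hh μ ξ K h i (st x k false) + hh μ ξ K h i (st x k true)) / 2 ≤ th s (T x)) := by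
  induction i with
  | zero =>
    refine ⟨fun x => ?_, fun x k hk1 hk2 => h2 x k hk1 hk2⟩
    change h x ≤ _
    unfold be
    rw [pow_zero]
    have := h1 x
    linarith
  | succ i IH =>
    obtain ⟨IH1, IH2⟩ := IH (by omega)
    refine ⟨fun x => ?_, fun x k hk1 hk2 => ?_⟩
    · change av (pr μ ξ) (K + i) (hh μ ξ K h i) x ≤ _
      unfold av
      simp only [smul_eq_mul]
      obtain ⟨hp1, hp2⟩ := hp (K + i) (by omega) (by omega)
      have hu := IH1 (st x (K + i) false)
      have hv := IH1 (st x (K + i) true)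
      rw [hT.st (by omega) x] at hu
      rw [hT.st (by omega) x] at hv
      have huv := IH2 x (K + i) le_rfl (by omega)
      have e : be s δ (T x) (i + 1) = 2 * δ * th s (T x) + (1 - 2 * δ) * be s δ (T x) i := by
        unfold be; rw [pow_succ]; ring
      rw [e]
      have h5 : 0 ≤ 1 - pr μ ξ (K + i) - δ := by linarith
      have h6 : 0 ≤ pr μ ξ (K + i) - δ := by linarith
      have h7 := mul_le_mul_of_nonneg_left hu h5
      have h8 := mul_le_mul_of_nonneg_left hv h6
      have h9 := mul_le_mul_of_nonneg_left huv (by linarith : 0 ≤ 2 * δ)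
      nlinarith
    · change (av (pr μ ξ) (K + i) (hh μ ξ K h i) (st x k false) + av (pr μ ξ) (K + i) (hh μ ξ K h i) (st x k true)) / 2 ≤ _
      unfold av
      simp only [smul_eq_mul]
      have hne : k ≠ K + i := by omega
      rw [st_comm x hne, st_comm x hne, st_comm x hne, st_comm x hne]
      have h3 := IH2 (st x (K + i) false) k (by omega) hk2
      have h4 := IH2 (st x (K + i) true) k (by omega) hk2
      rw [hT.st (by omega) x] at h3 h4
      have h5 := pr_nonneg μ ξ (K + i)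
      have h6 := pr_le_one (μ := μ) ξ (K + i)
      have h7 := mul_le_mul_of_nonneg_left h3 (by linarith : 0 ≤ 1 - pr μ ξ (K + i))
      have h8 := mul_le_mul_of_nonneg_left h4 h5
      nlinarith

/-- one block -/
theorem block [IsProbabilityMeasure μ] (hm : ∀ k, Measurable (ξ k)) (hi : iIndepFun ξ μ) {L : ℕ} {κ : ℝ}
    {sg : ℕ → Bool} {f : ℕ → Cfg → ℂ} (hf : Proc L κ sg f) {K r : ℕ} (hK : r + L ≤ K) {s δ : ℝ} (hs : 0 ≤ s)
    (hδ : 0 ≤ δ) (hδ1 : δ ≤ 1 / 2) (hp : ∀ k, K ≤ k → k < K + r → δ ≤ pr μ ξ k ∧ pr μ ξ k ≤ 1 - δ)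
    {G : Cfg → ℝ} (hG : Loc K G) (hG0 : ∀ x, 0 ≤ G x) :
    ∫ ω, G (cf ξ ω) * Real.exp (-s * nb f K r (cf ξ ω)) ∂μ ≤
      ∫ ω, G (cf ξ ω) * be s δ (cnt f r (cf ξ ω)) r ∂μ := by
  obtain ⟨h, hh0⟩ : ∃ h : Cfg → ℝ, h = fun x => Real.exp (-s * nb f K r x) := ⟨_, rfl⟩
  have hl : Loc (K + 2 * r + L) h := by
    intro x y hxy
    rw [hh0]; simp only
    rw [nb_loc hf K r x y hxy]
  have hT : Loc K (cnt f r) := (cnt_loc hf r).mono hK
  have h1 : ∀ x, h x ≤ 1 := by
    intro x; rw [hh0]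
    refine Real.exp_le_one_iff.2 ?_
    have := nb_nonneg f K r x
    nlinarith
  have h2 : ∀ x k, K ≤ k → k < K + r → (h (st x k false) + h (st x k true)) / 2 ≤ th s (cnt f r x) := by
    intro x k hk1 hk2
    have h3 := nb_toggle hf hK hk1 hk2 x
    unfold th
    rcases le_total (nb f K r (st x k false)) (nb f K r (st x k true)) with h4 | h4
    · have h5 : h (st x k true) ≤ Real.exp (-s * cnt f r x / 2) := by
        rw [hh0]
        refine Real.exp_le_exp.2 ?_
        nlinarith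
      have := h1 (st x k false)
      linarith
    · have h5 : h (st x k false) ≤ Real.exp (-s * cnt f r x / 2) := by
        rw [hh0]
        refine Real.exp_le_exp.2 ?_
        nlinarith
      have := h1 (st x k true)
      linarith
  have hstep : ∀ i ≤ r, ∫ ω, G (cf ξ ω) * h (cf ξ ω) ∂μ = ∫ ω, G (cf ξ ω) * hh μ ξ K h i (cf ξ ω) ∂μ := by
    intro i hir
    induction i with
    | zero => rfl
    | succ i IH =>
      rw [IH (by omega)]
      have hloc : Loc (K + 2 * r + L) fun x => G x * hh μ ξ K h i x := by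
        intro x y hxy
        simp only
        rw [hG x y fun k hk => hxy k (by omega), hh_loc hl i x y hxy]
      rw [integral_av hm hi (K + i) hloc]
      congr 1
      funext ω
      change _ = G (cf ξ ω) * av (pr μ ξ) (K + i) (hh μ ξ K h i) (cf ξ ω)
      unfold av
      simp only [smul_eq_mul]
      rw [hG.st (by omega), hG.st (by omega)]
      ring
  have hb := hh_bound (μ := μ) (ξ := ξ) hδ hT h1 h2 hp r le_rfl
  have e1 : ∫ ω, G (cf ξ ω) * Real.exp (-s * nb f K r (cf ξ ω)) ∂μ = ∫ ω, G (cf ξ ω) * h (cf ξ ω) ∂μ := by rw [hh0]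
  rw [e1, hstep r le_rfl]
  have hl2 : Loc (K + 2 * r + L) fun x => G x * hh μ ξ K h r x := by
    intro x y hxy
    simp only
    rw [hG x y fun k hk => hxy k (by omega), hh_loc hl r x y hxy]
  have hl3 : Loc (K + 2 * r + L) fun x => G x * be s δ (cnt f r x) r := by
    intro x y hxy
    simp only
    rw [hG x y fun k hk => hxy k (by omega), hT x y fun k hk => hxy k (by omega)]
  exact integral_mono (int_loc hl2 hm) (int_loc hl3 hm) fun ω => mul_le_mul_of_nonneg_left (hb.1 _) (hG0 _)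

lemma be_nonneg {s δ T : ℝ} (hs : 0 ≤ s) (hδ1 : δ ≤ 1 / 2) (hT : 0 ≤ T) (i : ℕ) : 0 ≤ be s δ T i := by
  unfold be th
  have h1 : Real.exp (-s * T / 2) ≤ 1 := Real.exp_le_one_iff.2 (by nlinarith)
  have h2 := Real.exp_pos (-s * T / 2)
  have h3 : 0 ≤ (1 - 2 * δ) ^ i := pow_nonneg (by linarith) _
  have h4 : 0 ≤ (1 - (1 + Real.exp (-s * T / 2)) / 2) * (1 - 2 * δ) ^ i := mul_nonneg (by linarith) h3
  linarith

/-- many blocks -/
theorem blocks [IsProbabilityMeasure μ] (hm : ∀ k, Measurable (ξ k)) (hi : iIndepFun ξ μ) {L : ℕ} {κ : ℝ}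
    {sg : ℕ → Bool} {f : ℕ → Cfg → ℂ} (hf : Proc L κ sg f) {K r : ℕ} (hK : r + L ≤ K) {s δ : ℝ} (hs : 0 ≤ s)
    (hδ : 0 ≤ δ) (hδ1 : δ ≤ 1 / 2) (m : ℕ)
    (hp : ∀ k, K ≤ k → k < K + (2 * r + L) * m → δ ≤ pr μ ξ k ∧ pr μ ξ k ≤ 1 - δ) :
    ∀ j : ℕ, ∫ ω, (be s δ (cnt f r (cf ξ ω)) r) ^ j *
        ∏ i ∈ range m, Real.exp (-s * nb f (K + (2 * r + L) * i) r (cf ξ ω)) ∂μ ≤
      ∫ ω, (be s δ (cnt f r (cf ξ ω)) r) ^ (j + m) ∂μ := by
  induction m with
  | zero => intro j; simp
  | succ m IH =>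
    intro j
    have IH' := IH (fun k hk1 hk2 => hp k hk1 (by
      have : (2 * r + L) * (m + 1) = (2 * r + L) * m + (2 * r + L) := by ring
      omega)) (j + 1)
    have e2 : (2 * r + L) * (m + 1) = (2 * r + L) * m + (2 * r + L) := by ring
    have hG : Loc (K + (2 * r + L) * m) fun x => (be s δ (cnt f r x) r) ^ j *
        ∏ i ∈ range m, Real.exp (-s * nb f (K + (2 * r + L) * i) r x) := by
      intro x y hxy
      simp only
      rw [cnt_loc hf r x y fun k hk => hxy k (by omega)]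
      congr 1
      refine prod_congr rfl fun i hi' => ?_
      rw [mem_range] at hi'
      have h3 : (2 * r + L) * (i + 1) ≤ (2 * r + L) * m := Nat.mul_le_mul_left _ (by omega)
      have h4 : (2 * r + L) * (i + 1) = (2 * r + L) * i + (2 * r + L) := by ring
      rw [nb_loc hf (K + (2 * r + L) * i) r x y fun k hk => hxy k (by omega)]
    have hG0 : ∀ x, 0 ≤ (be s δ (cnt f r x) r) ^ j *
        ∏ i ∈ range m, Real.exp (-s * nb f (K + (2 * r + L) * i) r x) := fun x =>
      mul_nonneg (pow_nonneg (be_nonneg hs hδ1 (cnt_nonneg _ _ _) _) _) (prod_nonneg fun _ _ => (Real.exp_pos _).le)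
    have hbl := block hm hi hf (K := K + (2 * r + L) * m) (r := r) (by omega) hs hδ hδ1 (fun k hk1 hk2 => hp k (by omega) (by
      omega)) hG hG0
    have e3 : ∀ ω, (be s δ (cnt f r (cf ξ ω)) r) ^ j *
        ∏ i ∈ range (m + 1), Real.exp (-s * nb f (K + (2 * r + L) * i) r (cf ξ ω)) =
        (be s δ (cnt f r (cf ξ ω)) r) ^ j *
        (∏ i ∈ range m, Real.exp (-s * nb f (K + (2 * r + L) * i) r (cf ξ ω))) *
          Real.exp (-s * nb f (K + (2 * r + L) * m) r (cf ξ ω)) := by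
      intro ω
      rw [prod_range_succ]; ring
    simp only [e3]
    refine hbl.trans ?_
    have e4 : ∀ ω, (be s δ (cnt f r (cf ξ ω)) r) ^ j *
        (∏ i ∈ range m, Real.exp (-s * nb f (K + (2 * r + L) * i) r (cf ξ ω))) * be s δ (cnt f r (cf ξ ω)) r =
        (be s δ (cnt f r (cf ξ ω)) r) ^ (j + 1) *
        ∏ i ∈ range m, Real.exp (-s * nb f (K + (2 * r + L) * i) r (cf ξ ω)) := by
      intro ω
      rw [pow_succ]; ring
    simp only [e4]
    refine IH'.trans (le_of_eq ?_)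
    congr 1
    funext ω
    congr 1
    ring

lemma cnt_ge_blocks (f : ℕ → Cfg → ℂ) (K r L m H : ℕ) (hH : K + (2 * r + L) * m ≤ H) (x : Cfg) :
    ∑ i ∈ range m, nb f (K + (2 * r + L) * i) r x ≤ cnt f H x := by
  have h1 : ∀ m, K + (2 * r + L) * m ≤ H → ∑ i ∈ range m, nb f (K + (2 * r + L) * i) r x ≤
      cnt f (K + (2 * r + L) * m) x := by
    intro m
    induction m with
    | zero => intro _; simp [cnt_nonneg]
    | succ m IH =>
      intro hm
      have e2 : (2 * r + L) * (m + 1) = (2 * r + L) * m + (2 * r + L) := by ring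
      rw [sum_range_succ]
      have h3 := IH (by omega)
      have h4 : cnt f (K + (2 * r + L) * m) x + nb f (K + (2 * r + L) * m) r x =
          cnt f (K + (2 * r + L) * m + 2 * r) x := by
        unfold cnt nb
        rw [← sum_range_add]
      have h5 : cnt f (K + (2 * r + L) * m + 2 * r) x ≤ cnt f (K + (2 * r + L) * (m + 1)) x :=
        cnt_mono f (by omega) x
      linarith
  exact (h1 m hH).trans (cnt_mono f hH x)

/-- **The recursion.** -/
theorem recursion [IsProbabilityMeasure μ] (hm : ∀ k, Measurable (ξ k)) (hi : iIndepFun ξ μ) {L : ℕ} {κ : ℝ}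
    {sg : ℕ → Bool} {f : ℕ → Cfg → ℂ} (hf : Proc L κ sg f) {H r m : ℕ} (hH : (r + L) + (2 * r + L) * m ≤ H) {s δ : ℝ} (hs : 0 ≤ s)
    (hδ : 0 ≤ δ) (hδ1 : δ ≤ 1 / 2) (hrδ : 2 * δ * r ≤ 1)
    (hp : ∀ k, r + L ≤ k → k < H → δ ≤ pr μ ξ k ∧ pr μ ξ k ≤ 1 - δ) :
    ∫ ω, Real.exp (-s * cnt f H (cf ξ ω)) ∂μ ≤
      Real.exp (-(m * r * δ / 4)) + ∫ ω, Real.exp (-(m * r * δ * s / 8) * cnt f r (cf ξ ω)) ∂μ := by
  have h1 := blocks hm hi hf (K := r + L) (r := r) le_rfl hs hδ hδ1 m (fun k hk1 hk2 => hp k hk1 (by omega)) 0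
  have hl0 : Loc (H + L) fun x => Real.exp (-s * cnt f H x) := by
    intro x y h; simp only; rw [cnt_loc hf H x y h]
  have hl1 : Loc (H + L) fun x => (be s δ (cnt f r x) r) ^ 0 *
        ∏ i ∈ range m, Real.exp (-s * nb f (r + L + (2 * r + L) * i) r x) := by
    intro x y hxy
    simp only [pow_zero, one_mul]
    refine prod_congr rfl fun i hi' => ?_
    rw [mem_range] at hi'
    have h3 : (2 * r + L) * (i + 1) ≤ (2 * r + L) * m := Nat.mul_le_mul_left _ (by omega)
    have h4 : (2 * r + L) * (i + 1) = (2 * r + L) * i + (2 * r + L) := by ring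
    rw [nb_loc hf (r + L + (2 * r + L) * i) r x y fun k hk => hxy k (by omega)]
  have h2 : ∫ ω, Real.exp (-s * cnt f H (cf ξ ω)) ∂μ ≤ ∫ ω, (be s δ (cnt f r (cf ξ ω)) r) ^ 0 *
        ∏ i ∈ range m, Real.exp (-s * nb f (r + L + (2 * r + L) * i) r (cf ξ ω)) ∂μ := by
    refine integral_mono (int_loc hl0 hm) (int_loc hl1 hm) fun ω => ?_
    simp only [pow_zero, one_mul]
    rw [← Real.exp_sum, ← mul_sum]
    refine Real.exp_le_exp.2 ?_
    have := cnt_ge_blocks f (r + L) r L m H hH (cf ξ ω)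
    nlinarith
  refine (h2.trans h1).trans ?_
  rw [zero_add]
  have hl2 : Loc (r + L) fun x => (be s δ (cnt f r x) r) ^ m := by
    intro x y h; simp only; rw [cnt_loc hf r x y h]
  have hl3 : Loc (r + L) fun x => Real.exp (-(m * r * δ * s / 8) * cnt f r x) := by
    intro x y h; simp only; rw [cnt_loc hf r x y h]
  have hpt : ∀ x, (be s δ (cnt f r x) r) ^ m ≤
      Real.exp (-(m * r * δ / 4)) + Real.exp (-(m * r * δ * s / 8) * cnt f r x) := by
    intro x
    obtain ⟨T, hT⟩ : ∃ T, T = cnt f r x := ⟨_, rfl⟩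
    have hT0 : 0 ≤ T := by rw [hT]; exact cnt_nonneg _ _ _
    rw [← hT]
    -- be = 1 - (1 - th)(1 - (1-2δ)^r)
    have hsT : 0 ≤ s * T / 2 := by positivity
    have hq : (r : ℝ) * δ ≤ 1 - (1 - 2 * δ) ^ r := by
      have h5 : (1 - 2 * δ) ^ r ≤ Real.exp (-(2 * δ * r)) := by
        have h6 : 1 - 2 * δ ≤ Real.exp (-(2 * δ)) := by
          have := Real.add_one_le_exp (-(2 * δ)); linarith
        calc (1 - 2 * δ) ^ r ≤ (Real.exp (-(2 * δ))) ^ r := pow_le_pow_left₀ (by linarith) h6 _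
          _ = Real.exp (-(2 * δ * r)) := by
            rw [← Real.exp_nat_mul]; congr 1; ring
      have h7 := one_sub_exp (by positivity : 0 ≤ 2 * δ * r) hrδ
      linarith
    have hmin : ∀ y : ℝ, 0 ≤ y → min y 1 / 2 ≤ 1 - Real.exp (-y) := by
      intro y hy
      rcases le_total y 1 with h8 | h8
      · rw [min_eq_left h8]; exact one_sub_exp hy h8
      · rw [min_eq_right h8]
        have h9 := one_sub_exp (zero_le_one) (le_refl (1 : ℝ))
        have h10 : Real.exp (-y) ≤ Real.exp (-1) := Real.exp_le_exp.2 (by linarith)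
        linarith
    have hth : 1 - th s T = (1 - Real.exp (-(s * T / 2))) / 2 := by
      unfold th
      have : -s * T / 2 = -(s * T / 2) := by ring
      rw [this]; ring
    have hr0 : (0 : ℝ) ≤ r * δ := by positivity
    have hm1 := hmin (s * T / 2) hsT
    have hmn : 0 ≤ min (s * T / 2) 1 := le_min hsT zero_le_one
    have hbe : be s δ T r ≤ Real.exp (-(r * δ / 4 * min (s * T / 2) 1)) := by
      have h11 : be s δ T r = 1 - (1 - th s T) * (1 - (1 - 2 * δ) ^ r) := by unfold be; ring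
      have h12 : r * δ / 4 * min (s * T / 2) 1 ≤ (1 - th s T) * (1 - (1 - 2 * δ) ^ r) := by
        rw [hth]
        have h13 : min (s * T / 2) 1 / 4 ≤ (1 - Real.exp (-(s * T / 2))) / 2 := by linarith
        calc r * δ / 4 * min (s * T / 2) 1 = (min (s * T / 2) 1 / 4) * (r * δ) := by ring
          _ ≤ (1 - Real.exp (-(s * T / 2))) / 2 * (1 - (1 - 2 * δ) ^ r) :=
              mul_le_mul h13 hq hr0 (by linarith)
      have h14 := Real.add_one_le_exp (-(r * δ / 4 * min (s * T / 2) 1))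
      rw [h11]; linarith
    have h15 : (be s δ T r) ^ m ≤ Real.exp (-(m * r * δ / 4 * min (s * T / 2) 1)) := by
      calc (be s δ T r) ^ m ≤ (Real.exp (-(r * δ / 4 * min (s * T / 2) 1))) ^ m :=
            pow_le_pow_left₀ (be_nonneg hs hδ1 hT0 _) hbe _
        _ = _ := by rw [← Real.exp_nat_mul]; congr 1; ring
    refine h15.trans ?_
    rcases le_total (s * T / 2) 1 with h16 | h16
    · rw [min_eq_left h16]
      have e : -(m * r * δ / 4 * (s * T / 2)) = -(m * r * δ * s / 8) * T := by ring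
      rw [e]
      have := Real.exp_pos (-(m * r * δ / 4))
      linarith
    · rw [min_eq_right h16, mul_one]
      have := Real.exp_pos (-(m * r * δ * s / 8) * T)
      linarith
  calc ∫ ω, (be s δ (cnt f r (cf ξ ω)) r) ^ m ∂μ
      ≤ ∫ ω, (Real.exp (-(m * r * δ / 4)) + Real.exp (-(m * r * δ * s / 8) * cnt f r (cf ξ ω))) ∂μ :=
        integral_mono (int_loc hl2 hm) ((integrable_const _).add (int_loc hl3 hm)) fun ω => hpt _
    _ = _ := by
        rw [integral_add (integrable_const _) (int_loc hl3 hm)]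
        simp

end

end Pool.Agent.Run7.h17.Sparse
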